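import Mathlib

/-!
# JOB TE2: a Schwarz lemma for polydiscs (pure complex analysis)

Let `h` be the most frequent letter of the word `w`, `k ≥ T / m` its multiplicity. Let `g` be the
derivative of `Ψ` in the other directions, restricted to the line of the `h`-th coordinate axis. By
Cauchy's inequalities with radius one in each direction,
`|g| ≤ ∏_{i ≠ h} k_i! M` for `|z| < R - 1`. As `Ψ = O(‖x - s e_h‖^T)` at the integral points `s` with
`-a ≤ s < N - a`, the function `g` vanishes there to order at least `k`; divide by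
`∏ (z - s)^k` (or apply the maximum principle / `Complex` Schwarz-type lemmas repeatedly):
`|g^(k)(0)| ≤ k! M ∏ k_i! (R / 4)^(- k N)` for `R ≥ 4 N + 4`.
-/

set_option autoImplicit false

namespace Pool.Agent.Arith

open Metric

section osgood
variable {m : ℕ} {U : Set (Fin m → ℂ)} {Ψ : (Fin m → ℂ) → ℂ}

/-- Derivative along a line. -/
theorem te2_line (hU : IsOpen U) (hΨ : DifferentiableOn ℂ Ψ U) {y : Fin m → ℂ}
    (u : Fin m → ℂ) {ζ : ℂ} (h : y + ζ • u ∈ U) :
    HasDerivAt (fun ζ : ℂ => Ψ (y + ζ • u)) (fderiv ℂ Ψ (y + ζ • u) u) ζ := by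
  have h1 : HasFDerivAt Ψ (fderiv ℂ Ψ (y + ζ • u)) (y + ζ • u) :=
    (hΨ.differentiableAt (hU.mem_nhds h)).hasFDerivAt
  have h2 : HasDerivAt (fun ζ : ℂ => y + ζ • u) u ζ := by
    simpa using ((hasDerivAt_id ζ).smul_const u).const_add y
  exact h1.comp_hasDerivAt ζ h2

/-- Cauchy's inequality for the derivative in one direction. -/
theorem te2_cauchy1 (hU : IsOpen U) (hΨ : DifferentiableOn ℂ Ψ U) {y u : Fin m → ℂ}
    {r B : ℝ} (hr : 0 < r) (h : ∀ ζ : ℂ, ‖ζ‖ ≤ r → y + ζ • u ∈ U)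
    (hB : ∀ ζ : ℂ, ‖ζ‖ = r → ‖Ψ (y + ζ • u)‖ ≤ B) : ‖fderiv ℂ Ψ y u‖ ≤ B / r := by
  have h0 : HasDerivAt (fun ζ : ℂ => Ψ (y + ζ • u)) (fderiv ℂ Ψ y u) 0 := by
    have := te2_line hU hΨ (y := y) u (ζ := 0) (h 0 (by simpa using hr.le))
    simpa using this
  rw [← h0.deriv]
  refine Complex.norm_deriv_le_of_forall_mem_sphere_norm_le hr ?_ ?_
  · have : DifferentiableOn ℂ (fun ζ : ℂ => Ψ (y + ζ • u)) (closedBall 0 r) := by
      intro ζ hζ
      exact (te2_line hU hΨ u (h ζ (by simpa using hζ))).differentiableAt.differentiableWithinAt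
    exact (this.mono closure_ball_subset_closedBall).diffContOnCl
  · intro ζ hζ
    exact hB ζ (by simpa using hζ)

/-- The directional derivatives of a complex differentiable function are differentiable. -/
theorem te2_dirderiv (hU : IsOpen U) (hΨ : DifferentiableOn ℂ Ψ U) (v : Fin m → ℂ) :
    DifferentiableOn ℂ (fun x => fderiv ℂ Ψ x v) U := by
  intro x0 hx0
  obtain ⟨ε, hε, hball⟩ := Metric.isOpen_iff.1 hU x0 hx0
  obtain ⟨ρ, hρ0, hρ⟩ : ∃ ρ : ℝ, 0 < ρ ∧ 2 * ρ < ε := ⟨ε / 3, by positivity, by linarith⟩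
  have hsub : closedBall x0 (2 * ρ) ⊆ U := (closedBall_subset_ball hρ).trans hball
  obtain ⟨B, hB⟩ := (isCompact_closedBall x0 (2 * ρ)).exists_bound_of_continuousOn
    (hΨ.continuousOn.mono hsub)
  have hB0 : 0 ≤ B := (norm_nonneg _).trans (hB x0 (mem_closedBall_self (by positivity)))
  have hin : ∀ y ∈ closedBall x0 ρ, ∀ w : Fin m → ℂ, ‖w‖ ≤ ρ → y + w ∈ closedBall x0 (2 * ρ) := by
    intro y hy w hw
    rw [mem_closedBall, dist_eq_norm] at hy ⊢
    calc ‖y + w - x0‖ = ‖(y - x0) + w‖ := by congr 1; abel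
      _ ≤ ‖y - x0‖ + ‖w‖ := norm_add_le _ _
      _ ≤ 2 * ρ := by linarith
  have hbd : ∀ y ∈ closedBall x0 ρ, ‖fderiv ℂ Ψ y‖ ≤ B / ρ := by
    intro y hy
    refine ContinuousLinearMap.opNorm_le_bound _ (by positivity) fun u => ?_
    by_cases hu : u = 0
    · simp [hu]
    have hu' : 0 < ‖u‖ := norm_pos_iff.2 hu
    have h1 : ∀ ζ : ℂ, ‖ζ‖ ≤ ρ / ‖u‖ → ‖ζ • u‖ ≤ ρ := by
      intro ζ hζ
      rw [norm_smul]
      rwa [le_div_iff₀ hu'] at hζ
    have := te2_cauchy1 hU hΨ (y := y) (u := u) (r := ρ / ‖u‖) (B := B) (by positivity)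
      (fun ζ hζ => hsub (hin y hy _ (h1 ζ hζ))) (fun ζ hζ => hB _ (hin y hy _ (h1 ζ hζ.le)))
    calc ‖fderiv ℂ Ψ y u‖ ≤ B / (ρ / ‖u‖) := this
      _ = B / ρ * ‖u‖ := by field_simp
  obtain ⟨r, hr0, hr⟩ : ∃ r : ℝ, 0 < r ∧ r * ‖v‖ ≤ ρ / 2 := by
    refine ⟨ρ / 2 / (‖v‖ + 1), by positivity, ?_⟩
    rw [div_mul_eq_mul_div, div_le_iff₀ (by positivity)]
    nlinarith [norm_nonneg v]
  have hc : ∀ θ : ℝ, ‖circleMap 0 r θ • v‖ ≤ ρ / 2 := by
    intro θ
    rw [norm_smul, norm_circleMap_zero, abs_of_pos hr0]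
    exact hr
  have hc2 : ∀ x ∈ ball x0 (ρ / 2), ∀ θ : ℝ, x + circleMap 0 r θ • v ∈ closedBall x0 ρ := by
    intro x hx θ
    rw [mem_ball, dist_eq_norm] at hx
    rw [mem_closedBall, dist_eq_norm]
    calc ‖x + circleMap 0 r θ • v - x0‖ = ‖(x - x0) + circleMap 0 r θ • v‖ := by congr 1; abel
      _ ≤ ‖x - x0‖ + ‖circleMap 0 r θ • v‖ := norm_add_le _ _
      _ ≤ ρ := by linarith [hc θ]
  have hρsub : closedBall x0 ρ ⊆ U := (closedBall_subset_closedBall (by linarith)).trans hsub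
  -- the integrand
  set k : ℝ → ℂ := fun θ => deriv (circleMap 0 r) θ * (1 / (circleMap 0 r θ - 0) ^ 2) with hk
  have hkc : Continuous k := by
    rw [hk]
    have h1 : Continuous fun θ : ℝ => deriv (circleMap 0 r) θ := by
      simp only [deriv_circleMap]
      exact (continuous_circleMap 0 r).mul continuous_const
    refine h1.mul (Continuous.div continuous_const (by fun_prop) fun θ => ?_)
    rw [sub_zero]
    exact pow_ne_zero _ (circleMap_ne_center hr0.ne')
  have hform : ∀ x ∈ ball x0 (ρ / 2), fderiv ℂ Ψ x v =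
      (2 * Real.pi * Complex.I)⁻¹ * ∫ θ in (0 : ℝ)..2 * Real.pi,
        k θ * Ψ (x + circleMap 0 r θ • v) := by
    intro x hx
    have hxU : ∀ ζ : ℂ, ‖ζ‖ ≤ r → x + ζ • v ∈ U := by
      intro ζ hζ
      refine hρsub ?_
      rw [mem_ball, dist_eq_norm] at hx
      rw [mem_closedBall, dist_eq_norm]
      have h3 : ‖ζ • v‖ ≤ ρ / 2 := by
        rw [norm_smul]
        exact (mul_le_mul_of_nonneg_right hζ (norm_nonneg v)).trans hr
      calc ‖x + ζ • v - x0‖ = ‖(x - x0) + ζ • v‖ := by congr 1; abel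
        _ ≤ ‖x - x0‖ + ‖ζ • v‖ := norm_add_le _ _
        _ ≤ ρ := by linarith
    have h0 : HasDerivAt (fun ζ : ℂ => Ψ (x + ζ • v)) (fderiv ℂ Ψ x v) 0 := by
      have := te2_line hU hΨ (y := x) v (ζ := 0) (hxU 0 (by simpa using hr0.le))
      simpa using this
    have h4 : DifferentiableOn ℂ (fun ζ : ℂ => Ψ (x + ζ • v)) (closedBall 0 r) := by
      intro ζ hζ
      exact (te2_line hU hΨ v (hxU ζ (by simpa using hζ))).differentiableAt.differentiableWithinAt
    have h5 := h4.deriv_eq_smul_circleIntegral hr0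
    rw [h0.deriv] at h5
    have h6 : (2 * Real.pi * Complex.I : ℂ) ≠ 0 := Complex.two_pi_I_ne_zero
    rw [smul_eq_mul] at h5
    rw [eq_inv_mul_iff_mul_eq₀ h6, ← h5]
    simp only [circleIntegral, smul_eq_mul, hk]
    congr 1
    funext θ
    ring
  -- differentiate under the integral sign
  have hmeasΨ' : Measurable fun θ : ℝ => fderiv ℂ Ψ (x0 + circleMap 0 r θ • v) := by
    refine (measurable_fderiv ℂ Ψ).comp ?_
    exact (continuous_const.add ((continuous_circleMap 0 r).smul continuous_const)).measurable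
  have hmain := intervalIntegral.hasFDerivAt_integral_of_dominated_of_fderiv_le (𝕜 := ℂ)
    (μ := MeasureTheory.volume) (a := 0) (b := 2 * Real.pi)
    (F := fun x θ => k θ * Ψ (x + circleMap 0 r θ • v))
    (F' := fun x θ => k θ • fderiv ℂ Ψ (x + circleMap 0 r θ • v)) (x₀ := x0)
    (s := ball x0 (ρ / 2)) (bound := fun θ => ‖k θ‖ * (B / ρ)) (ball_mem_nhds x0 (by positivity))
    ?_ ?_ ?_ ?_ ?_ ?_
  · have h7 : HasFDerivAt (fun x => (2 * Real.pi * Complex.I)⁻¹ * ∫ θ in (0 : ℝ)..2 * Real.pi,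
        k θ * Ψ (x + circleMap 0 r θ • v)) ((2 * Real.pi * Complex.I : ℂ)⁻¹ •
        ∫ θ in (0 : ℝ)..2 * Real.pi, k θ • fderiv ℂ Ψ (x0 + circleMap 0 r θ • v)) x0 := by
      exact hmain.const_mul _
    have h8 : (fun x => fderiv ℂ Ψ x v) =ᶠ[nhds x0] fun x => (2 * Real.pi * Complex.I)⁻¹ *
        ∫ θ in (0 : ℝ)..2 * Real.pi, k θ * Ψ (x + circleMap 0 r θ • v) :=
      Filter.eventuallyEq_of_mem (ball_mem_nhds x0 (by positivity)) hform
    exact (h7.congr_of_eventuallyEq h8).differentiableAt.differentiableWithinAt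
  · refine Filter.eventually_of_mem (ball_mem_nhds x0 (half_pos hρ0)) fun x hx => ?_
    have : Continuous fun θ : ℝ => k θ * Ψ (x + circleMap 0 r θ • v) := by
      refine hkc.mul ?_
      refine (hΨ.continuousOn.mono hρsub).comp_continuous ?_ (hc2 x hx)
      exact continuous_const.add ((continuous_circleMap 0 r).smul continuous_const)
    exact this.aestronglyMeasurable
  · have : Continuous fun θ : ℝ => k θ * Ψ (x0 + circleMap 0 r θ • v) := by
      refine hkc.mul ?_
      refine (hΨ.continuousOn.mono hρsub).comp_continuous ?_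
        (hc2 x0 (mem_ball_self (by positivity)))
      exact continuous_const.add ((continuous_circleMap 0 r).smul continuous_const)
    exact this.intervalIntegrable _ _
  · have : Measurable fun θ : ℝ => k θ • fderiv ℂ Ψ (x0 + circleMap 0 r θ • v) :=
      hkc.measurable.smul hmeasΨ'
    exact this.aestronglyMeasurable
  · refine Filter.Eventually.of_forall fun θ _ x hx => ?_
    rw [norm_smul]
    exact mul_le_mul_of_nonneg_left (hbd _ (hc2 x hx θ)) (norm_nonneg _)
  · exact (hkc.norm.mul continuous_const).intervalIntegrable _ _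
  · refine Filter.Eventually.of_forall fun θ _ x hx => ?_
    have h9 : HasFDerivAt Ψ (fderiv ℂ Ψ (x + circleMap 0 r θ • v)) (x + circleMap 0 r θ • v) :=
      (hΨ.differentiableAt (hU.mem_nhds (hρsub (hc2 x hx θ)))).hasFDerivAt
    have h10 : HasFDerivAt (fun x => Ψ (x + circleMap 0 r θ • v))
        (fderiv ℂ Ψ (x + circleMap 0 r θ • v)) x := by
      have := h9.comp x ((hasFDerivAt_id x).add_const (circleMap 0 r θ • v))
      rw [ContinuousLinearMap.comp_id] at this
      exact this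
    exact h10.const_mul _

theorem te2_contDiff (hU : IsOpen U) (n : ℕ) {Ψ : (Fin m → ℂ) → ℂ}
    (hΨ : DifferentiableOn ℂ Ψ U) : ContDiffOn ℂ n Ψ U := by
  induction n generalizing Ψ with
  | zero => exact contDiffOn_zero.2 hΨ.continuousOn
  | succ n ih =>
    have : ((n + 1 : ℕ) : WithTop ℕ∞) = (n : WithTop ℕ∞) + 1 := by simp
    rw [this, contDiffOn_succ_iff_fderiv_of_isOpen hU]
    refine ⟨hΨ, fun h => ?_, ?_⟩
    · exact absurd h (by simp)
    · rw [contDiffOn_clm_apply]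
      exact fun y => ih (te2_dirderiv hU hΨ y)

end osgood

section words
variable {m : ℕ} {U : Set (Fin m → ℂ)}

/-- Iterated partial derivatives along a word. -/
noncomputable def te2D : List (Fin m) → ((Fin m → ℂ) → ℂ) → (Fin m → ℂ) → ℂ
  | [], F => F
  | i :: L, F => fun x => fderiv ℂ (te2D L F) x (Pi.single i 1)

theorem te2D_diff (hU : IsOpen U) (L : List (Fin m)) {F : (Fin m → ℂ) → ℂ}
    (hF : DifferentiableOn ℂ F U) : DifferentiableOn ℂ (te2D L F) U := by
  induction L with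
  | nil => exact hF
  | cons i L ih => exact te2_dirderiv hU ih _

theorem te2D_append (L₁ L₂ : List (Fin m)) (F : (Fin m → ℂ) → ℂ) :
    te2D (L₁ ++ L₂) F = te2D L₁ (te2D L₂ F) := by
  induction L₁ with
  | nil => rfl
  | cons i L ih =>
    funext x
    show fderiv ℂ (te2D (L ++ L₂) F) x _ = fderiv ℂ (te2D L (te2D L₂ F)) x _
    rw [ih]

theorem te2D_congr (hU : IsOpen U) (L : List (Fin m)) {F G : (Fin m → ℂ) → ℂ}
    (h : Set.EqOn F G U) : Set.EqOn (te2D L F) (te2D L G) U := by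
  induction L with
  | nil => exact h
  | cons i L ih =>
    intro x hx
    show fderiv ℂ (te2D L F) x _ = fderiv ℂ (te2D L G) x _
    rw [Filter.EventuallyEq.fderiv_eq (Filter.eventuallyEq_of_mem (hU.mem_nhds hx) ih)]

theorem te2D_swap (hU : IsOpen U) {F : (Fin m → ℂ) → ℂ}
    (hF : DifferentiableOn ℂ F U) (i j : Fin m) {x : Fin m → ℂ} (hx : x ∈ U) :
    fderiv ℂ (fun y => fderiv ℂ F y (Pi.single i 1)) x (Pi.single j 1) =
      fderiv ℂ (fun y => fderiv ℂ F y (Pi.single j 1)) x (Pi.single i 1) := by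
  have h2 : ContDiffAt ℂ 2 F x := (te2_contDiff hU 2 hF).contDiffAt (hU.mem_nhds hx)
  have hs : IsSymmSndFDerivAt ℂ F x := by
    refine h2.isSymmSndFDerivAt ?_
    rw [minSmoothness_of_isRCLikeNormedField]
  have hd : DifferentiableAt ℂ (fderiv ℂ F) x :=
    (h2.fderiv_right (m := 1) (by norm_num)).differentiableAt (by norm_num)
  have key : ∀ u v : Fin m → ℂ, fderiv ℂ (fun y => fderiv ℂ F y u) x v =
      fderiv ℂ (fderiv ℂ F) x v u := by
    intro u v
    have := hd.hasFDerivAt.clm_apply (hasFDerivAt_const u x)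
    rw [this.fderiv]
    simp
  rw [key, key]
  exact hs.eq _ _

theorem te2D_perm (hU : IsOpen U) {F : (Fin m → ℂ) → ℂ} (hF : DifferentiableOn ℂ F U)
    {L₁ L₂ : List (Fin m)} (h : L₁.Perm L₂) : Set.EqOn (te2D L₁ F) (te2D L₂ F) U := by
  induction h with
  | nil => exact fun _ _ => rfl
  | cons i _ ih =>
    intro x hx
    show fderiv ℂ (te2D _ F) x _ = fderiv ℂ (te2D _ F) x _
    rw [Filter.EventuallyEq.fderiv_eq (Filter.eventuallyEq_of_mem (hU.mem_nhds hx) ih)]
  | swap i j L =>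
    intro x hx
    exact te2D_swap hU (te2D_diff hU L hF) _ _ hx
  | trans _ _ ih1 ih2 => exact ih1.trans ih2

theorem te2D_iterated (hU : IsOpen U) {F : (Fin m → ℂ) → ℂ} (hF : DifferentiableOn ℂ F U)
    (n : ℕ) (w : Fin n → Fin m) {x : Fin m → ℂ} (hx : x ∈ U) :
    iteratedFDeriv ℂ n F x (fun l => Pi.single (w l) 1) = te2D (List.ofFn w) F x := by
  induction n generalizing x with
  | zero => simp [te2D]
  | succ n ih =>
    rw [iteratedFDeriv_succ_apply_left, List.ofFn_succ]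
    show _ = fderiv ℂ (te2D (List.ofFn fun i => w i.succ) F) x (Pi.single (w 0) 1)
    have hcd : ContDiffAt ℂ ((n + 1 : ℕ) : WithTop ℕ∞) F x :=
      (te2_contDiff hU (n + 1) hF).contDiffAt (hU.mem_nhds hx)
    have hd : DifferentiableAt ℂ (iteratedFDeriv ℂ n F) x := by
      refine hcd.differentiableAt_iteratedFDeriv ?_
      exact_mod_cast Nat.lt_succ_self n
    have h1 : Set.EqOn (te2D (List.ofFn fun i => w i.succ) F)
        (fun y => iteratedFDeriv ℂ n F y (fun l => Pi.single (w l.succ) 1)) U := by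
      intro y hy
      exact (ih (fun i => w i.succ) hy).symm
    rw [Filter.EventuallyEq.fderiv_eq (Filter.eventuallyEq_of_mem (hU.mem_nhds hx) h1)]
    rw [fderiv_continuousMultilinear_apply_const hd]
    rfl

end words

section order
variable {m : ℕ} {U : Set (Fin m → ℂ)}

theorem te2_order (hU : IsOpen U) {F : (Fin m → ℂ) → ℂ} (hF : DifferentiableOn ℂ F U)
    {p v : Fin m → ℂ} (hp : p ∈ U) (hv : ‖v‖ = 1) (n : ℕ)
    (h : F =O[nhds p] fun x => ‖x - p‖ ^ (n + 1)) :
    (fun x => fderiv ℂ F x v) =O[nhds p] fun x => ‖x - p‖ ^ n := by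
  obtain ⟨K, hK⟩ := h.bound
  obtain ⟨ε, hε, hball⟩ := Metric.eventually_nhds_iff.1 (hK.and (hU.mem_nhds hp))
  have hK0 : 0 ≤ |K| := abs_nonneg K
  have hb : ∀ x, ‖x - p‖ < ε → x ∈ U ∧ ‖F x‖ ≤ |K| * ‖x - p‖ ^ (n + 1) := by
    intro x hx
    obtain ⟨h1, h2⟩ := hball (y := x) (by rwa [dist_eq_norm])
    refine ⟨h2, h1.trans ?_⟩
    rw [norm_pow, norm_norm]
    exact mul_le_mul_of_nonneg_right (le_abs_self K) (by positivity)
  refine Asymptotics.IsBigO.of_bound (|K| * 2 ^ (n + 1)) ?_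
  refine Metric.eventually_nhds_iff.2 ⟨ε / 2, by positivity, fun x hx => ?_⟩
  rw [dist_eq_norm] at hx
  rw [norm_pow, norm_norm]
  by_cases hxp : x = p
  · subst hxp
    have key : ∀ r : ℝ, 0 < r → r < ε → ‖fderiv ℂ F x v‖ ≤ |K| * 2 ^ (n + 1) * r ^ n := by
      intro r hr hrε
      have h1 := te2_cauchy1 hU hF (y := x) (u := v) (r := r) (B := |K| * r ^ (n + 1)) hr
        (fun ζ hζ => (hb _ (by
          rw [add_sub_cancel_left, norm_smul, hv, mul_one]
          exact lt_of_le_of_lt hζ hrε)).1)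
        (fun ζ hζ => by
          have := (hb (x + ζ • v) (by
            rw [add_sub_cancel_left, norm_smul, hv, mul_one, hζ]
            exact hrε)).2
          rwa [add_sub_cancel_left, norm_smul, hv, mul_one, hζ] at this)
      refine h1.trans ?_
      rw [pow_succ, ← mul_assoc, mul_div_cancel_right₀ _ hr.ne']
      refine mul_le_mul_of_nonneg_right ?_ (by positivity)
      have : (1 : ℝ) ≤ 2 ^ (n + 1) := one_le_pow₀ (by norm_num)
      nlinarith
    have ht : Filter.Tendsto (fun r : ℝ => |K| * 2 ^ (n + 1) * r ^ n) (nhdsWithin 0 (Set.Ioi 0))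
        (nhds (|K| * 2 ^ (n + 1) * 0 ^ n)) := by
      have : Continuous fun r : ℝ => |K| * 2 ^ (n + 1) * r ^ n := by fun_prop
      exact (this.tendsto 0).mono_left nhdsWithin_le_nhds
    rw [sub_self, norm_zero]
    refine ge_of_tendsto ht ?_
    filter_upwards [Ioo_mem_nhdsGT hε] with r hr
    exact key r hr.1 hr.2
  · have hr : 0 < ‖x - p‖ := norm_pos_iff.2 (sub_ne_zero.2 hxp)
    have h3 : ∀ ζ : ℂ, ‖ζ‖ ≤ ‖x - p‖ → ‖x + ζ • v - p‖ ≤ 2 * ‖x - p‖ := by
      intro ζ hζ
      calc ‖x + ζ • v - p‖ = ‖(x - p) + ζ • v‖ := by congr 1; abel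
        _ ≤ ‖x - p‖ + ‖ζ • v‖ := norm_add_le _ _
        _ ≤ 2 * ‖x - p‖ := by rw [norm_smul, hv, mul_one]; linarith
    have h1 := te2_cauchy1 hU hF (y := x) (u := v) (r := ‖x - p‖)
      (B := |K| * (2 * ‖x - p‖) ^ (n + 1)) hr
      (fun ζ hζ => (hb _ (by linarith [h3 ζ hζ])).1)
      (fun ζ hζ => by
        refine (hb _ (by linarith [h3 ζ hζ.le])).2.trans ?_
        exact mul_le_mul_of_nonneg_left (pow_le_pow_left₀ (norm_nonneg _) (h3 ζ hζ.le) _) hK0)
    refine h1.trans (le_of_eq ?_)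
    rw [mul_pow, pow_succ (‖x - p‖)]
    field_simp

theorem te2D_order (hU : IsOpen U) {F : (Fin m → ℂ) → ℂ} (hF : DifferentiableOn ℂ F U)
    {p : Fin m → ℂ} (hp : p ∈ U) (L : List (Fin m)) (n : ℕ)
    (h : F =O[nhds p] fun x => ‖x - p‖ ^ (n + L.length)) :
    (te2D L F) =O[nhds p] fun x => ‖x - p‖ ^ n := by
  induction L generalizing n with
  | nil => simpa [te2D] using h
  | cons i L ih =>
    refine te2_order hU (te2D_diff hU L hF) hp ?_ n (ih (n + 1) ?_)
    · rw [Pi.norm_single, norm_one]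
    · rw [List.length_cons] at h
      convert h using 3
      ring

end order

section cauchy
variable {m : ℕ} {U : Set (Fin m → ℂ)}

theorem te2D_replicate (hU : IsOpen U) {F : (Fin m → ℂ) → ℂ} (hF : DifferentiableOn ℂ F U)
    (k : ℕ) (i : Fin m) (x : Fin m → ℂ) (ζ₀ : ℂ) (hx : x + ζ₀ • Pi.single i (1 : ℂ) ∈ U) :
    te2D (List.replicate k i) F (x + ζ₀ • Pi.single i (1 : ℂ)) =
      iteratedDeriv k (fun ζ => F (x + ζ • Pi.single i (1 : ℂ))) ζ₀ := by
  induction k generalizing ζ₀ with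
  | zero => simp [te2D]
  | succ k ih =>
    rw [List.replicate_succ, iteratedDeriv_succ]
    show fderiv ℂ (te2D (List.replicate k i) F) (x + ζ₀ • Pi.single i (1 : ℂ)) _ = _
    rw [← (te2_line hU (te2D_diff hU _ hF) _ hx).deriv]
    refine Filter.EventuallyEq.deriv_eq ?_
    have hc : Continuous fun ζ : ℂ => x + ζ • (Pi.single i (1 : ℂ) : Fin m → ℂ) := by fun_prop
    filter_upwards [(hU.preimage hc).mem_nhds hx] with ζ hζ
    exact ih ζ hζ

theorem te2D_cauchy (hU : IsOpen U) {F : (Fin m → ℂ) → ℂ} (hF : DifferentiableOn ℂ F U)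
    (k : ℕ) (i : Fin m) (x : Fin m → ℂ) {B : ℝ}
    (hx : ∀ ζ : ℂ, ‖ζ‖ ≤ 1 → x + ζ • Pi.single i (1 : ℂ) ∈ U)
    (hB : ∀ ζ : ℂ, ‖ζ‖ ≤ 1 → ‖F (x + ζ • Pi.single i (1 : ℂ))‖ ≤ B) :
    ‖te2D (List.replicate k i) F x‖ ≤ k.factorial * B := by
  have h0 := te2D_replicate hU hF k i x 0 (hx 0 (by simp))
  rw [zero_smul, add_zero] at h0
  rw [h0]
  have h1 := Complex.norm_iteratedDeriv_le_of_forall_mem_sphere_norm_le (n := k)
    (f := fun ζ => F (x + ζ • Pi.single i (1 : ℂ))) (c := 0) (R := 1) (C := B) one_pos ?_ ?_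
  · simpa using h1
  · have : DifferentiableOn ℂ (fun ζ : ℂ => F (x + ζ • Pi.single i (1 : ℂ)))
        (closedBall 0 1) := by
      intro ζ hζ
      exact (te2_line hU hF _ (hx ζ (by simpa using hζ))).differentiableAt.differentiableWithinAt
    exact (this.mono closure_ball_subset_closedBall).diffContOnCl
  · intro ζ hζ
    exact hB ζ (by simpa using le_of_eq (by simpa using hζ))

theorem te2D_bound {R M : ℝ} (hR : 1 < R) {Ψ : (Fin m → ℂ) → ℂ}
    (hΨ : DifferentiableOn ℂ Ψ (ball 0 R)) (hM : ∀ x ∈ ball (0 : Fin m → ℂ) R, ‖Ψ x‖ ≤ M)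
    (c : Fin m → ℕ) (Is : List (Fin m)) (hIs : Is.Nodup) (x : Fin m → ℂ) (hx : x ∈ ball 0 R)
    (hx0 : ∀ i ∈ Is, x i = 0) :
    ‖te2D (Is.flatMap fun i => List.replicate (c i) i) Ψ x‖ ≤
      (Is.map fun i => ((c i).factorial : ℝ)).prod * M := by
  have hR0 : 0 < R := by linarith
  induction Is generalizing x with
  | nil => simpa [te2D] using hM x hx
  | cons i Is ih =>
    rw [List.nodup_cons] at hIs
    rw [List.flatMap_cons, te2D_append, List.map_cons, List.prod_cons, mul_assoc]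
    have hmem : ∀ ζ : ℂ, ‖ζ‖ ≤ 1 → x + ζ • Pi.single i (1 : ℂ) ∈ ball (0 : Fin m → ℂ) R := by
      intro ζ hζ
      rw [mem_ball_zero_iff] at hx ⊢
      rw [pi_norm_lt_iff hR0] at hx ⊢
      intro j
      by_cases hj : j = i
      · subst hj
        simp only [Pi.add_apply, Pi.smul_apply, Pi.single_eq_same, smul_eq_mul, mul_one]
        rw [hx0 j (by simp), zero_add]
        linarith
      · simpa [hj] using hx j
    refine te2D_cauchy isOpen_ball (te2D_diff isOpen_ball _ hΨ) (c i) i x hmem ?_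
    intro ζ hζ
    refine ih hIs.2 _ (hmem ζ hζ) ?_
    intro j hj
    have hji : j ≠ i := fun h => hIs.1 (h ▸ hj)
    simp [hji, hx0 j (by simp [hj])]

end cauchy

section onevar

/-- Division by a zero. -/
theorem te2_divide {g : ℂ → ℂ} {R B : ℝ} {a : ℂ} (k : ℕ) (hR : 0 < R) (ha : ‖a‖ ≤ R / 4)
    (hg : DifferentiableOn ℂ g (ball 0 R)) (hB : ∀ z ∈ closedBall (0 : ℂ) (R / 2), ‖g z‖ ≤ B)
    (h : g =O[nhds a] fun z => ‖z - a‖ ^ k) :
    ∃ f : ℂ → ℂ, DifferentiableOn ℂ f (ball 0 R) ∧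
      (∀ z ∈ ball (0 : ℂ) R, z ≠ a → g z = (z - a) ^ k * f z) ∧
      ∀ z ∈ closedBall (0 : ℂ) (R / 2), ‖f z‖ ≤ B / (R / 4) ^ k := by
  have haR : a ∈ ball (0 : ℂ) R := by
    rw [mem_ball_zero_iff]; linarith
  obtain ⟨K, hK⟩ := h.bound
  set q : ℂ → ℂ := fun z => g z / (z - a) ^ k with hq
  have hqd : DifferentiableOn ℂ q (ball 0 R \ {a}) := by
    refine (hg.mono Set.sdiff_subset).div (by fun_prop) ?_
    intro z hz
    exact pow_ne_zero _ (sub_ne_zero.2 hz.2)
  have hqb : ∀ᶠ z in nhdsWithin a {a}ᶜ, ‖q z‖ ≤ K := by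
    have h1 : ∀ᶠ z in nhdsWithin a {a}ᶜ, ‖g z‖ ≤ K * ‖‖z - a‖ ^ k‖ := hK.filter_mono
      nhdsWithin_le_nhds
    filter_upwards [h1, self_mem_nhdsWithin] with z hz hza
    have h2 : 0 < ‖z - a‖ ^ k := pow_pos (norm_pos_iff.2 (sub_ne_zero.2 hza)) _
    rw [hq]
    simp only [norm_div, norm_pow]
    rw [div_le_iff₀ h2]
    rwa [norm_pow, norm_norm] at hz
  have ho : (fun z => q z - q a) =o[nhdsWithin a {a}ᶜ] fun z => (z - a)⁻¹ := by
    have h3 : (fun z => q z - q a) =O[nhdsWithin a {a}ᶜ] fun _ => (1 : ℂ) := by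
      refine Asymptotics.IsBigO.of_bound (K + ‖q a‖) ?_
      filter_upwards [hqb] with z hz
      rw [norm_one, mul_one]
      exact (norm_sub_le _ _).trans (by linarith)
    refine h3.trans_isLittleO ?_
    rw [Asymptotics.isLittleO_one_left_iff]
    have h4 : Filter.Tendsto (fun z : ℂ => ‖z - a‖) (nhdsWithin a {a}ᶜ)
        (nhdsWithin 0 (Set.Ioi 0)) := by
      refine tendsto_nhdsWithin_iff.2 ⟨?_, ?_⟩
      · have : Continuous fun z : ℂ => ‖z - a‖ := by fun_prop
        have h5 := (this.tendsto a).mono_left (nhdsWithin_le_nhds (s := {a}ᶜ))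
        simpa using h5
      · filter_upwards [self_mem_nhdsWithin] with z hz
        exact norm_pos_iff.2 (sub_ne_zero.2 hz)
    have h6 := tendsto_inv_nhdsGT_zero.comp h4
    refine h6.congr fun z => ?_
    simp
  set f : ℂ → ℂ := Function.update q a ((nhdsWithin a {a}ᶜ).limUnder q) with hf
  have hfd : DifferentiableOn ℂ f (ball 0 R) :=
    Complex.differentiableOn_update_limUnder_of_isLittleO (isOpen_ball.mem_nhds haR) hqd ho
  have hfe : ∀ z, z ≠ a → f z = q z := fun z hz => Function.update_of_ne hz _ _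
  have hsub : closedBall (0 : ℂ) (R / 2) ⊆ ball 0 R := closedBall_subset_ball (by linarith)
  refine ⟨f, hfd, ?_, ?_⟩
  · intro z hz hza
    rw [hfe z hza, hq]
    have : (z - a) ^ k ≠ 0 := pow_ne_zero _ (sub_ne_zero.2 hza)
    field_simp
  · intro z hz
    have hR2 : R / 2 ≠ 0 := by positivity
    refine Complex.norm_le_of_forall_mem_frontier_norm_le (U := ball (0 : ℂ) (R / 2))
      isBounded_ball ?_ ?_ ?_
    · refine DifferentiableOn.diffContOnCl ?_
      rw [closure_ball _ hR2]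
      exact hfd.mono hsub
    · intro y hy
      rw [frontier_ball _ hR2, mem_sphere_zero_iff_norm] at hy
      have hya : y ≠ a := by
        rintro rfl
        linarith
      have h7 : R / 4 ≤ ‖y - a‖ := by
        have := norm_sub_norm_le y a
        linarith
      rw [hfe y hya, hq]
      simp only [norm_div, norm_pow]
      have h8 : (R / 4) ^ k ≤ ‖y - a‖ ^ k := pow_le_pow_left₀ (by positivity) h7 k
      have h9 : ‖g y‖ ≤ B := hB y (by simp [hy])
      exact div_le_div₀ ((norm_nonneg _).trans h9) h9 (by positivity) h8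
    · rwa [closure_ball _ hR2]

theorem te2_divide_all {g : ℂ → ℂ} {R B N : ℝ} (k : ℕ) (hR : 0 < R) (hN : N ≤ R / 4)
    (hg : DifferentiableOn ℂ g (ball 0 R)) (hB : ∀ z ∈ closedBall (0 : ℂ) (R / 2), ‖g z‖ ≤ B)
    (S : Finset ℂ) (hS : ∀ a ∈ S, ‖a‖ ≤ N) (h : ∀ a ∈ S, g =O[nhds a] fun z => ‖z - a‖ ^ k) :
    ∃ f : ℂ → ℂ, DifferentiableOn ℂ f (ball 0 R) ∧
      (∀ z ∈ ball (0 : ℂ) R, z ∉ S → g z = (∏ a ∈ S, (z - a)) ^ k * f z) ∧
      ∀ z ∈ closedBall (0 : ℂ) (R / 2), ‖f z‖ ≤ B / (R / 4) ^ (k * S.card) := by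
  classical
  induction S using Finset.induction_on with
  | empty => exact ⟨g, hg, fun z _ _ => by simp, fun z hz => by simpa using hB z hz⟩
  | insert a S ha ih =>
    obtain ⟨f, hfd, hfe, hfb⟩ := ih (fun b hb => hS b (Finset.mem_insert_of_mem hb))
      (fun b hb => h b (Finset.mem_insert_of_mem hb))
    have haN : ‖a‖ ≤ R / 4 := (hS a (Finset.mem_insert_self a S)).trans hN
    have haR : a ∈ ball (0 : ℂ) R := by rw [mem_ball_zero_iff]; linarith
    have hP : Continuous fun z : ℂ => (∏ b ∈ S, (z - b)) ^ k := by fun_prop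
    have hPa : (∏ b ∈ S, (a - b)) ^ k ≠ 0 := by
      refine pow_ne_zero _ (Finset.prod_ne_zero_iff.2 fun b hb => sub_ne_zero.2 ?_)
      rintro rfl
      exact ha hb
    have hO : f =O[nhds a] fun z => ‖z - a‖ ^ k := by
      have h1 : (fun z : ℂ => ((∏ b ∈ S, (z - b)) ^ k)⁻¹ * g z) =O[nhds a]
          fun z => (1 : ℝ) * ‖z - a‖ ^ k := by
        refine Asymptotics.IsBigO.mul ?_ (h a (Finset.mem_insert_self a S))
        exact ((hP.tendsto a).inv₀ hPa).isBigO_one ℝ
      simp only [one_mul] at h1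
      refine h1.congr' ?_ Filter.EventuallyEq.rfl
      have h2 : ∀ᶠ z in nhds a, z ∉ S :=
        (S.finite_toSet.isClosed.isOpen_compl).mem_nhds (by simpa using ha)
      filter_upwards [isOpen_ball.mem_nhds haR, h2] with z hz hzS
      rw [hfe z hz hzS, ← mul_assoc, inv_mul_cancel₀, one_mul]
      refine pow_ne_zero _ (Finset.prod_ne_zero_iff.2 fun b hb => sub_ne_zero.2 ?_)
      rintro rfl
      exact hzS hb
    obtain ⟨f', hf'd, hf'e, hf'b⟩ := te2_divide k hR haN hfd hfb hO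
    refine ⟨f', hf'd, ?_, ?_⟩
    · intro z hz hzS
      rw [Finset.mem_insert, not_or] at hzS
      rw [Finset.prod_insert ha, mul_comm (z - a), mul_pow, hfe z hz hzS.2, hf'e z hz hzS.1,
        mul_assoc]
    · intro z hz
      refine (hf'b z hz).trans (le_of_eq ?_)
      rw [Finset.card_insert_of_notMem ha, mul_add, mul_one, pow_add, div_div]

theorem te2_onevar {g : ℂ → ℂ} {R B N : ℝ} (k : ℕ) (hR : 4 ≤ R) (hN : N ≤ R / 4) (hN0 : 0 ≤ N)
    (hg : DifferentiableOn ℂ g (ball 0 R)) (hB : ∀ z ∈ ball (0 : ℂ) R, ‖g z‖ ≤ B)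
    (S : Finset ℂ) (hS : ∀ a ∈ S, ‖a‖ ≤ N) (h : ∀ a ∈ S, g =O[nhds a] fun z => ‖z - a‖ ^ k) :
    ‖iteratedDeriv k g 0‖ ≤ k.factorial * (B * (4 * (N + 1) / R) ^ (k * S.card)) := by
  have hR0 : 0 < R := by linarith
  have hsub : closedBall (0 : ℂ) (R / 2) ⊆ ball 0 R := closedBall_subset_ball (by linarith)
  have hB0 : 0 ≤ B := (norm_nonneg _).trans (hB 0 (mem_ball_self hR0))
  obtain ⟨f, hfd, hfe, hfb⟩ := te2_divide_all k hR0 hN hg (fun z hz => hB z (hsub hz)) S hS h
  -- the product formula holds up to the boundary, by continuity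
  have hfe' : ∀ z ∈ ball (0 : ℂ) R, g z = (∏ a ∈ S, (z - a)) ^ k * f z := by
    intro z hz
    by_cases hzS : z ∉ S
    · exact hfe z hz hzS
    · have h1 : Filter.Tendsto g (nhdsWithin z {z}ᶜ) (nhds (g z)) :=
        ((hg.continuousOn.continuousAt (isOpen_ball.mem_nhds hz)).tendsto).mono_left
          nhdsWithin_le_nhds
      have hP : Continuous fun z : ℂ => (∏ b ∈ S, (z - b)) ^ k := by fun_prop
      have h2 : Filter.Tendsto (fun y => (∏ a ∈ S, (y - a)) ^ k * f y) (nhdsWithin z {z}ᶜ)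
          (nhds ((∏ a ∈ S, (z - a)) ^ k * f z)) := by
        refine Filter.Tendsto.mul ((hP.tendsto z).mono_left nhdsWithin_le_nhds) ?_
        exact ((hfd.continuousOn.continuousAt (isOpen_ball.mem_nhds hz)).tendsto).mono_left
          nhdsWithin_le_nhds
      refine tendsto_nhds_unique h1 (h2.congr' ?_)
      have h3 : ∀ᶠ y in nhds z, y ∉ (S.erase z) :=
        ((S.erase z).finite_toSet.isClosed.isOpen_compl).mem_nhds (by simp)
      filter_upwards [nhdsWithin_le_nhds h3, nhdsWithin_le_nhds (isOpen_ball.mem_nhds hz),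
        self_mem_nhdsWithin] with y hy1 hy2 hy3
      refine (hfe y hy2 fun hy4 => hy1 ?_).symm
      exact Finset.mem_erase.2 ⟨hy3, hy4⟩
  have hb1 : ∀ z : ℂ, ‖z‖ = 1 → ‖g z‖ ≤ B * (4 * (N + 1) / R) ^ (k * S.card) := by
    intro z hz
    have hz2 : z ∈ closedBall (0 : ℂ) (R / 2) := by
      rw [mem_closedBall_zero_iff]; linarith
    rw [hfe' z (hsub hz2), norm_mul, norm_pow, norm_prod]
    have h4 : ∏ a ∈ S, ‖z - a‖ ≤ (N + 1) ^ S.card := by
      rw [← Finset.prod_const]
      refine Finset.prod_le_prod (fun _ _ => norm_nonneg _) fun a ha => ?_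
      refine (norm_sub_le _ _).trans ?_
      linarith [hS a ha]
    have h5 : (∏ a ∈ S, ‖z - a‖) ^ k ≤ ((N + 1) ^ S.card) ^ k :=
      pow_le_pow_left₀ (Finset.prod_nonneg fun _ _ => norm_nonneg _) h4 k
    calc (∏ a ∈ S, ‖z - a‖) ^ k * ‖f z‖ ≤ ((N + 1) ^ S.card) ^ k * (B / (R / 4) ^ (k * S.card)) :=
          mul_le_mul h5 (hfb z hz2) (norm_nonneg _) (by positivity)
      _ = B * (4 * (N + 1) / R) ^ (k * S.card) := by
          have e : 4 * (N + 1) / R = (N + 1) / (R / 4) := by field_simp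
          rw [e, div_pow (N + 1) (R / 4), ← pow_mul, mul_comm S.card k, mul_div_assoc',
            mul_div_assoc', mul_comm B]
  have h1 := Complex.norm_iteratedDeriv_le_of_forall_mem_sphere_norm_le (n := k)
    (f := g) (c := 0) (R := 1) (C := B * (4 * (N + 1) / R) ^ (k * S.card)) one_pos ?_ ?_
  · simpa using h1
  · refine DifferentiableOn.diffContOnCl ?_
    rw [closure_ball _ one_ne_zero]
    exact hg.mono (closedBall_subset_ball (by linarith))
  · intro z hz
    exact hb1 z (by simpa using hz)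

end onevar

section assembly
variable {m : ℕ}

theorem te2_count_flatMap (c : Fin m → ℕ) (Is : List (Fin m)) (hIs : Is.Nodup) (a : Fin m) :
    List.count a (Is.flatMap fun i => List.replicate (c i) i) = if a ∈ Is then c a else 0 := by
  induction Is with
  | nil => simp
  | cons i Is ih =>
    rw [List.nodup_cons] at hIs
    rw [List.flatMap_cons, List.count_append, ih hIs.2, List.count_replicate]
    by_cases h : a = i
    · subst h
      simp [hIs.1]
    · have h' : ¬ i = a := fun e => h e.symm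
      simp [h, h']

theorem te2_length_flatMap (c : Fin m → ℕ) (Is : List (Fin m)) :
    (Is.flatMap fun i => List.replicate (c i) i).length = (Is.map c).sum := by
  rw [List.length_flatMap]
  simp

theorem te2_sum_count {T : ℕ} (w : Fin T → Fin m) :
    ∑ i, List.count i (List.ofFn w) = T := by
  have h := Multiset.sum_count_eq_card (s := (Finset.univ : Finset (Fin m)))
    (m := ((List.ofFn w : List (Fin m)) : Multiset (Fin m))) (fun _ _ => Finset.mem_univ _)
  simpa using h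

theorem te2_core {T N : ℕ} {R M : ℝ} {Ψ : (Fin m → ℂ) → ℂ} (hm : 0 < m)
    (hN : 1 ≤ N) (hR : 4 * (N : ℝ) + 4 ≤ R) (a : Fin m → ℕ) (ha : ∀ i, a i < N)
    (hΨ : DifferentiableOn ℂ Ψ (ball 0 R)) (hM : ∀ x ∈ ball (0 : Fin m → ℂ) R, ‖Ψ x‖ ≤ M)
    (hO : ∀ (i : Fin m) (s : ℕ), s < N → Ψ =O[nhds (Pi.single i ((s : ℂ) - a i))]
          fun x => ‖x - Pi.single i ((s : ℂ) - a i)‖ ^ T) (w : Fin T → Fin m) :
    ∃ k : ℕ, T ≤ m * k ∧ k ≤ T ∧
      ‖iteratedFDeriv ℂ T Ψ 0 (fun l => Pi.single (w l) 1)‖ ≤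
        T.factorial * (M * (4 * ((N : ℝ) + 1) / R) ^ (k * N)) := by
  have hNR : (1 : ℝ) ≤ N := by exact_mod_cast hN
  have hR0 : 0 < R := by linarith
  have hR1 : 1 < R := by linarith
  have hM0 : 0 ≤ M := (norm_nonneg _).trans (hM 0 (mem_ball_self hR0))
  set c : Fin m → ℕ := fun i => List.count i (List.ofFn w) with hc
  have hsum : ∑ i, c i = T := te2_sum_count w
  obtain ⟨h, hh⟩ : ∃ h : Fin m, T ≤ m * c h := by
    by_contra hcon
    push Not at hcon
    have : ∑ i : Fin m, m * c i < ∑ _i : Fin m, T :=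
      Finset.sum_lt_sum_of_nonempty ⟨⟨0, hm⟩, Finset.mem_univ _⟩ fun i _ => hcon i
    rw [← Finset.mul_sum, hsum] at this
    simp at this
  refine ⟨c h, hh, ?_, ?_⟩
  · rw [← hsum]
    exact Finset.single_le_sum (f := c) (fun _ _ => Nat.zero_le _) (Finset.mem_univ h)
  set Is : List (Fin m) := (List.finRange m).erase h with hIs
  have hIsn : Is.Nodup := (List.nodup_finRange m).erase h
  have hImem : ∀ i, i ∈ Is ↔ i ≠ h := by
    intro i
    rw [hIs, List.Nodup.mem_erase_iff (List.nodup_finRange m)]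
    simp
  set rest : List (Fin m) := Is.flatMap fun i => List.replicate (c i) i with hrest
  have hperm : (List.ofFn w).Perm (List.replicate (c h) h ++ rest) := by
    rw [List.perm_iff_count]
    intro b
    rw [List.count_append, hrest, te2_count_flatMap c Is hIsn, List.count_replicate]
    by_cases hb : b = h
    · subst hb
      simp [hImem, hc]
    · have hb' : ¬ h = b := fun e => hb e.symm
      simp [hImem, hc, hb, hb']
  have hlen : c h + rest.length = T := by
    have := hperm.length_eq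
    simp only [List.length_ofFn, List.length_append, List.length_replicate] at this
    omega
  set G : (Fin m → ℂ) → ℂ := te2D rest Ψ with hG
  have hGd : DifferentiableOn ℂ G (ball 0 R) := te2D_diff isOpen_ball rest hΨ
  have h0 : (0 : Fin m → ℂ) ∈ ball (0 : Fin m → ℂ) R := mem_ball_self hR0
  set e : Fin m → ℂ := Pi.single h 1 with he
  have hsm : ∀ ζ : ℂ, ζ • e = Pi.single h ζ := by
    intro ζ
    rw [he, ← Pi.single_smul, smul_eq_mul, mul_one]
  set g : ℂ → ℂ := fun ζ => G (ζ • e) with hg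
  have hmem : ∀ ζ : ℂ, ζ ∈ ball (0 : ℂ) R → ζ • e ∈ ball (0 : Fin m → ℂ) R := by
    intro ζ hζ
    rw [mem_ball_zero_iff] at hζ ⊢
    rwa [hsm, Pi.norm_single]
  set P : ℝ := (Is.map fun i => ((c i).factorial : ℝ)).prod with hP
  have hgB : ∀ z ∈ ball (0 : ℂ) R, ‖g z‖ ≤ P * M := by
    intro z hz
    refine te2D_bound hR1 hΨ hM c Is hIsn _ (hmem z hz) ?_
    intro i hi
    rw [hsm, Pi.single_eq_of_ne ((hImem i).1 hi)]
  have hgd : DifferentiableOn ℂ g (ball 0 R) := by
    intro z hz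
    have h1 := te2_line isOpen_ball hGd (y := 0) e (ζ := z) (by simpa using hmem z hz)
    simp only [zero_add] at h1
    exact h1.differentiableAt.differentiableWithinAt
  have hw : iteratedFDeriv ℂ T Ψ 0 (fun l => Pi.single (w l) 1) = iteratedDeriv (c h) g 0 := by
    rw [te2D_iterated isOpen_ball hΨ T w h0, te2D_perm isOpen_ball hΨ hperm h0, te2D_append]
    have h1 := te2D_replicate isOpen_ball hGd (c h) h 0 0 (by simpa using h0)
    simp only [zero_add, zero_smul] at h1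
    exact h1
  rw [hw]
  set S : Finset ℂ := (Finset.range N).image fun s : ℕ => (s : ℂ) - a h with hS
  have hScard : S.card = N := by
    rw [hS, Finset.card_image_of_injective, Finset.card_range]
    intro x y hxy
    simpa using hxy
  have hSN : ∀ b ∈ S, ‖b‖ ≤ N := by
    intro b hb
    rw [hS, Finset.mem_image] at hb
    obtain ⟨s, hs, rfl⟩ := hb
    rw [Finset.mem_range] at hs
    have h1 : ((s : ℂ) - a h) = (((s : ℝ) - a h : ℝ) : ℂ) := by push_cast; ring
    rw [h1, Complex.norm_real, Real.norm_eq_abs, abs_le]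
    have h2 : (s : ℝ) < N := by exact_mod_cast hs
    have h3 : (a h : ℝ) < N := by exact_mod_cast ha h
    have h4 : (0 : ℝ) ≤ s := Nat.cast_nonneg _
    have h5 : (0 : ℝ) ≤ a h := Nat.cast_nonneg _
    constructor <;> linarith
  have hSO : ∀ b ∈ S, g =O[nhds b] fun z => ‖z - b‖ ^ c h := by
    intro b hb
    have hbN := hSN b hb
    rw [hS, Finset.mem_image] at hb
    obtain ⟨s, hs, rfl⟩ := hb
    rw [Finset.mem_range] at hs
    have hp : Pi.single h ((s : ℂ) - a h) ∈ ball (0 : Fin m → ℂ) R := by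
      rw [mem_ball_zero_iff, Pi.norm_single]
      linarith
    have h1 := te2D_order isOpen_ball hΨ hp rest (c h) (by rw [hlen]; exact hO h s hs)
    have hcont : Filter.Tendsto (fun ζ : ℂ => ζ • e) (nhds ((s : ℂ) - a h))
        (nhds (Pi.single h ((s : ℂ) - a h))) := by
      have : Continuous fun ζ : ℂ => ζ • e := by fun_prop
      have h2 := this.tendsto ((s : ℂ) - a h)
      rwa [hsm] at h2
    have h2 := h1.comp_tendsto hcont
    refine h2.congr (fun z => rfl) fun z => ?_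
    show ‖z • e - Pi.single h ((s : ℂ) - a h)‖ ^ c h = _
    rw [← hsm, ← sub_smul, norm_smul, he, Pi.norm_single, norm_one, mul_one]
  have hfin := te2_onevar (c h) (g := g) (R := R) (B := P * M) (N := (N : ℝ)) (by linarith)
    (by linarith) (by linarith) hgd hgB S hSN hSO
  rw [hScard] at hfin
  refine hfin.trans ?_
  have hprod : ((c h).factorial : ℝ) * P ≤ (T.factorial : ℝ) := by
    have h1 : ((c h).factorial : ℝ) * P = ∏ i, ((c i).factorial : ℝ) := by
      have h2 : (List.finRange m).Perm (h :: Is) :=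
        List.perm_cons_erase (List.mem_finRange h)
      have h3 := (h2.map fun i => ((c i).factorial : ℝ)).prod_eq
      rw [List.map_cons, List.prod_cons] at h3
      rw [hP, ← h3, ← List.ofFn_eq_map, List.prod_ofFn]
    rw [h1]
    have h4 := Nat.le_of_dvd (Nat.factorial_pos _)
      (Nat.prod_factorial_dvd_factorial_sum (Finset.univ : Finset (Fin m)) c)
    rw [hsum] at h4
    exact_mod_cast h4
  have hq : 0 ≤ M * (4 * ((N : ℝ) + 1) / R) ^ (c h * N) := by positivity
  calc ((c h).factorial : ℝ) * (P * M * (4 * ((N : ℝ) + 1) / R) ^ (c h * N))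
      = ((c h).factorial * P) * (M * (4 * ((N : ℝ) + 1) / R) ^ (c h * N)) := by ring
    _ ≤ T.factorial * (M * (4 * ((N : ℝ) + 1) / R) ^ (c h * N)) :=
        mul_le_mul_of_nonneg_right hprod hq

end assembly

theorem schwarz_polydisc (m N : ℕ) (hm : 0 < m) (hN : 1 ≤ N) :
    ∃ C : ℝ, 1 ≤ C ∧ ∀ (T : ℕ) (R M : ℝ) (Ψ : (Fin m → ℂ) → ℂ) (a : Fin m → ℕ),
      1 ≤ T → C ≤ R → 0 ≤ M → (∀ i, a i < N) →
      DifferentiableOn ℂ Ψ (Metric.ball 0 R) →
      (∀ x ∈ Metric.ball (0 : Fin m → ℂ) R, ‖Ψ x‖ ≤ M) →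
      (∀ (i : Fin m) (s : ℕ), s < N →
        Ψ =O[nhds (Pi.single i ((s : ℂ) - a i))]
          fun x => ‖x - Pi.single i ((s : ℂ) - a i)‖ ^ T) →
      ∀ w : Fin T → Fin m, ‖iteratedFDeriv ℂ T Ψ 0 (fun l => Pi.single (w l) 1)‖ ≤
        M * Real.exp (T * Real.log T + C * T - (N : ℝ) / m * T * Real.log R) := by
  have hNR : (1 : ℝ) ≤ N := by exact_mod_cast hN
  have hlog : 0 ≤ Real.log (4 * ((N : ℝ) + 1)) := Real.log_nonneg (by linarith)
  refine ⟨4 * (N : ℝ) + 4 + N * Real.log (4 * ((N : ℝ) + 1)), ?_, ?_⟩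
  · have : 0 ≤ (N : ℝ) * Real.log (4 * ((N : ℝ) + 1)) := by positivity
    linarith
  intro T R M Ψ a hT hCR hM ha hΨ hb hO w
  have hR : 4 * (N : ℝ) + 4 ≤ R := by
    have : 0 ≤ (N : ℝ) * Real.log (4 * ((N : ℝ) + 1)) := by positivity
    linarith
  have hR0 : 0 < R := by linarith
  obtain ⟨k, hk1, hk2, hk3⟩ := te2_core hm hN hR a ha hΨ hb hO w
  refine hk3.trans ?_
  have hTR : (1 : ℝ) ≤ T := by exact_mod_cast hT
  have hmR : (0 : ℝ) < m := by exact_mod_cast hm
  have hfac : (T.factorial : ℝ) ≤ Real.exp (T * Real.log T) := by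
    have h1 : (T.factorial : ℝ) ≤ (T : ℝ) ^ T := by exact_mod_cast Nat.factorial_le_pow T
    rw [mul_comm, Real.exp_mul, Real.exp_log (by linarith), Real.rpow_natCast]
    exact h1
  have hpow : (4 * ((N : ℝ) + 1) / R) ^ (k * N) ≤
      Real.exp ((4 * (N : ℝ) + 4 + N * Real.log (4 * ((N : ℝ) + 1))) * T -
        (N : ℝ) / m * T * Real.log R) := by
    have h1 : (4 * ((N : ℝ) + 1) / R) ^ (k * N) =
        Real.exp (((k : ℝ) * N) * (Real.log (4 * ((N : ℝ) + 1)) - Real.log R)) := by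
      rw [← Real.log_div (by positivity) hR0.ne', mul_comm ((k : ℝ) * N), Real.exp_mul,
        Real.exp_log (by positivity)]
      rw [← Nat.cast_mul, Real.rpow_natCast]
    rw [h1]
    refine Real.exp_le_exp.2 ?_
    have hkT : (k : ℝ) ≤ T := by exact_mod_cast hk2
    have hmk : (T : ℝ) / m ≤ k := by
      rw [div_le_iff₀ hmR, mul_comm]
      exact_mod_cast hk1
    have hlR : 0 ≤ Real.log R := Real.log_nonneg (by linarith)
    have e1 : (k : ℝ) * N * Real.log (4 * ((N : ℝ) + 1)) ≤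
        T * N * Real.log (4 * ((N : ℝ) + 1)) := by
      refine mul_le_mul_of_nonneg_right ?_ hlog
      exact mul_le_mul_of_nonneg_right hkT (by positivity)
    have e2 : (N : ℝ) / m * T * Real.log R ≤ k * N * Real.log R := by
      refine mul_le_mul_of_nonneg_right ?_ hlR
      calc (N : ℝ) / m * T = (T / m) * N := by ring
        _ ≤ k * N := mul_le_mul_of_nonneg_right hmk (by positivity)
    have e3 : 0 ≤ (4 * (N : ℝ) + 4) * T := by positivity
    nlinarith [e1, e2, e3]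
  calc (T.factorial : ℝ) * (M * (4 * ((N : ℝ) + 1) / R) ^ (k * N))
      = M * (T.factorial * (4 * ((N : ℝ) + 1) / R) ^ (k * N)) := by ring
    _ ≤ M * (Real.exp (T * Real.log T) *
        Real.exp ((4 * (N : ℝ) + 4 + N * Real.log (4 * ((N : ℝ) + 1))) * T -
        (N : ℝ) / m * T * Real.log R)) := by
        refine mul_le_mul_of_nonneg_left ?_ hM
        exact mul_le_mul hfac hpow (by positivity) (Real.exp_pos _).le
    _ = _ := by
        rw [← Real.exp_add]
        congr 2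
        ring

end Pool.Agent.Arith
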