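import Mathlib

/-!
# Abelian differentials in the language of function fields, relative periods,
one-parameter families, specialisations, arithmetic points

Definitions only.
-/

set_option autoImplicit false

namespace Pool.Agent.Arith

open KaehlerDifferential Set

/-! ## Curves and differentials -/

/-- A point of the smooth projective curve with function field `L` over the (algebraically closed)
field `K`: a nontrivial valuation ring of `L` containing `K`. -/
structure Place (K L : Type) [Field K] [Field L] [Algebra K L] where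
  /-- the functions which are regular at the point -/
  O : ValuationSubring L
  base : ∀ c : K, algebraMap K L c ∈ O
  ne_top : O ≠ ⊤

section
variable {K L : Type} [Field K] [Field L] [Algebra K L]

/-- `p` is a local parameter at the point `P`. -/
def Place.IsParam (P : Place K L) (p : L) : Prop :=
  p ≠ 0 ∧ p ∈ P.O.nonunits ∧ ∀ f ∈ P.O.nonunits, f / p ∈ P.O

/-- The differential `ω` is regular at `P` and vanishes there exactly to order `m`. -/
def OrdAt (P : Place K L) (ω : Ω[L⁄K]) (m : ℕ) : Prop :=
  ∃ p u : L, P.IsParam p ∧ u ∈ P.O ∧ u ∉ P.O.nonunits ∧ ω = (u * p ^ m) • D K L p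

/-- `ω` is a nonzero holomorphic differential, and `α` is the multiset of the multiplicities of its
zeros: the pair `(L, ω)` belongs to the stratum `H_α`. -/
def HasType (ω : Ω[L⁄K]) (α : Multiset ℕ) : Prop :=
  ∃ (m : Place K L → ℕ) (s : Finset (Place K L)),
    (∀ P, OrdAt P ω (m P)) ∧ (∀ P, P ∈ s ↔ m P ≠ 0) ∧ s.val.map m = α

end

/-- The pairs `(L, ω)` and `(L', ω')` define the same point `(C, [ω])` of the projectivised
stratum. (As `L` has transcendence degree one, every differential has the form `a db`.) -/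
def SamePoint {K L L' : Type} [Field K] [Field L] [Field L'] [Algebra K L] [Algebra K L']
    (ω : Ω[L⁄K]) (ω' : Ω[L'⁄K]) : Prop :=
  ∃ (e : L ≃ₐ[K] L') (c : K) (a b : L), c ≠ 0 ∧ ω = a • D K L b ∧
    ω' = c • (e a • D K L' (e b))

/-! ## Relative periods -/

section
variable {L : Type} [Field L] [Algebra ℂ L]

open Classical in
/-- The value at the point `P` of a function which is regular at `P`. -/
noncomputable def Place.val (P : Place ℂ L) (f : L) : ℂ :=
  if h : ∃ c : ℂ, f - algebraMap ℂ L c ∈ P.O.nonunits then h.choose else 0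

/-- A `C¹` path on the Riemann surface: near every time, every function which is regular at the
point of this time stays regular, and its value is a continuously differentiable function. -/
structure Arc (L : Type) [Field L] [Algebra ℂ L] where
  pt : ℝ → Place ℂ L
  regular : ∀ s ∈ Icc (0 : ℝ) 1, ∀ f ∈ (pt s).O, ∀ᶠ r in nhdsWithin s (Icc 0 1), f ∈ (pt r).O
  smooth : ∀ s ∈ Icc (0 : ℝ) 1, ∀ f ∈ (pt s).O,
    ContDiffWithinAt ℝ 1 (fun r => (pt r).val f) (Icc 0 1) s

/-- `I` is the integral of the holomorphic differential `ω` along `γ`. -/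
def Arc.HasIntegral (γ : Arc L) (ω : Ω[L⁄ℂ]) (I : ℂ) : Prop :=
  ∃ ρ : ℝ → ℂ, ContinuousOn ρ (Icc 0 1) ∧
    (∀ s ∈ Icc (0 : ℝ) 1, ∃ f ∈ (γ.pt s).O, ∃ g ∈ (γ.pt s).O, ω = f • D ℂ L g ∧
      ρ s = (γ.pt s).val f * derivWithin (fun r => (γ.pt r).val g) (Icc 0 1) s) ∧
    I = ∫ s in (0 : ℝ)..1, ρ s

/-- `I` is a relative period of `ω`: the integral of `ω` along a path which joins two zeros of `ω`.
(These paths generate the homology of the curve relative to the zeros of `ω`.) -/
def IsPeriod (ω : Ω[L⁄ℂ]) (I : ℂ) : Prop :=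
  ∃ γ : Arc L, (∃ m, m ≠ 0 ∧ OrdAt (γ.pt 0) ω m) ∧ (∃ m, m ≠ 0 ∧ OrdAt (γ.pt 1) ω m) ∧
    γ.HasIntegral ω I

/-- The pair `(C, [ω])` is defined over the field of algebraic numbers: the function field is the
base change `L = ℂ L₀` of a function field `L₀` over `ℚbar`, and `ω` is proportional to a
differential of `L₀`. -/
def DefinedOverQbar (ω : Ω[L⁄ℂ]) : Prop :=
  ∃ L₀ : Subfield L, (∀ a : ℂ, IsAlgebraic ℚ a → algebraMap ℂ L a ∈ L₀) ∧
    (∀ (n : ℕ) (b : Fin n → L), (∀ i, b i ∈ L₀) →
      (∀ q : Fin n → ℂ, (∀ i, IsAlgebraic ℚ (q i)) → ∑ i, q i • b i = 0 → q = 0) →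
      LinearIndependent ℂ b) ∧
    IntermediateField.adjoin ℂ (L₀ : Set L) = ⊤ ∧
    ∃ (c : ℂ) (a b : L), c ≠ 0 ∧ a ∈ L₀ ∧ b ∈ L₀ ∧ ω = c • (a • D ℂ L b)

/-- `(C, [ω])` is an arithmetic point: it is defined over `ℚbar`, and its relative periods are
algebraic multiples of each other. -/
def IsArithmetic (ω : Ω[L⁄ℂ]) : Prop :=
  DefinedOverQbar ω ∧ ∀ I J : ℂ, IsPeriod ω I → IsPeriod ω J → J ≠ 0 → IsAlgebraic ℚ (I / J)

end

/-! ## Specialisation -/

/-- The differential `(l, η)` over `κ` is a specialisation of the differential `(L, ω)` over `K`: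
there are compatible places `φ` of `K` and `ψ` of `L` with values in `κ` and `l` such that a
multiple of `ω` reduces to `η`. -/
def Specialises {K L κ l : Type} [Field K] [Field L] [Algebra K L] [Field κ] [Field l]
    [Algebra κ l] (ω : Ω[L⁄K]) (η : Ω[l⁄κ]) : Prop :=
  ∃ (R : ValuationSubring K) (O : ValuationSubring L) (φ : R →+* κ) (ψ : O →+* l),
    Function.Surjective φ ∧ Function.Surjective ψ ∧
    (∀ r : K, r ∈ R ↔ algebraMap K L r ∈ O) ∧
    (∀ (r : R) (h : algebraMap K L r ∈ O), ψ ⟨algebraMap K L r, h⟩ = algebraMap κ l (φ r)) ∧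
    ∃ (c : K) (a b : O), c ≠ 0 ∧ ψ a ≠ 0 ∧ Transcendental κ (ψ b) ∧
      ω = c • ((a : L) • D K L (b : L)) ∧ η = ψ a • D κ l (ψ b)

/-! ## Families over open subsets of the affine line, defined over `ℚ` -/

/-- An algebraic family of pairs `(C_t, [ω_t])` over the open subset `{bad ≠ 0}` of the affine
line: the curve `C_t` has the equations `eqs` in affine `n`-space, and `ω_t = ∑ (num_j / den) dx_j`;
all coefficients are polynomials in the parameter `t` with rational coefficients. -/
structure Family where
  n : ℕ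
  bad : Polynomial ℚ
  eqs : Finset (MvPolynomial (Fin n) (Polynomial ℚ))
  num : Fin n → MvPolynomial (Fin n) (Polynomial ℚ)
  den : MvPolynomial (Fin n) (Polynomial ℚ)

/-- Evaluation of a polynomial with coefficients in `ℚ[t]` at a value of the parameter `t` and at
functions `x`. -/
noncomputable def ev {K L : Type} [Field K] [CharZero K] [Field L] [Algebra K L] {n : ℕ} (t : K)
    (x : Fin n → L) : MvPolynomial (Fin n) (Polynomial ℚ) →+* L :=
  MvPolynomial.eval₂Hom ((algebraMap K L).comp (Polynomial.eval₂RingHom (algebraMap ℚ K) t)) x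

/-- `(L, ω)` is the member of the family at the parameter `t ∈ K` (up to isomorphism and scaling):
`L` is a function field of transcendence degree one, generated by functions which satisfy the
equations. -/
def Family.Member (F : Family) {K L : Type} [Field K] [CharZero K] [Field L] [Algebra K L] (t : K)
    (ω : Ω[L⁄K]) : Prop :=
  Polynomial.aeval t F.bad ≠ 0 ∧ Algebra.trdeg K L = 1 ∧
  ∃ x : Fin F.n → L, IntermediateField.adjoin K (range x) = ⊤ ∧
    (∀ e ∈ F.eqs, ev t x e = 0) ∧ ev t x F.den ≠ 0 ∧
    ∃ c : K, c ≠ 0 ∧ ω = c • ∑ j, (ev t x (F.num j) / ev t x F.den) • D K L (x j)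

/-- The members of the family form an irreducible closed algebraic curve `W` in the projectivised
stratum `S_α`, defined over `ℚ`, which is algebraic and defined over `ℚbar` in the period charts:
`W` is a `ℚbar`-bi-algebraic curve.

* `exists_member`, `unique`, `hasType`: `t ↦ (C_t, [ω_t])` is a map from the open subset
  `{bad ≠ 0}` of the affine line to `S_α` (for points over all algebraically closed fields);
* `closed`: its image `W` is stable under specialisation; as `W` is constructible, this means that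
  it is closed in `S_α`;
* `generic`: every point of `W` is a specialisation of a member with a transcendental parameter; as
  these members are all the same point of the scheme `S_α` over `ℚ`, this means that `W` is
  irreducible;
* `nonconstant`: `W` is not a point;
* `periods`: at every point of `W` the transcendence degree over `ℚ` of the field generated by the
  quotients of relative periods is at most `1 = dim W`. As there are only countably many varieties
  over `ℚbar`, this means (by Baire's theorem) that `W` is, in the period charts, contained in a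
  one-dimensional algebraic variety defined over `ℚbar`. -/
structure Family.IsBialgebraicCurve (F : Family) (α : Multiset ℕ) : Prop where
  bad_ne_zero : F.bad ≠ 0
  exists_member : ∀ (K : Type) [Field K] [CharZero K] [IsAlgClosed K] (t : K),
    Polynomial.aeval t F.bad ≠ 0 →
    ∃ (L : Type) (_ : Field L) (_ : Algebra K L) (ω : Ω[L⁄K]), F.Member t ω
  unique : ∀ (K L L' : Type) [Field K] [CharZero K] [IsAlgClosed K] [Field L] [Field L']
    [Algebra K L] [Algebra K L'] (t : K) (ω : Ω[L⁄K]) (ω' : Ω[L'⁄K]),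
    F.Member t ω → F.Member t ω' → SamePoint ω ω'
  hasType : ∀ (K L : Type) [Field K] [CharZero K] [IsAlgClosed K] [Field L] [Algebra K L]
    (t : K) (ω : Ω[L⁄K]), F.Member t ω → HasType ω α
  closed : ∀ (K L κ l : Type) [Field K] [CharZero K] [IsAlgClosed K] [Field L] [Algebra K L]
    [Field κ] [CharZero κ] [Field l] [Algebra κ l] (t : K) (ω : Ω[L⁄K]) (η : Ω[l⁄κ]),
    F.Member t ω → Specialises ω η → HasType η α → ∃ t₀ : κ, F.Member t₀ η
  generic : ∀ (κ l : Type) [Field κ] [CharZero κ] [IsAlgClosed κ] [Field l] [Algebra κ l]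
    (t₀ : κ) (η : Ω[l⁄κ]), F.Member t₀ η →
    ∃ (K L : Type) (_ : Field K) (_ : CharZero K) (_ : IsAlgClosed K) (_ : Field L)
      (_ : Algebra K L) (t : K) (ω : Ω[L⁄K]), Transcendental ℚ t ∧ F.Member t ω ∧ Specialises ω η
  nonconstant : ∃ (L L' : Type) (_ : Field L) (_ : Field L') (_ : Algebra ℂ L) (_ : Algebra ℂ L')
    (t t' : ℂ) (ω : Ω[L⁄ℂ]) (ω' : Ω[L'⁄ℂ]), F.Member t ω ∧ F.Member t' ω' ∧ ¬ SamePoint ω ω'
  periods : ∀ (L : Type) [Field L] [Algebra ℂ L] (t : ℂ) (ω : Ω[L⁄ℂ]), F.Member t ω →
    ∀ I J M : ℂ, IsPeriod ω I → IsPeriod ω J → IsPeriod ω M → M ≠ 0 →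
      ¬ AlgebraicIndependent ℚ ![I / M, J / M]

/-! ## The family of the counterexample -/

section
open Polynomial

/-- `f = 6 (2x + 1) (3x + 2) (x + 2) (3x² + 4x + 2)` -/
noncomputable def fR (A : Type) [CommRing A] : A[X] :=
  6 * (2 * X + 1) * (3 * X + 2) * (X + 2) * (3 * X ^ 2 + 4 * X + 2)

/-- The family `C_t : y² = f(v² + t)`, `ω_t = (2 v / y) dv`, over the open set `f(t) ≠ 0`; here
`v = x_0` and `y = x_1`. -/
noncomputable def Fam : Family where
  n := 2
  bad := fR ℚ
  eqs := {MvPolynomial.X 1 ^ 2 -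
    6 * (2 * (MvPolynomial.X 0 ^ 2 + MvPolynomial.C X) + 1) *
      (3 * (MvPolynomial.X 0 ^ 2 + MvPolynomial.C X) + 2) *
      ((MvPolynomial.X 0 ^ 2 + MvPolynomial.C X) + 2) *
      (3 * (MvPolynomial.X 0 ^ 2 + MvPolynomial.C X) ^ 2 +
        4 * (MvPolynomial.X 0 ^ 2 + MvPolynomial.C X) + 2)}
  num := ![2 * MvPolynomial.X 0, 0]
  den := MvPolynomial.X 1

end

end Pool.Agent.Arith
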