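import Pool.Agent.Lib.MP_c0402d_ag.Defs

/-!
# JOB EA: the square lattice with `g₂ = 1/4`, `g₃ = 0`
-/

set_option autoImplicit false

namespace Pool.Agent.Arith

open Topology in
/-- If `g₂ = g₃ = 0`, then `℘'² = 4 ℘³`, which is impossible at a half period. -/
private theorem EA_ne (L : PeriodPair) (h2 : L.g₂ = 0) (h3 : L.g₃ = 0) : False := by
  set a : ℂ := L.ω₁ / 2 with ha
  have haL : a ∉ L.lattice := L.ω₁_div_two_notMem_lattice
  have hw : L.ω₁ ∈ L.lattice := L.ω₁_mem_lattice
  have hd0 : L.derivWeierstrassP a = 0 := by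
    have e1 := L.derivWeierstrassP_add_coe (-a) ⟨L.ω₁, hw⟩
    have e2 : -a + ((⟨L.ω₁, hw⟩ : L.lattice) : ℂ) = a := by
      show -a + L.ω₁ = a
      rw [ha]
      ring
    rw [e2, L.derivWeierstrassP_neg] at e1
    have e3 : 2 * L.derivWeierstrassP a = 0 := by linear_combination e1
    simpa using e3
  have hP : AnalyticAt ℂ L.weierstrassP a := L.analyticOnNhd_weierstrassP a haL
  have hQ : AnalyticAt ℂ L.derivWeierstrassP a := L.analyticOnNhd_derivWeierstrassP a haL
  have hrel : ∀ z ∉ L.lattice, L.derivWeierstrassP z ^ 2 = 4 * L.weierstrassP z ^ 3 := by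
    intro z hz
    rw [L.derivWeierstrassP_sq z hz, h2, h3]
    ring
  have hp0 : L.weierstrassP a = 0 := by
    have e1 := hrel a haL
    rw [hd0] at e1
    have e2 : L.weierstrassP a ^ 3 = 0 := by linear_combination -e1 / 4
    exact pow_eq_zero_iff (by norm_num) |>.1 e2
  have ho1 : analyticOrderAt L.derivWeierstrassP a + 1 = analyticOrderAt L.weierstrassP a := by
    have e1 := hP.analyticOrderAt_deriv_add_one
    rw [L.deriv_weierstrassP, hp0] at e1
    simpa using e1
  have ho2 : 2 * analyticOrderAt L.derivWeierstrassP a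
      = 3 * analyticOrderAt L.weierstrassP a := by
    have e1 : analyticOrderAt (L.derivWeierstrassP ^ 2) a
        = analyticOrderAt ((fun _ : ℂ => (4 : ℂ)) * L.weierstrassP ^ 3) a := by
      apply analyticOrderAt_congr
      filter_upwards [L.isClosed_lattice.isOpen_compl.mem_nhds haL] with z hz
      exact hrel z hz
    rw [analyticOrderAt_pow hQ, analyticOrderAt_mul analyticAt_const (hP.pow 3),
      analyticOrderAt_pow hP] at e1
    have e2 : analyticOrderAt (fun _ : ℂ => (4 : ℂ)) a = 0 :=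
      analyticAt_const.analyticOrderAt_eq_zero.2 (by norm_num)
    rw [e2, zero_add] at e1
    simpa [nsmul_eq_mul] using e1
  have ho3 : analyticOrderAt L.weierstrassP a = ⊤ := by
    rw [← ho1] at ho2 ⊢
    generalize analyticOrderAt L.derivWeierstrassP a = r at ho2
    cases r with
    | top => rfl
    | coe r =>
      exfalso
      have e3 : 2 * r = 3 * (r + 1) := by exact_mod_cast ho2
      omega
  have hm : MeromorphicOn L.weierstrassP Set.univ := fun x _ => L.meromorphic_weierstrassP x
  have h0 : meromorphicOrderAt L.weierstrassP 0 ≠ ⊤ := by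
    rw [L.order_weierstrassP 0 (zero_mem _)]
    decide
  have h5 := hm.meromorphicOrderAt_ne_top_of_isPreconnected (y := a) isPreconnected_univ
    (Set.mem_univ 0) (Set.mem_univ a) h0
  apply h5
  rw [meromorphicOrderAt_eq_top_iff]
  exact (analyticOrderAt_eq_top.1 ho3).filter_mono nhdsWithin_le_nhds

/-- Behaviour of the Eisenstein series under scaling of the lattice. -/
private theorem EA_scale (L L' : PeriodPair) (c : ℂ) (hc : c ≠ 0)
    (h : ∀ x, c * x ∈ L'.lattice ↔ x ∈ L.lattice) (n : ℕ) :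
    L'.G n = (c ^ n)⁻¹ * L.G n := by
  let e : L.lattice ≃ L'.lattice :=
    { toFun := fun l => ⟨c * l, (h _).2 l.2⟩
      invFun := fun l => ⟨c⁻¹ * l, (h _).1 (by rw [mul_inv_cancel_left₀ hc]; exact l.2)⟩
      left_inv := fun l => Subtype.ext (by
        show c⁻¹ * (c * (l : ℂ)) = l
        exact inv_mul_cancel_left₀ hc _)
      right_inv := fun l => Subtype.ext (by
        show c * (c⁻¹ * (l : ℂ)) = l
        exact mul_inv_cancel_left₀ hc _) }
  unfold PeriodPair.G
  rw [← e.tsum_eq, ← tsum_mul_left]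
  refine tsum_congr fun l => ?_
  show ((c * (l : ℂ)) ^ n)⁻¹ = _
  rw [mul_pow, mul_inv]

/-- The Gaussian lattice scaled by `c`. -/
private noncomputable def EA_lat (c : ℂ) (hc : c ≠ 0) : PeriodPair where
  ω₁ := c
  ω₂ := Complex.I * c
  indep := by
    rw [LinearIndependent.pair_iff]
    intro s t h
    have h1 : ((s : ℂ) + t * Complex.I) * c = 0 := by
      simp only [Complex.real_smul] at h
      linear_combination h
    have h2 := (mul_eq_zero.1 h1).resolve_right hc
    have h3 := congrArg Complex.re h2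
    have h4 := congrArg Complex.im h2
    simp at h3 h4
    exact ⟨h3, h4⟩

private theorem EA_mem (c : ℂ) (hc : c ≠ 0) (x : ℂ) :
    x ∈ (EA_lat c hc).lattice ↔ ∃ m n : ℤ, (m + n * Complex.I) * c = x := by
  rw [PeriodPair.mem_lattice]
  constructor
  · rintro ⟨m, n, h⟩
    refine ⟨m, n, ?_⟩
    rw [← h]
    show _ = (m : ℂ) * c + n * (Complex.I * c)
    ring
  · rintro ⟨m, n, h⟩
    refine ⟨m, n, ?_⟩
    rw [← h]
    show (m : ℂ) * c + n * (Complex.I * c) = _
    ring

/-- Scale the lattice of Gaussian integers. `g₃ = 0` because multiplication by `I` preserves the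
lattice (reindex the sum `G 6`); `g₂ ≠ 0` because otherwise `℘'² = 4 ℘³`. -/
theorem exists_square_lattice :
    ∃ Lm : PeriodPair, Lm.ω₂ = Complex.I * Lm.ω₁ ∧ Lm.g₂ = 1 / 4 ∧ Lm.g₃ = 0 := by
  have h1 : (1 : ℂ) ≠ 0 := one_ne_zero
  have hI : ∀ (c : ℂ) (hc : c ≠ 0), (EA_lat c hc).G 6 = 0 := by
    intro c hc
    have e1 := EA_scale (EA_lat c hc) (EA_lat c hc) Complex.I Complex.I_ne_zero (by
      intro x
      rw [EA_mem, EA_mem]
      constructor
      · rintro ⟨m, n, h⟩
        refine ⟨n, -m, ?_⟩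
        have e2 : Complex.I * (((n : ℂ) + ((-m : ℤ) : ℂ) * Complex.I) * c) = Complex.I * x := by
          rw [← h]
          push_cast
          linear_combination (-(m : ℂ) * c) * Complex.I_mul_I
        exact mul_left_cancel₀ Complex.I_ne_zero e2
      · rintro ⟨m, n, h⟩
        refine ⟨-n, m, ?_⟩
        rw [← h]
        push_cast
        linear_combination (-(n : ℂ) * c) * Complex.I_mul_I) 6
    have e2 : Complex.I ^ 6 = -1 := by
      calc Complex.I ^ 6 = (Complex.I ^ 2) ^ 3 := by ring
        _ = -1 := by rw [Complex.I_sq]; norm_num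
    rw [e2] at e1
    have e3 : 2 * (EA_lat c hc).G 6 = 0 := by
      norm_num at e1
      linear_combination e1
    simpa using e3
  have h4 : (EA_lat 1 h1).G 4 ≠ 0 := by
    intro h
    exact EA_ne (EA_lat 1 h1) (by unfold PeriodPair.g₂; rw [h, mul_zero])
      (by unfold PeriodPair.g₃; rw [hI 1 h1, mul_zero])
  obtain ⟨c, hc⟩ := IsAlgClosed.exists_pow_nat_eq (k := ℂ) (240 * (EA_lat 1 h1).G 4)
    (n := 4) (by norm_num)
  have hc0 : c ≠ 0 := by
    rintro rfl
    apply h4
    have e1 : 240 * (EA_lat 1 h1).G 4 = 0 := by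
      rw [← hc]
      norm_num
    simpa using e1
  refine ⟨EA_lat c hc0, rfl, ?_, ?_⟩
  · have e1 := EA_scale (EA_lat 1 h1) (EA_lat c hc0) c hc0 (by
      intro x
      rw [EA_mem, EA_mem]
      constructor
      · rintro ⟨m, n, h⟩
        refine ⟨m, n, ?_⟩
        have e2 : c * (((m : ℂ) + n * Complex.I) * 1) = c * x := by
          rw [← h]
          ring
        exact mul_left_cancel₀ hc0 e2
      · rintro ⟨m, n, h⟩
        refine ⟨m, n, ?_⟩
        rw [← h]
        ring) 4
    unfold PeriodPair.g₂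
    rw [e1, hc]
    field_simp
    norm_num
  · unfold PeriodPair.g₃
    rw [hI c hc0, mul_zero]

/-- The lattice `ℤ[i] Om`. -/
noncomputable def Lam : PeriodPair := exists_square_lattice.choose
noncomputable def Om : ℂ := Lam.ω₁

/-- `(Pf, Qf)` is the uniformisation of `E : Y² = X³ - X` with `dX / Y = dz`. -/
noncomputable def Pf (z : ℂ) : ℂ := 4 * Lam.weierstrassP z
noncomputable def Qf (z : ℂ) : ℂ := 4 * Lam.derivWeierstrassP z

/-- Gaussian integers and Gaussian numbers. -/
def InZI (z : ℂ) : Prop := ∃ a b : ℤ, z = a + b * Complex.I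
def InQI (z : ℂ) : Prop := ∃ a b : ℚ, z = a + b * Complex.I

end Pool.Agent.Arith
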