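import Pool.Agent.Lib.MP_c0402d_ag.EA

/-!
# JOB EB: basic properties of `Pf`, `Qf`
-/

set_option autoImplicit false

namespace Pool.Agent.Arith

open Complex Filter Topology

private theorem Lam_spec : Lam.ω₂ = Complex.I * Lam.ω₁ ∧ Lam.g₂ = 1 / 4 ∧ Lam.g₃ = 0 :=
  exists_square_lattice.choose_spec

theorem Om_ne_zero : Om ≠ 0 := Lam.indep.ne_zero 0

theorem mem_lat {z : ℂ} : z ∈ Lam.lattice ↔ ∃ g, InZI g ∧ z = g * Om := by
  rw [PeriodPair.mem_lattice]
  constructor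
  · rintro ⟨m, n, rfl⟩
    refine ⟨m + n * Complex.I, ⟨m, n, rfl⟩, ?_⟩
    rw [Lam_spec.1, Om]
    ring
  · rintro ⟨g, ⟨m, n, rfl⟩, rfl⟩
    refine ⟨m, n, ?_⟩
    rw [Lam_spec.1, Om]
    ring

private theorem I_mul_mem_aux {z : ℂ} (hz : z ∈ Lam.lattice) : I * z ∈ Lam.lattice := by
  obtain ⟨g, ⟨m, n, rfl⟩, rfl⟩ := mem_lat.1 hz
  refine mem_lat.2 ⟨I * (m + n * I), ⟨-n, m, ?_⟩, by ring⟩
  push_cast
  linear_combination (n : ℂ) * I_mul_I

theorem I_mul_mem_lat {z : ℂ} : I * z ∈ Lam.lattice ↔ z ∈ Lam.lattice := by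
  refine ⟨fun h => ?_, I_mul_mem_aux⟩
  have h1 := Lam.lattice.neg_mem (I_mul_mem_aux h)
  rwa [← mul_assoc, I_mul_I, neg_one_mul, neg_neg] at h1

private theorem isOpen_compl : IsOpen ((Lam.lattice : Set ℂ)ᶜ) := Lam.isClosed_lattice.isOpen_compl

private theorem analyticAt_Pf {z : ℂ} (hz : z ∉ Lam.lattice) : AnalyticAt ℂ Pf z :=
  analyticAt_const.mul (Lam.analyticOnNhd_weierstrassP z hz)

private theorem analyticAt_Qf {z : ℂ} (hz : z ∉ Lam.lattice) : AnalyticAt ℂ Qf z :=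
  analyticAt_const.mul (Lam.analyticOnNhd_derivWeierstrassP z hz)

theorem hasDerivAt_Pf {z : ℂ} (hz : z ∉ Lam.lattice) : HasDerivAt Pf (Qf z) z := by
  have h1 : DifferentiableAt ℂ Lam.weierstrassP z :=
    (Lam.analyticOnNhd_weierstrassP z hz).differentiableAt
  have h2 := h1.hasDerivAt
  rw [Lam.deriv_weierstrassP] at h2
  exact h2.const_mul 4

theorem Qf_sq {z : ℂ} (hz : z ∉ Lam.lattice) : Qf z ^ 2 = Pf z ^ 3 - Pf z := by
  have h := Lam.derivWeierstrassP_sq z hz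
  rw [Lam_spec.2.1, Lam_spec.2.2] at h
  rw [Qf, Pf]
  linear_combination 16 * h

theorem Pf_add_lat {z l : ℂ} (hl : l ∈ Lam.lattice) : Pf (z + l) = Pf z := by
  rw [Pf, Pf, Lam.weierstrassP_add_coe z ⟨l, hl⟩]

theorem Qf_add_lat {z l : ℂ} (hl : l ∈ Lam.lattice) : Qf (z + l) = Qf z := by
  rw [Qf, Qf, Lam.derivWeierstrassP_add_coe z ⟨l, hl⟩]

theorem Pf_neg (z : ℂ) : Pf (-z) = Pf z := by
  rw [Pf, Pf, Lam.weierstrassP_neg]

theorem Qf_neg (z : ℂ) : Qf (-z) = - Qf z := by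
  rw [Qf, Qf, Lam.derivWeierstrassP_neg]
  ring

/-- multiplication by `I` on the lattice -/
private noncomputable def IEquiv : Lam.lattice ≃ Lam.lattice where
  toFun l := ⟨I * l, I_mul_mem_lat.2 l.2⟩
  invFun l := ⟨-(I * l), Lam.lattice.neg_mem (I_mul_mem_lat.2 l.2)⟩
  left_inv l := by
    apply Subtype.ext
    change -(I * (I * (l : ℂ))) = l
    rw [← mul_assoc, I_mul_I]; ring
  right_inv l := by
    apply Subtype.ext
    change I * -(I * (l : ℂ)) = l
    rw [mul_neg, ← mul_assoc, I_mul_I]; ring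

private theorem inv_I_sq : ((I : ℂ) ^ 2)⁻¹ = -1 := by
  rw [I_sq]; norm_num

theorem Pf_I_mul (z : ℂ) : Pf (I * z) = - Pf z := by
  rw [Pf, Pf, PeriodPair.weierstrassP, PeriodPair.weierstrassP, ← mul_neg, ← tsum_neg,
    ← Equiv.tsum_eq IEquiv]
  congr 1
  refine tsum_congr fun l => ?_
  change 1 / (I * z - I * l) ^ 2 - 1 / (I * l) ^ 2 = _
  rw [← mul_sub, mul_pow, mul_pow, I_sq]
  rw [neg_one_mul, neg_one_mul, one_div_neg_eq_neg_one_div, one_div_neg_eq_neg_one_div]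
  ring

theorem Qf_I_mul (z : ℂ) : Qf (I * z) = I * Qf z := by
  rw [Qf, Qf, PeriodPair.derivWeierstrassP, PeriodPair.derivWeierstrassP,
    ← Equiv.tsum_eq IEquiv]
  have : ∀ l : Lam.lattice, 2 / (I * z - (IEquiv l : ℂ)) ^ 3 = I * (2 / (z - l) ^ 3) := by
    intro l
    change 2 / (I * z - I * l) ^ 3 = _
    rw [← mul_sub, mul_pow, I_pow_three, div_eq_mul_inv, mul_inv, div_eq_mul_inv]
    have : (-I : ℂ)⁻¹ = I := by
      rw [inv_neg, inv_I, neg_neg]
    rw [this]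
    ring
  rw [tsum_congr this, tsum_mul_left]
  ring

theorem tendsto_Pf {l : ℂ} (hl : l ∈ Lam.lattice) :
    Tendsto (fun z => ‖Pf z‖) (𝓝[≠] l) atTop := by
  have h1 : Tendsto Lam.weierstrassP (𝓝[≠] l) (Bornology.cobounded ℂ) := by
    apply tendsto_cobounded_of_meromorphicOrderAt_neg
    rw [Lam.order_weierstrassP l hl]
    decide
  have h2 := tendsto_norm_cobounded_atTop.comp h1
  have h3 : (fun z => ‖Pf z‖) = fun z => 4 * ‖Lam.weierstrassP z‖ := by
    funext z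
    rw [Pf, norm_mul]
    norm_num
  rw [h3]
  exact h2.const_mul_atTop (by norm_num)

private theorem eventually_notMem {l : ℂ} : ∀ᶠ z in 𝓝[≠] l, z ∉ Lam.lattice := by
  have h := Lam.compl_lattice_sdiff_singleton_mem_nhds l
  rw [eventually_nhdsWithin_iff]
  filter_upwards [h] with z hz hzl hmem
  exact hz ⟨hmem, hzl⟩

theorem tendsto_Qf {l : ℂ} (hl : l ∈ Lam.lattice) :
    Tendsto (fun z => ‖Qf z‖) (𝓝[≠] l) atTop := by
  have h1 := tendsto_Pf hl
  rw [tendsto_atTop] at h1 ⊢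
  intro b
  filter_upwards [h1 (|b| + 2), eventually_notMem (l := l)] with z hz hzl
  have h2 := Qf_sq hzl
  have hb := abs_nonneg b
  have h3 : ‖Qf z‖ ^ 2 = ‖Pf z‖ * ‖Pf z ^ 2 - 1‖ := by
    rw [← norm_pow, h2, ← norm_mul]
    congr 1
    ring
  have h4 : ‖Pf z‖ ^ 2 - 1 ≤ ‖Pf z ^ 2 - 1‖ := by
    have := norm_sub_norm_le (Pf z ^ 2) 1
    rwa [norm_pow, norm_one] at this
  have h5 : b ^ 2 ≤ ‖Qf z‖ ^ 2 := by
    rw [h3, ← sq_abs b]
    have h6 : |b| ^ 2 ≤ ‖Pf z ^ 2 - 1‖ := by nlinarith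
    have h7 : 1 ≤ ‖Pf z‖ := by linarith
    nlinarith [norm_nonneg (Pf z ^ 2 - 1)]
  exact (abs_le_of_sq_le_sq' (b := ‖Qf z‖) (a := b) (by simpa using h5) (norm_nonneg _)).2

private theorem countable_lat : (Lam.lattice : Set ℂ).Countable := by
  have : Countable Lam.lattice := Lam.latticeEquivProd.toEquiv.injective.countable
  exact Set.countable_coe_iff.1 this

private theorem preconn {s : Set ℂ} (hs : s.Countable) : IsPreconnected sᶜ := by
  refine (hs.isConnected_compl_of_one_lt_rank ?_).isPreconnected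
  rw [Complex.rank_real_complex]
  exact Cardinal.one_lt_two

/-- `Qf` does not vanish on a nonempty open set -/
private theorem Qf_not_eventually_zero {z : ℂ} (hz : z ∉ Lam.lattice) :
    ¬ ∀ᶠ w in 𝓝 z, Qf w = 0 := by
  intro h
  have han : AnalyticOnNhd ℂ Qf (Lam.lattice : Set ℂ)ᶜ := fun w hw => analyticAt_Qf hw
  have h1 := han.eqOn_zero_of_preconnected_of_eventuallyEq_zero (preconn countable_lat) hz h
  have h2 := (tendsto_atTop.1 (tendsto_Qf (Lam.lattice.zero_mem)) 1)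
  obtain ⟨w, hw1, hw2⟩ := (h2.and eventually_notMem).exists
  have h3 : Qf w = 0 := h1 hw2
  rw [h3, norm_zero] at hw1
  linarith

/-- differentiate `Qf_sq` (and use continuity at the isolated zeros of `Qf`) -/
theorem hasDerivAt_Qf {z : ℂ} (hz : z ∉ Lam.lattice) :
    HasDerivAt Qf ((3 * Pf z ^ 2 - 1) / 2) z := by
  have hQ := analyticAt_Qf hz
  have hP := analyticAt_Pf hz
  have hR : AnalyticAt ℂ (fun w => deriv Qf w - (3 * Pf w ^ 2 - 1) / 2) z := by
    refine hQ.deriv.sub ?_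
    exact ((analyticAt_const.mul (hP.pow 2)).sub analyticAt_const).div analyticAt_const two_ne_zero
  -- the product vanishes
  have hprod : ∀ᶠ w in 𝓝 z, Qf w * (deriv Qf w - (3 * Pf w ^ 2 - 1) / 2) = 0 := by
    have hopen : ∀ᶠ w in 𝓝 z, w ∉ Lam.lattice := isOpen_compl.mem_nhds hz
    filter_upwards [hopen] with w hw
    have d1 : HasDerivAt (fun x => Qf x ^ 2) (2 * Qf w * deriv Qf w) w := by
      have h5 : HasDerivAt (fun x => Qf x ^ 2) _ w :=
        ((analyticAt_Qf hw).differentiableAt.hasDerivAt).pow 2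
      refine h5.congr_deriv ?_
      simp
    have d2 : HasDerivAt (fun x => Pf x ^ 3 - Pf x) (3 * Pf w ^ 2 * Qf w - Qf w) w := by
      have h5 : HasDerivAt (fun x => Pf x ^ 3 - Pf x) _ w :=
        ((hasDerivAt_Pf hw).pow 3).sub (hasDerivAt_Pf hw)
      refine h5.congr_deriv ?_
      simp
    have heq : (fun x => Qf x ^ 2) =ᶠ[𝓝 w] fun x => Pf x ^ 3 - Pf x := by
      filter_upwards [isOpen_compl.mem_nhds hw] with x hx
      exact Qf_sq hx
    have := d1.unique (d2.congr_of_eventuallyEq heq)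
    linear_combination this / 2
  have hzero : ∀ᶠ w in 𝓝 z, deriv Qf w - (3 * Pf w ^ 2 - 1) / 2 = 0 := by
    rcases hQ.eventually_eq_zero_or_eventually_ne_zero with h | h
    · exact absurd h (Qf_not_eventually_zero hz)
    · rcases hR.eventually_eq_zero_or_eventually_ne_zero with h' | h'
      · exact h'
      · exfalso
        obtain ⟨w, ⟨hw1, hw2⟩, hw3⟩ := ((h.and h').and
          (hprod.filter_mono nhdsWithin_le_nhds)).exists
        rcases mul_eq_zero.1 hw3 with h1 | h1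
        · exact hw1 h1
        · exact hw2 h1
  have h1 : deriv Qf z = (3 * Pf z ^ 2 - 1) / 2 := sub_eq_zero.1 hzero.self_of_nhds
  rw [← h1]
  exact hQ.differentiableAt.hasDerivAt

/-- Injectivity of `(Pf, Qf)` modulo the lattice: both `ζ ↦ (Pf, Qf) (z + ζ)` and
`ζ ↦ (Pf, Qf) (w + ζ)` solve `X' = Y`, `Y' = (3 X² - 1) / 2` with the same initial value, so they
agree (identity theorem on the connected complement of a countable closed set); compare poles. -/
theorem lat_inj {z w : ℂ} (hz : z ∉ Lam.lattice) (hw : w ∉ Lam.lattice) (h1 : Pf z = Pf w)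
    (h2 : Qf z = Qf w) : z - w ∈ Lam.lattice := by
  by_contra hd
  set d := w - z with hdd
  have hd' : d ∉ Lam.lattice := fun h => hd (by
    have := Lam.lattice.neg_mem h
    rwa [hdd, neg_sub] at this)
  have hzd : z + d = w := by rw [hdd]; ring
  -- the differences
  let D1 : ℂ → ℂ := fun ζ => Pf ζ - Pf (ζ + d)
  let A : ℂ → ℂ := fun ζ => 3 / 2 * (Pf ζ + Pf (ζ + d))
  have hsh : ∀ {ζ : ℂ}, ζ + d ∉ Lam.lattice → ∀ {f : ℂ → ℂ}, AnalyticAt ℂ f (ζ + d) →
      AnalyticAt ℂ (fun x => f (x + d)) ζ := by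
    intro ζ _ f hf
    exact AnalyticAt.fun_comp_of_eq hf (analyticAt_id.add analyticAt_const) rfl
  have hwd : z + d ∉ Lam.lattice := by rw [hzd]; exact hw
  have hD1 : AnalyticAt ℂ D1 z := (analyticAt_Pf hz).sub (hsh hwd (analyticAt_Pf hwd))
  have hA : AnalyticAt ℂ A z :=
    analyticAt_const.mul ((analyticAt_Pf hz).add (hsh hwd (analyticAt_Pf hwd)))
  have hnear : ∀ᶠ ζ in 𝓝 z, ζ ∉ Lam.lattice ∧ ζ + d ∉ Lam.lattice := by
    have a1 : ∀ᶠ ζ in 𝓝 z, ζ ∉ Lam.lattice := isOpen_compl.mem_nhds hz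
    have a2 : ∀ᶠ ζ in 𝓝 z, ζ + d ∉ Lam.lattice := by
      have hc : ContinuousAt (fun ζ : ℂ => ζ + d) z := by fun_prop
      exact hc.eventually (isOpen_compl.mem_nhds hwd)
    exact a1.and a2
  have hder : ∀ ζ : ℂ, ζ ∉ Lam.lattice → ζ + d ∉ Lam.lattice →
      HasDerivAt D1 (Qf ζ - Qf (ζ + d)) ζ := by
    intro ζ b1 b2
    exact (hasDerivAt_Pf b1).sub ((hasDerivAt_Pf b2).comp_add_const ζ d)
  have hder2 : ∀ ζ : ℂ, ζ ∉ Lam.lattice → ζ + d ∉ Lam.lattice →
      HasDerivAt (fun x => Qf x - Qf (x + d)) (A ζ * D1 ζ) ζ := by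
    intro ζ b1 b2
    have := (hasDerivAt_Qf b1).sub ((hasDerivAt_Qf b2).comp_add_const ζ d)
    refine this.congr_deriv ?_
    change _ = 3 / 2 * (Pf ζ + Pf (ζ + d)) * (Pf ζ - Pf (ζ + d))
    ring
  have hd1eq : deriv D1 =ᶠ[𝓝 z] fun x => Qf x - Qf (x + d) := by
    filter_upwards [hnear] with ζ hζ
    exact (hder ζ hζ.1 hζ.2).deriv
  have hd2eq : deriv (deriv D1) =ᶠ[𝓝 z] fun x => A x * D1 x := by
    have h3 : deriv (deriv D1) =ᶠ[𝓝 z] deriv (fun x => Qf x - Qf (x + d)) := hd1eq.deriv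
    refine h3.trans ?_
    filter_upwards [hnear] with ζ hζ
    exact (hder2 ζ hζ.1 hζ.2).deriv
  have hD10 : D1 z = 0 := by
    change Pf z - Pf (z + d) = 0
    rw [hzd, h1, sub_self]
  have hD1' : deriv D1 z = 0 := by
    rw [(hder z hz hwd).deriv, hzd, h2, sub_self]
  -- infinite order of vanishing
  have htop : analyticOrderAt D1 z = ⊤ := by
    have e1 := hD1.analyticOrderAt_deriv_add_one
    have e2 := hD1.deriv.analyticOrderAt_deriv_add_one
    have e3 : (fun x => D1 x - D1 z) = D1 := by funext x; rw [hD10, sub_zero]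
    have e4 : (fun x => deriv D1 x - deriv D1 z) = deriv D1 := by funext x; rw [hD1', sub_zero]
    rw [e3] at e1
    rw [e4, analyticOrderAt_congr hd2eq] at e2
    have e5 : analyticOrderAt (fun x => A x * D1 x) z = analyticOrderAt A z + analyticOrderAt D1 z :=
      analyticOrderAt_mul hA hD1
    rw [e5] at e2
    by_contra hne
    have hfin : ∃ n : ℕ, analyticOrderAt D1 z = n := by
      rcases ENat.ne_top_iff_exists.1 hne with ⟨n, hn⟩
      exact ⟨n, hn.symm⟩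
    obtain ⟨n, hn⟩ := hfin
    rw [hn] at e1 e2
    have e6 : (n : ℕ∞) + 1 + 1 ≤ n := by
      calc (n : ℕ∞) + 1 + 1 ≤ analyticOrderAt A z + n + 1 + 1 := by
            gcongr
            exact le_add_self
        _ = n := by rw [e2, e1]
    have e7 : n + 1 + 1 ≤ n := by exact_mod_cast e6
    omega
  have hev : ∀ᶠ ζ in 𝓝 z, D1 ζ = 0 := analyticOrderAt_eq_top.1 htop
  -- the identity theorem
  set U : Set ℂ := ((Lam.lattice : Set ℂ) ∪ {ζ | ζ + d ∈ Lam.lattice})ᶜ with hU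
  have hcount : ((Lam.lattice : Set ℂ) ∪ {ζ | ζ + d ∈ Lam.lattice}).Countable := by
    refine countable_lat.union ?_
    have : {ζ : ℂ | ζ + d ∈ Lam.lattice} = (fun ζ => ζ + d) ⁻¹' (Lam.lattice : Set ℂ) := rfl
    rw [this]
    exact countable_lat.preimage (add_left_injective d)
  have hUan : AnalyticOnNhd ℂ D1 U := by
    intro ζ hζ
    have b1 : ζ ∉ Lam.lattice := fun h => hζ (Or.inl h)
    have b2 : ζ + d ∉ Lam.lattice := fun h => hζ (Or.inr h)
    exact (analyticAt_Pf b1).sub (hsh b2 (analyticAt_Pf b2))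
  have hzU : z ∈ U := by
    rintro (h | h)
    · exact hz h
    · exact hwd h
  have hall := hUan.eqOn_zero_of_preconnected_of_eventuallyEq_zero (preconn hcount) hzU hev
  -- compare the behaviour at `0`
  have c1 := tendsto_Pf (Lam.lattice.zero_mem)
  have c2 : ContinuousAt (fun ζ => ‖Pf (ζ + d)‖) 0 := by
    have h3 : AnalyticAt ℂ Pf (0 + d) := by rw [zero_add]; exact analyticAt_Pf hd'
    exact ((hsh (by rw [zero_add]; exact hd') h3).continuousAt).norm
  have c3 : ∀ᶠ ζ in 𝓝[≠] (0 : ℂ), ‖Pf (ζ + d)‖ < ‖Pf (0 + d)‖ + 1 :=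
    (c2.eventually (gt_mem_nhds (by linarith))).filter_mono nhdsWithin_le_nhds
  have c4 : ∀ᶠ ζ in 𝓝[≠] (0 : ℂ), ζ + d ∉ Lam.lattice := by
    have hc : ContinuousAt (fun ζ : ℂ => ζ + d) 0 := by fun_prop
    have h3 : (Lam.lattice : Set ℂ)ᶜ ∈ 𝓝 ((0 : ℂ) + d) := by
      rw [zero_add]; exact isOpen_compl.mem_nhds hd'
    exact (hc.eventually h3).filter_mono nhdsWithin_le_nhds
  obtain ⟨ζ, ⟨g1, g2⟩, g3, g4⟩ := (((tendsto_atTop.1 c1 (‖Pf (0 + d)‖ + 1)).and c3).and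
    (c4.and (eventually_notMem (l := 0)))).exists
  have hζU : ζ ∈ U := by
    rintro (h | h)
    · exact g4 h
    · exact g3 h
  have h3 : Pf ζ - Pf (ζ + d) = 0 := hall hζU
  rw [sub_eq_zero] at h3
  rw [h3] at g1
  linarith

end Pool.Agent.Arith
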