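import Pool.Agent.Lib.MP_c0402d_ag.EB

/-!
# JOB EC: local coordinates at the poles
-/

set_option autoImplicit false

namespace Pool.Agent.Arith

open Complex Filter Topology

open Classical in
noncomputable def Wf (z : ℂ) : ℂ := if z ∈ Lam.lattice then 0 else Pf z / Qf z
open Classical in
noncomputable def Zf (z : ℂ) : ℂ := if z ∈ Lam.lattice then 0 else 1 / Qf z

private theorem ec_open : IsOpen ((Lam.lattice : Set ℂ)ᶜ) := Lam.isClosed_lattice.isOpen_compl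

private theorem ec_eventually {l : ℂ} : ∀ᶠ z in 𝓝[≠] l, z ∉ Lam.lattice := by
  have h := Lam.compl_lattice_sdiff_singleton_mem_nhds l
  rw [eventually_nhdsWithin_iff]
  filter_upwards [h] with z hz hzl hmem
  exact hz ⟨hmem, hzl⟩

private theorem ec_Wf {z : ℂ} (hz : z ∉ Lam.lattice) : Wf z = Pf z / Qf z := by
  rw [Wf, if_neg hz]

private theorem ec_Zf {z : ℂ} (hz : z ∉ Lam.lattice) : Zf z = 1 / Qf z := by
  rw [Zf, if_neg hz]

private theorem ec_dW {z : ℂ} (hz : z ∉ Lam.lattice) (hQ : Qf z ≠ 0) :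
    HasDerivAt Wf (-(1 + 2 * Wf z * Zf z) / 2) z := by
  have h1 : HasDerivAt (fun w => Pf w / Qf w) _ z :=
    (hasDerivAt_Pf hz).div (hasDerivAt_Qf hz) hQ
  have h2 : Wf =ᶠ[𝓝 z] fun w => Pf w / Qf w := by
    filter_upwards [ec_open.mem_nhds hz] with w hw
    exact ec_Wf hw
  refine (h1.congr_of_eventuallyEq h2).congr_deriv ?_
  rw [ec_Wf hz, ec_Zf hz]
  have h3 := Qf_sq hz
  field_simp
  linear_combination 3 * h3

private theorem ec_dZ {z : ℂ} (hz : z ∉ Lam.lattice) (hQ : Qf z ≠ 0) :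
    HasDerivAt Zf (-(3 * Wf z ^ 2 - Zf z ^ 2) / 2) z := by
  have h1 : HasDerivAt (fun w => 1 / Qf w) _ z :=
    (hasDerivAt_const z (1 : ℂ)).div (hasDerivAt_Qf hz) hQ
  have h2 : Zf =ᶠ[𝓝 z] fun w => 1 / Qf w := by
    filter_upwards [ec_open.mem_nhds hz] with w hw
    exact ec_Zf hw
  refine (h1.congr_of_eventuallyEq h2).congr_deriv ?_
  rw [ec_Wf hz, ec_Zf hz]
  field_simp
  ring

private theorem ec_Q_ne {l : ℂ} (hl : l ∈ Lam.lattice) :
    ∀ᶠ z in 𝓝[≠] l, Qf z ≠ 0 := by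
  filter_upwards [tendsto_atTop.1 (tendsto_Qf hl) 1] with z hz h
  rw [h, norm_zero] at hz
  linarith

private theorem ec_contZ {l : ℂ} (hl : l ∈ Lam.lattice) : ContinuousAt Zf l := by
  rw [← continuousWithinAt_compl_self, ContinuousWithinAt]
  have h0 : Zf l = 0 := by rw [Zf, if_pos hl]
  rw [h0, tendsto_zero_iff_norm_tendsto_zero]
  have h1 := (tendsto_Qf hl).inv_tendsto_atTop
  refine h1.congr' ?_
  filter_upwards [ec_eventually (l := l)] with z hz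
  rw [ec_Zf hz, norm_div, norm_one, one_div]
  rfl

private theorem ec_contW {l : ℂ} (hl : l ∈ Lam.lattice) : ContinuousAt Wf l := by
  rw [← continuousWithinAt_compl_self, ContinuousWithinAt]
  have h0 : Wf l = 0 := by rw [Wf, if_pos hl]
  rw [h0, tendsto_zero_iff_norm_tendsto_zero, Metric.tendsto_nhds]
  intro ε hε
  filter_upwards [ec_eventually (l := l), ec_Q_ne hl,
    tendsto_atTop.1 (tendsto_Pf hl) (2 + 2 / ε ^ 2)] with z hz hQ hP
  rw [Real.dist_eq, sub_zero, abs_of_nonneg (norm_nonneg _), ec_Wf hz, norm_div]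
  have hQpos : 0 < ‖Qf z‖ := norm_pos_iff.2 hQ
  have hε2 : 0 < 2 / ε ^ 2 := by positivity
  have h2 : 2 ≤ ‖Pf z‖ := by linarith
  have h3 : ‖Qf z‖ ^ 2 = ‖Pf z‖ * ‖Pf z ^ 2 - 1‖ := by
    rw [← norm_pow, Qf_sq hz, ← norm_mul]
    congr 1
    ring
  have h4 : ‖Pf z‖ ^ 2 - 1 ≤ ‖Pf z ^ 2 - 1‖ := by
    have := norm_sub_norm_le (Pf z ^ 2) 1
    rwa [norm_pow, norm_one] at this
  have h5 : ‖Pf z‖ ^ 2 / 2 ≤ ‖Pf z ^ 2 - 1‖ := by nlinarith
  have h6 : ‖Pf z‖ ^ 3 / 2 ≤ ‖Qf z‖ ^ 2 := by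
    rw [h3]
    nlinarith
  rw [div_lt_iff₀ hQpos]
  have h7 : 2 < ε ^ 2 * ‖Pf z‖ := by
    have h8 : ε ^ 2 * (2 + 2 / ε ^ 2) ≤ ε ^ 2 * ‖Pf z‖ :=
      mul_le_mul_of_nonneg_left hP (by positivity)
    have h9 : ε ^ 2 * (2 + 2 / ε ^ 2) = 2 * ε ^ 2 + 2 := by
      field_simp
    have h10 : 0 < ε ^ 2 := by positivity
    linarith
  have h11 : ‖Pf z‖ ^ 2 < (ε * ‖Qf z‖) ^ 2 := by
    have h12 : 0 < ‖Pf z‖ ^ 2 := by positivity
    calc ‖Pf z‖ ^ 2 = ‖Pf z‖ ^ 2 * 2 / 2 := by ring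
      _ < ‖Pf z‖ ^ 2 * (ε ^ 2 * ‖Pf z‖) / 2 := by
          have := mul_lt_mul_of_pos_left h7 h12
          linarith
      _ = ε ^ 2 * (‖Pf z‖ ^ 3 / 2) := by ring
      _ ≤ ε ^ 2 * ‖Qf z‖ ^ 2 := mul_le_mul_of_nonneg_left h6 (by positivity)
      _ = (ε * ‖Qf z‖) ^ 2 := by ring
  exact lt_of_pow_lt_pow_left₀ 2 (by positivity) h11

/-- removable singularity -/
private theorem ec_removable {f g : ℂ → ℂ} {l : ℂ} (hf : ContinuousAt f l) (hg : ContinuousAt g l)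
    (hd : ∀ᶠ z in 𝓝[≠] l, HasDerivAt f (g z) z) : HasDerivAt f (g l) l := by
  have h1 : AnalyticAt ℂ f l :=
    Complex.analyticAt_of_differentiable_on_punctured_nhds_of_continuousAt
      (hd.mono fun z hz => hz.differentiableAt) hf
  have h2 : ContinuousAt (deriv f) l := h1.deriv.continuousAt
  have h3 : Tendsto (deriv f) (𝓝[≠] l) (𝓝 (deriv f l)) := h2.tendsto.mono_left nhdsWithin_le_nhds
  have h4 : Tendsto (deriv f) (𝓝[≠] l) (𝓝 (g l)) := by
    refine (hg.tendsto.mono_left nhdsWithin_le_nhds).congr' ?_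
    filter_upwards [hd] with z hz
    exact hz.deriv.symm
  have h5 := tendsto_nhds_unique h3 h4
  rw [← h5]
  exact h1.differentiableAt.hasDerivAt

theorem hasDerivAt_Wf {z : ℂ} (hz : z ∈ Lam.lattice ∨ Qf z ≠ 0) :
    HasDerivAt Wf (-(1 + 2 * Wf z * Zf z) / 2) z := by
  by_cases hl : z ∈ Lam.lattice
  · refine ec_removable (g := fun z => -(1 + 2 * Wf z * Zf z) / 2) (ec_contW hl) ?_ ?_
    · have h1 := ec_contW hl
      have h2 := ec_contZ hl
      fun_prop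
    · filter_upwards [ec_eventually (l := z), ec_Q_ne hl] with w h1 h2
      exact ec_dW h1 h2
  · exact ec_dW hl (hz.resolve_left hl)

theorem hasDerivAt_Zf {z : ℂ} (hz : z ∈ Lam.lattice ∨ Qf z ≠ 0) :
    HasDerivAt Zf (-(3 * Wf z ^ 2 - Zf z ^ 2) / 2) z := by
  by_cases hl : z ∈ Lam.lattice
  · refine ec_removable (g := fun z => -(3 * Wf z ^ 2 - Zf z ^ 2) / 2) (ec_contZ hl) ?_ ?_
    · have h1 := ec_contW hl
      have h2 := ec_contZ hl
      fun_prop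
    · filter_upwards [ec_eventually (l := z), ec_Q_ne hl] with w h1 h2
      exact ec_dZ h1 h2
  · exact ec_dZ hl (hz.resolve_left hl)

end Pool.Agent.Arith
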