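import Pool.Agent.Lib.MP_c0402d_ag.EB

/-!
# JOB ED: addition formulas
-/

set_option autoImplicit false

namespace Pool.Agent.Arith

open Complex Filter Topology


private theorem ed_open : IsOpen ((Lam.lattice : Set ℂ)ᶜ) := Lam.isClosed_lattice.isOpen_compl

private theorem ed_countable : (Lam.lattice : Set ℂ).Countable := by
  have : Countable Lam.lattice := Lam.latticeEquivProd.toEquiv.injective.countable
  exact Set.countable_coe_iff.1 this

private theorem ed_eventually {l : ℂ} : ∀ᶠ z in 𝓝[≠] l, z ∉ Lam.lattice := by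
  have h := Lam.compl_lattice_sdiff_singleton_mem_nhds l
  rw [eventually_nhdsWithin_iff]
  filter_upwards [h] with z hz hzl hmem
  exact hz ⟨hmem, hzl⟩

private theorem ed_eq_iff {z w : ℂ} (hz : z ∉ Lam.lattice) (hw : w ∉ Lam.lattice)
    (h : Pf z = Pf w) : z - w ∈ Lam.lattice ∨ z + w ∈ Lam.lattice := by
  have h1 : Qf z ^ 2 = Qf w ^ 2 := by rw [Qf_sq hz, Qf_sq hw, h]
  rcases sq_eq_sq_iff_eq_or_eq_neg.1 h1 with h2 | h2
  · exact Or.inl (lat_inj hz hw h h2)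
  · right
    have hw' : -w ∉ Lam.lattice := fun hmem => hw (by
      have := Lam.lattice.neg_mem hmem
      rwa [neg_neg] at this)
    have := lat_inj hz hw' (by rw [Pf_neg, h]) (by rw [Qf_neg, h2])
    rwa [sub_neg_eq_add] at this

private theorem ed_sub_notMem {s ζ : ℂ} : s - ζ ∈ Lam.lattice ↔ ζ - s ∈ Lam.lattice := by
  constructor
  · intro h; have := Lam.lattice.neg_mem h; rwa [neg_sub] at this
  · intro h; have := Lam.lattice.neg_mem h; rwa [neg_sub] at this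

/-- the slope -/
private noncomputable def edm (s ζ : ℂ) : ℂ := (Qf ζ - Qf (s - ζ)) / (Pf ζ - Pf (s - ζ))

private theorem ed_hasDerivAt_m {s ζ : ℂ} (h1 : ζ ∉ Lam.lattice) (h2 : s - ζ ∉ Lam.lattice)
    (h3 : Pf ζ ≠ Pf (s - ζ)) : HasDerivAt (edm s) ((Pf ζ - Pf (s - ζ)) / 2) ζ := by
  have hd : Pf ζ - Pf (s - ζ) ≠ 0 := sub_ne_zero.2 h3
  have e1 : HasDerivAt (fun x => s - x) (-1) ζ := by
    simpa using (hasDerivAt_id ζ).const_sub s
  have dQ : HasDerivAt (fun x => Qf x - Qf (s - x)) _ ζ :=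
    (hasDerivAt_Qf h1).sub ((hasDerivAt_Qf h2).comp ζ e1)
  have dP : HasDerivAt (fun x => Pf x - Pf (s - x)) _ ζ :=
    (hasDerivAt_Pf h1).sub ((hasDerivAt_Pf h2).comp ζ e1)
  have dm : HasDerivAt (fun x => (Qf x - Qf (s - x)) / (Pf x - Pf (s - x))) _ ζ := dQ.div dP hd
  refine HasDerivAt.congr_deriv (f := edm s) dm ?_
  have k1 := Qf_sq h1
  have k2 := Qf_sq h2
  rw [div_eq_div_iff (pow_ne_zero 2 hd) two_ne_zero]
  linear_combination (-2) * (k1 - k2)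



private theorem ed_neg_notMem {z : ℂ} (hz : z ∉ Lam.lattice) : -z ∉ Lam.lattice := fun hm =>
  hz (by have := Lam.lattice.neg_mem hm; rwa [neg_neg] at this)

private theorem ed_dbl {z : ℂ} (h : 2 * z ∈ Lam.lattice) : Qf z = 0 := by
  have h1 : Qf (-z + 2 * z) = Qf (-z) := Qf_add_lat h
  rw [Qf_neg, show -z + 2 * z = z by ring] at h1
  have h2 : 2 * Qf z = 0 := by linear_combination h1
  exact (mul_eq_zero.1 h2).resolve_left two_ne_zero

private theorem ed_ratio {l : ℂ} (hl : l ∈ Lam.lattice) :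
    Tendsto (fun z => Qf z / Pf z ^ 2) (𝓝[≠] l) (𝓝 0) := by
  have hinv : Tendsto (fun z => (Pf z)⁻¹) (𝓝[≠] l) (𝓝 0) := by
    rw [tendsto_zero_iff_norm_tendsto_zero]
    simp only [norm_inv]
    exact (tendsto_Pf hl).inv_tendsto_atTop
  have h1 : Tendsto (fun z => (Pf z)⁻¹ - (Pf z)⁻¹ ^ 3) (𝓝[≠] l) (𝓝 0) := by
    have := hinv.sub (hinv.pow 3)
    simpa using this
  have hne : ∀ᶠ z in 𝓝[≠] l, Pf z ≠ 0 := by
    filter_upwards [(tendsto_Pf hl).eventually_gt_atTop 0] with z hz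
    exact norm_pos_iff.1 hz
  have h2 : Tendsto (fun z => (Qf z / Pf z ^ 2) ^ 2) (𝓝[≠] l) (𝓝 0) := by
    refine h1.congr' ?_
    filter_upwards [ed_eventually (l := l), hne] with z hz hz2
    rw [div_pow, Qf_sq hz]
    field_simp
  have h3 : Tendsto (fun z => ‖Qf z / Pf z ^ 2‖ ^ 2) (𝓝[≠] l) (𝓝 0) := by
    have := h2.norm
    simpa [norm_pow] using this
  rw [tendsto_zero_iff_norm_tendsto_zero]
  have h4 := h3.sqrt
  simp only [Real.sqrt_sq (norm_nonneg _), Real.sqrt_zero] at h4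
  exact h4

private theorem ed_F_tendsto {s : ℂ} (hs : s ∉ Lam.lattice) :
    Tendsto (fun ζ => edm s ζ ^ 2 - Pf ζ - Pf (s - ζ)) (𝓝[≠] 0) (𝓝 (Pf s)) := by
  have h0 : (0 : ℂ) ∈ Lam.lattice := Lam.lattice.zero_mem
  have hinv : Tendsto (fun z => (Pf z)⁻¹) (𝓝[≠] 0) (𝓝 0) := by
    rw [tendsto_zero_iff_norm_tendsto_zero]
    simp only [norm_inv]
    exact (tendsto_Pf h0).inv_tendsto_atTop
  have hsub : Tendsto (fun ζ : ℂ => s - ζ) (𝓝[≠] 0) (𝓝 s) := by
    have : Tendsto (fun ζ : ℂ => s - ζ) (𝓝 0) (𝓝 (s - 0)) :=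
      (continuous_const.sub continuous_id).tendsto 0
    rw [sub_zero] at this
    exact this.mono_left nhdsWithin_le_nhds
  have hp : Tendsto (fun ζ => Pf (s - ζ)) (𝓝[≠] 0) (𝓝 (Pf s)) :=
    (hasDerivAt_Pf hs).continuousAt.tendsto.comp hsub
  have hq : Tendsto (fun ζ => Qf (s - ζ)) (𝓝[≠] 0) (𝓝 (Qf s)) :=
    (hasDerivAt_Qf hs).continuousAt.tendsto.comp hsub
  have hv := ed_ratio h0
  have hden : Tendsto (fun ζ => (1 - Pf (s - ζ) * (Pf ζ)⁻¹) ^ 2) (𝓝[≠] 0)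
      (𝓝 ((1 - Pf s * 0) ^ 2)) := (tendsto_const_nhds.sub (hp.mul hinv)).pow 2
  have hnum : Tendsto (fun ζ => 2 * Pf (s - ζ) - (1 + Pf (s - ζ) ^ 2) * (Pf ζ)⁻¹
      - 2 * (Qf ζ / Pf ζ ^ 2) * Qf (s - ζ) + Qf (s - ζ) ^ 2 * (Pf ζ)⁻¹ ^ 2) (𝓝[≠] 0)
      (𝓝 (2 * Pf s - (1 + Pf s ^ 2) * 0 - 2 * 0 * Qf s + Qf s ^ 2 * 0 ^ 2)) :=
    (((hp.const_mul 2).sub ((tendsto_const_nhds.add (hp.pow 2)).mul hinv)).sub
      ((hv.const_mul 2).mul hq)).add ((hq.pow 2).mul (hinv.pow 2))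
  have hfin := (hnum.div hden (by norm_num)).sub hp
  have hlim : (2 * Pf s - (1 + Pf s ^ 2) * 0 - 2 * 0 * Qf s + Qf s ^ 2 * 0 ^ 2) /
      ((1 - Pf s * 0) ^ 2) - Pf s = Pf s := by ring
  rw [hlim] at hfin
  refine hfin.congr' ?_
  have hne : ∀ᶠ z in 𝓝[≠] (0 : ℂ), Pf z ≠ 0 := by
    filter_upwards [(tendsto_Pf h0).eventually_gt_atTop 0] with z hz
    exact norm_pos_iff.1 hz
  have hdn : ∀ᶠ z in 𝓝[≠] (0 : ℂ), 1 - Pf (s - z) * (Pf z)⁻¹ ≠ 0 := by
    have h5 : Tendsto (fun ζ => 1 - Pf (s - ζ) * (Pf ζ)⁻¹) (𝓝[≠] 0) (𝓝 (1 - Pf s * 0)) :=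
      tendsto_const_nhds.sub (hp.mul hinv)
    exact h5.eventually_ne (by norm_num)
  filter_upwards [ed_eventually (l := 0), hne, hdn] with z hz hz2 hz3
  have hz4 : Pf z - Pf (s - z) ≠ 0 := by
    intro h
    apply hz3
    rw [← sub_eq_zero.1 h, mul_inv_cancel₀ hz2, sub_self]
  have k := Qf_sq hz
  simp only [edm, Pi.div_apply]
  have e1 : 1 - Pf (s - z) * (Pf z)⁻¹ = (Pf z - Pf (s - z)) / Pf z := by
    field_simp
  rw [e1]
  field_simp
  linear_combination (-1 : ℂ) * k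

private theorem ed_ev {f : ℂ → ℂ} {x : ℂ} (hc : ContinuousAt f x) (h : f x ∉ Lam.lattice) :
    ∀ᶠ ζ in 𝓝 x, f ζ ∉ Lam.lattice :=
  hc (ed_open.mem_nhds (show f x ∈ ((Lam.lattice : Set ℂ)ᶜ) from h))

private theorem ed_const {s a b : ℂ} (hs : s ∉ Lam.lattice) (ha : a ∉ Lam.lattice)
    (hb : b ∉ Lam.lattice) (hab : a + b = s) (h : Pf a ≠ Pf b) :
    edm s a ^ 2 - Pf a - Pf (s - a) = Pf s := by
  set U : Set ℂ := {ζ | ζ ∉ Lam.lattice ∧ s - ζ ∉ Lam.lattice ∧ 2 * ζ - s ∉ Lam.lattice} with hU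
  have hcl : IsClosed (Lam.lattice : Set ℂ) := Lam.isClosed_lattice
  have hUc : U = ((Lam.lattice : Set ℂ) ∪ ((fun ζ => s - ζ) ⁻¹' (Lam.lattice : Set ℂ)) ∪
      ((fun ζ => 2 * ζ - s) ⁻¹' (Lam.lattice : Set ℂ)))ᶜ := by
    ext ζ
    simp [hU, and_assoc]
  have hopen : IsOpen U := by
    rw [hUc]
    refine (IsClosed.union (IsClosed.union hcl ?_) ?_).isOpen_compl
    · exact hcl.preimage (by fun_prop)
    · exact hcl.preimage (by fun_prop)
  have hct : ((Lam.lattice : Set ℂ) ∪ ((fun ζ => s - ζ) ⁻¹' (Lam.lattice : Set ℂ)) ∪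
      ((fun ζ => 2 * ζ - s) ⁻¹' (Lam.lattice : Set ℂ))).Countable := by
    refine (ed_countable.union ?_).union ?_
    · refine ed_countable.preimage ?_
      intro x y hxy
      simpa using hxy
    · refine ed_countable.preimage ?_
      intro x y hxy
      simpa using hxy
  have hconn : IsPreconnected U := by
    rw [hUc]
    refine (hct.isConnected_compl_of_one_lt_rank ?_).isPreconnected
    rw [Complex.rank_real_complex]
    exact Cardinal.one_lt_two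
  have hPne : ∀ ζ ∈ U, Pf ζ ≠ Pf (s - ζ) := by
    intro ζ hζ heq
    rcases ed_eq_iff hζ.1 hζ.2.1 heq with h1 | h1
    · apply hζ.2.2
      have : 2 * ζ - s = ζ - (s - ζ) := by ring
      rwa [this]
    · apply hs
      have : s = ζ + (s - ζ) := by ring
      rwa [this]
  have hder : ∀ ζ ∈ U, HasDerivAt (fun ζ => edm s ζ ^ 2 - Pf ζ - Pf (s - ζ)) 0 ζ := by
    intro ζ hζ
    have hne := hPne ζ hζ
    have hd : Pf ζ - Pf (s - ζ) ≠ 0 := sub_ne_zero.2 hne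
    have e1 : HasDerivAt (fun x => s - x) (-1) ζ := by
      simpa using (hasDerivAt_id ζ).const_sub s
    have d1 : HasDerivAt (fun x => edm s x ^ 2 - Pf x - Pf (s - x)) _ ζ :=
      (((ed_hasDerivAt_m hζ.1 hζ.2.1 hne).pow 2).sub (hasDerivAt_Pf hζ.1)).sub
        ((hasDerivAt_Pf hζ.2.1).comp ζ e1)
    refine d1.congr_deriv ?_
    simp only [edm]
    push_cast
    field_simp
    ring
  have haU : a ∈ U := by
    refine ⟨ha, ?_, ?_⟩
    · rw [← hab, add_sub_cancel_left]; exact hb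
    · intro hm
      apply h
      have e : a = b + (2 * a - s) := by rw [← hab]; ring
      calc Pf a = Pf (b + (2 * a - s)) := by rw [← e]
        _ = Pf b := Pf_add_lat hm
  have hconst : ∀ ζ ∈ U, edm s ζ ^ 2 - Pf ζ - Pf (s - ζ) = edm s a ^ 2 - Pf a - Pf (s - a) := by
    intro ζ hζ
    exact hopen.is_const_of_deriv_eq_zero hconn
      (fun x hx => (hder x hx).differentiableAt.differentiableWithinAt)
      (fun x hx => (hder x hx).deriv) hζ haU
  have hev : ∀ᶠ ζ in 𝓝[≠] (0 : ℂ), ζ ∈ U := by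
    have h1 : ∀ᶠ ζ in 𝓝[≠] (0 : ℂ), s - ζ ∉ Lam.lattice := by
      have hc : ContinuousAt (fun ζ : ℂ => s - ζ) 0 := by fun_prop
      exact (ed_ev hc (by simpa using hs)).filter_mono nhdsWithin_le_nhds
    have h2 : ∀ᶠ ζ in 𝓝[≠] (0 : ℂ), 2 * ζ - s ∉ Lam.lattice := by
      have hc : ContinuousAt (fun ζ : ℂ => 2 * ζ - s) 0 := by fun_prop
      exact (ed_ev hc (by simpa using ed_neg_notMem hs)).filter_mono nhdsWithin_le_nhds
    filter_upwards [ed_eventually (l := 0), h1, h2] with ζ a1 a2 a3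
    exact ⟨a1, a2, a3⟩
  have hl : Tendsto (fun ζ => edm s ζ ^ 2 - Pf ζ - Pf (s - ζ)) (𝓝[≠] 0)
      (𝓝 (edm s a ^ 2 - Pf a - Pf (s - a))) := by
    refine tendsto_const_nhds.congr' ?_
    filter_upwards [hev] with ζ hζ
    exact (hconst ζ hζ).symm
  exact tendsto_nhds_unique hl (ed_F_tendsto hs)


/-- For fixed `s = z + w` the right hand side (as a function of `z`, with `w = s - z`) has
derivative zero (an algebraic identity), hence is constant; let `z → 0`. -/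
theorem Pf_add {z w : ℂ} (hz : z ∉ Lam.lattice) (hw : w ∉ Lam.lattice) (h : Pf z ≠ Pf w) :
    z + w ∉ Lam.lattice ∧
    Pf (z + w) = ((Qf z - Qf w) / (Pf z - Pf w)) ^ 2 - Pf z - Pf w ∧
    Qf (z + w) = -((Qf z - Qf w) / (Pf z - Pf w) * (Pf (z + w) - Pf z) + Qf z) := by
  have hsum : ∀ ζ : ℂ, Pf z ≠ Pf ζ → z + ζ ∉ Lam.lattice := by
    intro ζ hne hm
    apply hne
    have e : z = -ζ + (z + ζ) := by ring
    calc Pf z = Pf (-ζ + (z + ζ)) := by rw [← e]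
      _ = Pf (-ζ) := Pf_add_lat hm
      _ = Pf ζ := Pf_neg ζ
  have key : ∀ ζ : ℂ, ζ ∉ Lam.lattice → Pf z ≠ Pf ζ →
      Pf (z + ζ) = ((Qf z - Qf ζ) / (Pf z - Pf ζ)) ^ 2 - Pf z - Pf ζ := by
    intro ζ hζ hne
    have := ed_const (hsum ζ hne) hz hζ rfl hne
    rw [← this]
    simp only [edm, add_sub_cancel_left]
  refine ⟨hsum w h, key w hw h, ?_⟩
  have hd : Pf z - Pf w ≠ 0 := sub_ne_zero.2 h
  have dP := hasDerivAt_Pf hw
  have dQ := hasDerivAt_Qf hw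
  have d1 : HasDerivAt (fun x => ((Qf z - Qf x) / (Pf z - Pf x)) ^ 2 - Pf z - Pf x) _ w :=
    ((((dQ.const_sub (Qf z)).div (dP.const_sub (Pf z)) hd).pow 2).sub_const (Pf z)).sub dP
  have e1 : HasDerivAt (fun x => z + x) 1 w := by
    simpa using (hasDerivAt_id w).const_add z
  have d2 : HasDerivAt (fun x => Pf (z + x)) (Qf (z + w) * 1) w :=
    (hasDerivAt_Pf (hsum w h)).comp w e1
  have hev : ∀ᶠ x in 𝓝 w, Pf (z + x) = ((Qf z - Qf x) / (Pf z - Pf x)) ^ 2 - Pf z - Pf x := by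
    have h1 : ∀ᶠ x in 𝓝 w, x ∉ Lam.lattice := ed_ev continuousAt_id hw
    have h2 : ∀ᶠ x in 𝓝 w, Pf x ≠ Pf z := dP.continuousAt.eventually_ne h.symm
    filter_upwards [h1, h2] with x a1 a2
    exact key x a1 (Ne.symm a2)
  have d3 := d1.congr_of_eventuallyEq hev
  have hu := d2.unique d3
  rw [key w hw h]
  have k1 := Qf_sq hz
  have k2 := Qf_sq hw
  rw [mul_one] at hu
  rw [hu]
  simp only [Pi.div_apply]
  push_cast
  field_simp
  linear_combination (Qf z - Qf w) * (k1 - k2)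

theorem Pf_two {z : ℂ} (hz : z ∉ Lam.lattice) (h : Qf z ≠ 0) :
    2 * z ∉ Lam.lattice ∧
    Pf (2 * z) = ((3 * Pf z ^ 2 - 1) / (2 * Qf z)) ^ 2 - 2 * Pf z ∧
    Qf (2 * z) = -((3 * Pf z ^ 2 - 1) / (2 * Qf z) * (Pf (2 * z) - Pf z) + Qf z) := by
  have h2z : 2 * z ∉ Lam.lattice := fun hm => h (ed_dbl hm)
  have dP := hasDerivAt_Pf hz
  have dQ := hasDerivAt_Qf hz
  have s1 := (hasDerivAt_iff_tendsto_slope.1 dP)
  have s2 := (hasDerivAt_iff_tendsto_slope.1 dQ)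
  have hev : ∀ᶠ x in 𝓝[≠] z, Pf x ≠ Pf z := dP.eventually_ne h
  have hevL : ∀ᶠ x in 𝓝[≠] z, x ∉ Lam.lattice := ed_eventually
  have hm : Tendsto (fun x => (Qf z - Qf x) / (Pf z - Pf x)) (𝓝[≠] z)
      (𝓝 ((3 * Pf z ^ 2 - 1) / (2 * Qf z))) := by
    have h3 := s2.div s1 h
    have e : (3 * Pf z ^ 2 - 1) / 2 / Qf z = (3 * Pf z ^ 2 - 1) / (2 * Qf z) := by
      rw [div_div]
    rw [e] at h3
    refine h3.congr' ?_
    filter_upwards [hev, self_mem_nhdsWithin] with x hx hx2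
    have hx3 : x - z ≠ 0 := sub_ne_zero.2 hx2
    have hx4 : Pf x - Pf z ≠ 0 := sub_ne_zero.2 hx
    have hx5 : Pf z - Pf x ≠ 0 := sub_ne_zero.2 (Ne.symm hx)
    simp only [Pi.div_apply, slope_def_field]
    rw [div_div_div_cancel_right₀ hx3, div_eq_div_iff hx4 hx5]
    ring
  have hadd : Tendsto (fun x => z + x) (𝓝[≠] z) (𝓝 (2 * z)) := by
    have : Tendsto (fun x => z + x) (𝓝 z) (𝓝 (z + z)) :=
      (continuous_const.add continuous_id).tendsto z
    rw [← two_mul] at this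
    exact this.mono_left nhdsWithin_le_nhds
  have hP2 : Tendsto (fun x => Pf (z + x)) (𝓝[≠] z) (𝓝 (Pf (2 * z))) :=
    (hasDerivAt_Pf h2z).continuousAt.tendsto.comp hadd
  have hQ2 : Tendsto (fun x => Qf (z + x)) (𝓝[≠] z) (𝓝 (Qf (2 * z))) :=
    (hasDerivAt_Qf h2z).continuousAt.tendsto.comp hadd
  have hPx : Tendsto Pf (𝓝[≠] z) (𝓝 (Pf z)) := dP.continuousAt.tendsto.mono_left nhdsWithin_le_nhds
  refine ⟨h2z, ?_, ?_⟩
  · have l1 : Tendsto (fun x => ((Qf z - Qf x) / (Pf z - Pf x)) ^ 2 - Pf z - Pf x) (𝓝[≠] z)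
        (𝓝 (((3 * Pf z ^ 2 - 1) / (2 * Qf z)) ^ 2 - Pf z - Pf z)) :=
      ((hm.pow 2).sub tendsto_const_nhds).sub hPx
    have l2 : Tendsto (fun x => Pf (z + x)) (𝓝[≠] z)
        (𝓝 (((3 * Pf z ^ 2 - 1) / (2 * Qf z)) ^ 2 - Pf z - Pf z)) := by
      refine l1.congr' ?_
      filter_upwards [hev, hevL] with x hx hx2
      exact (Pf_add hz hx2 (Ne.symm hx)).2.1.symm
    rw [tendsto_nhds_unique hP2 l2]
    ring
  · have l1 : Tendsto (fun x => -((Qf z - Qf x) / (Pf z - Pf x) * (Pf (z + x) - Pf z) + Qf z))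
        (𝓝[≠] z) (𝓝 (-((3 * Pf z ^ 2 - 1) / (2 * Qf z) * (Pf (2 * z) - Pf z) + Qf z))) :=
      ((hm.mul (hP2.sub tendsto_const_nhds)).add tendsto_const_nhds).neg
    refine tendsto_nhds_unique hQ2 (l1.congr' ?_)
    filter_upwards [hev, hevL] with x hx hx2
    exact (Pf_add hz hx2 (Ne.symm hx)).2.2.symm

theorem Pf_one_add_I {z : ℂ} (hz : z ∉ Lam.lattice) (h : Pf z ≠ 0) :
    (1 + I) * z ∉ Lam.lattice ∧ Pf ((1 + I) * z) = (Pf z ^ 2 - 1) / (2 * I * Pf z) := by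
  have hw : I * z ∉ Lam.lattice := fun hm => hz (I_mul_mem_lat.1 hm)
  have hne : Pf z ≠ Pf (I * z) := by
    rw [Pf_I_mul]
    intro he
    apply h
    have : 2 * Pf z = 0 := by linear_combination he
    exact (mul_eq_zero.1 this).resolve_left two_ne_zero
  obtain ⟨h1, h2, -⟩ := Pf_add hz hw hne
  have e : (1 + I) * z = z + I * z := by ring
  rw [e]
  refine ⟨h1, ?_⟩
  rw [h2, Pf_I_mul, Qf_I_mul]
  have k := Qf_sq hz
  have e2 : Pf z - -Pf z = 2 * Pf z := by ring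
  rw [e2]
  have hI : I ≠ 0 := I_ne_zero
  have hI2 : I ^ 2 = -1 := I_sq
  have e3 : ((Qf z - I * Qf z) / (2 * Pf z)) ^ 2 = -2 * I * (Pf z ^ 3 - Pf z) / (2 * Pf z) ^ 2 := by
    rw [div_pow, ← k]
    congr 1
    linear_combination Qf z ^ 2 * hI2
  rw [e3]
  field_simp
  linear_combination (-1 : ℂ) * (Pf z ^ 2 - 1) * hI2

/-- The point of `E` with parameter `z` is rational over the field `F`. -/
def GoodPt (F : Subfield ℂ) (z : ℂ) : Prop := z ∈ Lam.lattice ∨ (Pf z ∈ F ∧ Qf z ∈ F)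

theorem GoodPt.neg {F : Subfield ℂ} {z : ℂ} (hz : GoodPt F z) : GoodPt F (-z) := by
  rcases hz with h | ⟨h1, h2⟩
  · exact Or.inl (Lam.lattice.neg_mem h)
  · right
    rw [Pf_neg, Qf_neg]
    exact ⟨h1, F.neg_mem h2⟩

theorem GoodPt.I_mul {F : Subfield ℂ} (hI : I ∈ F) {z : ℂ} (hz : GoodPt F z) :
    GoodPt F (I * z) := by
  rcases hz with h | ⟨h1, h2⟩
  · exact Or.inl (I_mul_mem_lat.2 h)
  · right
    rw [Pf_I_mul, Qf_I_mul]
    exact ⟨F.neg_mem h1, F.mul_mem hI h2⟩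

/-- use `Pf_add`, `Pf_two`, and `lat_inj` in the degenerate cases -/
theorem GoodPt.add {F : Subfield ℂ} {z w : ℂ} (hz : GoodPt F z) (hw : GoodPt F w) :
    GoodPt F (z + w) := by
  rcases hz with h | hz
  · rcases hw with h' | ⟨h1, h2⟩
    · exact Or.inl (Lam.lattice.add_mem h h')
    · right
      rw [add_comm, Pf_add_lat h, Qf_add_lat h]
      exact ⟨h1, h2⟩
  by_cases hzL : z ∈ Lam.lattice
  · rcases hw with h' | ⟨h1, h2⟩
    · exact Or.inl (Lam.lattice.add_mem hzL h')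
    · right
      rw [add_comm, Pf_add_lat hzL, Qf_add_lat hzL]
      exact ⟨h1, h2⟩
  by_cases hwL : w ∈ Lam.lattice
  · right
    rw [Pf_add_lat hwL, Qf_add_lat hwL]
    exact hz
  rcases hw with h' | hw
  · exact absurd h' hwL
  obtain ⟨p1, q1⟩ := hz
  obtain ⟨p2, q2⟩ := hw
  have h2F : (2 : ℂ) ∈ F := by
    have := F.add_mem F.one_mem F.one_mem
    rwa [one_add_one_eq_two] at this
  have h3F : (3 : ℂ) ∈ F := by
    have := F.add_mem h2F F.one_mem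
    have e : (2 : ℂ) + 1 = 3 := by norm_num
    rwa [e] at this
  by_cases hP : Pf z = Pf w
  · by_cases hsum : z + w ∈ Lam.lattice
    · exact Or.inl hsum
    · have hdiff : z - w ∈ Lam.lattice := by
        rcases ed_eq_iff hzL hwL hP with h | h
        · exact h
        · exact absurd h hsum
      have hQ : Qf z ≠ 0 := by
        intro hQ
        apply hsum
        have h3 : z - -z ∈ Lam.lattice :=
          lat_inj hzL (ed_neg_notMem hzL) (by rw [Pf_neg]) (by rw [Qf_neg, hQ, neg_zero])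
        have h4 := Lam.lattice.sub_mem h3 hdiff
        have e : z - -z - (z - w) = z + w := by ring
        rwa [e] at h4
      obtain ⟨a1, a2, a3⟩ := Pf_two hzL hQ
      have e : z + w = 2 * z + -(z - w) := by ring
      have hneg := Lam.lattice.neg_mem hdiff
      right
      rw [e, Pf_add_lat hneg, Qf_add_lat hneg]
      have hm : (3 * Pf z ^ 2 - 1) / (2 * Qf z) ∈ F :=
        F.div_mem (F.sub_mem (F.mul_mem h3F (F.pow_mem p1 2)) F.one_mem) (F.mul_mem h2F q1)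
      have hP2 : Pf (2 * z) ∈ F := by
        rw [a2]
        exact F.sub_mem (F.pow_mem hm 2) (F.mul_mem h2F p1)
      refine ⟨hP2, ?_⟩
      rw [a3]
      exact F.neg_mem (F.add_mem (F.mul_mem hm (F.sub_mem hP2 p1)) q1)
  · obtain ⟨a1, a2, a3⟩ := Pf_add hzL hwL hP
    right
    have hm : (Qf z - Qf w) / (Pf z - Pf w) ∈ F := F.div_mem (F.sub_mem q1 q2) (F.sub_mem p1 p2)
    have hP2 : Pf (z + w) ∈ F := by
      rw [a2]
      exact F.sub_mem (F.sub_mem (F.pow_mem hm 2) p1) p2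
    refine ⟨hP2, ?_⟩
    rw [a3]
    exact F.neg_mem (F.add_mem (F.mul_mem hm (F.sub_mem hP2 p1)) q1)

private theorem ed_nat {F : Subfield ℂ} {z : ℂ} (hz : GoodPt F z) (n : ℕ) :
    GoodPt F ((n : ℂ) * z) := by
  induction n with
  | zero => left; simp
  | succ n ih =>
    have e : ((n + 1 : ℕ) : ℂ) * z = (n : ℂ) * z + z := by push_cast; ring
    rw [e]
    exact ih.add hz

private theorem ed_int {F : Subfield ℂ} {z : ℂ} (hz : GoodPt F z) (n : ℤ) :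
    GoodPt F ((n : ℂ) * z) := by
  rcases Int.eq_nat_or_neg n with ⟨m, rfl | rfl⟩
  · simpa using ed_nat hz m
  · have := (ed_nat hz m).neg
    simpa using this

theorem GoodPt.gauss {F : Subfield ℂ} (hI : I ∈ F) {z g : ℂ} (hg : InZI g) (hz : GoodPt F z) :
    GoodPt F (g * z) := by
  obtain ⟨a, b, rfl⟩ := hg
  have e : ((a : ℂ) + b * I) * z = (a : ℂ) * z + I * ((b : ℂ) * z) := by ring
  rw [e]
  exact (ed_int hz a).add ((ed_int hz b).I_mul hI)

private theorem ed_half_notMem {a b : ℚ} (h : ¬ ∃ n : ℤ, a = n) :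
    ((a : ℂ) + b * I) * Om ∉ Lam.lattice := by
  intro hm
  obtain ⟨g, ⟨m, n, rfl⟩, hg⟩ := mem_lat.1 hm
  have h1 := mul_right_cancel₀ Om_ne_zero hg
  have h2 := congrArg Complex.re h1
  simp at h2
  exact h ⟨m, by exact_mod_cast h2⟩

private theorem ed_half_notMem' {a b : ℚ} (h : ¬ ∃ n : ℤ, b = n) :
    ((a : ℂ) + b * I) * Om ∉ Lam.lattice := by
  intro hm
  obtain ⟨g, ⟨m, n, rfl⟩, hg⟩ := mem_lat.1 hm
  have h1 := mul_right_cancel₀ Om_ne_zero hg
  have h2 := congrArg Complex.im h1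
  simp at h2
  exact h ⟨n, by exact_mod_cast h2⟩

private theorem ed_half_not_int : ¬ ∃ n : ℤ, (1 / 2 : ℚ) = n := by
  rintro ⟨n, hn⟩
  have h2 : (1 : ℚ) = 2 * n := by rw [← hn]; norm_num
  have h3 : (1 : ℤ) = 2 * n := by exact_mod_cast h2
  omega

private theorem ed_Om_mem : Om ∈ Lam.lattice :=
  mem_lat.2 ⟨1, ⟨1, 0, by simp⟩, by simp⟩

theorem half_zero : (1 + I) / 2 * Om ∉ Lam.lattice ∧ Pf ((1 + I) / 2 * Om) = 0 ∧
    Qf ((1 + I) / 2 * Om) = 0 := by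
  have h1 : (1 + I) / 2 * Om ∉ Lam.lattice := by
    have := ed_half_notMem (a := 1 / 2) (b := 1 / 2) ed_half_not_int
    have e : (1 + I) / 2 * Om = (((1 / 2 : ℚ) : ℂ) + ((1 / 2 : ℚ) : ℂ) * I) * Om := by
      push_cast; ring
    rwa [e]
  have e : I * ((1 + I) / 2 * Om) = (1 + I) / 2 * Om + -Om := by
    have hI2 : I ^ 2 = -1 := I_sq
    linear_combination (Om / 2) * hI2
  have h2 : Pf ((1 + I) / 2 * Om) = 0 := by
    have h3 := Pf_I_mul ((1 + I) / 2 * Om)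
    rw [e, Pf_add_lat (Lam.lattice.neg_mem ed_Om_mem)] at h3
    have : 2 * Pf ((1 + I) / 2 * Om) = 0 := by linear_combination h3
    exact (mul_eq_zero.1 this).resolve_left two_ne_zero
  refine ⟨h1, h2, ?_⟩
  have := Qf_sq h1
  rw [h2] at this
  simpa using this

theorem exists_half_neg_one : ∃ δ : ℂ, InQI δ ∧ 2 * (δ * Om) ∈ Lam.lattice ∧
    δ * Om ∉ Lam.lattice ∧ Pf (δ * Om) = -1 ∧ Qf (δ * Om) = 0 := by
  have hA : (1 / 2 : ℂ) * Om ∉ Lam.lattice := by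
    have := ed_half_notMem (a := 1 / 2) (b := 0) ed_half_not_int
    have e : (1 / 2 : ℂ) * Om = (((1 / 2 : ℚ) : ℂ) + ((0 : ℚ) : ℂ) * I) * Om := by
      push_cast; ring
    rwa [e]
  have hB : (I / 2 : ℂ) * Om ∉ Lam.lattice := by
    have := ed_half_notMem' (a := 0) (b := 1 / 2) ed_half_not_int
    have e : (I / 2 : ℂ) * Om = (((0 : ℚ) : ℂ) + ((1 / 2 : ℚ) : ℂ) * I) * Om := by
      push_cast; ring
    rwa [e]
  have hA2 : 2 * ((1 / 2 : ℂ) * Om) ∈ Lam.lattice := by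
    have e : 2 * ((1 / 2 : ℂ) * Om) = Om := by ring
    rw [e]; exact ed_Om_mem
  have hB2 : 2 * ((I / 2 : ℂ) * Om) ∈ Lam.lattice := by
    have e : 2 * ((I / 2 : ℂ) * Om) = I * Om := by ring
    rw [e]; exact I_mul_mem_lat.2 ed_Om_mem
  have hQA : Qf ((1 / 2 : ℂ) * Om) = 0 := ed_dbl hA2
  have hQB : Qf ((I / 2 : ℂ) * Om) = 0 := ed_dbl hB2
  have hPA : Pf ((1 / 2 : ℂ) * Om) ≠ 0 := by
    intro h0
    obtain ⟨c1, c2, c3⟩ := half_zero
    have h3 := lat_inj c1 hA (by rw [c2, h0]) (by rw [c3, hQA])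
    apply hB
    have e : (1 + I) / 2 * Om - (1 / 2 : ℂ) * Om = (I / 2 : ℂ) * Om := by ring
    rwa [e] at h3
  have hcub : Pf ((1 / 2 : ℂ) * Om) ^ 2 = 1 := by
    have h3 := Qf_sq hA
    rw [hQA] at h3
    have h4 : Pf ((1 / 2 : ℂ) * Om) * (Pf ((1 / 2 : ℂ) * Om) ^ 2 - 1) = 0 := by
      linear_combination -h3
    exact sub_eq_zero.1 ((mul_eq_zero.1 h4).resolve_left hPA)
  have hIB : Pf ((I / 2 : ℂ) * Om) = -Pf ((1 / 2 : ℂ) * Om) := by
    have e : (I / 2 : ℂ) * Om = I * ((1 / 2 : ℂ) * Om) := by ring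
    rw [e, Pf_I_mul]
  have hfac : (Pf ((1 / 2 : ℂ) * Om) - 1) * (Pf ((1 / 2 : ℂ) * Om) + 1) = 0 := by
    linear_combination hcub
  rcases (mul_eq_zero.1 hfac).imp sub_eq_zero.1 eq_neg_of_add_eq_zero_left with h | h
  · refine ⟨I / 2, ⟨0, 1 / 2, by push_cast; ring⟩, hB2, hB, ?_, hQB⟩
    rw [hIB, h]
  · exact ⟨1 / 2, ⟨1 / 2, 0, by push_cast; ring⟩, hA2, hA, h, hQA⟩

/-- a point with `Qf = 0` is a half period -/
theorem two_mul_mem_of_Qf {z : ℂ} (hz : z ∉ Lam.lattice) (h : Qf z = 0) :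
    2 * z ∈ Lam.lattice := by
  have h3 : z - -z ∈ Lam.lattice :=
    lat_inj hz (ed_neg_notMem hz) (by rw [Pf_neg]) (by rw [Qf_neg, h, neg_zero])
  have e : z - -z = 2 * z := by ring
  rwa [e] at h3

private theorem ed_algQ {z : ℂ} (hz : z ∉ Lam.lattice) (h : IsAlgebraic ℚ (Pf z)) :
    IsAlgebraic ℚ (Qf z) := by
  have h1 : IsAlgebraic ℚ (Qf z ^ 2) := by
    rw [Qf_sq hz]
    exact (h.pow 3).sub h
  exact h1.of_pow (by norm_num)

/-- the `(1 + I)`-power torsion points have algebraic coordinates (induction, `Pf_one_add_I`) -/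
theorem algebraic_torsion (N : ℕ) : Om / (1 + I) ^ N ∈ Lam.lattice ∨
    (IsAlgebraic ℚ (Pf (Om / (1 + I) ^ N)) ∧ IsAlgebraic ℚ (Qf (Om / (1 + I) ^ N))) := by
  have hI1 : (1 + I : ℂ) ≠ 0 := by
    intro h
    have := congrArg Complex.re h
    simp at this
  have hIalg : IsAlgebraic ℚ (I : ℂ) := by
    have h1 : IsAlgebraic ℚ ((I : ℂ) ^ 2) := by
      rw [I_sq]
      exact (isAlgebraic_one).neg
    exact h1.of_pow (by norm_num)
  induction N with
  | zero => left; simpa using ed_Om_mem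
  | succ N ih =>
    by_cases hz : Om / (1 + I) ^ (N + 1) ∈ Lam.lattice
    · exact Or.inl hz
    right
    set z := Om / (1 + I) ^ (N + 1) with hzdef
    have e : Om / (1 + I) ^ N = (1 + I) * z := by
      rw [hzdef, pow_succ]
      field_simp
    rw [e] at ih
    by_cases hP : Pf z = 0
    · have h1 : IsAlgebraic ℚ (Pf z) := by rw [hP]; exact isAlgebraic_zero
      exact ⟨h1, ed_algQ hz h1⟩
    · obtain ⟨a1, a2⟩ := Pf_one_add_I hz hP
      rcases ih with ih | ⟨ih, -⟩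
      · exact absurd ih a1
      set A := Pf ((1 + I) * z) with hA
      have hI2 : I ^ 2 = -1 := I_sq
      have hrel : 2 * I * Pf z * A = Pf z ^ 2 - 1 := by
        rw [a2]
        have : 2 * I * Pf z ≠ 0 := mul_ne_zero (mul_ne_zero two_ne_zero I_ne_zero) hP
        field_simp
      have h2 : (Pf z - I * A) ^ 2 = 1 - A ^ 2 := by
        linear_combination A ^ 2 * hI2 - hrel
      have h3 : IsAlgebraic ℚ ((Pf z - I * A) ^ 2) := by
        rw [h2]
        exact isAlgebraic_one.sub (ih.pow 2)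
      have h4 : IsAlgebraic ℚ (Pf z - I * A) := h3.of_pow (by norm_num)
      have h5 : IsAlgebraic ℚ (Pf z) := by
        have := h4.add (hIalg.mul ih)
        rwa [sub_add_cancel] at this
      exact ⟨h5, ed_algQ hz h5⟩

end Pool.Agent.Arith
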