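import Pool.Agent.Lib.MP_c0402d_ag.EB

/-!
# JOB EE: growth, entire denominators
-/

set_option autoImplicit false

namespace Pool.Agent.Arith

open Complex Filter Topology

/-- The regularised function `z ^ 2 * Pf z`. -/
private noncomputable def Gf (w : ℂ) : ℂ := 4 * (w ^ 2 * Lam.weierstrassPExcept 0 w + 1)

private theorem Gf_eq {w : ℂ} (hw : w ≠ 0) : w ^ 2 * Pf w = Gf w := by
  have h := Lam.weierstrassPExcept_add 0 w
  unfold Pf Gf
  rw [← h]
  simp only [ZeroMemClass.coe_zero, sub_zero]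
  field_simp
  ring

private theorem Gf_zero : Gf 0 = 4 := by
  unfold Gf
  ring

private theorem Gf_diff {w : ℂ} (hw : w ∉ Lam.lattice ∨ w = 0) : DifferentiableAt ℂ Gf w := by
  have h : DifferentiableAt ℂ (Lam.weierstrassPExcept 0) w := by
    refine (Lam.differentiableOn_weierstrassPExcept 0).differentiableAt ?_
    refine Lam.isOpen_compl_lattice_sdiff.mem_nhds ?_
    rintro ⟨h1, h2⟩
    rcases hw with hw | hw
    · exact hw h1
    · exact h2 hw
  unfold Gf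
  fun_prop

/-- The fundamental square. -/
private def Kf : Set ℂ := {w | |(w / Om).re| ≤ 1 / 2 ∧ |(w / Om).im| ≤ 1 / 2}

private theorem Kf_norm {w : ℂ} (hw : w ∈ Kf) : ‖w‖ ≤ ‖Om‖ := by
  have h1 : ‖w / Om‖ ≤ 1 := by
    refine (Complex.norm_le_abs_re_add_abs_im _).trans ?_
    have h2 := hw.1
    have h3 := hw.2
    linarith
  rw [norm_div, div_le_one (norm_pos_iff.2 Om_ne_zero)] at h1
  exact h1

private theorem Kf_compact : IsCompact Kf := by
  refine Metric.isCompact_of_isClosed_isBounded ?_ ?_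
  · refine IsClosed.inter (s₁ := {w : ℂ | |(w / Om).re| ≤ 1 / 2})
      (s₂ := {w : ℂ | |(w / Om).im| ≤ 1 / 2}) ?_ ?_
    · refine isClosed_le ?_ continuous_const
      exact (Complex.continuous_re.comp (continuous_id.div_const Om)).abs
    · refine isClosed_le ?_ continuous_const
      exact (Complex.continuous_im.comp (continuous_id.div_const Om)).abs
  · rw [isBounded_iff_forall_norm_le]
    exact ⟨‖Om‖, fun w hw => Kf_norm hw⟩

private theorem Kf_lat {w : ℂ} (hw : w ∈ Kf) (hl : w ∈ Lam.lattice) : w = 0 := by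
  obtain ⟨g, ⟨a, b, rfl⟩, rfl⟩ := mem_lat.1 hl
  have h1 := hw.1
  have h2 := hw.2
  rw [mul_div_cancel_right₀ _ Om_ne_zero] at h1 h2
  have h3 : |(a : ℝ)| ≤ 1 / 2 := by simpa using h1
  have h4 : |(b : ℝ)| ≤ 1 / 2 := by simpa using h2
  have h5 : a = 0 := by
    by_contra h
    have : (1 : ℝ) ≤ |(a : ℝ)| := by exact_mod_cast Int.one_le_abs h
    linarith
  have h6 : b = 0 := by
    by_contra h
    have : (1 : ℝ) ≤ |(b : ℝ)| := by exact_mod_cast Int.one_le_abs h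
    linarith
  rw [h5, h6]
  simp

private theorem Gf_bound : ∃ M : ℝ, 0 < M ∧ ∀ w ∈ Kf, ‖Gf w‖ ≤ M := by
  have h1 : ContinuousOn Gf Kf := by
    intro w hw
    refine (Gf_diff ?_).continuousAt.continuousWithinAt
    by_cases h : w ∈ Lam.lattice
    · exact Or.inr (Kf_lat hw h)
    · exact Or.inl h
  obtain ⟨M, hM⟩ := Kf_compact.exists_bound_of_continuousOn h1
  exact ⟨max M 1, lt_of_lt_of_le one_pos (le_max_right _ _),
    fun w hw => (hM w hw).trans (le_max_left _ _)⟩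

private theorem near (u : ℂ) : ∃ m n : ℤ, u - (m + n * I) * Om ∈ Kf := by
  refine ⟨round (u / Om).re, round (u / Om).im, ?_⟩
  have h1 : (u - ((round (u / Om).re : ℤ) + (round (u / Om).im : ℤ) * I) * Om) / Om =
      u / Om - ((round (u / Om).re : ℤ) + (round (u / Om).im : ℤ) * I) := by
    rw [sub_div, mul_div_cancel_right₀ _ Om_ne_zero]
  constructor
  · rw [h1]
    simpa using abs_sub_round (u / Om).re
  · rw [h1]
    simpa using abs_sub_round (u / Om).im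

private theorem dist_lat {b : ℂ} (hb : b ∉ Lam.lattice) :
    ∃ δ : ℝ, 0 < δ ∧ ∀ l ∈ Lam.lattice, δ ≤ ‖l - b‖ := by
  have h1 : (Lam.lattice : Set ℂ)ᶜ ∈ 𝓝 b := Lam.isClosed_lattice.isOpen_compl.mem_nhds hb
  obtain ⟨δ, hδ, h2⟩ := Metric.mem_nhds_iff.1 h1
  refine ⟨δ, hδ, fun l hl => ?_⟩
  by_contra h
  push Not at h
  exact h2 (by rwa [Metric.mem_ball, dist_eq_norm]) hl

/-- Boxes of lattice points. -/
private noncomputable def Sf (N : ℕ) : Finset ℂ :=
  ((Finset.Icc (-(N : ℤ)) N) ×ˢ (Finset.Icc (-(N : ℤ)) N)).image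
    (fun p => ((p.1 : ℂ) + p.2 * I) * Om)

private theorem Sf_lat {N : ℕ} {l : ℂ} (hl : l ∈ Sf N) : l ∈ Lam.lattice := by
  unfold Sf at hl
  rw [Finset.mem_image] at hl
  obtain ⟨p, -, rfl⟩ := hl
  exact mem_lat.2 ⟨_, ⟨p.1, p.2, rfl⟩, rfl⟩

private theorem Sf_card (N : ℕ) : ((Sf N).card : ℝ) ≤ (2 * N + 1) ^ 2 := by
  have h1 : (Sf N).card ≤ (2 * N + 1) ^ 2 := by
    refine Finset.card_image_le.trans ?_
    rw [Finset.card_product, Int.card_Icc]
    have h2 : ((N : ℤ) + 1 - -(N : ℤ)).toNat = 2 * N + 1 := by omega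
    rw [h2, sq]
  exact_mod_cast h1

private theorem mem_Sf {N : ℕ} {l : ℂ} (hl : l ∈ Lam.lattice) (h : ‖l‖ ≤ N * ‖Om‖) :
    l ∈ Sf N := by
  obtain ⟨g, ⟨a, b, rfl⟩, rfl⟩ := mem_lat.1 hl
  rw [norm_mul, mul_le_mul_iff_left₀ (norm_pos_iff.2 Om_ne_zero)] at h
  unfold Sf
  rw [Finset.mem_image]
  have h1 : |(a : ℝ)| ≤ N := by
    have := Complex.abs_re_le_norm ((a : ℂ) + b * I)
    have h2 : ((a : ℂ) + b * I).re = a := by simp
    rw [h2] at this
    linarith
  have h1' : |(b : ℝ)| ≤ N := by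
    have := Complex.abs_im_le_norm ((a : ℂ) + b * I)
    have h2 : ((a : ℂ) + b * I).im = b := by simp
    rw [h2] at this
    linarith
  have h3 : |a| ≤ N := by exact_mod_cast h1
  have h3' : |b| ≤ N := by exact_mod_cast h1'
  rw [abs_le] at h3 h3'
  exact ⟨(a, b), Finset.mem_product.2 ⟨Finset.mem_Icc.2 h3, Finset.mem_Icc.2 h3'⟩, rfl⟩

private noncomputable def Bf (b : ℂ) (T : Finset ℂ) (z : ℂ) : ℂ := ∏ l ∈ T, (1 - z / (l - b)) ^ 2

private theorem Bf_diff (b : ℂ) (T : Finset ℂ) : Differentiable ℂ (Bf b T) := by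
  unfold Bf
  fun_prop

private theorem Bf_bound {b : ℂ} {δ R : ℝ} (hδ : 0 < δ) (hR : 0 ≤ R) {T : Finset ℂ}
    (hT : ∀ l ∈ T, δ ≤ ‖l - b‖) {n : ℝ} (hn : (T.card : ℝ) ≤ n) {z : ℂ} (hz : ‖z‖ ≤ R) :
    ‖Bf b T z‖ ≤ Real.exp (2 * (R / δ) * n) := by
  unfold Bf
  rw [norm_prod]
  have h1 : ∀ l ∈ T, ‖(1 - z / (l - b)) ^ 2‖ ≤ Real.exp (2 * (R / δ)) := by
    intro l hl
    rw [norm_pow]
    have h2 : ‖1 - z / (l - b)‖ ≤ Real.exp (R / δ) := by
      calc ‖1 - z / (l - b)‖ ≤ ‖(1 : ℂ)‖ + ‖z / (l - b)‖ := norm_sub_le _ _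
        _ ≤ 1 + R / δ := by
          rw [norm_one, norm_div]
          gcongr
          exact hT l hl
        _ ≤ Real.exp (R / δ) := by
          have := Real.add_one_le_exp (R / δ)
          linarith
    calc ‖1 - z / (l - b)‖ ^ 2 ≤ Real.exp (R / δ) ^ 2 := by gcongr
      _ = Real.exp (2 * (R / δ)) := by rw [← Real.exp_nat_mul]; norm_num
  calc ∏ l ∈ T, ‖(1 - z / (l - b)) ^ 2‖ ≤ ∏ _l ∈ T, Real.exp (2 * (R / δ)) :=
        Finset.prod_le_prod (fun l _ => norm_nonneg _) h1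
    _ = Real.exp (T.card * (2 * (R / δ))) := by
        rw [Finset.prod_const, ← Real.exp_nat_mul]
    _ ≤ Real.exp (2 * (R / δ) * n) := by
        rw [Real.exp_le_exp, mul_comm]
        gcongr

open Classical in
private noncomputable def Ff (b : ℂ) (T : Finset ℂ) (z : ℂ) : ℂ :=
  if z + b ∈ Lam.lattice then Bf b (T.erase (z + b)) z / z ^ 2 * 4 else Bf b T z * Pf (z + b)

open Classical in
private theorem Ff_eq {b : ℂ} (hb : b ∉ Lam.lattice) {T : Finset ℂ} {l : ℂ} (hl : l ∈ Lam.lattice)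
    (hlT : l ∈ T) {z : ℂ} (hz : z + b ∉ Lam.lattice ∨ z + b = l) :
    Ff b T z = Bf b (T.erase l) z / (l - b) ^ 2 * Gf (z + b - l) := by
  have hlb : l - b ≠ 0 := fun h => hb (by rwa [← sub_eq_zero.1 h])
  rcases hz with hz | hz
  · unfold Ff
    rw [if_neg hz]
    have h1 : Bf b T z = (1 - z / (l - b)) ^ 2 * Bf b (T.erase l) z := by
      unfold Bf
      rw [Finset.mul_prod_erase T (fun l => (1 - z / (l - b)) ^ 2) hlT]
    have h2 : z + b - l ≠ 0 := fun h => hz (by rwa [sub_eq_zero.1 h])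
    have h3 : Pf (z + b) = Pf (z + b - l) := by
      have := Pf_add_lat (z := z + b - l) hl
      rwa [sub_add_cancel] at this
    rw [h1, ← Gf_eq h2, h3]
    field_simp
    ring
  · unfold Ff
    have hz' : z + b ∈ Lam.lattice := hz ▸ hl
    rw [if_pos hz']
    have h1 : l - b = z := by rw [← hz]; ring
    have h2 : z + b - l = 0 := by rw [← hz]; ring
    rw [h1, h2, Gf_zero, hz]

/-- `B` is the cube (or square) of the product of `1 - z / (l - b)` over the lattice points `l` of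
norm at most `const * R`. Every point `z` of the ball has a nearest lattice point, whose factor
compensates the pole of `Pf (z + b)`; all other factors are at most `1 + const * R`. -/
theorem denominators {b : ℂ} (hb : b ∉ Lam.lattice) :
    ∃ C : ℝ, 0 < C ∧ ∀ R : ℝ, 1 ≤ R → ∃ B F : ℂ → ℂ,
      DifferentiableOn ℂ B (Metric.ball 0 R) ∧ DifferentiableOn ℂ F (Metric.ball 0 R) ∧
      B 0 = 1 ∧
      (∀ z ∈ Metric.ball (0 : ℂ) R, ‖B z‖ ≤ Real.exp (C * R ^ 3) ∧ ‖F z‖ ≤ Real.exp (C * R ^ 3)) ∧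
      ∀ z ∈ Metric.ball (0 : ℂ) R, z + b ∉ Lam.lattice → F z = B z * Pf (z + b) := by
  classical
  obtain ⟨δ, hδ, hδl⟩ := dist_lat hb
  obtain ⟨M, hM, hMK⟩ := Gf_bound
  have hOm : 0 < ‖Om‖ := norm_pos_iff.2 Om_ne_zero
  obtain ⟨c, hc⟩ : ∃ c : ℝ, c = (1 + ‖b‖ + ‖Om‖) / ‖Om‖ + 1 := ⟨_, rfl⟩
  have hc0 : 0 < c := by rw [hc]; positivity
  refine ⟨2 / δ * (2 * c + 1) ^ 2 + M / δ ^ 2, by positivity, fun R hR => ?_⟩
  have hR0 : 0 < R := by linarith
  obtain ⟨N, hN⟩ : ∃ N : ℕ, N = ⌈(R + ‖b‖ + ‖Om‖) / ‖Om‖⌉₊ := ⟨_, rfl⟩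
  have hN1 : R + ‖b‖ + ‖Om‖ ≤ N * ‖Om‖ := by
    have := Nat.le_ceil ((R + ‖b‖ + ‖Om‖) / ‖Om‖)
    rw [← hN, div_le_iff₀ hOm] at this
    exact this
  have hN2 : (N : ℝ) ≤ c * R := by
    have h1 : (N : ℝ) < (R + ‖b‖ + ‖Om‖) / ‖Om‖ + 1 := by
      rw [hN]
      exact Nat.ceil_lt_add_one (by positivity)
    have h2 : (R + ‖b‖ + ‖Om‖) / ‖Om‖ + 1 ≤ c * R := by
      rw [hc, add_mul, one_mul, div_mul_eq_mul_div]
      have h3 : R + ‖b‖ + ‖Om‖ ≤ (1 + ‖b‖ + ‖Om‖) * R := by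
        nlinarith [norm_nonneg b, norm_nonneg Om]
      gcongr
    linarith
  have hcard : ((Sf N).card : ℝ) ≤ (2 * c + 1) ^ 2 * R ^ 2 := by
    refine (Sf_card N).trans ?_
    rw [← mul_pow]
    have : (2 * (N : ℝ) + 1) ≤ (2 * c + 1) * R := by nlinarith
    gcongr
  have hδS : ∀ l ∈ Sf N, δ ≤ ‖l - b‖ := fun l hl => hδl l (Sf_lat hl)
  -- lattice points near the ball
  have hnear : ∀ z : ℂ, ‖z‖ < R → ∀ l ∈ Lam.lattice, ‖z + b - l‖ ≤ ‖Om‖ → l ∈ Sf N := by
    intro z hz l hl h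
    refine mem_Sf hl ?_
    have h1 : ‖l‖ ≤ ‖z + b - l‖ + ‖z + b‖ := by
      have := norm_sub_le (z + b) (z + b - l)
      rw [sub_sub_cancel] at this
      linarith
    have h2 := norm_add_le z b
    linarith
  have hexp : 2 * (R / δ) * ((2 * c + 1) ^ 2 * R ^ 2) = 2 / δ * (2 * c + 1) ^ 2 * R ^ 3 := by
    field_simp
  refine ⟨Bf b (Sf N), Ff b (Sf N), (Bf_diff b _).differentiableOn, ?_, ?_, ?_, ?_⟩
  · intro z hz
    rw [mem_ball_zero_iff] at hz
    refine DifferentiableAt.differentiableWithinAt ?_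
    by_cases hzb : z + b ∈ Lam.lattice
    · have hlS : z + b ∈ Sf N := hnear z hz _ hzb (by rw [sub_self, norm_zero]; exact hOm.le)
      have h1 : Ff b (Sf N) =ᶠ[𝓝 z] fun y => Bf b ((Sf N).erase (z + b)) y / (z + b - b) ^ 2 *
          Gf (y + b - (z + b)) := by
        have h2 : ∀ᶠ y in 𝓝 z, y + b ∈ ((Lam.lattice : Set ℂ) \ {z + b})ᶜ := by
          have h3 : Tendsto (fun y : ℂ => y + b) (𝓝 z) (𝓝 (z + b)) :=
            (continuous_add_const b).tendsto z
          exact h3 (Lam.compl_lattice_sdiff_singleton_mem_nhds (z + b))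
        filter_upwards [h2] with y hy
        refine Ff_eq hb hzb hlS ?_
        by_cases h4 : y + b = z + b
        · exact Or.inr h4
        · exact Or.inl fun h5 => hy ⟨h5, h4⟩
      refine DifferentiableAt.congr_of_eventuallyEq ?_ h1
      have h5 : DifferentiableAt ℂ (fun y => Gf (y + b - (z + b))) z := by
        have h6 : DifferentiableAt ℂ Gf (z + b - (z + b)) := Gf_diff (Or.inr (sub_self _))
        exact DifferentiableAt.comp (g := Gf) (f := fun y : ℂ => y + b - (z + b)) z h6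
          (by fun_prop)
      exact (((Bf_diff b _) z).div_const _).mul h5
    · have h1 : Ff b (Sf N) =ᶠ[𝓝 z] fun y => Bf b (Sf N) y * Pf (y + b) := by
        have h2 : ∀ᶠ y in 𝓝 z, y + b ∈ (Lam.lattice : Set ℂ)ᶜ := by
          have h3 : Tendsto (fun y : ℂ => y + b) (𝓝 z) (𝓝 (z + b)) :=
            (continuous_add_const b).tendsto z
          exact h3 (Lam.isClosed_lattice.isOpen_compl.mem_nhds hzb)
        filter_upwards [h2] with y hy
        unfold Ff
        rw [if_neg (show y + b ∉ Lam.lattice from hy)]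
      refine DifferentiableAt.congr_of_eventuallyEq ?_ h1
      have h5 : DifferentiableAt ℂ (fun y => Pf (y + b)) z :=
        DifferentiableAt.comp (g := Pf) (f := fun y : ℂ => y + b) z
          (hasDerivAt_Pf hzb).differentiableAt (by fun_prop)
      exact ((Bf_diff b _) z).mul h5
  · unfold Bf
    simp
  · intro z hz
    rw [mem_ball_zero_iff] at hz
    have hR3 : 1 ≤ R ^ 3 := one_le_pow₀ hR
    constructor
    · refine (Bf_bound hδ hR0.le hδS hcard hz.le).trans ?_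
      rw [Real.exp_le_exp, hexp]
      have : 0 ≤ M / δ ^ 2 * R ^ 3 := by positivity
      nlinarith
    · obtain ⟨m, n, hmn⟩ := near (z + b)
      obtain ⟨l, hl⟩ : ∃ l : ℂ, l = ((m : ℂ) + n * I) * Om := ⟨_, rfl⟩
      rw [← hl] at hmn
      have hlL : l ∈ Lam.lattice := mem_lat.2 ⟨_, ⟨m, n, rfl⟩, hl⟩
      have hlS : l ∈ Sf N := hnear z hz l hlL (Kf_norm hmn)
      have hzl : z + b ∉ Lam.lattice ∨ z + b = l := by
        by_cases h : z + b ∈ Lam.lattice
        · exact Or.inr (sub_eq_zero.1 (Kf_lat hmn (Lam.lattice.sub_mem h hlL)))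
        · exact Or.inl h
      rw [Ff_eq hb hlL hlS hzl, norm_mul, norm_div, norm_pow]
      have h1 : ‖Bf b ((Sf N).erase l) z‖ ≤ Real.exp (2 * (R / δ) * ((2 * c + 1) ^ 2 * R ^ 2)) := by
        refine Bf_bound hδ hR0.le (fun l' hl' => hδS l' (Finset.mem_of_mem_erase hl')) ?_ hz.le
        refine le_trans ?_ hcard
        exact_mod_cast Finset.card_erase_le
      have h2 : ‖Gf (z + b - l)‖ ≤ M := hMK _ hmn
      have h3 : δ ^ 2 ≤ ‖l - b‖ ^ 2 := by
        have := hδl l hlL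
        gcongr
      calc ‖Bf b ((Sf N).erase l) z‖ / ‖l - b‖ ^ 2 * ‖Gf (z + b - l)‖
          ≤ Real.exp (2 * (R / δ) * ((2 * c + 1) ^ 2 * R ^ 2)) / δ ^ 2 * M := by gcongr
        _ = Real.exp (2 / δ * (2 * c + 1) ^ 2 * R ^ 3) * (M / δ ^ 2) := by rw [hexp]; ring
        _ ≤ Real.exp (2 / δ * (2 * c + 1) ^ 2 * R ^ 3) * Real.exp (M / δ ^ 2) := by
          gcongr
          have := Real.add_one_le_exp (M / δ ^ 2)
          linarith
        _ = Real.exp (2 / δ * (2 * c + 1) ^ 2 * R ^ 3 + M / δ ^ 2) := by rw [Real.exp_add]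
        _ ≤ Real.exp ((2 / δ * (2 * c + 1) ^ 2 + M / δ ^ 2) * R ^ 3) := by
          rw [Real.exp_le_exp]
          have : M / δ ^ 2 ≤ M / δ ^ 2 * R ^ 3 := le_mul_of_one_le_right (by positivity) hR3
          linarith
  · intro z _ hzb
    unfold Ff
    rw [if_neg hzb]

end Pool.Agent.Arith
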