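import Pool.Agent.Lib.MP_c0402d_ag.ED

/-!
# JOB EF: the 2-adic lemma on torsion points
-/

set_option autoImplicit false

namespace Pool.Agent.Arith

open Complex

/-- An extension of the 2-adic valuation to `ℂ`. -/
private theorem EF_val : ∃ A : ValuationSubring ℂ, A.valuation 2 < 1 := by
  let R : Subring ℂ := (Int.castRingHom ℂ).range
  have h2 : (2 : ℂ) ∈ R := ⟨2, by simp⟩
  have hI : Ideal.span {(⟨2, h2⟩ : R)} ≠ ⊤ := by
    intro h
    have h1 : (1 : R) ∈ Ideal.span {(⟨2, h2⟩ : R)} := by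
      rw [h]
      trivial
    rw [Ideal.mem_span_singleton] at h1
    obtain ⟨⟨b, n, hn⟩, hb⟩ := h1
    have hb' : (1 : ℂ) = 2 * b := congrArg Subtype.val hb
    rw [← hn] at hb'
    have h3 : (1 : ℤ) = 2 * n := by
      have : ((1 : ℤ) : ℂ) = ((2 * n : ℤ) : ℂ) := by
        push_cast
        simpa using hb'
      exact_mod_cast this
    omega
  obtain ⟨B, -, hB⟩ := Ideal.image_subset_nonunits_valuationSubring _ hI
  refine ⟨B, ?_⟩
  have h4 : (2 : ℂ) ∈ B.nonunits := hB ⟨⟨2, h2⟩, Ideal.subset_span rfl, rfl⟩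
  exact (ValuationSubring.mem_nonunits_iff B).1 h4

/-- The set of first coordinates of the `N`-torsion points. -/
private def EFT (N : ℕ) : Set ℂ := {X | ∃ z, z ∉ Lam.lattice ∧ (N : ℂ) * z ∈ Lam.lattice ∧ X = Pf z}

private theorem EFT_finite {N : ℕ} (hN : N ≠ 0) : (EFT N).Finite := by
  have hN' : (N : ℂ) ≠ 0 := Nat.cast_ne_zero.2 hN
  refine Set.Finite.subset (((Finset.range N) ×ˢ (Finset.range N)).image
    (fun p : ℕ × ℕ => Pf (((p.1 : ℂ) + p.2 * I) / N * Om))).finite_toSet ?_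
  rintro X ⟨z, hz, hNz, rfl⟩
  obtain ⟨g, ⟨a, b, rfl⟩, h⟩ := mem_lat.1 hNz
  have hN0 : (N : ℤ) ≠ 0 := by exact_mod_cast hN
  have ha := Int.emod_add_mul_ediv a N
  have hb := Int.emod_add_mul_ediv b N
  have ha1 := Int.emod_nonneg a hN0
  have hb1 := Int.emod_nonneg b hN0
  have ha2 := Int.emod_lt_of_pos a (by positivity : (0 : ℤ) < N)
  have hb2 := Int.emod_lt_of_pos b (by positivity : (0 : ℤ) < N)
  obtain ⟨a', ha'⟩ := Int.eq_ofNat_of_zero_le ha1
  obtain ⟨b', hb'⟩ := Int.eq_ofNat_of_zero_le hb1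
  rw [ha'] at ha ha2
  rw [hb'] at hb hb2
  rw [Finset.mem_coe, Finset.mem_image]
  refine ⟨(a', b'), ?_, ?_⟩
  · rw [Finset.mem_product, Finset.mem_range, Finset.mem_range]
    exact ⟨by exact_mod_cast ha2, by exact_mod_cast hb2⟩
  · have hl : ((a / N : ℤ) + (b / N : ℤ) * I) * Om ∈ Lam.lattice :=
      mem_lat.2 ⟨_, ⟨a / N, b / N, rfl⟩, rfl⟩
    have e1 := Pf_add_lat (z := ((a' : ℂ) + b' * I) / N * Om) hl
    rw [← e1]
    congr 1
    have ha3 : (a : ℂ) = a' + N * ((a / N : ℤ) : ℂ) := by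
      have : ((a' + N * (a / N) : ℤ) : ℂ) = (a : ℂ) := by rw [ha]
      rw [← this]
      push_cast
      ring
    have hb3 : (b : ℂ) = b' + N * ((b / N : ℤ) : ℂ) := by
      have : ((b' + N * (b / N) : ℤ) : ℂ) = (b : ℂ) := by rw [hb]
      rw [← this]
      push_cast
      ring
    rw [ha3, hb3] at h
    have hz' : z = (((a' : ℂ) + N * ((a / N : ℤ) : ℂ)) + (b' + N * ((b / N : ℤ) : ℂ)) * I)
        * Om / N := by
      rw [← h]
      field_simp
    rw [hz']
    field_simp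
    ring

/-- The torsion points are stable under `1 + I`. -/
private theorem EFT_phi {N : ℕ} {X : ℂ} (hX : X ∈ EFT N) (h0 : X ≠ 0) :
    (X ^ 2 - 1) / (2 * I * X) ∈ EFT N := by
  obtain ⟨z, hz, hNz, rfl⟩ := hX
  obtain ⟨h1, h2⟩ := Pf_one_add_I hz h0
  refine ⟨(1 + I) * z, h1, ?_, h2.symm⟩
  have e : (N : ℂ) * ((1 + I) * z) = N * z + I * (N * z) := by ring
  rw [e]
  exact add_mem hNz (I_mul_mem_lat.2 hNz)

private theorem EF_vI (A : ValuationSubring ℂ) : A.valuation I = 1 := by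
  have h1 : A.valuation I ^ 4 = 1 := by
    rw [← map_pow, I_pow_four, map_one]
  exact (pow_eq_one_iff.1 h1).resolve_right (by norm_num)

private theorem EF_lt {N : ℕ} (hN : N ≠ 0) (A : ValuationSubring ℂ) (hA : A.valuation 2 < 1)
    {X : ℂ} (hX : X ∈ EFT N) : A.valuation X ≤ 1 := by
  obtain ⟨Y, hY, hmax⟩ := Set.exists_max_image (EFT N) (fun X => A.valuation X) (EFT_finite hN)
    ⟨X, hX⟩
  refine (hmax X hX).trans ?_
  by_contra hlt
  rw [not_le] at hlt
  have hY0 : Y ≠ 0 := by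
    rintro rfl
    rw [map_zero] at hlt
    exact absurd hlt (not_lt.2 zero_le_one)
  have h1 := hmax _ (EFT_phi hY hY0)
  have h2 : A.valuation (Y ^ 2 - 1) = A.valuation Y ^ 2 := by
    rw [← map_pow]
    apply Valuation.map_sub_eq_of_lt_left
    rw [map_one, map_pow]
    exact one_lt_pow₀ hlt (by norm_num)
  simp only [map_div₀, map_mul, h2, EF_vI, mul_one] at h1
  have hv2 : A.valuation 2 ≠ 0 := by
    rw [Valuation.ne_zero_iff]
    norm_num
  have hvY : A.valuation Y ≠ 0 := (Valuation.ne_zero_iff _).2 hY0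
  rw [div_le_iff₀ (by exact mul_pos (zero_lt_iff.2 hv2) (zero_lt_iff.2 hvY))] at h1
  have h3 : A.valuation Y * (A.valuation 2 * A.valuation Y) < A.valuation Y ^ 2 := by
    calc A.valuation Y * (A.valuation 2 * A.valuation Y)
        = A.valuation 2 * A.valuation Y ^ 2 := by rw [pow_two, mul_left_comm]
      _ < 1 * A.valuation Y ^ 2 := by
        exact mul_lt_mul_of_pos_right hA (pow_pos (zero_lt_iff.2 hvY) 2)
      _ = A.valuation Y ^ 2 := one_mul _
  exact absurd h1 (not_le.2 h3)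

private theorem EF_eq {N : ℕ} (hN : N ≠ 0) (A : ValuationSubring ℂ) (hA : A.valuation 2 < 1)
    {X : ℂ} (hX : X ∈ EFT N) (h0 : X ≠ 0) : A.valuation X = 1 := by
  refine le_antisymm (EF_lt hN A hA hX) ?_
  by_contra hlt
  rw [not_le] at hlt
  have h1 := EF_lt hN A hA (EFT_phi hX h0)
  have h2 : A.valuation (X ^ 2 - 1) = 1 := by
    rw [← map_one A.valuation]
    apply Valuation.map_sub_eq_of_lt_right
    rw [map_one, map_pow]
    exact pow_lt_one₀ zero_le hlt (by norm_num)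
  simp only [map_div₀, map_mul, h2, EF_vI, mul_one] at h1
  have hv2 : A.valuation 2 ≠ 0 := by
    rw [Valuation.ne_zero_iff]
    norm_num
  have hvX : A.valuation X ≠ 0 := (Valuation.ne_zero_iff _).2 h0
  rw [div_le_iff₀ (by exact mul_pos (zero_lt_iff.2 hv2) (zero_lt_iff.2 hvX)), one_mul] at h1
  exact absurd h1 (not_le.2 (mul_lt_one_of_nonneg_of_lt_one_left zero_le hA hlt.le))

private theorem EF_sub {N : ℕ} (hN : N ≠ 0) (A : ValuationSubring ℂ) (hA : A.valuation 2 < 1)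
    {X : ℂ} (hX : X ∈ EFT N) (h0 : X ≠ 0) : A.valuation (X - 1) < 1 := by
  by_cases h1 : X = 1
  · rw [h1, sub_self, map_zero]
    exact zero_lt_one
  by_cases h2 : X = -1
  · rw [h2]
    have e : (-1 - 1 : ℂ) = -2 := by norm_num
    rw [e, Valuation.map_neg]
    exact hA
  have h3 : (X ^ 2 - 1) / (2 * I * X) ≠ 0 := by
    have e : X ^ 2 - 1 = (X - 1) * (X + 1) := by ring
    rw [e]
    refine div_ne_zero (mul_ne_zero (sub_ne_zero.2 h1) ?_)
      (mul_ne_zero (mul_ne_zero two_ne_zero I_ne_zero) h0)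
    intro h
    exact h2 (by linear_combination h)
  have h4 := EF_eq hN A hA (EFT_phi hX h0) h3
  have h5 := EF_eq hN A hA hX h0
  have e : X ^ 2 - 1 = (X - 1) * (X + 1) := by ring
  have hv2 : A.valuation 2 ≠ 0 := by
    rw [Valuation.ne_zero_iff]
    norm_num
  rw [e] at h4
  simp only [map_div₀, map_mul, h5, EF_vI, mul_one] at h4
  rw [div_eq_iff hv2, one_mul] at h4
  by_contra hlt
  rw [not_lt] at hlt
  have h6 : A.valuation (X + 1) < 1 := by
    by_contra h7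
    rw [not_lt] at h7
    have h8 : 1 ≤ A.valuation (X - 1) * A.valuation (X + 1) := one_le_mul hlt h7
    rw [h4] at h8
    exact absurd hA (not_lt.2 h8)
  have h7 : A.valuation (X - 1) < 1 := by
    have e2 : X - 1 = (X + 1) - 2 := by ring
    rw [e2]
    exact lt_of_le_of_lt (Valuation.map_sub _ _ _) (max_lt h6 hA)
  exact absurd h7 (not_lt.2 hlt)

private theorem EF_mem {z : ℂ} (hz : z ∉ Lam.lattice) (hz' : InQI (z / Om)) :
    ∃ N : ℕ, N ≠ 0 ∧ Pf z ∈ EFT N := by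
  obtain ⟨a, b, h⟩ := hz'
  refine ⟨a.den * b.den, mul_ne_zero a.den_ne_zero b.den_ne_zero, z, hz, ?_, rfl⟩
  rw [mem_lat]
  refine ⟨_, ⟨a.num * b.den, b.num * a.den, rfl⟩, ?_⟩
  have e1 : z = (a + b * I) * Om := by
    rw [← h]
    field_simp [Om_ne_zero]
  have e2 : (a : ℂ) * a.den = a.num := by exact_mod_cast Rat.mul_den_eq_num a
  have e3 : (b : ℂ) * b.den = b.num := by exact_mod_cast Rat.mul_den_eq_num b
  rw [e1]
  push_cast
  rw [← e2, ← e3]
  ring

private theorem EFT_mono {N M : ℕ} {X : ℂ} (hX : X ∈ EFT N) : X ∈ EFT (N * M) := by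
  obtain ⟨z, hz, hNz, rfl⟩ := hX
  refine ⟨z, hz, ?_, rfl⟩
  have e : ((N * M : ℕ) : ℂ) * z = M • ((N : ℂ) * z) := by
    rw [nsmul_eq_mul]
    push_cast
    ring
  rw [e]
  exact nsmul_mem hNz M

/-- Let `v` be a valuation of `ℂ` with `v 2 < 1` and `X = Pf z` with `z ∈ ℚ(i) Om`, `X ≠ 0`.
The map `φ(X) = (X² - 1) / (2 I X)` (multiplication by `1 + I`) shows: `v X > 1` is impossible (the
iterates would be strictly increasing, but `{Pf ((1 + I) ^ n z)}` is finite); `v X < 1` is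
impossible (`v (φ X) > 1`); and if `X ≠ ± 1` then `v (φ X) = 1` gives `v (X - 1) < 1`. Apply this
to `Pf z` and `Pf w = Pf z - 1`. -/
theorem torsion_key {z w : ℂ} (hz : z ∉ Lam.lattice) (hw : w ∉ Lam.lattice)
    (hz' : InQI (z / Om)) (hw' : InQI (w / Om)) (h : Pf w = Pf z - 1) :
    Pf z = 0 ∨ Pf z = 1 := by
  obtain ⟨A, hA⟩ := EF_val
  obtain ⟨N, hN, hzN⟩ := EF_mem hz hz'
  obtain ⟨M, hM, hwM⟩ := EF_mem hw hw'
  by_cases h0 : Pf z = 0
  · exact Or.inl h0
  · right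
    have h1 := EF_sub hN A hA hzN h0
    by_contra h2
    have h3 : Pf w ≠ 0 := by
      rw [h]
      exact sub_ne_zero.2 h2
    have h4 := EF_eq hM A hA hwM h3
    rw [h] at h4
    rw [h4] at h1
    exact lt_irrefl _ h1

end Pool.Agent.Arith
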