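import Pool.Agent.Lib.MP_c0402d_ag.Defs

/-!
# JOB FA: differentials of a field of transcendence degree one

`L` is algebraic over `K(z)`, separable as the characteristic is zero. The derivation `d/dz` of
`K[z]` extends uniquely to `L` (Mathlib: `Algebra.FormallyEtale`, localisations and separable
algebraic extensions are formally étale, `KaehlerDifferential.tensorKaehlerEquivOfFormallyEtale`,
`KaehlerDifferential.polynomialEquiv`; or by hand).
-/

set_option autoImplicit false
set_option linter.style.haveILetI false

namespace Pool.Agent.Arith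

open KaehlerDifferential

variable {K L : Type} [Field K] [CharZero K] [Field L] [Algebra K L]

open Polynomial TensorProduct in
/-- the module of differentials is free on `dz` -/
private theorem FA_exists_equiv (htr : Algebra.trdeg K L = 1) {z : L} (hz : Transcendental K z) :
    ∃ e : Ω[L⁄K] ≃ₗ[L] L, e (D K L z) = 1 := by
  classical
  have hind : AlgebraicIndependent K (fun _ : Unit => z) :=
    algebraicIndependent_unique_type_iff.mpr hz
  have hbas : IsTranscendenceBasis K (fun _ : Unit => z) :=
    hind.isTranscendenceBasis_of_trdeg_le_of_finite (by rw [htr]; simp)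
  have halg := hbas.isAlgebraic
  letI : Algebra K[X] L := (aeval z : K[X] →ₐ[K] L).toRingHom.toAlgebra
  have hmap : ∀ p : K[X], algebraMap K[X] L p = aeval z p := fun _ => rfl
  have hinj : Function.Injective (algebraMap K[X] L) :=
    transcendental_iff_injective.mp hz
  haveI : FaithfulSMul K[X] L := (faithfulSMul_iff_algebraMap_injective _ _).mpr hinj
  haveI : IsScalarTower K K[X] L := IsScalarTower.of_algebraMap_eq fun c => by
    rw [hmap, Polynomial.algebraMap_eq, aeval_C]
  letI : Algebra (FractionRing K[X]) L := FractionRing.liftAlgebra K[X] L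
  haveI : IsScalarTower K[X] (FractionRing K[X]) L := FractionRing.isScalarTower_liftAlgebra K[X] L
  -- `L` is algebraic over `K[X]`
  have halg' : Algebra.IsAlgebraic K[X] L := by
    have hmem : ∀ p : K[X], aeval z p ∈ Algebra.adjoin K (Set.range (fun _ : Unit => z)) := by
      intro p
      have hzm : z ∈ Algebra.adjoin K (Set.range (fun _ : Unit => z)) :=
        Algebra.subset_adjoin ⟨(), rfl⟩
      have := (aeval (⟨z, hzm⟩ : Algebra.adjoin K (Set.range (fun _ : Unit => z))) p).2
      rwa [← Subalgebra.coe_val, ← Polynomial.aeval_algHom_apply] at this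
    let f : K[X] →ₐ[K] Algebra.adjoin K (Set.range (fun _ : Unit => z)) :=
      (aeval z : K[X] →ₐ[K] L).codRestrict _ hmem
    have hfs : Function.Surjective f := by
      rintro ⟨y, hy⟩
      have hy' : y ∈ (aeval z : K[X] →ₐ[K] L).range := by
        have : Set.range (fun _ : Unit => z) = {z} := by
          ext t
          simp [eq_comm]
        rw [this, Algebra.adjoin_singleton_eq_range_aeval] at hy
        exact hy
      obtain ⟨p, hp⟩ := hy'
      exact ⟨p, Subtype.ext hp⟩
    have hcomp : RingHom.comp (algebraMap (Algebra.adjoin K (Set.range (fun _ : Unit => z))) L)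
        (f.toRingHom : K[X] →+* Algebra.adjoin K (Set.range (fun _ : Unit => z))) =
        RingHom.comp (RingHom.id L) (algebraMap K[X] L) := RingHom.ext fun p => rfl
    exact Algebra.IsAlgebraic.of_ringHom_of_comp_eq f.toRingHom (RingHom.id L) hfs
      Function.injective_id hcomp
  haveI : Algebra.IsAlgebraic (FractionRing K[X]) L :=
    Algebra.IsAlgebraic.extendScalars (R := K[X])
      (IsFractionRing.injective K[X] (FractionRing K[X]))
  haveI : CharZero (FractionRing K[X]) :=
    charZero_of_injective_algebraMap (IsFractionRing.injective K[X] (FractionRing K[X]))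
  haveI : Algebra.IsSeparable (FractionRing K[X]) L := inferInstance
  haveI h1 : Algebra.FormallyEtale K[X] (FractionRing K[X]) :=
    Algebra.FormallyEtale.of_isLocalization (nonZeroDivisors K[X])
  haveI h2 : Algebra.FormallyEtale (FractionRing K[X]) L :=
    Algebra.FormallyEtale.of_isSeparable _ _
  haveI h3 : Algebra.FormallyEtale K[X] L := Algebra.FormallyEtale.comp K[X] (FractionRing K[X]) L
  let e1 : L ⊗[K[X]] Ω[K[X]⁄K] ≃ₗ[L] Ω[L⁄K] := tensorKaehlerEquivOfFormallyEtale K K[X] L
  let e2 : L ⊗[K[X]] Ω[K[X]⁄K] ≃ₗ[L] L ⊗[K[X]] K[X] :=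
    TensorProduct.AlgebraTensorModule.congr (LinearEquiv.refl L L) (polynomialEquiv K)
  let e3 : L ⊗[K[X]] K[X] ≃ₗ[L] L := TensorProduct.AlgebraTensorModule.rid K[X] L L
  refine ⟨e1.symm.trans (e2.trans e3), ?_⟩
  have hX : z = algebraMap K[X] L X := by rw [hmap, aeval_X]
  have h4 : e1.symm (D K L z) = 1 ⊗ₜ D K K[X] X := by
    rw [hX]
    exact tensorKaehlerEquivOfFormallyEtale_symm_D_algebraMap K K[X] L X
  rw [LinearEquiv.trans_apply, LinearEquiv.trans_apply, h4]
  change e3 (1 ⊗ₜ (polynomialEquiv K (D K K[X] X))) = 1
  rw [polynomialEquiv_D, derivative_X]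
  change (1 : K[X]) • (1 : L) = 1
  rw [one_smul]

theorem exists_derivation (htr : Algebra.trdeg K L = 1) {z : L} (hz : Transcendental K z) :
    ∃ d : Derivation K L L, d z = 1 ∧ ∀ g : L, D K L g = d g • D K L z := by
  obtain ⟨e, he⟩ := FA_exists_equiv htr hz
  refine ⟨e.toLinearMap.compDer (D K L), he, fun g => ?_⟩
  apply e.injective
  rw [map_smul, he, smul_eq_mul, mul_one]
  rfl

theorem D_ne_zero (htr : Algebra.trdeg K L = 1) {z : L} (hz : Transcendental K z) :
    D K L z ≠ 0 := by
  obtain ⟨e, he⟩ := FA_exists_equiv htr hz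
  intro h
  rw [h, map_zero] at he
  exact zero_ne_one he

theorem derivation_ext (htr : Algebra.trdeg K L = 1) {z : L} (hz : Transcendental K z)
    (d d' : Derivation K L L) (h : d z = d' z) : d = d' := by
  obtain ⟨d₀, _, hd₀⟩ := exists_derivation htr hz
  have key : ∀ (δ : Derivation K L L) (g : L), δ g = d₀ g * δ z := by
    intro δ g
    have h1 := congrArg δ.liftKaehlerDifferential (hd₀ g)
    rw [map_smul, Derivation.liftKaehlerDifferential_comp_D,
      Derivation.liftKaehlerDifferential_comp_D, smul_eq_mul] at h1
    exact h1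
  ext g
  rw [key d g, key d' g, h]

theorem smul_D_inj (htr : Algebra.trdeg K L = 1) {z : L} (hz : Transcendental K z) {a b : L}
    (h : a • D K L z = b • D K L z) : a = b := by
  obtain ⟨e, he⟩ := FA_exists_equiv htr hz
  have h1 := congrArg e h
  rw [map_smul, map_smul, he, smul_eq_mul, smul_eq_mul, mul_one, mul_one] at h1
  exact h1

/-- a derivation which kills a transcendental function is zero; in particular -/
theorem derivation_ne_zero (htr : Algebra.trdeg K L = 1) {z b : L} (hb : Transcendental K b)
    (d : Derivation K L L) (hd : d z = 1) : d b ≠ 0 := by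
  obtain ⟨d₀, _, hd₀⟩ := exists_derivation htr hb
  intro h
  have h1 := congrArg d.liftKaehlerDifferential (hd₀ z)
  rw [map_smul, Derivation.liftKaehlerDifferential_comp_D,
    Derivation.liftKaehlerDifferential_comp_D, hd, h, smul_zero] at h1
  exact one_ne_zero h1

end Pool.Agent.Arith
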