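import Pool.Agent.Lib.MP_c0402d_ag.FA

/-!
# JOB FB: places of a function field of one variable, part 1

Key tool: two elements `f, p` of `L` are algebraically dependent over `K`. Write a relation as
`∑ h_{ab} f^a p^b = 0`; taking the terms with minimal `b` and reducing modulo the maximal ideal, the
residue of `f` is algebraic over `K`, so it is in `K`. Similarly, if `f ≠ 0` were divisible by all
powers of `p`, take the terms with minimal exponent of `f`.
-/

set_option autoImplicit false
set_option linter.unusedSectionVars false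

namespace Pool.Agent.Arith

open KaehlerDifferential

/-- An element which is smaller than all nonzero elements of the ring `A` is transcendental. -/
theorem fb_key {L Γ : Type*} [Field L] [LinearOrderedCommGroupWithZero Γ] (v : Valuation L Γ)
    {A : Type*} [CommRing A] (φ : A →+* L) (f : L) (hf0 : f ≠ 0) (hf1 : v f < 1)
    (hA : ∀ a, a ≠ 0 → v f < v (φ a)) (hA1 : ∀ a, v (φ a) ≤ 1) (G : Polynomial A) (hG : G ≠ 0) :
    G.eval₂ φ f ≠ 0 := by
  intro h
  set n := G.natTrailingDegree with hn
  have hcn : G.coeff n ≠ 0 := by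
    have := Polynomial.trailingCoeff_nonzero_iff_nonzero.2 hG
    exact this
  have hvf : v f ≠ 0 := (Valuation.ne_zero_iff v).2 hf0
  have hvc : v (φ (G.coeff n)) ≠ 0 := fun e => by
    have := hA _ hcn
    rw [e] at this
    exact not_lt_zero this
  have hmem : n ∈ Finset.range (G.natDegree + 1) := by
    rw [Finset.mem_range]
    have := Polynomial.natTrailingDegree_le_natDegree G
    omega
  rw [Polynomial.eval₂_eq_sum_range, ← Finset.add_sum_erase _ _ hmem] at h
  have hlt : v (∑ i ∈ (Finset.range (G.natDegree + 1)).erase n, φ (G.coeff i) * f ^ i) <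
      v (φ (G.coeff n)) * v f ^ n := by
    refine Valuation.map_sum_lt v (mul_ne_zero hvc (pow_ne_zero _ hvf)) fun i hi => ?_
    rw [Finset.mem_erase] at hi
    rcases lt_or_gt_of_ne hi.1 with h1 | h1
    · rw [Polynomial.coeff_eq_zero_of_lt_natTrailingDegree h1, map_zero, zero_mul, map_zero]
      exact zero_lt_iff.2 (mul_ne_zero hvc (pow_ne_zero _ hvf))
    · rw [map_mul, map_pow]
      calc v (φ (G.coeff i)) * v f ^ i ≤ 1 * v f ^ (n + 1) := by
            refine mul_le_mul' (hA1 _) ?_
            exact pow_le_pow_right_of_le_one' hf1.le h1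
        _ = v f * v f ^ n := by rw [one_mul, pow_succ']
        _ < v (φ (G.coeff n)) * v f ^ n := by
            exact mul_lt_mul_of_pos_right (hA _ hcn) (zero_lt_iff.2 (pow_ne_zero _ hvf))
  have h2 : φ (G.coeff n) * f ^ n =
      -∑ i ∈ (Finset.range (G.natDegree + 1)).erase n, φ (G.coeff i) * f ^ i :=
    eq_neg_of_add_eq_zero_left h
  have h3 := congrArg v h2
  rw [Valuation.map_neg, map_mul, map_pow] at h3
  rw [← h3] at hlt
  exact lt_irrefl _ hlt

variable {K L : Type} [Field K] [CharZero K] [IsAlgClosed K] [Field L] [Algebra K L]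

/-- Two functions are algebraically dependent. -/
theorem fb_rel (htr : Algebra.trdeg K L = 1) {z : L} (hz : Transcendental K z) (f : L) :
    ∃ G : Polynomial (Polynomial K), G ≠ 0 ∧
      G.eval₂ (Polynomial.aeval z : Polynomial K →ₐ[K] L).toRingHom f = 0 := by
  have hind : AlgebraicIndependent K (fun _ : Unit => z) :=
    (algebraicIndependent_unique_type_iff).2 hz
  have hb : IsTranscendenceBasis K (fun _ : Unit => z) := by
    refine hind.isTranscendenceBasis_of_trdeg_le_of_finite ?_
    rw [htr]
    simp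
  have halg := hb.isAlgebraic
  have hr : Algebra.adjoin K (Set.range fun _ : Unit => z) =
      (Polynomial.aeval z : Polynomial K →ₐ[K] L).range := by
    rw [← Algebra.adjoin_singleton_eq_range_aeval]
    congr 1
    simp
  obtain ⟨q, hq, hq0⟩ := halg.isAlgebraic f
  let ψ : Polynomial K →+* Algebra.adjoin K (Set.range fun _ : Unit => z) :=
    RingHom.codRestrict (Polynomial.aeval z : Polynomial K →ₐ[K] L).toRingHom
      (Algebra.adjoin K (Set.range fun _ : Unit => z)) (fun g => by rw [hr]; exact ⟨g, rfl⟩)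
  have hψ : Function.Surjective ψ := by
    rintro ⟨a, ha⟩
    have ha' := ha
    rw [hr] at ha'
    obtain ⟨g, hg⟩ := ha'
    exact ⟨g, Subtype.ext hg⟩
  obtain ⟨G, rfl⟩ := Polynomial.map_surjective ψ hψ q
  refine ⟨G, fun h => hq (by rw [h, Polynomial.map_zero]), ?_⟩
  rw [Polynomial.aeval_def, Polynomial.eval₂_map] at hq0
  exact hq0

/-- the valuation of a constant -/
theorem fb_val_const (P : Place K L) {c : K} (hc : c ≠ 0) :
    P.O.valuation (algebraMap K L c) = 1 := by
  have h1 := (P.O.valuation_le_one_iff _).2 (P.base c)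
  have h2 := (P.O.valuation_le_one_iff _).2 (P.base c⁻¹)
  rw [map_inv₀, map_inv₀] at h2
  refine le_antisymm h1 ?_
  have h3 : P.O.valuation (algebraMap K L c) ≠ 0 :=
    (Valuation.ne_zero_iff _).2 ((map_ne_zero _).2 hc)
  exact (inv_le_one₀ (zero_lt_iff.2 h3)).1 h2

theorem fb_val_le (P : Place K L) (c : K) : P.O.valuation (algebraMap K L c) ≤ 1 :=
  (P.O.valuation_le_one_iff _).2 (P.base c)

theorem Place.algebraMap_mem_nonunits {P : Place K L} {c : K} :
    algebraMap K L c ∈ P.O.nonunits ↔ c = 0 := by
  rw [ValuationSubring.mem_nonunits_iff]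
  constructor
  · intro h
    by_contra hc
    rw [fb_val_const P hc] at h
    exact lt_irrefl _ h
  · rintro rfl
    rw [map_zero, map_zero]
    exact zero_lt_one

theorem fb_transcendental {P : Place K L} {p : L} (h0 : p ≠ 0)
    (hp : P.O.valuation p < 1) : Transcendental K p := by
  rintro ⟨q, hq, hq0⟩
  rw [Polynomial.aeval_def] at hq0
  refine fb_key P.O.valuation (algebraMap K L) p h0 hp (fun a ha => ?_) (fb_val_le P) q hq hq0
  rw [fb_val_const P ha]
  exact hp

/-- a nonzero nonunit -/
theorem fb_exists_nonunit (P : Place K L) : ∃ p : L, p ≠ 0 ∧ P.O.valuation p < 1 := by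
  by_contra hcon
  push Not at hcon
  apply P.ne_top
  rw [eq_top_iff]
  intro x _
  by_cases hx : x = 0
  · rw [hx]; exact P.O.zero_mem
  · have h1 := hcon x⁻¹ (inv_ne_zero hx)
    rw [map_inv₀] at h1
    rw [← P.O.valuation_le_one_iff]
    exact (one_le_inv₀ (zero_lt_iff.2 ((Valuation.ne_zero_iff _).2 hx))).1 h1

theorem Place.exists_value (htr : Algebra.trdeg K L = 1) (P : Place K L) {f : L} (hf : f ∈ P.O) :
    ∃ c : K, f - algebraMap K L c ∈ P.O.nonunits := by
  by_contra hcon
  push Not at hcon
  have hv : ∀ c : K, P.O.valuation (f - algebraMap K L c) = 1 := by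
    intro c
    have h1 := hcon c
    rw [ValuationSubring.mem_nonunits_iff, not_lt] at h1
    exact le_antisymm ((P.O.valuation_le_one_iff _).2 (P.O.sub_mem hf (P.base c))) h1
  have hpoly : ∀ g : Polynomial K, g ≠ 0 → P.O.valuation (Polynomial.aeval f g) = 1 := by
    intro g hg
    have hs := IsAlgClosed.splits g
    rw [hs.eq_prod_roots]
    rw [map_mul, Polynomial.aeval_C, map_mul,
      fb_val_const P (Polynomial.leadingCoeff_ne_zero.2 hg), one_mul, map_multiset_prod,
      map_multiset_prod, Multiset.map_map, Multiset.map_map]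
    apply Multiset.prod_eq_one
    intro x hx
    rw [Multiset.mem_map] at hx
    obtain ⟨c, _, rfl⟩ := hx
    simp only [Function.comp_apply, map_sub, Polynomial.aeval_X, Polynomial.aeval_C]
    exact hv c
  have htf : Transcendental K f := by
    rintro ⟨g, hg, hg0⟩
    have := hpoly g hg
    rw [hg0, map_zero] at this
    exact zero_ne_one this
  obtain ⟨p, hp0, hp1⟩ := fb_exists_nonunit P
  obtain ⟨G, hG, hG0⟩ := fb_rel htr htf p
  refine fb_key P.O.valuation _ p hp0 hp1 (fun a ha => ?_) (fun a => ?_) G hG hG0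
  · show _ < P.O.valuation (Polynomial.aeval f a)
    rw [hpoly a ha]
    exact hp1
  · show P.O.valuation (Polynomial.aeval f a) ≤ 1
    by_cases ha : a = 0
    · rw [ha, map_zero, map_zero]
      exact zero_le
    · exact (hpoly a ha).le

theorem Place.value_unique {P : Place K L} {f : L} {c c' : K}
    (h : f - algebraMap K L c ∈ P.O.nonunits) (h' : f - algebraMap K L c' ∈ P.O.nonunits) :
    c = c' := by
  rw [← sub_eq_zero, ← Place.algebraMap_mem_nonunits (P := P)]
  have : algebraMap K L (c - c') = (f - algebraMap K L c') - (f - algebraMap K L c) := by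
    rw [map_sub]; ring
  rw [this]
  exact sub_mem h' h

theorem Place.transcendental_of_nonunit {P : Place K L} {p : L} (h0 : p ≠ 0)
    (hp : p ∈ P.O.nonunits) : Transcendental K p :=
  fb_transcendental h0 ((ValuationSubring.mem_nonunits_iff _).1 hp)

/-- the valuation of a polynomial in `p` -/
theorem fb_val_poly {P : Place K L} {p : L} (h0 : p ≠ 0) (hp : P.O.valuation p < 1)
    {g : Polynomial K} (hg : g ≠ 0) :
    P.O.valuation (Polynomial.aeval p g) = P.O.valuation p ^ g.natTrailingDegree := by
  set n := g.natTrailingDegree with hn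
  have hcn : g.coeff n ≠ 0 := Polynomial.trailingCoeff_nonzero_iff_nonzero.2 hg
  have hvp : P.O.valuation p ≠ 0 := (Valuation.ne_zero_iff _).2 h0
  have hmem : n ∈ Finset.range (g.natDegree + 1) := by
    rw [Finset.mem_range]
    have := Polynomial.natTrailingDegree_le_natDegree g
    omega
  rw [Polynomial.aeval_def, Polynomial.eval₂_eq_sum_range, ← Finset.add_sum_erase _ _ hmem]
  have h1 : P.O.valuation (algebraMap K L (g.coeff n) * p ^ n) = P.O.valuation p ^ n := by
    rw [map_mul, map_pow, fb_val_const P hcn, one_mul]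
  have hlt : P.O.valuation
      (∑ i ∈ (Finset.range (g.natDegree + 1)).erase n, algebraMap K L (g.coeff i) * p ^ i) <
      P.O.valuation (algebraMap K L (g.coeff n) * p ^ n) := by
    rw [h1]
    refine Valuation.map_sum_lt _ (pow_ne_zero _ hvp) fun i hi => ?_
    rw [Finset.mem_erase] at hi
    rcases lt_or_gt_of_ne hi.1 with h1 | h1
    · rw [Polynomial.coeff_eq_zero_of_lt_natTrailingDegree h1, map_zero, zero_mul, map_zero]
      exact zero_lt_iff.2 (pow_ne_zero _ hvp)
    · rw [map_mul, map_pow]
      calc P.O.valuation (algebraMap K L (g.coeff i)) * P.O.valuation p ^ i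
          ≤ 1 * P.O.valuation p ^ (n + 1) :=
            mul_le_mul' (fb_val_le P _) (pow_le_pow_right_of_le_one' hp.le h1)
        _ = P.O.valuation p * P.O.valuation p ^ n := by rw [one_mul, pow_succ']
        _ < 1 * P.O.valuation p ^ n :=
            mul_lt_mul_of_pos_right hp (zero_lt_iff.2 (pow_ne_zero _ hvp))
        _ = _ := one_mul _
  rw [Valuation.map_add_eq_of_lt_left _ hlt, h1]

theorem fb_val_poly_le {P : Place K L} {p : L} (hp : P.O.valuation p < 1)
    (g : Polynomial K) : P.O.valuation (Polynomial.aeval p g) ≤ 1 := by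
  by_cases h0 : p = 0
  · rw [h0, Polynomial.aeval_def, ← map_zero (algebraMap K L), Polynomial.eval₂_at_apply]
    exact fb_val_le P _
  by_cases hg : g = 0
  · rw [hg, map_zero, map_zero]
    exact zero_le
  · rw [fb_val_poly h0 hp hg]
    exact pow_le_one' hp.le _

theorem Place.exists_order (htr : Algebra.trdeg K L = 1) {P : Place K L} {p : L}
    (hp : P.IsParam p) {f : L} (hf : f ≠ 0) :
    ∃ (n : ℤ) (u : L), u ∈ P.O ∧ u ∉ P.O.nonunits ∧ f = u * p ^ n := by
  classical
  obtain ⟨h0, h1, h2⟩ := hp
  rw [ValuationSubring.mem_nonunits_iff] at h1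
  have hvp : P.O.valuation p ≠ 0 := (Valuation.ne_zero_iff _).2 h0
  have key : ∀ f : L, f ≠ 0 → f ∈ P.O →
      ∃ (n : ℕ) (u : L), u ∈ P.O ∧ u ∉ P.O.nonunits ∧ f = u * p ^ n := by
    intro f hf hfO
    have hex : ∃ n : ℕ, ¬ P.O.valuation f ≤ P.O.valuation p ^ n := by
      by_contra hcon
      push Not at hcon
      obtain ⟨G, hG, hG0⟩ := fb_rel htr (fb_transcendental h0 h1) f
      have hf1 : P.O.valuation f < 1 := by
        have := hcon 1
        rw [pow_one] at this
        exact this.trans_lt h1
      refine fb_key P.O.valuation _ f hf hf1 (fun a ha => ?_) (fun a => ?_) G hG hG0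
      · show _ < P.O.valuation (Polynomial.aeval p a)
        rw [fb_val_poly h0 h1 ha]
        refine (hcon (a.natTrailingDegree + 1)).trans_lt ?_
        rw [pow_succ']
        calc P.O.valuation p * P.O.valuation p ^ a.natTrailingDegree
            < 1 * P.O.valuation p ^ a.natTrailingDegree :=
              mul_lt_mul_of_pos_right h1 (zero_lt_iff.2 (pow_ne_zero _ hvp))
          _ = _ := one_mul _
      · exact fb_val_poly_le h1 a
    set N := Nat.find hex with hN
    have hN1 := Nat.find_spec hex
    have hNpos : N ≠ 0 := by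
      intro h
      rw [← hN, h, pow_zero] at hN1
      exact hN1 ((P.O.valuation_le_one_iff _).2 hfO)
    obtain ⟨m, hm⟩ := Nat.exists_eq_succ_of_ne_zero hNpos
    have hm1 : P.O.valuation f ≤ P.O.valuation p ^ m := by
      by_contra hc
      exact Nat.find_min hex (m := m) (by omega) hc
    have hu : P.O.valuation (f / p ^ m) ≤ 1 := by
      rw [map_div₀, map_pow]
      exact div_le_one_of_le₀ hm1 zero_le
    refine ⟨m, f / p ^ m, (P.O.valuation_le_one_iff _).1 hu, ?_, ?_⟩
    · intro hc
      have h3 := (P.O.valuation_le_one_iff _).2 (h2 _ hc)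
      apply hN1
      rw [← hN, hm, Nat.succ_eq_add_one]
      have h4 : f = f / p ^ m / p * p ^ (m + 1) := by
        rw [pow_succ]
        field_simp
      rw [h4, map_mul, map_pow]
      calc _ ≤ 1 * P.O.valuation p ^ (m + 1) := mul_le_mul' h3 le_rfl
        _ = _ := one_mul _
    · field_simp
  rcases P.O.mem_or_inv_mem f with h | h
  · obtain ⟨n, u, hu, hu', e⟩ := key f hf h
    exact ⟨n, u, hu, hu', by rw [zpow_natCast]; exact e⟩
  · obtain ⟨n, u, hu, hu', e⟩ := key f⁻¹ (inv_ne_zero hf) h
    have hu0 : u ≠ 0 := by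
      rintro rfl
      exact hu' P.O.nonunits.zero_mem
    refine ⟨-n, u⁻¹, ?_, ?_, ?_⟩
    · by_contra hc
      exact hu' ((ValuationSubring.mem_nonunits_iff_or _).2 (Or.inr hc))
    · rw [ValuationSubring.inv_mem_nonunits_iff]
      tauto
    · rw [zpow_neg, zpow_natCast, ← mul_inv, ← e, inv_inv]

theorem Place.mem_iff_order {P : Place K L} {p : L} (hp : P.IsParam p) {n : ℤ} {u : L}
    (hu : u ∈ P.O) (hu' : u ∉ P.O.nonunits) : u * p ^ n ∈ P.O ↔ 0 ≤ n := by
  obtain ⟨h0, h1, h2⟩ := hp
  rw [ValuationSubring.mem_nonunits_iff] at h1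
  have hvp : 0 < P.O.valuation p := zero_lt_iff.2 ((Valuation.ne_zero_iff _).2 h0)
  have hvu : P.O.valuation u = 1 := by
    rw [ValuationSubring.mem_nonunits_iff, not_lt] at hu'
    exact le_antisymm ((P.O.valuation_le_one_iff _).2 hu) hu'
  rw [← P.O.valuation_le_one_iff, map_mul, map_zpow₀, hvu, one_mul]
  constructor
  · intro h
    by_contra hn
    push Not at hn
    have h3 := one_lt_zpow_of_neg₀ hvp h1 hn
    exact absurd h (not_le.2 h3)
  · intro h
    obtain ⟨k, rfl⟩ := Int.eq_ofNat_of_zero_le h
    rw [zpow_natCast]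
    exact pow_le_one' h1.le _

/-- There is a place at which the transcendental function `r` vanishes (domination of the local
ring of `K[r]` at `r = 0` by a valuation ring). -/
theorem exists_place_zero {r : L} (hr : Transcendental K r) :
    ∃ P : Place K L, r ∈ P.O.nonunits := by
  set A : Subring L := (Algebra.adjoin K {r}).toSubring with hA
  have hrA : r ∈ A := Algebra.subset_adjoin rfl
  have hI : Ideal.span {(⟨r, hrA⟩ : A)} ≠ ⊤ := by
    rw [Ne, Ideal.span_singleton_eq_top, isUnit_iff_exists_inv]
    rintro ⟨⟨b, hb⟩, hb'⟩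
    have hb1 : b ∈ Algebra.adjoin K {r} := hb
    rw [Algebra.adjoin_singleton_eq_range_aeval] at hb1
    obtain ⟨g, hg⟩ := hb1
    have h1 : r * b = 1 := congrArg Subtype.val hb'
    apply hr
    refine ⟨Polynomial.X * g - 1, ?_, ?_⟩
    · intro h
      have := congrArg (fun q => Polynomial.coeff q 0) h
      simp at this
    · rw [map_sub, map_mul, Polynomial.aeval_X, map_one, sub_eq_zero, ← h1, ← hg]
      rfl
  obtain ⟨B, hB, hB'⟩ := Ideal.image_subset_nonunits_valuationSubring _ hI
  have hrB : r ∈ B.nonunits := hB' ⟨⟨r, hrA⟩, Ideal.subset_span rfl, rfl⟩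
  refine ⟨⟨B, fun c => hB ((Algebra.adjoin K {r}).algebraMap_mem c), ?_⟩, hrB⟩
  intro h
  rw [h, ValuationSubring.mem_nonunits_iff_or] at hrB
  rcases hrB with h1 | h1
  · rw [h1] at hr
    exact hr (isAlgebraic_zero)
  · exact h1 (ValuationSubring.mem_top _)

end Pool.Agent.Arith
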