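import Pool.Agent.Lib.MP_c0402d_ag.FB

/-!
# JOB FC: expansions; the derivative with respect to a local parameter preserves regularity

For `f ∈ P.O` let `c_0, c_1, …` be the coefficients of its expansion in the local parameter `p`:
`f_0 = f`, `f_n - c_n ∈ m`, `f_{n+1} = (f_n - c_n) / p`.

Proof of the theorem. Let `G(X, Y)` be a polynomial of minimal degree in `Y` with `G(p, f) = 0`; then
`a = G_Y(p, f) ≠ 0`. Let `n` be the order of `a`, `g ∈ K[X]` with `f₁ = f - g(p) ∈ p^(n+1) O`, and
`H(X, Y) = G(X, Y + g(X)) = ∑ H_i(X) Y^i`. Then `0 = d (H(p, f₁)) = ∑ H_i'(p) f₁^i + a d f₁`, and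
`H_0(p) = - ∑_{i ≥ 1} H_i(p) f₁^i` is divisible by `p^(n+1)`, so `X^(n+1)` divides `H_0` and `X^n` divides
`H_0'`. Therefore `a d f₁` is divisible by `p^n`, and `d f₁ ∈ O`.
-/

set_option autoImplicit false
set_option linter.unusedSectionVars false

namespace Pool.Agent.Arith

open KaehlerDifferential

variable {K L : Type} [Field K] [CharZero K] [IsAlgClosed K] [Field L] [Algebra K L]

/-- the evaluation at `p` -/
noncomputable def fc_ev (p : L) : Polynomial K →+* L :=
  (Polynomial.aeval p : Polynomial K →ₐ[K] L).toRingHom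

/-- the chain rule -/
theorem fc_chain (d : Derivation K L L) (p : L) (hd : d p = 1) (f : L)
    (G : Polynomial (Polynomial K)) :
    d (G.eval₂ (fc_ev p) f) =
      G.sum (fun i c => fc_ev p (Polynomial.derivative c) * f ^ i) +
        (Polynomial.derivative G).eval₂ (fc_ev p) f * d f := by
  induction G using Polynomial.induction_on' with
  | add G H hG hH =>
    rw [Polynomial.eval₂_add, map_add, hG, hH, Polynomial.derivative_add, Polynomial.eval₂_add,
      Polynomial.sum_add_index]
    · ring
    · intro i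
      rw [map_zero, map_zero, zero_mul]
    · intro i a b
      rw [map_add, map_add, add_mul]
  | monomial n c =>
    rw [Polynomial.eval₂_monomial, Derivation.leibniz, Derivation.leibniz_pow,
      Polynomial.sum_monomial_index, Polynomial.derivative_monomial, Polynomial.eval₂_monomial]
    · have h1 : d (fc_ev p c) = fc_ev p (Polynomial.derivative c) := by
        show d (Polynomial.aeval p c) = Polynomial.aeval p (Polynomial.derivative c)
        rw [Derivation.map_aeval, hd, smul_eq_mul, mul_one]
      rw [h1, map_mul, map_natCast]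
      simp only [smul_eq_mul, nsmul_eq_mul]
      ring
    · rw [map_zero, map_zero, zero_mul]

/-- approximation by polynomials in `p` -/
theorem fc_approx (htr : Algebra.trdeg K L = 1) {P : Place K L} {p : L}
    (hp : P.IsParam p) {f : L} (hf : f ∈ P.O) (n : ℕ) :
    ∃ (g : Polynomial K) (h : L), h ∈ P.O ∧ f = fc_ev p g + p ^ n * h := by
  induction n with
  | zero => exact ⟨0, f, hf, by rw [map_zero]; ring⟩
  | succ n ih =>
    obtain ⟨g, h, hh, e⟩ := ih
    obtain ⟨c, hc⟩ := P.exists_value htr hh
    refine ⟨g + Polynomial.C c * Polynomial.X ^ n, (h - algebraMap K L c) / p, hp.2.2 _ hc, ?_⟩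
    have h1 : fc_ev p (g + Polynomial.C c * Polynomial.X ^ n) =
        fc_ev p g + algebraMap K L c * p ^ n := by
      rw [map_add, map_mul, map_pow]
      congr 2
      · exact Polynomial.aeval_C p c
      · congr 1
        exact Polynomial.aeval_X p
    rw [h1, e, pow_succ]
    field_simp [hp.1]
    ring

theorem Place.deriv_mem (htr : Algebra.trdeg K L = 1) {P : Place K L} {p : L}
    (hp : P.IsParam p) (d : Derivation K L L) (hd : d p = 1) {f : L} (hf : f ∈ P.O) :
    d f ∈ P.O := by
  classical
  have h0 := hp.1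
  have h1 : P.O.valuation p < 1 := (ValuationSubring.mem_nonunits_iff _).1 hp.2.1
  have hvp : P.O.valuation p ≠ 0 := (Valuation.ne_zero_iff _).2 h0
  have hvO : ∀ {x : L}, x ∈ P.O → P.O.valuation x ≤ 1 := fun h =>
    (P.O.valuation_le_one_iff _).2 h
  -- a relation of minimal degree
  obtain ⟨G, hG, hGf, hmin⟩ : ∃ G : Polynomial (Polynomial K), G ≠ 0 ∧
      G.eval₂ (fc_ev p) f = 0 ∧ ∀ H : Polynomial (Polynomial K), H ≠ 0 →
        H.eval₂ (fc_ev p) f = 0 → G.natDegree ≤ H.natDegree := by
    have hex : ∃ n : ℕ, ∃ G : Polynomial (Polynomial K), G ≠ 0 ∧ G.eval₂ (fc_ev p) f = 0 ∧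
        G.natDegree = n := by
      obtain ⟨G, hG, hG'⟩ := fb_rel htr (fb_transcendental h0 h1) f
      exact ⟨_, G, hG, hG', rfl⟩
    obtain ⟨G, hG, hG', hn⟩ := Nat.find_spec hex
    refine ⟨G, hG, hG', fun H hH hH' => ?_⟩
    rw [hn]
    exact Nat.find_min' hex ⟨H, hH, hH', rfl⟩
  have hdeg : G.natDegree ≠ 0 := by
    intro h
    rw [Polynomial.natDegree_eq_zero] at h
    obtain ⟨c, rfl⟩ := h
    rw [Polynomial.eval₂_C] at hGf
    have hc : c ≠ 0 := by
      rintro rfl
      exact hG (map_zero _)
    have h2 := fb_val_poly (P := P) h0 h1 hc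
    have h3 : Polynomial.aeval p c = 0 := hGf
    rw [h3, map_zero] at h2
    exact pow_ne_zero _ hvp h2.symm
  set a : L := (Polynomial.derivative G).eval₂ (fc_ev p) f with ha
  have ha0 : a ≠ 0 := by
    intro h
    have h2 : Polynomial.derivative G ≠ 0 := by
      intro h3
      exact hdeg (Polynomial.derivative_eq_zero.1 h3)
    have h3 := hmin _ h2 h
    have h4 := Polynomial.natDegree_derivative_lt hdeg
    omega
  have hevO : ∀ c : Polynomial K, fc_ev p c ∈ P.O := fun c =>
    (P.O.valuation_le_one_iff _).1 (fb_val_poly_le h1 c)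
  have heval : ∀ (H : Polynomial (Polynomial K)) (x : L), x ∈ P.O →
      H.eval₂ (fc_ev p) x ∈ P.O := by
    intro H x hx
    rw [Polynomial.eval₂_eq_sum_range]
    exact sum_mem fun i _ => P.O.mul_mem _ _ (hevO _) (pow_mem hx i)
  have haO : a ∈ P.O := heval _ _ hf
  obtain ⟨n', u, hu, hu', hau⟩ := Place.exists_order htr hp ha0
  have hn' : 0 ≤ n' := (Place.mem_iff_order hp hu hu').1 (by rw [← hau]; exact haO)
  obtain ⟨n, rfl⟩ := Int.eq_ofNat_of_zero_le hn'
  rw [zpow_natCast] at hau
  have hvu : P.O.valuation u = 1 := by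
    rw [ValuationSubring.mem_nonunits_iff, not_lt] at hu'
    exact le_antisymm (hvO hu) hu'
  have hva : P.O.valuation a = P.O.valuation p ^ n := by
    rw [hau, map_mul, map_pow, hvu, one_mul]
  obtain ⟨g, h, hh, hfg⟩ := fc_approx htr hp hf (n + 1)
  set f₁ : L := p ^ (n + 1) * h with hf₁
  have hvf₁ : P.O.valuation f₁ ≤ P.O.valuation p ^ (n + 1) := by
    rw [hf₁, map_mul, map_pow]
    calc _ ≤ P.O.valuation p ^ (n + 1) * 1 := mul_le_mul' le_rfl (hvO hh)
      _ = _ := mul_one _
  have hf₁O : f₁ ∈ P.O := by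
    rw [← P.O.valuation_le_one_iff]
    exact hvf₁.trans (pow_le_one' h1.le _)
  -- the translated relation
  set H : Polynomial (Polynomial K) := G.comp (Polynomial.X + Polynomial.C g) with hH
  have hev1 : (Polynomial.X + Polynomial.C g : Polynomial (Polynomial K)).eval₂ (fc_ev p) f₁ = f := by
    rw [Polynomial.eval₂_add, Polynomial.eval₂_X, Polynomial.eval₂_C, hfg]
    ring
  have hHf : H.eval₂ (fc_ev p) f₁ = 0 := by
    rw [hH, Polynomial.eval₂_comp, hev1, hGf]
  have hHa : (Polynomial.derivative H).eval₂ (fc_ev p) f₁ = a := by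
    rw [hH, Polynomial.derivative_comp, Polynomial.eval₂_mul, Polynomial.eval₂_comp, hev1]
    simp
    rfl
  have hch := fc_chain d p hd f₁ H
  rw [hHf, map_zero, hHa] at hch
  -- the constant term
  have hH0 : P.O.valuation (fc_ev p (H.coeff 0)) ≤ P.O.valuation p ^ (n + 1) := by
    have e1 : H.eval₂ (fc_ev p) f₁ = f₁ * H.divX.eval₂ (fc_ev p) f₁ + fc_ev p (H.coeff 0) := by
      conv_lhs => rw [← Polynomial.divX_mul_X_add H]
      rw [Polynomial.eval₂_add, Polynomial.eval₂_mul, Polynomial.eval₂_X, Polynomial.eval₂_C]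
      ring
    rw [hHf] at e1
    have e2 : fc_ev p (H.coeff 0) = -(f₁ * H.divX.eval₂ (fc_ev p) f₁) := by
      linear_combination -e1
    rw [e2, Valuation.map_neg, map_mul]
    calc _ ≤ P.O.valuation p ^ (n + 1) * 1 := mul_le_mul' hvf₁ (hvO (heval _ _ hf₁O))
      _ = _ := mul_one _
  have hH0' : P.O.valuation (fc_ev p (Polynomial.derivative (H.coeff 0))) ≤
      P.O.valuation p ^ n := by
    by_cases hz : H.coeff 0 = 0
    · rw [hz, map_zero, map_zero, map_zero]
      exact zero_le
    have e1 : P.O.valuation (fc_ev p (H.coeff 0)) =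
        P.O.valuation p ^ (H.coeff 0).natTrailingDegree := fb_val_poly h0 h1 hz
    rw [e1] at hH0
    have e2 : n + 1 ≤ (H.coeff 0).natTrailingDegree := by
      by_contra hc
      push Not at hc
      have := pow_lt_pow_right_of_lt_one₀ (zero_lt_iff.2 hvp) h1 hc
      exact absurd hH0 (not_le.2 this)
    obtain ⟨q, hq⟩ : (Polynomial.X ^ (n + 1) : Polynomial K) ∣ H.coeff 0 := by
      rw [Polynomial.X_pow_dvd_iff]
      intro k hk
      exact Polynomial.coeff_eq_zero_of_lt_natTrailingDegree (by omega)
    have e3 : Polynomial.derivative (H.coeff 0) = Polynomial.X ^ n *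
        (Polynomial.C ((n : K) + 1) * q + Polynomial.X * Polynomial.derivative q) := by
      rw [hq, Polynomial.derivative_mul, Polynomial.derivative_X_pow]
      rw [Nat.add_sub_cancel]
      push_cast
      ring
    have e4 : fc_ev p (Polynomial.X ^ n : Polynomial K) = p ^ n := by
      rw [map_pow]
      congr 1
      exact Polynomial.aeval_X (R := K) p
    rw [e3, map_mul, e4, map_mul, map_pow]
    calc _ ≤ P.O.valuation p ^ n * 1 := mul_le_mul' le_rfl (hvO (hevO _))
      _ = _ := mul_one _
  -- the other terms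
  have hsum : P.O.valuation (H.sum fun i c => fc_ev p (Polynomial.derivative c) * f₁ ^ i) ≤
      P.O.valuation p ^ n := by
    rw [Polynomial.sum_def]
    refine Valuation.map_sum_le _ fun i _ => ?_
    rcases Nat.eq_zero_or_pos i with rfl | hi
    · rw [pow_zero, mul_one]
      exact hH0'
    · rw [map_mul, map_pow]
      calc _ ≤ 1 * P.O.valuation f₁ ^ i := mul_le_mul' (hvO (hevO _)) le_rfl
        _ ≤ P.O.valuation f₁ := by
            rw [one_mul]
            exact pow_le_of_le_one (zero_le) (hvO hf₁O) hi.ne'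
        _ ≤ P.O.valuation p ^ (n + 1) := hvf₁
        _ ≤ P.O.valuation p ^ n := pow_le_pow_right_of_le_one' h1.le (Nat.le_succ n)
  have hdf₁ : d f₁ ∈ P.O := by
    rw [← P.O.valuation_le_one_iff]
    have e1 : a * d f₁ = -(H.sum fun i c => fc_ev p (Polynomial.derivative c) * f₁ ^ i) := by
      linear_combination -hch
    have e2 := congrArg P.O.valuation e1
    rw [map_mul, Valuation.map_neg, hva] at e2
    rw [← e2] at hsum
    have e3 : 0 < P.O.valuation p ^ n := zero_lt_iff.2 (pow_ne_zero _ hvp)
    by_contra hc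
    push Not at hc
    have e4 := mul_lt_mul_of_pos_left hc e3
    rw [mul_one] at e4
    exact absurd hsum (not_le.2 e4)
  have hdg : d (fc_ev p g) ∈ P.O := by
    have e1 : d (fc_ev p g) = fc_ev p (Polynomial.derivative g) := by
      show d (Polynomial.aeval p g) = Polynomial.aeval p (Polynomial.derivative g)
      rw [Derivation.map_aeval, hd, smul_eq_mul, mul_one]
    rw [e1]
    exact hevO _
  rw [hfg, map_add]
  exact P.O.add_mem _ _ hdg hdf₁

end Pool.Agent.Arith
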