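import Pool.Agent.Lib.MP_c0402d_ag.FC

/-!
# JOB FD: orders of differentials
-/

set_option autoImplicit false
set_option linter.unusedSectionVars false

namespace Pool.Agent.Arith

open KaehlerDifferential

variable {K L : Type} [Field K] [CharZero K] [IsAlgClosed K] [Field L] [Algebra K L]

private theorem fd_unit_iff {P : Place K L} {x : L} :
    (x ∈ P.O ∧ x ∉ P.O.nonunits) ↔ P.O.valuation x = 1 := by
  rw [ValuationSubring.mem_nonunits_iff, ← ValuationSubring.valuation_le_one_iff, not_lt]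
  exact ⟨fun h => le_antisymm h.1 h.2, fun h => ⟨h.le, h.ge⟩⟩

private theorem fd_const {P : Place K L} {c : K} (hc : c ≠ 0) :
    P.O.valuation (algebraMap K L c) = 1 := by
  rw [← fd_unit_iff]
  refine ⟨P.base c, fun h => hc (Place.algebraMap_mem_nonunits.1 h)⟩

private theorem fd_nonunit_lt {P : Place K L} {x : L} (hx : x ∈ P.O.nonunits) :
    P.O.valuation x < 1 := (ValuationSubring.mem_nonunits_iff _).1 hx

private theorem fd_param_unit {P : Place K L} {p q : L} (hp : P.IsParam p) (hq : P.IsParam q) :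
    P.O.valuation (q / p) = 1 := by
  refine le_antisymm ((ValuationSubring.valuation_le_one_iff _ _).2 (hp.2.2 q hq.2.1)) ?_
  have h1 : P.O.valuation (p / q) ≤ 1 :=
    (ValuationSubring.valuation_le_one_iff _ _).2 (hq.2.2 p hp.2.1)
  have h2 : P.O.valuation (q / p) * P.O.valuation (p / q) = 1 := by
    rw [← map_mul, div_mul_div_cancel₀ hp.1, div_self hq.1, map_one]
  calc (1 : P.O.ValueGroup) = P.O.valuation (q / p) * P.O.valuation (p / q) := h2.symm
    _ ≤ P.O.valuation (q / p) * 1 := mul_le_mul_right h1 _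
    _ = P.O.valuation (q / p) := mul_one _

private theorem fd_smul_smul {ω : Ω[L⁄K]} (c : K) (x : L) :
    c • (x • ω) = (algebraMap K L c * x) • ω := by
  rw [mul_smul, algebraMap_smul]

/-- the order can be computed with any local parameter -/
theorem OrdAt.param (htr : Algebra.trdeg K L = 1) {P : Place K L} {ω : Ω[L⁄K]} {m : ℕ}
    (h : OrdAt P ω m) {p : L} (hp : P.IsParam p) :
    ∃ u : L, u ∈ P.O ∧ u ∉ P.O.nonunits ∧ ω = (u * p ^ m) • D K L p := by
  obtain ⟨q, u, hq, hu, hu', hω⟩ := h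
  have hpt := Place.transcendental_of_nonunit hp.1 hp.2.1
  have hqt := Place.transcendental_of_nonunit hq.1 hq.2.1
  obtain ⟨d, hdp, hd⟩ := exists_derivation htr hpt
  obtain ⟨d', hdq', hd'⟩ := exists_derivation htr hqt
  have hqO : q ∈ P.O := ValuationSubring.nonunits_le hq.2.1
  have hpO : p ∈ P.O := ValuationSubring.nonunits_le hp.2.1
  have h1 : d q ∈ P.O := Place.deriv_mem htr hp d hdp hqO
  have h2 : d' p ∈ P.O := Place.deriv_mem htr hq d' hdq' hpO
  have h3 : d' p * d q = 1 := by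
    refine smul_D_inj htr hpt ?_
    rw [mul_smul, ← hd, ← hd', one_smul]
  have h1' : P.O.valuation (d q) ≤ 1 := (ValuationSubring.valuation_le_one_iff _ _).2 h1
  have h2' : P.O.valuation (d' p) ≤ 1 := (ValuationSubring.valuation_le_one_iff _ _).2 h2
  have h4 : P.O.valuation (d q) = 1 := by
    refine le_antisymm h1' ?_
    calc (1 : P.O.ValueGroup) = P.O.valuation (d' p) * P.O.valuation (d q) := by
          rw [← map_mul, h3, map_one]
      _ ≤ 1 * P.O.valuation (d q) := mul_le_mul_left h2' _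
      _ = P.O.valuation (d q) := one_mul _
  have h5 := fd_param_unit hp hq
  have h6 : P.O.valuation u = 1 := fd_unit_iff.1 ⟨hu, hu'⟩
  have h7 : P.O.valuation (u * (q / p) ^ m * d q) = 1 := by
    rw [map_mul, map_mul, map_pow, h4, h5, h6, one_pow, one_mul, one_mul]
  refine ⟨u * (q / p) ^ m * d q, (fd_unit_iff.2 h7).1, (fd_unit_iff.2 h7).2, ?_⟩
  rw [hω, hd q, smul_smul]
  congr 1
  have : p ≠ 0 := hp.1
  rw [div_pow]
  field_simp

theorem OrdAt.unique (htr : Algebra.trdeg K L = 1) {P : Place K L} {ω : Ω[L⁄K]} {m m' : ℕ}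
    (h : OrdAt P ω m) (h' : OrdAt P ω m') : m = m' := by
  have key : ∀ {m m' : ℕ}, OrdAt P ω m → OrdAt P ω m' → m ≤ m' := by
    intro m m' h h'
    obtain ⟨p, u, hp, hu, hu', hω⟩ := h
    obtain ⟨v, hv, hv', hω'⟩ := h'.param htr hp
    have hpt := Place.transcendental_of_nonunit hp.1 hp.2.1
    have h1 : u * p ^ m = v * p ^ m' := smul_D_inj htr hpt (hω.symm.trans hω')
    by_contra hlt
    push Not at hlt
    have h2 : u * p ^ (m - m') = v := by
      have h3 : p ^ m = p ^ (m - m') * p ^ m' := by rw [← pow_add]; congr 1; omega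
      rw [h3, ← mul_assoc] at h1
      exact mul_right_cancel₀ (pow_ne_zero _ hp.1) h1
    have h6 : P.O.valuation u = 1 := fd_unit_iff.1 ⟨hu, hu'⟩
    have h7 : P.O.valuation v = 1 := fd_unit_iff.1 ⟨hv, hv'⟩
    rw [← h2, map_mul, map_pow, h6, one_mul] at h7
    have h8 := pow_lt_one₀ zero_le (fd_nonunit_lt hp.2.1) (n := m - m') (by omega)
    exact absurd h7 h8.ne
  exact le_antisymm (key h h') (key h' h)

theorem OrdAt.smul {P : Place K L} {ω : Ω[L⁄K]} {m : ℕ} (h : OrdAt P ω m) {c : K} (hc : c ≠ 0) :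
    OrdAt P (c • ω) m := by
  obtain ⟨p, u, hp, hu, hu', hω⟩ := h
  have h6 : P.O.valuation u = 1 := fd_unit_iff.1 ⟨hu, hu'⟩
  have h7 : P.O.valuation (algebraMap K L c * u) = 1 := by
    rw [map_mul, fd_const hc, h6, one_mul]
  refine ⟨p, algebraMap K L c * u, hp, (fd_unit_iff.2 h7).1, (fd_unit_iff.2 h7).2, ?_⟩
  rw [hω, fd_smul_smul, mul_assoc]

theorem HasType.smul {ω : Ω[L⁄K]} {α : Multiset ℕ} (h : HasType ω α) {c : K} (hc : c ≠ 0) :
    HasType (c • ω) α := by
  obtain ⟨m, s, h1, h2, h3⟩ := h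
  exact ⟨m, s, fun P => (h1 P).smul hc, h2, h3⟩

/-- if the type contains `m`, there is a place of order `m` -/
theorem HasType.exists_place {ω : Ω[L⁄K]} {α : Multiset ℕ} (h : HasType ω α) {m : ℕ}
    (hm : m ∈ α) : ∃ P : Place K L, OrdAt P ω m := by
  obtain ⟨k, s, h1, h2, h3⟩ := h
  rw [← h3, Multiset.mem_map] at hm
  obtain ⟨P, -, hP⟩ := hm
  exact ⟨P, hP ▸ h1 P⟩

private theorem fd_expand (htr : Algebra.trdeg K L = 1) {P : Place K L} {p : L}
    (hp : P.IsParam p) {s : L} (hs : s ≠ 0) (hs' : s ∈ P.O.nonunits) :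
    ∃ (n : ℕ) (v w : L), P.O.valuation v = 1 ∧ P.O.valuation w = 1 ∧ s = v * p ^ (n + 1) ∧
      D K L s = (w * p ^ n) • D K L p := by
  obtain ⟨k, v, hv, hv', hsv⟩ := Place.exists_order htr hp hs
  have hvv : P.O.valuation v = 1 := fd_unit_iff.1 ⟨hv, hv'⟩
  have hsO : s ∈ P.O := ValuationSubring.nonunits_le hs'
  have hk : 0 ≤ k := (Place.mem_iff_order hp hv hv').1 (hsv ▸ hsO)
  obtain ⟨k', rfl⟩ := Int.eq_ofNat_of_zero_le hk
  have hk' : k' ≠ 0 := by
    rintro rfl
    have : P.O.valuation s = 1 := by rw [hsv]; simp [hvv]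
    exact absurd this (fd_nonunit_lt hs').ne
  obtain ⟨n, rfl⟩ := Nat.exists_eq_succ_of_ne_zero hk'
  have hsv' : s = v * p ^ (n + 1) := by
    rw [hsv, ← zpow_natCast]
  have hpt := Place.transcendental_of_nonunit hp.1 hp.2.1
  obtain ⟨d, hdp, hd⟩ := exists_derivation htr hpt
  have hdv : d v ∈ P.O := Place.deriv_mem htr hp d hdp hv
  refine ⟨n, v, p * d v + ((n + 1 : ℕ) : L) * v, hvv, ?_, hsv', ?_⟩
  · have h1 : P.O.valuation (((n + 1 : ℕ) : L) * v) = 1 := by
      have h2 : ((n + 1 : ℕ) : L) = algebraMap K L ((n + 1 : ℕ) : K) := (map_natCast _ _).symm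
      rw [map_mul, h2, fd_const (Nat.cast_ne_zero.2 (Nat.succ_ne_zero n)), hvv, one_mul]
    have h3 : P.O.valuation (p * d v) < 1 := by
      rw [map_mul]
      calc P.O.valuation p * P.O.valuation (d v) ≤ P.O.valuation p * 1 :=
            mul_le_mul_right ((ValuationSubring.valuation_le_one_iff _ _).2 hdv) _
        _ < 1 := by rw [mul_one]; exact fd_nonunit_lt hp.2.1
    rw [Valuation.map_add_eq_of_lt_right _ (by rw [h1]; exact h3), h1]
  · rw [hd s, hsv']
    congr 1
    rw [Derivation.leibniz, Derivation.leibniz_pow, hdp]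
    simp only [smul_eq_mul, nsmul_eq_mul, Nat.add_sub_cancel]
    push_cast
    ring

private theorem fd_contra (htr : Algebra.trdeg K L = 1) {P : Place K L} {p : L}
    (hp : P.IsParam p) {m k : ℕ} {u x y : L} (hu : P.O.valuation u = 1)
    (hy : P.O.valuation y = 1) (h : (u * p ^ m) • D K L p = x • D K L p)
    (hx : x * p ^ (k + 1) = y) : False := by
  have hpt := Place.transcendental_of_nonunit hp.1 hp.2.1
  have h1 := smul_D_inj htr hpt h
  rw [← hx, ← h1, mul_assoc, ← pow_add, map_mul, map_pow, hu, one_mul] at hy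
  have h8 := pow_lt_one₀ zero_le (fd_nonunit_lt hp.2.1) (n := m + (k + 1)) (by omega)
  exact absurd hy h8.ne

/-- `r^(-j) dr` has a pole: at `r = ∞` if `j = 0`, at `r = 0` if `j ≥ 1`. -/
theorem not_hasType_pole (htr : Algebra.trdeg K L = 1) {r : L} (hr : Transcendental K r) {c : K}
    (hc : c ≠ 0) (j : ℕ) (α : Multiset ℕ) : ¬ HasType (c • ((r ^ j)⁻¹ • D K L r)) α := by
  rintro ⟨m, s, hord, -, -⟩
  have hr0 : r ≠ 0 := by
    rintro rfl
    exact hr isAlgebraic_zero
  rcases j with _ | j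
  · have hr' : Transcendental K r⁻¹ := by
      intro h
      exact hr (by simpa using h.inv)
    obtain ⟨P, hP⟩ := exists_place_zero hr'
    obtain ⟨p, u, hp, hu, hu', hω⟩ := hord P
    obtain ⟨n, v, w, hv, hw, hs, hD⟩ := fd_expand htr hp (inv_ne_zero hr0) hP
    have hv0 : v ≠ 0 := by rintro rfl; simp at hv
    have hDr : D K L r = (-(r ^ 2)) • D K L r⁻¹ := by
      rw [Derivation.leibniz_inv, smul_smul]
      have : -(r ^ 2) * -(r⁻¹ ^ 2) = 1 := by field_simp
      rw [this, one_smul]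
    have hr2 : r = (v * p ^ (n + 1))⁻¹ := by rw [← hs, inv_inv]
    rw [fd_smul_smul, hDr, hD, smul_smul, smul_smul] at hω
    refine fd_contra htr hp (k := n + 1) (fd_unit_iff.1 ⟨hu, hu'⟩)
      (y := -(algebraMap K L c * w * (v ^ 2)⁻¹)) ?_ hω.symm ?_
    · rw [Valuation.map_neg, map_mul, map_mul, map_inv₀, map_pow, hv, hw, fd_const hc]
      simp
    · rw [hr2]
      have : p ≠ 0 := hp.1
      field_simp
      ring
  · obtain ⟨P, hP⟩ := exists_place_zero hr
    obtain ⟨p, u, hp, hu, hu', hω⟩ := hord P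
    obtain ⟨n, v, w, hv, hw, hs, hD⟩ := fd_expand htr hp hr0 hP
    have hv0 : v ≠ 0 := by rintro rfl; simp at hv
    rw [fd_smul_smul, hD, smul_smul] at hω
    refine fd_contra htr hp (k := (n + 1) * j) (fd_unit_iff.1 ⟨hu, hu'⟩)
      (y := algebraMap K L c * w * (v ^ (j + 1))⁻¹) ?_ hω.symm ?_
    · rw [map_mul, map_mul, map_inv₀, map_pow, hv, hw, fd_const hc]
      simp
    · rw [hs]
      have : p ≠ 0 := hp.1
      field_simp
      ring

end Pool.Agent.Arith
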