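import Pool.Agent.Lib.MP_c0402d_ag.FD

/-!
# JOB FE: hyperelliptic charts

A chart is a presentation `L = K(v, y)`, `y² = F(v)`, `F` a separable nonconstant polynomial. The
places with `v` regular are the points of the affine curve `y² = F(v)`.

Local structure at `(a, b)`, `b² = F(a)`. Let `g = p(v) + q(v) y ≠ 0`. If `b ≠ 0`: take out the
highest common power of `v - a` from `p, q`; the rest is nonzero at `(a, b)`, or its conjugate is,
and then `g = (p² - q² F) / (p - q y)`. If `b = 0`: `v - a = y² / F₁(v)`, `F₁(a) = F'(a) ≠ 0`;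
`p = (v - a)^i p₁`, `q = (v - a)^j q₁`. So every nonzero `g ∈ L` is `π^n` times a quotient of two
polynomials which do not vanish at `(a, b)`, with `π = v - a` or `π = y`.
-/

set_option autoImplicit false
set_option linter.unusedSectionVars false

namespace Pool.Agent.Arith

open KaehlerDifferential Polynomial

structure Chart (K L : Type) [Field K] [Field L] [Algebra K L] where
  v : L
  y : L
  F : K[X]
  eq : y ^ 2 = aeval v F
  trans : Transcendental K v
  gen : IntermediateField.adjoin K {v, y} = ⊤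
  sep : F.Separable
  pos : F.natDegree ≠ 0

/-- `P` is the point `(a, b)` of the chart. -/
def Chart.At {K L : Type} [Field K] [Field L] [Algebra K L] (C : Chart K L) (P : Place K L)
    (a b : K) : Prop :=
  C.v - algebraMap K L a ∈ P.O.nonunits ∧ C.y - algebraMap K L b ∈ P.O.nonunits

variable {K L : Type} [Field K] [CharZero K] [IsAlgClosed K] [Field L] [Algebra K L]


/-! ### Polynomials in `v` and `y` -/

/-- `p(v) + q(v) y` -/
noncomputable def fePol (C : Chart K L) (p q : K[X]) : L := aeval C.v p + aeval C.v q * C.y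

theorem feAeval_ne (C : Chart K L) {r : K[X]} (hr : r ≠ 0) : aeval C.v r ≠ 0 := fun h =>
  hr ((transcendental_iff.1 C.trans) r h)

theorem feAeval_inj (C : Chart K L) {r s : K[X]} (h : aeval C.v r = aeval C.v s) : r = s := by
  have : aeval C.v (r - s) = 0 := by rw [map_sub, h, sub_self]
  exact sub_eq_zero.1 ((transcendental_iff.1 C.trans) _ this)

theorem feF_ne (C : Chart K L) : C.F ≠ 0 := fun h => C.pos (by rw [h]; simp)

theorem fe_sq (C : Chart K L) {p q : K[X]} (h : p ^ 2 = q ^ 2 * C.F) : q = 0 := by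
  by_contra hq
  have hF := feF_ne C
  have hp : p ≠ 0 := by
    rintro rfl
    have : q ^ 2 * C.F = 0 := by rw [← h]; simp
    rcases mul_eq_zero.1 this with h1 | h1
    · exact hq (by simpa using h1)
    · exact hF h1
  obtain ⟨a, ha⟩ := IsAlgClosed.exists_root C.F (by
    intro hd
    exact C.pos (natDegree_eq_of_degree_eq_some hd))
  have h1 : rootMultiplicity a C.F ≤ 1 := rootMultiplicity_le_one_of_separable C.sep a
  have h2 : 0 < rootMultiplicity a C.F := (rootMultiplicity_pos hF).2 ha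
  have h3 : rootMultiplicity a (p ^ 2) = rootMultiplicity a (q ^ 2 * C.F) := by rw [h]
  have hp2 : p * p ≠ 0 := mul_ne_zero hp hp
  have hq2 : q * q ≠ 0 := mul_ne_zero hq hq
  rw [pow_two, pow_two, rootMultiplicity_mul hp2, rootMultiplicity_mul (mul_ne_zero hq2 hF),
    rootMultiplicity_mul hq2] at h3
  omega

theorem fePol_mul (C : Chart K L) (p q r s : K[X]) :
    fePol C p q * fePol C r s = fePol C (p * r + q * s * C.F) (p * s + q * r) := by
  have h := C.eq
  simp only [fePol, map_add, map_mul]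
  linear_combination (aeval C.v q * aeval C.v s) * h

theorem fePol_eq_zero (C : Chart K L) {p q : K[X]} (h : fePol C p q = 0) : p = 0 ∧ q = 0 := by
  have h1 : fePol C p q * fePol C p (-q) = aeval C.v (p ^ 2 - q ^ 2 * C.F) := by
    rw [fePol_mul]
    simp only [fePol, map_add, map_mul, map_neg, map_sub, map_pow]
    ring
  rw [h, zero_mul] at h1
  have h2 : p ^ 2 - q ^ 2 * C.F = 0 := (transcendental_iff.1 C.trans) _ h1.symm
  have hq : q = 0 := fe_sq C (sub_eq_zero.1 h2)
  subst hq
  simp only [ne_eq, OfNat.ofNat_ne_zero, not_false_eq_true, zero_pow, zero_mul, sub_zero] at h2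
  exact ⟨by simpa using h2, rfl⟩

theorem fePol_inj (C : Chart K L) {p q r s : K[X]} (h : fePol C p q = fePol C r s) :
    p = r ∧ q = s := by
  have : fePol C (p - r) (q - s) = 0 := by
    simp only [fePol, map_sub] at h ⊢
    linear_combination h
  obtain ⟨h1, h2⟩ := fePol_eq_zero C this
  exact ⟨sub_eq_zero.1 h1, sub_eq_zero.1 h2⟩

/-- Every function is `(p(v) + q(v) y) / r(v)`. -/
theorem fe_rep (C : Chart K L) (f : L) : ∃ p q r : K[X], r ≠ 0 ∧
    f * aeval C.v r = fePol C p q := by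
  have hf : f ∈ IntermediateField.adjoin K {C.v, C.y} := by rw [C.gen]; trivial
  induction hf using IntermediateField.adjoin_induction with
  | mem x hx =>
    rcases hx with rfl | rfl
    · exact ⟨X, 0, 1, one_ne_zero, by simp [fePol]⟩
    · exact ⟨0, 1, 1, one_ne_zero, by simp [fePol]⟩
  | algebraMap x => exact ⟨Polynomial.C x, 0, 1, one_ne_zero, by simp [fePol]⟩
  | add x y _ _ hx hy =>
    obtain ⟨p, q, r, hr, h⟩ := hx
    obtain ⟨p', q', r', hr', h'⟩ := hy
    refine ⟨p * r' + p' * r, q * r' + q' * r, r * r', mul_ne_zero hr hr', ?_⟩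
    simp only [fePol, map_add, map_mul] at h h' ⊢
    linear_combination (aeval C.v r') * h + (aeval C.v r) * h'
  | inv x _ hx =>
    obtain ⟨p, q, r, hr, h⟩ := hx
    by_cases hx0 : x = 0
    · subst hx0
      exact ⟨0, 0, 1, one_ne_zero, by simp [fePol]⟩
    · have hN : p ^ 2 - q ^ 2 * C.F ≠ 0 := by
        intro h0
        have hq : q = 0 := fe_sq C (sub_eq_zero.1 h0)
        subst hq
        have hp : p = 0 := by simpa using h0
        subst hp
        have : x * aeval C.v r = 0 := by rw [h]; simp [fePol]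
        rcases mul_eq_zero.1 this with h1 | h1
        · exact hx0 h1
        · exact feAeval_ne C hr h1
      refine ⟨p * r, -(q * r), p ^ 2 - q ^ 2 * C.F, hN, ?_⟩
      have h1 : fePol C p q * fePol C p (-q) = aeval C.v (p ^ 2 - q ^ 2 * C.F) := by
        rw [fePol_mul]
        simp only [fePol, map_add, map_mul, map_neg, map_sub, map_pow]
        ring
      rw [← h1, ← h]
      field_simp
      simp only [fePol, map_mul, map_neg]
      ring
  | mul x y _ _ hx hy =>
    obtain ⟨p, q, r, hr, h⟩ := hx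
    obtain ⟨p', q', r', hr', h'⟩ := hy
    refine ⟨p * p' + q * q' * C.F, p * q' + q * p', r * r', mul_ne_zero hr hr', ?_⟩
    rw [← fePol_mul, ← h, ← h', map_mul]
    ring

theorem Chart.y_ne_zero (C : Chart K L) : C.y ≠ 0 := by
  intro h
  have h1 := C.eq
  rw [h] at h1
  exact feAeval_ne C (feF_ne C) (by rw [← h1]; simp)

theorem Chart.trdeg (C : Chart K L) : Algebra.trdeg K L = 1 := by
  apply le_antisymm
  · have halg : Algebra.IsAlgebraic (Algebra.adjoin K ({C.v} : Set L)) L := by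
      refine ⟨fun f => ?_⟩
      obtain ⟨p, q, r, hr, h⟩ := fe_rep C f
      have hv : ∀ s : K[X], IsAlgebraic (Algebra.adjoin K ({C.v} : Set L)) (aeval C.v s) := by
        intro s
        have : aeval C.v s ∈ Algebra.adjoin K ({C.v} : Set L) :=
          Algebra.adjoin_singleton_eq_range_aeval K C.v ▸ ⟨s, rfl⟩
        exact isAlgebraic_algebraMap (⟨_, this⟩ : Algebra.adjoin K ({C.v} : Set L))
      have hy : IsAlgebraic (Algebra.adjoin K ({C.v} : Set L)) C.y := by
        apply IsAlgebraic.of_pow (n := 2) (by norm_num)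
        rw [C.eq]
        exact hv _
      have hf : f = (aeval C.v p + aeval C.v q * C.y) * (aeval C.v r)⁻¹ := by
        rw [eq_mul_inv_iff_mul_eq₀ (feAeval_ne C hr)]
        exact h
      rw [hf]
      exact ((hv p).add ((hv q).mul hy)).mul (hv r).inv
    have := Algebra.IsAlgebraic.trdeg_le_cardinalMk (R := K) (A := L) ({C.v} : Set L)
    simpa using this
  · have h := (algebraicIndependent_unique_type_iff (R := K) (x := fun _ : Unit => C.v)).2 C.trans
    have := h.cardinalMk_le_trdeg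
    simpa using this


/-! ### Values at a place -/

theorem fe_nonunits_iff (P : Place K L) {x : L} : x ∈ P.O.nonunits ↔ P.O.valuation x < 1 :=
  P.O.mem_nonunits_iff

theorem fe_mem_iff (P : Place K L) {x : L} : x ∈ P.O ↔ P.O.valuation x ≤ 1 :=
  (P.O.valuation_le_one_iff x).symm

theorem fe_nonunits_mem (P : Place K L) {x : L} (h : x ∈ P.O.nonunits) : x ∈ P.O :=
  P.O.nonunits_subset h

theorem fe_nonunits_add (P : Place K L) {x y : L} (hx : x ∈ P.O.nonunits)
    (hy : y ∈ P.O.nonunits) : x + y ∈ P.O.nonunits := by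
  rw [fe_nonunits_iff] at *
  exact Valuation.map_add_lt _ hx hy

theorem fe_nonunits_mul (P : Place K L) {x y : L} (hx : x ∈ P.O.nonunits)
    (hy : y ∈ P.O) : x * y ∈ P.O.nonunits := by
  rw [fe_nonunits_iff] at *
  rw [fe_mem_iff] at hy
  rw [map_mul]
  exact mul_lt_one_of_lt_of_le hx hy

theorem fe_val_const (P : Place K L) {c : K} (hc : c ≠ 0) :
    P.O.valuation (algebraMap K L c) = 1 := by
  apply le_antisymm
  · exact (P.O.valuation_le_one_iff _).2 (P.base c)
  · have h := (P.O.valuation_le_one_iff _).2 (P.base c⁻¹)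
    have h1 : algebraMap K L c * algebraMap K L c⁻¹ = 1 := by
      rw [← map_mul, mul_inv_cancel₀ hc, map_one]
    have h2 : P.O.valuation (algebraMap K L c) * P.O.valuation (algebraMap K L c⁻¹) = 1 := by
      rw [← map_mul, h1, map_one]
    by_contra h3
    rw [not_le] at h3
    have := mul_lt_one_of_lt_of_le h3 h
    rw [h2] at this
    exact lt_irrefl _ this

theorem fe_const_nonunit (P : Place K L) {c : K} (h : algebraMap K L c ∈ P.O.nonunits) :
    c = 0 := by
  by_contra hc
  rw [fe_nonunits_iff, fe_val_const P hc] at h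
  exact lt_irrefl _ h

theorem fe_aeval_mem (P : Place K L) {x : L} (hx : x ∈ P.O) (p : K[X]) : aeval x p ∈ P.O := by
  induction p using Polynomial.induction_on with
  | C a => rw [aeval_C]; exact P.base a
  | add p q hp hq => rw [map_add]; exact add_mem hp hq
  | monomial n a _ =>
    rw [map_mul, aeval_C, map_pow, aeval_X]
    exact mul_mem (P.base a) (pow_mem hx _)

theorem fe_v_mem {C : Chart K L} {P : Place K L} {a b : K} (h : C.At P a b) : C.v ∈ P.O := by
  have := add_mem (fe_nonunits_mem P h.1) (P.base a)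
  simpa using this

theorem fe_y_mem {C : Chart K L} {P : Place K L} {a b : K} (h : C.At P a b) : C.y ∈ P.O := by
  have := add_mem (fe_nonunits_mem P h.2) (P.base b)
  simpa using this

theorem fe_aeval_val {C : Chart K L} {P : Place K L} {a b : K} (h : C.At P a b) (p : K[X]) :
    aeval C.v p - algebraMap K L (p.eval a) ∈ P.O.nonunits := by
  obtain ⟨g, hg⟩ := X_sub_C_dvd_sub_C_eval (a := a) (p := p)
  have h1 : aeval C.v p - algebraMap K L (p.eval a) = (C.v - algebraMap K L a) * aeval C.v g := by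
    have := congrArg (aeval C.v) hg
    simpa using this
  rw [h1]
  exact fe_nonunits_mul P h.1 (fe_aeval_mem P (fe_v_mem h) g)

theorem fe_pol_val {C : Chart K L} {P : Place K L} {a b : K} (h : C.At P a b) (p q : K[X]) :
    fePol C p q - algebraMap K L (p.eval a + q.eval a * b) ∈ P.O.nonunits := by
  have e : fePol C p q - algebraMap K L (p.eval a + q.eval a * b) =
      (aeval C.v p - algebraMap K L (p.eval a)) +
        ((aeval C.v q - algebraMap K L (q.eval a)) * C.y +
          (C.y - algebraMap K L b) * algebraMap K L (q.eval a)) := by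
    simp only [fePol, map_add, map_mul]
    ring
  rw [e]
  exact fe_nonunits_add P (fe_aeval_val h p) (fe_nonunits_add P
    (fe_nonunits_mul P (fe_aeval_val h q) (fe_y_mem h)) (fe_nonunits_mul P h.2 (P.base _)))

theorem fe_pol_mem {C : Chart K L} {P : Place K L} {a b : K} (h : C.At P a b) (p q : K[X]) :
    fePol C p q ∈ P.O :=
  add_mem (fe_aeval_mem P (fe_v_mem h) p) (mul_mem (fe_aeval_mem P (fe_v_mem h) q) (fe_y_mem h))

theorem Chart.At.eq {C : Chart K L} {P : Place K L} {a b : K} (h : C.At P a b) :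
    b ^ 2 = C.F.eval a := by
  have h1 : algebraMap K L (C.F.eval a - b ^ 2) = -(aeval C.v C.F - algebraMap K L (C.F.eval a)) +
      (C.y - algebraMap K L b) * (C.y + algebraMap K L b) := by
    have := C.eq
    simp only [map_sub, map_pow]
    linear_combination -this
  have h2 : algebraMap K L (C.F.eval a - b ^ 2) ∈ P.O.nonunits := by
    rw [h1]
    refine fe_nonunits_add P ?_ (fe_nonunits_mul P h.2 (add_mem (fe_y_mem h) (P.base b)))
    rw [fe_nonunits_iff, Valuation.map_neg, ← fe_nonunits_iff]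
    exact fe_aeval_val h C.F
  have h3 := fe_const_nonunit P h2
  linear_combination -h3

/-! ### Polynomial functions not vanishing at `(a, b)` -/

/-- `x` is a polynomial function which does not vanish at `(a, b)`. -/
def FeNV (C : Chart K L) (a b : K) (x : L) : Prop :=
  ∃ p q : K[X], p.eval a + q.eval a * b ≠ 0 ∧ x = fePol C p q

theorem FeNV.ne_zero {C : Chart K L} {a b : K} {x : L} (h : FeNV C a b x) : x ≠ 0 := by
  obtain ⟨p, q, hpq, rfl⟩ := h
  intro h0
  obtain ⟨rfl, rfl⟩ := fePol_eq_zero C h0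
  simp at hpq

theorem FeNV.one (C : Chart K L) (a b : K) : FeNV C a b 1 :=
  ⟨1, 0, by simp, by simp [fePol]⟩

theorem FeNV.aeval (C : Chart K L) {a b : K} {r : K[X]} (hr : r.eval a ≠ 0) :
    FeNV C a b (aeval C.v r) :=
  ⟨r, 0, by simpa using hr, by simp [fePol]⟩

theorem FeNV.mul {C : Chart K L} {a b : K} (hab : b ^ 2 = C.F.eval a) {x y : L}
    (hx : FeNV C a b x) (hy : FeNV C a b y) : FeNV C a b (x * y) := by
  obtain ⟨p, q, hpq, rfl⟩ := hx
  obtain ⟨r, s, hrs, rfl⟩ := hy
  refine ⟨_, _, ?_, fePol_mul C p q r s⟩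
  have : (p * r + q * s * C.F).eval a + (p * s + q * r).eval a * b =
      (p.eval a + q.eval a * b) * (r.eval a + s.eval a * b) := by
    simp only [eval_add, eval_mul]
    linear_combination (-(q.eval a * s.eval a)) * hab
  rw [this]
  exact mul_ne_zero hpq hrs

theorem FeNV.val {C : Chart K L} {P : Place K L} {a b : K} (h : C.At P a b) {x : L}
    (hx : FeNV C a b x) : P.O.valuation x = 1 := by
  obtain ⟨p, q, hpq, rfl⟩ := hx
  have h1 := (fe_nonunits_iff P).1 (fe_pol_val h p q)
  have h2 := fe_val_const P hpq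
  have h3 : fePol C p q = (fePol C p q - algebraMap K L (p.eval a + q.eval a * b)) +
      algebraMap K L (p.eval a + q.eval a * b) := by ring
  rw [h3, Valuation.map_add_eq_of_lt_right _ (by rw [h2]; exact h1), h2]

/-- `x` is `π ^ n` times a quotient of two polynomial functions not vanishing at `(a, b)`. -/
def FeStr (C : Chart K L) (a b : K) (π x : L) : Prop :=
  ∃ (n : ℤ) (g h : L), FeNV C a b g ∧ FeNV C a b h ∧ x * h = π ^ n * g

theorem FeStr.of_nv {C : Chart K L} {a b : K} {π x : L} (h : FeNV C a b x) :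
    FeStr C a b π x := ⟨0, x, 1, h, FeNV.one C a b, by simp⟩

theorem FeStr.pi (C : Chart K L) (a b : K) (π : L) : FeStr C a b π π :=
  ⟨1, 1, 1, FeNV.one C a b, FeNV.one C a b, by simp⟩

theorem FeStr.mul {C : Chart K L} {a b : K} (hab : b ^ 2 = C.F.eval a) {π x y : L}
    (hπ : π ≠ 0) (hx : FeStr C a b π x) (hy : FeStr C a b π y) : FeStr C a b π (x * y) := by
  obtain ⟨n, g, h, hg, hh, e⟩ := hx
  obtain ⟨n', g', h', hg', hh', e'⟩ := hy
  refine ⟨n + n', g * g', h * h', hg.mul hab hg', hh.mul hab hh', ?_⟩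
  rw [zpow_add₀ hπ]
  linear_combination (y * h') * e + (π ^ n * g) * e'

theorem FeStr.inv {C : Chart K L} {a b : K} {π x : L} (hπ : π ≠ 0) (hx0 : x ≠ 0)
    (hx : FeStr C a b π x) : FeStr C a b π x⁻¹ := by
  obtain ⟨n, g, h, hg, hh, e⟩ := hx
  refine ⟨-n, h, g, hh, hg, ?_⟩
  have hz : π ^ n ≠ 0 := zpow_ne_zero _ hπ
  rw [zpow_neg]
  field_simp
  linear_combination -e

theorem FeStr.pow {C : Chart K L} {a b : K} (hab : b ^ 2 = C.F.eval a) {π x : L}
    (hπ : π ≠ 0) (hx : FeStr C a b π x) (k : ℕ) : FeStr C a b π (x ^ k) := by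
  induction k with
  | zero => rw [pow_zero]; exact FeStr.of_nv (FeNV.one C a b)
  | succ k ih => rw [pow_succ]; exact ih.mul hab hπ hx

theorem fe_common (a : K) : ∀ (N : ℕ) (p q : K[X]), p.natDegree + q.natDegree ≤ N →
    ¬ (p = 0 ∧ q = 0) → ∃ (k : ℕ) (p1 q1 : K[X]), p = (X - Polynomial.C a) ^ k * p1 ∧
      q = (X - Polynomial.C a) ^ k * q1 ∧ ¬ (p1.eval a = 0 ∧ q1.eval a = 0) := by
  intro N
  induction N with
  | zero =>
    intro p q hN hpq
    refine ⟨0, p, q, by simp, by simp, ?_⟩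
    rintro ⟨hp, hq⟩
    have hp0 : p.natDegree = 0 := by omega
    have hq0 : q.natDegree = 0 := by omega
    rw [natDegree_eq_zero] at hp0 hq0
    obtain ⟨c, rfl⟩ := hp0
    obtain ⟨d, rfl⟩ := hq0
    simp only [eval_C] at hp hq
    exact hpq ⟨by rw [hp, map_zero], by rw [hq, map_zero]⟩
  | succ N ih =>
    intro p q hN hpq
    by_cases h : p.eval a = 0 ∧ q.eval a = 0
    · obtain ⟨p', hp'⟩ := dvd_iff_isRoot.2 h.1
      obtain ⟨q', hq'⟩ := dvd_iff_isRoot.2 h.2
      have hne : ¬ (p' = 0 ∧ q' = 0) := by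
        rintro ⟨rfl, rfl⟩
        exact hpq ⟨by rw [hp', mul_zero], by rw [hq', mul_zero]⟩
      have hdeg : ∀ r : K[X], r ≠ 0 → ((X - Polynomial.C a) * r).natDegree = r.natDegree + 1 := by
        intro r hr
        rw [natDegree_mul (X_sub_C_ne_zero a) hr, natDegree_X_sub_C]
        ring
      have hdeg0 : ∀ r : K[X], r.natDegree ≤ ((X - Polynomial.C a) * r).natDegree := by
        intro r
        by_cases hr : r = 0
        · simp [hr]
        · rw [hdeg r hr]; omega
      have hlt : p'.natDegree + q'.natDegree ≤ N := by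
        have h1 := hdeg0 p'
        have h2 := hdeg0 q'
        rw [hp', hq'] at hN
        by_cases hp0 : p' = 0
        · have hq0 : q' ≠ 0 := fun h0 => hne ⟨hp0, h0⟩
          have := hdeg q' hq0
          omega
        · have := hdeg p' hp0
          omega
      obtain ⟨k, p1, q1, e1, e2, e3⟩ := ih p' q' hlt hne
      refine ⟨k + 1, p1, q1, ?_, ?_, e3⟩
      · rw [hp', e1]; ring
      · rw [hq', e2]; ring
    · exact ⟨0, p, q, by simp, by simp, h⟩

theorem fe_str_aeval {C : Chart K L} {a b : K} (hab : b ^ 2 = C.F.eval a) {π : L}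
    (hπ : π ≠ 0) (hv : FeStr C a b π (C.v - algebraMap K L a)) {r : K[X]} (hr : r ≠ 0) :
    FeStr C a b π (aeval C.v r) := by
  obtain ⟨k, r1, q1, e1, e2, e3⟩ := fe_common a _ r 0 le_rfl (fun h => hr h.1)
  have hq1 : q1 = 0 := by
    rcases mul_eq_zero.1 e2.symm with h | h
    · exact absurd h (pow_ne_zero _ (X_sub_C_ne_zero a))
    · exact h
  have hr1 : r1.eval a ≠ 0 := fun h => e3 ⟨h, by rw [hq1]; simp⟩
  have : aeval C.v r = (C.v - algebraMap K L a) ^ k * aeval C.v r1 := by
    rw [e1]; simp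
  rw [this]
  exact (hv.pow hab hπ k).mul hab hπ (FeStr.of_nv (FeNV.aeval C hr1))

theorem fe_v_ne (C : Chart K L) (a : K) : C.v - algebraMap K L a ≠ 0 := by
  have := feAeval_ne C (X_sub_C_ne_zero a)
  simpa using this

theorem fe_norm (C : Chart K L) (p q : K[X]) :
    fePol C p q * fePol C p (-q) = aeval C.v (p ^ 2 - q ^ 2 * C.F) := by
  rw [fePol_mul]
  simp only [fePol, map_add, map_mul, map_neg, map_sub, map_pow]
  ring

theorem fe_reduce {C : Chart K L} {a b : K} (hab : b ^ 2 = C.F.eval a) {π : L}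
    (hπ : π ≠ 0) (hv : FeStr C a b π (C.v - algebraMap K L a))
    (hpol : ∀ p q : K[X], ¬ (p.eval a = 0 ∧ q.eval a = 0) → FeStr C a b π (fePol C p q))
    {f : L} (hf : f ≠ 0) : FeStr C a b π f := by
  obtain ⟨p, q, r, hr, h⟩ := fe_rep C f
  have hr0 := feAeval_ne C hr
  have hpq : ¬ (p = 0 ∧ q = 0) := by
    rintro ⟨rfl, rfl⟩
    have : f * aeval C.v r = 0 := by rw [h]; simp [fePol]
    rcases mul_eq_zero.1 this with h1 | h1
    · exact hf h1
    · exact hr0 h1
  obtain ⟨k, p1, q1, e1, e2, e3⟩ := fe_common a _ p q le_rfl hpq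
  have h2 : f = ((C.v - algebraMap K L a) ^ k * fePol C p1 q1) * (aeval C.v r)⁻¹ := by
    rw [eq_mul_inv_iff_mul_eq₀ hr0, h, e1, e2]
    simp only [fePol, map_mul, map_pow, map_sub, aeval_X, aeval_C]
    ring
  rw [h2]
  exact ((hv.pow hab hπ k).mul hab hπ (hpol _ _ e3)).mul hab hπ
    ((fe_str_aeval hab hπ hv hr).inv hπ hr0)

theorem fe_str_ne {C : Chart K L} {a b : K} (hab : b ^ 2 = C.F.eval a) (hb : b ≠ 0) {f : L}
    (hf : f ≠ 0) : FeStr C a b (C.v - algebraMap K L a) f := by
  have hπ := fe_v_ne C a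
  have hv := FeStr.pi C a b (C.v - algebraMap K L a)
  refine fe_reduce hab hπ hv ?_ hf
  intro p q hpq
  by_cases h1 : p.eval a + q.eval a * b = 0
  · have h2 : p.eval a + (-q).eval a * b ≠ 0 := by
      intro h2
      rw [eval_neg] at h2
      have hp : p.eval a = 0 := by
        have : 2 * p.eval a = 0 := by linear_combination h1 + h2
        simpa using this
      have hq : q.eval a = 0 := by
        have : q.eval a * b = 0 := by linear_combination h1 - hp
        rcases mul_eq_zero.1 this with h | h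
        · exact h
        · exact absurd h hb
      exact hpq ⟨hp, hq⟩
    have hnv : FeNV C a b (fePol C p (-q)) := ⟨p, -q, h2, rfl⟩
    have hN0 : p ^ 2 - q ^ 2 * C.F ≠ 0 := by
      intro h0
      have hq : q = 0 := fe_sq C (sub_eq_zero.1 h0)
      subst hq
      have hp : p = 0 := by simpa using h0
      subst hp
      exact hpq (by simp)
    have e : fePol C p q = aeval C.v (p ^ 2 - q ^ 2 * C.F) * (fePol C p (-q))⁻¹ := by
      rw [eq_mul_inv_iff_mul_eq₀ hnv.ne_zero, fe_norm]
    rw [e]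
    exact (fe_str_aeval hab hπ hv hN0).mul hab hπ ((FeStr.of_nv hnv).inv hπ hnv.ne_zero)
  · exact FeStr.of_nv ⟨p, q, h1, rfl⟩

theorem fe_F1 (C : Chart K L) {a : K} (ha : C.F.eval a = 0) :
    ∃ F1 : K[X], C.F = (X - Polynomial.C a) * F1 ∧ F1.eval a ≠ 0 := by
  obtain ⟨F1, hF1⟩ := dvd_iff_isRoot.2 ha
  refine ⟨F1, hF1, fun h => ?_⟩
  obtain ⟨F2, hF2⟩ := dvd_iff_isRoot.2 h
  have hsq := C.sep.squarefree (X - Polynomial.C a) ⟨F2, by rw [hF1, hF2]; ring⟩
  exact not_isUnit_X_sub_C a hsq

theorem fe_str_eq {C : Chart K L} {a : K} (ha : C.F.eval a = 0) {f : L}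
    (hf : f ≠ 0) : FeStr C a 0 C.y f := by
  have hab : (0 : K) ^ 2 = C.F.eval a := by rw [ha]; simp
  have hπ := C.y_ne_zero
  obtain ⟨F1, hF1, hF1a⟩ := fe_F1 C ha
  have hy2 : (C.v - algebraMap K L a) * aeval C.v F1 = C.y ^ 2 := by
    rw [C.eq]
    conv_rhs => rw [hF1]
    simp
  have hv : FeStr C a 0 C.y (C.v - algebraMap K L a) :=
    ⟨2, 1, aeval C.v F1, FeNV.one C a 0, FeNV.aeval C hF1a, by rw [hy2]; norm_cast; simp⟩
  refine fe_reduce hab hπ hv ?_ hf
  intro p q hpq
  by_cases h1 : p.eval a = 0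
  · have hq : q.eval a ≠ 0 := fun h => hpq ⟨h1, h⟩
    obtain ⟨p2, hp2⟩ := dvd_iff_isRoot.2 h1
    refine ⟨1, fePol C (q * F1) p2, aeval C.v F1, ⟨q * F1, p2, ?_, rfl⟩, FeNV.aeval C hF1a, ?_⟩
    · simpa using ⟨hq, hF1a⟩
    · rw [hp2]
      simp only [fePol, map_mul, map_sub, aeval_X, aeval_C, zpow_one]
      linear_combination (aeval C.v p2) * hy2
  · exact FeStr.of_nv ⟨p, q, by simpa using h1, rfl⟩

/-! ### Local parameters -/

theorem fe_val_str {C : Chart K L} {P : Place K L} {a b : K} (h : C.At P a b) {π f : L} {n : ℤ}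
    {g k : L} (hg : FeNV C a b g) (hk : FeNV C a b k) (e : f * k = π ^ n * g) :
    P.O.valuation f = P.O.valuation π ^ n := by
  have := congrArg P.O.valuation e
  rw [map_mul, map_mul, hg.val h, hk.val h, mul_one, mul_one, map_zpow₀] at this
  exact this

theorem fe_neg_val {P : Place K L} {π : L} (hπ0 : π ≠ 0) (hπ : π ∈ P.O.nonunits) {n : ℤ}
    (hn : n < 0) : 1 < P.O.valuation π ^ n := by
  obtain ⟨m, rfl⟩ : ∃ m : ℕ, n = -(m : ℤ) := ⟨(-n).toNat, by omega⟩
  have hm : m ≠ 0 := by omega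
  have h0 : P.O.valuation π ≠ 0 := (Valuation.ne_zero_iff _).2 hπ0
  rw [zpow_neg, zpow_natCast]
  have h1 : P.O.valuation π ^ m < 1 := pow_lt_one₀ zero_le ((fe_nonunits_iff P).1 hπ) hm
  exact (one_lt_inv₀ (zero_lt_iff.2 (pow_ne_zero _ h0))).2 h1

theorem fe_param {C : Chart K L} {P : Place K L} {a b : K} (h : C.At P a b) {π : L}
    (hπ0 : π ≠ 0) (hπ : π ∈ P.O.nonunits) (hs : ∀ f : L, f ≠ 0 → FeStr C a b π f) :
    P.IsParam π := by
  refine ⟨hπ0, hπ, fun f hf => ?_⟩
  by_cases hf0 : f = 0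
  · rw [hf0, zero_div]; exact zero_mem _
  · obtain ⟨n, g, k, hg, hk, e⟩ := hs f hf0
    have hv := fe_val_str h hg hk e
    have h0 : P.O.valuation π ≠ 0 := (Valuation.ne_zero_iff _).2 hπ0
    have hn : 1 ≤ n := by
      by_contra hn
      have hf1 := (fe_nonunits_iff P).1 hf
      rw [hv] at hf1
      rcases lt_or_eq_of_le (show n ≤ 0 by omega) with hn' | hn'
      · exact lt_asymm hf1 (fe_neg_val hπ0 hπ hn')
      · rw [hn', zpow_zero] at hf1
        exact lt_irrefl _ hf1
    rw [fe_mem_iff, map_div₀, hv, div_eq_mul_inv, ← zpow_sub_one₀ h0]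
    obtain ⟨m, hm⟩ : ∃ m : ℕ, n - 1 = (m : ℤ) := ⟨(n - 1).toNat, by omega⟩
    rw [hm, zpow_natCast]
    exact pow_le_one₀ zero_le ((fe_nonunits_iff P).1 hπ).le

theorem Chart.param_of_ne {C : Chart K L} {P : Place K L} {a b : K} (h : C.At P a b)
    (hb : b ≠ 0) : P.IsParam (C.v - algebraMap K L a) :=
  fe_param h (fe_v_ne C a) h.1 fun _ hf => fe_str_ne h.eq hb hf

theorem fe_y_nonunit {C : Chart K L} {P : Place K L} {a : K} (h : C.At P a 0) :
    C.y ∈ P.O.nonunits := by
  have := h.2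
  simpa using this

theorem Chart.param_of_eq {C : Chart K L} {P : Place K L} {a : K} (h : C.At P a 0) :
    P.IsParam C.y :=
  fe_param h C.y_ne_zero (fe_y_nonunit h) fun _ hf => fe_str_eq (by rw [← h.eq]; simp) hf

theorem fe_pol_pow (C : Chart K L) (p q : K[X]) (n : ℕ) : ∃ r s : K[X],
    fePol C p q ^ n = fePol C r s := by
  induction n with
  | zero => exact ⟨1, 0, by simp [fePol]⟩
  | succ n ih =>
    obtain ⟨r, s, e⟩ := ih
    exact ⟨_, _, by rw [pow_succ, e, fePol_mul]⟩

theorem fe_mem_aux {C : Chart K L} {P : Place K L} {a b : K} (h : C.At P a b) {p q : K[X]}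
    (hπ0 : fePol C p q ≠ 0) (hπ : fePol C p q ∈ P.O.nonunits)
    (hs : ∀ f : L, f ≠ 0 → FeStr C a b (fePol C p q) f) {f : L} (hf : f ∈ P.O) :
    ∃ p q r s : K[X], r.eval a + s.eval a * b ≠ 0 ∧
      f * (aeval C.v r + aeval C.v s * C.y) = aeval C.v p + aeval C.v q * C.y := by
  by_cases hf0 : f = 0
  · exact ⟨0, 0, 1, 0, by simp, by simp [hf0]⟩
  · obtain ⟨n, g, k, hg, hk, e⟩ := hs f hf0
    have hv := fe_val_str h hg hk e
    have hn : 0 ≤ n := by
      by_contra hn
      have h1 := fe_neg_val hπ0 hπ (show n < 0 by omega)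
      rw [← hv] at h1
      exact absurd ((fe_mem_iff P).1 hf) (not_le.2 h1)
    obtain ⟨m, rfl⟩ : ∃ m : ℕ, n = (m : ℤ) := ⟨n.toNat, by omega⟩
    obtain ⟨g1, g2, hg12, rfl⟩ := hg
    obtain ⟨k1, k2, hk12, rfl⟩ := hk
    obtain ⟨r, s, hrs⟩ := fe_pol_pow C p q m
    rw [zpow_natCast, hrs, fePol_mul] at e
    exact ⟨_, _, k1, k2, hk12, e⟩

/-- the regular functions are the quotients of polynomials with nonvanishing denominator -/
theorem Chart.mem_iff {C : Chart K L} {P : Place K L} {a b : K} (h : C.At P a b) (f : L) :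
    f ∈ P.O ↔ ∃ p q r s : K[X], r.eval a + s.eval a * b ≠ 0 ∧
      f * (aeval C.v r + aeval C.v s * C.y) = aeval C.v p + aeval C.v q * C.y := by
  constructor
  · intro hf
    by_cases hb : b = 0
    · subst hb
      have e : C.y = fePol C 0 1 := by simp [fePol]
      refine fe_mem_aux h (p := 0) (q := 1) ?_ ?_ ?_ hf
      · rw [← e]; exact C.y_ne_zero
      · rw [← e]; exact fe_y_nonunit h
      · rw [← e]; exact fun _ hf => fe_str_eq (by rw [← h.eq]; simp) hf
    · have e : C.v - algebraMap K L a = fePol C (X - Polynomial.C a) 0 := by simp [fePol]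
      refine fe_mem_aux h (p := X - Polynomial.C a) (q := 0) ?_ ?_ ?_ hf
      · rw [← e]; exact fe_v_ne C a
      · rw [← e]; exact h.1
      · rw [← e]; exact fun _ hf => fe_str_ne h.eq hb hf
  · rintro ⟨p, q, r, s, hrs, e⟩
    have h1 : P.O.valuation (fePol C r s) = 1 := FeNV.val h ⟨r, s, hrs, rfl⟩
    have h2 := (fe_mem_iff P).1 (fe_pol_mem h p q)
    have h3 : P.O.valuation f = P.O.valuation (fePol C p q) := by
      have h4 : f * fePol C r s = fePol C p q := e
      rw [← h4, map_mul, h1, mul_one]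
    rw [fe_mem_iff, h3]
    exact h2

theorem Chart.at_unique {C : Chart K L} {P P' : Place K L} {a b : K} (h : C.At P a b)
    (h' : C.At P' a b) : P = P' := by
  have hO : P.O = P'.O := by
    apply ValuationSubring.ext
    intro f
    rw [C.mem_iff h, C.mem_iff h']
  cases P
  cases P'
  simp only at hO
  subst hO
  rfl

theorem Chart.exists_center (C : Chart K L) {P : Place K L} (h : C.v ∈ P.O) :
    ∃ a b : K, C.At P a b := by
  obtain ⟨a, ha⟩ := Place.exists_value C.trdeg P h
  have hy : C.y ∈ P.O := by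
    have h1 : C.y ^ 2 ∈ P.O := by rw [C.eq]; exact fe_aeval_mem P h _
    rw [fe_mem_iff, map_pow] at h1
    rw [fe_mem_iff]
    by_contra h2
    rw [not_le] at h2
    exact absurd h1 (not_le.2 (one_lt_pow₀ h2 (by norm_num)))
  obtain ⟨b, hb⟩ := Place.exists_value C.trdeg P hy
  exact ⟨a, b, ha, hb⟩

/-! ### Existence of the points -/

/-- The ring of polynomial functions. -/
noncomputable def feRing (C : Chart K L) : Subring L where
  carrier := {x | ∃ p q : K[X], x = fePol C p q}
  mul_mem' := by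
    rintro _ _ ⟨p, q, rfl⟩ ⟨r, s, rfl⟩
    exact ⟨_, _, fePol_mul C p q r s⟩
  one_mem' := ⟨1, 0, by simp [fePol]⟩
  add_mem' := by
    rintro _ _ ⟨p, q, rfl⟩ ⟨r, s, rfl⟩
    exact ⟨p + r, q + s, by simp only [fePol, map_add]; ring⟩
  zero_mem' := ⟨0, 0, by simp [fePol]⟩
  neg_mem' := by
    rintro _ ⟨p, q, rfl⟩
    exact ⟨-p, -q, by simp only [fePol, map_neg]; ring⟩

/-- The ideal of the point `(a, b)`. -/
noncomputable def feIdeal (C : Chart K L) {a b : K} (hab : b ^ 2 = C.F.eval a) :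
    Ideal (feRing C) where
  carrier := {x | ∃ p q : K[X], (x : L) = fePol C p q ∧ p.eval a + q.eval a * b = 0}
  add_mem' := by
    rintro ⟨x, hx⟩ ⟨y, hy⟩ ⟨p, q, h1, h2⟩ ⟨r, s, h3, h4⟩
    refine ⟨p + r, q + s, ?_, ?_⟩
    · simp only [Subring.coe_add, fePol, map_add] at h1 h3 ⊢
      rw [h1, h3]; ring
    · simp only [eval_add]
      linear_combination h2 + h4
  zero_mem' := ⟨0, 0, by simp [fePol], by simp⟩
  smul_mem' := by
    rintro ⟨x, p, q, hx⟩ ⟨y, hy⟩ ⟨r, s, h3, h4⟩
    refine ⟨p * r + q * s * C.F, p * s + q * r, ?_, ?_⟩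
    · simp only [smul_eq_mul, Subring.coe_mul] at h3 ⊢
      rw [hx, h3, fePol_mul]
    · simp only [eval_add, eval_mul]
      linear_combination (p.eval a + q.eval a * b) * h4 - (q.eval a * s.eval a) * hab

theorem Chart.exists_at (C : Chart K L) {a b : K} (h : b ^ 2 = C.F.eval a) :
    ∃ P : Place K L, C.At P a b := by
  have hI : feIdeal C h ≠ ⊤ := by
    intro htop
    have h1 : (1 : feRing C) ∈ feIdeal C h := by rw [htop]; trivial
    obtain ⟨p, q, h2, h3⟩ := h1
    have h4 : fePol C 1 0 = fePol C p q := by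
      rw [← h2]; simp [fePol]
    obtain ⟨h5, h6⟩ := fePol_inj C h4
    rw [← h5, ← h6] at h3
    simp at h3
  obtain ⟨B, hB, hB'⟩ := Ideal.image_subset_nonunits_valuationSubring (feIdeal C h) hI
  have hmem : ∀ p q : K[X], p.eval a + q.eval a * b = 0 → fePol C p q ∈ B.nonunits := by
    intro p q hpq
    exact hB' ⟨⟨fePol C p q, p, q, rfl⟩, ⟨p, q, rfl, hpq⟩, rfl⟩
  have e1 : C.v - algebraMap K L a = fePol C (X - Polynomial.C a) 0 := by simp [fePol]
  have e2 : C.y - algebraMap K L b = fePol C (-Polynomial.C b) 1 := by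
    simp [fePol]; ring
  have hv : C.v - algebraMap K L a ∈ B.nonunits := by
    rw [e1]; exact hmem _ _ (by simp)
  have hy : C.y - algebraMap K L b ∈ B.nonunits := by
    rw [e2]; exact hmem _ _ (by simp)
  refine ⟨⟨B, fun c => hB ⟨Polynomial.C c, 0, by simp [fePol]⟩, ?_⟩, hv, hy⟩
  rintro rfl
  rw [ValuationSubring.mem_nonunits_iff_or] at hv
  rcases hv with h0 | h0
  · exact fe_v_ne C a h0
  · exact h0 (ValuationSubring.mem_top _)

/-- `dv = 2 y / F'(v) dy` -/
theorem Chart.D_v (C : Chart K L) :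
    D K L C.v = (2 * C.y / aeval C.v (derivative C.F)) • D K L C.y := by
  have hF' : derivative C.F ≠ 0 := fun h => C.pos (derivative_eq_zero.1 h)
  have h0 := feAeval_ne C hF'
  have h1 : D K L (C.y ^ 2) = (2 * C.y) • D K L C.y := by
    rw [pow_two, Derivation.leibniz, ← add_smul, two_mul]
  rw [C.eq, Derivation.map_aeval] at h1
  rw [div_eq_inv_mul, mul_smul, ← h1, smul_smul, inv_mul_cancel₀ h0, one_smul]

end Pool.Agent.Arith
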