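import Pool.Agent.Lib.MP_c0402d_ag.FE

/-!
# JOB FF: existence and uniqueness of hyperelliptic function fields; charts at infinity
-/

set_option autoImplicit false
set_option linter.style.haveILetI false
set_option linter.unusedSectionVars false

namespace Pool.Agent.Arith

open KaehlerDifferential Polynomial

variable {K L L' : Type} [Field K] [CharZero K] [IsAlgClosed K] [Field L] [Algebra K L] [Field L']
  [Algebra K L']

/-- e.g. `AdjoinRoot (X ^ 2 - C F)` over `RatFunc K`, or the fraction field of
`K[v][y] / (y² - F)` -/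
theorem exists_chart (F : K[X]) (hs : F.Separable) (hp : F.natDegree ≠ 0) :
    ∃ (M : Type) (_ : Field M) (_ : Algebra K M) (C : Chart K M), C.F = F := by
  let Ω : Type := AlgebraicClosure (FractionRing K[X])
  letI : Algebra K[X] Ω := inferInstance
  haveI : IsScalarTower K K[X] Ω := inferInstance
  have hinj : Function.Injective (algebraMap K[X] Ω) := by
    rw [IsScalarTower.algebraMap_eq K[X] (FractionRing K[X]) Ω]
    exact (algebraMap (FractionRing K[X]) Ω).injective.comp
      (IsFractionRing.injective K[X] (FractionRing K[X]))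
  let v : Ω := algebraMap K[X] Ω X
  have hv : ∀ p : K[X], aeval v p = algebraMap K[X] Ω p := by
    intro p
    change aeval (algebraMap K[X] Ω X) p = _
    rw [aeval_algebraMap_apply, aeval_X_left_apply]
  obtain ⟨y, hy⟩ := IsAlgClosed.exists_pow_nat_eq (aeval v F) (n := 2) (by norm_num)
  let M := IntermediateField.adjoin K ({v, y} : Set Ω)
  have hvM : v ∈ M := IntermediateField.subset_adjoin K _ (by simp)
  have hyM : y ∈ M := IntermediateField.subset_adjoin K _ (by simp)
  have hval : ∀ p : K[X], ((aeval (⟨v, hvM⟩ : M) p : M) : Ω) = aeval v p := by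
    intro p
    exact (Polynomial.aeval_algHom_apply M.val (⟨v, hvM⟩ : M) p).symm
  refine ⟨M, inferInstance, inferInstance,
    { v := ⟨v, hvM⟩
      y := ⟨y, hyM⟩
      F := F
      eq := ?_
      trans := ?_
      gen := ?_
      sep := hs
      pos := hp }, rfl⟩
  · apply Subtype.ext
    rw [hval]
    exact hy
  · rw [transcendental_iff_injective]
    intro p q hpq
    have := congrArg (Subtype.val) hpq
    rw [hval, hval, hv, hv] at this
    exact hinj this
  · apply IntermediateField.map_injective M.val
    rw [IntermediateField.adjoin_map, ← AlgHom.fieldRange_eq_map]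
    have : M.val '' {⟨v, hvM⟩, ⟨y, hyM⟩} = {v, y} := by
      rw [Set.image_pair]
      rfl
    rw [this, IntermediateField.fieldRange_val]

/-- `F` separable nonconstant is not the square of a rational function -/
private theorem FF_not_square (F : K[X]) (hs : F.Separable) (hp : F.natDegree ≠ 0) (p q : K[X])
    (hq : q ≠ 0) : p ^ 2 ≠ F * q ^ 2 := by
  intro h
  have hF : F ≠ 0 := by
    rintro rfl
    simp at hp
  obtain ⟨a, ha⟩ := IsAlgClosed.exists_root F (by
    intro h0
    exact hp (natDegree_eq_of_degree_eq_some h0))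
  have hFa : rootMultiplicity a F = 1 := by
    have h1 : 0 < rootMultiplicity a F := (rootMultiplicity_pos hF).mpr ha
    have h2 := rootMultiplicity_le_one_of_separable hs a
    omega
  have h0 : F * q ^ 2 ≠ 0 := mul_ne_zero hF (pow_ne_zero _ hq)
  have hq2 : q * q ≠ 0 := mul_ne_zero hq hq
  have h1 : rootMultiplicity a (F * q ^ 2) = 1 + 2 * rootMultiplicity a q := by
    rw [rootMultiplicity_mul h0, hFa, pow_two, rootMultiplicity_mul hq2]
    ring
  have hp2 : p * p ≠ 0 := by
    rw [← pow_two, h]
    exact h0
  have h2 : rootMultiplicity a (p ^ 2) = 2 * rootMultiplicity a p := by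
    rw [pow_two, rootMultiplicity_mul hp2]
    ring
  rw [h] at h2
  omega

/-- two charts with the same polynomial are isomorphic -/
theorem chart_iso (C : Chart K L) (C' : Chart K L') (h : C.F = C'.F) :
    ∃ e : L ≃ₐ[K] L', e C.v = C'.v ∧ e C.y = C'.y := by
  -- the base field
  have key : ∀ (N : Type) [Field N] [Algebra K N] (D : Chart K N),
      ∃ (_ : Algebra (FractionRing K[X]) N) (_ : IsScalarTower K (FractionRing K[X]) N)
        (pb : PowerBasis (FractionRing K[X]) N), pb.gen = D.y ∧
        algebraMap (FractionRing K[X]) N (algebraMap K[X] (FractionRing K[X]) X) = D.v ∧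
        minpoly (FractionRing K[X]) D.y =
          X ^ 2 - Polynomial.C (algebraMap K[X] (FractionRing K[X]) D.F) := by
    intro N _ _ D
    letI : Algebra K[X] N := (aeval D.v : K[X] →ₐ[K] N).toRingHom.toAlgebra
    have hmap : ∀ p : K[X], algebraMap K[X] N p = aeval D.v p := fun _ => rfl
    have hinj : Function.Injective (algebraMap K[X] N) :=
      transcendental_iff_injective.mp D.trans
    haveI : FaithfulSMul K[X] N := (faithfulSMul_iff_algebraMap_injective _ _).mpr hinj
    haveI : IsScalarTower K K[X] N := IsScalarTower.of_algebraMap_eq fun c => by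
      rw [hmap, Polynomial.algebraMap_eq, aeval_C]
    letI : Algebra (FractionRing K[X]) N := FractionRing.liftAlgebra K[X] N
    haveI : IsScalarTower K[X] (FractionRing K[X]) N :=
      FractionRing.isScalarTower_liftAlgebra K[X] N
    haveI : IsScalarTower K (FractionRing K[X]) N := IsScalarTower.of_algebraMap_eq fun c => by
      rw [IsScalarTower.algebraMap_apply K K[X] N, IsScalarTower.algebraMap_apply K K[X]
        (FractionRing K[X]), ← IsScalarTower.algebraMap_apply K[X] (FractionRing K[X]) N]
    have hF2 : ∀ p : K[X], algebraMap (FractionRing K[X]) N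
        (algebraMap K[X] (FractionRing K[X]) p) = aeval D.v p := fun p => by
      rw [← IsScalarTower.algebraMap_apply K[X] (FractionRing K[X]) N, hmap]
    have hmonic : (X ^ 2 - Polynomial.C (algebraMap K[X] (FractionRing K[X]) D.F)).Monic :=
      monic_X_pow_sub_C _ (by norm_num)
    have hroot : aeval D.y (X ^ 2 - Polynomial.C (algebraMap K[X] (FractionRing K[X]) D.F)) = 0 := by
      rw [map_sub, map_pow, aeval_X, aeval_C, hF2, D.eq, sub_self]
    have hint : IsIntegral (FractionRing K[X]) D.y := ⟨_, hmonic, hroot⟩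
    have hirr : Irreducible (X ^ 2 - Polynomial.C (algebraMap K[X] (FractionRing K[X]) D.F)) := by
      rw [Monic.irreducible_iff_roots_eq_zero_of_degree_le_three hmonic
        (by rw [natDegree_X_pow_sub_C]) (by rw [natDegree_X_pow_sub_C]; norm_num)]
      rw [Multiset.eq_zero_iff_forall_notMem]
      intro g hg
      rw [mem_roots hmonic.ne_zero, IsRoot.def, eval_sub, eval_pow, eval_X, eval_C,
        sub_eq_zero] at hg
      obtain ⟨p, q, hq, rfl⟩ := IsFractionRing.div_surjective (A := K[X]) g
      have hq0 : q ≠ 0 := nonZeroDivisors.ne_zero hq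
      have hq1 : algebraMap K[X] (FractionRing K[X]) q ≠ 0 := by
        rw [Ne, FaithfulSMul.algebraMap_eq_zero_iff]
        exact hq0
      rw [div_pow, div_eq_iff (pow_ne_zero _ hq1), ← map_pow, ← map_pow, ← map_mul] at hg
      exact FF_not_square D.F D.sep D.pos p q hq0 (IsFractionRing.injective K[X] _ hg)
    have hmin : minpoly (FractionRing K[X]) D.y =
        X ^ 2 - Polynomial.C (algebraMap K[X] (FractionRing K[X]) D.F) :=
      (minpoly.eq_of_irreducible_of_monic hirr hroot hmonic).symm
    have htop : Algebra.adjoin (FractionRing K[X]) {D.y} = ⊤ := by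
      rw [← IntermediateField.adjoin_simple_toSubalgebra_of_isAlgebraic hint.isAlgebraic]
      rw [← IntermediateField.top_toSubalgebra]
      congr 1
      rw [eq_top_iff]
      have h1 : IntermediateField.adjoin K {D.v, D.y} ≤
          (IntermediateField.adjoin (FractionRing K[X]) {D.y}).restrictScalars K := by
        rw [IntermediateField.adjoin_le_iff]
        rintro x (rfl | hx)
        · have h2 := hF2 X
          rw [aeval_X] at h2
          rw [SetLike.mem_coe, IntermediateField.mem_restrictScalars, ← h2]
          exact IntermediateField.algebraMap_mem _ _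
        · rw [Set.mem_singleton_iff] at hx
          rw [hx, SetLike.mem_coe, IntermediateField.mem_restrictScalars]
          exact IntermediateField.mem_adjoin_simple_self _ _
      rw [D.gen] at h1
      intro x _
      exact h1 (IntermediateField.mem_top (x := x))
    refine ⟨inferInstance, inferInstance, PowerBasis.ofAdjoinEqTop hint htop, ?_, ?_, hmin⟩
    · exact PowerBasis.ofAdjoinEqTop_gen hint htop
    · rw [hF2, aeval_X]
  obtain ⟨i1, i2, pb, h1, h2, h3⟩ := key L C
  obtain ⟨i1', i2', pb', h1', h2', h3'⟩ := key L' C'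
  have hm : minpoly (FractionRing K[X]) pb.gen = minpoly (FractionRing K[X]) pb'.gen := by
    rw [h1, h1', h3, h3', h]
  refine ⟨(pb.equivOfMinpoly pb' hm).restrictScalars K, ?_, ?_⟩
  · rw [AlgEquiv.restrictScalars_apply, ← h2, AlgEquiv.commutes, h2']
  · rw [AlgEquiv.restrictScalars_apply, ← h1, PowerBasis.equivOfMinpoly_gen, h1']

private theorem FF_v_ne_zero (C : Chart K L) : C.v ≠ 0 := by
  intro h
  have := C.trans
  rw [h] at this
  exact this isAlgebraic_zero

private theorem FF_aeval_reverse (C : Chart K L) :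
    aeval C.v⁻¹ C.F.reverse * C.v ^ C.F.natDegree = aeval C.v C.F := by
  haveI : Invertible C.v := invertibleOfNonzero (FF_v_ne_zero C)
  have := eval₂_reverse_mul_pow (algebraMap K L) C.v C.F
  rwa [invOf_eq_inv] at this

private theorem FF_trans (C : Chart K L) : Transcendental K C.v⁻¹ := by
  intro h
  apply C.trans
  have := h.inv
  rwa [inv_inv] at this

private theorem FF_gen (C : Chart K L) (k : ℕ) :
    IntermediateField.adjoin K {C.v⁻¹, C.y / C.v ^ k} = ⊤ := by
  rw [eq_top_iff, ← C.gen, IntermediateField.adjoin_le_iff]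
  have h1 : C.v⁻¹ ∈ IntermediateField.adjoin K {C.v⁻¹, C.y / C.v ^ k} :=
    IntermediateField.subset_adjoin K _ (by simp)
  have h2 : C.y / C.v ^ k ∈ IntermediateField.adjoin K {C.v⁻¹, C.y / C.v ^ k} :=
    IntermediateField.subset_adjoin K _ (by simp)
  have h3 : C.v ∈ IntermediateField.adjoin K {C.v⁻¹, C.y / C.v ^ k} := by
    have := inv_mem h1
    rwa [inv_inv] at this
  rintro x (rfl | hx)
  · exact h3
  · rw [Set.mem_singleton_iff] at hx
    have h4 := mul_mem h2 (pow_mem h3 k)
    rw [div_mul_cancel₀ _ (pow_ne_zero _ (FF_v_ne_zero C))] at h4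
    rw [hx]
    exact h4

private theorem FF_coeff {F : K[X]} (h0 : F.eval 0 ≠ 0) : F.coeff 0 ≠ 0 := by
  rwa [coeff_zero_eq_eval_zero]

private theorem FF_natDegree {F : K[X]} (h0 : F.eval 0 ≠ 0) :
    F.reverse.natDegree = F.natDegree := by
  have h1 : F.natTrailingDegree = 0 := by
    apply natTrailingDegree_eq_zero.mpr
    right
    exact FF_coeff h0
  rw [reverse_natDegree, h1, Nat.sub_zero]

private theorem FF_reverse_reverse {F : K[X]} (h0 : F.eval 0 ≠ 0) :
    F.reverse.reverse = F := by
  have h1 := FF_natDegree h0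
  have h2 : F.reverse.reverse = reflect F.reverse.natDegree (reflect F.natDegree F) := rfl
  rw [h2, h1, reflect_reflect]

private theorem FF_sep {F : K[X]} (hs : F.Separable) (h0 : F.eval 0 ≠ 0) :
    F.reverse.Separable := by
  have hF : F ≠ 0 := by
    rintro rfl
    simp at h0
  rw [PerfectField.separable_iff_squarefree] at hs ⊢
  intro g hg
  obtain ⟨q, hq⟩ := hg
  have h1 : F = g.reverse * g.reverse * q.reverse := by
    rw [← reverse_mul_of_domain, ← reverse_mul_of_domain, ← hq, FF_reverse_reverse h0]
  have h2 : IsUnit g.reverse := hs _ ⟨_, h1⟩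
  have h3 : g.eval 0 ≠ 0 := by
    intro h
    have h4 : F.reverse.eval 0 = 0 := by rw [hq, eval_mul, eval_mul, h, zero_mul, zero_mul]
    rw [← coeff_zero_eq_eval_zero, coeff_zero_reverse, leadingCoeff_eq_zero] at h4
    exact hF h4
  rw [isUnit_iff_degree_eq_zero] at h2 ⊢
  have h5 : g ≠ 0 := by
    rintro rfl
    simp at h3
  rw [degree_eq_natDegree h5]
  have h6 := natDegree_eq_of_degree_eq_some h2
  rw [FF_natDegree h3] at h6
  rw [h6]
  rfl

/-- The chart at infinity for `F` of even degree `2 k` with `F(0) ≠ 0`: `w = 1 / v`,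
`y / v^k`, and the reversed polynomial. -/
noncomputable def Chart.infEven (C : Chart K L) (k : ℕ) (hk : C.F.natDegree = 2 * k)
    (h0 : C.F.eval 0 ≠ 0) : Chart K L where
  v := C.v⁻¹
  y := C.y / C.v ^ k
  F := C.F.reverse
  eq := by
    have h1 := FF_aeval_reverse C
    have h2 := FF_v_ne_zero C
    rw [hk] at h1
    rw [div_pow, C.eq, ← h1, ← pow_mul, mul_comm k 2, mul_div_cancel_right₀ _ (pow_ne_zero _ h2)]
  trans := FF_trans C
  gen := FF_gen C k
  sep := FF_sep C.sep h0
  pos := by
    rw [FF_natDegree h0]
    exact C.pos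

/-- The chart at infinity for `F` of odd degree `2 k - 1` with `F(0) ≠ 0`: `w = 1 / v`,
`y / v^k`, and the polynomial `w F.reverse(w)`. -/
noncomputable def Chart.infOdd (C : Chart K L) (k : ℕ) (hk : C.F.natDegree + 1 = 2 * k)
    (h0 : C.F.eval 0 ≠ 0) : Chart K L where
  v := C.v⁻¹
  y := C.y / C.v ^ k
  F := X * C.F.reverse
  eq := by
    have h1 := FF_aeval_reverse C
    have h2 := FF_v_ne_zero C
    rw [div_pow, C.eq, ← h1, ← pow_mul, mul_comm k 2, ← hk, pow_succ, map_mul, aeval_X]
    field_simp
  trans := FF_trans C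
  gen := FF_gen C k
  sep := by
    apply (separable_X).mul (FF_sep C.sep h0)
    rw [isCoprime_comm]
    have h1 : C.F.reverse.eval 0 ≠ 0 := by
      rw [← coeff_zero_eq_eval_zero, coeff_zero_reverse, Ne, leadingCoeff_eq_zero]
      intro h
      rw [h] at h0
      simp at h0
    have h2 : ¬ (X : K[X]) ∣ C.F.reverse := by
      rw [X_dvd_iff, coeff_zero_eq_eval_zero]
      exact h1
    exact (irreducible_X.coprime_iff_not_dvd.mpr h2).symm
  pos := by
    have h1 : C.F.reverse ≠ 0 := by
      rw [Ne, reverse_eq_zero]
      intro h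
      rw [h] at h0
      simp at h0
    rw [natDegree_X_mul h1]
    omega

end Pool.Agent.Arith
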