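import Pool.Agent.Lib.MP_c0402d_ag.FF

/-!
# JOB GA: the family `y² = f(v² + t)`, `ω = 2 v dv / y`
-/

set_option autoImplicit false

namespace Pool.Agent.Arith

open KaehlerDifferential Polynomial

variable {K L : Type} [Field K] [CharZero K] [Field L] [Algebra K L]

/-- `f (v² + t)` as a polynomial in `v` -/
noncomputable def Ft (t : K) : K[X] := (fR K).comp (X ^ 2 + C t)

private theorem fR_expand : fR K = C 108 * X ^ 5 + C 486 * X ^ 4 + C 816 * X ^ 3 + C 684 * X ^ 2 +
    C 288 * X + C 48 := by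
  have h : ∀ n : ℕ, (C (n : K) : K[X]) = (n : K[X]) := fun n => by simp
  have h1 := h 108
  have h2 := h 486
  have h3 := h 816
  have h4 := h 684
  have h5 := h 288
  have h6 := h 48
  push_cast at h1 h2 h3 h4 h5 h6
  rw [h1, h2, h3, h4, h5, h6]
  unfold fR
  ring

private theorem fR_derivative : derivative (fR K) = 540 * X ^ 4 + 1944 * X ^ 3 + 2448 * X ^ 2 +
    1368 * X + 288 := by
  rw [fR_expand]
  simp only [derivative_add, derivative_C_mul_X_pow, derivative_C_mul, derivative_X, derivative_C,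
    Nat.cast_ofNat, mul_one, add_zero, map_mul]
  have h : ∀ n : ℕ, (C (n : K) : K[X]) = (n : K[X]) := fun n => by simp
  have h1 := h 108
  have h2 := h 486
  have h3 := h 816
  have h4 := h 684
  have h5 := h 288
  push_cast at h1 h2 h3 h4 h5
  rw [h1, h2, h3, h4, h5]
  simp only [derivative_X_pow, derivative_X_sq]
  simp only [map_ofNat, Nat.cast_ofNat]
  ring

theorem fR_separable : (fR K).Separable := by
  unfold Separable
  rw [fR_derivative]
  refine ⟨C (-1 / 5184) * (141828 + 429528 * X + 473940 * X ^ 2 + 158850 * X ^ 3),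
    C (-1 / 5184) * (-23656 - 101050 * X - 164296 * X ^ 2 - 123381 * X ^ 3 - 31770 * X ^ 4), ?_⟩
  have h : (C (-1 / 5184 : K) : K[X]) * (-5184) = 1 := by
    have : (-5184 : K[X]) = C (-5184 : K) := by
      rw [map_neg]; congr 1
    rw [this, ← C_mul]
    norm_num
  rw [mul_assoc, mul_assoc, ← mul_add, ← h]
  congr 1
  unfold fR
  ring

theorem fR_natDegree : (fR K).natDegree = 5 := by
  rw [fR_expand]
  compute_degree!

theorem fR_eval_zero : (fR K).eval 0 = 48 := by
  rw [fR_expand]
  simp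

private theorem fR_aeval {A : Type} [CommRing A] [Algebra K A] (a : A) :
    aeval a (fR K) = 6 * (2 * a + 1) * (3 * a + 2) * (a + 2) * (3 * a ^ 2 + 4 * a + 2) := by
  unfold fR
  simp only [map_mul, map_add, map_pow, aeval_X, map_ofNat, map_one]

private theorem fR_eval (a : K) :
    (fR K).eval a = 6 * (2 * a + 1) * (3 * a + 2) * (a + 2) * (3 * a ^ 2 + 4 * a + 2) := by
  unfold fR
  simp

theorem bad_iff (t : K) : aeval t Fam.bad ≠ 0 ↔ (fR K).eval t ≠ 0 := by
  have h1 : aeval t Fam.bad =
      6 * (2 * t + 1) * (3 * t + 2) * (t + 2) * (3 * t ^ 2 + 4 * t + 2) := by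
    show aeval t (fR ℚ) = _
    unfold fR
    simp only [map_mul, map_add, map_pow, aeval_X, map_ofNat, map_one]
  rw [h1, fR_eval]

theorem Ft_natDegree (t : K) : (Ft t).natDegree = 10 := by
  unfold Ft
  rw [natDegree_comp, fR_natDegree, natDegree_X_pow_add_C]

theorem Ft_eval_zero (t : K) : (Ft t).eval 0 = (fR K).eval t := by
  unfold Ft
  rw [eval_comp]
  simp

/-- the derivative of `f(v² + t)` is `2 v f'(v² + t)` -/
theorem Ft_separable [IsAlgClosed K] {t : K} (ht : (fR K).eval t ≠ 0) : (Ft t).Separable := by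
  unfold Separable
  rw [isCoprime_iff_aeval_ne_zero_of_isAlgClosed K K]
  intro a
  rw [coe_aeval_eq_eval]
  have hd : (derivative (Ft t)).eval a = 2 * a * (derivative (fR K)).eval (a ^ 2 + t) := by
    unfold Ft
    rw [derivative_comp]
    simp only [eval_mul, eval_comp, eval_add, eval_pow, eval_X, eval_C, derivative_add,
      derivative_X_pow, derivative_C, add_zero, eval_natCast, eval_C]
    norm_num
  have hF : (Ft t).eval a = (fR K).eval (a ^ 2 + t) := by
    unfold Ft
    simp [eval_comp]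
  rw [hd, hF]
  by_cases ha : a = 0
  · left
    rw [ha]
    simpa using ht
  · have h1 : IsCoprime (fR K) (derivative (fR K)) := fR_separable
    rw [isCoprime_iff_aeval_ne_zero_of_isAlgClosed K K] at h1
    have h2 := h1 (a ^ 2 + t)
    rw [coe_aeval_eq_eval] at h2
    rcases h2 with h2 | h2
    · exact Or.inl h2
    · right
      exact mul_ne_zero (mul_ne_zero two_ne_zero ha) h2

private theorem Ft_aeval (t : K) (v : L) : aeval v (Ft t) =
    6 * (2 * (v ^ 2 + algebraMap K L t) + 1) * (3 * (v ^ 2 + algebraMap K L t) + 2) *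
      ((v ^ 2 + algebraMap K L t) + 2) *
      (3 * (v ^ 2 + algebraMap K L t) ^ 2 + 4 * (v ^ 2 + algebraMap K L t) + 2) := by
  unfold Ft
  rw [aeval_comp]
  simp only [map_add, map_pow, aeval_X, aeval_C]
  rw [fR_aeval]

private theorem ev_X {n : ℕ} (t : K) (x : Fin n → L) (i : Fin n) :
    ev t x (MvPolynomial.X i) = x i := by
  unfold ev
  simp

private theorem ev_CX {n : ℕ} (t : K) (x : Fin n → L) :
    ev t x (MvPolynomial.C X) = algebraMap K L t := by
  unfold ev
  simp

private theorem ev_eq (t : K) (x : Fin 2 → L) :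
    ev t x (MvPolynomial.X 1 ^ 2 -
    6 * (2 * (MvPolynomial.X 0 ^ 2 + MvPolynomial.C X) + 1) *
      (3 * (MvPolynomial.X 0 ^ 2 + MvPolynomial.C X) + 2) *
      ((MvPolynomial.X 0 ^ 2 + MvPolynomial.C X) + 2) *
      (3 * (MvPolynomial.X 0 ^ 2 + MvPolynomial.C X) ^ 2 +
        4 * (MvPolynomial.X 0 ^ 2 + MvPolynomial.C X) + 2)) = x 1 ^ 2 - aeval (x 0) (Ft t) := by
  rw [Ft_aeval]
  simp only [map_sub, map_mul, map_add, map_pow, map_ofNat, map_one, ev_X, ev_CX]

private theorem member_def (t : K) (ω : Ω[L⁄K]) :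
    Fam.Member t ω ↔ aeval t Fam.bad ≠ 0 ∧ Algebra.trdeg K L = 1 ∧
      ∃ x : Fin 2 → L, IntermediateField.adjoin K (Set.range x) = ⊤ ∧
      x 1 ^ 2 = aeval (x 0) (Ft t) ∧ x 1 ≠ 0 ∧
      ∃ c : K, c ≠ 0 ∧ ω = c • ((2 * x 0 / x 1) • D K L (x 0)) := by
  have key : Fam.Member t ω ↔ aeval t Fam.bad ≠ 0 ∧ Algebra.trdeg K L = 1 ∧
      ∃ x : Fin 2 → L, IntermediateField.adjoin K (Set.range x) = ⊤ ∧
      (∀ e ∈ ({MvPolynomial.X 1 ^ 2 -
        6 * (2 * (MvPolynomial.X 0 ^ 2 + MvPolynomial.C X) + 1) *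
        (3 * (MvPolynomial.X 0 ^ 2 + MvPolynomial.C X) + 2) *
        ((MvPolynomial.X 0 ^ 2 + MvPolynomial.C X) + 2) *
        (3 * (MvPolynomial.X 0 ^ 2 + MvPolynomial.C X) ^ 2 +
        4 * (MvPolynomial.X 0 ^ 2 + MvPolynomial.C X) + 2)} :
        Finset (MvPolynomial (Fin 2) (Polynomial ℚ))), ev t x e = 0) ∧
      ev t x (MvPolynomial.X 1) ≠ 0 ∧
      ∃ c : K, c ≠ 0 ∧ ω = c • ∑ j : Fin 2, (ev t x ((![2 * MvPolynomial.X 0, 0] :
            Fin 2 → MvPolynomial (Fin 2) (Polynomial ℚ)) j) /
            ev t x (MvPolynomial.X 1)) • D K L (x j) := Iff.rfl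
  rw [key]
  simp only [Finset.mem_singleton, forall_eq, ev_eq, ev_X, sub_eq_zero, Fin.sum_univ_two,
    Matrix.cons_val_zero, Matrix.cons_val_one, map_mul, map_ofNat, map_zero,
    zero_div, zero_smul, add_zero]

/-- members of the family and charts -/
theorem member_iff [IsAlgClosed K] (t : K) (ω : Ω[L⁄K]) :
    Fam.Member t ω ↔ (fR K).eval t ≠ 0 ∧ ∃ (C : Chart K L) (c : K), C.F = Ft t ∧ c ≠ 0 ∧
      ω = c • ((2 * C.v / C.y) • D K L C.v) := by
  rw [member_def]
  constructor
  · rintro ⟨hbad, htr, x, hgen, he, hden, c, hc, hω⟩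
    have hb := (bad_iff t).1 hbad
    refine ⟨hb, ?_⟩
    have hrange : Set.range x = {x 0, x 1} := by
      ext z
      constructor
      · rintro ⟨i, rfl⟩
        fin_cases i
        · left; rfl
        · right; rfl
      · rintro (rfl | rfl)
        · exact ⟨0, rfl⟩
        · exact ⟨1, rfl⟩
    have htrans : Transcendental K (x 0) := by
      intro halg
      have h1 : IsAlgebraic K (x 1 ^ 2) := by
        rw [he]
        exact IsIntegral.isAlgebraic
          (adjoin_le_integralClosure (IsAlgebraic.isIntegral halg) (aeval_mem_adjoin_singleton K _))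
      have h2 : IsAlgebraic K (x 1) := IsAlgebraic.of_pow (by norm_num) h1
      have h3 : Algebra.IsAlgebraic K (IntermediateField.adjoin K (Set.range x)) := by
        apply IntermediateField.isAlgebraic_adjoin
        intro z hz
        rw [hrange] at hz
        rcases hz with rfl | rfl
        · exact halg.isIntegral
        · exact h2.isIntegral
      rw [hgen] at h3
      have h4 : Algebra.IsAlgebraic K L := by
        constructor
        intro z
        have h5 := h3.isAlgebraic ⟨z, IntermediateField.mem_top⟩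
        exact (isAlgebraic_algebraMap_iff (A := L)
          (algebraMap (⊤ : IntermediateField K L) L).injective).2 h5
      have h6 : Algebra.trdeg K L = 0 := trdeg_eq_zero_iff.2 h4
      rw [h6] at htr
      exact zero_ne_one htr
    exact ⟨⟨x 0, x 1, Ft t, he, htrans, by rw [← hrange]; exact hgen, Ft_separable hb,
      by rw [Ft_natDegree]; norm_num⟩, c, rfl, hc, hω⟩
  · rintro ⟨hb, C, c, hF, hc, hω⟩
    have hy : C.y ≠ 0 := by
      intro h
      have h1 := C.eq
      rw [h, zero_pow two_ne_zero] at h1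
      have h2 : C.F = 0 := by
        by_contra h3
        exact C.trans ⟨C.F, h3, h1.symm⟩
      have h3 := C.pos
      rw [h2, natDegree_zero] at h3
      exact h3 rfl
    refine ⟨(bad_iff t).2 hb, C.trdeg, ![C.v, C.y], ?_, ?_, hy, c, hc, hω⟩
    · have : Set.range ![C.v, C.y] = {C.v, C.y} := by
        rw [Matrix.range_cons, Matrix.range_cons, Matrix.range_empty, Set.union_empty]
        rfl
      rw [this]
      exact C.gen
    · show C.y ^ 2 = aeval C.v (Ft t)
      rw [C.eq, hF]

end Pool.Agent.Arith
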