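import Pool.Agent.Lib.MP_c0402d_ag.GA

/-!
# JOB GB: the zeros of `ω`; the type of the members; existence and uniqueness of the members
-/

set_option autoImplicit false

namespace Pool.Agent.Arith

open KaehlerDifferential Polynomial

variable {K L : Type} [Field K] [CharZero K] [IsAlgClosed K] [Field L] [Algebra K L]

section aux
omit [CharZero K] [IsAlgClosed K]

private theorem unit_iff {P : Place K L} {u : L} :
    (u ∈ P.O ∧ u ∉ P.O.nonunits) ↔ P.O.valuation u = 1 := by
  rw [ValuationSubring.mem_nonunits_iff, ← ValuationSubring.valuation_le_one_iff, not_lt]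
  exact ⟨fun h => le_antisymm h.1 h.2, fun h => ⟨h.le, h.ge⟩⟩

private theorem val_const {P : Place K L} {c : K} (hc : c ≠ 0) :
    P.O.valuation (algebraMap K L c) = 1 := by
  refine le_antisymm ((ValuationSubring.valuation_le_one_iff _ _).2 (P.base c)) ?_
  have h := (ValuationSubring.valuation_le_one_iff _ _).2 (P.base c⁻¹)
  rw [map_inv₀, map_inv₀] at h
  have h0 : P.O.valuation (algebraMap K L c) ≠ 0 := by
    rw [Valuation.ne_zero_iff]
    exact (_root_.map_ne_zero _).2 hc
  exact (inv_le_one₀ (zero_lt_iff.2 h0)).1 h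

private theorem val_of_sub {P : Place K L} {f : L} {c : K} (hc : c ≠ 0)
    (h : f - algebraMap K L c ∈ P.O.nonunits) : P.O.valuation f = 1 := by
  rw [ValuationSubring.mem_nonunits_iff] at h
  have h1 := val_const (P := P) hc
  have h2 : P.O.valuation (f - algebraMap K L c) < P.O.valuation (algebraMap K L c) := by
    rw [h1]; exact h
  have h3 := Valuation.map_add_eq_of_lt_left _ h2
  rw [add_sub_cancel, h1] at h3
  exact h3

private theorem mem_of_sub {P : Place K L} {f : L} {c : K}
    (h : f - algebraMap K L c ∈ P.O.nonunits) : f ∈ P.O := by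
  have h1 := P.O.add_mem _ _ (P.O.nonunits_subset h) (P.base c)
  rwa [sub_add_cancel] at h1

private theorem aeval_mem {P : Place K L} {f : L} (h : f ∈ P.O) (G : K[X]) : aeval f G ∈ P.O := by
  induction G using Polynomial.induction_on' with
  | add p q hp hq => rw [map_add]; exact P.O.add_mem _ _ hp hq
  | monomial n a =>
    rw [aeval_monomial]
    exact P.O.mul_mem _ _ (P.base a) (pow_mem h n)

private theorem mul_nonunit {P : Place K L} {f g : L} (hf : f ∈ P.O.nonunits) (hg : g ∈ P.O) :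
    f * g ∈ P.O.nonunits := by
  rw [ValuationSubring.mem_nonunits_iff] at hf ⊢
  rw [map_mul]
  exact mul_lt_one_of_lt_of_le hf ((ValuationSubring.valuation_le_one_iff _ _).2 hg)

private theorem aeval_sub {P : Place K L} {f : L} {c : K} (h : f - algebraMap K L c ∈ P.O.nonunits)
    (G : K[X]) : aeval f G - algebraMap K L (G.eval c) ∈ P.O.nonunits := by
  obtain ⟨Q, hQ⟩ := Polynomial.X_sub_C_dvd_sub_C_eval (a := c) (p := G)
  have h1 := congrArg (aeval f) hQ
  rw [map_sub, map_mul, map_sub, aeval_C, aeval_X, aeval_C] at h1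
  rw [h1]
  exact mul_nonunit h (aeval_mem (mem_of_sub h) Q)

end aux

section

private theorem F_ne {t : K} (C : Chart K L) (hC : C.F = Ft t) : C.F ≠ 0 := by
  intro h
  have h1 := Ft_natDegree t
  rw [← hC, h, natDegree_zero] at h1
  omega

private theorem inf_deg {t : K} (C : Chart K L) (hC : C.F = Ft t) : C.F.natDegree = 2 * 5 := by
  rw [hC, Ft_natDegree]

private theorem inf_zero {t : K} (ht : (fR K).eval t ≠ 0) (C : Chart K L) (hC : C.F = Ft t) :
    C.F.eval 0 ≠ 0 := by
  rw [hC, Ft_eval_zero]; exact ht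

private theorem v_ne (C : Chart K L) : C.v ≠ 0 := by
  intro h
  have := C.trans
  rw [h] at this
  exact this (isAlgebraic_zero)

private theorem rev_ne {t : K} (C : Chart K L) (hC : C.F = Ft t) : C.F.reverse.eval 0 ≠ 0 := by
  rw [← coeff_zero_eq_eval_zero, coeff_zero_reverse]
  exact leadingCoeff_ne_zero.2 (F_ne C hC)

private theorem val_two {P : Place K L} : P.O.valuation (2 : L) = 1 := by
  have := val_const (P := P) (c := (2 : K)) two_ne_zero
  rwa [map_ofNat] at this

private theorem center_zero {C : Chart K L} {P : Place K L} (h : C.v ∈ P.O.nonunits) :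
    ∃ b, C.At P 0 b := by
  obtain ⟨a, b, hab⟩ := C.exists_center (P.O.nonunits_subset h)
  have ha : a = 0 := Place.value_unique hab.1 (by simpa using h)
  subst ha
  exact ⟨b, hab⟩

private theorem nonunit_of_at {C : Chart K L} {P : Place K L} {b : K} (h : C.At P 0 b) :
    C.v ∈ P.O.nonunits := by simpa using h.1

private theorem inv_v_iff {C : Chart K L} {P : Place K L} : C.v⁻¹ ∈ P.O.nonunits ↔ C.v ∉ P.O := by
  rw [ValuationSubring.inv_mem_nonunits_iff]
  exact ⟨fun h => h.resolve_left (v_ne C), Or.inr⟩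

open Classical in
/-- At a point `(a, b)` of the chart: order `0` if `a ≠ 0`, order `1` if `a = 0`. -/
theorem ordAt_finite {t : K} (ht : (fR K).eval t ≠ 0) (C : Chart K L) (hC : C.F = Ft t)
    {P : Place K L} {a b : K} (h : C.At P a b) :
    OrdAt P ((2 * C.v / C.y) • D K L C.v) (if a = 0 then 1 else 0) := by
  have hy0 := C.y_ne_zero
  have hab := h.eq
  by_cases hb : b = 0
  · subst hb
    have hFa : C.F.eval a = 0 := by rw [← hab]; ring
    have ha : a ≠ 0 := by
      rintro rfl
      exact inf_zero ht C hC hFa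
    rw [if_neg ha]
    have hF' : (derivative C.F).eval a ≠ 0 := by
      rw [← coe_aeval_eq_eval] at hFa ⊢
      exact C.sep.aeval_derivative_ne_zero hFa
    have hv1 : P.O.valuation C.v = 1 := val_of_sub ha h.1
    have hF1 : P.O.valuation (aeval C.v (derivative C.F)) = 1 := val_of_sub hF' (aeval_sub h.1 _)
    have hF0 : aeval C.v (derivative C.F) ≠ 0 := by
      intro h0
      rw [h0, map_zero] at hF1
      exact zero_ne_one hF1
    have hu : P.O.valuation (2 * 2 * C.v / aeval C.v (derivative C.F)) = 1 := by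
      rw [map_div₀, map_mul, map_mul, val_two, hv1, hF1]; simp
    refine ⟨C.y, 2 * 2 * C.v / aeval C.v (derivative C.F), Chart.param_of_eq h,
      (unit_iff.2 hu).1, (unit_iff.2 hu).2, ?_⟩
    rw [C.D_v, smul_smul]
    congr 1
    field_simp
  · have hy1 : P.O.valuation C.y = 1 := val_of_sub hb h.2
    have hD : D K L (C.v - algebraMap K L a) = D K L C.v := by
      rw [map_sub, Derivation.map_algebraMap, sub_zero]
    by_cases ha : a = 0
    · rw [if_pos ha]
      have hu : P.O.valuation (2 / C.y) = 1 := by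
        rw [map_div₀, val_two, hy1]; simp
      refine ⟨C.v - algebraMap K L a, 2 / C.y, Chart.param_of_ne h hb,
        (unit_iff.2 hu).1, (unit_iff.2 hu).2, ?_⟩
      rw [hD]
      congr 1
      subst ha
      rw [map_zero, sub_zero]
      ring
    · rw [if_neg ha]
      have hv1 : P.O.valuation C.v = 1 := val_of_sub ha h.1
      have hu : P.O.valuation (2 * C.v / C.y) = 1 := by
        rw [map_div₀, map_mul, val_two, hv1, hy1]; simp
      refine ⟨C.v - algebraMap K L a, 2 * C.v / C.y, Chart.param_of_ne h hb,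
        (unit_iff.2 hu).1, (unit_iff.2 hu).2, ?_⟩
      rw [hD, pow_zero, mul_one]

/-- At the two points at infinity: order `2`. (`w = 1 / v`, `ω = - 2 w² dw / (y / v⁵)`.) -/
theorem ordAt_infinite {t : K} (ht : (fR K).eval t ≠ 0) (C : Chart K L) (hC : C.F = Ft t)
    {P : Place K L} (h : C.v ∉ P.O) : OrdAt P ((2 * C.v / C.y) • D K L C.v) 2 := by
  have hy0 := C.y_ne_zero
  have hv0 := v_ne C
  let C' := C.infEven 5 (inf_deg C hC) (inf_zero ht C hC)
  have hw : C'.v ∈ P.O.nonunits := inv_v_iff.2 h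
  obtain ⟨b, hb⟩ := center_zero hw
  have hb0 : b ≠ 0 := by
    rintro rfl
    have := hb.eq
    exact rev_ne C hC (by rw [zero_pow two_ne_zero] at this; exact this.symm)
  have hy1 : P.O.valuation (C.y / C.v ^ 5) = 1 := val_of_sub hb0 hb.2
  have hu : P.O.valuation (-2 / (C.y / C.v ^ 5)) = 1 := by
    rw [map_div₀, Valuation.map_neg, val_two, hy1]; simp
  have hp : P.IsParam C.v⁻¹ := by
    have := Chart.param_of_ne hb hb0
    rwa [map_zero, sub_zero] at this
  refine ⟨C.v⁻¹, -2 / (C.y / C.v ^ 5), hp, (unit_iff.2 hu).1, (unit_iff.2 hu).2, ?_⟩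
  rw [Derivation.leibniz_inv, smul_smul]
  congr 1
  field_simp

private theorem two_places (C : Chart K L) (h0 : C.F.eval 0 ≠ 0) :
    ∃ P Q : Place K L, P ≠ Q ∧ ∀ R : Place K L, C.v ∈ R.O.nonunits ↔ (R = P ∨ R = Q) := by
  obtain ⟨b, hb⟩ := IsAlgClosed.exists_pow_nat_eq (C.F.eval 0) (n := 2) (by norm_num)
  have hb0 : b ≠ 0 := by
    rintro rfl
    exact h0 (by rw [← hb]; ring)
  obtain ⟨P, hP⟩ := C.exists_at hb
  obtain ⟨Q, hQ⟩ := C.exists_at (a := 0) (b := -b) (by rw [neg_sq, hb])
  refine ⟨P, Q, ?_, fun R => ⟨fun h => ?_, ?_⟩⟩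
  · rintro rfl
    have h1 := Place.value_unique hP.2 hQ.2
    have h2 : (2 : K) * b = 0 := by linear_combination h1
    rcases mul_eq_zero.1 h2 with h3 | h3
    · exact two_ne_zero h3
    · exact hb0 h3
  · obtain ⟨c, hc⟩ := center_zero h
    have h1 := hc.eq
    rw [← hb] at h1
    rcases sq_eq_sq_iff_eq_or_eq_neg.1 h1 with rfl | rfl
    · exact Or.inl (Chart.at_unique hc hP)
    · exact Or.inr (Chart.at_unique hc hQ)
  · rintro (rfl | rfl)
    · exact nonunit_of_at hP
    · exact nonunit_of_at hQ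

/-- `ω` has type `(2, 2, 1, 1)`. -/
theorem hasType_chart {t : K} (ht : (fR K).eval t ≠ 0) (C : Chart K L) (hC : C.F = Ft t) :
    HasType ((2 * C.v / C.y) • D K L C.v) {2, 2, 1, 1} := by
  classical
  obtain ⟨P1, P2, h12, hP⟩ := two_places C (inf_zero ht C hC)
  let C' := C.infEven 5 (inf_deg C hC) (inf_zero ht C hC)
  obtain ⟨P3, P4, h34, hP'⟩ := two_places C' (rev_ne C hC)
  have hP'' : ∀ R : Place K L, C.v ∉ R.O ↔ (R = P3 ∨ R = P4) := fun R => by
    rw [← hP' R]; exact inv_v_iff.symm
  have n1 : C.v ∈ P1.O.nonunits := (hP P1).2 (Or.inl rfl)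
  have n2 : C.v ∈ P2.O.nonunits := (hP P2).2 (Or.inr rfl)
  have n3 : C.v ∉ P3.O := (hP'' P3).2 (Or.inl rfl)
  have n4 : C.v ∉ P4.O := (hP'' P4).2 (Or.inr rfl)
  have m1 : C.v ∈ P1.O := P1.O.nonunits_subset n1
  have m2 : C.v ∈ P2.O := P2.O.nonunits_subset n2
  have h13 : P3 ≠ P1 := by rintro rfl; exact n3 m1
  have h14 : P4 ≠ P1 := by rintro rfl; exact n4 m1
  have h23 : P3 ≠ P2 := by rintro rfl; exact n3 m2
  have h24 : P4 ≠ P2 := by rintro rfl; exact n4 m2
  let m : Place K L → ℕ := fun P => if C.v ∉ P.O then 2 else if C.v ∈ P.O.nonunits then 1 else 0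
  refine ⟨m, ⟨P3 ::ₘ P4 ::ₘ P1 ::ₘ P2 ::ₘ 0, ?_⟩, fun P => ?_, fun P => ?_, ?_⟩
  · simp only [Multiset.nodup_cons, Multiset.mem_cons, Multiset.notMem_zero, or_false,
      not_or, not_false_eq_true, Multiset.nodup_zero, and_true]
    exact ⟨⟨h34, h13, h23⟩, ⟨h14, h24⟩, h12⟩
  · by_cases h : C.v ∈ P.O
    · obtain ⟨a, b, hab⟩ := C.exists_center h
      have h1 := ordAt_finite ht C hC hab
      have h2 : C.v ∈ P.O.nonunits ↔ a = 0 := by
        refine ⟨fun h3 => Place.value_unique hab.1 (by simpa using h3), ?_⟩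
        rintro rfl
        exact nonunit_of_at hab
      have h3 : m P = if a = 0 then 1 else 0 := by
        simp only [m, h, not_true_eq_false, if_false, h2]
      rw [h3]
      exact h1
    · have h3 : m P = 2 := by simp only [m, h, not_false_eq_true, if_true]
      rw [h3]
      exact ordAt_infinite ht C hC h
  · have e1 : P ∈ (⟨P3 ::ₘ P4 ::ₘ P1 ::ₘ P2 ::ₘ 0, by
        simp only [Multiset.nodup_cons, Multiset.mem_cons, Multiset.notMem_zero, or_false,
          not_or, not_false_eq_true, Multiset.nodup_zero, and_true]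
        exact ⟨⟨h34, h13, h23⟩, ⟨h14, h24⟩, h12⟩⟩ : Finset (Place K L)) ↔
        (C.v ∉ P.O ∨ C.v ∈ P.O.nonunits) := by
      rw [hP'' P, hP P, ← Finset.mem_val]
      simp only [Multiset.mem_cons, Multiset.notMem_zero, or_false, or_assoc]
    rw [e1]
    by_cases h : C.v ∈ P.O
    · by_cases h' : C.v ∈ P.O.nonunits
      · simp only [m, h, h', not_true_eq_false, if_false, if_true]; simp
      · simp only [m, h, h', not_true_eq_false, if_false]; simp
    · simp only [m, h, not_false_eq_true, if_true]; simp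
  · simp only [Multiset.map_cons, Multiset.map_zero, m, n1, n2, n3, n4, m1, m2,
      not_true_eq_false, not_false_eq_true, if_true, if_false]
    rfl

theorem member_hasType {t : K} {ω : Ω[L⁄K]} (h : Fam.Member t ω) :
    HasType ω {2, 2, 1, 1} := by
  rw [member_iff] at h
  obtain ⟨ht, C, c, hC, hc, rfl⟩ := h
  exact (hasType_chart ht C hC).smul hc

theorem member_exists (K : Type) [Field K] [CharZero K] [IsAlgClosed K] {t : K}
    (ht : aeval t Fam.bad ≠ 0) :
    ∃ (L : Type) (_ : Field L) (_ : Algebra K L) (ω : Ω[L⁄K]), Fam.Member t ω := by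
  rw [bad_iff] at ht
  obtain ⟨M, i1, i2, C, hC⟩ := exists_chart (Ft t) (Ft_separable ht) (by rw [Ft_natDegree]; norm_num)
  exact ⟨M, i1, i2, _, (member_iff t _).2 ⟨ht, C, 1, hC, one_ne_zero, rfl⟩⟩

theorem member_unique {L' : Type} [Field L'] [Algebra K L'] {t : K} {ω : Ω[L⁄K]} {ω' : Ω[L'⁄K]}
    (h : Fam.Member t ω) (h' : Fam.Member t ω') : SamePoint ω ω' := by
  rw [member_iff] at h h'
  obtain ⟨ht, C, c, hC, hc, rfl⟩ := h
  obtain ⟨-, C', c', hC', hc', rfl⟩ := h'
  obtain ⟨e, hv, hy⟩ := chart_iso C C' (hC.trans hC'.symm)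
  refine ⟨e, c' * c⁻¹, c • (2 * C.v / C.y), C.v, mul_ne_zero hc' (inv_ne_zero hc), ?_, ?_⟩
  · rw [smul_assoc]
  · rw [map_smul, map_div₀, map_mul, hv, hy, map_ofNat, smul_assoc, smul_smul, mul_assoc,
      inv_mul_cancel₀ hc, mul_one]

/-- membership can be transported along isomorphisms -/
theorem member_of_samePoint {L' : Type} [Field L'] [Algebra K L'] {t : K} {ω : Ω[L⁄K]}
    {ω' : Ω[L'⁄K]} (h : SamePoint ω ω') (hm : Fam.Member t ω) : Fam.Member t ω' := by
  obtain ⟨e, c1, a, b, hc1, hω, rfl⟩ := h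
  rw [member_iff] at hm ⊢
  obtain ⟨ht, C, c, hC, hc, hω2⟩ := hm
  have key : e a • D K L' (e b) = c • ((2 * e C.v / e C.y) • D K L' (e C.v)) := by
    let _ : Algebra L L' := e.toRingHom.toAlgebra
    have hal : ∀ x : L, algebraMap L L' x = e x := fun x => rfl
    have : IsScalarTower K L L' := IsScalarTower.of_algebraMap_eq fun x => by
      rw [hal, e.commutes]
    have hm : ∀ x y : L, KaehlerDifferential.map K K L L' (x • D K L y) = e x • D K L' (e y) := by
      intro x y
      rw [map_smul, KaehlerDifferential.map_D, hal, algebra_compatible_smul L' x, hal]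
    have h1 : KaehlerDifferential.map K K L L' (a • D K L b) =
        KaehlerDifferential.map K K L L' ((c • (2 * C.v / C.y)) • D K L C.v) := by
      rw [← hω, hω2, smul_assoc]
    rw [hm, hm, map_smul, map_div₀, map_mul, map_ofNat, smul_assoc] at h1
    exact h1
  have g1 : e C.y ^ 2 = aeval (e C.v) C.F := by
    rw [← map_pow, C.eq, ← Polynomial.aeval_algHom_apply]
  have g2 : Transcendental K (e C.v) := fun h =>
    C.trans ((isAlgebraic_algHom_iff e.toAlgHom e.injective).1 h)
  have g3 : IntermediateField.adjoin K {e C.v, e C.y} = ⊤ := by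
    have h1 : IntermediateField.map e.toAlgHom (IntermediateField.adjoin K {C.v, C.y}) =
        IntermediateField.adjoin K {e C.v, e C.y} := by
      rw [IntermediateField.adjoin_map, Set.image_pair]
      rfl
    rw [← h1, C.gen, ← top_le_iff]
    exact fun x _ => ⟨e.symm x, trivial, e.apply_symm_apply x⟩
  exact ⟨ht, ⟨e C.v, e C.y, C.F, g1, g2, g3, C.sep, C.pos⟩, c1 * c, hC, mul_ne_zero hc1 hc, by
    rw [key, smul_smul]⟩

end

end Pool.Agent.Arith
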