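import Pool.Agent.Lib.MP_c0402d_ag.GA

/-!
# JOB GC: the degenerate members do not have type `(2, 2, 1, 1)`
-/

set_option autoImplicit false

namespace Pool.Agent.Arith

open KaehlerDifferential Polynomial

variable {K L : Type} [Field K] [CharZero K] [IsAlgClosed K] [Field L] [Algebra K L]

theorem gc_mem_of_sub {P : Place K L} {f : L} {c : K}
    (h : f - algebraMap K L c ∈ P.O.nonunits) : f ∈ P.O := by
  have h1 : f - algebraMap K L c ∈ P.O := P.O.nonunits_subset h
  have := P.O.add_mem _ _ h1 (P.base c)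
  simpa using this

theorem gc_not_nonunit_of_sub {P : Place K L} {f : L} {c : K} (hc : c ≠ 0)
    (h : f - algebraMap K L c ∈ P.O.nonunits) : f ∉ P.O.nonunits := by
  intro hf
  have h2 : algebraMap K L c ∈ P.O.nonunits := by
    rw [ValuationSubring.mem_nonunits_iff] at h hf ⊢
    have : algebraMap K L c = f - (f - algebraMap K L c) := by ring
    rw [this]
    exact lt_of_le_of_lt (Valuation.map_sub _ _ _) (max_lt hf h)
  exact hc (Place.algebraMap_mem_nonunits.mp h2)

theorem gc_inv_unit {P : Place K L} {f : L} (h1 : f ∈ P.O) (h2 : f ∉ P.O.nonunits) :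
    f⁻¹ ∈ P.O ∧ f⁻¹ ∉ P.O.nonunits := by
  rw [← ValuationSubring.valuation_le_one_iff] at h1
  rw [ValuationSubring.mem_nonunits_iff, not_lt] at h2
  have h3 : P.O.valuation f = 1 := le_antisymm h1 h2
  constructor
  · rw [← ValuationSubring.valuation_le_one_iff, map_inv₀, h3, inv_one]
  · rw [ValuationSubring.mem_nonunits_iff, map_inv₀, h3, inv_one, not_lt]

theorem gc_mul_unit {P : Place K L} {f g : L} (h1 : f ∈ P.O ∧ f ∉ P.O.nonunits)
    (h2 : g ∈ P.O ∧ g ∉ P.O.nonunits) : f * g ∈ P.O ∧ f * g ∉ P.O.nonunits := by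
  obtain ⟨h1, h1'⟩ := h1
  obtain ⟨h2, h2'⟩ := h2
  rw [← ValuationSubring.valuation_le_one_iff] at h1 h2
  rw [ValuationSubring.mem_nonunits_iff, not_lt] at h1' h2'
  have h3 : P.O.valuation f = 1 := le_antisymm h1 h1'
  have h4 : P.O.valuation g = 1 := le_antisymm h2 h2'
  constructor
  · rw [← ValuationSubring.valuation_le_one_iff, map_mul, h3, h4, mul_one]
  · rw [ValuationSubring.mem_nonunits_iff, map_mul, h3, h4, mul_one, not_lt]

theorem gc_const_unit {P : Place K L} {c : K} (hc : c ≠ 0) :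
    algebraMap K L c ∈ P.O ∧ algebraMap K L c ∉ P.O.nonunits :=
  ⟨P.base c, fun h => hc (Place.algebraMap_mem_nonunits.mp h)⟩

theorem gc_aeval_sub {P : Place K L} {v : L} {a : K} (h : v - algebraMap K L a ∈ P.O.nonunits)
    (G : K[X]) : aeval v G - algebraMap K L (G.eval a) ∈ P.O.nonunits := by
  obtain ⟨Q, hQ⟩ := (X_sub_C_dvd_sub_C_eval (a := a) (p := G))
  have h1 : aeval v G - algebraMap K L (G.eval a) = (v - algebraMap K L a) * aeval v Q := by
    have := congrArg (aeval v) hQ
    simpa using this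
  have h2 : ∀ R : K[X], aeval v R ∈ P.O := by
    intro R
    have hv := gc_mem_of_sub h
    rw [aeval_eq_sum_range]
    refine sum_mem fun i _ => ?_
    rw [Algebra.smul_def]
    exact P.O.mul_mem _ _ (P.base _) (pow_mem hv i)
  rw [h1]
  rw [ValuationSubring.mem_nonunits_iff] at h ⊢
  rw [map_mul]
  exact mul_lt_one_of_lt_of_le h ((ValuationSubring.valuation_le_one_iff _ _).mpr (h2 Q))

theorem gc_aeval_unit {P : Place K L} {v : L} {a : K} (h : v - algebraMap K L a ∈ P.O.nonunits)
    {G : K[X]} (hG : G.eval a ≠ 0) : aeval v G ∈ P.O ∧ aeval v G ∉ P.O.nonunits :=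
  ⟨gc_mem_of_sub (gc_aeval_sub h G), gc_not_nonunit_of_sub hG (gc_aeval_sub h G)⟩

/-- order zero at finite points -/
theorem gc_ord_fin (C : Chart K L) {P : Place K L} {a b : K} (h : C.At P a b) :
    OrdAt P (C.y⁻¹ • D K L C.v) 0 := by
  by_cases hb : b = 0
  · subst hb
    have h0 : C.F.eval a = 0 := by
      have := h.eq
      simpa using this.symm
    have hd : (derivative C.F).eval a ≠ 0 := by
      intro hd
      obtain ⟨A, B, hAB⟩ := C.sep
      have := congrArg (eval a) hAB
      simp [h0, hd] at this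
    have hu := gc_aeval_unit h.1 hd
    refine ⟨C.y, algebraMap K L 2 * (aeval C.v (derivative C.F))⁻¹, C.param_of_eq h, ?_, ?_, ?_⟩
    · exact (gc_mul_unit (gc_const_unit two_ne_zero) (gc_inv_unit hu.1 hu.2)).1
    · exact (gc_mul_unit (gc_const_unit two_ne_zero) (gc_inv_unit hu.1 hu.2)).2
    · rw [C.D_v, smul_smul]
      congr 1
      have hy := C.y_ne_zero
      have h2 : algebraMap K L 2 = 2 := map_ofNat _ 2
      rw [h2]
      field_simp
  · have hu : C.y ∈ P.O ∧ C.y ∉ P.O.nonunits :=
      ⟨gc_mem_of_sub h.2, gc_not_nonunit_of_sub hb h.2⟩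
    refine ⟨C.v - algebraMap K L a, C.y⁻¹, C.param_of_ne h hb, (gc_inv_unit hu.1 hu.2).1,
      (gc_inv_unit hu.1 hu.2).2, ?_⟩
    simp

theorem gc_inv_nonunit {P : Place K L} {v : L} (h : v ∉ P.O) :
    v⁻¹ - algebraMap K L 0 ∈ P.O.nonunits := by
  rw [← ValuationSubring.valuation_le_one_iff, not_le] at h
  rw [map_zero, sub_zero, ValuationSubring.mem_nonunits_iff, map_inv₀]
  exact inv_lt_one_of_one_lt₀ h

theorem gc_D_inv (v : L) (hv : v ≠ 0) : D K L v = (-(v⁻¹ ^ 2)⁻¹) • D K L v⁻¹ := by
  have h1 : D K L v⁻¹ = -(v⁻¹ ^ 2) • D K L v := by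
    rw [Derivation.leibniz_inv]
  rw [h1, smul_smul]
  have : -(v⁻¹ ^ 2)⁻¹ * -(v⁻¹ ^ 2) = 1 := by
    field_simp
  rw [this, one_smul]

/-- order `k - 2` at infinity, even case -/
theorem gc_ord_even (C : Chart K L) (k : ℕ) (hk : C.F.natDegree = 2 * (k + 2))
    (h0 : C.F.eval 0 ≠ 0) {P : Place K L} (h : C.v ∉ P.O) :
    OrdAt P (C.y⁻¹ • D K L C.v) k := by
  have hv0 : C.v ≠ 0 := by
    intro h1; rw [h1] at h; exact h (P.O.zero_mem)
  set C' := C.infEven (k + 2) hk h0 with hC'
  have hv' : C'.v = C.v⁻¹ := rfl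
  have hy' : C'.y = C.y / C.v ^ (k + 2) := rfl
  have hF' : C'.F = C.F.reverse := rfl
  have hn : C'.v - algebraMap K L 0 ∈ P.O.nonunits := gc_inv_nonunit h
  obtain ⟨a, b, hab⟩ := C'.exists_center (gc_mem_of_sub hn)
  have ha : a = 0 := Place.value_unique hab.1 hn
  subst ha
  have hb : b ≠ 0 := by
    have h2 := hab.eq
    rw [hF'] at h2
    intro hb
    rw [hb, ← coeff_zero_eq_eval_zero, coeff_zero_reverse] at h2
    have : C.F ≠ 0 := by
      intro h3; rw [h3] at h0; simp at h0
    exact this (leadingCoeff_eq_zero.mp (by simpa using h2.symm))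
  have hu : C'.y ∈ P.O ∧ C'.y ∉ P.O.nonunits :=
    ⟨gc_mem_of_sub hab.2, gc_not_nonunit_of_sub hb hab.2⟩
  have hu2 := gc_mul_unit (gc_const_unit (P := P) (c := (-1 : K)) (by simp))
    (gc_inv_unit hu.1 hu.2)
  refine ⟨C'.v - algebraMap K L 0, algebraMap K L (-1) * C'.y⁻¹, C'.param_of_ne hab hb, hu2.1,
    hu2.2, ?_⟩
  rw [gc_D_inv C.v hv0, smul_smul]
  simp only [map_zero, sub_zero]
  rw [hv', hy']
  congr 1
  have hy := C.y_ne_zero
  simp only [map_neg, map_one, inv_pow]
  field_simp
  ring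

/-- order `2 (k - 2)` at infinity, odd case -/
theorem gc_ord_odd (C : Chart K L) (k : ℕ) (hk : C.F.natDegree + 1 = 2 * (k + 2))
    (h0 : C.F.eval 0 ≠ 0) {P : Place K L} (h : C.v ∉ P.O) :
    OrdAt P (C.y⁻¹ • D K L C.v) (2 * k) := by
  have hv0 : C.v ≠ 0 := by
    intro h1; rw [h1] at h; exact h (P.O.zero_mem)
  set C' := C.infOdd (k + 2) hk h0 with hC'
  have hv' : C'.v = C.v⁻¹ := rfl
  have hy' : C'.y = C.y / C.v ^ (k + 2) := rfl
  have hF' : C'.F = X * C.F.reverse := rfl
  have hn : C'.v - algebraMap K L 0 ∈ P.O.nonunits := gc_inv_nonunit h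
  obtain ⟨a, b, hab⟩ := C'.exists_center (gc_mem_of_sub hn)
  have ha : a = 0 := Place.value_unique hab.1 hn
  subst ha
  have hb : b = 0 := by
    have h2 := hab.eq
    rw [hF'] at h2
    simpa using h2
  subst hb
  have hF0 : C.F ≠ 0 := by
    intro h3; rw [h3] at h0; simp at h0
  have hr : C.F.reverse.eval 0 ≠ 0 := by
    rw [← coeff_zero_eq_eval_zero, coeff_zero_reverse]
    exact leadingCoeff_ne_zero.mpr hF0
  have hd : (derivative C'.F).eval 0 ≠ 0 := by
    rw [hF']
    simpa using hr
  have hu1 := gc_aeval_unit hab.1 hr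
  have hu2 := gc_aeval_unit hab.1 hd
  have hu3 : ∀ n : ℕ, (aeval C'.v C.F.reverse) ^ n ∈ P.O ∧
      (aeval C'.v C.F.reverse) ^ n ∉ P.O.nonunits := by
    intro n
    induction n with
    | zero => simpa using gc_const_unit (P := P) (c := (1 : K)) one_ne_zero
    | succ n ih => rw [pow_succ]; exact gc_mul_unit ih hu1
  have hu4 := gc_mul_unit (gc_const_unit (P := P) (c := (-2 : K)) (by simp))
    (gc_mul_unit (gc_inv_unit hu2.1 hu2.2) (gc_inv_unit (hu3 k).1 (hu3 k).2))
  refine ⟨C'.y, _, C'.param_of_eq hab, hu4.1, hu4.2, ?_⟩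
  have hEq := C'.eq
  rw [hF', map_mul, aeval_X] at hEq
  have hD := C'.D_v
  have hne1 : aeval C'.v C.F.reverse ≠ 0 := by
    intro h3; rw [h3] at hu1
    apply hu1.2
    rw [ValuationSubring.mem_nonunits_iff]; simp
  have hne2 : aeval C'.v (derivative C'.F) ≠ 0 := by
    intro h3; rw [h3] at hu2
    apply hu2.2
    rw [ValuationSubring.mem_nonunits_iff]; simp
  rw [gc_D_inv C.v hv0, ← hv', hD, smul_smul, smul_smul]
  congr 1
  have hy := C.y_ne_zero
  have hy0 := C'.y_ne_zero
  have hv0' : C'.v ≠ 0 := by rw [hv']; exact inv_ne_zero hv0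
  have hCy : C.y = C'.y * (C'.v ^ (k + 2))⁻¹ := by
    rw [hy', hv', inv_pow]; field_simp
  rw [hCy]
  generalize aeval C'.v C.F.reverse = A at *
  generalize aeval C'.v (derivative C'.F) = B at *
  have h2 : algebraMap K L (-2) = -2 := by rw [map_neg, map_ofNat]
  rw [h2, pow_mul, hEq, mul_pow, pow_add]
  field_simp

theorem gc_not_hasType (C : Chart K L) {c : K} (hc : c ≠ 0)
    (h : ∀ P : Place K L, OrdAt P (C.y⁻¹ • D K L C.v) 0 ∨ OrdAt P (C.y⁻¹ • D K L C.v) 2) :
    ¬ HasType (c • (C.y⁻¹ • D K L C.v)) {2, 2, 1, 1} := by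
  intro hT
  obtain ⟨P, hP⟩ := hT.exists_place (m := 1) (by simp)
  have htr := C.trdeg
  rcases h P with h | h
  · have := OrdAt.unique htr hP (h.smul hc)
    omega
  · have := OrdAt.unique htr hP (h.smul hc)
    omega

/-- `dx / y` on `y² = f(x)` (genus two): order `0` at finite points, order `2` at infinity, so there
is no point of order `1`. -/
theorem not_hasType_genus_two {x y : L} {c : K} (hc : c ≠ 0) (hx : Transcendental K x)
    (hxy : y ^ 2 = aeval x (fR K)) (hgen : IntermediateField.adjoin K {x, y} = ⊤) :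
    ¬ HasType (c • (y⁻¹ • D K L x)) {2, 2, 1, 1} := by
  let C : Chart K L :=
    { v := x, y := y, F := fR K, eq := hxy, trans := hx, gen := hgen, sep := fR_separable
      pos := by rw [fR_natDegree]; norm_num }
  refine gc_not_hasType C hc fun P => ?_
  by_cases h : C.v ∈ P.O
  · obtain ⟨a, b, hab⟩ := C.exists_center h
    exact Or.inl (gc_ord_fin C hab)
  · right
    have h1 : C.F.natDegree + 1 = 2 * (1 + 2) := by
      change (fR K).natDegree + 1 = _
      rw [fR_natDegree]
    have h2 : C.F.eval 0 ≠ 0 := by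
      change (fR K).eval 0 ≠ 0
      rw [fR_eval_zero]; norm_num
    exact gc_ord_odd C 1 h1 h2 h

/-- If `f(s) = 0`: `L = K(v, y / v)`, `(y / v)² = f(v² + s) / v²` (degree `8`, separable, nonzero
at `0`), `ω = 2 dv / (y / v)` has order `0` at finite points and order `2` at infinity. -/
theorem not_hasType_genus_three {v y : L} {c s : K} (hc : c ≠ 0) (hv : Transcendental K v)
    (hs : (fR K).eval s = 0) (hvy : y ^ 2 = aeval (v ^ 2 + algebraMap K L s) (fR K))
    (hgen : IntermediateField.adjoin K {v, y} = ⊤) :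
    ¬ HasType (c • ((2 * v / y) • D K L v)) {2, 2, 1, 1} := by
  obtain ⟨g, hg⟩ := dvd_iff_isRoot.mpr hs
  have hv0 : v ≠ 0 := by
    rintro rfl
    exact hv (isAlgebraic_zero)
  have hf0 : fR K ≠ 0 := by
    intro h; have := fR_natDegree (K := K); rw [h] at this; simp at this
  have hg0 : g ≠ 0 := by
    rintro rfl; rw [mul_zero] at hg; exact hf0 hg
  have hgdeg : g.natDegree = 4 := by
    have h1 := fR_natDegree (K := K)
    rw [hg, natDegree_mul (X_sub_C_ne_zero s) hg0, natDegree_X_sub_C] at h1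
    omega
  have hgsep : g.Separable := by
    have := fR_separable (K := K)
    rw [hg] at this
    exact this.of_mul_right
  have hgs : g.eval s ≠ 0 := by
    intro h
    have hsep := fR_separable (K := K)
    obtain ⟨A, B, hAB⟩ := hsep
    have h1 := congrArg (eval s) hAB
    rw [hg] at h1
    simp [h] at h1
  set q : K[X] := X ^ 2 + C s with hq
  have hqdeg : q.natDegree = 2 := by
    rw [hq]; exact natDegree_X_pow_add_C
  set G : K[X] := g.comp q with hG
  have hGdeg : G.natDegree = 8 := by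
    rw [hG, natDegree_comp, hgdeg, hqdeg]
  have hG0 : G.eval 0 ≠ 0 := by
    rw [hG, eval_comp, hq]
    simpa using hgs
  have hGne : G ≠ 0 := by
    intro h; rw [h] at hG0; simp at hG0
  have hGsep : G.Separable := by
    unfold Polynomial.Separable
    by_contra hcop
    have h2 : ∃ x : K, G.IsRoot x ∧ (derivative G).IsRoot x := by
      by_contra hno
      push Not at hno
      apply hcop
      rw [Polynomial.isCoprime_iff_aeval_ne_zero_of_isAlgClosed K K]
      intro x
      by_cases hx : G.IsRoot x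
      · right
        have := hno x hx
        simpa [IsRoot.def] using this
      · left
        simpa [IsRoot.def] using hx
    obtain ⟨x, hx1, hx2⟩ := h2
    rw [IsRoot.def] at hx1 hx2
    have hx3 : x ≠ 0 := by
      rintro rfl; exact hG0 hx1
    rw [hG, derivative_comp, eval_mul, eval_comp, hq] at hx2
    rw [hG, eval_comp] at hx1
    have hx4 : (derivative g).eval (q.eval x) = 0 := by
      have h5 : eval x (derivative (X ^ 2 + C s : K[X])) ≠ 0 := by
        simpa using hx3
      rcases mul_eq_zero.mp hx2 with h6 | h6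
      · first
        | exact absurd h6 h5
        | exact h6
      · first
        | exact h6
        | exact absurd h6 h5
    obtain ⟨A, B, hAB⟩ := hgsep
    have h7 := congrArg (eval (q.eval x)) hAB
    simp [hx1, hx4] at h7
  have hkey : aeval (v ^ 2 + algebraMap K L s) (fR K) = v ^ 2 * aeval v G := by
    rw [hg, hG, aeval_comp, hq]
    simp
  let Ch : Chart K L :=
    { v := v, y := y / v, F := G
      eq := by rw [div_pow, hvy, hkey]; field_simp
      trans := hv
      gen := by
        rw [← top_le_iff, ← hgen, IntermediateField.adjoin_le_iff]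
        rintro z (rfl | hz)
        · exact IntermediateField.subset_adjoin _ _ (by simp)
        · rw [Set.mem_singleton_iff] at hz
          subst hz
          have h1 : v ∈ IntermediateField.adjoin K {v, z / v} :=
            IntermediateField.subset_adjoin _ _ (by simp)
          have h2 : z / v ∈ IntermediateField.adjoin K {v, z / v} :=
            IntermediateField.subset_adjoin _ _ (by simp)
          have h3 := mul_mem h1 h2
          have h4 : v * (z / v) = z := by field_simp
          rw [h4] at h3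
          exact h3
      sep := hGsep
      pos := by rw [hGdeg]; norm_num }
  have h1 : c • ((2 * v / y) • D K L v) = (c * 2) • (Ch.y⁻¹ • D K L Ch.v) := by
    change c • ((2 * v / y) • D K L v) = (c * 2) • ((y / v)⁻¹ • D K L v)
    rw [mul_smul]
    congr 1
    rw [two_smul, ← add_smul]
    congr 1
    rw [inv_div]
    ring
  rw [h1]
  refine gc_not_hasType Ch (mul_ne_zero hc two_ne_zero) fun P => ?_
  by_cases h : Ch.v ∈ P.O
  · obtain ⟨a, b, hab⟩ := Ch.exists_center h
    exact Or.inl (gc_ord_fin Ch hab)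
  · right
    have h2 : Ch.F.natDegree = 2 * (2 + 2) := by
      change G.natDegree = _
      rw [hGdeg]
    exact gc_ord_even Ch 2 h2 hG0 h

end Pool.Agent.Arith
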