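import Pool.Agent.Lib.MP_c0402d_ag.FA

/-!
# JOB HA: reductions of function fields: Gauss valuations
-/

set_option autoImplicit false

namespace Pool.Agent.Arith

open KaehlerDifferential

/-- Compatible places of `K` and `L`, with values in `κ` and `l`. -/
structure Red (K L κ l : Type) [Field K] [Field L] [Algebra K L] [Field κ] [Field l]
    [Algebra κ l] where
  R : ValuationSubring K
  O : ValuationSubring L
  φ : R →+* κ
  ψ : O →+* l
  φ_surj : Function.Surjective φ
  ψ_surj : Function.Surjective ψ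
  mem : ∀ r : K, r ∈ R ↔ algebraMap K L r ∈ O
  compat : ∀ (r : R) (h : algebraMap K L r ∈ O), ψ ⟨algebraMap K L r, h⟩ = algebraMap κ l (φ r)

set_option linter.unusedSectionVars false

variable {K L κ l : Type} [Field K] [CharZero K] [IsAlgClosed K] [Field L] [Algebra K L]
  [Field κ] [CharZero κ] [Field l] [Algebra κ l]

/-- `g` is a unit of the valuation ring iff `ψ g ≠ 0`. -/
theorem Red.ψ_ne_zero_iff (ρ : Red K L κ l) (g : ρ.O) :
    ρ.ψ g ≠ 0 ↔ ((g : L) ≠ 0 ∧ (g : L)⁻¹ ∈ ρ.O) := by
  constructor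
  · intro h
    have hg0 : (g : L) ≠ 0 := by
      intro h0
      apply h
      have : g = 0 := Subtype.ext h0
      rw [this, map_zero]
    refine ⟨hg0, ?_⟩
    by_contra hinv
    have hlt : ρ.O.valuation (g : L) < 1 := by
      have h1 : ρ.O.valuation (g : L) ≤ 1 := (ρ.O.valuation_le_one_iff _).2 g.2
      refine lt_of_le_of_ne h1 fun he => hinv ?_
      rw [← ρ.O.valuation_le_one_iff, map_inv₀, he, inv_one]
    obtain ⟨k, hk⟩ := ρ.ψ_surj ((ρ.ψ g)⁻¹)
    have h2 : ρ.O.valuation ((g * k : ρ.O) : L) < 1 := by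
      push_cast
      rw [map_mul]
      exact mul_lt_one_of_lt_of_le hlt ((ρ.O.valuation_le_one_iff _).2 k.2)
    have h3 : (g * k : ρ.O) ∈ IsLocalRing.maximalIdeal ρ.O := (ρ.O.valuation_lt_one_iff _).2 h2
    have h4 : IsUnit (1 - g * k : ρ.O) := by
      have := (IsLocalRing.mem_maximalIdeal _).1 h3
      exact IsLocalRing.isUnit_one_sub_self_of_mem_nonunits _ this
    have h5 := h4.map ρ.ψ
    rw [map_sub, map_mul, hk, mul_inv_cancel₀ h, map_one, sub_self] at h5
    exact not_isUnit_zero h5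
  · rintro ⟨h0, hi⟩ h
    have : ρ.ψ (g * ⟨_, hi⟩) = 0 := by rw [map_mul, h, zero_mul]
    have h1 : (g * ⟨_, hi⟩ : ρ.O) = 1 := by
      apply Subtype.ext
      push_cast
      exact mul_inv_cancel₀ h0
    rw [h1, map_one] at this
    exact one_ne_zero this

theorem HA_ψ_ne_zero_iff (ρ : Red K L κ l) (g : ρ.O) :
    ρ.ψ g ≠ 0 ↔ ρ.O.valuation (g : L) = 1 := by
  rw [ρ.ψ_ne_zero_iff]
  constructor
  · rintro ⟨h0, hi⟩
    have h1 : ρ.O.valuation (g : L) ≤ 1 := (ρ.O.valuation_le_one_iff _).2 g.2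
    have h2 : ρ.O.valuation (g : L)⁻¹ ≤ 1 := (ρ.O.valuation_le_one_iff _).2 hi
    rw [map_inv₀] at h2
    have h3 : ρ.O.valuation (g : L) ≠ 0 := (Valuation.ne_zero_iff _).2 h0
    refine le_antisymm h1 ?_
    have := (inv_le_one₀ (zero_lt_iff.2 h3)).1 h2
    exact this
  · intro h
    have h0 : (g : L) ≠ 0 := by
      intro h0
      rw [h0, map_zero] at h
      exact zero_ne_one h
    refine ⟨h0, ?_⟩
    rw [← ρ.O.valuation_le_one_iff, map_inv₀, h, inv_one]

theorem HA_ψ_eq_zero_iff (ρ : Red K L κ l) (g : ρ.O) :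
    ρ.ψ g = 0 ↔ ρ.O.valuation (g : L) < 1 := by
  have h1 : ρ.O.valuation (g : L) ≤ 1 := (ρ.O.valuation_le_one_iff _).2 g.2
  rw [← not_iff_not, ← ne_eq, HA_ψ_ne_zero_iff, not_lt]
  exact ⟨fun h => h.ge, fun h => le_antisymm h1 h⟩

theorem HA_algebraMap_of_isAlgebraic {k A : Type} [Field k] [IsAlgClosed k] [Field A] [Algebra k A]
    {y : A} (hy : IsAlgebraic k y) : ∃ c : k, algebraMap k A c = y := by
  have h1 : IsIntegral k y := hy.isIntegral
  have h2 := minpoly.mem_range_of_degree_eq_one k y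
    (IsAlgClosed.degree_eq_one_of_irreducible k (minpoly.irreducible h1))
  exact h2

theorem Red.isAlgClosed (ρ : Red K L κ l) : IsAlgClosed κ := by
  apply IsAlgClosed.of_exists_root
  intro p hp hirr
  have hlift : p ∈ Polynomial.lifts ρ.φ := by
    rw [Polynomial.lifts_iff_coeff_lifts]
    intro n
    exact ρ.φ_surj _
  obtain ⟨q, hq, hdeg, hmon⟩ := Polynomial.lifts_and_degree_eq_and_monic hlift hp
  have hd : (q.map ρ.R.subtype).degree ≠ 0 := by
    rw [hmon.degree_map, hdeg]
    have := hirr.natDegree_pos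
    rw [Polynomial.degree_eq_natDegree hp.ne_zero]
    exact_mod_cast this.ne'
  obtain ⟨x, hx⟩ := IsAlgClosed.exists_root _ hd
  have hint : IsIntegral ρ.R x := by
    refine ⟨q, hmon, ?_⟩
    rw [Polynomial.IsRoot, Polynomial.eval_map] at hx
    exact hx
  have hxR : x ∈ ρ.R := by
    obtain ⟨y, hy⟩ := (IsIntegrallyClosed.isIntegral_iff (R := ρ.R) (K := K)).1 hint
    rw [← hy]
    exact y.2
  refine ⟨ρ.φ ⟨x, hxR⟩, ?_⟩
  have h1 : q.eval (⟨x, hxR⟩ : ρ.R) = 0 := by
    apply Subtype.ext
    have : (ρ.R.subtype) (q.eval (⟨x, hxR⟩ : ρ.R)) = 0 := by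
      rw [Polynomial.IsRoot] at hx
      rw [← hx, Polynomial.eval_map, ← Polynomial.eval₂_at_apply]
      rfl
    exact this
  rw [← hq, Polynomial.eval_map, Polynomial.eval₂_at_apply, h1, map_zero]

/-! ### algebraic relations -/

theorem HA_exists_rel (htr : Algebra.trdeg K L = 1) {x : L} (hx : Transcendental K x) (g : L) :
    ∃ (n : ℕ) (P : ℕ → Polynomial K), (∃ i ∈ Finset.range (n + 1), P i ≠ 0) ∧
      ∑ i ∈ Finset.range (n + 1), Polynomial.aeval x (P i) * g ^ i = 0 := by
  classical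
  have hind : AlgebraicIndependent K (fun _ : Unit => x) := by
    rw [algebraicIndependent_unique_type_iff]
    exact hx
  have hbas : IsTranscendenceBasis K (fun _ : Unit => x) := by
    apply hind.isTranscendenceBasis_of_trdeg_le
    · rw [htr]; exact Cardinal.one_lt_aleph0
    · rw [htr]; simp
  have halg := hbas.isAlgebraic
  obtain ⟨p, hp0, hp⟩ := halg.isAlgebraic g
  have hran : Set.range (fun _ : Unit => x) = {x} := by
    ext y; simp [eq_comm]
  have hcoef : ∀ i, ∃ P : Polynomial K, Polynomial.aeval x P = (p.coeff i : L) := by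
    intro i
    have key : ∀ u : L, u ∈ Algebra.adjoin K (Set.range fun _ : Unit => x) →
        ∃ P : Polynomial K, Polynomial.aeval x P = u := by
      intro u hu
      rw [hran, Algebra.adjoin_singleton_eq_range_aeval] at hu
      exact hu
    exact key _ (p.coeff i).2
  choose P hP using hcoef
  refine ⟨p.natDegree, P, ⟨p.natDegree, by simp, ?_⟩, ?_⟩
  · intro h0
    apply hp0
    have h1 := hP p.natDegree
    rw [h0, map_zero] at h1
    have h2 : p.coeff p.natDegree = 0 := Subtype.ext h1.symm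
    rwa [Polynomial.coeff_natDegree, Polynomial.leadingCoeff_eq_zero] at h2
  · rw [Polynomial.aeval_eq_sum_range] at hp
    rw [← hp]
    refine Finset.sum_congr rfl fun i _ => ?_
    rw [hP, Algebra.smul_def]
    rfl

/-! ### elements which are constants times one-units, up to powers of `y` -/

/-- `g = e y ^ n (1 + m)` -/
def HAC (ρ : Red K L κ l) (y g : L) : Prop :=
  ∃ (e : K) (n : ℤ), e ≠ 0 ∧ ρ.O.valuation (g / (algebraMap K L e * y ^ n) - 1) < 1

theorem HA_valuation_of {ρ : Red K L κ l} {g f : L} (hf : f ≠ 0)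
    (h : ρ.O.valuation (g / f - 1) < 1) : ρ.O.valuation g = ρ.O.valuation f := by
  have h1 : ρ.O.valuation (1 + (g / f - 1)) = 1 := Valuation.map_one_add_of_lt _ h
  have h2 : g = f * (1 + (g / f - 1)) := by field_simp; ring
  conv_lhs => rw [h2]
  rw [map_mul, h1, mul_one]

theorem HAC.mul {ρ : Red K L κ l} {y g g' : L} (hy : y ≠ 0) (h : HAC ρ y g) (h' : HAC ρ y g') :
    HAC ρ y (g * g') := by
  obtain ⟨e, n, he, hv⟩ := h
  obtain ⟨e', n', he', hv'⟩ := h'
  refine ⟨e * e', n + n', mul_ne_zero he he', ?_⟩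
  have heL : algebraMap K L e ≠ 0 := by simpa using he
  have heL' : algebraMap K L e' ≠ 0 := by simpa using he'
  have hyn : y ^ n ≠ 0 := zpow_ne_zero _ hy
  have hyn' : y ^ n' ≠ 0 := zpow_ne_zero _ hy
  set m := g / (algebraMap K L e * y ^ n) - 1 with hm
  set m' := g' / (algebraMap K L e' * y ^ n') - 1 with hm'
  have hE : g * g' / (algebraMap K L (e * e') * y ^ (n + n')) - 1 = m + m' + m * m' := by
    rw [hm, hm', map_mul, zpow_add₀ hy]
    field_simp
    ring
  rw [hE]
  have h1 : ρ.O.valuation (m * m') < 1 := by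
    rw [map_mul]; exact mul_lt_one_of_lt_of_le hv hv'.le
  exact Valuation.map_add_lt _ (Valuation.map_add_lt _ hv hv') h1

theorem HAC.inv {ρ : Red K L κ l} {y g : L} (hy : y ≠ 0) (h : HAC ρ y g) :
    HAC ρ y g⁻¹ := by
  obtain ⟨e, n, he, hv⟩ := h
  refine ⟨e⁻¹, -n, inv_ne_zero he, ?_⟩
  have heL : algebraMap K L e ≠ 0 := by simpa using he
  have hyn : y ^ n ≠ 0 := zpow_ne_zero _ hy
  set f := algebraMap K L e * y ^ n with hf
  have hf0 : f ≠ 0 := mul_ne_zero heL hyn
  have hvg : ρ.O.valuation g = ρ.O.valuation f := HA_valuation_of hf0 hv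
  have hg0 : g ≠ 0 := by
    rw [← Valuation.ne_zero_iff ρ.O.valuation, hvg, Valuation.ne_zero_iff]; exact hf0
  have hE : g⁻¹ / (algebraMap K L e⁻¹ * y ^ (-n)) - 1 = - ((g / f - 1) * (f / g)) := by
    rw [map_inv₀, zpow_neg, ← mul_inv, ← hf]
    field_simp
    ring
  rw [hE, Valuation.map_neg, map_mul, map_div₀ _ f g, hvg, div_self, mul_one]
  · exact hv
  · exact (Valuation.ne_zero_iff _).2 hf0

theorem HAC.const (ρ : Red K L κ l) (y : L) {e : K} (he : e ≠ 0) :
    HAC ρ y (algebraMap K L e) := by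
  refine ⟨e, 0, he, ?_⟩
  have heL : algebraMap K L e ≠ 0 := by simpa using he
  rw [zpow_zero, mul_one, div_self heL, sub_self, map_zero]
  exact zero_lt_one

theorem HAC.poly {ρ : Red K L κ l} {x y : L} (hy : y ≠ 0) {P : Polynomial K} (hP : P ≠ 0)
    (h : ∀ s ∈ P.roots, HAC ρ y (x - algebraMap K L s)) : HAC ρ y (Polynomial.aeval x P) := by
  have h1 := (IsAlgClosed.splits P).eq_prod_roots
  have h2 : Polynomial.aeval x P = algebraMap K L P.leadingCoeff *
      (P.roots.map (fun s => x - algebraMap K L s)).prod := by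
    conv_lhs => rw [h1]
    rw [map_mul, Polynomial.aeval_C, map_multiset_prod, Multiset.map_map]
    congr 2
    apply Multiset.map_congr rfl
    intro s _
    simp
  rw [h2]
  refine HAC.mul hy (HAC.const ρ y (Polynomial.leadingCoeff_ne_zero.2 hP)) ?_
  generalize P.roots = S at h
  induction S using Multiset.induction_on with
  | empty => simpa using HAC.const ρ y (one_ne_zero (α := K))
  | cons a S ih =>
    rw [Multiset.map_cons, Multiset.prod_cons]
    exact HAC.mul hy (h a (Multiset.mem_cons_self _ _))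
      (ih fun s hs => h s (Multiset.mem_cons_of_mem hs))

/-- an element `e (1 + m)` of the valuation ring has residue in `κ` -/
theorem HA_residue {ρ : Red K L κ l} {g : L} (hg : g ∈ ρ.O) {e : K} (he : e ≠ 0)
    (h : ρ.O.valuation (g / algebraMap K L e - 1) < 1) : ∃ c : κ, algebraMap κ l c = ρ.ψ ⟨g, hg⟩ := by
  have heL : algebraMap K L e ≠ 0 := by simpa using he
  have hv := HA_valuation_of heL h
  have heO : algebraMap K L e ∈ ρ.O := by
    rw [← ρ.O.valuation_le_one_iff, ← hv, ρ.O.valuation_le_one_iff]; exact hg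
  have heR : e ∈ ρ.R := (ρ.mem e).2 heO
  refine ⟨ρ.φ ⟨e, heR⟩, ?_⟩
  rw [← ρ.compat ⟨e, heR⟩ heO, ← sub_eq_zero, ← map_sub, HA_ψ_eq_zero_iff]
  have hE : (((⟨algebraMap K L e, heO⟩ : ρ.O) - ⟨g, hg⟩ : ρ.O) : L) =
      - (algebraMap K L e * (g / algebraMap K L e - 1)) := by
    push_cast
    field_simp
    ring
  rw [hE, Valuation.map_neg, map_mul, mul_comm]
  exact mul_lt_one_of_lt_of_le h ((ρ.O.valuation_le_one_iff _).2 heO)

theorem HAC.residue {ρ : Red K L κ l} {y g : L} (hy : y ≠ 0) (hg : g ∈ ρ.O)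
    (hyc : y = 1 ∨ ∀ c : K, ρ.O.valuation y ≠ ρ.O.valuation (algebraMap K L c)) (h : HAC ρ y g) :
    ∃ c : κ, algebraMap κ l c = ρ.ψ ⟨g, hg⟩ := by
  by_cases hψ : ρ.ψ ⟨g, hg⟩ = 0
  · exact ⟨0, by rw [hψ, map_zero]⟩
  have hvg : ρ.O.valuation g = 1 := (HA_ψ_ne_zero_iff ρ ⟨g, hg⟩).1 hψ
  obtain ⟨e, n, he, hv⟩ := h
  have heL : algebraMap K L e ≠ 0 := by simpa using he
  rcases hyc with rfl | hyc
  · rw [one_zpow, mul_one] at hv
    exact HA_residue hg he hv
  · by_cases hn : n = 0
    · rw [hn, zpow_zero, mul_one] at hv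
      exact HA_residue hg he hv
    · exfalso
      have hyn : y ^ n ≠ 0 := zpow_ne_zero _ hy
      have h1 := HA_valuation_of (mul_ne_zero heL hyn) hv
      rw [hvg, map_mul, map_zpow₀] at h1
      obtain ⟨d, hd⟩ := IsAlgClosed.exists_pow_nat_eq e (Int.natAbs_pos.2 hn)
      have hd0 : d ≠ 0 := by
        rintro rfl
        rw [zero_pow (Int.natAbs_ne_zero.2 hn)] at hd
        exact he hd.symm
      have hdL : algebraMap K L d ≠ 0 := by simpa using hd0
      have hvy : ρ.O.valuation y ≠ 0 := (Valuation.ne_zero_iff _).2 hy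
      have hvd : ρ.O.valuation (algebraMap K L d) ≠ 0 := (Valuation.ne_zero_iff _).2 hdL
      rcases le_or_gt 0 n with hn0 | hn0
      · obtain ⟨N, rfl⟩ := Int.eq_ofNat_of_zero_le hn0
        have hN : N ≠ 0 := by rintro rfl; exact hn rfl
        rw [Int.natAbs_natCast] at hd
        rw [← hd, map_pow, map_pow, zpow_natCast, ← mul_pow] at h1
        have h2 : ρ.O.valuation (algebraMap K L d) * ρ.O.valuation y = 1 :=
          (pow_eq_one_iff_of_nonneg zero_le hN).1 h1.symm
        apply hyc d⁻¹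
        rw [map_inv₀, map_inv₀]
        exact eq_inv_of_mul_eq_one_right h2
      · obtain ⟨N, hN'⟩ := Int.eq_ofNat_of_zero_le (neg_nonneg.2 hn0.le)
        have hnN : n = -(N : ℤ) := by omega
        subst hnN
        have hN : N ≠ 0 := by rintro rfl; exact hn rfl
        rw [Int.natAbs_neg, Int.natAbs_natCast] at hd
        rw [← hd, map_pow, map_pow, zpow_neg, zpow_natCast] at h1
        have h3 : ρ.O.valuation y ^ N = ρ.O.valuation (algebraMap K L d) ^ N := by
          have : ρ.O.valuation y ^ N ≠ 0 := pow_ne_zero _ hvy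
          field_simp at h1
          exact h1
        exact hyc d ((pow_left_inj₀ zero_le zero_le hN).1 h3)

/-- The residue field of `K(x)` is transcendental over `κ`. -/
theorem HA_exists_transcendental (ρ : Red K L κ l) (htr : Algebra.trdeg K L = 1)
    (hb : ∃ b : ρ.O, Transcendental κ (ρ.ψ b)) {x : L} (hx : Transcendental K x) :
    ∃ (P Q : Polynomial K), P ≠ 0 ∧ Q ≠ 0 ∧
      ∃ h : Polynomial.aeval x P / Polynomial.aeval x Q ∈ ρ.O,
      ¬ ∃ c : κ, algebraMap κ l c = ρ.ψ ⟨_, h⟩ := by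
  classical
  by_contra hcon
  push Not at hcon
  obtain ⟨b, hb⟩ := hb
  obtain ⟨n, P, hP, hsum⟩ := HA_exists_rel htr hx (b : L)
  have hne : ((Finset.range (n + 1)).filter (fun i => P i ≠ 0)).Nonempty := by
    obtain ⟨i, hi, hPi⟩ := hP
    exact ⟨i, by simp only [Finset.mem_filter]; exact ⟨hi, hPi⟩⟩
  obtain ⟨j, hj, hmax⟩ := Finset.exists_max_image _
    (fun i => ρ.O.valuation (Polynomial.aeval x (P i))) hne
  rw [Finset.mem_filter] at hj
  have hx0 : ∀ Q : Polynomial K, Q ≠ 0 → Polynomial.aeval x Q ≠ 0 := by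
    intro Q hQ h0
    exact hx ⟨Q, hQ, h0⟩
  have hj0 : Polynomial.aeval x (P j) ≠ 0 := hx0 _ hj.2
  have hvj : ρ.O.valuation (Polynomial.aeval x (P j)) ≠ 0 := (Valuation.ne_zero_iff _).2 hj0
  have hmem : ∀ i ∈ Finset.range (n + 1),
      Polynomial.aeval x (P i) / Polynomial.aeval x (P j) ∈ ρ.O := by
    intro i hi
    by_cases hPi : P i = 0
    · rw [hPi, map_zero, zero_div]; exact zero_mem _
    · rw [← ρ.O.valuation_le_one_iff, map_div₀]
      have := hmax i (by rw [Finset.mem_filter]; exact ⟨hi, hPi⟩)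
      rwa [div_le_one₀ (zero_lt_iff.2 hvj)]
  have hc : ∀ i, ∃ c : κ, ∀ hi : i ∈ Finset.range (n + 1), algebraMap κ l c = ρ.ψ ⟨_, hmem i hi⟩ := by
    intro i
    by_cases hi : i ∈ Finset.range (n + 1)
    · by_cases hPi : P i = 0
      · refine ⟨0, fun _ => ?_⟩
        have : (⟨_, hmem i hi⟩ : ρ.O) = 0 := by
          apply Subtype.ext
          simp [hPi]
        rw [this, map_zero, map_zero]
      · obtain ⟨c, hc⟩ := hcon (P i) (P j) hPi hj.2 (hmem i hi)
        exact ⟨c, fun _ => hc⟩
    · exact ⟨0, fun h => absurd h hi⟩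
  choose c hc using hc
  apply hb
  refine ⟨∑ i ∈ Finset.range (n + 1), Polynomial.monomial i (c i), ?_, ?_⟩
  · intro h0
    have h1 := congrArg (fun q => Polynomial.coeff q j) h0
    simp only [Polynomial.finsetSum_coeff, Polynomial.coeff_monomial, Polynomial.coeff_zero,
      Finset.sum_ite_eq', hj.1, if_true] at h1
    have h2 := hc j hj.1
    rw [h1, map_zero] at h2
    have h3 : (⟨_, hmem j hj.1⟩ : ρ.O) = 1 := by
      apply Subtype.ext
      change Polynomial.aeval x (P j) / Polynomial.aeval x (P j) = 1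
      exact div_self hj0
    rw [h3, map_one] at h2
    exact zero_ne_one h2
  · have hsum2 : ∑ i ∈ (Finset.range (n + 1)).attach,
        (⟨_, hmem i.1 i.2⟩ : ρ.O) * b ^ (i : ℕ) = 0 := by
      apply Subtype.ext
      push_cast
      have h4 : ∑ i ∈ (Finset.range (n + 1)).attach,
          (fun i : ℕ => Polynomial.aeval x (P i) / Polynomial.aeval x (P j) * (b : L) ^ i) i.1 =
          ∑ i ∈ Finset.range (n + 1),
          Polynomial.aeval x (P i) / Polynomial.aeval x (P j) * (b : L) ^ i :=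
        Finset.sum_attach (Finset.range (n + 1))
          (fun i : ℕ => Polynomial.aeval x (P i) / Polynomial.aeval x (P j) * (b : L) ^ i)
      rw [h4]
      have h5 : ∑ i ∈ Finset.range (n + 1),
          Polynomial.aeval x (P i) / Polynomial.aeval x (P j) * (b : L) ^ i =
          (∑ i ∈ Finset.range (n + 1), Polynomial.aeval x (P i) * (b : L) ^ i) /
            Polynomial.aeval x (P j) := by
        rw [Finset.sum_div]
        exact Finset.sum_congr rfl fun i _ => by ring
      rw [h5, hsum, zero_div]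
    have h6 := congrArg ρ.ψ hsum2
    rw [map_sum, map_zero] at h6
    rw [map_sum, ← h6, ← Finset.sum_attach]
    refine Finset.sum_congr rfl fun i _ => ?_
    rw [Polynomial.aeval_monomial, map_mul, map_pow, hc i.1 i.2]

/-- Residually transcendental valuations of `K(x)`, `K` algebraically closed, are Gauss valuations.
The residue field of `K(x)` is transcendental over `κ` because `L` is algebraic over `K(x)`. Let
`h = c ∏ (x - a_i)^{± 1} ∈ K(x)` have transcendental residue. If no `(x - a) / c` works, then either the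
value of some `x - a` is not a value of `K` (which is divisible), and then `h` is up to a factor of
residue `1` equal to `c' (x - a)^n`, `n = 0`; or every `a` can be improved, and an `a'` with
`x - a'` smaller than all `x - a_i` makes the residue of `h` constant. -/
theorem Red.exists_disc (ρ : Red K L κ l) (htr : Algebra.trdeg K L = 1)
    (hb : ∃ b : ρ.O, Transcendental κ (ρ.ψ b)) {x : L} (hx : Transcendental K x) :
    ∃ a c : K, c ≠ 0 ∧ ∃ h : (x - algebraMap K L a) / algebraMap K L c ∈ ρ.O,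
      Transcendental κ (ρ.ψ ⟨_, h⟩) := by
  classical
  have hκ : IsAlgClosed κ := ρ.isAlgClosed
  by_contra hcon
  push Not at hcon
  obtain ⟨P, Q, hP, hQ, hPQ, hno⟩ := HA_exists_transcendental ρ htr hb hx
  set S : Finset K := P.roots.toFinset ∪ Q.roots.toFinset with hS
  obtain ⟨a, ha⟩ : ∃ a : K, ∀ s ∈ S,
      ρ.O.valuation (x - algebraMap K L a) ≤ ρ.O.valuation (x - algebraMap K L s) := by
    rcases S.eq_empty_or_nonempty with h | h
    · exact ⟨0, by simp [h]⟩
    · obtain ⟨a, -, ha⟩ := Finset.exists_min_image S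
        (fun s => ρ.O.valuation (x - algebraMap K L s)) h
      exact ⟨a, ha⟩
  have hxs : ∀ s : K, x - algebraMap K L s ≠ 0 := by
    intro s h0
    apply hx
    rw [sub_eq_zero.1 h0]
    exact isAlgebraic_algebraMap s
  -- it suffices to find `y`
  suffices H : ∃ y : L, y ≠ 0 ∧ (y = 1 ∨ ∀ c : K, ρ.O.valuation y ≠
      ρ.O.valuation (algebraMap K L c)) ∧ ∀ s ∈ S, HAC ρ y (x - algebraMap K L s) by
    obtain ⟨y, hy, hyc, hyS⟩ := H
    apply hno
    refine HAC.residue hy hPQ hyc ?_
    rw [div_eq_mul_inv]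
    refine HAC.mul hy (HAC.poly hy hP fun s hs => hyS s ?_)
      (HAC.inv hy (HAC.poly hy hQ fun s hs => hyS s ?_))
    · rw [hS, Finset.mem_union]; left; rwa [Multiset.mem_toFinset]
    · rw [hS, Finset.mem_union]; right; rwa [Multiset.mem_toFinset]
  by_cases hval : ∃ c : K, ρ.O.valuation (x - algebraMap K L a) = ρ.O.valuation (algebraMap K L c)
  · obtain ⟨c, hc⟩ := hval
    have hva : ρ.O.valuation (x - algebraMap K L a) ≠ 0 := (Valuation.ne_zero_iff _).2 (hxs a)
    have hcL : algebraMap K L c ≠ 0 := by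
      intro h0; rw [h0, map_zero] at hc; exact hva hc
    have hc0 : c ≠ 0 := by rintro rfl; exact hcL (map_zero _)
    have hz1 : ρ.O.valuation ((x - algebraMap K L a) / algebraMap K L c) = 1 := by
      rw [map_div₀, hc, div_self]; rw [← hc]; exact hva
    have hzO : (x - algebraMap K L a) / algebraMap K L c ∈ ρ.O :=
      (ρ.O.valuation_le_one_iff _).1 hz1.le
    have h1 : IsAlgebraic κ (ρ.ψ ⟨_, hzO⟩) := by
      have := hcon a c hc0 hzO
      rwa [Transcendental, not_not] at this
    obtain ⟨ε, hε⟩ := HA_algebraMap_of_isAlgebraic h1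
    obtain ⟨e, he⟩ := ρ.φ_surj ε
    have heO : algebraMap K L (e : K) ∈ ρ.O := (ρ.mem _).1 e.2
    have h2 : ρ.O.valuation ((x - algebraMap K L a) / algebraMap K L c - algebraMap K L (e : K)) < 1 := by
      have h3 : ρ.ψ (⟨_, hzO⟩ - ⟨_, heO⟩) = 0 := by
        rw [map_sub, ρ.compat e heO, he, hε, sub_self]
      rw [HA_ψ_eq_zero_iff] at h3
      exact h3
    set a' : K := a + c * e with ha'
    have hva' : ρ.O.valuation (x - algebraMap K L a') < ρ.O.valuation (x - algebraMap K L a) := by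
      have h4 : x - algebraMap K L a' = algebraMap K L c *
          ((x - algebraMap K L a) / algebraMap K L c - algebraMap K L (e : K)) := by
        rw [ha', map_add, map_mul]
        field_simp
        ring
      rw [h4, map_mul, hc]
      have hcp : 0 < ρ.O.valuation (algebraMap K L c) := by
        rw [← hc]; exact zero_lt_iff.2 hva
      exact mul_lt_of_lt_one_right hcp h2
    refine ⟨1, one_ne_zero, Or.inl rfl, fun s hs => ?_⟩
    have hs1 : ρ.O.valuation (x - algebraMap K L a') < ρ.O.valuation (x - algebraMap K L s) :=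
      lt_of_lt_of_le hva' (ha s hs)
    have hsub : algebraMap K L (a' - s) = (x - algebraMap K L s) - (x - algebraMap K L a') := by
      rw [map_sub]; ring
    have hvs : ρ.O.valuation (algebraMap K L (a' - s)) = ρ.O.valuation (x - algebraMap K L s) := by
      rw [hsub]; exact Valuation.map_sub_eq_of_lt_left _ hs1
    have hne : algebraMap K L (a' - s) ≠ 0 := by
      rw [← Valuation.ne_zero_iff ρ.O.valuation, hvs, Valuation.ne_zero_iff]; exact hxs s
    refine ⟨a' - s, 0, fun h => hne (by rw [h, map_zero]), ?_⟩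
    rw [zpow_zero, mul_one]
    have h5 : (x - algebraMap K L s) / algebraMap K L (a' - s) - 1 =
        (x - algebraMap K L a') / algebraMap K L (a' - s) := by
      rw [div_sub_one hne, hsub]
      congr 1
      ring
    rw [h5, map_div₀, hvs]
    rw [div_lt_one₀]
    · exact hs1
    · exact zero_lt_iff.2 ((Valuation.ne_zero_iff _).2 (hxs s))
  · push Not at hval
    refine ⟨x - algebraMap K L a, hxs a, Or.inr hval, fun s hs => ?_⟩
    rcases lt_trichotomy (ρ.O.valuation (algebraMap K L (a - s)))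
      (ρ.O.valuation (x - algebraMap K L a)) with h | h | h
    · refine ⟨1, 1, one_ne_zero, ?_⟩
      rw [map_one, one_mul, zpow_one, div_sub_one (hxs a), map_div₀, div_lt_one₀]
      · convert h using 2
        rw [map_sub]; ring
      · exact zero_lt_iff.2 ((Valuation.ne_zero_iff _).2 (hxs a))
    · exact absurd h.symm (hval _)
    · have hne : algebraMap K L (a - s) ≠ 0 := by
        intro h0; rw [h0, map_zero] at h; exact not_lt_zero h
      refine ⟨a - s, 0, fun h => hne (by rw [h, map_zero]), ?_⟩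
      rw [zpow_zero, mul_one, div_sub_one hne, map_div₀, div_lt_one₀]
      · convert h using 2
        rw [map_sub]; ring
      · exact zero_lt_iff.2 ((Valuation.ne_zero_iff _).2 hne)

/-- Every element of `K(z)` is `c P(z) / Q(z)` with `P, Q` with coefficients in `R` and nonzero
reduction. -/
theorem Red.gauss (ρ : Red K L κ l) (z : ρ.O) (hz : Transcendental κ (ρ.ψ z))
    (P : Polynomial K) (hP : P ≠ 0) :
    ∃ (c : K) (Q : Polynomial ρ.R), c ≠ 0 ∧ P = Polynomial.C c * Q.map ρ.R.subtype ∧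
      Q.map ρ.φ ≠ 0 := by
  classical
  have hne : P.support.Nonempty := Polynomial.support_nonempty.2 hP
  obtain ⟨j, hj, hmax⟩ := Finset.exists_max_image P.support
    (fun i => ρ.O.valuation (algebraMap K L (P.coeff i))) hne
  set c : K := P.coeff j with hc
  have hc0 : c ≠ 0 := Polynomial.mem_support_iff.1 hj
  have hcL : algebraMap K L c ≠ 0 := by simpa using hc0
  have hmem : ∀ i, P.coeff i / c ∈ ρ.R := by
    intro i
    rw [ρ.mem, ← ρ.O.valuation_le_one_iff, map_div₀, map_div₀, div_le_one₀]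
    · by_cases hi : i ∈ P.support
      · exact hmax i hi
      · rw [Polynomial.notMem_support_iff.1 hi, map_zero, map_zero]; exact zero_le
    · exact zero_lt_iff.2 ((Valuation.ne_zero_iff _).2 hcL)
  refine ⟨c, ∑ i ∈ P.support, Polynomial.monomial i ⟨P.coeff i / c, hmem i⟩, hc0, ?_, ?_⟩
  · ext n
    rw [Polynomial.coeff_C_mul, Polynomial.coeff_map, Polynomial.finsetSum_coeff, map_sum]
    simp only [Polynomial.coeff_monomial]
    rw [Finset.sum_eq_single n]
    · rw [if_pos rfl]
      change P.coeff n = c * (P.coeff n / c)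
      field_simp
    · intro i _ hi
      rw [if_neg hi, map_zero]
    · intro hn
      rw [if_pos rfl]
      change P.coeff n / c = 0
      rw [Polynomial.notMem_support_iff.1 hn, zero_div]
  · intro h0
    have h1 := congrArg (fun q => Polynomial.coeff q j) h0
    simp only [Polynomial.coeff_map, Polynomial.finsetSum_coeff, Polynomial.coeff_monomial,
      Polynomial.coeff_zero, Finset.sum_ite_eq', hj, if_true] at h1
    have h2 : (⟨P.coeff j / c, hmem j⟩ : ρ.R) = 1 := Subtype.ext (div_self hc0)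
    rw [h2, map_one] at h1
    exact one_ne_zero h1

/-- The value group of `L` is the value group of `K` (divisible). -/
theorem Red.exists_scale (ρ : Red K L κ l) (htr : Algebra.trdeg K L = 1)
    (hb : ∃ b : ρ.O, Transcendental κ (ρ.ψ b)) {g : L} (hg : g ≠ 0) :
    ∃ c : K, c ≠ 0 ∧ ∃ h : g / algebraMap K L c ∈ ρ.O, ρ.ψ ⟨_, h⟩ ≠ 0 := by
  classical
  obtain ⟨b, hb⟩ := hb
  -- `b` is transcendental over `K`
  have hbK : Transcendental K (b : L) := by
    intro halg
    obtain ⟨c, hc⟩ := HA_algebraMap_of_isAlgebraic halg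
    have hcO : algebraMap K L c ∈ ρ.O := by rw [hc]; exact b.2
    have hcR : c ∈ ρ.R := (ρ.mem c).2 hcO
    apply hb
    have h1 : b = ⟨algebraMap K L c, hcO⟩ := Subtype.ext hc.symm
    rw [h1]
    have h2 := ρ.compat ⟨c, hcR⟩ hcO
    rw [h2]
    exact isAlgebraic_algebraMap _
  -- values of polynomials in `b`
  have hval : ∀ P : Polynomial K, P ≠ 0 → ∃ c : K, c ≠ 0 ∧
      ρ.O.valuation (Polynomial.aeval (b : L) P) = ρ.O.valuation (algebraMap K L c) := by
    intro P hP
    obtain ⟨c, Q, hc, hPQ, hQ⟩ := ρ.gauss b hb P hP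
    refine ⟨c, hc, ?_⟩
    -- the value of `Q` at `b`
    let f : ρ.R →+* ρ.O := ((algebraMap K L).comp ρ.R.subtype).codRestrict ρ.O.toSubring
      (fun r => (ρ.mem r).1 r.2)
    have hf : ∀ r : ρ.R, ρ.ψ (f r) = algebraMap κ l (ρ.φ r) := fun r =>
      ρ.compat r ((ρ.mem r).1 r.2)
    have h1 : ρ.ψ (Q.eval₂ f b) = Polynomial.aeval (ρ.ψ b) (Q.map ρ.φ) := by
      rw [Polynomial.hom_eval₂, Polynomial.aeval_def, Polynomial.eval₂_map]
      congr 1
      ext r
      exact hf r
    have h2 : ρ.ψ (Q.eval₂ f b) ≠ 0 := by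
      rw [h1]
      intro h0
      exact hb ⟨_, hQ, h0⟩
    have h3 : ((Q.eval₂ f b : ρ.O) : L) = Polynomial.aeval (b : L) (Q.map ρ.R.subtype) := by
      have : ((Q.eval₂ f b : ρ.O) : L) = ρ.O.subtype (Q.eval₂ f b) := rfl
      rw [this, Polynomial.hom_eval₂, Polynomial.aeval_def, Polynomial.eval₂_map]
      congr 1
    have h4 : ρ.O.valuation (Polynomial.aeval (b : L) (Q.map ρ.R.subtype)) = 1 := by
      rw [← h3]; exact (HA_ψ_ne_zero_iff ρ _).1 h2
    conv_lhs => rw [hPQ]
    rw [map_mul, Polynomial.aeval_C, map_mul, h4, mul_one]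
  -- the relation
  obtain ⟨n, P, hP, hsum⟩ := HA_exists_rel htr hbK g
  set t : ℕ → L := fun i => Polynomial.aeval (b : L) (P i) * g ^ i with ht
  have hb0 : ∀ Q : Polynomial K, Q ≠ 0 → Polynomial.aeval (b : L) Q ≠ 0 := by
    intro Q hQ h0
    exact hbK ⟨Q, hQ, h0⟩
  -- two terms of the same value
  obtain ⟨i, j, hij, hPi, hPj, hv⟩ : ∃ i j, i < j ∧ P i ≠ 0 ∧ P j ≠ 0 ∧
      ρ.O.valuation (t i) = ρ.O.valuation (t j) := by
    by_contra hcon
    push Not at hcon
    set I := (Finset.range (n + 1)).filter (fun i => P i ≠ 0) with hI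
    have hne : I.Nonempty := by
      obtain ⟨i, hi, hPi⟩ := hP
      exact ⟨i, by rw [hI, Finset.mem_filter]; exact ⟨hi, hPi⟩⟩
    obtain ⟨j, hj, hmax⟩ := Finset.exists_max_image I (fun i => ρ.O.valuation (t i)) hne
    have hjI := hj
    rw [hI, Finset.mem_filter] at hjI
    have htj : t j ≠ 0 := mul_ne_zero (hb0 _ hjI.2) (pow_ne_zero _ hg)
    have hsumI : ∑ i ∈ I, t i = 0 := by
      rw [← hsum, hI, Finset.sum_filter_of_ne]
      intro i _ hti hPi
      apply hti
      change Polynomial.aeval (b : L) (P i) * g ^ i = 0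
      rw [hPi, map_zero, zero_mul]
    rw [← Finset.add_sum_erase I t hj] at hsumI
    have hlt : ρ.O.valuation (∑ i ∈ I.erase j, t i) < ρ.O.valuation (t j) := by
      apply Valuation.map_sum_lt _ ((Valuation.ne_zero_iff _).2 htj)
      intro i hi
      rw [Finset.mem_erase] at hi
      have hiI := hi.2
      rw [hI, Finset.mem_filter] at hiI
      refine lt_of_le_of_ne (hmax i hi.2) ?_
      rcases lt_or_gt_of_ne hi.1 with h | h
      · exact hcon i j h hiI.2 hjI.2
      · exact fun he => hcon j i h hjI.2 hiI.2 he.symm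
    have h5 := Valuation.map_add_eq_of_lt_left ρ.O.valuation hlt
    rw [hsumI, map_zero] at h5
    exact htj ((Valuation.zero_iff _).1 h5.symm)
  obtain ⟨ci, hci, hvi⟩ := hval (P i) hPi
  obtain ⟨cj, hcj, hvj⟩ := hval (P j) hPj
  have hciL : algebraMap K L ci ≠ 0 := by simpa using hci
  have hcjL : algebraMap K L cj ≠ 0 := by simpa using hcj
  have hk : 0 < j - i := by omega
  obtain ⟨d, hd⟩ := IsAlgClosed.exists_pow_nat_eq (ci / cj) hk
  have hd0 : d ≠ 0 := by
    rintro rfl
    rw [zero_pow hk.ne'] at hd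
    exact div_ne_zero hci hcj hd.symm
  have hdL : algebraMap K L d ≠ 0 := by simpa using hd0
  have hvg : ρ.O.valuation g = ρ.O.valuation (algebraMap K L d) := by
    apply (pow_left_inj₀ zero_le zero_le hk.ne').1
    rw [← map_pow ρ.O.valuation (algebraMap K L d), ← map_pow (algebraMap K L), hd, map_div₀,
      map_div₀]
    have h6 : g ^ j = g ^ i * g ^ (j - i) := by rw [← pow_add]; congr 1; omega
    have hgi : ρ.O.valuation (g ^ i) ≠ 0 := (Valuation.ne_zero_iff _).2 (pow_ne_zero _ hg)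
    have hcjv : ρ.O.valuation (algebraMap K L cj) ≠ 0 := (Valuation.ne_zero_iff _).2 hcjL
    change ρ.O.valuation (Polynomial.aeval (b : L) (P i) * g ^ i) =
      ρ.O.valuation (Polynomial.aeval (b : L) (P j) * g ^ j) at hv
    rw [h6, map_mul, map_mul, map_mul, hvi, hvj] at hv
    rw [eq_div_iff hcjv]
    have h7 : ρ.O.valuation (g ^ i) * ρ.O.valuation (algebraMap K L ci) =
        ρ.O.valuation (g ^ i) * (ρ.O.valuation g ^ (j - i) * ρ.O.valuation (algebraMap K L cj)) := by
      rw [mul_comm, hv, map_pow _ g (j - i)]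
      ac_rfl
    exact (mul_left_cancel₀ hgi h7).symm
  have hone : ρ.O.valuation (g / algebraMap K L d) = 1 := by
    rw [map_div₀, hvg, div_self]
    exact (Valuation.ne_zero_iff _).2 hdL
  have hO : g / algebraMap K L d ∈ ρ.O := (ρ.O.valuation_le_one_iff _).1 hone.le
  exact ⟨d, hd0, hO, (HA_ψ_ne_zero_iff ρ ⟨_, hO⟩).2 hone⟩

end Pool.Agent.Arith
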