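import Pool.Agent.Lib.MP_c0402d_ag.HA

/-!
# JOB HB: quadratic extensions: residue fields and derivations

Let `M` be a subfield of `L`, `r ∈ L` with `r² ∈ M`, `r` a unit of `O`, residue characteristic zero.
Let `u = α + β r ∈ O`, `α, β ∈ M`. Either `α, β ∈ O`; or `α ∉ O`, and then, with
`n = α² - β² r²`, the polynomial `h(U) = U² / (2α) - U + n / (2α)` has coefficients in `O ∩ M`
(`n / α = u u' / α`, `u' = 2 α - u`), `h(u) = 0` and `h'(u) = u / α - 1` is a unit with residue `-1`.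
So the residue of `u` is the residue of `n / (2α)`, and a derivation preserving `O ∩ M` satisfies
`d u = - h^d(u) / h'(u) ∈ O`.
-/

set_option autoImplicit false

namespace Pool.Agent.Arith

open KaehlerDifferential

variable {K L κ l : Type} [Field K] [CharZero K] [IsAlgClosed K] [Field L] [Algebra K L]
  [Field κ] [CharZero κ] [Field l] [Algebra κ l]

private theorem HB_unit (ρ : Red K L κ l) {x : L} (hx : x ∈ ρ.O) (h : ρ.ψ ⟨x, hx⟩ ≠ 0) :
    x ≠ 0 ∧ x⁻¹ ∈ ρ.O := (ρ.ψ_ne_zero_iff ⟨x, hx⟩).1 h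

private theorem HB_out (ρ : Red K L κ l) {x : L} (hx : x ∉ ρ.O) :
    ∃ h : x⁻¹ ∈ ρ.O, ρ.ψ ⟨x⁻¹, h⟩ = 0 := by
  have h : x⁻¹ ∈ ρ.O := (ρ.O.mem_or_inv_mem x).resolve_left hx
  refine ⟨h, ?_⟩
  by_contra h'
  exact hx (by simpa using (HB_unit ρ h h').2)

/-- one quadratic step -/
theorem Red.quadratic_step (ρ : Red K L κ l) (M : Subfield L) (r : ρ.O) (hr : ρ.ψ r ≠ 0)
    (hrM : (r : L) ^ 2 ∈ M) (k : Subfield l) (hk : ∀ u : ρ.O, (u : L) ∈ M → ρ.ψ u ∈ k)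
    (d : Derivation K L L) (hd : ∀ u ∈ M, d u ∈ M) (hdO : ∀ u ∈ M, u ∈ ρ.O → d u ∈ ρ.O)
    (N : Subfield L) (hN : ∀ u, u ∈ N ↔ ∃ α ∈ M, ∃ β ∈ M, u = α + β * r)
    (k' : Subfield l) (hk' : k ≤ k') (hrk : ρ.ψ r ∈ k') :
    (∀ u : ρ.O, (u : L) ∈ N → ρ.ψ u ∈ k') ∧ (∀ u ∈ N, d u ∈ N) ∧
      (∀ u ∈ N, u ∈ ρ.O → d u ∈ ρ.O) := by
  have hr0 := (ρ.ψ_ne_zero_iff r).1 hr
  have hcharl : CharZero l := charZero_of_injective_algebraMap (algebraMap κ l).injective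
  have hcharL : CharZero L := charZero_of_injective_algebraMap (algebraMap K L).injective
  have h2 : (2 : L) ≠ 0 := two_ne_zero
  have h2O : (2 : L)⁻¹ ∈ ρ.O := by
    have h : ρ.ψ (2 : ρ.O) ≠ 0 := by rw [map_ofNat]; exact two_ne_zero
    exact ((ρ.ψ_ne_zero_iff (2 : ρ.O)).1 h).2
  have h2M : (2 : L)⁻¹ ∈ M := M.inv_mem (by exact_mod_cast natCast_mem M 2)
  have hr2O : (r : L) ^ 2 ∈ ρ.O := ρ.O.pow_mem r.2 2
  have hr2inv : ((r : L) ^ 2)⁻¹ ∈ M := M.inv_mem hrM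
  -- the derivative of `r`
  have hdr0 : d ((r : L) ^ 2) = 2 * r * d r := by
    rw [Derivation.leibniz_pow]; simp; ring
  have hdr1 : d (r : L) = (d ((r : L) ^ 2) * 2⁻¹ * ((r : L) ^ 2)⁻¹) * r := by
    rw [hdr0]; field_simp [hr0.1]
  have hdrM : d ((r : L) ^ 2) * 2⁻¹ * ((r : L) ^ 2)⁻¹ ∈ M :=
    M.mul_mem (M.mul_mem (hd _ hrM) h2M) hr2inv
  have hdrO : d (r : L) ∈ ρ.O := by
    have : d (r : L) = d ((r : L) ^ 2) * 2⁻¹ * (r : L)⁻¹ := by
      rw [hdr0]; field_simp [hr0.1]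
    rw [this]
    exact ρ.O.mul_mem _ _ (ρ.O.mul_mem _ _ (hdO _ hrM hr2O) h2O) hr0.2
  -- the dichotomy
  have key : ∀ α ∈ M, ∀ β ∈ M, α + β * r ∈ ρ.O → (α ∈ ρ.O ∧ β ∈ ρ.O) ∨ α ∉ ρ.O := by
    intro α hα β hβ hu
    by_cases h : α ∈ ρ.O
    · left
      refine ⟨h, ?_⟩
      have h1 : β * r ∈ ρ.O := by
        have := ρ.O.sub_mem hu h
        simpa using this
      have h2 : β = (β * r) * (r : L)⁻¹ := by field_simp [hr0.1]
      rw [h2]
      exact ρ.O.mul_mem _ _ h1 hr0.2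
    · right; exact h
  have key2 : ∀ α ∈ M, ∀ β ∈ M, ∀ u : ρ.O, (u : L) = α + β * r → α ∉ ρ.O →
      ∃ v w : ρ.O, (v : L) ∈ M ∧ (w : L) ∈ M ∧ ρ.ψ v = 0 ∧ w = u - v * u ^ 2 := by
    intro α hα β hβ u hu hαO
    obtain ⟨hαi, hψ⟩ := HB_out ρ hαO
    have hα0 : α ≠ 0 := by rintro rfl; exact hαO ρ.O.zero_mem
    refine ⟨⟨2⁻¹, h2O⟩ * ⟨α⁻¹, hαi⟩, u - (⟨2⁻¹, h2O⟩ * ⟨α⁻¹, hαi⟩) * u ^ 2, ?_, ?_, ?_, rfl⟩
    · exact M.mul_mem h2M (M.inv_mem hα)
    · have e : ((u - (⟨2⁻¹, h2O⟩ * ⟨α⁻¹, hαi⟩) * u ^ 2 : ρ.O) : L) =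
          (α ^ 2 - β ^ 2 * (r : L) ^ 2) * (2⁻¹ * α⁻¹) := by
        push_cast
        rw [hu]
        field_simp
        ring
      rw [e]
      exact M.mul_mem (M.sub_mem (M.pow_mem hα 2) (M.mul_mem (M.pow_mem hβ 2) hrM))
        (M.mul_mem h2M (M.inv_mem hα))
    · rw [map_mul, hψ, mul_zero]
  refine ⟨?_, ?_, ?_⟩
  · intro u hu
    obtain ⟨α, hα, β, hβ, e⟩ := (hN _).1 hu
    rcases key α hα β hβ (e ▸ u.2) with ⟨h1, h2⟩ | h1
    · have e' : u = ⟨α, h1⟩ + ⟨β, h2⟩ * r := Subtype.ext e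
      rw [e', map_add, map_mul]
      exact k'.add_mem (hk' (hk _ hα)) (k'.mul_mem (hk' (hk _ hβ)) hrk)
    · obtain ⟨v, w, hv, hw, hv0, hw'⟩ := key2 α hα β hβ u e h1
      have : ρ.ψ u = ρ.ψ w := by rw [hw', map_sub, map_mul, hv0, zero_mul, sub_zero]
      rw [this]
      exact hk' (hk _ hw)
  · intro u hu
    obtain ⟨α, hα, β, hβ, rfl⟩ := (hN _).1 hu
    refine (hN _).2 ⟨d α, hd _ hα, d β + β * (d ((r : L) ^ 2) * 2⁻¹ * ((r : L) ^ 2)⁻¹),
      M.add_mem (hd _ hβ) (M.mul_mem hβ hdrM), ?_⟩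
    rw [map_add, Derivation.leibniz, hdr1]
    simp only [smul_eq_mul]
    ring
  · intro u hu huO
    obtain ⟨α, hα, β, hβ, e⟩ := (hN _).1 hu
    rcases key α hα β hβ (e ▸ huO) with ⟨h1, h2⟩ | h1
    · rw [e, map_add, Derivation.leibniz]
      exact ρ.O.add_mem _ _ (hdO _ hα h1) (ρ.O.add_mem _ _ (ρ.O.mul_mem _ _ h2 hdrO)
        (ρ.O.mul_mem _ _ r.2 (hdO _ hβ h2)))
    · obtain ⟨v, w, hv, hw, hv0, hw'⟩ := key2 α hα β hβ ⟨u, huO⟩ e h1
      have e1 : (w : L) = u - v * u ^ 2 := by rw [hw']; rfl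
      have e2 : d (w : L) = d u - (v * (2 * u * d u) + u ^ 2 * d (v : L)) := by
        rw [e1, map_sub, Derivation.leibniz, Derivation.leibniz_pow]
        simp only [smul_eq_mul, nsmul_eq_mul]
        push_cast
        ring
      have e3 : ρ.ψ (1 - 2 * ⟨u, huO⟩ * v) ≠ 0 := by
        rw [map_sub, map_mul, hv0, mul_zero, sub_zero, map_one]; exact one_ne_zero
      have e4 := (ρ.ψ_ne_zero_iff _).1 e3
      have e5 : ((1 - 2 * ⟨u, huO⟩ * v : ρ.O) : L) = 1 - 2 * u * v := rfl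
      rw [e5] at e4
      have e6 : d u = (d (w : L) + u ^ 2 * d (v : L)) * (1 - 2 * u * v)⁻¹ := by
        rw [e2, eq_mul_inv_iff_mul_eq₀ e4.1]
        ring
      rw [e6]
      exact ρ.O.mul_mem _ _ (ρ.O.add_mem _ _ (hdO _ hw w.2)
        (ρ.O.mul_mem _ _ (ρ.O.pow_mem huO 2) (hdO _ hv v.2))) e4.2

/-- The subfield `M + M r` -/
private def HB_quad (M : Subfield L) (r : L) (hr : r ^ 2 ∈ M) : Subfield L where
  carrier := {u | ∃ α ∈ M, ∃ β ∈ M, u = α + β * r}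
  mul_mem' := by
    rintro _ _ ⟨a, ha, b, hb, rfl⟩ ⟨a', ha', b', hb', rfl⟩
    refine ⟨a * a' + b * b' * r ^ 2, M.add_mem (M.mul_mem ha ha') (M.mul_mem (M.mul_mem hb hb') hr),
      a * b' + b * a', M.add_mem (M.mul_mem ha hb') (M.mul_mem hb ha'), by ring⟩
  one_mem' := ⟨1, M.one_mem, 0, M.zero_mem, by ring⟩
  add_mem' := by
    rintro _ _ ⟨a, ha, b, hb, rfl⟩ ⟨a', ha', b', hb', rfl⟩
    exact ⟨a + a', M.add_mem ha ha', b + b', M.add_mem hb hb', by ring⟩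
  zero_mem' := ⟨0, M.zero_mem, 0, M.zero_mem, by ring⟩
  neg_mem' := by
    rintro _ ⟨a, ha, b, hb, rfl⟩
    exact ⟨-a, M.neg_mem ha, -b, M.neg_mem hb, by ring⟩
  inv_mem' := by
    rintro _ ⟨a, ha, b, hb, rfl⟩
    by_cases h0 : a + b * r = 0
    · rw [h0, inv_zero]
      exact ⟨0, M.zero_mem, 0, M.zero_mem, by ring⟩
    by_cases h1 : a - b * r = 0
    · have : a + b * r = 2 * a := by linear_combination -h1
      rw [this]
      exact ⟨(2 * a)⁻¹, M.inv_mem (M.mul_mem (by exact_mod_cast natCast_mem M 2) ha), 0,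
        M.zero_mem, by ring⟩
    · have hn : a ^ 2 - b ^ 2 * r ^ 2 ∈ M :=
        M.sub_mem (M.pow_mem ha 2) (M.mul_mem (M.pow_mem hb 2) hr)
      refine ⟨a * (a ^ 2 - b ^ 2 * r ^ 2)⁻¹, M.mul_mem ha (M.inv_mem hn),
        -b * (a ^ 2 - b ^ 2 * r ^ 2)⁻¹, M.mul_mem (M.neg_mem hb) (M.inv_mem hn), ?_⟩
      have e : a ^ 2 - b ^ 2 * r ^ 2 = (a + b * r) * (a - b * r) := by ring
      rw [e, mul_inv]
      field_simp
      ring

private theorem HB_mem_quad (M : Subfield L) (r : L) (hr : r ^ 2 ∈ M) (u : L) :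
    u ∈ HB_quad M r hr ↔ ∃ α ∈ M, ∃ β ∈ M, u = α + β * r := Iff.rfl

private theorem HB_le_quad (M : Subfield L) (r : L) (hr : r ^ 2 ∈ M) : M ≤ HB_quad M r hr :=
  fun u hu => ⟨u, hu, 0, M.zero_mem, by ring⟩

private theorem HB_r_mem_quad (M : Subfield L) (r : L) (hr : r ^ 2 ∈ M) : r ∈ HB_quad M r hr :=
  ⟨0, M.zero_mem, 1, M.one_mem, by ring⟩

/-- the inclusion `R → O` -/
private def HB_inc (ρ : Red K L κ l) : ρ.R →+* ρ.O where
  toFun r := ⟨algebraMap K L r, (ρ.mem r).1 r.2⟩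
  map_one' := Subtype.ext (by simp)
  map_mul' a b := Subtype.ext (by simp)
  map_zero' := Subtype.ext (by simp)
  map_add' a b := Subtype.ext (by simp)

private theorem HB_ψ_inc (ρ : Red K L κ l) : ρ.ψ.comp (HB_inc ρ) = (algebraMap κ l).comp ρ.φ := by
  ext r
  exact ρ.compat r _

/-- evaluation of a polynomial over `R` at a point of `O` -/
private noncomputable def HB_E (ρ : Red K L κ l) (z : ρ.O) (Q : Polynomial ρ.R) : ρ.O :=
  Q.eval₂ (HB_inc ρ) z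

private theorem HB_ψ_E (ρ : Red K L κ l) (z : ρ.O) (Q : Polynomial ρ.R) :
    ρ.ψ (HB_E ρ z Q) = Polynomial.aeval (ρ.ψ z) (Q.map ρ.φ) := by
  rw [HB_E, Polynomial.hom_eval₂, HB_ψ_inc, Polynomial.aeval_def, Polynomial.eval₂_map]

private theorem HB_coe_E (ρ : Red K L κ l) (z : ρ.O) (Q : Polynomial ρ.R) :
    ((HB_E ρ z Q : ρ.O) : L) = Polynomial.aeval (z : L) (Q.map ρ.R.subtype) := by
  rw [HB_E, Polynomial.aeval_def, Polynomial.eval₂_map]
  have := Polynomial.hom_eval₂ Q (HB_inc ρ) ρ.O.subtype z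
  exact this

private theorem HB_E_ne (ρ : Red K L κ l) (z : ρ.O) (hz : Transcendental κ (ρ.ψ z))
    (Q : Polynomial ρ.R) (hQ : Q.map ρ.φ ≠ 0) : ρ.ψ (HB_E ρ z Q) ≠ 0 := by
  rw [HB_ψ_E]
  exact fun h => hz ⟨_, hQ, h⟩

private theorem HB_transc (ρ : Red K L κ l) (z : ρ.O) (hz : Transcendental κ (ρ.ψ z)) :
    Transcendental K (z : L) := by
  rintro ⟨P, hP, h0⟩
  obtain ⟨c, Q, hc, e, hQ⟩ := ρ.gauss z hz P hP
  have h1 := (ρ.ψ_ne_zero_iff _).1 (HB_E_ne ρ z hz Q hQ)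
  rw [HB_coe_E] at h1
  rw [e, map_mul, Polynomial.aeval_C, mul_eq_zero] at h0
  rcases h0 with h0 | h0
  · exact hc (by simpa using h0)
  · exact h1.1 h0

/-- The case of `K(z)`. -/
private theorem HB_rational (ρ : Red K L κ l) (z : ρ.O) (hz : Transcendental κ (ρ.ψ z))
    (d : Derivation K L L) (hd : d z = 1) (u : L)
    (hu : u ∈ IntermediateField.adjoin K {(z : L)}) :
    d u ∈ IntermediateField.adjoin K {(z : L)} ∧
      ∀ h : u ∈ ρ.O, ρ.ψ ⟨u, h⟩ ∈ IntermediateField.adjoin κ {ρ.ψ z} ∧ d u ∈ ρ.O := by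
  obtain ⟨P, Q, hu⟩ := (IntermediateField.mem_adjoin_simple_iff K u).1 hu
  by_cases hP : P = 0
  · subst hP
    rw [map_zero, zero_div] at hu
    subst hu
    refine ⟨by simp, fun h => ⟨?_, by simp⟩⟩
    have : (⟨0, h⟩ : ρ.O) = 0 := rfl
    rw [this, map_zero]
    exact zero_mem _
  by_cases hQ : Q = 0
  · subst hQ
    rw [map_zero, div_zero] at hu
    subst hu
    refine ⟨by simp, fun h => ⟨?_, by simp⟩⟩
    have : (⟨0, h⟩ : ρ.O) = 0 := rfl
    rw [this, map_zero]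
    exact zero_mem _
  obtain ⟨c₁, P₀, hc₁, e₁, hP₀⟩ := ρ.gauss z hz P hP
  obtain ⟨c₂, Q₀, hc₂, e₂, hQ₀⟩ := ρ.gauss z hz Q hQ
  have hP1 := HB_E_ne ρ z hz P₀ hP₀
  have hQ1 := HB_E_ne ρ z hz Q₀ hQ₀
  have hP2 := (ρ.ψ_ne_zero_iff _).1 hP1
  have hQ2 := (ρ.ψ_ne_zero_iff _).1 hQ1
  have hder : ∀ S : Polynomial ρ.R, d ((HB_E ρ z S : ρ.O) : L) =
      ((HB_E ρ z (Polynomial.derivative S) : ρ.O) : L) := by
    intro S
    rw [HB_coe_E, HB_coe_E, Derivation.map_aeval, hd, smul_eq_mul, mul_one,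
      Polynomial.derivative_map]
  have hmem : ∀ S : Polynomial ρ.R, ((HB_E ρ z S : ρ.O) : L) ∈
      IntermediateField.adjoin K {(z : L)} := by
    intro S
    rw [HB_coe_E]
    exact (IntermediateField.mem_adjoin_simple_iff K _).2 ⟨S.map ρ.R.subtype, 1, by simp⟩
  have hu1 : u = algebraMap K L (c₁ / c₂) *
      (((HB_E ρ z P₀ : ρ.O) : L) / ((HB_E ρ z Q₀ : ρ.O) : L)) := by
    rw [hu, e₁, e₂, map_mul, map_mul, Polynomial.aeval_C, Polynomial.aeval_C, HB_coe_E, HB_coe_E,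
      map_div₀]
    have : algebraMap K L c₂ ≠ 0 := by simpa using hc₂
    rw [HB_coe_E] at hQ2
    field_simp
  have hdu : d u = algebraMap K L (c₁ / c₂) * ((((HB_E ρ z Q₀ : ρ.O) : L))⁻¹ ^ 2 *
      ((HB_E ρ z Q₀ : ρ.O) * (HB_E ρ z (Polynomial.derivative P₀) : ρ.O) -
        (HB_E ρ z P₀ : ρ.O) * (HB_E ρ z (Polynomial.derivative Q₀) : ρ.O))) := by
    rw [hu1, Derivation.leibniz, Derivation.map_algebraMap, smul_zero, add_zero,
      Derivation.leibniz_div, hder, hder]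
    simp only [smul_eq_mul]
  refine ⟨?_, fun h => ?_⟩
  · rw [hdu]
    exact mul_mem (IntermediateField.algebraMap_mem _ _) (mul_mem (pow_mem (inv_mem (hmem _)) 2)
      (sub_mem (mul_mem (hmem _) (hmem _)) (mul_mem (hmem _) (hmem _))))
  · have hc : algebraMap K L (c₁ / c₂) ∈ ρ.O := by
      have : algebraMap K L (c₁ / c₂) = u * ((HB_E ρ z Q₀ : ρ.O) : L) *
          ((HB_E ρ z P₀ : ρ.O) : L)⁻¹ := by
        rw [hu1]
        have := hP2.1
        have := hQ2.1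
        field_simp
      rw [this]
      exact mul_mem (mul_mem h (HB_E ρ z Q₀).2) hP2.2
    have hcR : c₁ / c₂ ∈ ρ.R := (ρ.mem _).2 hc
    refine ⟨?_, ?_⟩
    · have e : (⟨u, h⟩ : ρ.O) * HB_E ρ z Q₀ = ⟨algebraMap K L (c₁ / c₂), hc⟩ * HB_E ρ z P₀ := by
        apply Subtype.ext
        change u * ((HB_E ρ z Q₀ : ρ.O) : L) = algebraMap K L (c₁ / c₂) * ((HB_E ρ z P₀ : ρ.O) : L)
        rw [hu1]
        have := hQ2.1
        field_simp
      have e' := congrArg ρ.ψ e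
      rw [map_mul, map_mul, ρ.compat ⟨c₁ / c₂, hcR⟩ hc, HB_ψ_E, HB_ψ_E] at e'
      rw [HB_ψ_E] at hQ1
      have e'' := eq_div_of_mul_eq hQ1 e'
      rw [e'', mul_div_assoc]
      exact mul_mem (IntermediateField.algebraMap_mem _ _)
        ((IntermediateField.mem_adjoin_simple_iff κ _).2 ⟨_, _, rfl⟩)
    · rw [hdu]
      exact mul_mem hc (mul_mem (pow_mem hQ2.2 2) (sub_mem (mul_mem (HB_E ρ z _).2 (HB_E ρ z _).2)
        (mul_mem (HB_E ρ z _).2 (HB_E ρ z _).2)))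

/-- The result for `L = K(z)(r₁, r₂)`. -/
theorem Red.biquadratic (ρ : Red K L κ l) (z r₁ r₂ : ρ.O) (hz : Transcendental κ (ρ.ψ z))
    (h₁ : ρ.ψ r₁ ≠ 0) (h₂ : ρ.ψ r₂ ≠ 0) (g₁ g₂ : Polynomial K)
    (e₁ : (r₁ : L) ^ 2 = Polynomial.aeval (z : L) g₁)
    (e₂ : (r₂ : L) ^ 2 = Polynomial.aeval (z : L) g₂)
    (hgen : IntermediateField.adjoin K {(z : L), (r₁ : L), (r₂ : L)} = ⊤)
    (d : Derivation K L L) (hd : d z = 1) :
    (∀ u ∈ ρ.O, d u ∈ ρ.O) ∧ IntermediateField.adjoin κ {ρ.ψ z, ρ.ψ r₁, ρ.ψ r₂} = ⊤ := by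
  set M₀ : Subfield L := (IntermediateField.adjoin K {(z : L)}).toSubfield with hM₀
  set k' : IntermediateField κ l := IntermediateField.adjoin κ {ρ.ψ z, ρ.ψ r₁, ρ.ψ r₂} with hk'
  have hzM : ∀ g : Polynomial K, Polynomial.aeval (z : L) g ∈ M₀ := fun g =>
    (IntermediateField.mem_adjoin_simple_iff K _).2 ⟨g, 1, by simp⟩
  have hk0 : IntermediateField.adjoin κ {ρ.ψ z} ≤ k' := by
    apply IntermediateField.adjoin.mono
    intro x hx
    rw [Set.mem_singleton_iff] at hx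
    subst hx
    simp
  have hr₁ : (r₁ : L) ^ 2 ∈ M₀ := e₁ ▸ hzM g₁
  have step0 := fun u hu => HB_rational ρ z hz d hd u hu
  have step1 := ρ.quadratic_step M₀ r₁ h₁ hr₁ k'.toSubfield
    (fun u hu => hk0 ((step0 u hu).2 u.2).1) d (fun u hu => (step0 u hu).1)
    (fun u hu huO => ((step0 u hu).2 huO).2) (HB_quad M₀ r₁ hr₁) (HB_mem_quad M₀ r₁ hr₁)
    k'.toSubfield le_rfl (IntermediateField.subset_adjoin κ _ (by simp))
  have hr₂ : (r₂ : L) ^ 2 ∈ HB_quad M₀ r₁ hr₁ := HB_le_quad M₀ r₁ hr₁ (e₂ ▸ hzM g₂)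
  have step2 := ρ.quadratic_step (HB_quad M₀ r₁ hr₁) r₂ h₂ hr₂ k'.toSubfield step1.1 d
    step1.2.1 step1.2.2 (HB_quad _ (r₂ : L) hr₂) (HB_mem_quad _ (r₂ : L) hr₂) k'.toSubfield le_rfl
    (IntermediateField.subset_adjoin κ _ (by simp))
  have htop : ∀ u : L, u ∈ HB_quad (HB_quad M₀ r₁ hr₁) r₂ hr₂ := by
    intro u
    have hK : ∀ c : K, algebraMap K L c ∈ HB_quad (HB_quad M₀ r₁ hr₁) r₂ hr₂ := fun c =>
      HB_le_quad _ (r₂ : L) hr₂ (HB_le_quad M₀ r₁ hr₁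
        (IntermediateField.algebraMap_mem (IntermediateField.adjoin K {(z : L)}) c))
    let F : IntermediateField K L := (HB_quad (HB_quad M₀ r₁ hr₁) r₂ hr₂).toIntermediateField hK
    have hF : IntermediateField.adjoin K {(z : L), (r₁ : L), (r₂ : L)} ≤ F := by
      rw [IntermediateField.adjoin_le_iff]
      rintro x (rfl | rfl | rfl)
      · exact HB_le_quad _ (r₂ : L) hr₂ (HB_le_quad M₀ r₁ hr₁
          (IntermediateField.subset_adjoin K _ (by simp)))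
      · exact HB_le_quad _ (r₂ : L) hr₂ (HB_r_mem_quad M₀ _ hr₁)
      · exact HB_r_mem_quad _ _ hr₂
    rw [hgen] at hF
    exact hF (IntermediateField.mem_top)
  refine ⟨fun u hu => step2.2.2 u (htop u) hu, ?_⟩
  rw [eq_top_iff]
  intro y _
  obtain ⟨u, rfl⟩ := ρ.ψ_surj y
  exact step2.1 u (htop u)

/-- algebraic independence lifts -/
private theorem HB_algInd (ρ : Red K L κ l) {ι : Type} (x : ι → ρ.O)
    (hx : AlgebraicIndependent κ fun i => ρ.ψ (x i)) :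
    AlgebraicIndependent K fun i => (x i : L) := by
  rw [algebraicIndependent_iff]
  intro P hP
  by_contra hP0
  obtain ⟨m, hm, hmax⟩ := P.support.exists_max_image (fun m => ρ.R.valuation (P.coeff m))
    (MvPolynomial.support_nonempty.2 hP0)
  have hm0 : P.coeff m ≠ 0 := MvPolynomial.mem_support_iff.1 hm
  have hle : ∀ m', P.coeff m' / P.coeff m ∈ ρ.R := by
    intro m'
    by_cases h : m' ∈ P.support
    · rw [← ρ.R.valuation_le_one_iff, map_div₀]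
      exact div_le_one_of_le₀ (hmax m' h) zero_le
    · rw [MvPolynomial.notMem_support_iff.1 h, zero_div]
      exact ρ.R.zero_mem
  obtain ⟨Q, hQ⟩ : ∃ Q : MvPolynomial ι ρ.R,
      MvPolynomial.map ρ.R.subtype Q = MvPolynomial.C (P.coeff m)⁻¹ * P := by
    have : MvPolynomial.C (P.coeff m)⁻¹ * P ∈ Set.range (MvPolynomial.map ρ.R.subtype) := by
      rw [MvPolynomial.mem_range_map_iff_coeffs_subset]
      intro y hy
      obtain ⟨m', -, rfl⟩ := MvPolynomial.mem_coeffs_iff.1 (by simpa using hy)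
      refine ⟨⟨_, hle m'⟩, ?_⟩
      rw [MvPolynomial.coeff_C_mul]
      change P.coeff m' / P.coeff m = _
      rw [div_eq_inv_mul]
    exact this
  have h1 : ((MvPolynomial.eval₂ (HB_inc ρ) x Q : ρ.O) : L) = 0 := by
    have h2 : ((MvPolynomial.eval₂ (HB_inc ρ) x Q : ρ.O) : L) =
        MvPolynomial.aeval (fun i => (x i : L)) (MvPolynomial.map ρ.R.subtype Q) := by
      have := MvPolynomial.eval₂_comp_left ρ.O.subtype (HB_inc ρ) x Q
      rw [MvPolynomial.aeval_def, MvPolynomial.eval₂_map]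
      exact this
    rw [h2, hQ, map_mul, hP, mul_zero]
  have h2 : MvPolynomial.aeval (fun i => ρ.ψ (x i)) (MvPolynomial.map ρ.φ Q) = 0 := by
    rw [MvPolynomial.aeval_def, MvPolynomial.eval₂_map, ← HB_ψ_inc]
    have := MvPolynomial.eval₂_comp_left ρ.ψ (HB_inc ρ) x Q
    have h3 : MvPolynomial.eval₂ (HB_inc ρ) x Q = 0 := Subtype.ext h1
    rw [h3, map_zero] at this
    exact this.symm
  have h3 := (algebraicIndependent_iff.1 hx) _ h2
  have h4 : MvPolynomial.coeff m (MvPolynomial.map ρ.φ Q) = 1 := by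
    rw [MvPolynomial.coeff_map]
    have h5 : ρ.R.subtype (Q.coeff m) = 1 := by
      rw [← MvPolynomial.coeff_map, hQ, MvPolynomial.coeff_C_mul, inv_mul_cancel₀ hm0]
    have h6 : Q.coeff m = 1 := Subtype.ext h5
    rw [h6, map_one]
  rw [h3, MvPolynomial.coeff_zero] at h4
  exact zero_ne_one h4

private theorem HB_trdeg (ρ : Red K L κ l) (htr : Algebra.trdeg K L = 1) {b : l}
    (hb : Transcendental κ b) : Algebra.trdeg κ l = 1 := by
  apply le_antisymm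
  · refine ciSup_le' fun s => ?_
    choose x hx using fun y : s.1 => ρ.ψ_surj y.1
    have h1 : AlgebraicIndependent κ fun i => ρ.ψ (x i) := by
      simp only [hx]
      exact s.2
    exact (HB_algInd ρ x h1).cardinalMk_le_trdeg.trans htr.le
  · have h1 : AlgebraicIndependent κ (fun _ : Fin 1 => b) :=
      algebraicIndependent_unique_type_iff.2 hb
    have := h1.cardinalMk_le_trdeg
    simpa using this

/-- Reduction of differentials: if `ω = c (a db) = q dz` and `d/dz` preserves `O` then `q` is up to a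
constant a unit and `a db` reduces to `ψ(q / c') dψ(z)`. (Use `exists_scale` to see that `d` preserves
the maximal ideal, so it induces the derivation `d/dψ(z)` of `l`.) -/
theorem Red.reduce (ρ : Red K L κ l) (htr : Algebra.trdeg K L = 1) (z a b : ρ.O)
    (hz : Transcendental κ (ρ.ψ z)) (ha : ρ.ψ a ≠ 0) (hb : Transcendental κ (ρ.ψ b))
    (d : Derivation K L L) (hd : d z = 1) (hdO : ∀ u ∈ ρ.O, d u ∈ ρ.O) (c : K) (hc : c ≠ 0)
    (q : L) (h : q • D K L (z : L) = c • ((a : L) • D K L (b : L))) :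
    ∃ c' : K, c' ≠ 0 ∧ ∃ h : q / algebraMap K L c' ∈ ρ.O, ρ.ψ ⟨_, h⟩ ≠ 0 ∧
      ρ.ψ a • D κ l (ρ.ψ b) = ρ.ψ ⟨_, h⟩ • D κ l (ρ.ψ z) := by
  have hzK := HB_transc ρ z hz
  have htr' := HB_trdeg ρ htr hz
  obtain ⟨d', hd', hd''⟩ := exists_derivation htr hzK
  obtain rfl : d' = d := derivation_ext htr hzK d' d (hd'.trans hd.symm)
  have hq : q = algebraMap K L c * ((a : L) * d' b) := by
    apply smul_D_inj htr hzK
    rw [h, hd'' b, mul_smul, mul_smul, algebraMap_smul]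
  -- the derivation of the residue field
  let δ : ρ.O → ρ.O := fun u => ⟨d' u, hdO u u.2⟩
  have hδadd : ∀ u v, δ (u + v) = δ u + δ v := fun u v => Subtype.ext (map_add d' (u : L) v)
  have hδmul : ∀ u v, δ (u * v) = u * δ v + v * δ u := fun u v =>
    Subtype.ext (by change d' ((u : L) * v) = u * d' v + v * d' u; rw [Derivation.leibniz]; rfl)
  have hδinc : ∀ r, δ (HB_inc ρ r) = 0 := fun r => Subtype.ext (d'.map_algebraMap (r : K))
  have hmax : ∀ u : ρ.O, ρ.ψ u = 0 → ρ.ψ (δ u) = 0 := by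
    intro u hu
    by_cases hu0 : (u : L) = 0
    · have : δ u = 0 := Subtype.ext (by change d' (u : L) = 0; rw [hu0, map_zero])
      rw [this, map_zero]
    obtain ⟨e, he, hv, hv'⟩ := ρ.exists_scale htr ⟨z, hz⟩ hu0
    have hv2 := (ρ.ψ_ne_zero_iff ⟨_, hv⟩).1 hv'
    have heL : algebraMap K L e ≠ 0 := by simpa using he
    have heO : algebraMap K L e ∈ ρ.O := by
      have : algebraMap K L e = (u : L) * ((u : L) / algebraMap K L e)⁻¹ := by
        field_simp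
      rw [this]
      exact mul_mem u.2 hv2.2
    have heR : e ∈ ρ.R := (ρ.mem e).2 heO
    have hfac : u = HB_inc ρ ⟨e, heR⟩ * ⟨(u : L) / algebraMap K L e, hv⟩ := by
      apply Subtype.ext
      change (u : L) = algebraMap K L e * ((u : L) / algebraMap K L e)
      field_simp
    have h0 : ρ.ψ (HB_inc ρ ⟨e, heR⟩) = 0 := by
      rw [hfac, map_mul, mul_eq_zero] at hu
      exact hu.resolve_right hv'
    rw [hfac, hδmul, hδinc, mul_zero, add_zero, map_mul, h0, zero_mul]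
  have hwd : ∀ u v : ρ.O, ρ.ψ u = ρ.ψ v → ρ.ψ (δ u) = ρ.ψ (δ v) := by
    intro u v huv
    have h1 : ρ.ψ (u - v) = 0 := by rw [map_sub, huv, sub_self]
    have h2 := hmax _ h1
    have h3 : u = (u - v) + v := by ring
    rw [h3, hδadd, map_add, h2, zero_add]
  choose s hs using ρ.ψ_surj
  have hφs := ρ.φ_surj
  let lin : l →ₗ[κ] l :=
    { toFun := fun y => ρ.ψ (δ (s y))
      map_add' := by
        intro y y'
        rw [← map_add, ← hδadd]
        apply hwd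
        rw [hs, map_add, hs, hs]
      map_smul' := by
        intro e y
        obtain ⟨r, rfl⟩ := hφs e
        have h1 : ρ.ψ (HB_inc ρ r) = algebraMap κ l (ρ.φ r) := congrArg (fun f => f r) (HB_ψ_inc ρ)
        have h2 : ρ.ψ (δ (HB_inc ρ r * s y)) = algebraMap κ l (ρ.φ r) * ρ.ψ (δ (s y)) := by
          rw [hδmul, hδinc, mul_zero, add_zero, map_mul, h1]
        rw [RingHom.id_apply, Algebra.smul_def, Algebra.smul_def, ← h2]
        apply hwd
        rw [hs, map_mul, h1, hs] }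
  let dbar : Derivation κ l l := Derivation.mk' lin (by
    intro y y'
    change ρ.ψ (δ (s (y * y'))) = y • ρ.ψ (δ (s y')) + y' • ρ.ψ (δ (s y))
    have h1 : ρ.ψ (δ (s y * s y')) = y * ρ.ψ (δ (s y')) + y' * ρ.ψ (δ (s y)) := by
      rw [hδmul, map_add, map_mul, map_mul, hs, hs]
    rw [smul_eq_mul, smul_eq_mul, ← h1]
    apply hwd
    rw [hs, map_mul, hs, hs])
  have hdbar : ∀ u : ρ.O, dbar (ρ.ψ u) = ρ.ψ (δ u) := fun u => hwd _ _ (hs _)
  have hdz : dbar (ρ.ψ z) = 1 := by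
    rw [hdbar]
    have : δ z = 1 := Subtype.ext hd'
    rw [this, map_one]
  obtain ⟨d₂, h₂, h₂'⟩ := exists_derivation htr' hz
  obtain rfl : d₂ = dbar := derivation_ext htr' hz d₂ dbar (h₂.trans hdz.symm)
  have hne : ρ.ψ (δ b) ≠ 0 := by
    rw [← hdbar]
    exact derivation_ne_zero htr' hb _ hdz
  have hcL : algebraMap K L c ≠ 0 := by simpa using hc
  have hq2 : q / algebraMap K L c = ((a * δ b : ρ.O) : L) := by
    rw [hq]
    change _ = (a : L) * d' b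
    field_simp
  have hqO : q / algebraMap K L c ∈ ρ.O := hq2 ▸ (a * δ b).2
  have hq3 : (⟨_, hqO⟩ : ρ.O) = a * δ b := Subtype.ext hq2
  refine ⟨c, hc, hqO, ?_, ?_⟩
  · rw [hq3, map_mul]
    exact mul_ne_zero ha hne
  · rw [hq3, map_mul, h₂' (ρ.ψ b), hdbar, mul_smul]

end Pool.Agent.Arith
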