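import Pool.Agent.Lib.MP_c0402d_ag.HB
import Pool.Agent.Lib.MP_c0402d_ag.GA

/-!
# JOB HC: classification of the reductions of a member of the family

`x = v² + t`, `L = K(x)(y, v)`, `dx = 2 v dv`. Take a disc for `x` (`exists_disc`): `z = (x - a₀) / c₀`.
The roots `e_i` of `f` are in `R` with pairwise distinct residues (they are algebraic over `ℚ ⊆ R`, and
the discriminant is a nonzero rational number). Scale `y`: `y₀ = y / const` has
`ψ(y₀)² = const * ∏_{i ∈ I} (ψ z + const_i)`, `I = {i | (a₀ - e_i) / c₀ ∈ R}`, and scale `v`.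
`biquadratic` and `reduce`: `ψ a dψ(b) = const * dψ(z) / ψ(y₀)`.
If `c₀` is not a unit or `a₀ ∉ R`: `I` is empty, or has one element, or consists of all five indices
with the same `const_i`; then `ψ a dψ(b) = c' r^(-j) dr` with `j = 0` or `4`: first case.
If `c₀` is a unit and `a₀ ∈ R`: `x ∈ O` has transcendental residue. If `t ∈ R`: third case. If
`t ∉ R`: `v² / (- t)` has residue one: second case.
-/

set_option autoImplicit false

namespace Pool.Agent.Arith

open KaehlerDifferential Polynomial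

variable {K L κ l : Type} [Field K] [CharZero K] [IsAlgClosed K] [Field L] [Algebra K L]
  [Field κ] [CharZero κ] [Field l] [Algebra κ l]

/-- `u` is in the valuation ring and has residue `w`. -/
private def Rs (ρ : Red K L κ l) (u : L) (w : l) : Prop := ∃ h : u ∈ ρ.O, ρ.ψ ⟨u, h⟩ = w

/-- `r` is in the valuation ring and has residue `s`. -/
private def Rk (ρ : Red K L κ l) (r : K) (s : κ) : Prop := ∃ h : r ∈ ρ.R, ρ.φ ⟨r, h⟩ = s

section residues

variable {ρ : Red K L κ l}

private theorem hc_add {u u' : L} {w w' : l} (h : Rs ρ u w) (h' : Rs ρ u' w') :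
    Rs ρ (u + u') (w + w') := by
  obtain ⟨h, rfl⟩ := h
  obtain ⟨h', rfl⟩ := h'
  exact ⟨add_mem h h', map_add ρ.ψ ⟨u, h⟩ ⟨u', h'⟩⟩

private theorem hc_mul {u u' : L} {w w' : l} (h : Rs ρ u w) (h' : Rs ρ u' w') :
    Rs ρ (u * u') (w * w') := by
  obtain ⟨h, rfl⟩ := h
  obtain ⟨h', rfl⟩ := h'
  exact ⟨mul_mem h h', map_mul ρ.ψ ⟨u, h⟩ ⟨u', h'⟩⟩

private theorem hc_one : Rs ρ 1 1 := ⟨one_mem _, map_one ρ.ψ⟩

private theorem hc_unique {u : L} {w w' : l} (h : Rs ρ u w) (h' : Rs ρ u w') : w = w' := by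
  obtain ⟨h, rfl⟩ := h
  obtain ⟨h', rfl⟩ := h'
  rfl

private theorem hc_inv {u : L} {w : l} (h : Rs ρ u w) (hw : w ≠ 0) : Rs ρ u⁻¹ w⁻¹ := by
  obtain ⟨h, rfl⟩ := h
  obtain ⟨h0, h1⟩ := (ρ.ψ_ne_zero_iff ⟨u, h⟩).1 hw
  refine ⟨h1, ?_⟩
  have h2 : ρ.ψ ⟨u⁻¹, h1⟩ * ρ.ψ ⟨u, h⟩ = 1 := by
    rw [← map_mul, ← map_one ρ.ψ]
    congr 1
    apply Subtype.ext
    exact inv_mul_cancel₀ h0
  exact eq_inv_of_mul_eq_one_left h2

private theorem hc_sqrt {u : L} {w : l} (h : Rs ρ (u ^ 2) w) : ∃ w', Rs ρ u w' ∧ w' ^ 2 = w := by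
  have hu : u ∈ ρ.O := by
    rcases ρ.O.mem_or_inv_mem u with h1 | h1
    · exact h1
    · by_cases h0 : u = 0
      · rw [h0]; exact zero_mem _
      · have h2 : u = u ^ 2 * u⁻¹ := by field_simp
        rw [h2]
        exact mul_mem h.1 h1
  refine ⟨_, ⟨hu, rfl⟩, ?_⟩
  refine hc_unique (u := u ^ 2) (ρ := ρ) ?_ h
  rw [sq, sq]
  exact hc_mul ⟨hu, rfl⟩ ⟨hu, rfl⟩

private theorem hc_prod {ι : Type} (s : Finset ι) {u : ι → L} {w : ι → l}
    (h : ∀ i, Rs ρ (u i) (w i)) : Rs ρ (∏ i ∈ s, u i) (∏ i ∈ s, w i) := by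
  classical
  induction s using Finset.induction_on with
  | empty => simpa using hc_one
  | insert i s hi ih =>
    rw [Finset.prod_insert hi, Finset.prod_insert hi]
    exact hc_mul (h i) ih

private theorem hk_rs {r : K} {s : κ} (h : Rk ρ r s) :
    Rs ρ (algebraMap K L r) (algebraMap κ l s) := by
  obtain ⟨h, rfl⟩ := h
  exact ⟨(ρ.mem r).1 h, ρ.compat ⟨r, h⟩ _⟩

private theorem hk_add {r r' : K} {s s' : κ} (h : Rk ρ r s) (h' : Rk ρ r' s') :
    Rk ρ (r + r') (s + s') := by
  obtain ⟨h, rfl⟩ := h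
  obtain ⟨h', rfl⟩ := h'
  exact ⟨add_mem h h', map_add ρ.φ ⟨r, h⟩ ⟨r', h'⟩⟩

private theorem hk_mul {r r' : K} {s s' : κ} (h : Rk ρ r s) (h' : Rk ρ r' s') :
    Rk ρ (r * r') (s * s') := by
  obtain ⟨h, rfl⟩ := h
  obtain ⟨h', rfl⟩ := h'
  exact ⟨mul_mem h h', map_mul ρ.φ ⟨r, h⟩ ⟨r', h'⟩⟩

private theorem hk_neg {r : K} {s : κ} (h : Rk ρ r s) : Rk ρ (-r) (-s) := by
  obtain ⟨h, rfl⟩ := h
  exact ⟨neg_mem h, map_neg ρ.φ ⟨r, h⟩⟩

private theorem hk_sub {r r' : K} {s s' : κ} (h : Rk ρ r s) (h' : Rk ρ r' s') :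
    Rk ρ (r - r') (s - s') := by
  rw [sub_eq_add_neg, sub_eq_add_neg]
  exact hk_add h (hk_neg h')

private theorem hk_nat (n : ℕ) : Rk ρ (n : K) (n : κ) := ⟨natCast_mem _ n, map_natCast ρ.φ n⟩

private theorem hk_unique {r : K} {s s' : κ} (h : Rk ρ r s) (h' : Rk ρ r s') : s = s' := by
  obtain ⟨h, rfl⟩ := h
  obtain ⟨h', rfl⟩ := h'
  rfl

private theorem hk_ne {r : K} {s : κ} (h : Rk ρ r s) (hs : s ≠ 0) : r ≠ 0 := by
  rintro rfl
  have h0 : Rk ρ (0 : K) (0 : κ) := ⟨zero_mem _, map_zero ρ.φ⟩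
  exact hs (hk_unique h h0)

private theorem hk_inv {r : K} {s : κ} (h : Rk ρ r s) (hs : s ≠ 0) : Rk ρ r⁻¹ s⁻¹ := by
  have h0 := hk_ne h hs
  have h1 : Rs ρ (algebraMap K L r)⁻¹ (algebraMap κ l s)⁻¹ :=
    hc_inv (hk_rs h) (by simpa using hs)
  have h2 : r⁻¹ ∈ ρ.R := by
    rw [ρ.mem, map_inv₀]
    exact h1.1
  refine ⟨h2, ?_⟩
  obtain ⟨h, rfl⟩ := h
  have h3 : ρ.φ ⟨r⁻¹, h2⟩ * ρ.φ ⟨r, h⟩ = 1 := by
    rw [← map_mul, ← map_one ρ.φ]
    congr 1
    apply Subtype.ext
    exact inv_mul_cancel₀ h0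
  exact eq_inv_of_mul_eq_one_left h3

private theorem hk_div {r r' : K} {s s' : κ} (h : Rk ρ r s) (h' : Rk ρ r' s') (hs : s' ≠ 0) :
    Rk ρ (r / r') (s / s') := by
  rw [div_eq_mul_inv, div_eq_mul_inv]
  exact hk_mul h (hk_inv h' hs)

private theorem hk_not {r : K} (h : r ∉ ρ.R) : Rk ρ r⁻¹ (0 : κ) := by
  rcases ρ.R.mem_or_inv_mem r with h1 | h1
  · exact absurd h1 h
  · by_contra hne
    have h2 : Rk ρ r⁻¹ (ρ.φ ⟨r⁻¹, h1⟩) := ⟨h1, rfl⟩
    have h3 : ρ.φ ⟨r⁻¹, h1⟩ ≠ 0 := fun h0 => hne (h0 ▸ h2)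
    have h4 := hk_inv h2 h3
    rw [inv_inv] at h4
    exact h h4.1

private theorem hk_sqrt {r : K} {s : κ} (h : Rk ρ (r ^ 2) s) : ∃ s', Rk ρ r s' ∧ s' ^ 2 = s := by
  have hu : r ∈ ρ.R := by
    rcases ρ.R.mem_or_inv_mem r with h1 | h1
    · exact h1
    · by_cases h0 : r = 0
      · rw [h0]; exact zero_mem _
      · have h2 : r = r ^ 2 * r⁻¹ := by field_simp
        rw [h2]
        exact mul_mem h.1 h1
  refine ⟨_, ⟨hu, rfl⟩, ?_⟩
  refine hk_unique (r := r ^ 2) (ρ := ρ) ?_ h
  rw [sq, sq]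
  exact hk_mul ⟨hu, rfl⟩ ⟨hu, rfl⟩

end residues

/-- The roots of `f`; `w² = -2`. -/
private noncomputable def hcE {F : Type} [Field F] (w : F) : Fin 5 → F :=
  ![-1 / 2, -2 / 3, -2, (-2 + w) / 3, (-2 - w) / 3]

private theorem hc_fR {F B : Type} [Field F] [CharZero F] [Field B] [Algebra F B] (w : F)
    (hw : w ^ 2 = -2) (x : B) :
    aeval x (fR F) = 108 * ∏ i, (x - algebraMap F B (hcE w i)) := by
  have h1 : aeval x (fR F) =
      6 * (2 * x + 1) * (3 * x + 2) * (x + 2) * (3 * x ^ 2 + 4 * x + 2) := by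
    unfold fR
    simp only [map_mul, map_add, map_pow, aeval_X, map_ofNat, map_one]
  have hB : (algebraMap F B w) ^ 2 = -2 := by
    rw [← map_pow, hw, map_neg, map_ofNat]
  have h2 : (2 : B) ≠ 0 := by
    have : algebraMap F B 2 ≠ 0 := by simp
    rwa [map_ofNat] at this
  have h3 : (3 : B) ≠ 0 := by
    have : algebraMap F B 3 ≠ 0 := by simp
    rwa [map_ofNat] at this
  rw [h1, Fin.prod_univ_five]
  simp only [hcE, Matrix.cons_val_zero, Matrix.cons_val_one, Matrix.cons_val, map_div₀, map_neg,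
    map_add, map_sub, map_ofNat, map_one]
  field_simp
  ring_nf
  rw [hB]
  ring

private theorem hc_E_res {ρ : Red K L κ l} {w : K} {w' : κ} (h : Rk ρ w w') (i : Fin 5) :
    Rk ρ (hcE w i) (hcE w' i) := by
  have n1 : Rk ρ (1 : K) (1 : κ) := by simpa using hk_nat (ρ := ρ) 1
  have n2 : Rk ρ (2 : K) (2 : κ) := by simpa using hk_nat (ρ := ρ) 2
  have n3 : Rk ρ (3 : K) (3 : κ) := by simpa using hk_nat (ρ := ρ) 3
  have h3 : (3 : κ) ≠ 0 := by norm_num
  have h2 : (2 : κ) ≠ 0 := by norm_num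
  fin_cases i
  · exact hk_div (hk_neg n1) n2 h2
  · exact hk_div (hk_neg n2) n3 h3
  · exact hk_neg n2
  · exact hk_div (hk_add (hk_neg n2) h) n3 h3
  · exact hk_div (hk_sub (hk_neg n2) h) n3 h3

private theorem hc_E_inj {F : Type} [Field F] [CharZero F] (w : F) (hw : w ^ 2 = -2) :
    Function.Injective (hcE w) := by
  have hq : ∀ q : ℚ, q ^ 2 ≠ -2 := fun q h => by nlinarith [sq_nonneg q]
  have hwq : ∀ q : ℚ, w ≠ (q : F) := by
    intro q h
    apply hq q
    have : ((q ^ 2 : ℚ) : F) = ((-2 : ℚ) : F) := by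
      push_cast
      rw [← h, hw]
    exact_mod_cast this
  have hw0 : w ≠ 0 := by
    have := hwq 0
    simpa using this
  have h2 : (2 : F) ≠ 0 := by norm_num
  have h3 : (3 : F) ≠ 0 := by norm_num
  have key : ∀ i j : Fin 5, i < j → hcE w i ≠ hcE w j := by
    intro i j hij
    fin_cases i <;> fin_cases j <;> simp only [hcE] at hij ⊢ <;>
      simp only [Fin.mk_lt_mk, Fin.lt_def] at hij <;> try omega
    all_goals simp only [Fin.zero_eta, Fin.mk_one, Fin.reduceFinMk, Matrix.cons_val_zero,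
      Matrix.cons_val_one, Matrix.cons_val]
    · norm_num
    · norm_num
    · intro h
      apply hwq (1 / 2)
      push_cast
      field_simp at h ⊢
      linear_combination -h
    · intro h
      apply hwq (-1 / 2)
      push_cast
      field_simp at h ⊢
      linear_combination h
    · norm_num
    · intro h
      apply hw0
      field_simp at h
      linear_combination -h
    · intro h
      apply hw0
      field_simp at h
      linear_combination h
    · intro h
      apply hwq (-4)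
      push_cast
      field_simp at h
      linear_combination -h
    · intro h
      apply hwq 4
      push_cast
      field_simp at h
      linear_combination h
    · intro h
      apply hw0
      field_simp at h
      have : (2 : F) * w = 0 := by linear_combination h
      exact (mul_eq_zero.1 this).resolve_left h2
  intro i j h
  rcases lt_trichotomy i j with h1 | h1 | h1
  · exact absurd h (key i j h1)
  · exact h1
  · exact absurd h.symm (key j i h1)

private theorem hc_trans_add {Z : l} (hZ : Transcendental κ Z) (s : κ) :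
    Transcendental κ (Z + algebraMap κ l s) := by
  intro h
  apply hZ
  have := h.sub (isAlgebraic_algebraMap s)
  rwa [add_sub_cancel_right] at this

/-- Linear factors. -/
private theorem hc_fac (ρ : Red K L κ l) {x z : L} {Z : l} {a₀ c₀ : K} (hc₀ : c₀ ≠ 0)
    (hx : x = algebraMap K L a₀ + algebraMap K L c₀ * z) (hz : Rs ρ z Z)
    (hZ : Transcendental κ Z) (e : K) :
    ∃ (k : K) (W : l), k ≠ 0 ∧ W ≠ 0 ∧ Rs ρ ((x - algebraMap K L e) / algebraMap K L k) W ∧
      ((∃ s, Rk ρ ((a₀ - e) / c₀) s ∧ W = Z + algebraMap κ l s) ∨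
        ((a₀ - e) / c₀ ∉ ρ.R ∧ W = 1)) := by
  have hcL : algebraMap K L c₀ ≠ 0 := by simpa using hc₀
  by_cases hs : (a₀ - e) / c₀ ∈ ρ.R
  · have h1 : Rk ρ ((a₀ - e) / c₀) (ρ.φ ⟨_, hs⟩) := ⟨hs, rfl⟩
    refine ⟨c₀, Z + algebraMap κ l (ρ.φ ⟨_, hs⟩), hc₀, ?_, ?_, Or.inl ⟨_, h1, rfl⟩⟩
    · intro h0
      apply hc_trans_add hZ (ρ.φ ⟨_, hs⟩)
      rw [h0]
      exact isAlgebraic_zero
    · have h2 := hc_add hz (hk_rs h1)
      have h3 : (x - algebraMap K L e) / algebraMap K L c₀ =
          z + algebraMap K L ((a₀ - e) / c₀) := by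
        rw [hx, map_div₀, map_sub]
        field_simp
        ring
      rw [h3]
      exact h2
  · have h1 := hk_not hs
    have hae : a₀ - e ≠ 0 := by
      intro h0
      apply hs
      rw [h0, zero_div]
      exact zero_mem _
    have haeL : algebraMap K L (a₀ - e) ≠ 0 := (_root_.map_ne_zero _).2 hae
    refine ⟨a₀ - e, 1, hae, one_ne_zero, ?_, Or.inr ⟨hs, rfl⟩⟩
    have h2 := hc_add (hc_mul (hk_rs h1) hz) hc_one
    have h3 : (x - algebraMap K L e) / algebraMap K L (a₀ - e) =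
        algebraMap K L ((a₀ - e) / c₀)⁻¹ * z + 1 := by
      rw [hx, inv_div, map_div₀]
      rw [map_sub] at haeL ⊢
      field_simp
      ring
    rw [h3]
    rw [map_zero, zero_mul, zero_add] at h2
    exact h2

/-- The reduction of the field and of the differential. -/
private theorem hc_core (ρ : Red K L κ l) {t : K} (C : Chart K L)
    (hC : C.F = Ft t) (a b : ρ.O) (ha : ρ.ψ a ≠ 0) (hb : Transcendental κ (ρ.ψ b)) (c : K)
    (hc : c ≠ 0) (h : (2 * C.v / C.y) • D K L C.v = c • ((a : L) • D K L (b : L)))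
    {z : L} {Z Y V : l} {a₀ c₀ lam mu : K} (hc₀ : c₀ ≠ 0) (hlam : lam ≠ 0) (hmu : mu ≠ 0)
    (hx : C.v ^ 2 + algebraMap K L t = algebraMap K L a₀ + algebraMap K L c₀ * z)
    (hz : Rs ρ z Z) (hZ : Transcendental κ Z)
    (hY : Rs ρ (C.y / algebraMap K L lam) Y) (hY0 : Y ≠ 0)
    (hV : Rs ρ (C.v / algebraMap K L mu) V) (hV0 : V ≠ 0) :
    IntermediateField.adjoin κ {Z, Y, V} = ⊤ ∧
      ∃ c₁ : κ, c₁ ≠ 0 ∧ ρ.ψ a • D κ l (ρ.ψ b) = c₁ • (Y⁻¹ • D κ l Z) := by
  have hcL : algebraMap K L c₀ ≠ 0 := by simpa using hc₀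
  have hlL : algebraMap K L lam ≠ 0 := by simpa using hlam
  have hmL : algebraMap K L mu ≠ 0 := by simpa using hmu
  have hy0 : C.y ≠ 0 := C.y_ne_zero
  have htr := C.trdeg
  -- `z` is transcendental over `K`
  have hzK : Transcendental K z := by
    intro halg
    apply C.trans
    have h1 : IsAlgebraic K (C.v ^ 2) := by
      have h2 : C.v ^ 2 = algebraMap K L a₀ + algebraMap K L c₀ * z - algebraMap K L t := by
        rw [← hx]; ring
      rw [h2]
      exact ((isAlgebraic_algebraMap a₀).add ((isAlgebraic_algebraMap c₀).mul halg)).sub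
        (isAlgebraic_algebraMap t)
    exact IsAlgebraic.of_pow (by norm_num) h1
  obtain ⟨d, hd, hD⟩ := exists_derivation htr hzK
  obtain ⟨hzO, rfl⟩ := hz
  obtain ⟨hYO, rfl⟩ := hY
  obtain ⟨hVO, rfl⟩ := hV
  -- the equations
  have hyeq : C.y ^ 2 = aeval (algebraMap K L a₀ + algebraMap K L c₀ * z) (fR K) := by
    rw [C.eq, hC, Ft, aeval_comp]
    congr 1
    simp only [map_add, map_pow, aeval_X, aeval_C]
    rw [hx]
  have e₁ : (C.y / algebraMap K L lam) ^ 2 =
      aeval z (Polynomial.C ((lam ^ 2)⁻¹) * (fR K).comp (Polynomial.C a₀ + Polynomial.C c₀ * X)) := by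
    rw [div_pow, hyeq, map_mul, aeval_C, aeval_comp]
    simp only [map_add, map_mul, aeval_C, aeval_X, map_inv₀, map_pow]
    rw [div_eq_inv_mul]
  have e₂ : (C.v / algebraMap K L mu) ^ 2 =
      aeval z (Polynomial.C ((mu ^ 2)⁻¹) * (Polynomial.C (a₀ - t) + Polynomial.C c₀ * X)) := by
    have h1 : C.v ^ 2 = algebraMap K L (a₀ - t) + algebraMap K L c₀ * z := by
      rw [map_sub]
      linear_combination hx
    rw [div_pow, h1]
    simp only [map_add, map_mul, aeval_C, aeval_X, map_inv₀, map_pow]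
    rw [div_eq_inv_mul]
  have hgen : IntermediateField.adjoin K {z, C.y / algebraMap K L lam, C.v / algebraMap K L mu} =
      ⊤ := by
    rw [← top_le_iff, ← C.gen, IntermediateField.adjoin_le_iff]
    rintro u (rfl | rfl)
    · have h1 : algebraMap K L mu * (C.v / algebraMap K L mu) = C.v := by field_simp
      have h2 := mul_mem (IntermediateField.algebraMap_mem (IntermediateField.adjoin K
        {z, C.y / algebraMap K L lam, C.v / algebraMap K L mu}) mu)
        (IntermediateField.subset_adjoin K {z, C.y / algebraMap K L lam,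
          C.v / algebraMap K L mu} (by simp : C.v / algebraMap K L mu ∈ _))
      rw [h1] at h2
      exact h2
    · have h1 : algebraMap K L lam * (C.y / algebraMap K L lam) = C.y := by field_simp
      have h2 := mul_mem (IntermediateField.algebraMap_mem (IntermediateField.adjoin K
        {z, C.y / algebraMap K L lam, C.v / algebraMap K L mu}) lam)
        (IntermediateField.subset_adjoin K {z, C.y / algebraMap K L lam,
          C.v / algebraMap K L mu} (by simp : C.y / algebraMap K L lam ∈ _))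
      rw [h1] at h2
      exact h2
  obtain ⟨hdO, htop⟩ := ρ.biquadratic ⟨z, hzO⟩ ⟨_, hYO⟩ ⟨_, hVO⟩ hZ hY0 hV0 _ _ e₁ e₂ hgen d hd
  refine ⟨htop, ?_⟩
  -- the differential
  have hdv : 2 * C.v * d C.v = algebraMap K L c₀ := by
    have h1 : d (C.v ^ 2 + algebraMap K L t) =
        d (algebraMap K L a₀ + algebraMap K L c₀ * z) := by rw [hx]
    rw [map_add, map_add, Derivation.leibniz, Derivation.leibniz_pow, Derivation.map_algebraMap,
      Derivation.map_algebraMap, Derivation.map_algebraMap, hd] at h1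
    simp only [smul_eq_mul, nsmul_eq_mul] at h1
    norm_num at h1
    linear_combination h1
  have hq : (algebraMap K L c₀ / C.y) • D K L z = c • ((a : L) • D K L (b : L)) := by
    rw [← h, hD C.v, smul_smul, ← hdv]
    congr 1
    field_simp
  obtain ⟨c', hc', hO, hne, hred⟩ := ρ.reduce htr ⟨z, hzO⟩ a b hZ ha hb d hd hdO c hc _ hq
  have hcL' : algebraMap K L c' ≠ 0 := by simpa using hc'
  -- `q / c' = c'' / y₀`
  have h1 : Rs ρ (algebraMap K L (c₀ / lam / c'))
      (ρ.ψ ⟨_, hO⟩ * ρ.ψ ⟨C.y / algebraMap K L lam, hYO⟩) := by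
    have h2 : Rs ρ (algebraMap K L c₀ / C.y / algebraMap K L c' * (C.y / algebraMap K L lam)) _ :=
      hc_mul ⟨hO, rfl⟩ ⟨hYO, rfl⟩
    have h3 : algebraMap K L (c₀ / lam / c') =
        algebraMap K L c₀ / C.y / algebraMap K L c' * (C.y / algebraMap K L lam) := by
      rw [map_div₀, map_div₀]
      field_simp
    rw [h3]
    exact h2
  have h4 : c₀ / lam / c' ∈ ρ.R := (ρ.mem _).2 h1.1
  have h5 : Rs ρ (algebraMap K L (c₀ / lam / c')) (algebraMap κ l (ρ.φ ⟨_, h4⟩)) :=
    hk_rs ⟨h4, rfl⟩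
  have h6 := hc_unique h1 h5
  have h7 : algebraMap κ l (ρ.φ ⟨_, h4⟩) ≠ 0 := by
    rw [← h6]
    exact mul_ne_zero hne hY0
  refine ⟨ρ.φ ⟨_, h4⟩, fun h0 => h7 (by rw [h0, map_zero]), ?_⟩
  rw [hred, algebra_compatible_smul l (ρ.φ ⟨_, h4⟩), ← h6, smul_smul]
  congr 1
  field_simp

private theorem hc_Dsq (u : l) : D κ l (u ^ 2) = (2 * u) • D κ l u := by
  rw [sq, Derivation.leibniz, ← add_smul, two_mul]

private theorem hc_caseA {Y Z : l} (hZ : Transcendental κ Z) (hY : Y ^ 2 = 1) {c₁ : κ}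
    (hc₁ : c₁ ≠ 0) {η : Ω[l⁄κ]} (h : η = c₁ • (Y⁻¹ • D κ l Z)) :
    ∃ (r : l) (c' : κ) (j : ℕ), Transcendental κ r ∧ c' ≠ 0 ∧
      η = c' • ((r ^ j)⁻¹ • D κ l r) := by
  rw [sq] at hY
  rcases mul_self_eq_one_iff.1 hY with h1 | h1
  · exact ⟨Z, c₁, 0, hZ, hc₁, by rw [h, h1]; simp⟩
  · refine ⟨Z, -c₁, 0, hZ, neg_ne_zero.2 hc₁, ?_⟩
    rw [h, h1]
    simp

private theorem hc_caseB {r Z : l} (hZ : Transcendental κ Z) {s : κ}
    (hr : r ^ 2 = Z + algebraMap κ l s) {c₁ : κ} (hc₁ : c₁ ≠ 0) {η : Ω[l⁄κ]} (j : ℕ)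
    (h : η = c₁ • ((r ^ (j + 1))⁻¹ • D κ l Z)) :
    ∃ (r : l) (c' : κ) (j : ℕ), Transcendental κ r ∧ c' ≠ 0 ∧
      η = c' • ((r ^ j)⁻¹ • D κ l r) := by
  have hrT : Transcendental κ r := by
    intro halg
    apply hZ
    have h1 : Z = r ^ 2 - algebraMap κ l s := by rw [hr]; ring
    rw [h1]
    exact (halg.pow 2).sub (isAlgebraic_algebraMap s)
  have hr0 : r ≠ 0 := by
    rintro rfl
    exact hrT isAlgebraic_zero
  refine ⟨r, 2 * c₁, j, hrT, mul_ne_zero two_ne_zero hc₁, ?_⟩
  have h1 : D κ l Z = (2 * r) • D κ l r := by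
    have h2 : Z = r ^ 2 - algebraMap κ l s := by rw [hr]; ring
    rw [h2, map_sub, Derivation.map_algebraMap, sub_zero, hc_Dsq]
  rw [h, h1, smul_smul, mul_comm (2 : κ) c₁, mul_smul c₁ (2 : κ)]
  congr 1
  rw [algebra_compatible_smul l (2 : κ), smul_smul, map_ofNat]
  congr 1
  rw [pow_succ]
  field_simp

theorem classification (ρ : Red K L κ l) {t : K} (ht : (fR K).eval t ≠ 0) (C : Chart K L)
    (hC : C.F = Ft t) (a b : ρ.O) (ha : ρ.ψ a ≠ 0) (hb : Transcendental κ (ρ.ψ b)) (c : K)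
    (hc : c ≠ 0) (h : (2 * C.v / C.y) • D K L C.v = c • ((a : L) • D K L (b : L))) :
    (∃ (r : l) (c' : κ) (j : ℕ), Transcendental κ r ∧ c' ≠ 0 ∧
      ρ.ψ a • D κ l (ρ.ψ b) = c' • ((r ^ j)⁻¹ • D κ l r)) ∨
    (∃ (x y : l) (c' : κ), c' ≠ 0 ∧ Transcendental κ x ∧ y ^ 2 = aeval x (fR κ) ∧
      IntermediateField.adjoin κ {x, y} = ⊤ ∧
      ρ.ψ a • D κ l (ρ.ψ b) = c' • (y⁻¹ • D κ l x)) ∨
    (∃ (ht : t ∈ ρ.R) (v y : l) (c' : κ), c' ≠ 0 ∧ Transcendental κ v ∧
      y ^ 2 = aeval (v ^ 2 + algebraMap κ l (ρ.φ ⟨t, ht⟩)) (fR κ) ∧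
      IntermediateField.adjoin κ {v, y} = ⊤ ∧
      ρ.ψ a • D κ l (ρ.ψ b) = c' • ((2 * v / y) • D κ l v)) := by
  classical
  have htr := C.trdeg
  have hκ : IsAlgClosed κ := ρ.isAlgClosed
  -- the disc
  have hxT : Transcendental K (C.v ^ 2 + algebraMap K L t) := by
    intro halg
    apply C.trans
    have h1 : IsAlgebraic K (C.v ^ 2) := by
      have := halg.sub (isAlgebraic_algebraMap t)
      rwa [add_sub_cancel_right] at this
    exact IsAlgebraic.of_pow (by norm_num) h1
  obtain ⟨a₀, c₀, hc₀, hzO, hZ⟩ := ρ.exists_disc htr ⟨b, hb⟩ hxT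
  have hcL : algebraMap K L c₀ ≠ 0 := by simpa using hc₀
  set x : L := C.v ^ 2 + algebraMap K L t with hxdef
  set z : L := (x - algebraMap K L a₀) / algebraMap K L c₀ with hzdef
  have hx : x = algebraMap K L a₀ + algebraMap K L c₀ * z := by
    rw [hzdef]
    field_simp
    ring
  set Z : l := ρ.ψ ⟨z, hzO⟩ with hZdef
  have hz : Rs ρ z Z := ⟨hzO, rfl⟩
  -- the roots
  obtain ⟨w, hw⟩ : ∃ w : K, w ^ 2 = -2 := IsAlgClosed.exists_pow_nat_eq (-2) (by norm_num)
  have n2 : Rk ρ (2 : K) (2 : κ) := by simpa using hk_nat (ρ := ρ) 2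
  obtain ⟨w', hww', hw'⟩ : ∃ w' : κ, Rk ρ w w' ∧ w' ^ 2 = -2 :=
    hk_sqrt (by rw [hw]; exact hk_neg n2)
  have hE : ∀ i, Rk ρ (hcE w i) (hcE w' i) := hc_E_res hww'
  have hEinj := hc_E_inj w' hw'
  -- the factors
  choose k W hk hW hRs hcase using fun i => hc_fac ρ hc₀ hx hz hZ (hcE w i)
  obtain ⟨k', W', hk', hW', hRs', hcase'⟩ := hc_fac ρ hc₀ hx hz hZ t
  obtain ⟨lam, hlam⟩ : ∃ lam : K, lam ^ 2 = 108 * ∏ i, k i :=
    IsAlgClosed.exists_pow_nat_eq _ (by norm_num)
  obtain ⟨mu, hmu⟩ : ∃ mu : K, mu ^ 2 = k' := IsAlgClosed.exists_pow_nat_eq _ (by norm_num)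
  have hlam0 : lam ≠ 0 := by
    rintro rfl
    have h1 : (108 : K) * ∏ i, k i ≠ 0 :=
      mul_ne_zero (by norm_num) (Finset.prod_ne_zero_iff.2 fun i _ => hk i)
    apply h1
    rw [← hlam]
    norm_num
  have hmu0 : mu ≠ 0 := by
    rintro rfl
    apply hk'
    rw [← hmu]
    norm_num
  have hyeq : C.y ^ 2 = 108 * ∏ i, (x - algebraMap K L (hcE w i)) := by
    rw [← hc_fR w hw x, C.eq, hC, Ft, aeval_comp]
    congr 1
    simp only [map_add, map_pow, aeval_X, aeval_C]
    rfl
  have hY2 : Rs ρ ((C.y / algebraMap K L lam) ^ 2) (∏ i, W i) := by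
    have h1 : (C.y / algebraMap K L lam) ^ 2 =
        ∏ i, ((x - algebraMap K L (hcE w i)) / algebraMap K L (k i)) := by
      rw [div_pow, hyeq, ← map_pow, hlam, map_mul, map_prod, map_ofNat, Finset.prod_div_distrib]
      have h2 : (108 : L) ≠ 0 := by
        have : algebraMap K L 108 ≠ 0 := by simp
        rwa [map_ofNat] at this
      rw [mul_div_mul_left _ _ h2]
    rw [h1]
    exact hc_prod _ hRs
  obtain ⟨Y, hY, hYW⟩ := hc_sqrt hY2
  have hV2 : Rs ρ ((C.v / algebraMap K L mu) ^ 2) W' := by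
    have h1 : (C.v / algebraMap K L mu) ^ 2 = (x - algebraMap K L t) / algebraMap K L k' := by
      rw [div_pow, ← map_pow, hmu, hxdef]
      congr 1
      ring
    rw [h1]
    exact hRs'
  obtain ⟨V, hV, hVW⟩ := hc_sqrt hV2
  have hY0 : Y ≠ 0 := by
    rintro rfl
    have h1 : ∏ i, W i ≠ 0 := Finset.prod_ne_zero_iff.2 fun i _ => hW i
    apply h1
    rw [← hYW]
    norm_num
  have hV0 : V ≠ 0 := by
    rintro rfl
    apply hW'
    rw [← hVW]
    norm_num
  obtain ⟨htop, c₁, hc₁, hη⟩ := hc_core ρ C hC a b ha hb c hc h hc₀ hlam0 hmu0 hx hz hZ hY hY0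
    hV hV0
  -- the cases
  by_cases hall : ∀ i, (a₀ - hcE w i) / c₀ ∈ ρ.R
  · -- all roots are in the disc
    have hs : ∀ i, ∃ s, Rk ρ ((a₀ - hcE w i) / c₀) s ∧ W i = Z + algebraMap κ l s := by
      intro i
      rcases hcase i with h1 | h1
      · exact h1
      · exact absurd (hall i) h1.1
    choose s hs hWs using hs
    -- `c₀⁻¹` is in `R`
    have hdiff : Rk ρ (hcE w 1 - hcE w 0) (hcE w' 1 - hcE w' 0) := hk_sub (hE 1) (hE 0)
    have hdiff0 : hcE w' 1 - hcE w' 0 ≠ 0 := by
      intro h0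
      have := hEinj (sub_eq_zero.1 h0)
      exact absurd this (by decide)
    have hdK : hcE w 1 - hcE w 0 ≠ 0 := hk_ne hdiff hdiff0
    have hγ : Rk ρ c₀⁻¹ ((s 0 - s 1) / (hcE w' 1 - hcE w' 0)) := by
      have h1 := hk_div (hk_sub (hs 0) (hs 1)) hdiff hdiff0
      have h2 : ((a₀ - hcE w 0) / c₀ - (a₀ - hcE w 1) / c₀) / (hcE w 1 - hcE w 0) = c₀⁻¹ := by
        field_simp
        ring
      rw [h2] at h1
      exact h1
    set γ := (s 0 - s 1) / (hcE w' 1 - hcE w' 0) with hγdef
    have hsdiff : ∀ i, s i = s 0 + (hcE w' 0 - hcE w' i) * γ := by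
      intro i
      have h1 := hk_add (hs 0) (hk_mul (hk_sub (hE 0) (hE i)) hγ)
      have h2 : (a₀ - hcE w 0) / c₀ + (hcE w 0 - hcE w i) * c₀⁻¹ = (a₀ - hcE w i) / c₀ := by
        field_simp
        ring
      rw [h2] at h1
      exact hk_unique (hs i) h1
    by_cases hγ0 : γ = 0
    · -- the residues are all equal
      left
      have h1 : ∏ i, W i = (Z + algebraMap κ l (s 0)) ^ 5 := by
        have h2 : ∀ i, W i = Z + algebraMap κ l (s 0) := by
          intro i
          rw [hWs i, hsdiff i, hγ0, mul_zero, add_zero]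
        rw [Finset.prod_congr rfl fun i _ => h2 i, Finset.prod_const, Finset.card_univ,
          Fintype.card_fin]
      rw [h1] at hYW
      set P := Z + algebraMap κ l (s 0) with hP
      have hP0 : P ≠ 0 := by
        intro h0
        apply hc_trans_add hZ (s 0)
        rw [← hP, h0]
        exact isAlgebraic_zero
      have hr2 : (Y / P ^ 2) ^ 2 = P := by
        rw [div_pow, hYW]
        field_simp
      have hr5 : Y = (Y / P ^ 2) ^ 5 := by
        have h3 : (Y / P ^ 2) ^ 5 = (Y / P ^ 2) * ((Y / P ^ 2) ^ 2) ^ 2 := by ring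
        rw [h3, hr2]
        field_simp
      refine hc_caseB hZ hr2 hc₁ 4 ?_
      rw [← hr5]
      exact hη
    · -- the unit disc
      right
      have hcR : Rk ρ c₀ γ⁻¹ := by
        have := hk_inv hγ hγ0
        rwa [inv_inv] at this
      have haR : Rk ρ a₀ (γ⁻¹ * s 0 + hcE w' 0) := by
        have h1 := hk_add (hk_mul hcR (hs 0)) (hE 0)
        have h2 : c₀ * ((a₀ - hcE w 0) / c₀) + hcE w 0 = a₀ := by
          field_simp
          ring
        rw [h2] at h1
        exact h1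
      set a' := γ⁻¹ * s 0 + hcE w' 0 with ha'
      set X' : l := algebraMap κ l a' + algebraMap κ l γ⁻¹ * Z with hX'
      have hγL : algebraMap κ l γ ≠ 0 := by simpa using hγ0
      have hZX : Z = algebraMap κ l γ * (X' - algebraMap κ l a') := by
        rw [hX', map_inv₀]
        field_simp
        ring
      have hX'T : Transcendental κ X' := by
        intro halg
        apply hZ
        rw [hZX]
        exact (isAlgebraic_algebraMap γ).mul (halg.sub (isAlgebraic_algebraMap a'))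
      have hfac : ∀ i, X' - algebraMap κ l (hcE w' i) = algebraMap κ l γ⁻¹ * W i := by
        intro i
        rw [hWs i, hsdiff i, hX', ha']
        simp only [map_add, map_mul, map_sub, map_inv₀]
        field_simp
        ring
      have hfX : aeval X' (fR κ) = algebraMap κ l (108 * γ⁻¹ ^ 5) * Y ^ 2 := by
        rw [hc_fR w' hw' X', Finset.prod_congr rfl fun i _ => hfac i, Finset.prod_mul_distrib,
          Finset.prod_const, Finset.card_univ, Fintype.card_fin, hYW, map_mul, map_pow, map_ofNat]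
        ring
      obtain ⟨σ, hσ⟩ : ∃ σ : κ, σ ^ 2 = 108 * γ⁻¹ ^ 5 :=
        IsAlgClosed.exists_pow_nat_eq _ (by norm_num)
      have hσ0 : σ ≠ 0 := by
        rintro rfl
        have h1 : (108 : κ) * γ⁻¹ ^ 5 ≠ 0 :=
          mul_ne_zero (by norm_num) (pow_ne_zero _ (inv_ne_zero hγ0))
        apply h1
        rw [← hσ]
        norm_num
      have hσL : algebraMap κ l σ ≠ 0 := by simpa using hσ0
      have hYX : (algebraMap κ l σ * Y) ^ 2 = aeval X' (fR κ) := by
        rw [hfX, mul_pow, ← map_pow, hσ]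
      have hDZ : D κ l Z = algebraMap κ l γ • D κ l X' := by
        rw [hZX, Derivation.leibniz, map_sub, Derivation.map_algebraMap,
          Derivation.map_algebraMap, sub_zero, smul_zero, add_zero]
      have hηX : ρ.ψ a • D κ l (ρ.ψ b) =
          (c₁ * σ * γ) • ((algebraMap κ l σ * Y)⁻¹ • D κ l X') := by
        rw [hη, hDZ, smul_smul, algebra_compatible_smul l c₁, smul_smul,
          algebra_compatible_smul l (c₁ * σ * γ), smul_smul]
        congr 1
        rw [map_mul, map_mul]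
        field_simp
      by_cases htR : t ∈ ρ.R
      · -- the parameter is in `R`
        right
        have htk : Rk ρ t (ρ.φ ⟨t, htR⟩) := ⟨htR, rfl⟩
        set t' := ρ.φ ⟨t, htR⟩ with ht'
        have hst : Rk ρ ((a₀ - t) / c₀) ((a' - t') * γ) := by
          rw [div_eq_mul_inv]
          exact hk_mul (hk_sub haR htk) hγ
        have hW't : W' = Z + algebraMap κ l ((a' - t') * γ) := by
          rcases hcase' with ⟨s', h1, h2⟩ | h1
          · rw [h2, hk_unique h1 hst]
          · exact absurd hst.1 h1.1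
        obtain ⟨τ, hτ⟩ : ∃ τ : κ, τ ^ 2 = γ⁻¹ := IsAlgClosed.exists_pow_nat_eq _ (by norm_num)
        have hτ0 : τ ≠ 0 := by
          rintro rfl
          apply inv_ne_zero hγ0
          rw [← hτ]
          norm_num
        have hτL : algebraMap κ l τ ≠ 0 := by simpa using hτ0
        set v' := algebraMap κ l τ * V with hv'
        have hv2 : v' ^ 2 + algebraMap κ l t' = X' := by
          rw [hv', mul_pow, hVW, hW't, ← map_pow, hτ, hX']
          simp only [map_mul, map_sub, map_inv₀]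
          field_simp
          ring
        have hv'T : Transcendental κ v' := by
          intro halg
          apply hX'T
          rw [← hv2]
          exact (halg.pow 2).add (isAlgebraic_algebraMap t')
        refine ⟨htR, v', algebraMap κ l σ * Y, c₁ * σ * γ,
          mul_ne_zero (mul_ne_zero hc₁ hσ0) hγ0, hv'T, ?_, ?_, ?_⟩
        · rw [hYX, hv2]
        · rw [← top_le_iff, ← htop, IntermediateField.adjoin_le_iff]
          have m1 : v' ∈ IntermediateField.adjoin κ {v', algebraMap κ l σ * Y} :=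
            IntermediateField.subset_adjoin _ _ (by simp)
          have m2 : algebraMap κ l σ * Y ∈
              IntermediateField.adjoin κ {v', algebraMap κ l σ * Y} :=
            IntermediateField.subset_adjoin _ _ (by simp)
          rintro u (rfl | rfl | rfl)
          · rw [SetLike.mem_coe, hZX, ← hv2]
            exact mul_mem (IntermediateField.algebraMap_mem _ _) (sub_mem (add_mem (pow_mem m1 2)
              (IntermediateField.algebraMap_mem _ _)) (IntermediateField.algebraMap_mem _ _))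
          · have h1 : (algebraMap κ l σ)⁻¹ * (algebraMap κ l σ * u) = u := by field_simp
            have h2 := mul_mem (inv_mem (IntermediateField.algebraMap_mem _ σ)) m2
            rw [h1] at h2
            exact h2
          · have h1 : (algebraMap κ l τ)⁻¹ * v' = u := by rw [hv']; field_simp
            have h2 := mul_mem (inv_mem (IntermediateField.algebraMap_mem _ τ)) m1
            rw [h1] at h2
            exact h2
        · rw [hηX]
          congr 1
          have h1 : D κ l X' = (2 * v') • D κ l v' := by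
            rw [← hv2, map_add, Derivation.map_algebraMap, add_zero, hc_Dsq]
          rw [h1, smul_smul]
          congr 1
          field_simp
      · -- the parameter is not in `R`
        left
        have hW'1 : W' = 1 := by
          rcases hcase' with ⟨s', h1, -⟩ | h1
          · exfalso
            apply htR
            have h2 := hk_sub haR (hk_mul hcR h1)
            have h3 : a₀ - c₀ * ((a₀ - t) / c₀) = t := by
              field_simp
              ring
            rw [h3] at h2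
            exact h2.1
          · exact h1.2
        rw [hW'1] at hVW
        refine ⟨X', algebraMap κ l σ * Y, c₁ * σ * γ,
          mul_ne_zero (mul_ne_zero hc₁ hσ0) hγ0, hX'T, hYX, ?_, hηX⟩
        rw [← top_le_iff, ← htop, IntermediateField.adjoin_le_iff]
        have m1 : X' ∈ IntermediateField.adjoin κ {X', algebraMap κ l σ * Y} :=
          IntermediateField.subset_adjoin _ _ (by simp)
        have m2 : algebraMap κ l σ * Y ∈
            IntermediateField.adjoin κ {X', algebraMap κ l σ * Y} :=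
          IntermediateField.subset_adjoin _ _ (by simp)
        rintro u (rfl | rfl | rfl)
        · rw [SetLike.mem_coe, hZX]
          exact mul_mem (IntermediateField.algebraMap_mem _ _)
            (sub_mem m1 (IntermediateField.algebraMap_mem _ _))
        · have h1 : (algebraMap κ l σ)⁻¹ * (algebraMap κ l σ * u) = u := by field_simp
          have h2 := mul_mem (inv_mem (IntermediateField.algebraMap_mem _ σ)) m2
          rw [h1] at h2
          exact h2
        · rw [sq] at hVW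
          rcases mul_self_eq_one_iff.1 hVW with h1 | h1
          · rw [SetLike.mem_coe, h1]; exact one_mem _
          · rw [SetLike.mem_coe, h1]; exact neg_mem (one_mem _)
  · -- not all roots are in the disc
    left
    by_cases hone : ∃ i, (a₀ - hcE w i) / c₀ ∈ ρ.R
    · obtain ⟨i, hi⟩ := hone
      -- exactly one
      have hother : ∀ j, j ≠ i → (a₀ - hcE w j) / c₀ ∉ ρ.R := by
        intro j hj hjR
        apply hall
        have hdiff : Rk ρ (hcE w j - hcE w i) (hcE w' j - hcE w' i) := hk_sub (hE j) (hE i)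
        have hdiff0 : hcE w' j - hcE w' i ≠ 0 := fun h0 => hj (hEinj (sub_eq_zero.1 h0))
        have hdK : hcE w j - hcE w i ≠ 0 := hk_ne hdiff hdiff0
        have hγ : ∃ γ, Rk ρ c₀⁻¹ γ := by
          have h1 := hk_div (hk_sub ⟨hi, rfl⟩ ⟨hjR, rfl⟩) hdiff hdiff0
          have h2 : ((a₀ - hcE w i) / c₀ - (a₀ - hcE w j) / c₀) / (hcE w j - hcE w i) =
              c₀⁻¹ := by
            field_simp
            ring
          rw [h2] at h1
          exact ⟨_, h1⟩
        obtain ⟨γ, hγ⟩ := hγ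
        intro m
        have h1 := hk_add (⟨hi, rfl⟩ : Rk ρ ((a₀ - hcE w i) / c₀) _)
          (hk_mul (hk_sub (hE i) (hE m)) hγ)
        have h2 : (a₀ - hcE w i) / c₀ + (hcE w i - hcE w m) * c₀⁻¹ = (a₀ - hcE w m) / c₀ := by
          field_simp
          ring
        rw [h2] at h1
        exact h1.1
      obtain ⟨s, -, hWs⟩ : ∃ s, Rk ρ ((a₀ - hcE w i) / c₀) s ∧ W i = Z + algebraMap κ l s := by
        rcases hcase i with h1 | h1
        · exact h1
        · exact absurd hi h1.1
      have hprod : ∏ j, W j = W i := by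
        refine Finset.prod_eq_single i (fun j _ hj => ?_) (fun h0 => absurd (Finset.mem_univ i) h0)
        rcases hcase j with ⟨s', h1, -⟩ | h1
        · exact absurd h1.1 (hother j hj)
        · exact h1.2
      rw [hprod, hWs] at hYW
      refine hc_caseB hZ hYW hc₁ 0 ?_
      rw [zero_add, pow_one]
      exact hη
    · have hprod : ∏ j, W j = 1 := by
        refine Finset.prod_eq_one fun j _ => ?_
        rcases hcase j with ⟨s', h1, -⟩ | h1
        · exact absurd ⟨j, h1.1⟩ hone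
        · exact h1.2
      rw [hprod] at hYW
      exact hc_caseA hZ hYW hc₁ hη

end Pool.Agent.Arith
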