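import Pool.Agent.Lib.MP_c0402d_ag.HC
import Pool.Agent.Lib.MP_c0402d_ag.GB
import Pool.Agent.Lib.MP_c0402d_ag.GC

/-!
# JOB HD: the family is closed under specialisation
-/

set_option autoImplicit false

namespace Pool.Agent.Arith

open KaehlerDifferential Polynomial

variable {K L κ l : Type} [Field K] [CharZero K] [IsAlgClosed K] [Field L] [Algebra K L]
  [Field κ] [CharZero κ] [Field l] [Algebra κ l]

omit [CharZero K] [IsAlgClosed K] [CharZero κ] in
/-- Scaling of a nonzero polynomial: the coefficients are in `R` and one of them is `1`. -/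
theorem Red.mvScale (ρ : Red K L κ l) {σ : Type} (P : MvPolynomial σ K) (hP : P ≠ 0) :
    ∃ (c : K) (Q : MvPolynomial σ ρ.R), c ≠ 0 ∧ MvPolynomial.C c * P =
      MvPolynomial.map ρ.R.subtype Q ∧ MvPolynomial.map ρ.φ Q ≠ 0 := by
  classical
  obtain ⟨m, hm, hmax⟩ := P.support.exists_max_image (fun m => ρ.R.valuation (P.coeff m))
    (MvPolynomial.support_nonempty.2 hP)
  have hm0 : P.coeff m ≠ 0 := by simpa using hm
  have hin : ∀ n, (P.coeff m)⁻¹ * P.coeff n ∈ ρ.R := by
    intro n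
    by_cases hn : n ∈ P.support
    · rw [← ValuationSubring.valuation_le_one_iff, map_mul, map_inv₀]
      have h1 := hmax n hn
      have h2 : ρ.R.valuation (P.coeff m) ≠ 0 := by simpa using hm0
      rw [mul_comm]
      exact (div_le_one₀ (zero_lt_iff.2 h2)).2 h1
    · have : P.coeff n = 0 := by simpa using hn
      simp [this]
  refine ⟨(P.coeff m)⁻¹, ∑ n ∈ P.support, MvPolynomial.monomial n ⟨_, hin n⟩, inv_ne_zero hm0,
    ?_, ?_⟩
  · rw [map_sum]
    have hP' := P.as_sum
    calc MvPolynomial.C (P.coeff m)⁻¹ * P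
        = MvPolynomial.C (P.coeff m)⁻¹ *
          ∑ n ∈ P.support, MvPolynomial.monomial n (P.coeff n) := by rw [← hP']
      _ = _ := by
        rw [Finset.mul_sum]
        refine Finset.sum_congr rfl fun n _ => ?_
        rw [MvPolynomial.map_monomial, MvPolynomial.C_mul_monomial]
        rfl
  · intro h0
    have h1 := congrArg (MvPolynomial.coeff m) h0
    rw [MvPolynomial.coeff_map, MvPolynomial.coeff_sum, MvPolynomial.coeff_zero] at h1
    rw [Finset.sum_eq_single m] at h1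
    · rw [MvPolynomial.coeff_monomial, if_pos rfl] at h1
      have : (⟨(P.coeff m)⁻¹ * P.coeff m, hin m⟩ : ρ.R) = 1 := by
        ext
        simp [inv_mul_cancel₀ hm0]
      rw [this, map_one] at h1
      exact one_ne_zero h1
    · intro n _ hn
      rw [MvPolynomial.coeff_monomial, if_neg hn]
    · intro h; exact absurd hm h

omit [CharZero K] [IsAlgClosed K] [CharZero κ] in
theorem Red.algebraicIndependent (ρ : Red K L κ l) {σ : Type} (x : σ → ρ.O)
    (h : AlgebraicIndependent κ (fun i => ρ.ψ (x i))) :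
    AlgebraicIndependent K (fun i => (x i : L)) := by
  rw [algebraicIndependent_iff] at h ⊢
  intro P hP
  by_contra hne
  obtain ⟨c, Q, hc, hcQ, hQ⟩ := ρ.mvScale P hne
  apply hQ
  apply h
  -- evaluation in `O`
  let j : ρ.R →+* ρ.O :=
    { toFun := fun r => ⟨algebraMap K L r, (ρ.mem r).1 r.2⟩
      map_one' := by ext; simp
      map_mul' := fun a b => by ext; simp
      map_zero' := by ext; simp
      map_add' := fun a b => by ext; simp }
  have h1 : (MvPolynomial.eval₂ j x Q : ρ.O) = 0 := by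
    apply Subtype.ext
    have h2 : ρ.O.subtype (MvPolynomial.eval₂ j x Q) = MvPolynomial.eval₂ (ρ.O.subtype.comp j)
        (fun i => ρ.O.subtype (x i)) Q := by
      exact MvPolynomial.eval₂_comp_left ρ.O.subtype j x Q
    have h3 : ρ.O.subtype.comp j = (algebraMap K L).comp ρ.R.subtype := by
      ext r; rfl
    change ρ.O.subtype (MvPolynomial.eval₂ j x Q) = 0
    rw [h2, h3, ← MvPolynomial.eval₂_map, ← hcQ, MvPolynomial.eval₂_mul]
    have : MvPolynomial.eval₂ (algebraMap K L) (fun i => ρ.O.subtype (x i)) P = 0 := hP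
    rw [this, mul_zero]
  have h4 := congrArg ρ.ψ h1
  rw [map_zero] at h4
  rw [← h4]
  have h5 : ρ.ψ (MvPolynomial.eval₂ j x Q) = MvPolynomial.eval₂ (ρ.ψ.comp j)
        (fun i => ρ.ψ (x i)) Q := by
    exact MvPolynomial.eval₂_comp_left ρ.ψ j x Q
  have h6 : ρ.ψ.comp j = (algebraMap κ l).comp ρ.φ := by
    ext r; exact ρ.compat r _
  rw [h5, h6, ← MvPolynomial.eval₂_map]
  rfl

omit [CharZero K] [IsAlgClosed K] [CharZero κ] in
/-- Abhyankar's inequality -/
theorem Red.trdeg_eq_one (ρ : Red K L κ l) (htr : Algebra.trdeg K L = 1) {b : ρ.O}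
    (hb : Transcendental κ (ρ.ψ b)) : Algebra.trdeg κ l = 1 := by
  apply le_antisymm
  · obtain ⟨ι, x, hx⟩ := exists_isTranscendenceBasis' κ l
    have h1 : ∀ i, ∃ y : ρ.O, ρ.ψ y = x i := fun i => ρ.ψ_surj (x i)
    choose y hy using h1
    have h2 : AlgebraicIndependent K (fun i => (y i : L)) := by
      apply ρ.algebraicIndependent y
      have : (fun i => ρ.ψ (y i)) = x := funext hy
      rw [this]
      exact hx.1
    rw [← hx.cardinalMk_eq_trdeg, ← htr]
    exact h2.cardinalMk_le_trdeg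
  · have h1 : AlgebraicIndependent κ (fun _ : Unit => ρ.ψ b) :=
      algebraicIndependent_unique_type_iff.2 hb
    have h2 := h1.cardinalMk_le_trdeg
    simpa using h2

/-- `classification`, `not_hasType_pole`, `not_hasType_genus_two`, `not_hasType_genus_three`. -/
theorem family_closed {t : K} {ω : Ω[L⁄K]} {η : Ω[l⁄κ]} (hm : Fam.Member t ω)
    (hs : Specialises ω η) (hη : HasType η {2, 2, 1, 1}) : ∃ t₀ : κ, Fam.Member t₀ η := by
  obtain ⟨R, O, φ, ψ, hφ, hψ, hmem, hcompat, c', a, b, hc', ha, hb, hω, hη'⟩ := hs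
  obtain ⟨ht, C, c, hC, hc, hω'⟩ := (member_iff t ω).1 hm
  let ρ : Red K L κ l := ⟨R, O, φ, ψ, hφ, hψ, hmem, hcompat⟩
  have := ρ.isAlgClosed
  have htr : Algebra.trdeg κ l = 1 := ρ.trdeg_eq_one C.trdeg hb
  have key : (2 * C.v / C.y) • D K L C.v = (c⁻¹ * c') • ((a : L) • D K L (b : L)) := by
    rw [mul_smul, ← hω, hω', smul_smul, inv_mul_cancel₀ hc, one_smul]
  rcases classification ρ ht C hC a b ha hb (c⁻¹ * c') (mul_ne_zero (inv_ne_zero hc) hc') key with
    ⟨r, c1, j, hr, hc1, h1⟩ | ⟨x, y, c1, hc1, hx, hxy, hgen, h1⟩ | ⟨ht', v, y, c1, hc1, hv, hvy, hgen, h1⟩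
  · rw [hη'] at hη
    exfalso
    have h2 : ψ a • D κ l (ψ b) = c1 • ((r ^ j)⁻¹ • D κ l r) := h1
    rw [h2] at hη
    exact not_hasType_pole htr hr hc1 j _ hη
  · rw [hη'] at hη
    exfalso
    have h2 : ψ a • D κ l (ψ b) = c1 • (y⁻¹ • D κ l x) := h1
    rw [h2] at hη
    exact not_hasType_genus_two hc1 hx hxy hgen hη
  · have h2 : ψ a • D κ l (ψ b) = c1 • ((2 * v / y) • D κ l v) := h1
    by_cases h0 : (fR κ).eval (φ ⟨t, ht'⟩) = 0
    · rw [hη'] at hη
      exfalso
      rw [h2] at hη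
      exact not_hasType_genus_three hc1 hv h0 hvy hgen hη
    · refine ⟨φ ⟨t, ht'⟩, (member_iff _ _).2 ⟨h0, ?_⟩⟩
      refine ⟨⟨v, y, Ft (φ ⟨t, ht'⟩), ?_, hv, hgen, Ft_separable h0, ?_⟩, c1, rfl, hc1, ?_⟩
      · rw [hvy]
        rw [Ft, aeval_comp]
        have h3 : aeval v (X ^ 2 + Polynomial.C (φ ⟨t, ht'⟩)) =
            v ^ 2 + algebraMap κ l (φ ⟨t, ht'⟩) := by simp
        rw [h3]
      · rw [Ft_natDegree]; norm_num
      · rw [hη', h2]

end Pool.Agent.Arith
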