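import Pool.Agent.Lib.MP_c0402d_ag.HA

/-!
# JOB HE: a place of `ℂ` with values in `ℚbar`
-/

set_option autoImplicit false

namespace Pool.Agent.Arith

/-- the field of algebraic numbers -/
abbrev Qb : Type := algebraicClosure ℚ ℂ

/-- Subspaces of `ℂ` closed under multiplication which do not contain `1`. -/
private def HEset : Set (Submodule Qb ℂ) :=
  {M | (∀ a ∈ M, ∀ b ∈ M, a * b ∈ M) ∧ (1 : ℂ) ∉ M}

private theorem HE_zero {M : Submodule Qb ℂ} (h1 : (1 : ℂ) ∉ M) {a : Qb} (h : (a : ℂ) ∈ M) :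
    a = 0 := by
  by_contra ha
  apply h1
  have h2 := M.smul_mem a⁻¹ h
  have h3 : a⁻¹ • (a : ℂ) = 1 := by
    rw [Algebra.smul_def]
    show ((a⁻¹ : Qb) : ℂ) * (a : ℂ) = 1
    have h4 : (a : ℂ) ≠ 0 := fun h5 => ha (Subtype.ext h5)
    push_cast
    exact inv_mul_cancel₀ h4
  rwa [h3] at h2

/-- The subspace of the `x f(x)`. -/
private noncomputable def HEpow (x : ℂ) : Submodule Qb ℂ :=
  ((Ideal.span {(Polynomial.X : Polynomial Qb)}).restrictScalars Qb).map
    (Polynomial.aeval (R := Qb) x).toLinearMap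

private theorem HE_mem_pow {x z : ℂ} : z ∈ HEpow x ↔
    ∃ f : Polynomial Qb, f.eval 0 = 0 ∧ Polynomial.aeval x f = z := by
  unfold HEpow
  rw [Submodule.mem_map]
  constructor
  · rintro ⟨f, hf, rfl⟩
    refine ⟨f, ?_, rfl⟩
    rw [Submodule.restrictScalars_mem, Ideal.mem_span_singleton] at hf
    obtain ⟨g, rfl⟩ := hf
    simp
  · rintro ⟨f, hf, rfl⟩
    refine ⟨f, ?_, rfl⟩
    rw [Submodule.restrictScalars_mem, Ideal.mem_span_singleton, Polynomial.X_dvd_iff,
      Polynomial.coeff_zero_eq_eval_zero]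
    exact hf

private theorem HE_transc : ∃ x : ℂ, Transcendental Qb x := by
  by_contra h
  push Not at h
  have h1 : ∀ x : ℂ, IsAlgebraic ℚ x := by
    intro x
    have h2 : IsAlgebraic Qb x := not_not.mp (h x)
    have h3 : Algebra.IsAlgebraic ℚ Qb := algebraicClosure.isAlgebraic ℚ ℂ
    exact h2.restrictScalars ℚ
  have h3 : Set.Countable {x : ℂ | IsAlgebraic ℚ x} := Algebraic.countable ℚ ℂ
  have h4 : {x : ℂ | IsAlgebraic ℚ x} = Set.univ := Set.eq_univ_of_forall h1
  rw [h4] at h3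
  exact not_countable_complex h3

private theorem HE_start {x : ℂ} (hx : Transcendental Qb x) : HEpow x ∈ HEset := by
  constructor
  · intro a ha b hb
    rw [HE_mem_pow] at ha hb ⊢
    obtain ⟨f, hf, rfl⟩ := ha
    obtain ⟨g, hg, rfl⟩ := hb
    exact ⟨f * g, by simp [hf], by simp⟩
  · intro h
    rw [HE_mem_pow] at h
    obtain ⟨f, hf, h⟩ := h
    have h1 : Polynomial.aeval x (f - 1) = 0 := by simp [h]
    have h2 : f - 1 = 0 := by
      by_contra h3
      exact hx ⟨f - 1, h3, h1⟩
    have h3 : (f - 1).eval 0 = 0 := by rw [h2]; simp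
    simp [hf] at h3

private theorem HE_max {x : ℂ} (hx : Transcendental Qb x) :
    ∃ M : Submodule Qb ℂ, x ∈ M ∧ Maximal (· ∈ HEset) M := by
  obtain ⟨M, h1, h2⟩ := zorn_le_nonempty₀ HEset (by
    intro c hc hchain y hy
    have hne : c.Nonempty := ⟨y, hy⟩
    have hdir : DirectedOn (· ≤ ·) c := hchain.directedOn
    refine ⟨sSup c, ⟨?_, ?_⟩, fun z hz => le_sSup hz⟩
    · intro a ha b hb
      rw [Submodule.mem_sSup_of_directed hne hdir] at ha hb ⊢
      obtain ⟨A, hA, haA⟩ := ha
      obtain ⟨B, hB, hbB⟩ := hb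
      obtain ⟨D, hD, hAD, hBD⟩ := hdir A hA B hB
      exact ⟨D, hD, (hc hD).1 a (hAD haA) b (hBD hbB)⟩
    · intro h
      rw [Submodule.mem_sSup_of_directed hne hdir] at h
      obtain ⟨A, hA, h⟩ := h
      exact (hc hA).2 h) (HEpow x) (HE_start hx)
  refine ⟨M, h1 ?_, h2⟩
  rw [HE_mem_pow]
  exact ⟨Polynomial.X, by simp, by simp⟩

/-- The ring `ℚbar + M`. -/
private def HEring (M : Submodule Qb ℂ) (hM : M ∈ HEset) : Subring ℂ where
  carrier := {z | ∃ a : Qb, z - (a : ℂ) ∈ M}
  mul_mem' := by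
    rintro z w ⟨a, ha⟩ ⟨b, hb⟩
    refine ⟨a * b, ?_⟩
    have h1 : z * w - ((a * b : Qb) : ℂ) = (z - a) * (w - b) + (a • (w - (b : ℂ))
        + b • (z - (a : ℂ))) := by
      rw [Algebra.smul_def, Algebra.smul_def]
      show z * w - ((a * b : Qb) : ℂ) = (z - a) * (w - b) + ((a : ℂ) * (w - (b : ℂ))
        + (b : ℂ) * (z - (a : ℂ)))
      push_cast
      ring
    rw [h1]
    exact M.add_mem (hM.1 _ ha _ hb) (M.add_mem (M.smul_mem _ hb) (M.smul_mem _ ha))
  one_mem' := ⟨1, by simp⟩
  add_mem' := by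
    rintro z w ⟨a, ha⟩ ⟨b, hb⟩
    refine ⟨a + b, ?_⟩
    have h1 : z + w - ((a + b : Qb) : ℂ) = (z - a) + (w - b) := by push_cast; ring
    rw [h1]
    exact M.add_mem ha hb
  zero_mem' := ⟨0, by simp⟩
  neg_mem' := by
    rintro z ⟨a, ha⟩
    refine ⟨-a, ?_⟩
    have h1 : -z - ((-a : Qb) : ℂ) = -(z - a) := by push_cast; ring
    rw [h1]
    exact M.neg_mem ha

private theorem HE_nonunits (V : ValuationSubring ℂ) (z : ℂ) :
    z ∈ V.nonunits ↔ V.valuation z < 1 := Iff.rfl

private theorem HE_valuation {M : Submodule Qb ℂ} (hM : Maximal (· ∈ HEset) M) :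
    ∃ V : ValuationSubring ℂ, (∀ z, z ∈ V ↔ ∃ a : Qb, z - (a : ℂ) ∈ M) ∧
      ∀ z, z ∈ V.nonunits ↔ z ∈ M := by
  let S := HEring M hM.1
  let I : Ideal S :=
    { carrier := {z | (z : ℂ) ∈ M}
      add_mem' := fun {a b} ha hb => M.add_mem ha hb
      zero_mem' := M.zero_mem
      smul_mem' := by
        rintro ⟨c, a, ha⟩ ⟨z, hz'⟩ hz
        show c * z ∈ M
        have h1 : c * z = (c - a) * z + a • z := by
          rw [Algebra.smul_def]
          show c * z = (c - a) * z + (a : ℂ) * z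
          ring
        rw [h1]
        exact M.add_mem (hM.1.1 _ ha _ hz) (M.smul_mem _ hz) }
  have hI : I ≠ ⊤ := by
    intro h
    have h1 : (1 : S) ∈ I := by rw [h]; trivial
    exact hM.1.2 h1
  obtain ⟨V, hV1, hV2⟩ := Ideal.image_subset_nonunits_valuationSubring I hI
  have hV3 : ∀ z ∈ M, z ∈ V.nonunits := by
    intro z hz
    refine hV2 ⟨⟨z, 0, by simpa using hz⟩, hz, rfl⟩
  have hV4 : ∀ a : Qb, (a : ℂ) ∈ V := fun a => hV1 ⟨a, by simp⟩
  -- the maximal ideal of `V` is `M`
  let N : Submodule Qb ℂ :=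
    { carrier := {z | z ∈ V.nonunits}
      add_mem' := fun {a b} ha hb => by
        rw [Set.mem_ofPred_eq, HE_nonunits] at ha hb ⊢
        exact V.valuation.map_add_lt ha hb
      zero_mem' := by
        rw [Set.mem_ofPred_eq, HE_nonunits, map_zero]
        exact zero_lt_one
      smul_mem' := fun c z hz => by
        rw [Set.mem_ofPred_eq, HE_nonunits] at hz ⊢
        rw [Algebra.smul_def, map_mul, mul_comm]
        have h1 : V.valuation (c : ℂ) ≤ 1 := (V.valuation_le_one_iff _).mpr (hV4 c)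
        exact mul_lt_one_of_lt_of_le hz h1 }
  have hN : N ∈ HEset := by
    constructor
    · intro a ha b hb
      have ha' : V.valuation a < 1 := ha
      have hb' : V.valuation b < 1 := hb
      show V.valuation (a * b) < 1
      rw [map_mul]
      exact mul_lt_one' ha' hb'
    · intro h
      have h' : V.valuation (1 : ℂ) < 1 := h
      rw [map_one] at h'
      exact lt_irrefl _ h'
  have hMN : M = N := by
    apply le_antisymm
    · exact fun z hz => hV3 z hz
    · exact hM.2 hN (fun z hz => hV3 z hz)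
  have hnu : ∀ z, z ∈ V.nonunits ↔ z ∈ M := by
    intro z
    rw [hMN]
    rfl
  refine ⟨V, fun z => ⟨fun hz => ?_, fun ⟨a, ha⟩ => ?_⟩, hnu⟩
  swap
  · exact hV1 ⟨a, ha⟩
  by_contra hcon
  push Not at hcon
  have hmul : ∀ m ∈ M, ∀ y ∈ V, m * y ∈ M := by
    intro m hm y hy
    rw [← hnu, HE_nonunits] at hm ⊢
    rw [map_mul]
    exact mul_lt_one_of_lt_of_le hm ((V.valuation_le_one_iff _).mpr hy)
  have hpow : ∀ y ∈ HEpow z, y ∈ V := by
    intro y hy
    rw [HE_mem_pow] at hy
    obtain ⟨f, -, rfl⟩ := hy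
    induction f using Polynomial.induction_on' with
    | add p q hp hq => rw [map_add]; exact V.add_mem _ _ hp hq
    | monomial n a =>
      rw [Polynomial.aeval_monomial]
      exact V.mul_mem _ _ (hV4 a) (pow_mem hz n)
  let N' : Submodule Qb ℂ := M ⊔ HEpow z
  have hN' : N' ∈ HEset := by
    constructor
    · intro a ha b hb
      rw [Submodule.mem_sup] at ha hb ⊢
      obtain ⟨m, hm, u, hu, rfl⟩ := ha
      obtain ⟨m', hm', u', hu', rfl⟩ := hb
      refine ⟨m * m' + m * u' + m' * u, ?_, u * u', ?_, by ring⟩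
      · exact M.add_mem (M.add_mem (hM.1.1 _ hm _ hm') (hmul _ hm _ (hpow _ hu')))
          (hmul _ hm' _ (hpow _ hu))
      · rw [HE_mem_pow] at hu hu' ⊢
        obtain ⟨f, hf, rfl⟩ := hu
        obtain ⟨g, hg, rfl⟩ := hu'
        exact ⟨f * g, by simp [hf], by simp⟩
    · intro h
      rw [Submodule.mem_sup] at h
      obtain ⟨m, hm, u, hu, h⟩ := h
      rw [HE_mem_pow] at hu
      obtain ⟨f, hf, rfl⟩ := hu
      let g : Polynomial Qb := 1 - f
      have hg : Polynomial.aeval z g = m := by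
        simp only [g, map_sub, map_one]
        rw [← h]; ring
      have hg0 : g ≠ 0 := by
        intro h1
        have h2 : g.eval 0 = 0 := by rw [h1]; simp
        simp [g, hf] at h2
      have : IsAlgClosed Qb := (algebraicClosure.isAlgClosure (F := ℚ) (E := ℂ)).isAlgClosed
      have hs := IsAlgClosed.splits g
      have h3 : g = Polynomial.C g.leadingCoeff *
          (g.roots.map fun a => Polynomial.X - Polynomial.C a).prod := hs.eq_prod_roots
      have h4 : V.valuation (Polynomial.aeval z g) = 1 := by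
        rw [h3, map_mul, map_mul, Polynomial.aeval_C]
        have h5 : V.valuation ((algebraMap Qb ℂ) g.leadingCoeff) = 1 := by
          have hl : g.leadingCoeff ≠ 0 := Polynomial.leadingCoeff_ne_zero.mpr hg0
          apply le_antisymm
          · exact (V.valuation_le_one_iff _).mpr (hV4 _)
          · have h6 : V.valuation ((algebraMap Qb ℂ) g.leadingCoeff⁻¹) ≤ 1 :=
              (V.valuation_le_one_iff _).mpr (hV4 g.leadingCoeff⁻¹)
            have h7 : V.valuation ((algebraMap Qb ℂ) g.leadingCoeff) *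
                V.valuation ((algebraMap Qb ℂ) g.leadingCoeff⁻¹) = 1 := by
              rw [← map_mul, ← map_mul, mul_inv_cancel₀ hl, map_one, map_one]
            calc (1 : V.ValueGroup) = V.valuation ((algebraMap Qb ℂ) g.leadingCoeff) *
                  V.valuation ((algebraMap Qb ℂ) g.leadingCoeff⁻¹) := h7.symm
              _ ≤ V.valuation ((algebraMap Qb ℂ) g.leadingCoeff) * 1 :=
                mul_le_mul_right h6 _
              _ = _ := mul_one _
        rw [h5, one_mul, map_multiset_prod, map_multiset_prod, Multiset.map_map,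
          Multiset.map_map]
        apply Multiset.prod_eq_one
        intro y hy
        rw [Multiset.mem_map] at hy
        obtain ⟨a, -, rfl⟩ := hy
        simp only [Function.comp_apply, map_sub, Polynomial.aeval_X, Polynomial.aeval_C]
        have h8 : z - (algebraMap Qb ℂ) a ∈ V := sub_mem hz (hV4 a)
        have h9 : ¬ (z - (algebraMap Qb ℂ) a ∈ V.nonunits) := by
          rw [hnu]
          exact hcon a
        rw [HE_nonunits, not_lt] at h9
        exact le_antisymm ((V.valuation_le_one_iff _).mpr h8) h9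
      rw [hg] at h4
      have h10 := (hnu m).mpr hm
      rw [HE_nonunits, h4] at h10
      exact lt_irrefl _ h10
  have h11 : z ∈ M := by
    apply hM.2 hN' le_sup_left
    apply Submodule.mem_sup_right
    rw [HE_mem_pow]
    exact ⟨Polynomial.X, by simp, by simp⟩
  exact hcon 0 (by simpa using h11)

/-- A place of `ℂ` over `ℚbar` with values in `ℚbar` (and nontrivial). Zorn's lemma for pairs
(subring `S ⊇ ℚbar` of `ℂ`, ring homomorphism `S → ℚbar` which is the identity on `ℚbar`), starting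
from `ℚbar[π] → ℚbar`, `π ↦ 0` (any transcendental number will do): for a maximal pair `S` is a
valuation ring, because `ℚbar` is algebraically closed. -/
theorem exists_place_complex : ∃ (R : ValuationSubring ℂ) (φ : R →+* Qb),
    (∀ a : Qb, (a : ℂ) ∈ R) ∧ (∀ (a : Qb) (h : (a : ℂ) ∈ R), φ ⟨a, h⟩ = a) ∧
    ∃ s : R, (s : ℂ) ≠ 0 ∧ φ s = 0 := by
  obtain ⟨x, hx⟩ := HE_transc
  obtain ⟨M, hxM, hM⟩ := HE_max hx
  obtain ⟨V, hV, hnu⟩ := HE_valuation hM
  have hu : ∀ (z : ℂ) (a b : Qb), z - (a : ℂ) ∈ M → z - (b : ℂ) ∈ M → a = b := by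
    intro z a b ha hb
    have h1 : ((a - b : Qb) : ℂ) ∈ M := by
      have h2 : ((a - b : Qb) : ℂ) = (z - b) - (z - a) := by push_cast; ring
      rw [h2]
      exact M.sub_mem hb ha
    exact sub_eq_zero.mp (HE_zero hM.1.2 h1)
  have hex : ∀ z : V, ∃ a : Qb, (z : ℂ) - (a : ℂ) ∈ M := fun z => (hV z).mp z.2
  choose f hf using hex
  have hf' : ∀ (z : V) (a : Qb), (z : ℂ) - (a : ℂ) ∈ M → f z = a :=
    fun z a h => hu z _ _ (hf z) h
  let φ : V →+* Qb :=
    { toFun := f
      map_one' := hf' 1 1 (by simp)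
      map_zero' := hf' 0 0 (by simp)
      map_add' := fun z w => hf' _ _ (by
        have h1 : ((z + w : V) : ℂ) - ((f z + f w : Qb) : ℂ) = (z - f z) + (w - f w) := by
          push_cast; ring
        rw [h1]
        exact M.add_mem (hf z) (hf w))
      map_mul' := fun z w => hf' _ _ (by
        have h1 : ((z * w : V) : ℂ) - ((f z * f w : Qb) : ℂ) = (z - f z) * (w - f w) +
            (f z • ((w : ℂ) - (f w : ℂ)) + f w • ((z : ℂ) - (f z : ℂ))) := by
          rw [Algebra.smul_def, Algebra.smul_def]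
          show ((z * w : V) : ℂ) - ((f z * f w : Qb) : ℂ) = (z - f z) * (w - f w) +
            ((f z : ℂ) * ((w : ℂ) - (f w : ℂ)) + (f w : ℂ) * ((z : ℂ) - (f z : ℂ)))
          push_cast
          ring
        rw [h1]
        exact M.add_mem (hM.1.1 _ (hf z) _ (hf w))
          (M.add_mem (M.smul_mem _ (hf w)) (M.smul_mem _ (hf z)))) }
  refine ⟨V, φ, fun a => (hV a).mpr ⟨a, by simp⟩, fun a h => hf' _ _ (by simp), ?_⟩
  refine ⟨⟨x, (hV x).mpr ⟨0, by simpa using hxM⟩⟩, ?_, hf' _ 0 (by simpa using hxM)⟩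
  intro h
  rw [show x = 0 from h] at hx
  exact hx ⟨Polynomial.X, Polynomial.X_ne_zero, by simp⟩

end Pool.Agent.Arith
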