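import Pool.Agent.Lib.MP_c0402d_ag.HE

/-!
# JOB HE2: the Gauss extension of a place of `ℂ` to `ℂ L₀`
-/

set_option autoImplicit false

namespace Pool.Agent.Arith

section HE2
variable {L : Type} [Field L] [Algebra ℂ L]

private theorem HE2_smul_Qb (a : Qb) (x : L) : a • x = algebraMap ℂ L (a : ℂ) * x := by
  rw [Algebra.smul_def]
  rfl

private theorem HE2_basis (L₀ : Subfield L)
    (hQ : ∀ a : ℂ, IsAlgebraic ℚ a → algebraMap ℂ L a ∈ L₀)
    (hlin : ∀ (n : ℕ) (b : Fin n → L), (∀ i, b i ∈ L₀) →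
      (∀ q : Fin n → ℂ, (∀ i, IsAlgebraic ℚ (q i)) → ∑ i, q i • b i = 0 → q = 0) →
      LinearIndependent ℂ b) :
    ∃ (ι : Type) (b : ι → L), (∀ i, b i ∈ L₀) ∧ LinearIndependent ℂ b ∧
      ∀ a ∈ L₀, ∃ q : ι →₀ ℂ, (∀ i, IsAlgebraic ℚ (q i)) ∧
        Finsupp.linearCombination ℂ b q = a := by
  classical
  let W : Submodule Qb L :=
    { carrier := L₀
      add_mem' := fun {a b} ha hb => L₀.add_mem ha hb
      zero_mem' := L₀.zero_mem
      smul_mem' := fun c x hx => by
        rw [HE2_smul_Qb]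
        exact L₀.mul_mem (hQ _ (mem_algebraicClosure_iff.mp c.2)) hx }
  let B := Module.Basis.ofVectorSpace Qb W
  refine ⟨_, fun i => ((B i : W) : L), fun i => (B i).2, ?_, ?_⟩
  · rw [linearIndependent_iff_finset_linearIndependent]
    intro s
    let e : Fin s.card ≃ s := s.equivFin.symm
    rw [← linearIndependent_equiv e]
    apply hlin
    · intro i
      exact (B _).2
    · intro q hq h
      have hB : LinearIndependent Qb (B ∘ ((Subtype.val : s → _) ∘ e)) :=
        B.linearIndependent.comp _ (Subtype.val_injective.comp e.injective)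
      rw [Fintype.linearIndependent_iff] at hB
      have h1 := hB (fun i => ⟨q i, mem_algebraicClosure_iff.mpr (hq i)⟩) (by
        apply Subtype.ext
        rw [Submodule.coe_zero, ← h]
        simp only [Submodule.coe_sum, Submodule.coe_smul, Function.comp_apply]
        refine Finset.sum_congr rfl fun i _ => ?_
        rw [HE2_smul_Qb, Algebra.smul_def])
      funext i
      have h2 := congrArg (Subtype.val : Qb → ℂ) (h1 i)
      exact h2
  · intro a ha
    let a' : W := ⟨a, ha⟩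
    refine ⟨(B.repr a').mapRange (fun x : Qb => (x : ℂ)) rfl, ?_, ?_⟩
    · intro i
      rw [Finsupp.mapRange_apply]
      exact mem_algebraicClosure_iff.mp ((B.repr a') i).2
    · have h1 := congrArg (Subtype.val : W → L) (B.linearCombination_repr a')
      rw [Finsupp.linearCombination_apply, Finsupp.sum] at h1
      rw [Finsupp.linearCombination_apply, Finsupp.sum_mapRange_index (by simp), Finsupp.sum]
      refine Eq.trans ?_ h1
      rw [Submodule.coe_sum]
      refine Finset.sum_congr rfl fun i _ => ?_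
      rw [Submodule.coe_smul, HE2_smul_Qb, Algebra.smul_def]

/-- The combinations of the `b i` with coefficients of valuation `< 1`. -/
private def HE2M {ι : Type} (b : ι → L) (R : ValuationSubring ℂ) : AddSubgroup L where
  carrier := {z | ∃ c : ι →₀ ℂ, (∀ i, R.valuation (c i) < 1) ∧
    Finsupp.linearCombination ℂ b c = z}
  add_mem' := by
    rintro _ _ ⟨c, hc, rfl⟩ ⟨d, hd, rfl⟩
    exact ⟨c + d, fun i => by
      rw [Finsupp.add_apply]; exact R.valuation.map_add_lt (hc i) (hd i), map_add _ _ _⟩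
  zero_mem' := ⟨0, fun i => by rw [Finsupp.zero_apply, map_zero]; exact zero_lt_one, map_zero _⟩
  neg_mem' := by
    rintro _ ⟨c, hc, rfl⟩
    exact ⟨-c, fun i => by rw [Finsupp.neg_apply, Valuation.map_neg]; exact hc i, map_neg _ _⟩

private theorem HE2M_mem {ι : Type} {b : ι → L} {R : ValuationSubring ℂ} {z : L} :
    z ∈ HE2M b R ↔ ∃ c : ι →₀ ℂ, (∀ i, R.valuation (c i) < 1) ∧
      Finsupp.linearCombination ℂ b c = z := Iff.rfl

variable {L₀ : Subfield L} {ι : Type} {b : ι → L} (hb : ∀ i, b i ∈ L₀)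
  (hli : LinearIndependent ℂ b)
  (hsp : ∀ a ∈ L₀, ∃ q : ι →₀ ℂ, (∀ i, IsAlgebraic ℚ (q i)) ∧
        Finsupp.linearCombination ℂ b q = a)
  (R : ValuationSubring ℂ) (hR : ∀ a : Qb, (a : ℂ) ∈ R)

include hR in
omit [Field L] [Algebra ℂ L] in
private theorem HE2_val_alg {a : ℂ} (ha : IsAlgebraic ℚ a) : R.valuation a ≤ 1 :=
  (R.valuation_le_one_iff _).mpr (hR ⟨a, mem_algebraicClosure_iff.mpr ha⟩)

include hR in
omit [Field L] [Algebra ℂ L] in
private theorem HE2_val_alg' {a : ℂ} (ha : IsAlgebraic ℚ a) (h : R.valuation a < 1) : a = 0 := by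
  by_contra h0
  have h1 : R.valuation a⁻¹ ≤ 1 := HE2_val_alg R hR ha.inv
  have h2 : R.valuation a * R.valuation a⁻¹ = 1 := by
    rw [← map_mul, mul_inv_cancel₀ h0, map_one]
  have h3 : R.valuation a * R.valuation a⁻¹ < 1 := mul_lt_one_of_lt_of_le h h1
  rw [h2] at h3
  exact lt_irrefl _ h3

private theorem HE2M_smul {c : ℂ} (hc : R.valuation c ≤ 1) {z : L} (hz : z ∈ HE2M b R) :
    c • z ∈ HE2M b R := by
  rw [HE2M_mem] at hz ⊢
  obtain ⟨d, hd, rfl⟩ := hz
  refine ⟨c • d, fun i => ?_, map_smul _ _ _⟩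
  rw [Finsupp.smul_apply, smul_eq_mul, map_mul, mul_comm]
  exact mul_lt_one_of_lt_of_le (hd i) hc

include hsp hR in
private theorem HE2M_smul' {c : ℂ} (hc : R.valuation c < 1) {a : L} (ha : a ∈ L₀) :
    c • a ∈ HE2M b R := by
  rw [HE2M_mem]
  obtain ⟨q, hq, rfl⟩ := hsp a ha
  refine ⟨c • q, fun i => ?_, map_smul _ _ _⟩
  rw [Finsupp.smul_apply, smul_eq_mul, map_mul]
  exact mul_lt_one_of_lt_of_le hc (HE2_val_alg R hR (hq i))

include hb hsp hR in
private theorem HE2M_mulL {a z : L} (ha : a ∈ L₀) (hz : z ∈ HE2M b R) : a * z ∈ HE2M b R := by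
  obtain ⟨c, hc, rfl⟩ := HE2M_mem.mp hz
  rw [Finsupp.linearCombination_apply, Finsupp.sum, Finset.mul_sum]
  refine AddSubgroup.sum_mem _ fun i _ => ?_
  rw [mul_smul_comm]
  exact HE2M_smul' hsp R hR (hc i) (L₀.mul_mem ha (hb i))

include hb hsp hR in
private theorem HE2M_mul {z w : L} (hz : z ∈ HE2M b R) (hw : w ∈ HE2M b R) :
    z * w ∈ HE2M b R := by
  obtain ⟨c, hc, rfl⟩ := HE2M_mem.mp hz
  rw [Finsupp.linearCombination_apply, Finsupp.sum, Finset.sum_mul]
  refine AddSubgroup.sum_mem _ fun i _ => ?_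
  rw [smul_mul_assoc]
  exact HE2M_smul R (hc i).le (HE2M_mulL hb hsp R hR (hb i) hw)

include hli hsp hR in
private theorem HE2M_inter {a : L} (ha : a ∈ L₀) (h : a ∈ HE2M b R) : a = 0 := by
  obtain ⟨q, hq, rfl⟩ := hsp a ha
  obtain ⟨c, hc, h⟩ := HE2M_mem.mp h
  have h1 : c = q := hli h
  subst h1
  have h2 : c = 0 := by
    ext i
    exact HE2_val_alg' R hR (hq i) (hc i)
  rw [h2, map_zero]

include hb hli hsp hR in
private theorem HE2_V : ∃ V : ValuationSubring L, (∀ a ∈ L₀, V.valuation a ≤ 1) ∧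
    ∀ z ∈ HE2M b R, V.valuation z < 1 := by
  let S : Subring L :=
    { carrier := {z | ∃ a ∈ L₀, z - a ∈ HE2M b R}
      mul_mem' := by
        rintro z w ⟨a, ha, hz⟩ ⟨c, hc, hw⟩
        refine ⟨a * c, L₀.mul_mem ha hc, ?_⟩
        have h1 : z * w - a * c = (z - a) * (w - c) + (a * (w - c) + c * (z - a)) := by ring
        rw [h1]
        exact AddSubgroup.add_mem _ (HE2M_mul hb hsp R hR hz hw) (AddSubgroup.add_mem _
          (HE2M_mulL hb hsp R hR ha hw) (HE2M_mulL hb hsp R hR hc hz))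
      one_mem' := ⟨1, L₀.one_mem, by rw [sub_self]; exact AddSubgroup.zero_mem _⟩
      add_mem' := by
        rintro z w ⟨a, ha, hz⟩ ⟨c, hc, hw⟩
        refine ⟨a + c, L₀.add_mem ha hc, ?_⟩
        have h1 : z + w - (a + c) = (z - a) + (w - c) := by ring
        rw [h1]
        exact AddSubgroup.add_mem _ hz hw
      zero_mem' := ⟨0, L₀.zero_mem, by rw [sub_self]; exact AddSubgroup.zero_mem _⟩
      neg_mem' := by
        rintro z ⟨a, ha, hz⟩
        refine ⟨-a, L₀.neg_mem ha, ?_⟩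
        have h1 : -z - -a = -(z - a) := by ring
        rw [h1]
        exact AddSubgroup.neg_mem _ hz }
  let I : Ideal S :=
    { carrier := {z | (z : L) ∈ HE2M b R}
      add_mem' := fun {x y} hx hy => AddSubgroup.add_mem (HE2M b R) hx hy
      zero_mem' := (AddSubgroup.zero_mem (HE2M b R) : (0 : L) ∈ HE2M b R)
      smul_mem' := by
        rintro ⟨c, a, ha, hc⟩ ⟨z, hz'⟩ hz
        show c * z ∈ HE2M b R
        have h1 : c * z = (c - a) * z + a * z := by ring
        rw [h1]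
        exact AddSubgroup.add_mem _ (HE2M_mul hb hsp R hR hc hz) (HE2M_mulL hb hsp R hR ha hz) }
  have hI : I ≠ ⊤ := by
    intro h
    have h1 : (1 : S) ∈ I := by rw [h]; trivial
    exact one_ne_zero (HE2M_inter hli hsp R hR L₀.one_mem h1)
  obtain ⟨V, hV1, hV2⟩ := Ideal.image_subset_nonunits_valuationSubring I hI
  refine ⟨V, fun a ha => ?_, fun z hz => ?_⟩
  · exact (V.valuation_le_one_iff _).mpr
      (hV1 ⟨a, ha, by rw [sub_self]; exact AddSubgroup.zero_mem _⟩)
  · exact hV2 ⟨⟨z, 0, L₀.zero_mem, by rw [sub_zero]; exact hz⟩, hz, rfl⟩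

include hR in
omit [Field L] [Algebra ℂ L] in
private theorem HE2_phi {φ : R →+* Qb} (hφ : ∀ (a : Qb) (h : (a : ℂ) ∈ R), φ ⟨a, h⟩ = a)
    (r : R) : R.valuation ((r : ℂ) - (φ r : ℂ)) < 1 := by
  have hsurj : Function.Surjective φ := fun a => ⟨⟨a, hR a⟩, hφ a _⟩
  have hmax : (RingHom.ker φ).IsMaximal := RingHom.ker_isMaximal_of_surjective φ hsurj
  have hk : RingHom.ker φ = IsLocalRing.maximalIdeal R := IsLocalRing.eq_maximalIdeal hmax
  let s : R := r - ⟨φ r, hR _⟩
  have hs : s ∈ IsLocalRing.maximalIdeal R := by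
    rw [← hk, RingHom.mem_ker, map_sub, hφ, sub_self]
  exact (R.valuation_lt_one_iff s).mp hs

include hb hli hsp hR in
private theorem HE2_scale (hQ : ∀ a : ℂ, IsAlgebraic ℚ a → algebraMap ℂ L a ∈ L₀)
    {φ : R →+* Qb} (hφ : ∀ (a : Qb) (h : (a : ℂ) ∈ R), φ ⟨a, h⟩ = a) {s : L}
    (hs : s ∈ Algebra.adjoin ℂ (L₀ : Set L)) (hs0 : s ≠ 0) :
    ∃ (c : ℂ) (a m : L), c ≠ 0 ∧ a ∈ L₀ ∧ a ≠ 0 ∧ m ∈ HE2M b R ∧
      s = algebraMap ℂ L c * (a + m) := by
  classical
  have h1 : ∃ d : ι →₀ ℂ, Finsupp.linearCombination ℂ b d = s := by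
    have h2 : s ∈ Submodule.span ℂ (L₀ : Set L) := by
      have h3 : s ∈ Subalgebra.toSubmodule (Algebra.adjoin ℂ (L₀ : Set L)) := hs
      rw [Algebra.adjoin_eq_span] at h3
      have h4 : Submonoid.closure (L₀ : Set L) = L₀.toSubmonoid :=
        Submonoid.closure_eq L₀.toSubmonoid
      rw [h4] at h3
      exact h3
    have h3 : Submodule.span ℂ (L₀ : Set L) ≤ LinearMap.range (Finsupp.linearCombination ℂ b) := by
      rw [Submodule.span_le]
      intro a ha
      obtain ⟨q, -, hq⟩ := hsp a ha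
      exact ⟨q, hq⟩
    exact h3 h2
  obtain ⟨d, rfl⟩ := h1
  have hd : d ≠ 0 := by
    rintro rfl
    exact hs0 (map_zero _)
  obtain ⟨i0, hi0, hmax⟩ := Finset.exists_max_image d.support (fun i => R.valuation (d i))
    (Finsupp.support_nonempty_iff.mpr hd)
  have hc : d i0 ≠ 0 := Finsupp.mem_support_iff.mp hi0
  have hv : ∀ i, (d i0)⁻¹ * d i ∈ R := by
    intro i
    by_cases hi : i ∈ d.support
    · rw [← R.valuation_le_one_iff, map_mul, map_inv₀]
      have h2 := hmax i hi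
      have h3 : R.valuation (d i0) ≠ 0 := (Valuation.ne_zero_iff _).mpr hc
      rw [mul_comm, ← div_eq_mul_inv]
      exact (div_le_one₀ (zero_lt_iff.mpr h3)).mpr h2
    · rw [Finsupp.notMem_support_iff.mp hi, mul_zero]
      exact R.zero_mem
  let g : ℂ → ℂ := fun x => if h : x ∈ R then (φ ⟨x, h⟩ : ℂ) else 0
  have hg : ∀ (x : ℂ) (h : x ∈ R), g x = (φ ⟨x, h⟩ : ℂ) := fun x h => dif_pos h
  have hg0 : g 0 = 0 := by
    rw [hg 0 R.zero_mem]
    have : (⟨0, R.zero_mem⟩ : R) = 0 := rfl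
    rw [this, map_zero]
    rfl
  have hgal : ∀ x, IsAlgebraic ℚ (g x) := by
    intro x
    by_cases h : x ∈ R
    · rw [hg x h]
      exact mem_algebraicClosure_iff.mp (φ ⟨x, h⟩).2
    · have : g x = 0 := dif_neg h
      rw [this]
      exact isAlgebraic_zero
  let e : ι →₀ ℂ := ((d i0)⁻¹ • d).mapRange g hg0
  have he : ∀ i, e i = g ((d i0)⁻¹ * d i) := fun i => by
    simp only [e, Finsupp.mapRange_apply, Finsupp.smul_apply, smul_eq_mul]
  refine ⟨d i0, Finsupp.linearCombination ℂ b e,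
    Finsupp.linearCombination ℂ b ((d i0)⁻¹ • d - e), hc, ?_, ?_, ?_, ?_⟩
  · rw [Finsupp.linearCombination_apply, Finsupp.sum]
    refine L₀.sum_mem fun i _ => ?_
    rw [Algebra.smul_def]
    refine L₀.mul_mem (hQ _ ?_) (hb i)
    rw [he]
    exact hgal _
  · intro h
    have h2 : e = 0 := hli (h.trans (map_zero _).symm)
    have h3 := he i0
    rw [h2, Finsupp.zero_apply, inv_mul_cancel₀ hc, hg 1 R.one_mem] at h3
    have h4 : (⟨1, R.one_mem⟩ : R) = 1 := rfl
    rw [h4, map_one] at h3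
    exact zero_ne_one h3
  · refine HE2M_mem.mpr ⟨_, fun i => ?_, rfl⟩
    rw [Finsupp.sub_apply, he, Finsupp.smul_apply, smul_eq_mul, hg _ (hv i)]
    exact HE2_phi R hR hφ ⟨_, hv i⟩
  · rw [← map_add, add_sub_cancel, map_smul, Algebra.smul_def, ← mul_assoc, ← map_mul,
      mul_inv_cancel₀ hc, map_one, one_mul]

end HE2

/-- The Gauss extension. `S = R L₀` maps to `L₀` by `∑ r_i a_i ↦ ∑ φ(r_i) a_i` (well defined by
linear disjointness); `O` is its localisation at the kernel. It is a valuation ring: every element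
of `ℂ L₀` is `∑ c_i a_i / ∑ d_j b_j` with `ℚbar`-linearly independent `a_i`, resp. `b_j`; divide the
coefficients by the largest one. -/
theorem gauss_extension {L : Type} [Field L] [Algebra ℂ L] (L₀ : Subfield L)
    (hQ : ∀ a : ℂ, IsAlgebraic ℚ a → algebraMap ℂ L a ∈ L₀)
    (hlin : ∀ (n : ℕ) (b : Fin n → L), (∀ i, b i ∈ L₀) →
      (∀ q : Fin n → ℂ, (∀ i, IsAlgebraic ℚ (q i)) → ∑ i, q i • b i = 0 → q = 0) →
      LinearIndependent ℂ b)
    (hgen : IntermediateField.adjoin ℂ (L₀ : Set L) = ⊤)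
    (R : ValuationSubring ℂ) (φ : R →+* Qb) (hR : ∀ a : Qb, (a : ℂ) ∈ R)
    (hφ : ∀ (a : Qb) (h : (a : ℂ) ∈ R), φ ⟨a, h⟩ = a) :
    ∃ (O : ValuationSubring L) (ψ : O →+* L₀), (∀ r : ℂ, r ∈ R ↔ algebraMap ℂ L r ∈ O) ∧
      (∀ a ∈ L₀, a ∈ O) ∧ (∀ (a : L₀) (h : (a : L) ∈ O), ψ ⟨a, h⟩ = a) ∧
      (∀ (r : R) (h : algebraMap ℂ L r ∈ O),
        ((ψ ⟨algebraMap ℂ L r, h⟩ : L₀) : L) = algebraMap ℂ L (φ r : ℂ)) := by
  obtain ⟨ι, b, hb, hli, hsp⟩ := HE2_basis L₀ hQ hlin
  obtain ⟨V, hV1, hV2⟩ := HE2_V hb hli hsp R hR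
  -- elements of `ℂ` of valuation less than one
  have hlt : ∀ x : ℂ, R.valuation x < 1 → V.valuation (algebraMap ℂ L x) < 1 := by
    intro x hx
    apply hV2
    have h1 := HE2M_smul' hsp R hR hx L₀.one_mem
    rwa [Algebra.smul_def, mul_one] at h1
  have hle : ∀ r : R, V.valuation (algebraMap ℂ L r - algebraMap ℂ L (φ r : ℂ)) < 1 := by
    intro r
    rw [← map_sub]
    exact hlt _ (HE2_phi R hR hφ r)
  have hQ' : ∀ a : Qb, algebraMap ℂ L (a : ℂ) ∈ L₀ :=
    fun a => hQ _ (mem_algebraicClosure_iff.mp a.2)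
  have hin : ∀ r ∈ R, V.valuation (algebraMap ℂ L r) ≤ 1 := by
    intro r hr
    have h1 : algebraMap ℂ L r = (algebraMap ℂ L r - algebraMap ℂ L (φ ⟨r, hr⟩ : ℂ)) +
      algebraMap ℂ L (φ ⟨r, hr⟩ : ℂ) := by ring
    rw [h1]
    exact Valuation.map_add_le _ (hle ⟨r, hr⟩).le (hV1 _ (hQ' _))
  have hnin : ∀ r : ℂ, r ∉ R → ¬ V.valuation (algebraMap ℂ L r) ≤ 1 := by
    intro r hr h
    have hr0 : r ≠ 0 := by
      rintro rfl
      exact hr R.zero_mem
    have h1 : R.valuation r⁻¹ < 1 := by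
      rw [← R.valuation_le_one_iff, not_le] at hr
      rw [map_inv₀]
      exact inv_lt_one_of_one_lt₀ hr
    have h2 := hlt _ h1
    have h3 : V.valuation (algebraMap ℂ L r⁻¹) * V.valuation (algebraMap ℂ L r) < 1 :=
      mul_lt_one_of_lt_of_le h2 h
    rw [← map_mul, ← map_mul, inv_mul_cancel₀ hr0, map_one, map_one] at h3
    exact lt_irrefl _ h3
  have hone : ∀ a ∈ L₀, a ≠ 0 → V.valuation a = 1 := by
    intro a ha ha0
    apply le_antisymm (hV1 a ha)
    have h1 := hV1 a⁻¹ (L₀.inv_mem ha)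
    by_contra h2
    rw [not_le] at h2
    have h3 : V.valuation a * V.valuation a⁻¹ < 1 := mul_lt_one_of_lt_of_le h2 h1
    rw [← map_mul, mul_inv_cancel₀ ha0, map_one] at h3
    exact lt_irrefl _ h3
  have hone' : ∀ a ∈ L₀, a ≠ 0 → ∀ m ∈ HE2M b R, V.valuation (a + m) = 1 := by
    intro a ha ha0 m hm
    rw [Valuation.map_add_eq_of_lt_left, hone a ha ha0]
    rw [hone a ha ha0]
    exact hV2 m hm
  -- existence of the residue
  have hex : ∀ f : L, V.valuation f ≤ 1 → ∃ a : L₀, V.valuation (f - a) < 1 := by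
    intro f hf
    by_cases hf0 : f = 0
    · refine ⟨0, ?_⟩
      rw [hf0]
      simp
    have h1 : f ∈ IntermediateField.adjoin ℂ (L₀ : Set L) := by rw [hgen]; trivial
    rw [IntermediateField.mem_adjoin_iff_div] at h1
    obtain ⟨s, hs, t, ht, hst⟩ := h1
    have hs0 : s ≠ 0 := by
      rintro rfl
      exact hf0 (by rw [hst, zero_div])
    have ht0 : t ≠ 0 := by
      rintro rfl
      exact hf0 (by rw [hst, div_zero])
    obtain ⟨c, a, m, hc, ha, ha0, hm, hs'⟩ := HE2_scale hb hli hsp R hR hQ hφ hs hs0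
    obtain ⟨d, a', m', hd, ha', ha0', hm', ht'⟩ := HE2_scale hb hli hsp R hR hQ hφ ht ht0
    have hva := hone' a ha ha0 m hm
    have hva' := hone' a' ha' ha0' m' hm'
    have hcL : algebraMap ℂ L c ≠ 0 := (map_ne_zero _).mpr hc
    have hdL : algebraMap ℂ L d ≠ 0 := (map_ne_zero _).mpr hd
    have ham' : a' + m' ≠ 0 := by
      intro h
      rw [h, map_zero] at hva'
      exact zero_ne_one hva'
    have hfx : f = algebraMap ℂ L (c / d) * ((a + m) / (a' + m')) := by
      rw [hst, hs', ht', map_div₀]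
      field_simp
    have hx : c / d ∈ R := by
      by_contra hx
      apply hnin _ hx
      rw [hfx, map_mul, map_div₀ V.valuation, hva, hva', div_one, mul_one] at hf
      exact hf
    set x : R := ⟨c / d, hx⟩ with hxdef
    refine ⟨⟨algebraMap ℂ L (φ x : ℂ) * a / a', L₀.div_mem (L₀.mul_mem (hQ' _) ha) ha'⟩, ?_⟩
    have h2 : f - algebraMap ℂ L (φ x : ℂ) * a / a' =
        ((algebraMap ℂ L x - algebraMap ℂ L (φ x : ℂ)) * (a * a') +
          (algebraMap ℂ L x * (m * a') - (algebraMap ℂ L (φ x : ℂ) * a) * m')) /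
          (a' * (a' + m')) := by
      rw [hfx]
      show algebraMap ℂ L (c / d) * ((a + m) / (a' + m')) - algebraMap ℂ L (φ x : ℂ) * a / a' =
        ((algebraMap ℂ L (c / d) - algebraMap ℂ L (φ x : ℂ)) * (a * a') +
          (algebraMap ℂ L (c / d) * (m * a') - (algebraMap ℂ L (φ x : ℂ) * a) * m')) /
          (a' * (a' + m'))
      field_simp
      ring
    show V.valuation (f - algebraMap ℂ L (φ x : ℂ) * a / a') < 1
    rw [h2, map_div₀, map_mul V.valuation a', hva', hone a' ha' ha0', mul_one, div_one]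
    apply Valuation.map_add_lt
    · rw [map_mul]
      exact mul_lt_one_of_lt_of_le (hle x) (hV1 _ (L₀.mul_mem ha ha'))
    · apply Valuation.map_sub_lt
      · rw [map_mul, map_mul, mul_comm]
        refine mul_lt_one_of_lt_of_le (mul_lt_one_of_lt_of_le (hV2 m hm) (hV1 _ ha')) ?_
        exact hin _ x.2
      · rw [map_mul, mul_comm]
        exact mul_lt_one_of_lt_of_le (hV2 _ hm') (hV1 _ (L₀.mul_mem (hQ' _) ha))
  have huniq : ∀ (f : L) (a a' : L₀), V.valuation (f - a) < 1 → V.valuation (f - a') < 1 →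
      a = a' := by
    intro f a a' h h'
    by_contra hne
    have h1 : (a : L) - a' ≠ 0 := fun h2 => hne (Subtype.ext (sub_eq_zero.mp h2))
    have h2 := hone ((a : L) - a') (L₀.sub_mem a.2 a'.2) h1
    have h3 : (a : L) - a' = (f - a') - (f - a) := by ring
    have h4 : V.valuation ((a : L) - a') < 1 := by
      rw [h3]
      exact Valuation.map_sub_lt _ h' h
    rw [h2] at h4
    exact lt_irrefl _ h4
  have hVm : ∀ z : L, z ∈ V ↔ V.valuation z ≤ 1 := fun z => (V.valuation_le_one_iff z).symm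
  have hex' : ∀ f : V, ∃ a : L₀, V.valuation ((f : L) - a) < 1 := fun f => hex f ((hVm _).mp f.2)
  choose ψ hψ using hex'
  have hψ' : ∀ (f : V) (a : L₀), V.valuation ((f : L) - a) < 1 → ψ f = a :=
    fun f a h => huniq f _ _ (hψ f) h
  have hself : ∀ a : L, V.valuation (a - a) < 1 := by
    intro a
    rw [sub_self, map_zero]
    exact zero_lt_one
  refine ⟨V, { toFun := ψ, map_one' := hψ' 1 1 (hself _), map_zero' := hψ' 0 0 (hself _),
               map_add' := ?_, map_mul' := ?_ }, ?_, ?_, ?_, ?_⟩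
  · intro f g
    apply hψ'
    have h1 : ((f * g : V) : L) - ((ψ f * ψ g : L₀) : L) =
        ((f : L) - ψ f) * g + ((g : L) - ψ g) * ψ f := by
      push_cast
      ring
    rw [h1]
    apply Valuation.map_add_lt
    · rw [map_mul]
      exact mul_lt_one_of_lt_of_le (hψ f) ((hVm _).mp g.2)
    · rw [map_mul]
      exact mul_lt_one_of_lt_of_le (hψ g) (hV1 _ (ψ f).2)
  · intro f g
    apply hψ'
    have h1 : ((f + g : V) : L) - ((ψ f + ψ g : L₀) : L) =
        ((f : L) - ψ f) + ((g : L) - ψ g) := by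
      push_cast
      ring
    rw [h1]
    exact Valuation.map_add_lt _ (hψ f) (hψ g)
  · intro r
    rw [hVm]
    constructor
    · exact hin r
    · intro h
      by_contra hr
      exact hnin r hr h
  · intro a ha
    rw [hVm]
    exact hV1 a ha
  · intro a h
    exact hψ' _ _ (hself _)
  · intro r h
    have h1 : ψ ⟨algebraMap ℂ L r, h⟩ = ⟨algebraMap ℂ L (φ r : ℂ), hQ' _⟩ := hψ' _ _ (hle r)
    show ((ψ ⟨algebraMap ℂ L r, h⟩ : L₀) : L) = _
    rw [h1]

end Pool.Agent.Arith
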