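import Pool.Agent.Lib.MP_c0402d_ag.HE2
import Pool.Agent.Lib.MP_c0402d_ag.HD

/-!
# JOB HF: descent to `ℚbar`; the family is not constant

Make `L₀` an algebra over `Qb`. `gauss_extension` gives `ρ : Red ℂ L Qb L₀`; `classification` applies to
`ω = c (a db)`, `a, b ∈ L₀` (so `ψ a = a`, `ψ b = b`; `b` is transcendental because `ω ≠ 0`). In all
cases `L = ℂ L₀` is generated over `ℂ` by the same elements, transcendental elements of `L₀` over
`ℚbar` are transcendental over `ℂ` (linear disjointness), and the formula for `a db` in `Ω[L₀⁄ℚbar]`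
maps to `Ω[L⁄ℂ]`. As `ω` has type `(2, 2, 1, 1)` only the third case with `f(φ t) ≠ 0` is possible.
-/

set_option autoImplicit false

namespace Pool.Agent.Arith

open KaehlerDifferential Polynomial

section
variable {L l : Type} [Field L] [Algebra ℂ L] [Field l] [Algebra Qb l] [Algebra l L]
  [IsScalarTower Qb l L]

private theorem map_diff {a b x g : l} {c' : Qb} (h : a • D Qb l b = c' • (g • D Qb l x)) :
    algebraMap l L a • D ℂ L (algebraMap l L b) =
      (c' : ℂ) • (algebraMap l L g • D ℂ L (algebraMap l L x)) := by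
  have h1 := congrArg (KaehlerDifferential.map Qb ℂ l L) h
  rw [← algebraMap_smul l c', map_smul, map_smul, map_smul, map_D, map_D] at h1
  rw [← algebraMap_smul L a, ← algebraMap_smul L (algebraMap Qb l c'), ← algebraMap_smul L g] at h1
  rw [h1, ← IsScalarTower.algebraMap_apply Qb l L, ← algebraMap_smul L (c' : ℂ)]
  rfl

omit [IsScalarTower Qb l L] in
private theorem ld_trans
    (hlin : ∀ (n : ℕ) (b : Fin n → l), LinearIndependent Qb b →
      LinearIndependent ℂ (fun i => algebraMap l L (b i))) {x : l} (hx : Transcendental Qb x) :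
    Transcendental ℂ (algebraMap l L x) := by
  rw [transcendental_iff] at hx ⊢
  intro p hp
  have h1 : LinearIndependent Qb (fun i : Fin (p.natDegree + 1) => x ^ (i : ℕ)) := by
    rw [Fintype.linearIndependent_iff]
    intro g hg i
    have h2 : (∑ i : Fin (p.natDegree + 1), C (g i) * X ^ (i : ℕ) : Qb[X]) = 0 := by
      apply hx
      rw [map_sum, ← hg]
      refine Finset.sum_congr rfl fun i _ => ?_
      rw [map_mul, aeval_C, map_pow, aeval_X, Algebra.smul_def]
    have h3 := congrArg (fun q : Qb[X] => q.coeff i) h2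
    simp only [finsetSum_coeff, coeff_C_mul, coeff_X_pow, coeff_zero] at h3
    rw [Finset.sum_eq_single i] at h3
    · simpa using h3
    · intro j _ hj
      rw [if_neg, mul_zero]
      exact fun h => hj (Fin.ext h.symm)
    · intro h
      exact absurd (Finset.mem_univ _) h
  have h2 := hlin _ _ h1
  rw [Fintype.linearIndependent_iff] at h2
  have h3 := h2 (fun i => p.coeff i) (by
    rw [aeval_eq_sum_range, Finset.sum_range] at hp
    rw [← hp]
    refine Finset.sum_congr rfl fun i _ => ?_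
    rw [map_pow])
  ext m
  rw [coeff_zero]
  by_cases hm : m < p.natDegree + 1
  · exact h3 ⟨m, hm⟩
  · exact coeff_eq_zero_of_natDegree_lt (by omega)

private theorem adjoin_top (hgen : IntermediateField.adjoin ℂ (Set.range (algebraMap l L)) = ⊤)
    {s : Set l} (hs : IntermediateField.adjoin Qb s = ⊤) :
    IntermediateField.adjoin ℂ (algebraMap l L '' s) = ⊤ := by
  rw [eq_top_iff, ← hgen, IntermediateField.adjoin_le_iff]
  rintro _ ⟨x, rfl⟩
  have h1 : IntermediateField.adjoin Qb s ≤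
      ((IntermediateField.adjoin ℂ (algebraMap l L '' s)).restrictScalars Qb).comap
        (IsScalarTower.toAlgHom Qb l L) := by
    rw [IntermediateField.adjoin_le_iff]
    intro y hy
    exact IntermediateField.subset_adjoin ℂ _ ⟨y, hy, rfl⟩
  rw [hs] at h1
  exact h1 (IntermediateField.mem_top : x ∈ _)

private theorem trans_of_D {b : L} (h : D ℂ L b ≠ 0) : Transcendental ℂ b := by
  intro hb
  obtain ⟨c, rfl⟩ := minpoly.mem_range_of_degree_eq_one ℂ b
    (IsAlgClosed.degree_eq_one_of_irreducible ℂ (minpoly.irreducible hb.isIntegral))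
  exact h (Derivation.map_algebraMap _ _)

private theorem fR_map {A B : Type} [CommRing A] [CommRing B] (f : A →+* B) :
    (fR A).map f = fR B := by
  simp [fR, Polynomial.map_ofNat]

private theorem aeval_fR (x : l) : algebraMap l L (aeval x (fR Qb)) =
    aeval (algebraMap l L x) (fR ℂ) := by
  rw [← aeval_algebraMap_apply, ← fR_map (algebraMap Qb ℂ), aeval_map_algebraMap]

private theorem descent_aux
    (hlin : ∀ (n : ℕ) (b : Fin n → l), LinearIndependent Qb b →
      LinearIndependent ℂ (fun i => algebraMap l L (b i)))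
    (hgen : IntermediateField.adjoin ℂ (Set.range (algebraMap l L)) = ⊤)
    (R : ValuationSubring ℂ) (φ : R →+* Qb) (hR : ∀ a : Qb, (a : ℂ) ∈ R)
    (hφ : ∀ (a : Qb) (h : (a : ℂ) ∈ R), φ ⟨a, h⟩ = a)
    (O : ValuationSubring L) (ψ : O →+* l) (hOR : ∀ r : ℂ, r ∈ R ↔ algebraMap ℂ L r ∈ O)
    (hO : ∀ a : l, algebraMap l L a ∈ O)
    (hψ : ∀ (a : l) (h : algebraMap l L a ∈ O), ψ ⟨algebraMap l L a, h⟩ = a)
    (hψ' : ∀ (r : R) (h : algebraMap ℂ L r ∈ O), ψ ⟨algebraMap ℂ L r, h⟩ = algebraMap Qb l (φ r))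
    {t : ℂ} {ω : Ω[L⁄ℂ]} (hm : Fam.Member t ω) (c₁ : ℂ) (a b : l) (hc₁ : c₁ ≠ 0)
    (hω : ω = c₁ • (algebraMap l L a • D ℂ L (algebraMap l L b))) :
    ∃ h : t ∈ R, Fam.Member ((φ ⟨t, h⟩ : Qb) : ℂ) ω := by
  obtain ⟨ht, C, c, hCF, hc, hωC⟩ := (member_iff t ω).1 hm
  have hch : CharZero L := charZero_of_injective_algebraMap (algebraMap ℂ L).injective
  have htr : Algebra.trdeg ℂ L = 1 := C.trdeg
  have hty : HasType ω {2, 2, 1, 1} := member_hasType hm
  let ρ : Red ℂ L Qb l :=
    { R := R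
      O := O
      φ := φ
      ψ := ψ
      φ_surj := fun q => ⟨⟨q, hR q⟩, hφ q (hR q)⟩
      ψ_surj := fun q => ⟨⟨algebraMap l L q, hO q⟩, hψ q (hO q)⟩
      mem := hOR
      compat := hψ' }
  have hω0 : ω ≠ 0 := by
    rw [hωC]
    refine smul_ne_zero hc (smul_ne_zero ?_ (D_ne_zero htr C.trans))
    refine div_ne_zero (mul_ne_zero two_ne_zero ?_) C.y_ne_zero
    rintro h
    exact C.trans (h ▸ isAlgebraic_zero)
  have hb0 : D ℂ L (algebraMap l L b) ≠ 0 := by
    intro h
    rw [h, smul_zero, smul_zero] at hω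
    exact hω0 hω
  have ha0 : a ≠ 0 := by
    rintro rfl
    rw [map_zero, zero_smul, smul_zero] at hω
    exact hω0 hω
  have hbt : Transcendental Qb b := by
    intro h
    refine trans_of_D hb0 ?_
    have h1 : IsAlgebraic Qb (algebraMap l L b) := h.algebraMap
    exact h1.extendScalars (algebraMap Qb ℂ).injective
  have e1 : (⟨algebraMap l L a, hO a⟩ : O) = ⟨algebraMap l L a, hO a⟩ := rfl
  have key := classification ρ ht C hCF ⟨algebraMap l L a, hO a⟩ ⟨algebraMap l L b, hO b⟩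
    (by show ψ _ ≠ 0; rw [hψ]; exact ha0) (by show Transcendental Qb (ψ _); rw [hψ]; exact hbt)
    (c₁ / c) (div_ne_zero hc₁ hc) (by
      show _ = (c₁ / c) • (algebraMap l L a • D ℂ L (algebraMap l L b))
      rw [show c₁ / c = c⁻¹ * c₁ from div_eq_inv_mul _ _, mul_smul, ← hω, hωC, smul_smul, inv_mul_cancel₀ hc, one_smul])
  have ea : ρ.ψ ⟨algebraMap l L a, hO a⟩ = a := hψ a _
  have eb : ρ.ψ ⟨algebraMap l L b, hO b⟩ = b := hψ b _
  rw [ea, eb] at key
  have hcast : ∀ c' : Qb, c' ≠ 0 → c₁ * (c' : ℂ) ≠ 0 := by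
    intro c' h
    refine mul_ne_zero hc₁ ?_
    intro h1
    exact h (Subtype.ext h1)
  rcases key with ⟨r, c', j, hr, hc', h⟩ | ⟨x, y, c', hc', hx, hy, hxy, h⟩ |
    ⟨ht', v, y, c', hc', hv, hy, hvy, h⟩
  · exfalso
    rw [map_diff h, smul_smul] at hω
    rw [hω, map_inv₀, map_pow] at hty
    exact not_hasType_pole htr (ld_trans hlin hr) (hcast c' hc') j _ hty
  · exfalso
    rw [map_diff h, smul_smul, map_inv₀] at hω
    rw [hω] at hty
    refine not_hasType_genus_two (hcast c' hc') (ld_trans hlin hx) (y := algebraMap l L y) ?_ ?_ hty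
    · rw [← map_pow, hy, aeval_fR]
    · have := adjoin_top hgen hxy
      rwa [Set.image_pair] at this
  · have hω' := hω
    rw [map_diff h, smul_smul, map_div₀, map_mul, map_ofNat] at hω'
    have hy' : algebraMap l L y ^ 2 = aeval (algebraMap l L v ^ 2 +
        algebraMap ℂ L ((φ ⟨t, ht'⟩ : Qb) : ℂ)) (fR ℂ) := by
      rw [← map_pow, hy, aeval_fR, map_add, map_pow, ← IsScalarTower.algebraMap_apply Qb l L]
      rfl
    have hgen' : IntermediateField.adjoin ℂ {algebraMap l L v, algebraMap l L y} = ⊤ := by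
      have := adjoin_top hgen hvy
      rwa [Set.image_pair] at this
    refine ⟨ht', ?_⟩
    by_cases hz : (fR ℂ).eval ((φ ⟨t, ht'⟩ : Qb) : ℂ) = 0
    · exfalso
      rw [hω'] at hty
      exact not_hasType_genus_three (hcast c' hc') (ld_trans hlin hv) hz hy' hgen' hty
    · rw [member_iff]
      refine ⟨hz, ⟨algebraMap l L v, algebraMap l L y, Ft _, ?_, ld_trans hlin hv, hgen',
        Ft_separable hz, ?_⟩, c₁ * c', rfl, hcast c' hc', hω'⟩
      · rw [hy', Ft, aeval_comp]
        simp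
      · rw [Ft_natDegree]
        norm_num

end

theorem descent {L : Type} [Field L] [Algebra ℂ L] {t : ℂ} {ω : Ω[L⁄ℂ]} (hm : Fam.Member t ω)
    (hd : DefinedOverQbar ω) (R : ValuationSubring ℂ) (φ : R →+* Qb)
    (hR : ∀ a : Qb, (a : ℂ) ∈ R) (hφ : ∀ (a : Qb) (h : (a : ℂ) ∈ R), φ ⟨a, h⟩ = a) :
    ∃ h : t ∈ R, Fam.Member ((φ ⟨t, h⟩ : Qb) : ℂ) ω := by
  obtain ⟨L₀, hQ, hlin, hgen, c₁, a, b, hc₁, ha, hb, hω⟩ := hd
  obtain ⟨O, ψ, hOR, hO, hψ, hψ'⟩ := gauss_extension L₀ hQ hlin hgen R φ hR hφ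
  have hQ' : ∀ q : Qb, algebraMap Qb L q ∈ L₀ := fun q =>
    hQ q ((mem_algebraicClosure_iff).1 q.2)
  let alg : Algebra Qb L₀ := ((algebraMap Qb L).codRestrict L₀ hQ').toAlgebra
  have tow : IsScalarTower Qb L₀ L := IsScalarTower.of_algebraMap_eq fun q => rfl
  refine descent_aux (l := L₀) ?_ ?_ R φ hR hφ O ψ hOR (fun a => hO _ a.2) (fun a h => hψ a h) ?_
    hm c₁ ⟨a, ha⟩ ⟨b, hb⟩ hc₁ hω
  · intro n b hb
    refine hlin n (fun i => (b i : L)) (fun i => (b i).2) ?_
    intro q hq h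
    rw [Fintype.linearIndependent_iff] at hb
    have h1 := hb (fun i => ⟨q i, mem_algebraicClosure_iff.2 (hq i)⟩) (by
      apply Subtype.ext
      rw [AddSubmonoidClass.coe_finsetSum]
      refine Eq.trans ?_ h
      refine Finset.sum_congr rfl fun i _ => ?_
      rw [Algebra.smul_def, Algebra.smul_def]
      rfl)
    funext i
    exact congrArg Subtype.val (h1 i)
  · rw [show Set.range (algebraMap L₀ L) = (L₀ : Set L) from Subtype.range_coe]
    exact hgen
  · intro r h
    exact Subtype.ext (hψ' r h)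

private theorem diff_transport {L L' : Type} [Field L] [Algebra ℂ L] [Field L'] [Algebra ℂ L']
    (e : L ≃ₐ[ℂ] L') {a b a₁ b₁ : L} {c : ℂ} (h : a • D ℂ L b = c • (a₁ • D ℂ L b₁)) :
    e a • D ℂ L' (e b) = c • (e a₁ • D ℂ L' (e b₁)) := by
  let alg : Algebra L L' := (e : L →+* L').toAlgebra
  have tow : IsScalarTower ℂ L L' := IsScalarTower.of_algebraMap_eq fun x => (e.commutes x).symm
  have h1 := congrArg (KaehlerDifferential.map ℂ ℂ L L') h
  rw [← algebraMap_smul L c, map_smul, map_smul, map_smul, map_D, map_D] at h1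
  rw [← algebraMap_smul L' a, ← algebraMap_smul L' (algebraMap ℂ L c),
    ← algebraMap_smul L' a₁] at h1
  rw [← IsScalarTower.algebraMap_apply ℂ L L', algebraMap_smul L' c] at h1
  exact h1

theorem definedOverQbar_of_samePoint {L L' : Type} [Field L] [Algebra ℂ L] [Field L']
    [Algebra ℂ L'] {ω : Ω[L⁄ℂ]} {ω' : Ω[L'⁄ℂ]} (h : SamePoint ω ω') (hd : DefinedOverQbar ω) :
    DefinedOverQbar ω' := by
  obtain ⟨e, c, a, b, hc, hω, hω'⟩ := h
  obtain ⟨L₀, hQ, hlin, hgen, c₁, a₁, b₁, hc₁, ha₁, hb₁, hω₁⟩ := hd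
  refine ⟨L₀.map (e : L →+* L'), ?_, ?_, ?_, c * c₁, e a₁, e b₁, mul_ne_zero hc hc₁,
    ⟨a₁, ha₁, rfl⟩, ⟨b₁, hb₁, rfl⟩, ?_⟩
  · intro q hq
    exact ⟨algebraMap ℂ L q, hQ q hq, e.commutes q⟩
  · intro n b hb hq
    choose b' hb' hb'' using hb
    have h1 : LinearIndependent ℂ b' := by
      refine hlin n b' hb' fun q hq1 hq2 => hq q hq1 ?_
      have h2 := congrArg e hq2
      rw [map_sum, map_zero] at h2
      rw [← h2]
      refine Finset.sum_congr rfl fun i _ => ?_
      rw [map_smul, ← hb'' i]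
      rfl
    have h2 := h1.map' e.toLinearMap (LinearMap.ker_eq_bot.2 e.injective)
    have h3 : b = e.toLinearMap ∘ b' := by
      funext i
      exact (hb'' i).symm
    rw [h3]
    exact h2
  · have h1 : ((L₀.map (e : L →+* L') : Subfield L') : Set L') = (e : L →ₐ[ℂ] L') '' (L₀ : Set L) :=
      rfl
    rw [h1, ← IntermediateField.adjoin_map, hgen, ← AlgHom.fieldRange_eq_map]
    rw [eq_top_iff]
    intro x _
    exact ⟨e.symm x, e.apply_symm_apply x⟩
  · rw [hω', diff_transport e (hω.symm.trans hω₁), mul_smul]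

private theorem sq_lemma {K : Type} [Field K] {F P Q : K[X]} (hs : F.Separable)
    (hp : F.natDegree ≠ 0) (h : P ^ 2 = Q ^ 2 * F) : P = 0 ∧ Q = 0 := by
  by_cases hQ : Q = 0
  · rw [hQ] at h
    refine ⟨?_, hQ⟩
    have : P ^ 2 = 0 := by rw [h]; ring
    exact pow_eq_zero_iff (two_ne_zero) |>.1 this
  exfalso
  have h1 : Q ∣ P := (IsIntegrallyClosed.pow_dvd_pow_iff (two_ne_zero)).1 ⟨F, h⟩
  obtain ⟨S, rfl⟩ := h1
  have h2 : S * S = F := by
    have h3 : Q ^ 2 * (S * S) = Q ^ 2 * F := by rw [← h]; ring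
    exact mul_left_cancel₀ (pow_ne_zero 2 hQ) h3
  have h3 : IsUnit S := hs.squarefree S ⟨1, by rw [h2, mul_one]⟩
  have h4 : IsUnit F := h2 ▸ h3.mul h3
  exact hp (natDegree_eq_zero_of_isUnit h4)

private theorem zero_lemma {K L : Type} [Field K] [Field L] [Algebra K L] {v y : L} {F P Q : K[X]}
    (hs : F.Separable) (hp : F.natDegree ≠ 0) (hv : Transcendental K v) (hy : y ^ 2 = aeval v F)
    (h : aeval v P + aeval v Q * y = 0) : P = 0 ∧ Q = 0 := by
  refine sq_lemma hs hp ?_
  rw [← sub_eq_zero]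
  apply transcendental_iff.1 hv
  rw [map_sub, map_mul, map_pow, map_pow, ← hy]
  have h1 : aeval v P = -(aeval v Q * y) := eq_neg_of_add_eq_zero_left h
  rw [h1]
  ring

private theorem quot_lemma {K L : Type} [Field K] [Field L] [Algebra K L] {v y : L} {F : K[X]}
    (hs : F.Separable) (hp : F.natDegree ≠ 0) (hv : Transcendental K v) (hy : y ^ 2 = aeval v F)
    {z : L} (hz : z ∈ IntermediateField.adjoin K {v, y}) :
    ∃ P Q R : K[X], R ≠ 0 ∧ z * aeval v R = aeval v P + aeval v Q * y := by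
  induction hz using IntermediateField.adjoin_induction with
  | mem x hx =>
    rcases hx with rfl | rfl
    · exact ⟨X, 0, 1, one_ne_zero, by simp⟩
    · exact ⟨0, 1, 1, one_ne_zero, by simp⟩
  | algebraMap x => exact ⟨C x, 0, 1, one_ne_zero, by simp⟩
  | add x y hx hy ihx ihy =>
    obtain ⟨P, Q, R, hR, h⟩ := ihx
    obtain ⟨P', Q', R', hR', h'⟩ := ihy
    refine ⟨P * R' + P' * R, Q * R' + Q' * R, R * R', mul_ne_zero hR hR', ?_⟩
    simp only [map_add, map_mul]
    linear_combination aeval v R' * h + aeval v R * h'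
  | inv x hx ih =>
    obtain ⟨P, Q, R, hR, h⟩ := ih
    by_cases hx0 : x = 0
    · exact ⟨0, 0, 1, one_ne_zero, by simp [hx0]⟩
    refine ⟨R * P, - (R * Q), P ^ 2 - Q ^ 2 * F, ?_, ?_⟩
    · intro h0
      obtain ⟨h1, h2⟩ := sq_lemma hs hp (sub_eq_zero.1 h0)
      rw [h1, h2, map_zero, zero_mul, add_zero] at h
      rcases mul_eq_zero.1 h with h3 | h3
      · exact hx0 h3
      · exact hR (transcendental_iff.1 hv R h3)
    · simp only [map_sub, map_mul, map_pow, map_neg, ← hy]
      have h1 : (aeval v P) ^ 2 - (aeval v Q) ^ 2 * y ^ 2 =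
          (x * aeval v R) * (aeval v P - aeval v Q * y) := by rw [h]; ring
      rw [h1]
      field_simp
      ring
  | mul x x' hx hx' ihx ihy =>
    obtain ⟨P, Q, R, hR, h⟩ := ihx
    obtain ⟨P', Q', R', hR', h'⟩ := ihy
    refine ⟨P * P' + Q * Q' * F, P * Q' + Q * P', R * R', mul_ne_zero hR hR', ?_⟩
    simp only [map_add, map_mul, ← hy]
    have h1 : x * x' * (aeval v R * aeval v R') = (x * aeval v R) * (x' * aeval v R') := by ring
    rw [h1, h, h']
    ring

private theorem Ft_map (t : Qb) : (Ft t).map (algebraMap Qb ℂ) = Ft (t : ℂ) := by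
  rw [Ft, Ft, Polynomial.map_comp, fR_map]
  simp

/-- The member at an algebraic parameter is defined over `ℚbar` (take `L₀ = ℚbar(v, y)`). -/
theorem definedOverQbar_of_algebraic {L : Type} [Field L] [Algebra ℂ L] {t : ℂ} {ω : Ω[L⁄ℂ]}
    (hm : Fam.Member t ω) (ht : IsAlgebraic ℚ t) : DefinedOverQbar ω := by
  obtain ⟨ht0, C, c, hCF, hc, hωC⟩ := (member_iff t ω).1 hm
  obtain ⟨τ, rfl⟩ : ∃ τ : Qb, (τ : ℂ) = t := ⟨⟨t, mem_algebraicClosure_iff.2 ht⟩, rfl⟩
  have hCF' : C.F = (Ft τ).map (algebraMap Qb ℂ) := by rw [hCF, Ft_map]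
  have hs : (Ft τ).Separable := by
    have h1 := C.sep
    rw [hCF', separable_map] at h1
    exact h1
  have hp : (Ft τ).natDegree ≠ 0 := by
    rw [Ft_natDegree]
    norm_num
  have hvQ : Transcendental Qb C.v := by
    intro h
    exact C.trans (h.extendScalars (algebraMap Qb ℂ).injective)
  have hy : C.y ^ 2 = aeval C.v (Ft τ) := by
    rw [C.eq, hCF', aeval_map_algebraMap]
  refine ⟨(IntermediateField.adjoin Qb {C.v, C.y}).toSubfield, ?_, ?_, ?_, c, 2 * C.v / C.y, C.v,
    hc, ?_, ?_, hωC⟩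
  · intro a ha
    exact IntermediateField.algebraMap_mem (IntermediateField.adjoin Qb {C.v, C.y})
      (⟨a, mem_algebraicClosure_iff.2 ha⟩ : Qb)
  · intro n b hb hq
    have hb1 : ∀ i, ∃ P Q R : Qb[X], R ≠ 0 ∧ b i * aeval C.v R = aeval C.v P + aeval C.v Q * C.y :=
      fun i => quot_lemma hs hp hvQ hy (hb i)
    choose P Q R hR hPQ using hb1
    obtain ⟨T, hT⟩ : ∃ T : Qb[X], T = ∏ j, R j := ⟨_, rfl⟩
    have hT0 : T ≠ 0 := by
      rw [hT]
      exact Finset.prod_ne_zero_iff.2 fun j _ => hR j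
    have hTv : aeval C.v T ≠ 0 := fun h => hT0 (transcendental_iff.1 hvQ T h)
    have hb2 : ∀ i, ∃ P' Q' : Qb[X], b i * aeval C.v T = aeval C.v P' + aeval C.v Q' * C.y := by
      intro i
      refine ⟨P i * ∏ j ∈ Finset.univ.erase i, R j, Q i * ∏ j ∈ Finset.univ.erase i, R j, ?_⟩
      rw [hT, ← Finset.mul_prod_erase Finset.univ R (Finset.mem_univ i), map_mul, map_mul, map_mul]
      linear_combination (aeval C.v (∏ j ∈ Finset.univ.erase i, R j)) * hPQ i
    choose P' Q' hPQ' using hb2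
    rw [Fintype.linearIndependent_iff]
    intro g hg
    -- the two polynomials with complex coefficients vanish
    have h1 : aeval C.v (∑ i, Polynomial.C (g i) * (P' i).map (algebraMap Qb ℂ)) +
        aeval C.v (∑ i, Polynomial.C (g i) * (Q' i).map (algebraMap Qb ℂ)) * C.y = 0 := by
      have h2 : (∑ i, g i • b i) * aeval C.v T = 0 := by rw [hg, zero_mul]
      rw [Finset.sum_mul] at h2
      rw [← h2, map_sum, map_sum, Finset.sum_mul, ← Finset.sum_add_distrib]
      refine Finset.sum_congr rfl fun i _ => ?_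
      rw [map_mul, map_mul, aeval_C, aeval_map_algebraMap, aeval_map_algebraMap, smul_mul_assoc,
        hPQ' i, Algebra.smul_def]
      ring
    obtain ⟨hPz, hQz⟩ := zero_lemma C.sep C.pos C.trans C.eq h1
    intro i
    rw [← Module.forall_dual_apply_eq_zero_iff Qb]
    intro lam
    have hlam : ∀ (x : Qb) (z : ℂ), lam (z * (x : ℂ)) = lam z * x := by
      intro x z
      have : z * (x : ℂ) = x • z := by rw [mul_comm]; rfl
      rw [this, map_smul, smul_eq_mul, mul_comm]
    have hcoef : ∀ S : Fin n → Qb[X], ∑ i, Polynomial.C (g i) * (S i).map (algebraMap Qb ℂ) = 0 →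
        ∑ i, Polynomial.C (lam (g i)) * S i = 0 := by
      intro S hS
      ext m
      have h3 := congrArg (fun q : ℂ[X] => lam (q.coeff m)) hS
      simp only [finsetSum_coeff, coeff_C_mul, coeff_map, coeff_zero, map_sum, map_zero] at h3
      rw [finsetSum_coeff, coeff_zero]
      rw [← h3]
      congr 1
      refine Finset.sum_congr rfl fun i _ => ?_
      rw [coeff_C_mul]
      exact (hlam _ _).symm
    have h4 := hcoef P' hPz
    have h5 := hcoef Q' hQz
    have h6 : ∑ i, ((lam (g i) : Qb) : ℂ) • b i = 0 := by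
      have h7 : (∑ i, ((lam (g i) : Qb) : ℂ) • b i) * aeval C.v T =
          aeval C.v (∑ i, Polynomial.C (lam (g i)) * P' i) +
            aeval C.v (∑ i, Polynomial.C (lam (g i)) * Q' i) * C.y := by
        rw [Finset.sum_mul, map_sum, map_sum, Finset.sum_mul, ← Finset.sum_add_distrib]
        refine Finset.sum_congr rfl fun i _ => ?_
        rw [map_mul, map_mul, aeval_C, smul_mul_assoc, hPQ' i, Algebra.smul_def]
        have : algebraMap Qb L (lam (g i)) = algebraMap ℂ L ((lam (g i) : Qb) : ℂ) := rfl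
        rw [this]
        ring
      rw [h4, h5, map_zero, zero_mul, add_zero] at h7
      exact (mul_eq_zero.1 h7).resolve_right hTv
    have h8 := hq (fun i => ((lam (g i) : Qb) : ℂ)) (fun i => mem_algebraicClosure_iff.1 (lam (g i)).2)
      h6
    exact Subtype.ext (congrFun h8 i)
  · rw [eq_top_iff, ← C.gen, IntermediateField.adjoin_le_iff]
    rintro x hx
    exact IntermediateField.subset_adjoin ℂ _ (IntermediateField.subset_adjoin Qb _ hx)
  · have h1 : C.v ∈ IntermediateField.adjoin Qb {C.v, C.y} :=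
      IntermediateField.subset_adjoin Qb _ (by simp)
    have h2 : C.y ∈ IntermediateField.adjoin Qb {C.v, C.y} :=
      IntermediateField.subset_adjoin Qb _ (by simp)
    have h3 : (2 : L) ∈ IntermediateField.adjoin Qb {C.v, C.y} := ofNat_mem _ 2
    exact div_mem (mul_mem h3 h1) h2
  · exact IntermediateField.subset_adjoin Qb _ (by simp)

/-- Take `t = 0` and `t' = -1/2 + s` with `s ≠ 0`, `φ s = 0`. If the two members were the same
point, then the second would be defined over `ℚbar`, and by `descent` it would be a member with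
parameter `φ t' = -1/2`, which is excluded. -/
theorem nonconstant : ∃ (L L' : Type) (_ : Field L) (_ : Field L') (_ : Algebra ℂ L)
    (_ : Algebra ℂ L') (t t' : ℂ) (ω : Ω[L⁄ℂ]) (ω' : Ω[L'⁄ℂ]), Fam.Member t ω ∧
    Fam.Member t' ω' ∧ ¬ SamePoint ω ω' := by
  obtain ⟨R, φ, hR, hφ, s, hs, hφs⟩ := exists_place_complex
  have h0 : (fR ℂ).eval 0 ≠ 0 := by
    rw [fR_eval_zero]
    norm_num
  have hhalf : ((-1 / 2 : Qb) : ℂ) = -1 / 2 := by
    push_cast
    rfl
  have ht' : (fR ℂ).eval (-1 / 2 + (s : ℂ)) ≠ 0 := by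
    intro h
    have h1 : IsAlgebraic ℚ (-1 / 2 + (s : ℂ)) := by
      refine ⟨fR ℚ, ?_, ?_⟩
      · intro h2
        have h3 := fR_natDegree (K := ℚ)
        rw [h2, natDegree_zero] at h3
        norm_num at h3
      · rw [← fR_map (algebraMap ℚ ℂ), eval_map_algebraMap] at h
        exact h
    have h2 : (s : ℂ) ∈ algebraicClosure ℚ ℂ := by
      have h3 : (-1 / 2 + (s : ℂ)) ∈ algebraicClosure ℚ ℂ := mem_algebraicClosure_iff.2 h1
      have h4 := sub_mem h3 (-1 / 2 : Qb).2
      rwa [hhalf, add_sub_cancel_left] at h4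
    have h3 := hφ ⟨s, h2⟩ s.2
    have h4 : (⟨((⟨s, h2⟩ : Qb) : ℂ), s.2⟩ : R) = s := rfl
    rw [h4, hφs] at h3
    exact hs (congrArg Subtype.val h3).symm
  obtain ⟨L, iL, aL, ω, hω⟩ := member_exists ℂ ((bad_iff (K := ℂ) 0).2 h0)
  obtain ⟨L', iL', aL', ω', hω'⟩ := member_exists ℂ ((bad_iff (K := ℂ) (-1 / 2 + (s : ℂ))).2 ht')
  refine ⟨L, L', iL, iL', aL, aL', 0, -1 / 2 + (s : ℂ), ω, ω', hω, hω', ?_⟩
  intro hsame
  have hd := definedOverQbar_of_samePoint hsame
    (definedOverQbar_of_algebraic hω isAlgebraic_zero)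
  obtain ⟨hR', hm⟩ := descent hω' hd R φ hR hφ
  have h1 : φ ⟨-1 / 2 + (s : ℂ), hR'⟩ = (-1 / 2 : Qb) := by
    have h2 : (⟨-1 / 2 + (s : ℂ), hR'⟩ : R) = ⟨((-1 / 2 : Qb) : ℂ), hR _⟩ + s := Subtype.ext (by
      show (-1 / 2 + s : ℂ) = ((-1 / 2 : Qb) : ℂ) + s
      rw [hhalf])
    rw [h2, map_add, hφs, add_zero, hφ]
  rw [h1, member_iff, hhalf] at hm
  refine hm.1 ?_
  simp only [fR, eval_mul, eval_add, eval_ofNat, eval_X, eval_one]
  norm_num

end Pool.Agent.Arith
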