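import Pool.Agent.Lib.MP_c0402d_ag.FD

/-!
# JOB IA: densities of differentials along arcs

`(val g)'(s) = val(dg/dp) * δ`, where `p` is a local parameter at `γ.pt s` and `δ = (val p)'(s)`:
write `g = g(s) + p g₁` with `g₁` regular (`Place.deriv_mem` shows that `dg/dp` is regular with the
same value as `g₁`).
-/

set_option autoImplicit false

namespace Pool.Agent.Arith

open KaehlerDifferential Set

variable {L : Type} [Field L] [Algebra ℂ L]

private theorem IA_mem_nonunits_add {P : Place ℂ L} {f g : L} (hf : f ∈ P.O.nonunits)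
    (hg : g ∈ P.O.nonunits) : f + g ∈ P.O.nonunits := by
  rw [ValuationSubring.mem_nonunits_iff] at *
  exact Valuation.map_add_lt _ hf hg

private theorem IA_mem_nonunits_mul {P : Place ℂ L} {f g : L} (hf : f ∈ P.O)
    (hg : g ∈ P.O.nonunits) : f * g ∈ P.O.nonunits := by
  rw [ValuationSubring.mem_nonunits_iff] at *
  rw [← ValuationSubring.valuation_le_one_iff] at hf
  rw [map_mul]
  exact mul_lt_one_of_nonneg_of_lt_one_right hf zero_le hg

private theorem IA_nonunits_mem {P : Place ℂ L} {f : L} (hf : f ∈ P.O.nonunits) : f ∈ P.O :=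
  P.O.nonunits_le hf

theorem Place.val_spec (htr : Algebra.trdeg ℂ L = 1) (P : Place ℂ L) {f : L} (hf : f ∈ P.O) :
    f - algebraMap ℂ L (P.val f) ∈ P.O.nonunits := by
  have h := Place.exists_value htr P hf
  unfold Place.val
  rw [dif_pos h]
  exact h.choose_spec
theorem Place.val_eq {P : Place ℂ L} {f : L} {c : ℂ} (h : f - algebraMap ℂ L c ∈ P.O.nonunits) :
    P.val f = c := by
  have h' : ∃ c : ℂ, f - algebraMap ℂ L c ∈ P.O.nonunits := ⟨c, h⟩
  unfold Place.val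
  rw [dif_pos h']
  exact Place.value_unique h'.choose_spec h
theorem Place.val_add (htr : Algebra.trdeg ℂ L = 1) (P : Place ℂ L) {f g : L} (hf : f ∈ P.O)
    (hg : g ∈ P.O) : P.val (f + g) = P.val f + P.val g := by
  apply Place.val_eq
  have h := IA_mem_nonunits_add (P.val_spec htr hf) (P.val_spec htr hg)
  have e : f + g - algebraMap ℂ L (P.val f + P.val g) =
      f - algebraMap ℂ L (P.val f) + (g - algebraMap ℂ L (P.val g)) := by
    rw [map_add]; ring
  rw [e]; exact h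
theorem Place.val_mul (htr : Algebra.trdeg ℂ L = 1) (P : Place ℂ L) {f g : L} (hf : f ∈ P.O)
    (hg : g ∈ P.O) : P.val (f * g) = P.val f * P.val g := by
  apply Place.val_eq
  have h := IA_mem_nonunits_add (IA_mem_nonunits_mul (P.base (P.val g)) (P.val_spec htr hf))
    (IA_mem_nonunits_mul hf (P.val_spec htr hg))
  have e : f * g - algebraMap ℂ L (P.val f * P.val g) =
      algebraMap ℂ L (P.val g) * (f - algebraMap ℂ L (P.val f)) +
        f * (g - algebraMap ℂ L (P.val g)) := by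
    rw [map_mul]; ring
  rw [e]; exact h
theorem Place.val_algebraMap (P : Place ℂ L) (c : ℂ) : P.val (algebraMap ℂ L c) = c := by
  apply Place.val_eq
  rw [sub_self, ValuationSubring.mem_nonunits_iff, map_zero]
  exact zero_lt_one
theorem Place.val_eq_zero (htr : Algebra.trdeg ℂ L = 1) (P : Place ℂ L) {f : L} (hf : f ∈ P.O) :
    P.val f = 0 ↔ f ∈ P.O.nonunits := by
  constructor
  · intro h
    have := P.val_spec htr hf
    rwa [h, map_zero, sub_zero] at this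
  · intro h
    apply Place.val_eq
    rwa [map_zero, sub_zero]

private theorem IA_hasDeriv (γ : Arc L) {s : ℝ} (hs : s ∈ Icc (0 : ℝ) 1) {f : L}
    (hf : f ∈ (γ.pt s).O) :
    HasDerivWithinAt (fun r => (γ.pt r).val f)
      (derivWithin (fun r => (γ.pt r).val f) (Icc 0 1) s) (Icc 0 1) s :=
  ((γ.smooth s hs f hf).differentiableWithinAt (by norm_num)).hasDerivWithinAt

private theorem IA_unique {s : ℝ} (hs : s ∈ Icc (0 : ℝ) 1) : UniqueDiffWithinAt ℝ (Icc (0 : ℝ) 1) s :=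
  uniqueDiffOn_Icc zero_lt_one s hs

/-- the derivative of a regular function along the arc in terms of a local parameter -/
private theorem IA_key (htr : Algebra.trdeg ℂ L = 1) (γ : Arc L) {s : ℝ}
    (hs : s ∈ Icc (0 : ℝ) 1) {p : L} (hp : (γ.pt s).IsParam p) (d : Derivation ℂ L L)
    (hd : d p = 1) {g : L} (hg : g ∈ (γ.pt s).O) :
    derivWithin (fun r => (γ.pt r).val g) (Icc 0 1) s =
      (γ.pt s).val (d g) * derivWithin (fun r => (γ.pt r).val p) (Icc 0 1) s := by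
  set P := γ.pt s with hP
  set c := P.val g with hc
  have hpO : p ∈ P.O := IA_nonunits_mem hp.2.1
  set g₁ := (g - algebraMap ℂ L c) / p with hg₁
  have hg₁O : g₁ ∈ P.O := hp.2.2 _ (P.val_spec htr hg)
  have hgeq : g = algebraMap ℂ L c + p * g₁ := by
    rw [hg₁, mul_div_cancel₀ _ hp.1]; ring
  have hev : (fun r => (γ.pt r).val g) =ᶠ[nhdsWithin s (Icc 0 1)]
      fun r => c + (γ.pt r).val p * (γ.pt r).val g₁ := by
    filter_upwards [γ.regular s hs p hpO, γ.regular s hs g₁ hg₁O] with r h1 h2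
    conv_lhs => rw [hgeq]
    rw [Place.val_add htr _ ((γ.pt r).base c) (mul_mem h1 h2), Place.val_mul htr _ h1 h2,
      Place.val_algebraMap]
  have h1 := IA_hasDeriv γ hs hpO
  have h2 := IA_hasDeriv γ hs hg₁O
  have h3 := (h1.mul h2).const_add c
  have hp0 : P.val p = 0 := (P.val_eq_zero htr hpO).2 hp.2.1
  have h4 : HasDerivWithinAt (fun r => (γ.pt r).val g)
      (derivWithin (fun r => (γ.pt r).val p) (Icc 0 1) s * P.val g₁ +
        P.val p * derivWithin (fun r => (γ.pt r).val g₁) (Icc 0 1) s) (Icc 0 1) s := by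
    refine HasDerivWithinAt.congr_of_eventuallyEq h3 hev ?_
    exact hev.eq_of_nhdsWithin hs
  rw [h4.derivWithin (IA_unique hs), hp0, zero_mul, add_zero, mul_comm]
  congr 1
  have hdg : d g = g₁ + p * d g₁ := by
    conv_lhs => rw [hgeq]
    rw [map_add, Derivation.map_algebraMap, Derivation.leibniz, hd]
    simp only [smul_eq_mul, mul_one, zero_add]
    ring
  have hdg₁ : d g₁ ∈ P.O := Place.deriv_mem htr hp d hd hg₁O
  rw [hdg, Place.val_add htr _ hg₁O (mul_mem hpO hdg₁), Place.val_mul htr _ hpO hdg₁, hp0,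
    zero_mul, add_zero]

/-- `ρ` is the density of `ω` along `γ`. -/
def Arc.Density (γ : Arc L) (ω : Ω[L⁄ℂ]) (ρ : ℝ → ℂ) : Prop :=
  ContinuousOn ρ (Icc 0 1) ∧
    ∀ s ∈ Icc (0 : ℝ) 1, ∃ f ∈ (γ.pt s).O, ∃ g ∈ (γ.pt s).O, ω = f • D ℂ L g ∧
      ρ s = (γ.pt s).val f * derivWithin (fun r => (γ.pt r).val g) (Icc 0 1) s

/-- the value at time `s` does not depend on the representation -/
theorem Arc.density_unique (htr : Algebra.trdeg ℂ L = 1) (γ : Arc L) {s : ℝ}
    (hs : s ∈ Icc (0 : ℝ) 1) (hp : ∃ p, (γ.pt s).IsParam p) {f g f' g' : L}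
    (hf : f ∈ (γ.pt s).O) (hg : g ∈ (γ.pt s).O) (hf' : f' ∈ (γ.pt s).O) (hg' : g' ∈ (γ.pt s).O)
    (h : f • D ℂ L g = f' • D ℂ L g') :
    (γ.pt s).val f * derivWithin (fun r => (γ.pt r).val g) (Icc 0 1) s =
      (γ.pt s).val f' * derivWithin (fun r => (γ.pt r).val g') (Icc 0 1) s := by
  obtain ⟨p, hp⟩ := hp
  have htp : Transcendental ℂ p := Place.transcendental_of_nonunit hp.1 hp.2.1
  obtain ⟨d, hd, hd'⟩ := exists_derivation htr htp
  rw [IA_key htr γ hs hp d hd hg, IA_key htr γ hs hp d hd hg', ← mul_assoc, ← mul_assoc]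
  rw [hd' g, hd' g', smul_smul, smul_smul] at h
  have h1 := smul_D_inj htr htp h
  rw [← Place.val_mul htr _ hf (Place.deriv_mem htr hp d hd hg),
    ← Place.val_mul htr _ hf' (Place.deriv_mem htr hp d hd hg'), h1]

theorem Arc.exists_density (htr : Algebra.trdeg ℂ L = 1) (γ : Arc L)
    (hp : ∀ s ∈ Icc (0 : ℝ) 1, ∃ p, (γ.pt s).IsParam p) {ω : Ω[L⁄ℂ]}
    (hω : ∀ s ∈ Icc (0 : ℝ) 1, ∃ f ∈ (γ.pt s).O, ∃ g ∈ (γ.pt s).O, ω = f • D ℂ L g) :
    ∃ ρ, γ.Density ω ρ := by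
  choose! F hF G hG hFG using hω
  refine ⟨fun s => (γ.pt s).val (F s) * derivWithin (fun r => (γ.pt r).val (G s)) (Icc 0 1) s,
    ?_, fun s hs => ⟨F s, hF s hs, G s, hG s hs, hFG s hs, rfl⟩⟩
  intro s hs
  have h1 : ContinuousWithinAt (fun r => (γ.pt r).val (F s)) (Icc 0 1) s :=
    (γ.smooth s hs _ (hF s hs)).continuousWithinAt
  have h2 : ContinuousWithinAt (derivWithin (fun r => (γ.pt r).val (G s)) (Icc 0 1))
      (Icc 0 1) s := by
    have h3 := ((γ.smooth s hs _ (hG s hs)).fderivWithin_right (uniqueDiffOn_Icc zero_lt_one)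
      (m := 0) (by norm_num) hs).continuousWithinAt
    have h4 : (derivWithin (fun r => (γ.pt r).val (G s)) (Icc 0 1)) = fun r =>
        fderivWithin ℝ (fun r => (γ.pt r).val (G s)) (Icc 0 1) r 1 := by
      ext r
      rfl
    rw [h4]
    exact h3.clm_apply continuousWithinAt_const
  have h5 := h1.mul h2
  refine h5.congr_of_eventuallyEq ?_ rfl
  filter_upwards [γ.regular s hs _ (hF s hs), γ.regular s hs _ (hG s hs), self_mem_nhdsWithin]
    with r h6 h7 h8
  exact Arc.density_unique htr γ h8 (hp r h8) (hF r h8) (hG r h8) h6 h7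
    ((hFG r h8).symm.trans (hFG s hs))

theorem Arc.Density.eqOn (htr : Algebra.trdeg ℂ L = 1) {γ : Arc L}
    (hp : ∀ s ∈ Icc (0 : ℝ) 1, ∃ p, (γ.pt s).IsParam p) {ω : Ω[L⁄ℂ]} {ρ ρ' : ℝ → ℂ}
    (h : γ.Density ω ρ) (h' : γ.Density ω ρ') : EqOn ρ ρ' (Icc 0 1) := by
  intro s hs
  obtain ⟨f, hf, g, hg, h1, h2⟩ := h.2 s hs
  obtain ⟨f', hf', g', hg', h1', h2'⟩ := h'.2 s hs
  rw [h2, h2']
  exact Arc.density_unique htr γ hs (hp s hs) hf hg hf' hg' (h1.symm.trans h1')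

/-- linear combinations with constant coefficients -/
theorem Arc.Density.lin (htr : Algebra.trdeg ℂ L = 1) {γ : Arc L}
    (hp : ∀ s ∈ Icc (0 : ℝ) 1, ∃ p, (γ.pt s).IsParam p) {ω ω' : Ω[L⁄ℂ]} {ρ ρ' : ℝ → ℂ}
    (h : γ.Density ω ρ) (h' : γ.Density ω' ρ') (a b : ℂ) :
    γ.Density (a • ω + b • ω') (fun s => a * ρ s + b * ρ' s) := by
  refine ⟨(continuousOn_const.mul h.1).add (continuousOn_const.mul h'.1), ?_⟩
  intro s hs
  obtain ⟨f, hf, g, hg, h1, h2⟩ := h.2 s hs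
  obtain ⟨f', hf', g', hg', h1', h2'⟩ := h'.2 s hs
  obtain ⟨p, hp⟩ := hp s hs
  have htp : Transcendental ℂ p := Place.transcendental_of_nonunit hp.1 hp.2.1
  obtain ⟨d, hd, hd'⟩ := exists_derivation htr htp
  have hdg := Place.deriv_mem htr hp d hd hg
  have hdg' := Place.deriv_mem htr hp d hd hg'
  have hm1 : f * d g ∈ (γ.pt s).O := mul_mem hf hdg
  have hm2 : f' * d g' ∈ (γ.pt s).O := mul_mem hf' hdg'
  have ha : algebraMap ℂ L a ∈ (γ.pt s).O := (γ.pt s).base a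
  have hb : algebraMap ℂ L b ∈ (γ.pt s).O := (γ.pt s).base b
  refine ⟨algebraMap ℂ L a * (f * d g) + algebraMap ℂ L b * (f' * d g'),
    add_mem (mul_mem ha hm1) (mul_mem hb hm2), p, IA_nonunits_mem hp.2.1, ?_, ?_⟩
  · rw [h1, h1', hd' g, hd' g', add_smul]
    simp only [mul_smul, algebraMap_smul]
  · show a * ρ s + b * ρ' s = _
    rw [h2, h2', IA_key htr γ hs hp d hd hg, IA_key htr γ hs hp d hd hg',
      Place.val_add htr _ (mul_mem ha hm1) (mul_mem hb hm2), Place.val_mul htr _ ha hm1,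
      Place.val_mul htr _ hb hm2, Place.val_mul htr _ hf hdg, Place.val_mul htr _ hf' hdg',
      Place.val_algebraMap, Place.val_algebraMap]
    ring

theorem Arc.hasIntegral_iff {γ : Arc L} {ω : Ω[L⁄ℂ]} {I : ℂ} :
    γ.HasIntegral ω I ↔ ∃ ρ, γ.Density ω ρ ∧ I = ∫ s in (0 : ℝ)..1, ρ s := by
  constructor
  · rintro ⟨ρ, h1, h2, h3⟩
    exact ⟨ρ, ⟨h1, h2⟩, h3⟩
  · rintro ⟨ρ, ⟨h1, h2⟩, h3⟩
    exact ⟨ρ, h1, h2, h3⟩

/-- chain rule: if `f` is regular at `γ.pt s` and `d f = h • ω` with `h` regular, then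
`(val f)'(s) = val(h) ρ(s)` -/
theorem Arc.Density.deriv (htr : Algebra.trdeg ℂ L = 1) {γ : Arc L}
    {ω : Ω[L⁄ℂ]} {ρ : ℝ → ℂ} (h : γ.Density ω ρ) {s : ℝ} (hs : s ∈ Icc (0 : ℝ) 1)
    (hp : ∃ p, (γ.pt s).IsParam p) {f k : L} (hf : f ∈ (γ.pt s).O) (hk : k ∈ (γ.pt s).O)
    (hfk : D ℂ L f = k • ω) :
    HasDerivWithinAt (fun r => (γ.pt r).val f) ((γ.pt s).val k * ρ s) (Icc 0 1) s := by
  obtain ⟨f₀, hf₀, g₀, hg₀, h1, h2⟩ := h.2 s hs
  have h3 := IA_hasDeriv γ hs hf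
  have h4 : (1 : L) • D ℂ L f = (k * f₀) • D ℂ L g₀ := by
    rw [one_smul, hfk, h1, smul_smul]
  have h5 := Arc.density_unique htr γ hs hp (one_mem _) hf (mul_mem hk hf₀) hg₀ h4
  have h6 : (γ.pt s).val (1 : L) = 1 := by
    have := (γ.pt s).val_algebraMap 1
    rwa [map_one] at this
  rw [h6, one_mul, Place.val_mul htr _ hk hf₀, mul_assoc, ← h2] at h5
  rwa [h5] at h3

end Pool.Agent.Arith
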