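import Pool.Agent.Lib.MP_c0402d_ag.IA
import Pool.Agent.Lib.MP_c0402d_ag.EC

/-!
# JOB IB: lifting arcs to the universal covering of `E`

The set of the `s` for which the claim holds is closed (use `tendsto_Pf`, `tendsto_Qf`) and, by
uniqueness of solutions of ordinary differential equations, open to the right: at a point with
`X, Y` regular both `(val X, val Y)` and `(Pf, Qf) (z₀ + ∫ ρ)` solve `a' = b ρ`,
`b' = (3 a² - 1) / 2 ρ`; at a pole of `X` use `W = X / Y`, `Z = 1 / Y`, which vanish there and solve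
`W' = -(1 + 2 W Z) / 2 ρ`, `Z' = -(3 W² - Z²) / 2 ρ`, as `Wf, Zf` do.
-/

set_option autoImplicit false

namespace Pool.Agent.Arith

open KaehlerDifferential Set Filter Topology


private theorem ib_lip {F : ℂ × ℂ → ℂ × ℂ} (hF : ContDiff ℝ 1 F) (R : ℝ) :
    ∃ K : NNReal, LipschitzOnWith K F (Metric.closedBall 0 R) := by
  have hc : Continuous (fderiv ℝ F) := hF.continuous_fderiv one_ne_zero
  obtain ⟨C, hC⟩ := (isCompact_closedBall (0 : ℂ × ℂ) R).exists_bound_of_continuousOn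
    hc.continuousOn
  refine ⟨Real.toNNReal C, Convex.lipschitzOnWith_of_nnnorm_fderiv_le (𝕜 := ℝ)
    (fun x _ => (hF.differentiable one_ne_zero) x) (fun x hx => ?_) (convex_closedBall _ _)⟩
  rw [← NNReal.coe_le_coe, coe_nnnorm]
  exact (hC x hx).trans (Real.le_coe_toNNReal C)

private theorem ib_uniq {F : ℂ × ℂ → ℂ × ℂ} (hF : ContDiff ℝ 1 F)
    {ρ : ℝ → ℂ} {u v : ℝ} (hρ : ContinuousOn ρ (Icc u v))
    {f g : ℝ → ℂ × ℂ}
    (hf : ∀ s ∈ Icc u v, HasDerivWithinAt f (ρ s • F (f s)) (Icc u v) s)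
    (hg : ∀ s ∈ Icc u v, HasDerivWithinAt g (ρ s • F (g s)) (Icc u v) s)
    (h : f u = g u ∨ f v = g v) : EqOn f g (Icc u v) := by
  have hfc : ContinuousOn f (Icc u v) := fun s hs => (hf s hs).continuousWithinAt
  have hgc : ContinuousOn g (Icc u v) := fun s hs => (hg s hs).continuousWithinAt
  obtain ⟨M, hM⟩ := isCompact_Icc.exists_bound_of_continuousOn hρ
  obtain ⟨R1, hR1⟩ := isCompact_Icc.exists_bound_of_continuousOn hfc
  obtain ⟨R2, hR2⟩ := isCompact_Icc.exists_bound_of_continuousOn hgc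
  obtain ⟨K, hK⟩ := ib_lip hF (max R1 R2)
  have hlip : ∀ t ∈ Icc u v, LipschitzOnWith (Real.toNNReal M * K) (fun y => ρ t • F y)
      (Metric.closedBall 0 (max R1 R2)) := by
    intro t ht
    refine LipschitzOnWith.of_dist_le_mul fun x hx y hy => ?_
    rw [dist_smul₀]
    have h1 := hK.dist_le_mul x hx y hy
    have h2 : ‖ρ t‖ ≤ Real.toNNReal M := (hM t ht).trans (Real.le_coe_toNNReal M)
    calc ‖ρ t‖ * dist (F x) (F y) ≤ Real.toNNReal M * (K * dist x y) :=
          mul_le_mul h2 h1 dist_nonneg (NNReal.coe_nonneg _)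
      _ = ↑(Real.toNNReal M * K) * dist x y := by push_cast; ring
  have hfs : ∀ t ∈ Icc u v, f t ∈ Metric.closedBall (0 : ℂ × ℂ) (max R1 R2) := fun t ht => by
    rw [mem_closedBall_zero_iff]; exact (hR1 t ht).trans (le_max_left _ _)
  have hgs : ∀ t ∈ Icc u v, g t ∈ Metric.closedBall (0 : ℂ × ℂ) (max R1 R2) := fun t ht => by
    rw [mem_closedBall_zero_iff]; exact (hR2 t ht).trans (le_max_right _ _)
  rcases h with h | h
  · refine ODE_solution_unique_of_mem_Icc_right (v := fun t y => ρ t • F y)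
      (s := fun _ => Metric.closedBall 0 (max R1 R2)) (K := Real.toNNReal M * K)
      (fun t ht => hlip t (Ico_subset_Icc_self ht)) hfc (fun t ht => ?_)
      (fun t ht => hfs t (Ico_subset_Icc_self ht)) hgc (fun t ht => ?_)
      (fun t ht => hgs t (Ico_subset_Icc_self ht)) h
    · exact (hf t (Ico_subset_Icc_self ht)).mono_of_mem_nhdsWithin (Icc_mem_nhdsGE_of_mem ht)
    · exact (hg t (Ico_subset_Icc_self ht)).mono_of_mem_nhdsWithin (Icc_mem_nhdsGE_of_mem ht)
  · refine ODE_solution_unique_of_mem_Icc_left (v := fun t y => ρ t • F y)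
      (s := fun _ => Metric.closedBall 0 (max R1 R2)) (K := Real.toNNReal M * K)
      (fun t ht => hlip t (Ioc_subset_Icc_self ht)) hfc (fun t ht => ?_)
      (fun t ht => hfs t (Ioc_subset_Icc_self ht)) hgc (fun t ht => ?_)
      (fun t ht => hgs t (Ioc_subset_Icc_self ht)) h
    · exact (hf t (Ioc_subset_Icc_self ht)).mono_of_mem_nhdsWithin (Icc_mem_nhdsLE_of_mem ht)
    · exact (hg t (Ioc_subset_Icc_self ht)).mono_of_mem_nhdsWithin (Icc_mem_nhdsLE_of_mem ht)

private theorem ib_ode {F : ℂ × ℂ → ℂ × ℂ} (hF : ContDiff ℝ 1 F)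
    {G : Set ℂ} (hG : IsOpen G) {Φ : ℂ → ℂ × ℂ} (hΦ : ∀ z ∈ G, HasDerivAt Φ (F (Φ z)) z)
    (hb : ∀ z ∉ G, Tendsto (fun w => ‖Φ w‖) (𝓝[G] z) atTop)
    {ρ : ℝ → ℂ} {α β : ℝ} (hρ : ContinuousOn ρ (Icc α β)) {zf : ℝ → ℂ} {y : ℝ → ℂ × ℂ}
    (hz : ∀ s ∈ Icc α β, HasDerivWithinAt zf (ρ s) (Icc α β) s)
    (hy : ∀ s ∈ Icc α β, HasDerivWithinAt y (ρ s • F (y s)) (Icc α β) s)
    {s₁ : ℝ} (h₁ : s₁ ∈ Icc α β) (hQ : zf s₁ ∈ G ∧ y s₁ = Φ (zf s₁)) :
    ∀ s ∈ Icc α β, zf s ∈ G ∧ y s = Φ (zf s) := by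
  have key : ∀ x ∈ Icc α β, ∀ᶠ t in 𝓝[Icc α β] x,
      ((zf x ∈ G ∧ y x = Φ (zf x)) → (zf t ∈ G ∧ y t = Φ (zf t))) ∧
      ((zf t ∈ G ∧ y t = Φ (zf t)) → (zf x ∈ G ∧ y x = Φ (zf x))) := by
    intro x hx
    by_cases hxG : zf x ∈ G
    · have h1 : ∀ᶠ t in 𝓝[Icc α β] x, zf t ∈ G :=
        (hz x hx).continuousWithinAt.eventually (hG.mem_nhds hxG)
      rw [eventually_nhdsWithin_iff, Metric.eventually_nhds_iff] at h1
      obtain ⟨δ, hδ, h1⟩ := h1
      rw [eventually_nhdsWithin_iff, Metric.eventually_nhds_iff]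
      refine ⟨δ, hδ, fun t htδ ht => ?_⟩
      have hu : min x t ∈ Icc α β := ⟨le_min hx.1 ht.1, (min_le_left _ _).trans hx.2⟩
      have hv : max x t ∈ Icc α β := ⟨hx.1.trans (le_max_left _ _), max_le hx.2 ht.2⟩
      have hsub : Icc (min x t) (max x t) ⊆ Icc α β := Icc_subset_Icc hu.1 hv.2
      have hin : ∀ r ∈ Icc (min x t) (max x t), zf r ∈ G := by
        intro r hr
        refine h1 ?_ (hsub hr)
        rw [Real.dist_eq] at htδ ⊢
        refine lt_of_le_of_lt ?_ htδ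
        rcases le_total x t with hxt | hxt
        · rw [min_eq_left hxt, max_eq_right hxt] at hr
          rw [abs_of_nonneg (by linarith [hr.1]), abs_of_nonneg (by linarith)]
          linarith [hr.2]
        · rw [min_eq_right hxt, max_eq_left hxt] at hr
          rw [abs_of_nonpos (by linarith [hr.2]), abs_of_nonpos (by linarith)]
          linarith [hr.1]
      have hsol : ∀ r ∈ Icc (min x t) (max x t),
          HasDerivWithinAt (Φ ∘ zf) (ρ r • F ((Φ ∘ zf) r)) (Icc (min x t) (max x t)) r := by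
        intro r hr
        exact (hΦ (zf r) (hin r hr)).scomp_hasDerivWithinAt r ((hz r (hsub hr)).mono hsub)
      have hysol : ∀ r ∈ Icc (min x t) (max x t),
          HasDerivWithinAt y (ρ r • F (y r)) (Icc (min x t) (max x t)) r :=
        fun r hr => (hy r (hsub hr)).mono hsub
      have hxm : x ∈ Icc (min x t) (max x t) := ⟨min_le_left _ _, le_max_left _ _⟩
      have htm : t ∈ Icc (min x t) (max x t) := ⟨min_le_right _ _, le_max_right _ _⟩
      constructor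
      · rintro ⟨-, hxe⟩
        refine ⟨hin t htm, ?_⟩
        have := ib_uniq hF (hρ.mono hsub) hysol hsol (by
          rcases le_total x t with hxt | hxt
          · left; rw [min_eq_left hxt]; exact hxe
          · right; rw [max_eq_left hxt]; exact hxe)
        exact this htm
      · rintro ⟨-, hte⟩
        refine ⟨hxG, ?_⟩
        have := ib_uniq hF (hρ.mono hsub) hysol hsol (by
          rcases le_total x t with hxt | hxt
          · right; rw [max_eq_right hxt]; exact hte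
          · left; rw [min_eq_right hxt]; exact hte)
        exact this hxm
    · have h2 : ∀ᶠ w in 𝓝 (zf x), w ∈ G → ‖y x‖ + 1 < ‖Φ w‖ := by
        have := (hb (zf x) hxG).eventually_gt_atTop (‖y x‖ + 1)
        rwa [eventually_nhdsWithin_iff] at this
      have h3 : ∀ᶠ t in 𝓝[Icc α β] x, zf t ∈ G → ‖y x‖ + 1 < ‖Φ (zf t)‖ :=
        (hz x hx).continuousWithinAt.eventually h2
      have h4 : ∀ᶠ t in 𝓝[Icc α β] x, ‖y t‖ < ‖y x‖ + 1 :=
        ((hy x hx).continuousWithinAt.norm).eventually (gt_mem_nhds (by linarith))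
      filter_upwards [h3, h4] with t ht3 ht4
      refine ⟨fun h => absurd h.1 hxG, fun h => ?_⟩
      have := ht3 h.1
      rw [← h.2] at this
      linarith
  intro s hs
  exact isPreconnected_Icc.induction₂'
    (fun x t => (zf x ∈ G ∧ y x = Φ (zf x)) → (zf t ∈ G ∧ y t = Φ (zf t))) key
    (fun a b c _ _ _ hab hbc h => hbc (hab h)) h₁ hs hQ

private theorem ib_int {ρ : ℝ → ℂ} (hρ : ContinuousOn ρ (Icc 0 1)) (z₀ : ℂ) :
    ∀ s ∈ Icc (0 : ℝ) 1,
      HasDerivWithinAt (fun s => z₀ + ∫ r in (0 : ℝ)..s, ρ r) (ρ s) (Icc 0 1) s := by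
  intro s hs
  set ρ' : ℝ → ℂ := IccExtend (zero_le_one (α := ℝ)) ((Icc (0 : ℝ) 1).domRestrict ρ) with hρ'
  have hc : Continuous ρ' := (continuousOn_iff_continuous_domRestrict.mp hρ).Icc_extend'
  have heq : ∀ t ∈ Icc (0 : ℝ) 1, ρ' t = ρ t := fun t ht => by
    rw [hρ', IccExtend_of_mem _ _ ht]; rfl
  have h1 : HasDerivAt (fun s => z₀ + ∫ r in (0 : ℝ)..s, ρ' r) (ρ' s) s :=
    (intervalIntegral.integral_hasDerivAt_right (hc.intervalIntegrable _ _)
      (hc.stronglyMeasurableAtFilter _ _) hc.continuousAt).const_add z₀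
  rw [heq s hs] at h1
  refine h1.hasDerivWithinAt.congr (fun t ht => ?_) ?_
  · show z₀ + _ = z₀ + _
    congr 1
    refine intervalIntegral.integral_congr fun r hr => ?_
    rw [uIcc_of_le ht.1] at hr
    exact (heq r ⟨hr.1, hr.2.trans ht.2⟩).symm
  · show z₀ + _ = z₀ + _
    congr 1
    refine intervalIntegral.integral_congr fun r hr => ?_
    rw [uIcc_of_le hs.1] at hr
    exact (heq r ⟨hr.1, hr.2.trans hs.2⟩).symm


private noncomputable def ib_FA : ℂ × ℂ → ℂ × ℂ := fun p => (p.2, (3 * p.1 ^ 2 - 1) / 2)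
private noncomputable def ib_FB : ℂ × ℂ → ℂ × ℂ :=
  fun p => (-(1 + 2 * p.1 * p.2) / 2, -(3 * p.1 ^ 2 - p.2 ^ 2) / 2)

private theorem ib_cdA : ContDiff ℝ 1 ib_FA := by
  unfold ib_FA
  fun_prop

private theorem ib_cdB : ContDiff ℝ 1 ib_FB := by
  unfold ib_FB
  fun_prop

private def ib_GA : Set ℂ := {z | z ∉ Lam.lattice}
private def ib_GB : Set ℂ := {z | z ∈ Lam.lattice ∨ Qf z ≠ 0}

private theorem ib_openA : IsOpen ib_GA := Lam.isClosed_lattice.isOpen_compl

private theorem ib_openB : IsOpen ib_GB := by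
  rw [isOpen_iff_mem_nhds]
  intro z hz
  by_cases h : z ∈ Lam.lattice
  · have h1 : ∀ᶠ w in 𝓝[≠] z, 0 < ‖Qf w‖ := (tendsto_Qf h).eventually_gt_atTop 0
    rw [eventually_nhdsWithin_iff] at h1
    filter_upwards [h1] with w hw
    by_cases hwz : w = z
    · left; rw [hwz]; exact h
    · right; exact norm_pos_iff.mp (hw hwz)
  · have hq : Qf z ≠ 0 := by
      rcases hz with hz | hz
      · exact absurd hz h
      · exact hz
    filter_upwards [(hasDerivAt_Qf h).continuousAt.eventually_ne hq] with w hw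
    right; exact hw

private theorem ib_derA (z : ℂ) (hz : z ∈ ib_GA) :
    HasDerivAt (fun w => (Pf w, Qf w)) (ib_FA (Pf z, Qf z)) z :=
  (hasDerivAt_Pf hz).prodMk (hasDerivAt_Qf hz)

private theorem ib_derB (z : ℂ) (hz : z ∈ ib_GB) :
    HasDerivAt (fun w => (Wf w, Zf w)) (ib_FB (Wf z, Zf z)) z :=
  (hasDerivAt_Wf hz).prodMk (hasDerivAt_Zf hz)

private theorem ib_blowA (z : ℂ) (hz : z ∉ ib_GA) :
    Tendsto (fun w => ‖(Pf w, Qf w)‖) (𝓝[ib_GA] z) atTop := by
  have hz' : z ∈ Lam.lattice := by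
    by_contra h; exact hz h
  have hle : 𝓝[ib_GA] z ≤ 𝓝[≠] z := by
    refine nhdsWithin_mono z fun w hw => ?_
    rintro rfl
    exact hz hw
  refine tendsto_atTop_mono (fun w => ?_) ((tendsto_Pf hz').mono_left hle)
  exact norm_fst_le (Pf w, Qf w)

private theorem ib_blowB (z : ℂ) (hz : z ∉ ib_GB) :
    Tendsto (fun w => ‖(Wf w, Zf w)‖) (𝓝[ib_GB] z) atTop := by
  have hz1 : z ∉ Lam.lattice := fun h => hz (Or.inl h)
  have hz2 : Qf z = 0 := by
    by_contra h; exact hz (Or.inr h)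
  have hc : Tendsto Qf (𝓝[ib_GB] z) (𝓝[≠] 0) := by
    rw [tendsto_nhdsWithin_iff]
    constructor
    · have := (hasDerivAt_Qf hz1).continuousAt.tendsto
      rw [hz2] at this
      exact this.mono_left nhdsWithin_le_nhds
    · have h1 : ∀ᶠ w in 𝓝[ib_GB] z, w ∈ ib_GA :=
        Filter.Eventually.filter_mono nhdsWithin_le_nhds (ib_openA.mem_nhds hz1)
      filter_upwards [h1, self_mem_nhdsWithin] with w hw1 hw2
      rcases hw2 with hw2 | hw2
      · exact absurd hw2 hw1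
      · exact hw2
  have h2 : Tendsto (fun w => ‖(Qf w)⁻¹‖) (𝓝[ib_GB] z) atTop :=
    tendsto_norm_inv_nhdsNE_zero_atTop.comp hc
  refine tendsto_atTop_mono' _ ?_ h2
  have h1 : ∀ᶠ w in 𝓝[ib_GB] z, w ∈ ib_GA :=
    Filter.Eventually.filter_mono nhdsWithin_le_nhds (ib_openA.mem_nhds hz1)
  filter_upwards [h1] with w hw
  have h3 : Zf w = (Qf w)⁻¹ := by
    have hw' : w ∉ Lam.lattice := hw
    rw [Zf, if_neg hw', one_div]
  rw [← h3]
  exact norm_snd_le (Wf w, Zf w)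

section

variable {L : Type} [Field L]

/-! algebra of valuation rings -/

private theorem ib_sq_mem {A : ValuationSubring L} {f : L} (h : f ^ 2 ∈ A) : f ∈ A := by
  rcases A.mem_or_inv_mem f with h1 | h1
  · exact h1
  · by_cases hf : f = 0
    · rw [hf]; exact A.zero_mem
    · have : f = f ^ 2 * f⁻¹ := by field_simp
      rw [this]; exact A.mul_mem _ _ h h1

private theorem ib_Y_mem {A : ValuationSubring L} {X Y : L} (hXY : Y ^ 2 = X ^ 3 - X)
    (hX : X ∈ A) : Y ∈ A := by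
  apply ib_sq_mem
  rw [hXY]
  exact sub_mem (pow_mem hX 3) hX

private theorem ib_nonunits_iff {A : ValuationSubring L} {f : L} :
    f ∈ A.nonunits ↔ A.valuation f < 1 := A.mem_nonunits_iff

/-- at a pole of `X` both `W = X / Y` and `Z = 1 / Y` vanish -/
private theorem ib_pole {A : ValuationSubring L} {X Y : L} (hXY : Y ^ 2 = X ^ 3 - X)
    (hX : X ∉ A) : X / Y ∈ A.nonunits ∧ 1 / Y ∈ A.nonunits := by
  have hv : 1 < A.valuation X := by
    by_contra h
    exact hX ((A.valuation_le_one_iff X).mp (not_lt.mp h))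
  have hX0 : A.valuation X ≠ 0 := by
    intro h; rw [h] at hv; exact absurd hv (not_lt.mpr zero_le)
  have h1 : A.valuation (Y ^ 2) = A.valuation X ^ 3 := by
    rw [hXY, ← map_pow]
    apply Valuation.map_sub_eq_of_lt_left
    rw [map_pow]
    calc A.valuation X = A.valuation X ^ 1 := (pow_one _).symm
      _ < A.valuation X ^ 3 := pow_lt_pow_right₀ hv (by norm_num)
  rw [map_pow] at h1
  have hXinv : (A.valuation X)⁻¹ < 1 := by
    rw [inv_lt_one₀ (lt_trans zero_lt_one hv)]; exact hv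
  have hY0 : A.valuation Y ≠ 0 := by
    intro h
    rw [h, zero_pow two_ne_zero] at h1
    exact pow_ne_zero 3 hX0 h1.symm
  constructor
  · rw [ib_nonunits_iff, map_div₀]
    by_contra h
    rw [not_lt] at h
    have h2 : 1 ≤ (A.valuation X / A.valuation Y) ^ 2 := one_le_pow₀ h
    rw [div_pow, h1] at h2
    have h3 : A.valuation X ^ 2 / A.valuation X ^ 3 = (A.valuation X)⁻¹ := by
      field_simp
    rw [h3] at h2
    exact absurd hXinv (not_lt.mpr h2)
  · rw [ib_nonunits_iff, map_div₀, map_one]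
    by_contra h
    rw [not_lt] at h
    have h2 : 1 ≤ (1 / A.valuation Y) ^ 2 := one_le_pow₀ h
    rw [div_pow, h1, one_pow, one_div, ← inv_pow] at h2
    exact absurd (pow_lt_one₀ zero_le hXinv (by norm_num)) (not_lt.mpr h2)

end

variable {L : Type} [Field L] [Algebra ℂ L]

/-- the point `(X, Y)(P)` of `E` has the parameter `z` -/
def AtE (P : Place ℂ L) (X Y : L) (z : ℂ) : Prop :=
  (X ∈ P.O ∧ Y ∈ P.O ∧ z ∉ Lam.lattice ∧ P.val X = Pf z ∧ P.val Y = Qf z) ∨
    (X ∉ P.O ∧ z ∈ Lam.lattice)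

/-! derivations -/

private theorem ib_DY {X Y : L} (hXY : Y ^ 2 = X ^ 3 - X) (hY : Y ≠ 0) {η : Ω[L⁄ℂ]}
    (hη : D ℂ L X = Y • η) :
    D ℂ L Y = (algebraMap ℂ L (3 / 2) * (X * X) + algebraMap ℂ L (-1 / 2)) • η := by
  have h1 : D ℂ L (Y ^ 2) = D ℂ L (X ^ 3 - X) := by rw [hXY]
  rw [map_sub, Derivation.leibniz_pow, Derivation.leibniz_pow, hη] at h1
  have : CharZero L := charZero_of_injective_algebraMap (algebraMap ℂ L).injective
  have h2 : (2 : L) ≠ 0 := two_ne_zero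
  have h3 : (2 * Y) • D ℂ L Y = (2 * Y) •
      ((algebraMap ℂ L (3 / 2) * (X * X) + algebraMap ℂ L (-1 / 2)) • η) := by
    have e1 : (2 * Y) • D ℂ L Y = 2 • Y ^ (2 - 1) • D ℂ L Y := by
      rw [show (2 : ℕ) - 1 = 1 from rfl, pow_one, mul_smul, ← Nat.cast_smul_eq_nsmul L]
      norm_num
    rw [e1, h1]
    rw [← Nat.cast_smul_eq_nsmul L 3]
    simp only [smul_smul]
    rw [← sub_smul]
    congr 1
    have e3 : algebraMap ℂ L (3 / 2) = 3 / 2 := by
      rw [map_div₀, map_ofNat, map_ofNat]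
    have e4 : algebraMap ℂ L (-1 / 2) = -1 / 2 := by
      rw [map_div₀, map_neg, map_one, map_ofNat]
    rw [e3, e4]
    push_cast
    field_simp
    ring
  have h4 : (2 * Y) ≠ 0 := mul_ne_zero h2 hY
  exact smul_right_injective _ h4 h3

private theorem ib_DZ {X Y : L} (hXY : Y ^ 2 = X ^ 3 - X) (hY : Y ≠ 0) {η : Ω[L⁄ℂ]}
    (hη : D ℂ L X = Y • η) :
    D ℂ L (1 / Y) = (algebraMap ℂ L (-3 / 2) * ((X / Y) * (X / Y)) +
      algebraMap ℂ L (1 / 2) * ((1 / Y) * (1 / Y))) • η := by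
  rw [one_div, Derivation.leibniz_inv, ib_DY hXY hY hη, smul_smul]
  congr 1
  have e3 : algebraMap ℂ L (3 / 2) = 3 / 2 := by
    rw [map_div₀, map_ofNat, map_ofNat]
  have e4 : algebraMap ℂ L (-1 / 2) = -1 / 2 := by
    rw [map_div₀, map_neg, map_one, map_ofNat]
  have e5 : algebraMap ℂ L (-3 / 2) = -3 / 2 := by
    rw [map_div₀, map_neg, map_ofNat, map_ofNat]
  have e6 : algebraMap ℂ L (1 / 2) = 1 / 2 := by
    rw [map_div₀, map_one, map_ofNat]
  rw [e3, e4, e5, e6]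
  field_simp
  ring

private theorem ib_DW {X Y : L} (hXY : Y ^ 2 = X ^ 3 - X) (hY : Y ≠ 0) {η : Ω[L⁄ℂ]}
    (hη : D ℂ L X = Y • η) :
    D ℂ L (X / Y) = (algebraMap ℂ L (-1) * ((X / Y) * (1 / Y)) +
      algebraMap ℂ L (-1 / 2)) • η := by
  have : CharZero L := charZero_of_injective_algebraMap (algebraMap ℂ L).injective
  rw [div_eq_mul_one_div X Y, Derivation.leibniz, ib_DZ hXY hY hη, hη, smul_smul, smul_smul,
    ← add_smul]
  congr 1
  have e2 : algebraMap ℂ L (-1) = -1 := by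
    rw [map_neg, map_one]
  have e4 : algebraMap ℂ L (-1 / 2) = -1 / 2 := by
    rw [map_div₀, map_neg, map_one, map_ofNat]
  have e5 : algebraMap ℂ L (-3 / 2) = -3 / 2 := by
    rw [map_div₀, map_neg, map_ofNat, map_ofNat]
  have e6 : algebraMap ℂ L (1 / 2) = 1 / 2 := by
    rw [map_div₀, map_one, map_ofNat]
  rw [e2, e4, e5, e6]
  have h5 : X ^ 3 = Y ^ 2 + X := by rw [hXY]; ring
  field_simp
  linear_combination (-3) * h5

/-! the two charts -/

private theorem ib_val_one {P : Place ℂ L} : P.val (1 : L) = 1 := by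
  have := P.val_algebraMap 1
  rwa [map_one] at this

private theorem ib_iffA {P : Place ℂ L} {X Y : L} (hX : X ∈ P.O) (hY : Y ∈ P.O) (z : ℂ) :
    AtE P X Y z ↔ (z ∈ ib_GA ∧ (P.val X, P.val Y) = (Pf z, Qf z)) := by
  constructor
  · rintro (⟨_, _, h1, h2, h3⟩ | ⟨h, _⟩)
    · exact ⟨h1, by rw [h2, h3]⟩
    · exact absurd hX h
  · rintro ⟨h1, h2⟩
    rw [Prod.mk.injEq] at h2
    exact Or.inl ⟨hX, hY, h1, h2.1, h2.2⟩

private theorem ib_iffB (htr : Algebra.trdeg ℂ L = 1) {P : Place ℂ L} {X Y : L}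
    (hXY : Y ^ 2 = X ^ 3 - X) (hY : Y ≠ 0)
    (hW : X / Y ∈ P.O) (hZ : 1 / Y ∈ P.O) (z : ℂ) :
    AtE P X Y z ↔ (z ∈ ib_GB ∧ (P.val (X / Y), P.val (1 / Y)) = (Wf z, Zf z)) := by
  constructor
  · rintro (⟨hXO, hYO, h1, h2, h3⟩ | ⟨h1, h2⟩)
    · have h4 : P.val Y * P.val (1 / Y) = 1 := by
        rw [← Place.val_mul htr P hYO hZ, mul_one_div_cancel hY, ib_val_one]
      have h5 : P.val X * P.val (1 / Y) = P.val (X / Y) := by
        rw [← Place.val_mul htr P hXO hZ, mul_one_div]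
      rw [h3] at h4
      have h6 : Qf z ≠ 0 := left_ne_zero_of_mul_eq_one h4
      have h7 : P.val (1 / Y) = 1 / Qf z := by
        rw [eq_div_iff h6, mul_comm]; exact h4
      refine ⟨Or.inr h6, ?_⟩
      rw [← h5, h7, h2, Wf, Zf, if_neg h1, if_neg h1, mul_one_div]
    · refine ⟨Or.inl h2, ?_⟩
      obtain ⟨h3, h4⟩ := ib_pole hXY h1
      rw [(Place.val_eq_zero htr P hW).mpr h3, (Place.val_eq_zero htr P hZ).mpr h4, Wf, Zf,
        if_pos h2, if_pos h2]
  · rintro ⟨h1, h2⟩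
    rw [Prod.mk.injEq] at h2
    obtain ⟨h2, h3⟩ := h2
    by_cases hz : z ∈ Lam.lattice
    · refine Or.inr ⟨fun hXO => ?_, hz⟩
      have hYO := ib_Y_mem hXY hXO
      have h4 : P.val Y * P.val (1 / Y) = 1 := by
        rw [← Place.val_mul htr P hYO hZ, mul_one_div_cancel hY, ib_val_one]
      rw [h3, Zf, if_pos hz, mul_zero] at h4
      exact zero_ne_one h4
    · have h4 : Qf z ≠ 0 := by
        rcases h1 with h1 | h1
        · exact absurd h1 hz
        · exact h1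
      rw [Wf, if_neg hz] at h2
      rw [Zf, if_neg hz] at h3
      have h5 : 1 / Y ∉ P.O.nonunits := by
        intro h
        rw [← Place.val_eq_zero htr P hZ, h3] at h
        exact one_div_ne_zero h4 h
      have hYO : Y ∈ P.O := by
        have h6 : ¬ P.O.valuation (1 / Y) < 1 := fun h => h5 (ib_nonunits_iff.mpr h)
        rw [← P.O.valuation_le_one_iff]
        rw [not_lt, map_div₀, map_one, one_div] at h6
        by_contra h7
        rw [not_le] at h7
        exact absurd (inv_lt_one_of_one_lt₀ h7) (not_lt.mpr h6)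
      have hXO : X ∈ P.O := by
        have : X = (X / Y) * Y := by field_simp
        rw [this]; exact mul_mem hW hYO
      have h6 : P.val Y * P.val (1 / Y) = 1 := by
        rw [← Place.val_mul htr P hYO hZ, mul_one_div_cancel hY, ib_val_one]
      have h7 : P.val Y = Qf z := by
        rw [h3] at h6
        field_simp at h6
        exact h6
      refine Or.inl ⟨hXO, hYO, hz, ?_, h7⟩
      have h8 : P.val X = P.val (X / Y) * P.val Y := by
        rw [← Place.val_mul htr P hW hYO, div_mul_cancel₀ _ hY]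
      rw [h8, h2, h7, div_mul_cancel₀ _ h4]

/-- what both charts have in common -/
private theorem ib_local {F : ℂ × ℂ → ℂ × ℂ} (hF : ContDiff ℝ 1 F)
    {G : Set ℂ} (hG : IsOpen G) {Φ : ℂ → ℂ × ℂ} (hΦ : ∀ z ∈ G, HasDerivAt Φ (F (Φ z)) z)
    (hb : ∀ z ∉ G, Tendsto (fun w => ‖Φ w‖) (𝓝[G] z) atTop)
    {ρ : ℝ → ℂ} (hρ : ContinuousOn ρ (Icc 0 1)) {zf : ℝ → ℂ} {y : ℝ → ℂ × ℂ}
    (hz : ∀ s ∈ Icc (0 : ℝ) 1, HasDerivWithinAt zf (ρ s) (Icc 0 1) s)
    {Q : ℝ → Prop} {x : ℝ} (hx : x ∈ Icc (0 : ℝ) 1)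
    (hy : ∀ᶠ s in 𝓝[Icc 0 1] x, HasDerivWithinAt y (ρ s • F (y s)) (Icc 0 1) s ∧
      (Q s ↔ (zf s ∈ G ∧ y s = Φ (zf s)))) :
    ∀ᶠ s in 𝓝[Icc 0 1] x, (Q x → Q s) ∧ (Q s → Q x) := by
  rw [eventually_nhdsWithin_iff, Metric.eventually_nhds_iff] at hy
  obtain ⟨δ, hδ, h1⟩ := hy
  rw [eventually_nhdsWithin_iff, Metric.eventually_nhds_iff]
  refine ⟨δ, hδ, fun t htδ ht => ?_⟩
  have hu : min x t ∈ Icc (0 : ℝ) 1 := ⟨le_min hx.1 ht.1, (min_le_left _ _).trans hx.2⟩
  have hv : max x t ∈ Icc (0 : ℝ) 1 := ⟨hx.1.trans (le_max_left _ _), max_le hx.2 ht.2⟩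
  have hsub : Icc (min x t) (max x t) ⊆ Icc (0 : ℝ) 1 := Icc_subset_Icc hu.1 hv.2
  have hin : ∀ r ∈ Icc (min x t) (max x t), HasDerivWithinAt y (ρ r • F (y r)) (Icc 0 1) r ∧
      (Q r ↔ (zf r ∈ G ∧ y r = Φ (zf r))) := by
    intro r hr
    refine h1 ?_ (hsub hr)
    rw [Real.dist_eq] at htδ ⊢
    refine lt_of_le_of_lt ?_ htδ
    rcases le_total x t with hxt | hxt
    · rw [min_eq_left hxt, max_eq_right hxt] at hr
      rw [abs_of_nonneg (by linarith [hr.1]), abs_of_nonneg (by linarith)]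
      linarith [hr.2]
    · rw [min_eq_right hxt, max_eq_left hxt] at hr
      rw [abs_of_nonpos (by linarith [hr.2]), abs_of_nonpos (by linarith)]
      linarith [hr.1]
  have hxm : x ∈ Icc (min x t) (max x t) := ⟨min_le_left _ _, le_max_left _ _⟩
  have htm : t ∈ Icc (min x t) (max x t) := ⟨min_le_right _ _, le_max_right _ _⟩
  have key : ∀ a ∈ Icc (min x t) (max x t), ∀ b ∈ Icc (min x t) (max x t), Q a → Q b := by
    intro a ha b hb' hQ
    rw [(hin a ha).2] at hQ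
    rw [(hin b hb').2]
    exact ib_ode hF hG hΦ hb (hρ.mono hsub) (fun s hs => (hz s (hsub hs)).mono hsub)
      (fun s hs => (hin s hs).1.mono hsub) ha hQ b hb'
  exact ⟨key x hxm t htm, key t htm x hxm⟩

theorem lift_path (htr : Algebra.trdeg ℂ L = 1) (γ : Arc L)
    (hp : ∀ s ∈ Icc (0 : ℝ) 1, ∃ p, (γ.pt s).IsParam p) {X Y : L} (hXY : Y ^ 2 = X ^ 3 - X)
    (hY : Y ≠ 0) {η : Ω[L⁄ℂ]} (hη : D ℂ L X = Y • η) {ρ : ℝ → ℂ} (hρ : γ.Density η ρ) {z₀ : ℂ}
    (h0 : AtE (γ.pt 0) X Y z₀) :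
    ∀ s ∈ Icc (0 : ℝ) 1, AtE (γ.pt s) X Y (z₀ + ∫ r in (0 : ℝ)..s, ρ r) := by
  set zf : ℝ → ℂ := fun s => z₀ + ∫ r in (0 : ℝ)..s, ρ r with hzf
  have hz := ib_int hρ.1 z₀
  rw [← hzf] at hz
  have key : ∀ x ∈ Icc (0 : ℝ) 1, ∀ᶠ s in 𝓝[Icc 0 1] x,
      (AtE (γ.pt x) X Y (zf x) → AtE (γ.pt s) X Y (zf s)) ∧
      (AtE (γ.pt s) X Y (zf s) → AtE (γ.pt x) X Y (zf x)) := by
    intro x hx
    by_cases hXO : X ∈ (γ.pt x).O
    · refine ib_local ib_cdA ib_openA ib_derA ib_blowA hρ.1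
        (y := fun s => ((γ.pt s).val X, (γ.pt s).val Y))
        (Q := fun s => AtE (γ.pt s) X Y (zf s)) hz hx ?_
      filter_upwards [γ.regular x hx X hXO, self_mem_nhdsWithin] with s hs hs1
      have hYs := ib_Y_mem hXY hs
      refine ⟨?_, ib_iffA hs hYs _⟩
      have h1 := hρ.deriv htr hs1 (hp s hs1) hs hYs hη
      have h2 := hρ.deriv htr hs1 (hp s hs1) hYs
        (k := algebraMap ℂ L (3 / 2) * (X * X) + algebraMap ℂ L (-1 / 2))
        (add_mem (mul_mem ((γ.pt s).base _) (mul_mem hs hs)) ((γ.pt s).base _))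
        (ib_DY hXY hY hη)
      rw [Place.val_add htr _ (mul_mem ((γ.pt s).base _) (mul_mem hs hs)) ((γ.pt s).base _),
        Place.val_mul htr _ ((γ.pt s).base _) (mul_mem hs hs), Place.val_mul htr _ hs hs,
        Place.val_algebraMap, Place.val_algebraMap] at h2
      convert h1.prodMk h2 using 1
      simp only [ib_FA, Prod.smul_mk, smul_eq_mul, Prod.mk.injEq]
      constructor <;> ring
    · obtain ⟨hW, hZ⟩ := ib_pole hXY hXO
      refine ib_local ib_cdB ib_openB ib_derB ib_blowB hρ.1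
        (y := fun s => ((γ.pt s).val (X / Y), (γ.pt s).val (1 / Y)))
        (Q := fun s => AtE (γ.pt s) X Y (zf s)) hz hx ?_
      filter_upwards [γ.regular x hx _ ((γ.pt x).O.nonunits_subset hW),
        γ.regular x hx _ ((γ.pt x).O.nonunits_subset hZ), self_mem_nhdsWithin]
        with s hWs hZs hs1
      refine ⟨?_, ib_iffB htr hXY hY hWs hZs _⟩
      have h1 := hρ.deriv htr hs1 (hp s hs1) hWs
        (k := algebraMap ℂ L (-1) * ((X / Y) * (1 / Y)) + algebraMap ℂ L (-1 / 2))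
        (add_mem (mul_mem ((γ.pt s).base _) (mul_mem hWs hZs)) ((γ.pt s).base _))
        (ib_DW hXY hY hη)
      rw [Place.val_add htr _ (mul_mem ((γ.pt s).base _) (mul_mem hWs hZs)) ((γ.pt s).base _),
        Place.val_mul htr _ ((γ.pt s).base _) (mul_mem hWs hZs), Place.val_mul htr _ hWs hZs,
        Place.val_algebraMap, Place.val_algebraMap] at h1
      have h2 := hρ.deriv htr hs1 (hp s hs1) hZs
        (k := algebraMap ℂ L (-3 / 2) * ((X / Y) * (X / Y)) +
          algebraMap ℂ L (1 / 2) * ((1 / Y) * (1 / Y)))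
        (add_mem (mul_mem ((γ.pt s).base _) (mul_mem hWs hWs))
          (mul_mem ((γ.pt s).base _) (mul_mem hZs hZs)))
        (ib_DZ hXY hY hη)
      rw [Place.val_add htr _ (mul_mem ((γ.pt s).base _) (mul_mem hWs hWs))
          (mul_mem ((γ.pt s).base _) (mul_mem hZs hZs)),
        Place.val_mul htr _ ((γ.pt s).base _) (mul_mem hWs hWs), Place.val_mul htr _ hWs hWs,
        Place.val_mul htr _ ((γ.pt s).base _) (mul_mem hZs hZs), Place.val_mul htr _ hZs hZs,
        Place.val_algebraMap, Place.val_algebraMap] at h2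
      convert h1.prodMk h2 using 1
      simp only [ib_FB, Prod.smul_mk, smul_eq_mul, Prod.mk.injEq]
      constructor <;> ring
  have h00 : AtE (γ.pt 0) X Y (zf 0) := by
    rw [hzf]
    simpa using h0
  intro s hs
  exact isPreconnected_Icc.induction₂'
    (fun x t => AtE (γ.pt x) X Y (zf x) → AtE (γ.pt t) X Y (zf t)) key
    (fun a b c _ _ _ hab hbc h => hbc (hab h)) (left_mem_Icc.mpr zero_le_one) hs h00

end Pool.Agent.Arith
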