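import Pool.Agent.Lib.MP_c0402d_ag.IA
import Pool.Agent.Lib.MP_c0402d_ag.GB

/-!
# JOB IC: the two maps to the elliptic curve
-/

set_option autoImplicit false

namespace Pool.Agent.Arith

open KaehlerDifferential Polynomial

/-- `√-2` -/
noncomputable def s2 : ℂ := Complex.I * (Real.sqrt 2 : ℂ)

theorem s2_sq : s2 ^ 2 = -2 := by
  unfold s2
  rw [mul_pow, Complex.I_sq, ← Complex.ofReal_pow, Real.sq_sqrt (by norm_num)]
  push_cast
  ring

private theorem ic_s2_ne : s2 ≠ 0 := by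
  intro h
  have h1 := s2_sq
  rw [h] at h1
  norm_num at h1

variable {L : Type} [Field L] [Algebra ℂ L]

noncomputable def Chart.xx (C : Chart ℂ L) (t : ℂ) : L := C.v ^ 2 + algebraMap ℂ L t
noncomputable def Chart.AA (C : Chart ℂ L) (t : ℂ) : L := 3 * C.xx t ^ 2 + 4 * C.xx t + 2
noncomputable def Chart.X1 (C : Chart ℂ L) (t : ℂ) : L := -2 * (2 * C.xx t + 1) / C.AA t
noncomputable def Chart.Y1 (C : Chart ℂ L) (t : ℂ) : L := C.xx t * C.y / C.AA t ^ 2
noncomputable def Chart.X2 (C : Chart ℂ L) (t : ℂ) : L := C.X1 t - 1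
noncomputable def Chart.Y2 (C : Chart ℂ L) (t : ℂ) : L :=
  algebraMap ℂ L s2 * (C.xx t + 1) * C.y / C.AA t ^ 2
noncomputable def Chart.om (C : Chart ℂ L) : Ω[L⁄ℂ] := (2 * C.v / C.y) • D ℂ L C.v
noncomputable def Chart.eta1 (C : Chart ℂ L) (t : ℂ) : Ω[L⁄ℂ] := (12 * (C.xx t + 1)) • C.om
noncomputable def Chart.eta2 (C : Chart ℂ L) (t : ℂ) : Ω[L⁄ℂ] :=
  (algebraMap ℂ L (12 / s2) * C.xx t) • C.om

/-- the values at the points over `x = t`; `A(t) = 3t² + 4t + 2` -/
noncomputable def vA (t : ℂ) : ℂ := 3 * t ^ 2 + 4 * t + 2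
noncomputable def vX (t : ℂ) : ℂ := -2 * (2 * t + 1) / vA t

private theorem ic_fR_eval (t : ℂ) : (fR ℂ).eval t =
    6 * (2 * t + 1) * (3 * t + 2) * (t + 2) * (3 * t ^ 2 + 4 * t + 2) := by
  unfold fR
  simp

/-- `f` has the value `c` at the place `P` -/
private def icV (P : Place ℂ L) (f : L) (c : ℂ) : Prop := f - algebraMap ℂ L c ∈ P.O.nonunits

section icV

variable {P : Place ℂ L} {f g : L} {c d : ℂ}

private theorem icV_val (h : icV P f c) : P.O.valuation (f - algebraMap ℂ L c) < 1 := h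

private theorem icV_const (c : ℂ) : icV P (algebraMap ℂ L c) c := by
  show P.O.valuation _ < 1
  rw [sub_self, map_zero]
  exact zero_lt_one

private theorem icV_of {h : L} (hh : h ∈ P.O.nonunits) (e : f - algebraMap ℂ L c = h) :
    icV P f c := by
  unfold icV
  rw [e]
  exact hh

private theorem ic_nonunits_mem (h : f ∈ P.O.nonunits) : f ∈ P.O := by
  have h1 : P.O.valuation f < 1 := h
  exact (P.O.valuation_le_one_iff f).1 h1.le

private theorem icV_mem (h : icV P f c) : f ∈ P.O := by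
  have h1 := ic_nonunits_mem h
  have h2 := P.O.add_mem _ _ h1 (P.base c)
  rwa [sub_add_cancel] at h2

private theorem icV_add (hf : icV P f c) (hg : icV P g d) : icV P (f + g) (c + d) := by
  show P.O.valuation _ < 1
  rw [map_add, show f + g - (algebraMap ℂ L c + algebraMap ℂ L d) =
    (f - algebraMap ℂ L c) + (g - algebraMap ℂ L d) by ring]
  exact lt_of_le_of_lt (P.O.valuation.map_add _ _) (max_lt (icV_val hf) (icV_val hg))

private theorem ic_mul_lt {a b : L} (ha : P.O.valuation a < 1) (hb : b ∈ P.O) :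
    P.O.valuation (a * b) < 1 := by
  rw [map_mul]
  have h1 := (P.O.valuation_le_one_iff b).2 hb
  calc P.O.valuation a * P.O.valuation b ≤ P.O.valuation a * 1 := mul_le_mul_right h1 _
    _ < 1 := by rwa [mul_one]

private theorem icV_mul (hf : icV P f c) (hg : icV P g d) : icV P (f * g) (c * d) := by
  show P.O.valuation _ < 1
  rw [map_mul, show f * g - algebraMap ℂ L c * algebraMap ℂ L d =
    (f - algebraMap ℂ L c) * g + (g - algebraMap ℂ L d) * algebraMap ℂ L c by ring]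
  exact lt_of_le_of_lt (P.O.valuation.map_add _ _)
    (max_lt (ic_mul_lt (icV_val hf) (icV_mem hg)) (ic_mul_lt (icV_val hg) (P.base c)))

private theorem icV_neg (hf : icV P f c) : icV P (-f) (-c) := by
  have h := icV_mul (icV_const (P := P) (-1)) hf
  rw [map_neg, map_one, neg_one_mul, neg_one_mul] at h
  exact h

private theorem icV_sub (hf : icV P f c) (hg : icV P g d) : icV P (f - g) (c - d) := by
  rw [sub_eq_add_neg, sub_eq_add_neg]
  exact icV_add hf (icV_neg hg)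

private theorem icV_pow (hf : icV P f c) (n : ℕ) : icV P (f ^ n) (c ^ n) := by
  induction n with
  | zero =>
      rw [pow_zero, pow_zero]
      have h := icV_const (P := P) 1
      rwa [map_one] at h
  | succ n ih => rw [pow_succ, pow_succ]; exact icV_mul ih hf

private theorem icV_val_one (hf : icV P f c) (hc : c ≠ 0) : P.O.valuation f = 1 := by
  have h1 : P.O.valuation (algebraMap ℂ L c) = 1 := by
    have a1 := (P.O.valuation_le_one_iff _).2 (P.base c)
    have a2 := (P.O.valuation_le_one_iff _).2 (P.base c⁻¹)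
    have a3 : algebraMap ℂ L c * algebraMap ℂ L c⁻¹ = 1 := by
      rw [← map_mul, mul_inv_cancel₀ hc, map_one]
    have a4 : P.O.valuation (algebraMap ℂ L c) * P.O.valuation (algebraMap ℂ L c⁻¹) = 1 := by
      rw [← map_mul, a3, map_one]
    apply le_antisymm a1
    calc 1 = P.O.valuation (algebraMap ℂ L c) * P.O.valuation (algebraMap ℂ L c⁻¹) := a4.symm
      _ ≤ P.O.valuation (algebraMap ℂ L c) * 1 := mul_le_mul_right a2 _
      _ = _ := mul_one _
  have h2 : f = algebraMap ℂ L c + (f - algebraMap ℂ L c) := by ring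
  rw [h2, P.O.valuation.map_add_eq_of_lt_left (by rw [h1]; exact icV_val hf), h1]

private theorem icV_ne (hf : icV P f c) (hc : c ≠ 0) : f ≠ 0 := by
  rintro rfl
  have h := icV_val_one hf hc
  rw [map_zero] at h
  exact zero_ne_one h

private theorem icV_inv (hf : icV P f c) (hc : c ≠ 0) : icV P f⁻¹ c⁻¹ := by
  have hf0 := icV_ne hf hc
  have hc0 : algebraMap ℂ L c ≠ 0 := by
    intro h
    exact hc ((algebraMap ℂ L).injective (by rw [h, map_zero]))
  have h1 : P.O.valuation f⁻¹ = 1 := by rw [map_inv₀, icV_val_one hf hc, inv_one]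
  show P.O.valuation _ < 1
  rw [map_inv₀ (algebraMap ℂ L), show f⁻¹ - (algebraMap ℂ L c)⁻¹ =
    -((f - algebraMap ℂ L c) * (f⁻¹ * (algebraMap ℂ L c)⁻¹)) by field_simp; ring,
    Valuation.map_neg]
  apply ic_mul_lt (icV_val hf)
  apply P.O.mul_mem
  · exact (P.O.valuation_le_one_iff _).1 h1.le
  · rw [← map_inv₀]
    exact P.base _

private theorem icV_div (hf : icV P f c) (hg : icV P g d) (hd : d ≠ 0) :
    icV P (f / g) (c / d) := by
  rw [div_eq_mul_inv, div_eq_mul_inv]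
  exact icV_mul hf (icV_inv hg hd)

private theorem icV_nat (n : ℕ) [n.AtLeastTwo] :
    icV P (OfNat.ofNat n : L) (OfNat.ofNat n : ℂ) := by
  have h := icV_const (P := P) (OfNat.ofNat n : ℂ)
  rwa [map_ofNat] at h

private theorem icV_one : icV P (1 : L) 1 := by
  have h := icV_const (P := P) 1
  rwa [map_one] at h

end icV

variable (C : Chart ℂ L) {t : ℂ} (ht : (fR ℂ).eval t ≠ 0) (hC : C.F = Ft t)

include ht in
theorem vA_ne_zero : vA t ≠ 0 := by
  intro h
  apply ht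
  rw [ic_fR_eval]
  unfold vA at h
  rw [h, mul_zero]

include ht in
/-- `vX t = 0` iff `t = -1/2`; `vX t = 1` iff `(3 t + 2) (t + 2) = 0` -/
theorem vX_ne : vX t ≠ 0 ∧ vX t ≠ 1 := by
  have hA := vA_ne_zero ht
  have h1 := ht
  rw [ic_fR_eval] at h1
  have h2 : 2 * t + 1 ≠ 0 := by
    intro h
    apply h1
    rw [h]
    ring
  have h3 : 3 * t + 2 ≠ 0 := by
    intro h
    apply h1
    rw [h]
    ring
  have h4 : t + 2 ≠ 0 := by
    intro h
    apply h1
    rw [h]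
    ring
  unfold vX
  constructor
  · exact div_ne_zero (mul_ne_zero (by norm_num) h2) hA
  · intro h
    rw [div_eq_one_iff_eq hA] at h
    unfold vA at h
    have h5 : (3 * t + 2) * (t + 2) = 0 := by linear_combination -h
    rcases mul_eq_zero.1 h5 with h6 | h6
    · exact h3 h6
    · exact h4 h6

include hC in
private theorem ic_y_sq : C.y ^ 2 = 6 * (2 * C.xx t + 1) * (3 * C.xx t + 2) * (C.xx t + 2) *
    C.AA t := by
  rw [C.eq, hC]
  unfold Ft fR Chart.AA Chart.xx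
  rw [aeval_comp]
  simp only [map_mul, map_add, map_pow, aeval_X, aeval_C, map_one, map_ofNat]

include hC in
private theorem ic_ne : (C.xx t ≠ 0) ∧ (C.xx t + 1 ≠ 0) ∧ (2 * C.xx t + 1 ≠ 0) ∧ C.AA t ≠ 0 := by
  have hy := ic_y_sq C hC
  have h0 : C.y ^ 2 ≠ 0 := pow_ne_zero 2 C.y_ne_zero
  rw [hy] at h0
  have htr : ∀ c : ℂ, C.xx t + algebraMap ℂ L c ≠ 0 := by
    intro c h
    have h1 : aeval C.v (X ^ 2 + Polynomial.C (t + c)) = 0 := by
      rw [map_add, map_pow, aeval_X, aeval_C, map_add]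
      unfold Chart.xx at h
      rw [← h]
      ring
    have h2 := (transcendental_iff.1 C.trans) _ h1
    have h3 := congrArg (fun p : ℂ[X] => p.coeff 2) h2
    simp [coeff_X_pow] at h3
  refine ⟨?_, ?_, ?_, ?_⟩
  · have := htr 0
    rwa [map_zero, add_zero] at this
  · have := htr 1
    rwa [map_one] at this
  · intro h
    apply h0
    rw [h]
    ring
  · intro h
    apply h0
    rw [h]
    ring

include ht hC

theorem Chart.curve1 : C.Y1 t ^ 2 = C.X1 t ^ 3 - C.X1 t := by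
  obtain ⟨-, -, -, hA⟩ := ic_ne C hC
  have hy := ic_y_sq C hC
  unfold Chart.Y1 Chart.X1
  rw [div_pow, mul_pow, hy]
  have e : C.AA t = 3 * C.xx t ^ 2 + 4 * C.xx t + 2 := rfl
  field_simp
  rw [e]
  ring

theorem Chart.curve2 : C.Y2 t ^ 2 = C.X2 t ^ 3 - C.X2 t := by
  obtain ⟨-, -, -, hA⟩ := ic_ne C hC
  have hy := ic_y_sq C hC
  unfold Chart.Y2 Chart.X2 Chart.X1
  have hs : algebraMap ℂ L s2 ^ 2 = -2 := by
    rw [← map_pow, s2_sq, map_neg, map_ofNat]
  rw [div_pow, mul_pow, mul_pow, hy, hs]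
  have e : C.AA t = 3 * C.xx t ^ 2 + 4 * C.xx t + 2 := rfl
  field_simp
  rw [e]
  ring

theorem Chart.Y1_ne : C.Y1 t ≠ 0 := by
  obtain ⟨h1, -, -, hA⟩ := ic_ne C hC
  exact div_ne_zero (mul_ne_zero h1 C.y_ne_zero) (pow_ne_zero 2 hA)

theorem Chart.Y2_ne : C.Y2 t ≠ 0 := by
  obtain ⟨-, h1, -, hA⟩ := ic_ne C hC
  have hs : algebraMap ℂ L s2 ≠ 0 := by
    intro h
    exact ic_s2_ne ((algebraMap ℂ L).injective (by rw [h, map_zero]))
  exact div_ne_zero (mul_ne_zero (mul_ne_zero hs h1) C.y_ne_zero) (pow_ne_zero 2 hA)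

omit ht hC in
private theorem ic_Dxx : D ℂ L (C.xx t) = (2 * C.v) • D ℂ L C.v := by
  have h1 : C.xx t = aeval C.v (X ^ 2 + Polynomial.C t) := by
    unfold Chart.xx
    simp
  rw [h1, Derivation.map_aeval]
  congr 1
  simp only [derivative_add, derivative_C, derivative_X_pow, map_add, map_mul, map_pow, map_zero,
    aeval_X, aeval_C]
  push_cast
  simp only [map_ofNat]
  ring

omit ht in
private theorem ic_DX1 : D ℂ L (C.X1 t) =
    (12 * C.xx t * (C.xx t + 1) / C.AA t ^ 2 * (2 * C.v)) • D ℂ L C.v := by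
  obtain ⟨-, -, -, hA⟩ := ic_ne C hC
  have h1 : D ℂ L (C.AA t) = (6 * C.xx t + 4) • D ℂ L (C.xx t) := by
    have e : C.AA t = aeval (C.xx t) (Polynomial.C (3 : ℂ) * X ^ 2 + Polynomial.C (4 : ℂ) * X +
        Polynomial.C (2 : ℂ)) := by
      unfold Chart.AA
      simp only [map_add, map_mul, map_pow, aeval_X, aeval_C, map_ofNat]
    rw [e, Derivation.map_aeval]
    congr 1
    simp only [derivative_add, derivative_mul, derivative_C, derivative_X_pow, derivative_X,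
      map_add, map_mul, map_pow, map_zero, map_one, aeval_X, aeval_C]
    push_cast
    simp only [map_ofNat]
    ring
  have h2 : D ℂ L (-2 * (2 * C.xx t + 1)) = (-4 : L) • D ℂ L (C.xx t) := by
    have e : -2 * (2 * C.xx t + 1) = aeval (C.xx t) (Polynomial.C (-4 : ℂ) * X +
        Polynomial.C (-2 : ℂ)) := by
      simp only [map_add, map_mul, aeval_X, aeval_C, map_neg, map_ofNat]
      ring
    rw [e, Derivation.map_aeval]
    congr 1
    simp only [derivative_add, derivative_mul, derivative_C, derivative_X,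
      map_add, map_mul, map_zero, map_one, aeval_X, aeval_C]
    simp only [map_neg, map_ofNat]
    ring
  unfold Chart.X1
  rw [Derivation.leibniz_div, h1, h2, ic_Dxx, smul_smul, smul_smul, smul_smul, smul_smul,
    ← sub_smul, smul_smul]
  congr 1
  have e : C.AA t = 3 * C.xx t ^ 2 + 4 * C.xx t + 2 := rfl
  field_simp
  rw [e]
  ring

theorem Chart.dX1 : D ℂ L (C.X1 t) = C.Y1 t • C.eta1 t := by
  obtain ⟨-, -, -, hA⟩ := ic_ne C hC
  have hy0 := C.y_ne_zero
  rw [ic_DX1 C hC]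
  unfold Chart.eta1 Chart.om Chart.Y1
  rw [smul_smul, smul_smul]
  congr 1
  field_simp

theorem Chart.dX2 : D ℂ L (C.X2 t) = C.Y2 t • C.eta2 t := by
  obtain ⟨-, -, -, hA⟩ := ic_ne C hC
  have hy0 := C.y_ne_zero
  have hs : algebraMap ℂ L s2 ≠ 0 := by
    intro h
    exact ic_s2_ne ((algebraMap ℂ L).injective (by rw [h, map_zero]))
  have h1 : D ℂ L (C.X2 t) = D ℂ L (C.X1 t) := by
    unfold Chart.X2
    rw [map_sub, Derivation.map_one_eq_zero, sub_zero]
  rw [h1, ic_DX1 C hC]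
  unfold Chart.eta2 Chart.om Chart.Y2
  rw [smul_smul, smul_smul, map_div₀, map_ofNat]
  congr 1
  field_simp

theorem Chart.om_eq : C.om = (1 / 12 : ℂ) • C.eta1 t + (-s2 / 12 : ℂ) • C.eta2 t := by
  have hs := ic_s2_ne
  unfold Chart.eta1 Chart.eta2
  rw [← algebraMap_smul L (1 / 12 : ℂ), ← algebraMap_smul L (-s2 / 12 : ℂ), smul_smul, smul_smul,
    ← add_smul]
  have h1 : algebraMap ℂ L (1 / 12) * (12 * (C.xx t + 1)) +
      algebraMap ℂ L (-s2 / 12) * (algebraMap ℂ L (12 / s2) * C.xx t) = 1 := by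
    have a1 : algebraMap ℂ L (1 / 12) * 12 = 1 := by
      rw [show (12 : L) = algebraMap ℂ L 12 by rw [map_ofNat], ← map_mul]
      norm_num
    have a2 : algebraMap ℂ L (-s2 / 12) * algebraMap ℂ L (12 / s2) = -1 := by
      rw [← map_mul, show -s2 / 12 * (12 / s2) = -1 by field_simp, map_neg, map_one]
    linear_combination (C.xx t + 1) * a1 + C.xx t * a2
  rw [h1, one_smul]

omit ht in
private theorem ic_deg : C.F.natDegree = 2 * 5 := by rw [hC, Ft_natDegree]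

private theorem ic_eval0 : C.F.eval 0 ≠ 0 := by rw [hC, Ft_eval_zero]; exact ht

omit ht hC in
private theorem ic_inv {P : Place ℂ L} (h : C.v ∉ P.O) : C.v⁻¹ ∈ P.O.nonunits := by
  have h1 : ¬ P.O.valuation C.v ≤ 1 := fun h' => h ((P.O.valuation_le_one_iff _).1 h')
  have h2 : 1 < P.O.valuation C.v := not_le.1 h1
  show P.O.valuation _ < 1
  rw [map_inv₀]
  exact inv_lt_one_of_one_lt₀ h2

/-- At infinity, `1/v` is a parameter and `y/v⁵` has a nonzero value. -/
private theorem ic_inf {P : Place ℂ L} (h : C.v ∉ P.O) :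
    P.IsParam C.v⁻¹ ∧ ∃ b : ℂ, b ≠ 0 ∧ icV P (C.y / C.v ^ 5) b := by
  have hd := ic_deg C hC
  have h0 := ic_eval0 C ht hC
  have hv : (C.infEven 5 hd h0).v = C.v⁻¹ := rfl
  have hy : (C.infEven 5 hd h0).y = C.y / C.v ^ 5 := rfl
  have hm := ic_nonunits_mem (ic_inv C h)
  obtain ⟨a, b, hab⟩ := (C.infEven 5 hd h0).exists_center (P := P) (by rw [hv]; exact hm)
  have ha : a = 0 := by
    have h1 : C.v⁻¹ - algebraMap ℂ L a ∈ P.O.nonunits := by
      rw [← hv]
      exact hab.1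
    have h2 : C.v⁻¹ - algebraMap ℂ L 0 ∈ P.O.nonunits := by
      rw [map_zero, sub_zero]
      exact ic_inv C h
    exact Place.value_unique h1 h2
  subst ha
  have hb : b ≠ 0 := by
    intro hb
    have h3 := hab.eq
    rw [hb] at h3
    have h4 : (C.infEven 5 hd h0).F = C.F.reverse := rfl
    rw [h4] at h3
    have h5 : C.F.reverse.eval 0 = C.F.leadingCoeff := by
      rw [← coeff_zero_eq_eval_zero, coeff_zero_reverse]
    rw [h5] at h3
    have h6 : C.F ≠ 0 := by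
      intro h7
      rw [h7] at h0
      simp at h0
    apply h6
    rw [← leadingCoeff_eq_zero, ← h3]
    ring
  refine ⟨?_, b, hb, ?_⟩
  · have h7 := (C.infEven 5 hd h0).param_of_ne hab hb
    rw [hv, map_zero, sub_zero] at h7
    exact h7
  · have h8 := hab.2
    rw [hy] at h8
    exact h8

theorem Chart.exists_param (P : Place ℂ L) : ∃ p, P.IsParam p := by
  by_cases h : C.v ∈ P.O
  · obtain ⟨a, b, hab⟩ := C.exists_center h
    by_cases hb : b = 0
    · subst hb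
      exact ⟨_, C.param_of_eq hab⟩
    · exact ⟨_, C.param_of_ne hab hb⟩
  · exact ⟨_, (ic_inf C ht hC h).1⟩

theorem Chart.regular_om (P : Place ℂ L) : ∃ f ∈ P.O, ∃ g ∈ P.O, C.om = f • D ℂ L g := by
  have key : ∀ m, OrdAt P C.om m → ∃ f ∈ P.O, ∃ g ∈ P.O, C.om = f • D ℂ L g := by
    rintro m ⟨p, u, hp, hu, -, h⟩
    have hpm := ic_nonunits_mem hp.2.1
    exact ⟨u * p ^ m, P.O.mul_mem _ _ hu (pow_mem hpm m), p, hpm, h⟩
  by_cases h : C.v ∈ P.O
  · obtain ⟨a, b, hab⟩ := C.exists_center h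
    exact key _ (ordAt_finite ht C hC hab)
  · exact key _ (ordAt_infinite ht C hC h)

/-- Multiples of `ω` by polynomials of degree one in `x` are regular. -/
private theorem ic_regular (P : Place ℂ L) (c d : ℂ) :
    ∃ f ∈ P.O, ∃ g ∈ P.O,
      (algebraMap ℂ L c * C.xx t + algebraMap ℂ L d) • C.om = f • D ℂ L g := by
  by_cases h : C.v ∈ P.O
  · obtain ⟨f, hf, g, hg, hfg⟩ := C.regular_om ht hC P
    refine ⟨(algebraMap ℂ L c * C.xx t + algebraMap ℂ L d) * f, ?_, g, hg, ?_⟩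
    · apply P.O.mul_mem _ _ _ hf
      apply P.O.add_mem _ _ _ (P.base d)
      apply P.O.mul_mem _ _ (P.base c)
      exact P.O.add_mem _ _ (pow_mem h 2) (P.base t)
    · rw [hfg, smul_smul]
  · have hp := (ic_inf C ht hC h).1
    have hm := ic_nonunits_mem hp.2.1
    obtain ⟨u, hu, -, hω⟩ := (ordAt_infinite ht C hC h).param C.trdeg hp
    have hv0 : C.v ≠ 0 := by
      intro h0
      rw [h0] at h
      exact h P.O.zero_mem
    refine ⟨(algebraMap ℂ L c + (algebraMap ℂ L c * algebraMap ℂ L t + algebraMap ℂ L d) *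
      C.v⁻¹ ^ 2) * u, ?_, C.v⁻¹, hm, ?_⟩
    · apply P.O.mul_mem _ _ _ hu
      apply P.O.add_mem _ _ (P.base c)
      apply P.O.mul_mem _ _ _ (pow_mem hm 2)
      exact P.O.add_mem _ _ (P.O.mul_mem _ _ (P.base c) (P.base t)) (P.base d)
    · have hω' : C.om = (u * C.v⁻¹ ^ 2) • D ℂ L C.v⁻¹ := hω
      rw [hω', smul_smul]
      congr 1
      unfold Chart.xx
      field_simp
      ring

theorem Chart.regular_eta1 (P : Place ℂ L) : ∃ f ∈ P.O, ∃ g ∈ P.O, C.eta1 t = f • D ℂ L g := by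
  have h := ic_regular C ht hC P 12 12
  have e : algebraMap ℂ L 12 * C.xx t + algebraMap ℂ L 12 = 12 * (C.xx t + 1) := by
    rw [map_ofNat]
    ring
  rw [e] at h
  exact h

theorem Chart.regular_eta2 (P : Place ℂ L) : ∃ f ∈ P.O, ∃ g ∈ P.O, C.eta2 t = f • D ℂ L g := by
  have h := ic_regular C ht hC P (12 / s2) 0
  rw [map_zero, add_zero] at h
  exact h

/-- values at the points at infinity -/
theorem Chart.values_inf {P : Place ℂ L} (h : C.v ∉ P.O) :
    C.X1 t ∈ P.O ∧ C.Y1 t ∈ P.O ∧ C.X2 t ∈ P.O ∧ C.Y2 t ∈ P.O ∧ P.val (C.X1 t) = 0 ∧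
      P.val (C.Y1 t) = 0 ∧ P.val (C.X2 t) = -1 ∧ P.val (C.Y2 t) = 0 := by
  obtain ⟨-, -, -, hA⟩ := ic_ne C hC
  obtain ⟨hp, b, hb, hy⟩ := ic_inf C ht hC h
  have hv0 : C.v ≠ 0 := by
    intro h0
    rw [h0] at h
    exact h P.O.zero_mem
  obtain ⟨w, hw⟩ : ∃ w, C.v⁻¹ = w := ⟨_, rfl⟩
  have hw0 : w ≠ 0 := by rw [← hw]; exact inv_ne_zero hv0
  have hvw : C.v = w⁻¹ := by rw [← hw, inv_inv]
  have hwV : icV P w 0 := by
    show w - algebraMap ℂ L 0 ∈ _
    rw [map_zero, sub_zero, ← hw]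
    exact hp.2.1
  obtain ⟨y', hy'⟩ : ∃ y', C.y / C.v ^ 5 = y' := ⟨_, rfl⟩
  rw [hy'] at hy
  have hyv : C.y = y' * w⁻¹ ^ 5 := by
    rw [← hy', hvw]
    field_simp
  have ht' := icV_const (P := P) t
  -- `x = x' / w²`
  obtain ⟨x', hx'⟩ : ∃ x', x' = 1 + algebraMap ℂ L t * w ^ 2 := ⟨_, rfl⟩
  have hx'V : icV P x' (1 + t * 0 ^ 2) := by
    rw [hx']
    exact icV_add icV_one (icV_mul ht' (icV_pow hwV 2))
  have hx : C.xx t = x' * w⁻¹ ^ 2 := by
    unfold Chart.xx
    rw [hvw, hx']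
    field_simp
  obtain ⟨A', hA'⟩ : ∃ A', A' = 3 * x' ^ 2 + 4 * x' * w ^ 2 + 2 * w ^ 4 := ⟨_, rfl⟩
  have hA'V : icV P A' (3 * (1 + t * 0 ^ 2) ^ 2 + 4 * (1 + t * 0 ^ 2) * 0 ^ 2 + 2 * 0 ^ 4) := by
    rw [hA']
    exact icV_add (icV_add (icV_mul (icV_nat 3) (icV_pow hx'V 2))
      (icV_mul (icV_mul (icV_nat 4) hx'V) (icV_pow hwV 2))) (icV_mul (icV_nat 2) (icV_pow hwV 4))
  have e3 : (3 * (1 + t * 0 ^ 2) ^ 2 + 4 * (1 + t * 0 ^ 2) * 0 ^ 2 + 2 * 0 ^ 4 : ℂ) = 3 := by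
    ring
  have e1 : (1 + t * 0 ^ 2 : ℂ) = 1 := by ring
  rw [e3] at hA'V
  rw [e1] at hx'V
  have hA'0 : A' ≠ 0 := icV_ne hA'V (by norm_num)
  have hAA : C.AA t = A' * w⁻¹ ^ 4 := by
    unfold Chart.AA
    rw [hx, hA']
    field_simp
  have hX1 : C.X1 t = -(2 * w ^ 2 * (2 * x' + w ^ 2) / A') := by
    unfold Chart.X1
    rw [hAA, hx]
    field_simp
  have hY1 : C.Y1 t = x' * y' * w / A' ^ 2 := by
    unfold Chart.Y1
    rw [hAA, hx, hyv]
    field_simp
  have hY2 : C.Y2 t = algebraMap ℂ L s2 * (x' + w ^ 2) * y' * w / A' ^ 2 := by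
    unfold Chart.Y2
    rw [hAA, hx, hyv]
    field_simp
  have v1 : icV P (C.X1 t) (-(2 * 0 ^ 2 * (2 * 1 + 0 ^ 2) / 3)) := by
    rw [hX1]
    exact icV_neg (icV_div (icV_mul (icV_mul (icV_nat 2) (icV_pow hwV 2))
      (icV_add (icV_mul (icV_nat 2) hx'V) (icV_pow hwV 2))) hA'V (by norm_num))
  have v2 : icV P (C.Y1 t) (1 * b * 0 / 3 ^ 2) := by
    rw [hY1]
    exact icV_div (icV_mul (icV_mul hx'V hy) hwV) (icV_pow hA'V 2) (by norm_num)
  have v4 : icV P (C.Y2 t) (s2 * (1 + 0 ^ 2) * b * 0 / 3 ^ 2) := by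
    rw [hY2]
    exact icV_div (icV_mul (icV_mul (icV_mul (icV_const _) (icV_add hx'V (icV_pow hwV 2))) hy)
      hwV) (icV_pow hA'V 2) (by norm_num)
  have v3 : icV P (C.X2 t) (-(2 * 0 ^ 2 * (2 * 1 + 0 ^ 2) / 3) - 1) := by
    unfold Chart.X2
    exact icV_sub v1 icV_one
  refine ⟨icV_mem v1, icV_mem v2, icV_mem v3, icV_mem v4, ?_, ?_, ?_, ?_⟩
  · rw [Place.val_eq v1]; norm_num
  · rw [Place.val_eq v2]; norm_num
  · rw [Place.val_eq v3]; norm_num
  · rw [Place.val_eq v4]; norm_num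

/-- values at the points `(0, b)` -/
theorem Chart.values_zero {P : Place ℂ L} {b : ℂ} (h : C.At P 0 b) :
    C.X1 t ∈ P.O ∧ C.Y1 t ∈ P.O ∧ C.X2 t ∈ P.O ∧ C.Y2 t ∈ P.O ∧ P.val (C.X1 t) = vX t ∧
      P.val (C.Y1 t) = t * b / vA t ^ 2 ∧ P.val (C.X2 t) = vX t - 1 ∧
      P.val (C.Y2 t) = s2 * (t + 1) * b / vA t ^ 2 := by
  have hA := vA_ne_zero ht
  have hv : icV P C.v 0 := h.1
  have hy : icV P C.y b := h.2
  have hx : icV P (C.xx t) t := by
    have h1 := icV_add (icV_pow hv 2) (icV_const (P := P) t)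
    have e : (0 ^ 2 + t : ℂ) = t := by ring
    rw [e] at h1
    exact h1
  have hAV : icV P (C.AA t) (vA t) :=
    icV_add (icV_add (icV_mul (icV_nat 3) (icV_pow hx 2)) (icV_mul (icV_nat 4) hx)) (icV_nat 2)
  have v1 : icV P (C.X1 t) (vX t) :=
    icV_div (icV_mul (icV_neg (icV_nat 2)) (icV_add (icV_mul (icV_nat 2) hx) icV_one)) hAV hA
  have v2 : icV P (C.Y1 t) (t * b / vA t ^ 2) :=
    icV_div (icV_mul hx hy) (icV_pow hAV 2) (pow_ne_zero 2 hA)
  have v3 : icV P (C.X2 t) (vX t - 1) := icV_sub v1 icV_one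
  have v4 : icV P (C.Y2 t) (s2 * (t + 1) * b / vA t ^ 2) :=
    icV_div (icV_mul (icV_mul (icV_const _) (icV_add hx icV_one)) hy) (icV_pow hAV 2)
      (pow_ne_zero 2 hA)
  exact ⟨icV_mem v1, icV_mem v2, icV_mem v3, icV_mem v4, Place.val_eq v1, Place.val_eq v2,
    Place.val_eq v3, Place.val_eq v4⟩

/-- value at a Weierstrass point over `x = -2` -/
theorem Chart.value_weierstrass {P : Place ℂ L} {a : ℂ} (h : C.At P a 0) (ha : a ^ 2 + t = -2) :
    C.X1 t ∈ P.O ∧ P.val (C.X1 t) = 1 := by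
  have hv : icV P C.v a := h.1
  have hx : icV P (C.xx t) (-2) := by
    have h1 := icV_add (icV_pow hv 2) (icV_const (P := P) t)
    rw [ha] at h1
    exact h1
  have hAV : icV P (C.AA t) (3 * (-2) ^ 2 + 4 * (-2) + 2) :=
    icV_add (icV_add (icV_mul (icV_nat 3) (icV_pow hx 2)) (icV_mul (icV_nat 4) hx)) (icV_nat 2)
  have v1 : icV P (C.X1 t) (-2 * (2 * (-2) + 1) / (3 * (-2) ^ 2 + 4 * (-2) + 2)) :=
    icV_div (icV_mul (icV_neg (icV_nat 2)) (icV_add (icV_mul (icV_nat 2) hx) icV_one)) hAV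
      (by norm_num)
  have e : (-2 * (2 * (-2) + 1) / (3 * (-2) ^ 2 + 4 * (-2) + 2) : ℂ) = 1 := by norm_num
  rw [e] at v1
  exact ⟨icV_mem v1, Place.val_eq v1⟩

/-- the zeros of `ω` -/
theorem Chart.zeros {P : Place ℂ L} {m : ℕ} (hm : m ≠ 0) (h : OrdAt P C.om m) :
    C.v ∉ P.O ∨ ∃ b, C.At P 0 b := by
  by_cases hv : C.v ∈ P.O
  · right
    obtain ⟨a, b, hab⟩ := C.exists_center hv
    have h1 := OrdAt.unique C.trdeg (ordAt_finite ht C hC hab) h
    by_cases ha : a = 0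
    · subst ha
      exact ⟨b, hab⟩
    · rw [if_neg ha] at h1
      exact absurd h1.symm hm
  · exact Or.inl hv

theorem Chart.zero_inf {P : Place ℂ L} (h : C.v ∉ P.O) : ∃ m, m ≠ 0 ∧ OrdAt P C.om m :=
  ⟨2, two_ne_zero, ordAt_infinite ht C hC h⟩

theorem Chart.zero_zero {P : Place ℂ L} {b : ℂ} (h : C.At P 0 b) :
    ∃ m, m ≠ 0 ∧ OrdAt P C.om m := by
  have h1 := ordAt_finite ht C hC h
  rw [if_pos rfl] at h1
  exact ⟨1, one_ne_zero, h1⟩

end Pool.Agent.Arith
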