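import Pool.Agent.Lib.MP_c0402d_ag.ID1

/-!
# JOB ID: two explicit arcs

Use `exists_arc` with the chart `C` for `s` in the interior and `C.infEven 5` near infinity; the points
of the two charts are matched by `(a, b) ↦ (1/a, b/a⁵)` (`Chart.at_infEven`).

`F(v) = Ft t = 108 ∏ (v - r_k)`, ten distinct nonzero roots `r_k`. Square roots: if `N_k(s)` never
meets `d * (-∞, 0]`, then `√d √(N_k / d)` (principal branch) is a smooth square root.

* `arc_one`: `v(s) = d (1 - s) / s`, with `d` such that no `r_k / d` is a positive real number;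
  `v - r_k = N_k / s`, `N_k = d (1 - s) - r_k s`; `y = √108 ∏ √N_k / s⁵`, `1 / v = s / (d (1 - s))`,
  `y / v⁵ = √108 ∏ √N_k / (d (1 - s))⁵`. It goes from a point at infinity to a point `(0, b)`.
* `arc_two`: let `a₀² + t = -2`, `a₀` is a (nonzero) root of `F`, say `r_0`;
  `v(s) = a₀ + d (1 - 2 s)² / (s (1 - s))`; `v - r_k = N_k / (s (1 - s))`,
  `N_k = d (1 - 2 s)² + (a₀ - r_k) s (1 - s)`, `y = √108 √d (1 - 2 s) ∏_{k ≠ 0} √N_k / (s (1 - s))⁵`, and
  `1 / v = s (1 - s) / (d (1 - 2 s)² + a₀ s (1 - s))`; `d` such that `(a₀ - r_k) / d` and `a₀ / d` are not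
  in `(-∞, 0]`. It goes from one point at infinity through `(a₀, 0)` (at `s = 1/2`) to the other one,
  and `v(1 - s) = v(s)`, `y(1 - s) = - y(s)`.
-/

set_option autoImplicit false

namespace Pool.Agent.Arith

open KaehlerDifferential Polynomial Set

variable {L : Type} [Field L] [Algebra ℂ L]

/-- The principal branch of the square root of `N / d`, times `c`. -/
private noncomputable def idg (c d : ℂ) (N : ℝ → ℂ) (s : ℝ) : ℂ :=
  c * Complex.exp (Complex.log (N s / d) / 2)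

private theorem idg_sq {c d : ℂ} (hc : c ^ 2 = d) (hd : d ≠ 0) {N : ℝ → ℂ} {s : ℝ}
    (h : N s / d ∈ Complex.slitPlane) : idg c d N s ^ 2 = N s := by
  unfold idg
  rw [mul_pow, hc, ← Complex.exp_nat_mul]
  have e : ((2 : ℕ) : ℂ) * (Complex.log (N s / d) / 2) = Complex.log (N s / d) := by
    push_cast
    ring
  rw [e, Complex.exp_log (Complex.slitPlane_ne_zero h)]
  field_simp

private theorem idg_ne {c d : ℂ} (hc : c ≠ 0) (N : ℝ → ℂ) (s : ℝ) : idg c d N s ≠ 0 :=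
  mul_ne_zero hc (Complex.exp_ne_zero _)

private theorem idg_smooth {c d : ℂ} {N : ℝ → ℂ} (hN : ContDiffOn ℝ 1 N (Icc 0 1))
    (h : ∀ s ∈ Icc (0 : ℝ) 1, N s / d ∈ Complex.slitPlane) :
    ContDiffOn ℝ 1 (idg c d N) (Icc 0 1) := by
  intro s hs
  have h1 : ContDiffWithinAt ℝ 1 (fun s => N s / d) (Icc 0 1) s := (hN s hs).div_const d
  have h2 : ContDiffAt ℝ 1 Complex.log (N s / d) :=
    (Complex.contDiffAt_log (h s hs)).restrict_scalars ℝ
  have h3 : ContDiffWithinAt ℝ 1 (Complex.log ∘ fun s => N s / d) (Icc 0 1) s :=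
    ContDiffAt.comp_contDiffWithinAt s h2 h1
  exact contDiffWithinAt_const.mul (h3.div_const 2).cexp

private theorem id_div {f g : ℝ → ℂ} {s : ℝ} (hf : ContDiffWithinAt ℝ 1 f (Icc 0 1) s)
    (hg : ContDiffWithinAt ℝ 1 g (Icc 0 1) s) (h : g s ≠ 0) :
    ContDiffWithinAt ℝ 1 (fun s => f s / g s) (Icc 0 1) s := by
  simp only [div_eq_mul_inv]
  exact hf.mul (hg.inv h)

/-- Combinations of `1` and a point of the slit plane. -/
private theorem id_slit {z : ℂ} (hz : z ∈ Complex.slitPlane) {α β : ℝ} (hα : 0 ≤ α) (hβ : 0 ≤ β)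
    (h : 0 < α + β) : (α : ℂ) + β * z ∈ Complex.slitPlane := by
  rw [Complex.mem_slitPlane_iff] at hz ⊢
  simp only [Complex.add_re, Complex.ofReal_re, Complex.mul_re, Complex.ofReal_im, zero_mul,
    sub_zero, Complex.add_im, Complex.mul_im, zero_add, add_zero]
  rcases eq_or_lt_of_le hβ with hb | hb
  · left
    rw [← hb] at h ⊢
    linarith
  · rcases hz with hz | hz
    · left
      have := mul_pos hb hz
      linarith
    · right
      exact mul_ne_zero hb.ne' hz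

variable (C : Chart ℂ L) {t : ℂ} (ht : (fR ℂ).eval t ≠ 0) (hC : C.F = Ft t)

include ht hC

/-- Arcs given in homogeneous coordinates. -/
private theorem id_arc {r : Fin 10 → ℂ}
    (hr : Ft t = Polynomial.C 108 * ∏ k, (X - Polynomial.C (r k))) {M S Y : ℝ → ℂ}
    (hM : ContDiffOn ℝ 1 M (Icc 0 1)) (hS : ContDiffOn ℝ 1 S (Icc 0 1))
    (hY : ContDiffOn ℝ 1 Y (Icc 0 1)) (hMS : ∀ s ∈ Icc (0 : ℝ) 1, M s ≠ 0 ∨ S s ≠ 0)
    (heq : ∀ s ∈ Icc (0 : ℝ) 1, Y s ^ 2 = 108 * ∏ k, (M s - r k * S s)) :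
    ∃ γ : Arc L, ∀ s ∈ Icc (0 : ℝ) 1, (S s ≠ 0 → C.At (γ.pt s) (M s / S s) (Y s / S s ^ 5)) ∧
      (S s = 0 → C.v ∉ (γ.pt s).O) := by
  have hd : C.F.natDegree = 2 * 5 := by rw [hC, Ft_natDegree]
  have h0 : C.F.eval 0 ≠ 0 := by rw [hC, Ft_eval_zero]; exact ht
  have hF : ∀ a : ℂ, C.F.eval a = 108 * ∏ k, (a - r k) := by
    intro a
    rw [hC, hr, eval_mul, eval_C, eval_prod]
    simp
  have hrev : C.F.reverse.eval 0 = 108 := by
    rw [← coeff_zero_eq_eval_zero, coeff_zero_reverse, hC, hr, leadingCoeff_mul, leadingCoeff_C,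
      (monic_prod_of_monic _ _ (fun k _ => monic_X_sub_C (r k))).leadingCoeff, mul_one]
  -- the points
  have hpt : ∀ s ∈ Icc (0 : ℝ) 1, ∃ P : Place ℂ L,
      (S s ≠ 0 → C.At P (M s / S s) (Y s / S s ^ 5)) ∧
      (M s ≠ 0 → (C.infEven 5 hd h0).At P (S s / M s) (Y s / M s ^ 5)) := by
    intro s hs
    by_cases hSs : S s = 0
    · have hMs : M s ≠ 0 := (hMS s hs).resolve_right (fun h => h hSs)
      have e1 : (Y s / M s ^ 5) ^ 2 = (C.infEven 5 hd h0).F.eval (S s / M s) := by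
        show _ = C.F.reverse.eval (S s / M s)
        rw [hSs, zero_div, hrev, div_pow, heq s hs, hSs]
        simp only [mul_zero, sub_zero, Finset.prod_const, Finset.card_univ, Fintype.card_fin]
        field_simp
      obtain ⟨P, hP⟩ := (C.infEven 5 hd h0).exists_at e1
      exact ⟨P, fun h => absurd hSs h, fun _ => hP⟩
    · have e1 : (Y s / S s ^ 5) ^ 2 = C.F.eval (M s / S s) := by
        rw [hF, div_pow, heq s hs]
        have e2 : ∏ k, (M s / S s - r k) = (∏ k, (M s - r k * S s)) / S s ^ 10 := by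
          have e3 : ∀ k ∈ (Finset.univ : Finset (Fin 10)), M s / S s - r k =
              (M s - r k * S s) / S s := by
            intro k _
            field_simp
          rw [Finset.prod_congr rfl e3, Finset.prod_div_distrib]
          simp
        rw [e2]
        ring
      obtain ⟨P, hP⟩ := C.exists_at e1
      refine ⟨P, fun _ => hP, fun hMs => ?_⟩
      have h3 := (Chart.at_infEven C 5 hd h0 (div_ne_zero hMs hSs)).1 hP
      have e4 : (M s / S s)⁻¹ = S s / M s := inv_div _ _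
      have e5 : Y s / S s ^ 5 / (M s / S s) ^ 5 = Y s / M s ^ 5 := by
        field_simp
      rw [e4, e5] at h3
      exact h3
  classical
  obtain ⟨P0, -⟩ := hpt 0 ⟨le_refl _, zero_le_one⟩
  obtain ⟨pt, hptd⟩ : ∃ pt : ℝ → Place ℂ L, pt = fun s =>
      if h : s ∈ Icc (0 : ℝ) 1 then (hpt s h).choose else P0 := ⟨_, rfl⟩
  have hpt1 : ∀ s ∈ Icc (0 : ℝ) 1, (S s ≠ 0 → C.At (pt s) (M s / S s) (Y s / S s ^ 5)) ∧
      (M s ≠ 0 → (C.infEven 5 hd h0).At (pt s) (S s / M s) (Y s / M s ^ 5)) := by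
    intro s hs
    rw [hptd]
    simp only [dif_pos hs]
    exact (hpt s hs).choose_spec
  obtain ⟨γ, hγ⟩ := exists_arc pt (by
    intro s₀ hs₀
    by_cases hSs : S s₀ = 0
    · have hMs : M s₀ ≠ 0 := (hMS s₀ hs₀).resolve_right (fun h => h hSs)
      refine ⟨C.infEven 5 hd h0, fun s => S s / M s, fun s => Y s / M s ^ 5,
        id_div (hS s₀ hs₀) (hM s₀ hs₀) hMs,
        id_div (hY s₀ hs₀) ((hM s₀ hs₀).pow 5) (pow_ne_zero 5 hMs), ?_⟩
      have h1 : ∀ᶠ s in nhdsWithin s₀ (Icc 0 1), M s ≠ 0 :=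
        (hM s₀ hs₀).continuousWithinAt.eventually_ne hMs
      filter_upwards [h1, self_mem_nhdsWithin] with s hs1 hs2
      exact (hpt1 s hs2).2 hs1
    · refine ⟨C, fun s => M s / S s, fun s => Y s / S s ^ 5,
        id_div (hM s₀ hs₀) (hS s₀ hs₀) hSs,
        id_div (hY s₀ hs₀) ((hS s₀ hs₀).pow 5) (pow_ne_zero 5 hSs), ?_⟩
      have h1 : ∀ᶠ s in nhdsWithin s₀ (Icc 0 1), S s ≠ 0 :=
        (hS s₀ hs₀).continuousWithinAt.eventually_ne hSs
      filter_upwards [h1, self_mem_nhdsWithin] with s hs1 hs2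
      exact (hpt1 s hs2).1 hs1)
  refine ⟨γ, fun s hs => ?_⟩
  rw [hγ]
  refine ⟨(hpt1 s hs).1, fun hSs hv => ?_⟩
  have hMs : M s ≠ 0 := (hMS s hs).resolve_right (fun h => h hSs)
  have h1 := ((hpt1 s hs).2 hMs).1
  have h2 : C.v⁻¹ - algebraMap ℂ L (S s / M s) ∈ (pt s).O.nonunits := h1
  rw [hSs, zero_div, map_zero, sub_zero] at h2
  have h3 : (pt s).O.valuation C.v⁻¹ < 1 := h2
  have h4 := ((pt s).O.valuation_le_one_iff _).2 hv
  have hv0 : C.v ≠ 0 := by
    intro hv0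
    have h5 := C.trans
    rw [hv0] at h5
    exact h5 (isAlgebraic_zero)
  have h6 : (pt s).O.valuation C.v⁻¹ * (pt s).O.valuation C.v = 1 := by
    rw [← map_mul, inv_mul_cancel₀ hv0, map_one]
  have h7 : (pt s).O.valuation C.v⁻¹ * (pt s).O.valuation C.v < 1 :=
    calc (pt s).O.valuation C.v⁻¹ * (pt s).O.valuation C.v
        ≤ (pt s).O.valuation C.v⁻¹ * 1 := mul_le_mul_right h4 _
      _ < 1 := by rwa [mul_one]
  rw [h6] at h7
  exact lt_irrefl _ h7

omit ht hC in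
private theorem id_cd (a b c : ℂ) :
    ContDiffOn ℝ 1 (fun s : ℝ => a + b * (s : ℂ) + c * (s : ℂ) ^ 2) (Icc 0 1) := by
  have h1 : ContDiff ℝ 1 (fun s : ℝ => (s : ℂ)) := Complex.ofRealCLM.contDiff
  have h2 : ContDiff ℝ 1 (fun s : ℝ => a + b * (s : ℂ) + c * (s : ℂ) ^ 2) :=
    (contDiff_const.add (contDiff_const.mul h1)).add (contDiff_const.mul (h1.pow 2))
  exact h2.contDiffOn

theorem arc_one : ∃ γ : Arc L, C.v ∉ (γ.pt 0).O ∧ ∃ b, C.At (γ.pt 1) 0 b := by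
  obtain ⟨r, -, hr0, hr⟩ := Ft_roots ht
  obtain ⟨d, hd, hdir⟩ := exists_direction (Finset.univ.image fun k => -r k) (by
    intro z hz
    rw [Finset.mem_image] at hz
    obtain ⟨k, -, rfl⟩ := hz
    exact neg_ne_zero.2 (hr0 k))
  obtain ⟨c, hc⟩ := IsAlgClosed.exists_pow_nat_eq d (n := 2) (by norm_num)
  obtain ⟨c', hc'⟩ := IsAlgClosed.exists_pow_nat_eq (108 : ℂ) (n := 2) (by norm_num)
  have hc0 : c ≠ 0 := by
    rintro rfl
    apply hd
    rw [← hc]
    ring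
  have hM : ContDiffOn ℝ 1 (fun s : ℝ => d * (1 - (s : ℂ))) (Icc 0 1) := by
    have h := id_cd d (-d) 0
    refine h.congr fun s _ => ?_
    ring
  have hS : ContDiffOn ℝ 1 (fun s : ℝ => (s : ℂ)) (Icc 0 1) := by
    have h := id_cd 0 1 0
    refine h.congr fun s _ => ?_
    ring
  have hN : ∀ k, ContDiffOn ℝ 1 (fun s : ℝ => d * (1 - (s : ℂ)) - r k * (s : ℂ)) (Icc 0 1) :=
    fun k => hM.sub (contDiffOn_const.mul hS)
  have hslit : ∀ k, ∀ s ∈ Icc (0 : ℝ) 1,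
      (d * (1 - (s : ℂ)) - r k * (s : ℂ)) / d ∈ Complex.slitPlane := by
    intro k s hs
    have h1 := hdir (-r k) (Finset.mem_image_of_mem _ (Finset.mem_univ k))
    have h2 := id_slit h1 (α := 1 - s) (β := s) (by linarith [hs.2]) hs.1 (by linarith)
    have e : (d * (1 - (s : ℂ)) - r k * (s : ℂ)) / d = ((1 - s : ℝ) : ℂ) + (s : ℂ) * (-r k / d) := by
      push_cast
      field_simp
      ring
    rw [e]
    exact h2
  obtain ⟨γ, hγ⟩ := id_arc C ht hC hr (M := fun s : ℝ => d * (1 - (s : ℂ)))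
    (S := fun s : ℝ => (s : ℂ))
    (Y := fun s => c' * ∏ k, idg c d (fun s : ℝ => d * (1 - (s : ℂ)) - r k * (s : ℂ)) s)
    hM hS
    (contDiffOn_const.mul (contDiffOn_prod fun k _ => idg_smooth (hN k) (hslit k)))
    (by
      intro s _
      by_cases hs : s = 0
      · left
        rw [hs]
        simp [hd]
      · right
        exact_mod_cast hs)
    (by
      intro s hs
      rw [mul_pow, hc', ← Finset.prod_pow]
      congr 1
      exact Finset.prod_congr rfl fun k _ => idg_sq hc hd (hslit k s hs))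
  refine ⟨γ, ?_, ?_⟩
  · exact (hγ 0 ⟨le_refl _, zero_le_one⟩).2 (by simp)
  · have h1 := (hγ 1 ⟨zero_le_one, le_refl _⟩).1 (by simp)
    have e : d * (1 - ((1 : ℝ) : ℂ)) / ((1 : ℝ) : ℂ) = 0 := by simp
    simp only [e] at h1
    exact ⟨_, h1⟩

theorem arc_two : ∃ (γ : Arc L) (a₀ : ℂ), C.v ∉ (γ.pt 0).O ∧ C.v ∉ (γ.pt 1).O ∧
    a₀ ^ 2 + t = -2 ∧ C.At (γ.pt (1 / 2)) a₀ 0 ∧
    ∀ s ∈ Ioo (0 : ℝ) 1, s ≠ 1 / 2 → ∃ a b : ℂ, b ≠ 0 ∧ C.At (γ.pt s) a b ∧
      C.At (γ.pt (1 - s)) a (-b) := by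
  obtain ⟨r, hrinj, hr0, hr⟩ := Ft_roots ht
  obtain ⟨a₀, ha₀'⟩ := IsAlgClosed.exists_pow_nat_eq (-2 - t) (n := 2) (by norm_num)
  have ha₀ : a₀ ^ 2 + t = -2 := by rw [ha₀']; ring
  obtain ⟨j, hj⟩ : ∃ j, r j = a₀ := by
    have h1 : (Ft t).eval a₀ = 0 := by
      unfold Ft fR
      rw [eval_comp]
      simp only [eval_mul, eval_add, eval_pow, eval_X, eval_C, eval_ofNat, eval_one, ha₀]
      ring
    rw [hr, eval_mul, eval_C, eval_prod, mul_eq_zero] at h1
    rcases h1 with h1 | h1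
    · norm_num at h1
    · rw [Finset.prod_eq_zero_iff] at h1
      obtain ⟨j, -, hj⟩ := h1
      refine ⟨j, ?_⟩
      rw [eval_sub, eval_X, eval_C, sub_eq_zero] at hj
      exact hj.symm
  have ha0 : a₀ ≠ 0 := hj ▸ hr0 j
  obtain ⟨d, hd, hdir⟩ := exists_direction
    (insert a₀ ((Finset.univ.erase j).image fun k => a₀ - r k)) (by
    intro z hz
    rw [Finset.mem_insert, Finset.mem_image] at hz
    rcases hz with rfl | ⟨k, hk, rfl⟩
    · exact ha0
    · rw [Finset.mem_erase] at hk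
      intro h
      apply hk.1
      apply hrinj
      rw [hj]
      exact (sub_eq_zero.1 h).symm)
  obtain ⟨c, hc⟩ := IsAlgClosed.exists_pow_nat_eq d (n := 2) (by norm_num)
  obtain ⟨c', hc'⟩ := IsAlgClosed.exists_pow_nat_eq (108 : ℂ) (n := 2) (by norm_num)
  have hc0 : c ≠ 0 := by
    rintro rfl
    apply hd
    rw [← hc]
    ring
  have hc'0 : c' ≠ 0 := by
    rintro rfl
    norm_num at hc'
  obtain ⟨S, hSd⟩ : ∃ S : ℝ → ℂ, S = fun s : ℝ => (s : ℂ) * (1 - (s : ℂ)) := ⟨_, rfl⟩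
  obtain ⟨M, hMd⟩ : ∃ M : ℝ → ℂ, M = fun s : ℝ => d * (1 - 2 * (s : ℂ)) ^ 2 +
      a₀ * ((s : ℂ) * (1 - (s : ℂ))) := ⟨_, rfl⟩
  have hS : ContDiffOn ℝ 1 S (Icc 0 1) := by
    have h := id_cd 0 1 (-1)
    refine h.congr fun s _ => ?_
    rw [hSd]
    ring
  have hM : ContDiffOn ℝ 1 M (Icc 0 1) := by
    have h := id_cd d (-4 * d + a₀) (4 * d - a₀)
    refine h.congr fun s _ => ?_
    rw [hMd]
    ring
  have hN : ∀ k, ContDiffOn ℝ 1 (fun s : ℝ => M s - r k * S s) (Icc 0 1) :=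
    fun k => hM.sub (contDiffOn_const.mul hS)
  have hpos : ∀ s ∈ Icc (0 : ℝ) 1, 0 < (1 - 2 * s) ^ 2 + s * (1 - s) := by
    intro s _
    nlinarith [sq_nonneg (s - 1 / 2)]
  have hnn : ∀ s ∈ Icc (0 : ℝ) 1, 0 ≤ s * (1 - s) := fun s hs =>
    mul_nonneg hs.1 (by linarith [hs.2])
  have hslit : ∀ k ∈ Finset.univ.erase j, ∀ s ∈ Icc (0 : ℝ) 1,
      (M s - r k * S s) / d ∈ Complex.slitPlane := by
    intro k hk s hs
    have h1 := hdir (a₀ - r k) (Finset.mem_insert_of_mem (Finset.mem_image_of_mem _ hk))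
    have h2 := id_slit h1 (sq_nonneg (1 - 2 * s)) (hnn s hs) (hpos s hs)
    have e : (M s - r k * S s) / d = (((1 - 2 * s) ^ 2 : ℝ) : ℂ) +
        ((s * (1 - s) : ℝ) : ℂ) * ((a₀ - r k) / d) := by
      rw [hMd, hSd]
      push_cast
      field_simp
      ring
    rw [e]
    exact h2
  have hM0 : ∀ s ∈ Icc (0 : ℝ) 1, M s ≠ 0 := by
    intro s hs
    have h1 := hdir a₀ (Finset.mem_insert_self _ _)
    have h2 := id_slit h1 (sq_nonneg (1 - 2 * s)) (hnn s hs) (hpos s hs)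
    have e : M s / d = (((1 - 2 * s) ^ 2 : ℝ) : ℂ) + ((s * (1 - s) : ℝ) : ℂ) * (a₀ / d) := by
      rw [hMd]
      push_cast
      field_simp
    have h3 := Complex.slitPlane_ne_zero (e ▸ h2)
    intro h
    apply h3
    rw [h, zero_div]
  obtain ⟨Y, hYd⟩ : ∃ Y : ℝ → ℂ, Y = fun s : ℝ => c' * (c * (1 - 2 * (s : ℂ)) *
      ∏ k ∈ Finset.univ.erase j, idg c d (fun s : ℝ => M s - r k * S s) s) := ⟨_, rfl⟩
  have hY : ContDiffOn ℝ 1 Y (Icc 0 1) := by
    rw [hYd]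
    have h1 : ContDiffOn ℝ 1 (fun s : ℝ => c * (1 - 2 * (s : ℂ))) (Icc 0 1) := by
      have h := id_cd c (-2 * c) 0
      refine h.congr fun s _ => ?_
      ring
    exact contDiffOn_const.mul (h1.mul
      (contDiffOn_prod fun k hk => idg_smooth (hN k) (hslit k hk)))
  obtain ⟨γ, hγ⟩ := id_arc C ht hC hr hM hS hY (fun s hs => Or.inl (hM0 s hs)) (by
    intro s hs
    rw [hYd]
    simp only
    rw [mul_pow, hc', mul_pow, mul_pow, hc, ← Finset.prod_pow,
      ← Finset.mul_prod_erase Finset.univ (fun k => M s - r k * S s) (Finset.mem_univ j)]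
    have e1 : M s - r j * S s = d * (1 - 2 * (s : ℂ)) ^ 2 := by
      rw [hj, hMd, hSd]
      ring
    rw [e1]
    congr 2
    exact Finset.prod_congr rfl fun k hk => idg_sq hc hd (hslit k hk s hs))
  have hSsym : ∀ s, S (1 - s) = S s := by
    intro s
    rw [hSd]
    push_cast
    ring
  have hMsym : ∀ s, M (1 - s) = M s := by
    intro s
    rw [hMd]
    push_cast
    ring
  have hYsym : ∀ s, Y (1 - s) = -Y s := by
    intro s
    rw [hYd]
    simp only
    have e1 : ∏ k ∈ Finset.univ.erase j, idg c d (fun s : ℝ => M s - r k * S s) (1 - s) =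
        ∏ k ∈ Finset.univ.erase j, idg c d (fun s : ℝ => M s - r k * S s) s := by
      apply Finset.prod_congr rfl
      intro k _
      unfold idg
      simp only [hSsym, hMsym]
    rw [e1]
    push_cast
    ring
  have hS0 : ∀ s ∈ Ioo (0 : ℝ) 1, S s ≠ 0 := by
    intro s hs
    rw [hSd]
    have h1 : (s : ℂ) ≠ 0 := by exact_mod_cast hs.1.ne'
    have h2 : (1 - (s : ℂ)) ≠ 0 := by
      intro h
      have h3 : ((1 - s : ℝ) : ℂ) = 0 := by push_cast; exact h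
      have h4 : (1 - s : ℝ) = 0 := by exact_mod_cast h3
      linarith [hs.2]
    exact mul_ne_zero h1 h2
  refine ⟨γ, a₀, ?_, ?_, ha₀, ?_, ?_⟩
  · exact (hγ 0 ⟨le_refl _, zero_le_one⟩).2 (by rw [hSd]; simp)
  · exact (hγ 1 ⟨zero_le_one, le_refl _⟩).2 (by rw [hSd]; simp)
  · have h1 := (hγ (1 / 2) ⟨by norm_num, by norm_num⟩).1
      (hS0 _ ⟨by norm_num, by norm_num⟩)
    have e1 : M (1 / 2) / S (1 / 2) = a₀ := by
      rw [div_eq_iff (hS0 _ ⟨by norm_num, by norm_num⟩), hMd, hSd]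
      push_cast
      ring
    have e2 : Y (1 / 2) = 0 := by
      rw [hYd]
      push_cast
      ring
    rw [e1, e2, zero_div] at h1
    exact h1
  · intro s hs hs2
    have hs' : 1 - s ∈ Ioo (0 : ℝ) 1 := ⟨by linarith [hs.2], by linarith [hs.1]⟩
    refine ⟨M s / S s, Y s / S s ^ 5, ?_, ?_, ?_⟩
    · apply div_ne_zero _ (pow_ne_zero 5 (hS0 s hs))
      rw [hYd]
      have h1 : (1 - 2 * (s : ℂ)) ≠ 0 := by
        intro h
        apply hs2
        have h3 : ((1 - 2 * s : ℝ) : ℂ) = 0 := by push_cast; exact h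
        have h4 : (1 - 2 * s : ℝ) = 0 := by exact_mod_cast h3
        linarith
      exact mul_ne_zero hc'0 (mul_ne_zero (mul_ne_zero hc0 h1)
        (Finset.prod_ne_zero_iff.2 fun k _ => idg_ne hc0 _ _))
    · exact (hγ s ⟨hs.1.le, hs.2.le⟩).1 (hS0 s hs)
    · have h1 := (hγ (1 - s) ⟨hs'.1.le, hs'.2.le⟩).1 (hS0 _ hs')
      rw [hMsym, hSsym, hYsym, neg_div] at h1
      exact h1

end Pool.Agent.Arith
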