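import Pool.Agent.Lib.MP_c0402d_ag.IC

/-!
# JOB ID1: a tool for the construction of arcs

If near every time `s₀` the place `pt s` is the point `(a(s), b(s))` of a chart with `a, b`
continuously differentiable, then `pt` is an arc: regular functions are quotients of polynomials
with nonvanishing denominator (`Chart.mem_iff`).
-/

set_option autoImplicit false

namespace Pool.Agent.Arith

open KaehlerDifferential Polynomial Set

variable {L : Type} [Field L] [Algebra ℂ L]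

theorem ID1_nonunits_le {P : Place ℂ L} {f : L} (h : f ∈ P.O.nonunits) : f ∈ P.O :=
  P.O.nonunits_le h

theorem ID1_mem {P : Place ℂ L} {f : L} {a : ℂ} (h : f - algebraMap ℂ L a ∈ P.O.nonunits) :
    f ∈ P.O := by
  have h1 := ID1_nonunits_le h
  have h2 := add_mem h1 (P.base a)
  rwa [sub_add_cancel] at h2

theorem ID1_aeval (htr : Algebra.trdeg ℂ L = 1) (P : Place ℂ L) {v : L} (hv : v ∈ P.O)
    (r : ℂ[X]) : aeval v r ∈ P.O ∧ P.val (aeval v r) = r.eval (P.val v) := by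
  induction r using Polynomial.induction_on' with
  | add p q hp hq =>
    rw [map_add, eval_add]
    exact ⟨add_mem hp.1 hq.1, by rw [P.val_add htr hp.1 hq.1, hp.2, hq.2]⟩
  | monomial n c =>
    rw [aeval_monomial, eval_monomial]
    have h1 : v ^ n ∈ P.O ∧ P.val (v ^ n) = P.val v ^ n := by
      induction n with
      | zero =>
        rw [pow_zero, pow_zero]
        refine ⟨one_mem _, ?_⟩
        have := P.val_algebraMap 1
        rwa [map_one] at this
      | succ n ih =>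
        rw [pow_succ, pow_succ]
        exact ⟨mul_mem ih.1 hv, by rw [P.val_mul htr ih.1 hv, ih.2]⟩
    exact ⟨mul_mem (P.base c) h1.1, by rw [P.val_mul htr (P.base c) h1.1, P.val_algebraMap, h1.2]⟩

theorem Place.val_chart {C : Chart ℂ L} {P : Place ℂ L} {a b : ℂ} (h : C.At P a b)
    {p q r s : ℂ[X]} {f : L} (hn : r.eval a + s.eval a * b ≠ 0)
    (hf : f * (aeval C.v r + aeval C.v s * C.y) = aeval C.v p + aeval C.v q * C.y) :
    P.val f = (p.eval a + q.eval a * b) / (r.eval a + s.eval a * b) := by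
  have htr := C.trdeg
  have hfO : f ∈ P.O := (Chart.mem_iff h f).2 ⟨p, q, r, s, hn, hf⟩
  have hv : C.v ∈ P.O := ID1_mem h.1
  have hy : C.y ∈ P.O := ID1_mem h.2
  have hva : P.val C.v = a := Place.val_eq h.1
  have hyb : P.val C.y = b := Place.val_eq h.2
  have h1 : ∀ p q : ℂ[X], aeval C.v p + aeval C.v q * C.y ∈ P.O ∧
      P.val (aeval C.v p + aeval C.v q * C.y) = p.eval a + q.eval a * b := by
    intro p q
    have hp := ID1_aeval htr P hv p
    have hq := ID1_aeval htr P hv q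
    refine ⟨add_mem hp.1 (mul_mem hq.1 hy), ?_⟩
    rw [P.val_add htr hp.1 (mul_mem hq.1 hy), P.val_mul htr hq.1 hy, hp.2, hq.2, hva, hyb]
  rw [eq_div_iff hn, ← (h1 r s).2, ← P.val_mul htr hfO (h1 r s).1, hf, (h1 p q).2]

theorem ID1_contDiff_eval {a : ℝ → ℂ} {s₀ : ℝ} {S : Set ℝ}
    (ha : ContDiffWithinAt ℝ 1 a S s₀) (p : ℂ[X]) :
    ContDiffWithinAt ℝ 1 (fun s => p.eval (a s)) S s₀ := by
  have h1 : ContDiff ℂ 1 (fun z : ℂ => p.eval z) := p.differentiable.contDiff
  have h2 : ContDiff ℝ 1 (fun z : ℂ => p.eval z) := h1.restrict_scalars ℝ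
  exact h2.contDiffAt.comp_contDiffWithinAt s₀ ha

/-- the general tool -/
theorem exists_arc (pt : ℝ → Place ℂ L)
    (h : ∀ s₀ ∈ Icc (0 : ℝ) 1, ∃ (C : Chart ℂ L) (a b : ℝ → ℂ),
      ContDiffWithinAt ℝ 1 a (Icc 0 1) s₀ ∧ ContDiffWithinAt ℝ 1 b (Icc 0 1) s₀ ∧
      ∀ᶠ s in nhdsWithin s₀ (Icc 0 1), C.At (pt s) (a s) (b s)) :
    ∃ γ : Arc L, γ.pt = pt := by
  have key : ∀ s₀ ∈ Icc (0 : ℝ) 1, ∀ f ∈ (pt s₀).O,
      (∀ᶠ r in nhdsWithin s₀ (Icc 0 1), f ∈ (pt r).O) ∧
      ContDiffWithinAt ℝ 1 (fun r => (pt r).val f) (Icc 0 1) s₀ := by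
    intro s₀ hs₀ f hf
    obtain ⟨C, a, b, ha, hb, hev⟩ := h s₀ hs₀
    have h0 : C.At (pt s₀) (a s₀) (b s₀) := hev.self_of_nhdsWithin hs₀
    obtain ⟨p, q, r, s, hn, heq⟩ := (Chart.mem_iff h0 f).1 hf
    have hden : ContDiffWithinAt ℝ 1 (fun t => r.eval (a t) + s.eval (a t) * b t) (Icc 0 1) s₀ :=
      (ID1_contDiff_eval ha r).add ((ID1_contDiff_eval ha s).mul hb)
    have hnum : ContDiffWithinAt ℝ 1 (fun t => p.eval (a t) + q.eval (a t) * b t) (Icc 0 1) s₀ :=
      (ID1_contDiff_eval ha p).add ((ID1_contDiff_eval ha q).mul hb)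
    have hne : ∀ᶠ t in nhdsWithin s₀ (Icc 0 1), r.eval (a t) + s.eval (a t) * b t ≠ 0 :=
      hden.continuousWithinAt.eventually_ne hn
    have hval : ∀ᶠ t in nhdsWithin s₀ (Icc 0 1), (pt t).val f =
        (p.eval (a t) + q.eval (a t) * b t) * (r.eval (a t) + s.eval (a t) * b t)⁻¹ := by
      filter_upwards [hev, hne] with t ht1 ht2
      rw [Place.val_chart ht1 ht2 heq, div_eq_mul_inv]
    refine ⟨?_, ?_⟩
    · filter_upwards [hev, hne] with t ht1 ht2
      exact (Chart.mem_iff ht1 f).2 ⟨p, q, r, s, ht2, heq⟩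
    · refine ContDiffWithinAt.congr_of_eventuallyEq (hnum.mul (hden.inv hn)) hval ?_
      exact hval.self_of_nhdsWithin hs₀
  exact ⟨⟨pt, fun s hs f hf => (key s hs f hf).1, fun s hs f hf => (key s hs f hf).2⟩, rfl⟩

theorem ID1_at_iff (htr : Algebra.trdeg ℂ L = 1) {C : Chart ℂ L} {P : Place ℂ L} {a b : ℂ} :
    C.At P a b ↔ C.v ∈ P.O ∧ C.y ∈ P.O ∧ P.val C.v = a ∧ P.val C.y = b := by
  constructor
  · intro h
    exact ⟨ID1_mem h.1, ID1_mem h.2, Place.val_eq h.1, Place.val_eq h.2⟩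
  · rintro ⟨hv, hy, rfl, rfl⟩
    exact ⟨P.val_spec htr hv, P.val_spec htr hy⟩

theorem ID1_pow (htr : Algebra.trdeg ℂ L = 1) {P : Place ℂ L} {v : L} (hv : v ∈ P.O) (n : ℕ) :
    v ^ n ∈ P.O ∧ P.val (v ^ n) = P.val v ^ n := by
  have := ID1_aeval htr P hv (X ^ n : ℂ[X])
  simpa using this

theorem ID1_inv (htr : Algebra.trdeg ℂ L = 1) {P : Place ℂ L} {v : L} (hv : v ∈ P.O)
    (h0 : P.val v ≠ 0) : v⁻¹ ∈ P.O ∧ P.val v⁻¹ = (P.val v)⁻¹ := by
  have hnu : v ∉ P.O.nonunits := fun h => h0 ((P.val_eq_zero htr hv).2 h)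
  have hv0 : v ≠ 0 := by
    rintro rfl
    apply hnu
    rw [ValuationSubring.mem_nonunits_iff, map_zero]
    exact zero_lt_one
  have hi : v⁻¹ ∈ P.O := by
    rw [← ValuationSubring.valuation_le_one_iff, map_inv₀]
    rw [ValuationSubring.mem_nonunits_iff, not_lt] at hnu
    exact inv_le_one_of_one_le₀ hnu
  refine ⟨hi, ?_⟩
  have h1 := P.val_mul htr hv hi
  rw [mul_inv_cancel₀ hv0] at h1
  have h2 := P.val_algebraMap 1
  rw [map_one] at h2
  rw [h2] at h1
  exact eq_inv_of_mul_eq_one_right h1.symm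

/-- points of a chart of degree `2 k` and of its chart at infinity -/
theorem Chart.at_infEven (C : Chart ℂ L) (k : ℕ) (hk : C.F.natDegree = 2 * k)
    (h0 : C.F.eval 0 ≠ 0) {P : Place ℂ L} {a b : ℂ} (ha : a ≠ 0) :
    C.At P a b ↔ (C.infEven k hk h0).At P a⁻¹ (b / a ^ k) := by
  have htr := C.trdeg
  rw [ID1_at_iff htr, ID1_at_iff htr]
  change _ ↔ C.v⁻¹ ∈ P.O ∧ C.y / C.v ^ k ∈ P.O ∧ P.val C.v⁻¹ = a⁻¹ ∧
    P.val (C.y / C.v ^ k) = b / a ^ k
  have hv0 : C.v ≠ 0 := by
    intro h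
    have := C.trans
    rw [h] at this
    exact this isAlgebraic_zero
  constructor
  · rintro ⟨hv, hy, hva, hyb⟩
    have h1 := ID1_inv htr hv (by rw [hva]; exact ha)
    have h2 := ID1_pow htr h1.1 k
    refine ⟨h1.1, ?_, by rw [h1.2, hva], ?_⟩
    · rw [div_eq_mul_inv, ← inv_pow]
      exact mul_mem hy h2.1
    · rw [div_eq_mul_inv, ← inv_pow, P.val_mul htr hy h2.1, h2.2, h1.2, hva, hyb, inv_pow,
        div_eq_mul_inv]
  · rintro ⟨hv, hy, hva, hyb⟩
    have h1 := ID1_inv htr hv (by rw [hva]; exact inv_ne_zero ha)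
    rw [inv_inv, hva, inv_inv] at h1
    have h2 := ID1_pow htr h1.1 k
    have h3 : C.y = C.y / C.v ^ k * C.v ^ k := by field_simp
    refine ⟨h1.1, ?_, h1.2, ?_⟩
    · rw [h3]; exact mul_mem hy h2.1
    · rw [h3, P.val_mul htr hy h2.1, hyb, h2.2, h1.2]
      field_simp

theorem ID1_fR_leadingCoeff : (fR ℂ).leadingCoeff = 108 := by
  rw [Polynomial.leadingCoeff, fR_natDegree]
  have : (fR ℂ) = C 108 * X ^ 5 + C 486 * X ^ 4 + C 816 * X ^ 3 + C 684 * X ^ 2 + C 288 * X +
      C 48 := by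
    unfold fR
    simp only [show (C (108 : ℂ)) = 108 from rfl, show (C (486 : ℂ)) = 486 from rfl,
      show (C (816 : ℂ)) = 816 from rfl, show (C (684 : ℂ)) = 684 from rfl,
      show (C (288 : ℂ)) = 288 from rfl, show (C (48 : ℂ)) = 48 from rfl]
    ring
  rw [this]
  simp [coeff_X_pow]

/-- The roots of `Ft t`. -/
theorem Ft_roots {t : ℂ} (ht : (fR ℂ).eval t ≠ 0) : ∃ r : Fin 10 → ℂ, Function.Injective r ∧
    (∀ k, r k ≠ 0) ∧ Ft t = Polynomial.C 108 * ∏ k, (X - Polynomial.C (r k)) := by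
  classical
  have hsep := Ft_separable (K := ℂ) ht
  have hnd := nodup_roots hsep
  have hcard : (Ft t).roots.card = 10 := by
    rw [splits_iff_card_roots.1 (IsAlgClosed.splits _), Ft_natDegree]
  have hne : Ft t ≠ 0 := by
    intro h
    have := Ft_natDegree (K := ℂ) t
    rw [h, natDegree_zero] at this
    omega
  have hcard2 : (Ft t).roots.toFinset.card = 10 := by
    rw [Multiset.toFinset_card_of_nodup hnd, hcard]
  let e := (Ft t).roots.toFinset.equivFinOfCardEq hcard2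
  refine ⟨fun k => (e.symm k : ℂ), ?_, ?_, ?_⟩
  · intro i j hij
    exact e.symm.injective (Subtype.ext hij)
  · intro k hk
    have h1 : (e.symm k : ℂ) ∈ (Ft t).roots := Multiset.mem_toFinset.1 (e.symm k).2
    rw [mem_roots hne, IsRoot] at h1
    change (e.symm k : ℂ) = 0 at hk
    rw [hk, Ft_eval_zero] at h1
    exact ht h1
  · have h1 := (IsAlgClosed.splits (Ft t)).eq_prod_roots
    have hlc : (Ft t).leadingCoeff = 108 := by
      unfold Ft
      rw [leadingCoeff_comp, ID1_fR_leadingCoeff, leadingCoeff_X_pow_add_C, one_pow, mul_one]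
      · norm_num
      · rw [natDegree_X_pow_add_C]; norm_num
    rw [hlc] at h1
    conv_lhs => rw [h1]
    congr 1
    have h2 : ((Ft t).roots.map fun x => X - C x).prod =
        ∏ x ∈ (Ft t).roots.toFinset, (X - C x) := by
      rw [Finset.prod, Multiset.toFinset_val, Multiset.dedup_eq_self.2 hnd]
    rw [h2, ← Finset.prod_coe_sort]
    exact Fintype.prod_equiv e _ _ (fun x => by simp)

/-- Finitely many directions can be avoided. -/
theorem exists_direction (S : Finset ℂ) (hS : ∀ z ∈ S, z ≠ 0) :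
    ∃ d : ℂ, d ≠ 0 ∧ ∀ z ∈ S, z / d ∈ Complex.slitPlane := by
  have hd : ∀ k : ℕ, (1 + k * Complex.I : ℂ) ≠ 0 := by
    intro k h
    have := congrArg Complex.re h
    simp at this
  have hfin : (⋃ z ∈ S, {k : ℕ | z / (1 + k * Complex.I) ∉ Complex.slitPlane}).Finite := by
    refine Set.Finite.biUnion S.finite_toSet fun z hz => Set.Subsingleton.finite ?_
    intro k hk l hl
    have hz0 := hS z hz
    simp only [mem_ofPred_eq, Complex.mem_slitPlane_iff, not_or, not_lt, not_not] at hk hl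
    obtain ⟨hk1, hk2⟩ := hk
    obtain ⟨hl1, hl2⟩ := hl
    set u := z / (1 + k * Complex.I) with hu
    set w := z / (1 + l * Complex.I) with hw
    have h1 : z = u * (1 + k * Complex.I) := by rw [hu]; field_simp [hd k]
    have h2 : z = w * (1 + l * Complex.I) := by rw [hw]; field_simp [hd l]
    have h3 : u * (1 + k * Complex.I) = w * (1 + l * Complex.I) := h1 ▸ h2
    have hre := congrArg Complex.re h3
    have him := congrArg Complex.im h3
    simp [hk2, hl2] at hre him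
    have hu0 : u.re ≠ 0 := by
      intro h
      apply hz0
      have : u = 0 := Complex.ext h hk2
      rw [h1, this, zero_mul]
    rw [← hre] at him
    have := mul_left_cancel₀ hu0 him
    exact_mod_cast this
  obtain ⟨k, hk⟩ := hfin.exists_notMem
  refine ⟨1 + k * Complex.I, hd k, fun z hz => ?_⟩
  simp only [mem_iUnion, mem_ofPred_eq, not_exists, not_not] at hk
  exact hk z hz

/-- Smooth square roots. -/
theorem exists_sqrt {N : ℝ → ℂ} {d : ℂ} (hd : d ≠ 0) (hN : ContDiffOn ℝ 1 N (Icc 0 1))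
    (h : ∀ s ∈ Icc (0 : ℝ) 1, N s / d ∈ Complex.slitPlane) :
    ∃ g : ℝ → ℂ, ContDiffOn ℝ 1 g (Icc 0 1) ∧ ∀ s ∈ Icc (0 : ℝ) 1, g s ^ 2 = N s ∧ g s ≠ 0 := by
  obtain ⟨e, he⟩ := IsAlgClosed.exists_pow_nat_eq d (n := 2) (by norm_num)
  have he0 : e ≠ 0 := by
    rintro rfl
    apply hd
    rw [← he]; norm_num
  refine ⟨fun s => e * Complex.exp (Complex.log (N s / d) / 2), ?_, ?_⟩
  · intro s hs
    have h1 : ContDiffWithinAt ℝ 1 (fun s => N s / d) (Icc 0 1) s := by
      simp only [div_eq_mul_inv]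
      exact (hN s hs).mul contDiffWithinAt_const
    have h2 : ContDiffAt ℝ 1 Complex.log (N s / d) :=
      (Complex.contDiffAt_log (h s hs)).restrict_scalars ℝ
    have h3 : ContDiffWithinAt ℝ 1 (fun s => Complex.log (N s / d)) (Icc 0 1) s :=
      ContDiffAt.comp_contDiffWithinAt (g := Complex.log) (f := fun s => N s / d) s h2 h1
    have h4 : ContDiffWithinAt ℝ 1 (fun s => Complex.log (N s / d) / 2) (Icc 0 1) s := by
      simp only [div_eq_mul_inv _ (2 : ℂ)]
      exact h3.mul contDiffWithinAt_const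
    exact contDiffWithinAt_const.mul
      ((Complex.contDiff_exp (𝕜 := ℝ)).contDiffAt.comp_contDiffWithinAt s h4)
  · intro s hs
    have h0 : N s / d ≠ 0 := Complex.slitPlane_ne_zero (h s hs)
    refine ⟨?_, mul_ne_zero he0 (Complex.exp_ne_zero _)⟩
    rw [mul_pow, he, ← Complex.exp_nat_mul]
    have : ((2 : ℕ) : ℂ) * (Complex.log (N s / d) / 2) = Complex.log (N s / d) := by
      push_cast; ring
    rw [this, Complex.exp_log h0]
    field_simp

end Pool.Agent.Arith
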