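import Pool.Agent.Lib.MP_c0402d_ag.ID
import Pool.Agent.Lib.MP_c0402d_ag.IB
import Pool.Agent.Lib.MP_c0402d_ag.ED

/-!
# JOB IE: the relative periods of the members
-/

set_option autoImplicit false

namespace Pool.Agent.Arith

open KaehlerDifferential Polynomial Set Complex

variable {L : Type} [Field L] [Algebra ℂ L]

private theorem IE_v_mem {C : Chart ℂ L} {P : Place ℂ L} {a b : ℂ} (h : C.At P a b) :
    C.v ∈ P.O := by
  rw [Chart.mem_iff h]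
  refine ⟨X, 0, 1, 0, by simp, by simp⟩

private theorem IE_val_v {C : Chart ℂ L} {P : Place ℂ L} {a b : ℂ} (h : C.At P a b) :
    P.val C.v = a := Place.val_eq h.1

private theorem IE_q_mem {C : Chart ℂ L} {P : Place ℂ L} {a b : ℂ} (h : C.At P a b) (hb : b ≠ 0)
    (q : ℂ[X]) : aeval C.v q / C.y ∈ P.O := by
  rw [Chart.mem_iff h]
  refine ⟨q, 0, 0, 1, by simpa using hb, ?_⟩
  have := C.y_ne_zero
  simp only [map_zero, map_one, zero_add, one_mul, zero_mul, add_zero]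
  field_simp

private theorem IE_q_val {C : Chart ℂ L} {P : Place ℂ L} {a b : ℂ} (h : C.At P a b) (hb : b ≠ 0)
    (q : ℂ[X]) : P.val (aeval C.v q / C.y) = q.eval a / b := by
  have := Place.val_chart (p := q) (q := 0) (r := 0) (s := 1) (f := aeval C.v q / C.y) h
    (by simpa using hb) (by
      have := C.y_ne_zero
      simp only [map_zero, map_one, zero_add, one_mul, zero_mul, add_zero]
      field_simp)
  simpa using this

/-- Symmetry of the densities of `η₁, η₂` along the arc of `arc_two`: `ρ(1 - s) = ρ(s)`: for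
`s ≠ 1/2` use the local parameters `v - a`; `η_j = q_j(v) / y • dv` with polynomials `q_j`. -/
theorem density_symm (C : Chart ℂ L) (q : ℂ[X]) (γ : Arc L) {ρ : ℝ → ℂ}
    (hρ : γ.Density ((aeval C.v q / C.y) • D ℂ L C.v) ρ)
    (h : ∀ s ∈ Ioo (0 : ℝ) 1, s ≠ 1 / 2 → ∃ a b : ℂ, b ≠ 0 ∧ C.At (γ.pt s) a b ∧
      C.At (γ.pt (1 - s)) a (-b)) :
    ∀ s ∈ Ioo (0 : ℝ) 1, s ≠ 1 / 2 → ρ (1 - s) = ρ s := by
  have htr : Algebra.trdeg ℂ L = 1 := C.trdeg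
  intro s hs hs2
  -- value formula
  have key : ∀ r ∈ Ioo (0 : ℝ) 1, ∀ a b : ℂ, b ≠ 0 → C.At (γ.pt r) a b →
      ρ r = q.eval a / b * deriv (fun x => (γ.pt x).val C.v) r := by
    intro r hr a b hb hat
    have hrI : r ∈ Icc (0 : ℝ) 1 := Ioo_subset_Icc_self hr
    obtain ⟨f, hf, g, hg, hfg, hval⟩ := hρ.2 r hrI
    have hp : ∃ p, (γ.pt r).IsParam p := ⟨_, Chart.param_of_ne hat hb⟩
    have := Arc.density_unique htr γ hrI hp hf hg (IE_q_mem hat hb q) (IE_v_mem hat) hfg.symm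
    rw [hval, this, IE_q_val hat hb q, derivWithin_of_mem_nhds (Icc_mem_nhds hr.1 hr.2)]
  obtain ⟨a, b, hb, h1, h2⟩ := h s hs hs2
  have hs' : 1 - s ∈ Ioo (0 : ℝ) 1 := ⟨by linarith [hs.2], by linarith [hs.1]⟩
  rw [key s hs a b hb h1, key (1 - s) hs' a (-b) (neg_ne_zero.2 hb) h2]
  have hsymm : (fun x => (γ.pt (1 - x)).val C.v) =ᶠ[nhds s] fun x => (γ.pt x).val C.v := by
    have hmem : Ioo (0 : ℝ) 1 ∩ {x | x ≠ 1 / 2} ∈ nhds s :=
      Filter.inter_mem (Ioo_mem_nhds hs.1 hs.2) (isOpen_ne.mem_nhds hs2)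
    filter_upwards [hmem] with x hx
    obtain ⟨a', b', _, h1', h2'⟩ := h x hx.1 hx.2
    simp only [IE_val_v h1', IE_val_v h2']
  have hd : deriv (fun x => (γ.pt (1 - x)).val C.v) s =
      -deriv (fun x => (γ.pt x).val C.v) (1 - s) :=
    deriv_comp_const_sub (f := fun x => (γ.pt x).val C.v) 1 s
  rw [hsymm.deriv_eq] at hd
  rw [hd]
  field_simp

private theorem IE_atE_unique {P : Place ℂ L} {X Y : L} {z w : ℂ} (h : AtE P X Y z)
    (h' : AtE P X Y w) : z - w ∈ Lam.lattice := by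
  rcases h with ⟨hX, hY, hz, h1, h2⟩ | ⟨hX, hz⟩
  · rcases h' with ⟨hX', hY', hw, h1', h2'⟩ | ⟨hX', hw⟩
    · exact lat_inj hz hw (h1.symm.trans h1') (h2.symm.trans h2')
    · exact absurd hX hX'
  · rcases h' with ⟨hX', hY', hw, h1', h2'⟩ | ⟨hX', hw⟩
    · exact absurd hX' hX
    · exact sub_mem hz hw

private theorem IE_InQI_of_InZI {g : ℂ} (h : InZI g) : InQI g := by
  obtain ⟨a, b, rfl⟩ := h
  exact ⟨a, b, by push_cast; ring⟩

private theorem IE_InQI_add {g g' : ℂ} (h : InQI g) (h' : InQI g') : InQI (g + g') := by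
  obtain ⟨a, b, rfl⟩ := h
  obtain ⟨a', b', rfl⟩ := h'
  exact ⟨a + a', b + b', by push_cast; ring⟩

private theorem IE_InQI_neg {g : ℂ} (h : InQI g) : InQI (-g) := by
  obtain ⟨a, b, rfl⟩ := h
  exact ⟨-a, -b, by push_cast; ring⟩

private theorem IE_InQI_sub {g g' : ℂ} (h : InQI g) (h' : InQI g') : InQI (g - g') := by
  rw [sub_eq_add_neg]; exact IE_InQI_add h (IE_InQI_neg h')

private theorem IE_InQI_half : InQI ((1 + I) / 2) := ⟨1 / 2, 1 / 2, by push_cast; ring⟩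

private theorem IE_InQI_zero : InQI 0 := ⟨0, 0, by simp⟩

private theorem IE_s2_re : s2.re = 0 := by simp [s2]
private theorem IE_s2_im : s2.im = Real.sqrt 2 := by simp [s2]

private theorem IE_s2_indep {g₁ g₂ : ℂ} (h₁ : InQI g₁) (h₂ : InQI g₂) (h : g₁ - s2 * g₂ = 0) :
    g₁ = 0 ∧ g₂ = 0 := by
  obtain ⟨a, b, rfl⟩ := h₁
  obtain ⟨c, d, rfl⟩ := h₂
  have hre := congrArg Complex.re h
  have him := congrArg Complex.im h
  simp [IE_s2_re, IE_s2_im] at hre him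
  -- a + sqrt 2 * d = 0, b - sqrt 2 * c = 0
  have hirr : Irrational (Real.sqrt 2) := irrational_sqrt_two
  have hd : d = 0 := by
    by_contra hd
    apply hirr
    refine ⟨-a / d, ?_⟩
    have : (d : ℝ) ≠ 0 := by exact_mod_cast hd
    push_cast
    field_simp
    linarith
  have hc : c = 0 := by
    by_contra hc
    apply hirr
    refine ⟨b / c, ?_⟩
    have : (c : ℝ) ≠ 0 := by exact_mod_cast hc
    push_cast
    field_simp
    linarith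
  subst hd hc
  have ha : a = 0 := by simpa using hre
  have hb : b = 0 := by simpa using him
  subst ha hb
  simp

variable (C : Chart ℂ L) {t : ℂ} (ht : (fR ℂ).eval t ≠ 0) (hC : C.F = Ft t)

private theorem IE_eta1_eq : C.eta1 t =
    (aeval C.v (24 * X * (X ^ 2 + Polynomial.C t + 1) : ℂ[X]) / C.y) • D ℂ L C.v := by
  rw [Chart.eta1, Chart.om, smul_smul]
  congr 1
  rw [Chart.xx]
  simp only [map_mul, map_add, map_pow, aeval_X, aeval_C, map_one, map_ofNat]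
  ring

private theorem IE_eta2_eq : C.eta2 t =
    (aeval C.v (Polynomial.C (24 / s2) * X * (X ^ 2 + Polynomial.C t) : ℂ[X]) / C.y) •
      D ℂ L C.v := by
  rw [Chart.eta2, Chart.om, smul_smul]
  congr 1
  rw [Chart.xx]
  simp only [map_mul, map_add, map_pow, aeval_X, aeval_C]
  have : (24 / s2 : ℂ) = 2 * (12 / s2) := by ring
  rw [this, map_mul, map_ofNat]
  ring

include ht hC

/-- all data at an arc -/
private theorem IE_arc (γ : Arc L) : ∃ ρ₁ ρ₂ : ℝ → ℂ, γ.Density (C.eta1 t) ρ₁ ∧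
    γ.Density (C.eta2 t) ρ₂ ∧
    γ.Density C.om (fun s => (1 / 12 : ℂ) * ρ₁ s + (-s2 / 12 : ℂ) * ρ₂ s) ∧
    IntervalIntegrable ρ₁ MeasureTheory.volume 0 1 ∧
    IntervalIntegrable ρ₂ MeasureTheory.volume 0 1 := by
  have htr : Algebra.trdeg ℂ L = 1 := C.trdeg
  have hp : ∀ s ∈ Icc (0 : ℝ) 1, ∃ p, (γ.pt s).IsParam p :=
    fun s _ => C.exists_param ht hC (γ.pt s)
  obtain ⟨ρ₁, h₁⟩ := Arc.exists_density htr γ hp (ω := C.eta1 t)
    (fun s _ => C.regular_eta1 ht hC (γ.pt s))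
  obtain ⟨ρ₂, h₂⟩ := Arc.exists_density htr γ hp (ω := C.eta2 t)
    (fun s _ => C.regular_eta2 ht hC (γ.pt s))
  refine ⟨ρ₁, ρ₂, h₁, h₂, ?_, ?_, ?_⟩
  · rw [C.om_eq ht hC]
    exact Arc.Density.lin htr hp h₁ h₂ _ _
  · exact ContinuousOn.intervalIntegrable (by simpa [uIcc_of_le] using h₁.1)
  · exact ContinuousOn.intervalIntegrable (by simpa [uIcc_of_le] using h₂.1)

private theorem IE_om_int {γ : Arc L} {I' : ℂ} {ρ₁ ρ₂ : ℝ → ℂ}
    (h : γ.Density C.om (fun s => (1 / 12 : ℂ) * ρ₁ s + (-s2 / 12 : ℂ) * ρ₂ s))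
    (h₁ : IntervalIntegrable ρ₁ MeasureTheory.volume 0 1)
    (h₂ : IntervalIntegrable ρ₂ MeasureTheory.volume 0 1) :
    γ.HasIntegral C.om I' ↔
      I' = ((∫ s in (0 : ℝ)..1, ρ₁ s) - s2 * ∫ s in (0 : ℝ)..1, ρ₂ s) / 12 := by
  have htr : Algebra.trdeg ℂ L = 1 := C.trdeg
  have hp : ∀ s ∈ Icc (0 : ℝ) 1, ∃ p, (γ.pt s).IsParam p :=
    fun s _ => C.exists_param ht hC (γ.pt s)
  have hint : ∫ s in (0 : ℝ)..1, ((1 / 12 : ℂ) * ρ₁ s + (-s2 / 12 : ℂ) * ρ₂ s) =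
      ((∫ s in (0 : ℝ)..1, ρ₁ s) - s2 * ∫ s in (0 : ℝ)..1, ρ₂ s) / 12 := by
    rw [intervalIntegral.integral_add (h₁.const_mul _) (h₂.const_mul _),
      intervalIntegral.integral_const_mul, intervalIntegral.integral_const_mul]
    ring
  rw [Arc.hasIntegral_iff]
  constructor
  · rintro ⟨ρ, hρ, rfl⟩
    rw [← hint]
    apply intervalIntegral.integral_congr
    intro s hs
    rw [uIcc_of_le zero_le_one] at hs
    exact Arc.Density.eqOn htr hp hρ h hs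
  · intro hI
    exact ⟨_, h, by rw [hI, hint]⟩

private theorem IE_lift {γ : Arc L} {ρ₁ ρ₂ : ℝ → ℂ} (h₁ : γ.Density (C.eta1 t) ρ₁)
    (h₂ : γ.Density (C.eta2 t) ρ₂) {z₁ z₂ : ℂ}
    (hz₁ : AtE (γ.pt 0) (C.X1 t) (C.Y1 t) z₁) (hz₂ : AtE (γ.pt 0) (C.X2 t) (C.Y2 t) z₂) :
    ∀ s ∈ Icc (0 : ℝ) 1,
      AtE (γ.pt s) (C.X1 t) (C.Y1 t) (z₁ + ∫ r in (0 : ℝ)..s, ρ₁ r) ∧
      AtE (γ.pt s) (C.X2 t) (C.Y2 t) (z₂ + ∫ r in (0 : ℝ)..s, ρ₂ r) := by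
  have htr : Algebra.trdeg ℂ L = 1 := C.trdeg
  have hp : ∀ s ∈ Icc (0 : ℝ) 1, ∃ p, (γ.pt s).IsParam p :=
    fun s _ => C.exists_param ht hC (γ.pt s)
  intro s hs
  exact ⟨lift_path htr γ hp (C.curve1 ht hC) (C.Y1_ne ht hC) (C.dX1 ht hC) h₁ hz₁ s hs,
    lift_path htr γ hp (C.curve2 ht hC) (C.Y2_ne ht hC) (C.dX2 ht hC) h₂ hz₂ s hs⟩

/-- Every relative period has the form `((g₁ - √-2 g₂) Om + k (u₁ - √-2 u₂)) / 12` with
`g₁, g₂ ∈ ℚ(i)`, `k ∈ ℤ`, where `u₁, u₂` are elliptic logarithms of `(vX t, t b / A²)` and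
`(vX t - 1, √-2 (t + 1) b / A²)`. There is a period with `k = 1`, and a nonzero period with `k = 0`.

`u₁, u₂` come from `arc_one` (`lift_path` with `z₀` a half period with `(Pf, Qf) = (0, 0)`,
resp. `(-1, 0)`). For any arc between zeros of `ω`: `lift_path` and `lat_inj`. For `arc_two`: the
integrals `J_j` of `η_j` are twice the integrals `J_j'` over `[0, 1/2]`, and `J_1' ∉ Λ` because
`vX` goes from `0` to `1`; `J_1 - √-2 J_2 = 0` with `J_j ∈ ℚ(i) Om` would give `J_1 = 0`. -/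
theorem periods_form : ∃ (u₁ u₂ b : ℂ), b ^ 2 = (fR ℂ).eval t ∧
    u₁ ∉ Lam.lattice ∧ u₂ ∉ Lam.lattice ∧ Pf u₁ = vX t ∧ Qf u₁ = t * b / vA t ^ 2 ∧
    Pf u₂ = vX t - 1 ∧ Qf u₂ = s2 * (t + 1) * b / vA t ^ 2 ∧
    (∀ I, IsPeriod C.om I → ∃ (g₁ g₂ : ℂ) (k : ℤ), InQI g₁ ∧ InQI g₂ ∧
      I = ((g₁ - s2 * g₂) * Om + k * (u₁ - s2 * u₂)) / 12) ∧
    (∃ g₁ g₂ : ℂ, InQI g₁ ∧ InQI g₂ ∧
      IsPeriod C.om (((g₁ - s2 * g₂) * Om + (u₁ - s2 * u₂)) / 12)) ∧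
    ∃ g₁ g₂ : ℂ, InQI g₁ ∧ InQI g₂ ∧ (g₁ - s2 * g₂) * Om ≠ 0 ∧
      IsPeriod C.om ((g₁ - s2 * g₂) * Om / 12) := by
  obtain ⟨δ, hδQ, hδ2, hδ, hPδ, hQδ⟩ := exists_half_neg_one
  obtain ⟨hε, hPε, hQε⟩ := half_zero
  -- the parameters of the points at infinity
  have hinf : ∀ P : Place ℂ L, C.v ∉ P.O →
      AtE P (C.X1 t) (C.Y1 t) ((1 + I) / 2 * Om) ∧ AtE P (C.X2 t) (C.Y2 t) (δ * Om) := by
    intro P hP
    obtain ⟨m1, m2, m3, m4, v1, v2, v3, v4⟩ := C.values_inf ht hC hP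
    exact ⟨Or.inl ⟨m1, m2, hε, by rw [v1, hPε], by rw [v2, hQε]⟩,
      Or.inl ⟨m3, m4, hδ, by rw [v3, hPδ], by rw [v4, hQδ]⟩⟩
  obtain ⟨γ₁, hγ0, b, hb⟩ := arc_one C ht hC
  have hb2 : b ^ 2 = (fR ℂ).eval t := by
    rw [hb.eq, hC, Ft_eval_zero]
  obtain ⟨ρ₁, ρ₂, hρ₁, hρ₂, hρ, hi₁, hi₂⟩ := IE_arc C ht hC γ₁
  obtain ⟨hl₁, hl₂⟩ := IE_lift C ht hC hρ₁ hρ₂ (hinf _ hγ0).1 (hinf _ hγ0).2 1 (by simp)
  set u₁ : ℂ := (1 + I) / 2 * Om + ∫ r in (0 : ℝ)..1, ρ₁ r with hu₁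
  set u₂ : ℂ := δ * Om + ∫ r in (0 : ℝ)..1, ρ₂ r with hu₂
  obtain ⟨m1, m2, m3, m4, v1, v2, v3, v4⟩ := C.values_zero ht hC hb
  have A1 : u₁ ∉ Lam.lattice ∧ Pf u₁ = vX t ∧ Qf u₁ = t * b / vA t ^ 2 := by
    rcases hl₁ with ⟨_, _, h3, h4, h5⟩ | ⟨h, _⟩
    · exact ⟨h3, h4.symm.trans v1, h5.symm.trans v2⟩
    · exact absurd m1 h
  have A2 : u₂ ∉ Lam.lattice ∧ Pf u₂ = vX t - 1 ∧ Qf u₂ = s2 * (t + 1) * b / vA t ^ 2 := by
    rcases hl₂ with ⟨_, _, h3, h4, h5⟩ | ⟨h, _⟩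
    · exact ⟨h3, h4.symm.trans v3, h5.symm.trans v4⟩
    · exact absurd m3 h
  -- the parameters of the zeros of `ω`
  have hzero : ∀ P : Place ℂ L, (∃ m, m ≠ 0 ∧ OrdAt P C.om m) → ∃ (c₁ c₂ : ℂ) (k : ℤ),
      InQI c₁ ∧ InQI c₂ ∧ AtE P (C.X1 t) (C.Y1 t) (c₁ * Om + k * u₁) ∧
      AtE P (C.X2 t) (C.Y2 t) (c₂ * Om + k * u₂) := by
    rintro P ⟨m, hm, hord⟩
    rcases C.zeros ht hC hm hord with h | ⟨b', hb'⟩
    · refine ⟨(1 + I) / 2, δ, 0, IE_InQI_half, hδQ, ?_, ?_⟩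
      · simpa using (hinf P h).1
      · simpa using (hinf P h).2
    · have hb'2 : b' ^ 2 = b ^ 2 := by rw [hb'.eq, hb.eq]
      obtain ⟨n1, n2, n3, n4, w1, w2, w3, w4⟩ := C.values_zero ht hC hb'
      rcases sq_eq_sq_iff_eq_or_eq_neg.1 hb'2 with rfl | rfl
      · refine ⟨0, 0, 1, IE_InQI_zero, IE_InQI_zero, Or.inl ⟨n1, n2, ?_, ?_, ?_⟩,
          Or.inl ⟨n3, n4, ?_, ?_, ?_⟩⟩
        · simpa using A1.1
        · simpa using w1.trans A1.2.1.symm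
        · simpa using w2.trans A1.2.2.symm
        · simpa using A2.1
        · simpa using w3.trans A2.2.1.symm
        · simpa using w4.trans A2.2.2.symm
      · refine ⟨0, 0, -1, IE_InQI_zero, IE_InQI_zero, Or.inl ⟨n1, n2, ?_, ?_, ?_⟩,
          Or.inl ⟨n3, n4, ?_, ?_, ?_⟩⟩
        · simpa using A1.1
        · have : (0 : ℂ) * Om + ((-1 : ℤ) : ℂ) * u₁ = -u₁ := by push_cast; ring
          rw [this, Pf_neg, w1, A1.2.1]
        · have : (0 : ℂ) * Om + ((-1 : ℤ) : ℂ) * u₁ = -u₁ := by push_cast; ring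
          rw [this, Qf_neg, w2, A1.2.2]; ring
        · simpa using A2.1
        · have : (0 : ℂ) * Om + ((-1 : ℤ) : ℂ) * u₂ = -u₂ := by push_cast; ring
          rw [this, Pf_neg, w3, A2.2.1]
        · have : (0 : ℂ) * Om + ((-1 : ℤ) : ℂ) * u₂ = -u₂ := by push_cast; ring
          rw [this, Qf_neg, w4, A2.2.2]; ring
  refine ⟨u₁, u₂, b, hb2, A1.1, A2.1, A1.2.1, A1.2.2, A2.2.1, A2.2.2, ?_, ?_, ?_⟩
  · -- all periods
    rintro J ⟨γ, h0, h1, hI⟩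
    obtain ⟨σ₁, σ₂, hσ₁, hσ₂, hσ, hj₁, hj₂⟩ := IE_arc C ht hC γ
    obtain ⟨c₁, c₂, k, hc₁, hc₂, e₁, e₂⟩ := hzero _ h0
    obtain ⟨c₁', c₂', k', hc₁', hc₂', e₁', e₂'⟩ := hzero _ h1
    obtain ⟨f₁, f₂⟩ := IE_lift C ht hC hσ₁ hσ₂ e₁ e₂ 1 (by simp)
    rw [IE_om_int C ht hC hσ hj₁ hj₂] at hI
    obtain ⟨g₁, hg₁, hg₁'⟩ := mem_lat.1 (IE_atE_unique f₁ e₁')
    obtain ⟨g₂, hg₂, hg₂'⟩ := mem_lat.1 (IE_atE_unique f₂ e₂')
    refine ⟨c₁' - c₁ + g₁, c₂' - c₂ + g₂, k' - k,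
      IE_InQI_add (IE_InQI_sub hc₁' hc₁) (IE_InQI_of_InZI hg₁),
      IE_InQI_add (IE_InQI_sub hc₂' hc₂) (IE_InQI_of_InZI hg₂), ?_⟩
    rw [hI]
    push_cast
    linear_combination (1 / 12 : ℂ) * hg₁' - s2 / 12 * hg₂'
  · -- the period from infinity to `(0, b)`
    refine ⟨-((1 + I) / 2), -δ, IE_InQI_neg IE_InQI_half, IE_InQI_neg hδQ, γ₁,
      C.zero_inf ht hC hγ0, C.zero_zero ht hC hb, ?_⟩
    rw [IE_om_int C ht hC hρ hi₁ hi₂, hu₁, hu₂]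
    ring
  · -- the period through the Weierstrass point
    obtain ⟨γ, a₀, h0, h1, ha₀, hW, hsym⟩ := arc_two C ht hC
    obtain ⟨σ₁, σ₂, hσ₁, hσ₂, hσ, hj₁, hj₂⟩ := IE_arc C ht hC γ
    have hlift := IE_lift C ht hC hσ₁ hσ₂ (hinf _ h0).1 (hinf _ h0).2
    obtain ⟨f₁, f₂⟩ := hlift 1 (by simp)
    obtain ⟨g₁, hg₁, hg₁'⟩ := mem_lat.1 (IE_atE_unique f₁ (hinf _ h1).1)
    obtain ⟨g₂, hg₂, hg₂'⟩ := mem_lat.1 (IE_atE_unique f₂ (hinf _ h1).2)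
    rw [add_sub_cancel_left] at hg₁' hg₂'
    refine ⟨g₁, g₂, IE_InQI_of_InZI hg₁, IE_InQI_of_InZI hg₂, ?_, γ,
      C.zero_inf ht hC h0, C.zero_inf ht hC h1, ?_⟩
    swap
    · rw [IE_om_int C ht hC hσ hj₁ hj₂, hg₁', hg₂']
      ring
    intro hzero'
    have hg0 : g₁ - s2 * g₂ = 0 := by
      rcases mul_eq_zero.1 hzero' with h | h
      · exact h
      · exact absurd h Om_ne_zero
    obtain ⟨hg10, -⟩ := IE_s2_indep (IE_InQI_of_InZI hg₁) (IE_InQI_of_InZI hg₂) hg0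
    rw [hg10, zero_mul] at hg₁'
    -- symmetry
    have hs1 : ∀ s ∈ Ioo (0 : ℝ) 1, s ≠ 1 / 2 → σ₁ (1 - s) = σ₁ s := by
      rw [IE_eta1_eq C] at hσ₁
      exact density_symm C _ γ hσ₁ hsym
    have hc : ContinuousOn σ₁ (Icc 0 1) := hσ₁.1
    have hi1 : IntervalIntegrable σ₁ MeasureTheory.volume 0 (1 / 2) :=
      (hc.mono (by
        rw [uIcc_of_le (by norm_num)]
        exact Icc_subset_Icc_right (by norm_num))).intervalIntegrable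
    have hi2 : IntervalIntegrable σ₁ MeasureTheory.volume (1 / 2) 1 :=
      (hc.mono (by
        rw [uIcc_of_le (by norm_num)]
        exact Icc_subset_Icc_left (by norm_num))).intervalIntegrable
    have hsplit : (∫ s in (0 : ℝ)..1, σ₁ s) =
        (∫ s in (0 : ℝ)..(1 / 2), σ₁ s) + ∫ s in (1 / 2 : ℝ)..1, σ₁ s :=
      (intervalIntegral.integral_add_adjacent_intervals hi1 hi2).symm
    have hrefl : (∫ s in (1 / 2 : ℝ)..1, σ₁ s) = ∫ s in (0 : ℝ)..(1 / 2), σ₁ s := by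
      have e1 : (∫ s in (0 : ℝ)..(1 / 2), σ₁ (1 - s)) = ∫ s in (1 / 2 : ℝ)..1, σ₁ s := by
        rw [intervalIntegral.integral_comp_sub_left (fun x => σ₁ x)]
        norm_num
      rw [← e1]
      apply intervalIntegral.integral_congr_ae
      have : ∀ᵐ s ∂(MeasureTheory.volume : MeasureTheory.Measure ℝ), s ≠ 1 / 2 := by
        simp [MeasureTheory.ae_iff]
      filter_upwards [this] with s hs hs'
      rw [uIoc_of_le (by norm_num)] at hs'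
      exact hs1 s ⟨hs'.1, by linarith [hs'.2]⟩ hs
    have hhalf : (∫ s in (0 : ℝ)..(1 / 2), σ₁ s) = 0 := by
      rw [hg₁', hrefl] at hsplit
      have : (2 : ℂ) * ∫ s in (0 : ℝ)..(1 / 2), σ₁ s = 0 := by
        rw [two_mul]; exact hsplit.symm
      simpa using this
    obtain ⟨w₁, -⟩ := hlift (1 / 2) ⟨by norm_num, by norm_num⟩
    rw [hhalf, add_zero] at w₁
    obtain ⟨x1, x2⟩ := C.value_weierstrass ht hC hW ha₀
    rcases w₁ with ⟨_, _, _, h4, _⟩ | ⟨h, _⟩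
    · rw [x2, hPε] at h4
      exact one_ne_zero h4
    · exact h x1

end Pool.Agent.Arith
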