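import Pool.Agent.Lib.MP_c0402d_ag.HD

/-!
# The members are specialisations of members with a transcendental parameter
-/

set_option autoImplicit false

namespace Pool.Agent.Arith

open KaehlerDifferential Polynomial

/-- An algebraically closed extension of `κ` of transcendence degree one. -/
theorem exists_field_place (κ : Type) [Field κ] :
    ∃ (K : Type) (_ : Field K) (_ : Algebra κ K) (s : K),
      IsAlgClosed K ∧ Transcendental κ s ∧ Algebra.trdeg κ K = 1 := by
  refine ⟨AlgebraicClosure (RatFunc κ), inferInstance, inferInstance,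
    algebraMap (RatFunc κ) _ RatFunc.X, inferInstance, ?_, ?_⟩
  · have h1 : Transcendental κ (RatFunc.X : RatFunc κ) := RatFunc.transcendental_X
    exact (transcendental_algebraMap_iff (algebraMap (RatFunc κ)
      (AlgebraicClosure (RatFunc κ))).injective).2 h1
  · have h3 : Algebra.IsAlgebraic κ[X] (RatFunc κ) :=
      IsLocalization.isAlgebraic (RatFunc κ) (nonZeroDivisors κ[X])
    have h1 := trdeg_add_eq κ κ[X] (A := RatFunc κ)
    have h2 := trdeg_add_eq κ (RatFunc κ) (A := AlgebraicClosure (RatFunc κ))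
    rw [trdeg_eq_zero (R := κ[X]) (A := RatFunc κ), add_zero] at h1
    rw [trdeg_eq_zero (R := RatFunc κ) (A := AlgebraicClosure (RatFunc κ)), add_zero] at h2
    rw [← h2, ← h1]
    exact Polynomial.trdeg_of_isDomain

section gauss

variable {K L κ : Type} [Field K] [Field L] [Algebra K L] [Field κ]
  (R : ValuationSubring K) (φ : R →+* κ) (v : L)

/-- evaluation of a polynomial with coefficients in `R` -/
noncomputable def evR (g : Polynomial R) : L := aeval v (g.map R.subtype)

theorem evR_add (g h : Polynomial R) : evR R v (g + h) = evR R v g + evR R v h := by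
  simp [evR]
theorem evR_mul (g h : Polynomial R) : evR R v (g * h) = evR R v g * evR R v h := by
  simp [evR]
theorem evR_one : evR R v (1 : Polynomial R) = 1 := by
  simp [evR]
theorem evR_neg (g : Polynomial R) : evR R v (-g) = -evR R v g := by
  simp [evR]

theorem evR_inj (hv : Transcendental K v) {g h : Polynomial R} (e : evR R v g = evR R v h) :
    g = h := by
  have h1 : g.map R.subtype = h.map R.subtype := transcendental_iff_injective.1 hv e
  exact Polynomial.map_injective _ (Subtype.val_injective) h1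

/-- the local ring of the Gauss valuation -/
def gaussRing : Subring L where
  carrier := {x | ∃ g h : Polynomial R, h.map φ ≠ 0 ∧ x * evR R v h = evR R v g}
  mul_mem' := by
    rintro x y ⟨g, h, hh, e⟩ ⟨g', h', hh', e'⟩
    refine ⟨g * g', h * h', ?_, ?_⟩
    · rw [Polynomial.map_mul]; exact mul_ne_zero hh hh'
    · rw [evR_mul, evR_mul]; linear_combination (y * evR R v h') * e + evR R v g * e'
  one_mem' := ⟨1, 1, by simp, by simp⟩
  add_mem' := by
    rintro x y ⟨g, h, hh, e⟩ ⟨g', h', hh', e'⟩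
    refine ⟨g * h' + g' * h, h * h', ?_, ?_⟩
    · rw [Polynomial.map_mul]; exact mul_ne_zero hh hh'
    · rw [evR_add, evR_mul, evR_mul, evR_mul]
      linear_combination evR R v h' * e + evR R v h * e'
  zero_mem' := ⟨0, 1, by simp, by simp [evR]⟩
  neg_mem' := by
    rintro x ⟨g, h, hh, e⟩
    exact ⟨-g, h, hh, by rw [evR_neg]; linear_combination -e⟩

/-- its maximal ideal -/
def gaussIdeal : Ideal (gaussRing R φ v) where
  carrier := {x | ∃ g h : Polynomial R, h.map φ ≠ 0 ∧ g.map φ = 0 ∧
    (x : L) * evR R v h = evR R v g}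
  add_mem' := by
    rintro x y ⟨g, h, hh, hg, e⟩ ⟨g', h', hh', hg', e'⟩
    refine ⟨g * h' + g' * h, h * h', ?_, ?_, ?_⟩
    · rw [Polynomial.map_mul]; exact mul_ne_zero hh hh'
    · simp [hg, hg']
    · rw [evR_add, evR_mul, evR_mul, evR_mul]
      push_cast
      linear_combination evR R v h' * e + evR R v h * e'
  zero_mem' := ⟨0, 1, by simp, by simp, by simp [evR]⟩
  smul_mem' := by
    rintro ⟨c, a, b, hb, hc⟩ x ⟨g, h, hh, hg, e⟩
    refine ⟨a * g, b * h, ?_, ?_, ?_⟩
    · rw [Polynomial.map_mul]; exact mul_ne_zero hb hh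
    · simp [hg]
    · rw [evR_mul, evR_mul]
      change (c * (x : L)) * _ = _
      linear_combination ((x : L) * evR R v h) * hc + evR R v a * e

theorem gaussIdeal_ne_top (hv : Transcendental K v) : gaussIdeal R φ v ≠ ⊤ := by
  rw [Ideal.ne_top_iff_one]
  rintro ⟨g, h, hh, hg, e⟩
  apply hh
  have h1 : evR R v h = evR R v g := by simpa using e
  rw [evR_inj R v hv h1, hg]

/-- The Gauss extension. -/
theorem exists_gauss (hv : Transcendental K v)
    (hφ' : ∀ r : K, r ∈ R.nonunits → ∃ h : r ∈ R, φ ⟨r, h⟩ = 0) :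
    ∃ O : ValuationSubring L, (∀ r : K, r ∈ R ↔ algebraMap K L r ∈ O) ∧
      (∀ g : Polynomial R, evR R v g ∈ O) ∧
      ∀ g : Polynomial R, (evR R v g ∈ O.nonunits ↔ g.map φ = 0) := by
  obtain ⟨O, hO, hO'⟩ := Ideal.image_subset_nonunits_valuationSubring _
    (gaussIdeal_ne_top R φ v hv)
  have hmem : ∀ g : Polynomial R, evR R v g ∈ gaussRing R φ v := fun g =>
    ⟨g, 1, by simp, by simp [evR]⟩
  have hC : ∀ r : R, algebraMap K L r = evR R v (C r) := by
    intro r; simp [evR]
  have hnon : ∀ r : K, r ∈ R.nonunits → algebraMap K L r ∈ O.nonunits := by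
    intro r hr
    obtain ⟨h, h0⟩ := hφ' r hr
    have h1 := hC ⟨r, h⟩
    refine hO' ⟨⟨_, hmem (C ⟨r, h⟩)⟩, ⟨C ⟨r, h⟩, 1, by simp, by simp [h0], by simp [evR]⟩, ?_⟩
    exact h1.symm
  refine ⟨O, fun r => ⟨fun hr => ?_, fun hr => ?_⟩, ?_, fun g => ⟨fun hg => ?_, fun hg => ?_⟩⟩
  · apply hO
    have h1 := hC ⟨r, hr⟩
    change algebraMap K L r ∈ gaussRing R φ v
    rw [show algebraMap K L r = evR R v (C ⟨r, hr⟩) from h1]
    exact hmem _
  · by_contra hcon
    have h1 : r⁻¹ ∈ R.nonunits := by
      rw [ValuationSubring.mem_nonunits_iff_or]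
      right
      rwa [inv_inv]
    have h2 := hnon _ h1
    rw [ValuationSubring.mem_nonunits_iff_or] at h2
    rcases h2 with h2 | h2
    · have h3 : r⁻¹ = 0 := by simpa using h2
      rw [inv_eq_zero] at h3
      rw [h3] at hcon
      exact hcon R.zero_mem
    · rw [map_inv₀, inv_inv] at h2
      exact h2 hr
  · exact fun g => hO (hmem g)
  · by_contra hne
    have h1 : (evR R v g)⁻¹ ∈ O := by
      apply hO
      refine ⟨1, g, hne, ?_⟩
      rw [evR_one]
      apply inv_mul_cancel₀
      intro h0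
      apply hne
      have h2 : g = 0 := evR_inj R v hv (by rw [h0]; simp [evR])
      rw [h2, Polynomial.map_zero]
    rw [ValuationSubring.mem_nonunits_iff_or] at hg
    rcases hg with hg | hg
    · apply hne
      have h2 : g = 0 := evR_inj R v hv (by rw [hg]; simp [evR])
      rw [h2, Polynomial.map_zero]
    · exact hg h1
  · exact hO' ⟨⟨_, hmem g⟩, ⟨g, 1, by simp, hg, by simp [evR]⟩, rfl⟩

/-- reduction of `evR` -/
theorem ψ_evR {κ l : Type} [Field κ] [Field l] [Algebra κ l] (ρ : Red K L κ l) (z : ρ.O)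
    (g : Polynomial ρ.R) (h : evR ρ.R (z : L) g ∈ ρ.O) :
    ρ.ψ ⟨_, h⟩ = aeval (ρ.ψ z) (g.map ρ.φ) := by
  let j : ρ.R →+* ρ.O :=
    { toFun := fun r => ⟨algebraMap K L r, (ρ.mem r).1 r.2⟩
      map_one' := by ext; simp
      map_mul' := fun a b => by ext; simp
      map_zero' := by ext; simp
      map_add' := fun a b => by ext; simp }
  have h1 : (⟨_, h⟩ : ρ.O) = eval₂ j z g := by
    apply Subtype.ext
    change evR ρ.R (z : L) g = ρ.O.subtype (eval₂ j z g)
    rw [hom_eval₂, evR, aeval_def, eval₂_map]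
    rfl
  rw [h1, hom_eval₂, aeval_def, eval₂_map]
  congr 1
  ext r
  exact ρ.compat r _

end gauss

theorem fR_eval_hom {A B : Type} [CommRing A] [CommRing B] (f : A →+* B) (x : A) :
    f ((fR A).eval x) = (fR B).eval (f x) := by
  simp only [fR, eval_mul, eval_add, eval_pow, eval_ofNat, eval_X, eval_one, map_mul, map_add,
    map_pow, map_ofNat, map_one]

/-- Every member is a specialisation of a member with a transcendental parameter. -/
theorem member_generic {κ l : Type} [Field κ] [CharZero κ] [IsAlgClosed κ] [Field l] [Algebra κ l]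
    {t₀ : κ} {η : Ω[l⁄κ]} (hm : Fam.Member t₀ η) :
    ∃ (K L : Type) (_ : Field K) (_ : CharZero K) (_ : IsAlgClosed K) (_ : Field L)
      (_ : Algebra K L) (t : K) (ω : Ω[L⁄K]), Transcendental ℚ t ∧ Fam.Member t ω ∧
      Specialises ω η := by
  obtain ⟨hft, C₀, c₀, hC₀, hc₀, hη⟩ := (member_iff t₀ η).1 hm
  obtain ⟨K, _, _, s, hKac, hs, htr⟩ := exists_field_place κ
  have hK0 : CharZero K := charZero_of_injective_algebraMap (algebraMap κ K).injective
  obtain ⟨P, hP⟩ := exists_place_zero hs
  -- the place of `K`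
  have hval : ∀ r : P.O, ∃ c : κ, (r : K) - algebraMap κ K c ∈ P.O.nonunits :=
    fun r => P.exists_value htr r.2
  choose φ₀ hφ₀ using hval
  have hadd : ∀ a b : K, a ∈ P.O.nonunits → b ∈ P.O.nonunits → a + b ∈ P.O.nonunits := by
    intro a b ha hb
    rw [ValuationSubring.mem_nonunits_iff] at ha hb ⊢
    exact P.O.valuation.map_add_lt ha hb
  have hmul : ∀ a b : K, a ∈ P.O → b ∈ P.O.nonunits → a * b ∈ P.O.nonunits := by
    intro a b ha hb
    rw [ValuationSubring.mem_nonunits_iff] at hb ⊢
    rw [map_mul, mul_comm]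
    exact mul_lt_one_of_lt_of_le hb ((P.O.valuation_le_one_iff _).2 ha)
  let φ : P.O →+* κ :=
    { toFun := φ₀
      map_one' := by
        apply Place.value_unique (hφ₀ 1)
        simp
      map_mul' := fun a b => by
        apply Place.value_unique (hφ₀ (a * b))
        have h1 := hmul b _ b.2 (hφ₀ a)
        have h2 := hmul (algebraMap κ K (φ₀ a)) _ (P.base _) (hφ₀ b)
        have h3 := hadd _ _ h1 h2
        have h4 : ((a * b : P.O) : K) - algebraMap κ K (φ₀ a * φ₀ b) =
          (b : K) * ((a : K) - algebraMap κ K (φ₀ a)) +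
            algebraMap κ K (φ₀ a) * ((b : K) - algebraMap κ K (φ₀ b)) := by
          change (a : K) * (b : K) - algebraMap κ K (φ₀ a * φ₀ b) = _
          rw [map_mul]
          ring
        rw [h4]
        exact h3
      map_zero' := by
        apply Place.value_unique (hφ₀ 0)
        simp
      map_add' := fun a b => by
        apply Place.value_unique (hφ₀ (a + b))
        have h3 := hadd _ _ (hφ₀ a) (hφ₀ b)
        have h4 : ((a + b : P.O) : K) - algebraMap κ K (φ₀ a + φ₀ b) =
          ((a : K) - algebraMap κ K (φ₀ a)) + ((b : K) - algebraMap κ K (φ₀ b)) := by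
          change (a : K) + (b : K) - algebraMap κ K (φ₀ a + φ₀ b) = _
          rw [map_add]
          ring
        rw [h4]
        exact h3 }
  have hφ : ∀ (r : P.O) (c : κ), (r : K) - algebraMap κ K c ∈ P.O.nonunits → φ r = c :=
    fun r c h => Place.value_unique (hφ₀ r) h
  have hφalg : ∀ c : κ, φ ⟨algebraMap κ K c, P.base c⟩ = c := fun c => hφ _ c (by simp)
  have hφsurj : Function.Surjective φ := fun c => ⟨_, hφalg c⟩
  have hφ' : ∀ r : K, r ∈ P.O.nonunits → ∃ h : r ∈ P.O, φ ⟨r, h⟩ = 0 := by
    intro r hr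
    refine ⟨?_, ?_⟩
    · rw [ValuationSubring.mem_nonunits_iff] at hr
      exact (P.O.valuation_le_one_iff _).1 hr.le
    · exact hφ _ 0 (by simpa using hr)
  obtain ⟨hsO, hs0⟩ := hφ' s hP
  -- the parameter
  let tR : P.O := ⟨algebraMap κ K t₀, P.base t₀⟩ + ⟨s, hsO⟩
  have htR : φ tR = t₀ := by
    change φ (_ + _) = _
    rw [map_add, hφalg, hs0, add_zero]
  let t : K := algebraMap κ K t₀ + s
  have htt : (tR : K) = t := rfl
  have htrans : Transcendental ℚ t := by
    intro h
    apply hs
    have h1 : IsAlgebraic κ t := by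
      have : IsScalarTower ℚ κ K := inferInstance
      exact h.tower_top κ
    have h2 := h1.sub (isAlgebraic_algebraMap (R := κ) (A := K) t₀)
    have h3 : t - algebraMap κ K t₀ = s := by
      change algebraMap κ K t₀ + s - algebraMap κ K t₀ = s
      ring
    rwa [h3] at h2
  have hft' : (fR K).eval t ≠ 0 := by
    intro h0
    have h1 : (fR K).eval (tR : K) = (((fR P.O).eval tR : P.O) : K) :=
      (fR_eval_hom P.O.subtype tR).symm
    have h2 : (fR P.O).eval tR = 0 := by
      apply Subtype.ext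
      rw [← h1, htt, h0]
      rfl
    have h3 : φ ((fR P.O).eval tR) = (fR κ).eval t₀ := by
      rw [← htR]
      exact fR_eval_hom φ tR
    rw [h2, map_zero] at h3
    exact hft h3.symm
  obtain ⟨L, _, _, C, hC⟩ := exists_chart (Ft t) (Ft_separable hft') (by
    rw [Ft_natDegree]; norm_num)
  obtain ⟨O, hRO, hev, hred⟩ := exists_gauss P.O φ C.v C.trans hφ'
  -- the residue field
  let jκ : κ →+* O :=
    { toFun := fun c => ⟨algebraMap K L (algebraMap κ K c), (hRO _).1 (P.base c)⟩
      map_one' := by ext; simp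
      map_mul' := fun a b => by ext; simp
      map_zero' := by ext; simp
      map_add' := fun a b => by ext; simp }
  let l' : Type := IsLocalRing.ResidueField O
  let π : O →+* l' := IsLocalRing.residue O
  let _ : Algebra κ l' := (π.comp jκ).toAlgebra
  have hπ0 : ∀ x : O, π x = 0 ↔ (x : L) ∈ O.nonunits := by
    intro x
    rw [IsLocalRing.residue_eq_zero_iff]
    rw [← ValuationSubring.coe_mem_nonunits_iff]
  have hcompat : ∀ (r : P.O) (h : algebraMap K L r ∈ O),
      π ⟨algebraMap K L r, h⟩ = algebraMap κ l' (φ r) := by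
    intro r h
    change π _ = π (jκ (φ r))
    rw [← sub_eq_zero, ← map_sub, hπ0]
    have h1 : ((⟨algebraMap K L r, h⟩ - jκ (φ r) : O) : L) =
        evR P.O C.v (Polynomial.C (r - ⟨algebraMap κ K (φ r), P.base _⟩)) := by
      simp [evR, jκ]
    rw [h1, hred]
    rw [Polynomial.map_C, map_sub, hφalg, sub_self, Polynomial.C_0]
  let ρ : Red K L κ l' := ⟨P.O, O, φ, π, hφsurj, IsLocalRing.residue_surjective, hRO, hcompat⟩
  have hv : C.v ∈ O := by
    have := hev X
    simpa [evR] using this
  let z : ρ.O := ⟨C.v, hv⟩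
  have hψev : ∀ g : Polynomial P.O, π ⟨_, hev g⟩ = aeval (π z) (g.map φ) := fun g =>
    ψ_evR ρ z g (hev g)
  have hz : Transcendental κ (π z) := by
    rintro ⟨q, hq, hq0⟩
    obtain ⟨g, rfl⟩ := Polynomial.map_surjective φ hφsurj q
    rw [← hψev, hπ0] at hq0
    exact hq ((hred g).1 hq0)
  -- the second generator
  let FR : Polynomial P.O := (fR P.O).comp (X ^ 2 + Polynomial.C tR)
  have hFR : FR.map P.O.subtype = Ft t := by
    simp [FR, fR, Ft]
    rfl
  have hFRφ : FR.map φ = Ft t₀ := by
    simp only [FR, fR, Ft, Polynomial.map_comp, Polynomial.map_mul, Polynomial.map_add,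
      Polynomial.map_pow, Polynomial.map_X, Polynomial.map_C, Polynomial.map_ofNat,
      Polynomial.map_one, htR]
  have hFt0 : Ft t₀ ≠ 0 := (Ft_separable hft).ne_zero
  have hy2 : C.y ^ 2 = evR P.O C.v FR := by
    rw [C.eq, hC, evR, hFR]
  have hyO : C.y ∈ O := by
    have h1 : C.y ^ 2 ∈ O := by rw [hy2]; exact hev FR
    rw [← ValuationSubring.valuation_le_one_iff] at h1 ⊢
    rw [map_pow] at h1
    exact (pow_le_one_iff (two_ne_zero)).1 h1
  let y : ρ.O := ⟨C.y, hyO⟩
  have hy' : π y ^ 2 = aeval (π z) (Ft t₀) := by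
    rw [← hFRφ, ← hψev, ← map_pow]
    congr 1
    exact Subtype.ext hy2
  have hy0 : π y ≠ 0 := by
    intro h0
    rw [h0] at hy'
    exact hz ⟨Ft t₀, hFt0, by rw [← hy']; simp⟩
  obtain ⟨d, hd, -⟩ := exists_derivation C.trdeg C.trans
  have hbi := (ρ.biquadratic z y 1 hz hy0 (by rw [map_one]; exact one_ne_zero) (Ft t) 1
    (by rw [← hC]; exact C.eq) (by simp) (by
      rw [eq_top_iff, ← C.gen]
      apply IntermediateField.adjoin.mono
      intro x hx
      rcases hx with hx | hx
      · exact Or.inl hx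
      · exact Or.inr (Or.inl hx)) d hd).2
  have hgen : IntermediateField.adjoin κ {π z, π y} = ⊤ := by
    rw [eq_top_iff, ← hbi, IntermediateField.adjoin_le_iff]
    intro x hx
    rcases hx with hx | hx | hx
    · exact IntermediateField.subset_adjoin κ _ (Or.inl hx)
    · exact IntermediateField.subset_adjoin κ _ (Or.inr hx)
    · have h1 : x = 1 := by
        have : x = ρ.ψ 1 := hx
        rw [this, map_one]
      rw [h1]
      exact one_mem _
  let C' : Chart κ l' := ⟨π z, π y, Ft t₀, hy', hz, hgen, Ft_separable hft, by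
    rw [Ft_natDegree]; norm_num⟩
  obtain ⟨e, he1, he2⟩ := chart_iso C' C₀ hC₀.symm
  have hy0L : C.y ≠ 0 := C.y_ne_zero
  have hyinv : (C.y)⁻¹ ∈ O := ((ρ.ψ_ne_zero_iff y).1 hy0).2
  have h2O : (2 : L) ∈ O := by exact_mod_cast natCast_mem O 2
  have haO : algebraMap K L (algebraMap κ K c₀) * (2 * C.v / C.y) ∈ O := by
    refine mul_mem ((hRO _).1 (P.base c₀)) ?_
    rw [div_eq_mul_inv]
    exact mul_mem (mul_mem h2O hv) hyinv
  have hψa : e (π ⟨_, haO⟩) = algebraMap κ l c₀ * (2 * C₀.v / C₀.y) := by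
    have h1 : (⟨_, haO⟩ : O) * y = jκ c₀ * (2 * z) := by
      apply Subtype.ext
      change algebraMap K L (algebraMap κ K c₀) * (2 * C.v / C.y) * C.y =
        algebraMap K L (algebraMap κ K c₀) * (2 * C.v)
      field_simp
    have h2 := congrArg (fun x => e (π x)) h1
    simp only [map_mul, map_ofNat] at h2
    have h3 : e (π (jκ c₀)) = algebraMap κ l c₀ := e.commutes c₀
    have h4 : e (π y) = C₀.y := he2
    have h5 : e (π z) = C₀.v := he1
    rw [h3, h4, h5] at h2
    have hy0' : C₀.y ≠ 0 := C₀.y_ne_zero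
    exact ((eq_div_iff hy0').2 h2).trans (mul_div_assoc _ _ _)
  have hv₀ : C₀.v ≠ 0 := by
    intro h0
    have := C₀.trans
    rw [h0] at this
    exact this isAlgebraic_zero
  refine ⟨K, L, inferInstance, hK0, hKac, inferInstance, inferInstance, t,
    (algebraMap K L (algebraMap κ K c₀) * (2 * C.v / C.y)) • D K L C.v, htrans, ?_, ?_⟩
  · refine (member_iff t _).2 ⟨hft', C, algebraMap κ K c₀, hC, ?_, ?_⟩
    · simpa using hc₀
    · rw [mul_smul, algebraMap_smul]
  · refine ⟨P.O, O, φ, (e : l' →+* l).comp π, hφsurj,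
      e.surjective.comp IsLocalRing.residue_surjective, hRO, ?_, 1, ⟨_, haO⟩, ⟨C.v, hv⟩,
      one_ne_zero, ?_, ?_, ?_, ?_⟩
    · intro r h
      change e (π _) = _
      rw [hcompat, e.commutes]
    · change e (π _) ≠ 0
      rw [hψa]
      have hcl : algebraMap κ l c₀ ≠ 0 := by simpa using hc₀
      have h2 : (2 : l) ≠ 0 := by
        have : CharZero l := charZero_of_injective_algebraMap (algebraMap κ l).injective
        exact two_ne_zero
      exact mul_ne_zero hcl (div_ne_zero (mul_ne_zero h2 hv₀) C₀.y_ne_zero)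
    · change Transcendental κ (e (π z))
      have h5 : e (π z) = C₀.v := he1
      rw [h5]
      exact C₀.trans
    · rw [one_smul]
    · change η = e (π _) • D κ l (e (π z))
      have h5 : e (π z) = C₀.v := he1
      rw [hψa, h5, hη, mul_smul, algebraMap_smul]

end Pool.Agent.Arith
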