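import Pool.Agent.Lib.MP_c0402d_ag.ED

/-!
# JOB TC: a number field and a torsion shift

`η = Om / (1 + I) ^ N` for large `N`: the group generated by the lattice and the `ℤ[i] u_j` is
finitely generated, so it does not contain `Om / (1 + I) ^ N` for all `N` (nor, equivalently, its
negative). `F` is generated by `I`, `S` and the coordinates of `u_j` and `η`; use `GoodPt`.
-/

set_option autoImplicit false

namespace Pool.Agent.Arith

open Complex

private theorem TC_I_int : IsIntegral ℤ I := by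
  refine ⟨Polynomial.X ^ 2 + 1, ?_, ?_⟩
  · have := Polynomial.monic_X_pow_add_C (1 : ℤ) (n := 2) (by norm_num)
    simpa using this
  · simp [Polynomial.eval₂_add, Polynomial.eval₂_pow]

/-- `1 / 2` is not an algebraic integer. -/
private theorem TC_half : ¬ IsIntegral ℤ (1 / 2 : ℂ) := by
  intro h
  have h1 : IsIntegral ℤ (1 / 2 : ℚ) := by
    have e : (1 / 2 : ℂ) = algebraMap ℚ ℂ (1 / 2) := by simp
    rw [e] at h
    exact (isIntegral_algebraMap_iff (algebraMap ℚ ℂ).injective).1 h
  obtain ⟨y, hy⟩ := IsIntegrallyClosed.isIntegral_iff.1 h1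
  have h2 : (y : ℚ) = 1 / 2 := by simpa using hy
  have h3 : ((2 * y : ℤ) : ℚ) = ((1 : ℤ) : ℚ) := by
    push_cast
    rw [h2]
    norm_num
  have h4 : 2 * y = 1 := by exact_mod_cast h3
  omega

private theorem TC_ne : (1 + I : ℂ) ≠ 0 := by
  intro h
  have := congrArg Complex.re h
  simp at this

private theorem TC_sq : (1 + I : ℂ) ^ 2 = 2 * I := by
  linear_combination Complex.I_sq

/-- A finitely generated subgroup of `ℂ` does not contain all `Om / (1 + I) ^ N`. -/
private theorem TC_fg (M : Submodule ℤ ℂ) (hM : M.FG) : ∃ N : ℕ, Om / (1 + I) ^ N ∉ M := by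
  by_contra hcon
  push Not at hcon
  let M' : Submodule ℤ ℂ := Submodule.span ℤ (Set.range fun N : ℕ => Om / (1 + I) ^ N)
  have hle : M' ≤ M := by
    rw [Submodule.span_le]
    rintro _ ⟨N, rfl⟩
    exact hcon N
  have hfg : M'.FG := by
    have : IsNoetherian ℤ M := isNoetherian_of_fg_of_noetherian M hM
    have h1 : (M'.comap M.subtype).FG := IsNoetherian.noetherian _
    have h2 := h1.map M.subtype
    rwa [Submodule.map_comap_eq, Submodule.range_subtype, inf_eq_right.2 hle] at h2
  have hne : M' ≠ ⊥ := by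
    intro h
    have h1 : Om ∈ M' := Submodule.subset_span ⟨0, by simp⟩
    rw [h, Submodule.mem_bot] at h1
    exact Om_ne_zero h1
  have hint : IsIntegral ℤ ((1 + I : ℂ)⁻¹) := by
    refine isIntegral_of_smul_mem_submodule M' hne hfg _ ?_
    intro x hx
    induction hx using Submodule.span_induction with
    | mem x hx =>
      obtain ⟨N, rfl⟩ := hx
      refine Submodule.subset_span ⟨N + 1, ?_⟩
      show Om / (1 + I) ^ (N + 1) = (1 + I)⁻¹ * (Om / (1 + I) ^ N)
      have := TC_ne
      field_simp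
      ring
    | zero =>
      rw [smul_zero]
      exact zero_mem _
    | add x y _ _ hx hy =>
      rw [smul_add]
      exact add_mem hx hy
    | smul a x _ hx =>
      rw [smul_comm]
      exact Submodule.smul_mem _ _ hx
  apply TC_half
  have e : (1 / 2 : ℂ) = I * ((1 + I : ℂ)⁻¹) ^ 2 := by
    rw [inv_pow, TC_sq]
    have := I_ne_zero
    field_simp
  rw [e]
  exact TC_I_int.mul (hint.pow 2)

private theorem TC_lat_Pf {z : ℂ} (h : z ∈ Lam.lattice) : Pf z = 0 := by
  have e := Lam.weierstrassP_coe ⟨z, h⟩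
  unfold Pf
  rw [e, mul_zero]

private theorem TC_lat_Qf {z : ℂ} (h : z ∈ Lam.lattice) : Qf z = 0 := by
  have e := Lam.derivWeierstrassP_coe ⟨z, h⟩
  unfold Qf
  rw [e, mul_zero]

private theorem TC_gauss_mem (n : ℕ) (u : Fin n → ℂ) : ∃ M : Submodule ℤ ℂ, M.FG ∧
    Lam.lattice ≤ M ∧ ∀ g : Fin n → ℂ, (∀ i, InZI (g i)) → ∑ i, g i * u i ∈ M := by
  let T : Set ℂ := {Lam.ω₁, Lam.ω₂} ∪ (Set.range u ∪ Set.range fun i => I * u i)
  have hT : T.Finite :=
    ((Set.finite_singleton _).insert _).union ((Set.finite_range _).union (Set.finite_range _))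
  refine ⟨Submodule.span ℤ T, Submodule.fg_span hT, ?_, ?_⟩
  · exact Submodule.span_mono Set.subset_union_left
  · intro g hg
    refine sum_mem fun i _ => ?_
    obtain ⟨a, b, h⟩ := hg i
    have e : g i * u i = a • u i + b • (I * u i) := by
      rw [h, zsmul_eq_mul, zsmul_eq_mul]
      ring
    rw [e]
    refine add_mem (Submodule.smul_mem _ _ (Submodule.subset_span ?_))
      (Submodule.smul_mem _ _ (Submodule.subset_span ?_))
    · exact Or.inr (Or.inl ⟨i, rfl⟩)
    · exact Or.inr (Or.inr ⟨i, rfl⟩)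

theorem exists_field (n : ℕ) (u : Fin n → ℂ)
    (hu : ∀ j, u j ∈ Lam.lattice ∨ (IsAlgebraic ℚ (Pf (u j)) ∧ IsAlgebraic ℚ (Qf (u j))))
    (S : Set ℂ) (hS : S.Finite) (hSa : ∀ s ∈ S, IsAlgebraic ℚ s) :
    ∃ (F : IntermediateField ℚ ℂ) (η : ℂ), FiniteDimensional ℚ F ∧ (∀ s ∈ S, s ∈ F) ∧
      ∀ g : Fin n → ℂ, (∀ i, InZI (g i)) → (∑ i, g i * u i + η ∉ Lam.lattice) ∧
        Pf (∑ i, g i * u i + η) ∈ F ∧ Qf (∑ i, g i * u i + η) ∈ F := by
  obtain ⟨M, hM, hlat, hgM⟩ := TC_gauss_mem n u
  obtain ⟨N, hN⟩ := TC_fg M hM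
  let η : ℂ := Om / (1 + I) ^ N
  have hη : η ∉ Lam.lattice := fun h => hN (hlat h)
  have halg := (algebraic_torsion N).resolve_left hη
  let T : Set ℂ := (S ∪ {I, Pf η, Qf η}) ∪ (Set.range (fun j => Pf (u j)) ∪
    Set.range fun j => Qf (u j))
  have hT : T.Finite := (hS.union (((Set.finite_singleton _).insert _).insert _)).union
    ((Set.finite_range _).union (Set.finite_range _))
  have hTa : ∀ x ∈ T, IsAlgebraic ℚ x := by
    rintro x ((hx | hx) | hx)
    · exact hSa x hx
    · simp only [Set.mem_insert_iff, Set.mem_singleton_iff] at hx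
      rcases hx with rfl | rfl | rfl
      · exact (TC_I_int.tower_top (A := ℚ)).isAlgebraic
      · exact halg.1
      · exact halg.2
    · rcases hx with ⟨j, rfl⟩ | ⟨j, rfl⟩
      · rcases hu j with h | h
        · show IsAlgebraic ℚ (Pf (u j))
          rw [TC_lat_Pf h]
          exact isAlgebraic_zero
        · exact h.1
      · rcases hu j with h | h
        · show IsAlgebraic ℚ (Qf (u j))
          rw [TC_lat_Qf h]
          exact isAlgebraic_zero
        · exact h.2
  let F : IntermediateField ℚ ℂ := IntermediateField.adjoin ℚ T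
  have hTF : ∀ x ∈ T, x ∈ F := fun x hx => IntermediateField.subset_adjoin ℚ T hx
  have hIF : I ∈ F := hTF I (Or.inl (Or.inr (by simp)))
  have hfin : FiniteDimensional ℚ F := by
    have : Finite T := hT
    exact IntermediateField.finiteDimensional_adjoin fun x hx => (hTa x hx).isIntegral
  refine ⟨F, η, hfin, fun s hs => hTF s (Or.inl (Or.inl hs)), ?_⟩
  intro g hg
  have h1 : ∑ i, g i * u i + η ∉ Lam.lattice := by
    intro h
    apply hN
    have h2 := sub_mem (hlat h) (hgM g hg)
    rwa [add_sub_cancel_left] at h2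
  have hG : ∀ s : Finset (Fin n), GoodPt F.toSubfield (∑ i ∈ s, g i * u i) := by
    intro s
    refine Finset.sum_induction _ (GoodPt F.toSubfield) (fun a b ha hb => ha.add hb)
      (Or.inl (zero_mem _)) ?_
    intro i _
    refine GoodPt.gauss hIF (hg i) ?_
    right
    exact ⟨hTF _ (Or.inr (Or.inl ⟨i, rfl⟩)), hTF _ (Or.inr (Or.inr ⟨i, rfl⟩))⟩
  have hη' : GoodPt F.toSubfield η :=
    Or.inr ⟨hTF _ (Or.inl (Or.inr (by simp))), hTF _ (Or.inl (Or.inr (by simp)))⟩
  rcases (hG Finset.univ).add hη' with h2 | h2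
  · exact absurd h2 h1
  · exact ⟨h1, h2.1, h2.2⟩

end Pool.Agent.Arith
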