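import Pool.Agent.Lib.MP_c0402d_ag.TD1

/-!
# JOB TD: the auxiliary polynomial (arithmetic part)

Work in `R₀ = MvPolynomial (variables X_j, Y_j, B_{jσ}, H) ℤ` (`H` for `1/2`) with the commuting
derivations `X_j ↦ B_{jσ} Y_j`, `Y_j ↦ B_{jσ} H (3 X_j² - 1)`. A derivation raises the total degree
by at most `3` and multiplies the `ℓ¹` norm of the coefficients by at most `4 * degree`. So for
`|λ| ≤ (m+1) d` and a word `w` of length `n`, `D_w (∏ X_j^{λ_j})` has degree at most `(m+1) d + 3 n`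
and `ℓ¹` norm at most `(4 ((m+1) d + 3 n)) ^ n`. Evaluate at the elements of `F` (and at their
conjugates); multiply by `δ ^ ((m+1) d + 3 n)` (`δ` a common denominator) to get algebraic integers.
The derivations commute, so for `|w| < T` there are at most `T ^ m` conditions for each point.
Take `d` minimal with `(d + 1)^(m+1) ≥ 2 #ι T^m` and use
`NumberField.house.exists_ne_zero_int_vec_house_le`. The lower bound is Liouville's inequality
(`NumberField.norm_norm_le_norm_mul_house_pow` or the product of all conjugates).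
-/

set_option autoImplicit false

namespace Pool.Agent.Arith

open Complex MvPolynomial NumberField

section General

variable {K : Type} [Field K] [NumberField K]

theorem TD_siegel0 (K : Type) [Field K] [NumberField K] : ∃ c : ℝ, ∀ (α β : Type) [Fintype α]
    [Fintype β] (a : Matrix α β (𝓞 K)) (_ : a ≠ 0) (p q : ℕ) (_ : 0 < p) (_ : p < q)
    (_ : Fintype.card α = p) (_ : Fintype.card β = q) (A : ℝ)
    (_ : ∀ k l, house (algebraMap (𝓞 K) K (a k l)) ≤ A),
    ∃ ξ : β → 𝓞 K, ξ ≠ 0 ∧ a.mulVec ξ = 0 ∧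
      ∀ l, house (algebraMap (𝓞 K) K (ξ l)) ≤ c * ((c * q * A) ^ ((p : ℝ) / (q - p))) := by
  classical
  exact ⟨_, fun α β _ _ a ha p q h0p hpq cα cβ A habs =>
    NumberField.house.exists_ne_zero_int_vec_house_le K a ha h0p hpq cβ habs cα⟩

theorem TD_siegel (K : Type) [Field K] [NumberField K] : ∃ c : ℝ, 1 ≤ c ∧ ∀ (α β : Type)
    [Fintype α] [Fintype β] (a : Matrix α β (𝓞 K)) (_ : 0 < Fintype.card α)
    (_ : 2 * Fintype.card α ≤ Fintype.card β) (A : ℝ) (_ : 1 ≤ A)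
    (_ : ∀ k l, house (algebraMap (𝓞 K) K (a k l)) ≤ A),
    ∃ ξ : β → 𝓞 K, ξ ≠ 0 ∧ a.mulVec ξ = 0 ∧
      ∀ l, house (algebraMap (𝓞 K) K (ξ l)) ≤ c * Fintype.card β * A := by
  obtain ⟨c₁, hc₁⟩ := TD_siegel0 K
  refine ⟨max 1 (|c₁| * (1 + |c₁|)), le_max_left _ _, ?_⟩
  intro α β _ _ a h0 h2 A hA habs
  have hq : 0 < Fintype.card β := by omega
  have hq1 : (1 : ℝ) ≤ Fintype.card β := by exact_mod_cast hq
  have hqA : 1 ≤ (Fintype.card β : ℝ) * A := one_le_mul_of_one_le_of_one_le hq1 hA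
  by_cases ha : a = 0
  · obtain ⟨b⟩ := Fintype.card_pos_iff.1 hq
    refine ⟨fun _ => 1, ?_, ?_, ?_⟩
    · intro h
      exact one_ne_zero (congrFun h b)
    · rw [ha]; simp
    · intro l
      have h1 : house (algebraMap (𝓞 K) K 1) = 1 := by
        have := house_intCast (K := K) 1
        simpa using this
      rw [h1, mul_assoc]
      exact one_le_mul_of_one_le_of_one_le (le_max_left _ _) hqA
  · obtain ⟨ξ, h1, h3, h4⟩ := hc₁ α β a ha _ _ h0 (by omega) rfl rfl A habs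
    refine ⟨ξ, h1, h3, fun l => (h4 l).trans ?_⟩
    set q := Fintype.card β
    set p := Fintype.card α
    have hpq : (p : ℝ) / (q - p) ≤ 1 := by
      have h2' : (2 : ℝ) * p ≤ q := by exact_mod_cast h2
      have hp : (0 : ℝ) < p := by exact_mod_cast h0
      rw [div_le_one (by linarith)]
      linarith
    have hpq0 : 0 ≤ (p : ℝ) / (q - p) := by
      have h2' : (2 : ℝ) * p ≤ q := by exact_mod_cast h2
      have hp : (0 : ℝ) < p := by exact_mod_cast h0
      apply div_nonneg <;> linarith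
    have habs1 : |c₁ * q * A| = |c₁| * (q * A) := by
      rw [mul_assoc, abs_mul, abs_of_nonneg (by linarith : (0 : ℝ) ≤ q * A)]
    have h5 : |(c₁ * q * A) ^ ((p : ℝ) / (q - p))| ≤ (1 + |c₁|) * (q * A) := by
      refine (Real.abs_rpow_le_abs_rpow _ _).trans ?_
      rw [habs1]
      have h6 : |c₁| * (q * A) ≤ (1 + |c₁|) * (q * A) := by nlinarith [abs_nonneg c₁]
      have h7 : 1 ≤ (1 + |c₁|) * (q * A) := by
        have := abs_nonneg c₁
        exact one_le_mul_of_one_le_of_one_le (by linarith) hqA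
      calc (|c₁| * (q * A)) ^ ((p : ℝ) / (q - p)) ≤ ((1 + |c₁|) * (q * A)) ^ ((p : ℝ) / (q - p)) := by
            apply Real.rpow_le_rpow _ h6 hpq0
            have := abs_nonneg c₁
            positivity
        _ ≤ ((1 + |c₁|) * (q * A)) ^ (1 : ℝ) := Real.rpow_le_rpow_of_exponent_le h7 hpq
        _ = _ := Real.rpow_one _
    calc c₁ * (c₁ * q * A) ^ ((p : ℝ) / (q - p)) ≤ |c₁ * (c₁ * q * A) ^ ((p : ℝ) / (q - p))| :=
          le_abs_self _
      _ = |c₁| * |(c₁ * q * A) ^ ((p : ℝ) / (q - p))| := abs_mul _ _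
      _ ≤ |c₁| * ((1 + |c₁|) * (q * A)) := by
          apply mul_le_mul_of_nonneg_left h5 (abs_nonneg _)
      _ = (|c₁| * (1 + |c₁|)) * (q * A) := by ring
      _ ≤ max 1 (|c₁| * (1 + |c₁|)) * (q * A) := by
          apply mul_le_mul_of_nonneg_right (le_max_right _ _) (by linarith)
      _ = _ := by ring

theorem TD_house_le {x : K} {B : ℝ} (hB : 0 ≤ B) (h : ∀ φ : K →+* ℂ, ‖φ x‖ ≤ B) :
    house x ≤ B := by
  unfold house
  rw [pi_norm_le_iff_of_nonneg hB]
  intro φ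
  exact h φ

theorem TD_denom (s : Finset K) : ∃ δ : ℕ, 0 < δ ∧ ∀ x ∈ s, IsIntegral ℤ ((δ : K) * x) := by
  obtain ⟨y, hy, h⟩ := exists_integral_multiples ℤ ℚ s
  refine ⟨y.natAbs, Int.natAbs_pos.2 hy, fun x hx => ?_⟩
  have h1 := h x hx
  rw [zsmul_eq_mul] at h1
  have h2 : ((y.natAbs : ℤ) : K) = ((y.natAbs : ℕ) : K) := Int.cast_natCast _
  rcases Int.natAbs_eq y with h3 | h3
  · rw [← h2, ← h3]; exact h1
  · have h4 : ((y.natAbs : ℕ) : K) = -(y : K) := by
      rw [← h2]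
      conv_rhs => rw [h3]
      push_cast
      ring
    rw [h4, neg_mul]
    exact h1.neg

theorem TD_integral {σ : Type} {x : σ → K} {δ : ℕ} (hx : ∀ v, IsIntegral ℤ ((δ : K) * x v))
    {P : MvPolynomial σ ℤ} {N : ℕ} (hP : P.totalDegree ≤ N) :
    IsIntegral ℤ ((δ : K) ^ N * aeval x P) := by
  rw [aeval_def, eval₂_eq, Finset.mul_sum]
  apply IsIntegral.sum
  intro s hs
  have hs' : s.sum (fun _ e => e) ≤ N := (le_totalDegree hs).trans hP
  rw [Finsupp.sum] at hs'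
  have h1 : (δ : K) ^ N * (algebraMap ℤ K (coeff s P) * ∏ i ∈ s.support, x i ^ s i) =
      algebraMap ℤ K (coeff s P) * ((δ : K) ^ (N - ∑ i ∈ s.support, s i) *
        ∏ i ∈ s.support, ((δ : K) * x i) ^ s i) := by
    have h2 : ∏ i ∈ s.support, ((δ : K) * x i) ^ s i =
        (δ : K) ^ (∑ i ∈ s.support, s i) * ∏ i ∈ s.support, x i ^ s i := by
      rw [← Finset.prod_pow_eq_pow_sum, ← Finset.prod_mul_distrib]
      apply Finset.prod_congr rfl
      intro i _
      rw [mul_pow]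
    have h3 : (δ : K) ^ N = (δ : K) ^ (N - ∑ i ∈ s.support, s i) * (δ : K) ^ (∑ i ∈ s.support, s i) := by
      rw [← pow_add, Nat.sub_add_cancel hs']
    rw [h2, h3]
    ring
  rw [h1]
  apply IsIntegral.mul isIntegral_algebraMap
  apply IsIntegral.mul
  · apply IsIntegral.pow
    have : ((δ : ℤ) : K) = (δ : K) := by norm_cast
    rw [← this]
    exact isIntegral_algebraMap (R := ℤ) (x := (δ : ℤ))
  · apply IsIntegral.prod
    intro i _
    exact (hx i).pow _

theorem TD_bound {σ : Type} {z : σ → ℂ} {M : ℝ} (hM : 1 ≤ M) (hz : ∀ v, ‖z v‖ ≤ M)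
    {P : MvPolynomial σ ℤ} {N : ℕ} (hP : P.totalDegree ≤ N) :
    ‖aeval z P‖ ≤ l1 P * M ^ N := by
  rw [aeval_def, eval₂_eq]
  refine (norm_sum_le _ _).trans ?_
  unfold l1
  push_cast
  rw [Finset.sum_mul]
  apply Finset.sum_le_sum
  intro s hs
  have hs' : s.sum (fun _ e => e) ≤ N := (le_totalDegree hs).trans hP
  rw [Finsupp.sum] at hs'
  rw [norm_mul, norm_prod]
  have h1 : ‖algebraMap ℤ ℂ (coeff s P)‖ = |((coeff s P : ℤ) : ℝ)| := by
    rw [eq_intCast, Complex.norm_intCast]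
  rw [h1]
  have h2 : ∏ i ∈ s.support, ‖z i ^ s i‖ ≤ M ^ N := by
    calc ∏ i ∈ s.support, ‖z i ^ s i‖ ≤ ∏ i ∈ s.support, M ^ s i := by
          apply Finset.prod_le_prod (fun i _ => norm_nonneg _)
          intro i _
          rw [norm_pow]
          exact pow_le_pow_left₀ (norm_nonneg _) (hz i) _
      _ = M ^ (∑ i ∈ s.support, s i) := by rw [Finset.prod_pow_eq_pow_sum]
      _ ≤ M ^ N := pow_le_pow_right₀ hM hs'
  have h3 : |((coeff s P : ℤ) : ℝ)| = ((coeff s P).natAbs : ℝ) := by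
    rw [Nat.cast_natAbs]; push_cast; rfl
  rw [h3]
  exact mul_le_mul_of_nonneg_left h2 (by positivity)

theorem TD_map {σ : Type} (φ : K →+* ℂ) (x : σ → K) (P : MvPolynomial σ ℤ) :
    φ (aeval x P) = aeval (fun v => φ (x v)) P := by
  rw [aeval_def, aeval_def, eval₂_eq, eval₂_eq, map_sum]
  apply Finset.sum_congr rfl
  intro s _
  rw [map_mul, map_prod]
  simp

theorem TD_liouville {x : K} (hx : x ≠ 0) (φ : K →+* ℂ) {δ : ℕ} (hδ : 0 < δ)
    (hi : IsIntegral ℤ ((δ : K) * x)) {H : ℝ} (hH : house x ≤ H) :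
    1 ≤ (δ : ℝ) * ‖φ x‖ * ((δ : ℝ) * H) ^ (Module.finrank ℚ K - 1) := by
  have hδK : (δ : K) ≠ 0 := by exact_mod_cast hδ.ne'
  have h0 : (δ : K) * x ≠ 0 := mul_ne_zero hδK hx
  have h1 : (1 : ℝ) ≤ ‖Algebra.norm ℚ ((δ : K) * x)‖ := by
    have h2 : IsIntegral ℤ (Algebra.norm ℚ ((δ : K) * x)) := Algebra.isIntegral_norm ℚ hi
    obtain ⟨n, hn⟩ := IsIntegrallyClosed.isIntegral_iff.1 h2
    have h3 : Algebra.norm ℚ ((δ : K) * x) ≠ 0 := by
      rw [Ne, Algebra.norm_eq_zero_iff]; exact h0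
    rw [← hn] at h3 ⊢
    rw [eq_intCast] at h3 ⊢
    have h4 : n ≠ 0 := by
      rintro rfl
      simp at h3
    have h5 : ‖(n : ℚ)‖ = |(n : ℝ)| := by
      rw [← Rat.norm_cast_real]
      simp
    rw [h5]
    have := Int.one_le_abs h4
    exact_mod_cast this
  refine h1.trans ((norm_norm_le_norm_mul_house_pow _ φ).trans ?_)
  have h6 : ‖φ ((δ : K) * x)‖ = (δ : ℝ) * ‖φ x‖ := by
    rw [map_mul, norm_mul]; simp
  rw [h6]
  have h7 : house ((δ : K) * x) ≤ (δ : ℝ) * H := by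
    rw [house_nat_mul]
    exact mul_le_mul_of_nonneg_left hH (by positivity)
  apply mul_le_mul_of_nonneg_left _ (by positivity)
  exact pow_le_pow_left₀ (house_nonneg _) h7 _

end General

theorem TD_Dword_zero {m : ℕ} (B : Fin (m + 1) → Fin m → ℂ) (w : List (Fin m)) :
    Dword B w 0 = 0 := by
  have := Dword_C_mul B w 0 0
  simpa using this

theorem TD_Dword_sum {m : ℕ} (B : Fin (m + 1) → Fin m → ℂ) (w : List (Fin m)) {α : Type}
    (s : Finset α) (f : α → MvPolynomial (Vr m) ℂ) :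
    Dword B w (∑ e ∈ s, f e) = ∑ e ∈ s, Dword B w (f e) := by
  classical
  induction s using Finset.induction_on with
  | empty => simp [TD_Dword_zero]
  | insert a s ha ih => rw [Finset.sum_insert ha, Finset.sum_insert ha, Dword_add, ih]

theorem TD_eval_Gpoly {m d : ℕ} (B : Fin (m + 1) → Fin m → ℂ) (w : List (Fin m))
    (p : (Fin (m + 1) → Fin (d + 1)) → ℂ) (z : Vr m → ℂ) :
    eval z (Dword B w (Gpoly p)) =
      ∑ e, p e * eval z (Dword B w (∏ j, X (Sum.inl j) ^ (e j : ℕ))) := by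
  unfold Gpoly
  rw [TD_Dword_sum, map_sum]
  apply Finset.sum_congr rfl
  intro e _
  rw [Dword_C_mul, map_mul, eval_C]

/-- Representatives of the words up to permutation. -/
theorem TD_words (m T : ℕ) (hT : 1 ≤ T) : ∃ W : (Fin m → Fin T) → List (Fin m),
    (∀ a, (W a).length < T) ∧ ∀ w : List (Fin m), w.length < T → ∃ a, w.Perm (W a) := by
  classical
  refine ⟨fun a => if h : ∃ w : List (Fin m), w.length < T ∧ ∀ σ, w.count σ = a σ then h.choose
    else [], ?_, ?_⟩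
  · intro a
    dsimp only
    split_ifs with h
    · exact h.choose_spec.1
    · exact hT
  · intro w hw
    have hc : ∀ σ, w.count σ < T := fun σ => lt_of_le_of_lt List.count_le_length hw
    refine ⟨fun σ => ⟨w.count σ, hc σ⟩, ?_⟩
    have h : ∃ w' : List (Fin m), w'.length < T ∧ ∀ σ, w'.count σ =
        ((fun σ => ⟨w.count σ, hc σ⟩ : Fin m → Fin T) σ : ℕ) := ⟨w, hw, fun σ => rfl⟩
    dsimp only
    rw [dif_pos h, List.perm_iff_count]
    intro σ
    exact (h.choose_spec.2 σ).symm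

/-- The choice of the degree. -/
theorem TD_degree (m n T : ℕ) (hT : 1 ≤ T) : ∃ d : ℕ,
    2 * (n * T ^ m) ≤ (d + 1) ^ (m + 1) ∧ d ^ (m + 1) ≤ 2 * n * T ^ m ∧ d ≤ 2 * n * T := by
  have hex : ∃ d : ℕ, 2 * (n * T ^ m) ≤ (d + 1) ^ (m + 1) := by
    refine ⟨2 * (n * T ^ m), ?_⟩
    calc 2 * (n * T ^ m) ≤ 2 * (n * T ^ m) + 1 := Nat.le_succ _
      _ ≤ (2 * (n * T ^ m) + 1) ^ (m + 1) := Nat.le_self_pow (by omega) _
  classical
  obtain ⟨d, hd, hmin⟩ : ∃ d : ℕ, 2 * (n * T ^ m) ≤ (d + 1) ^ (m + 1) ∧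
      ∀ d' < d, ¬ 2 * (n * T ^ m) ≤ (d' + 1) ^ (m + 1) :=
    ⟨Nat.find hex, Nat.find_spec hex, fun d' h => Nat.find_min hex h⟩
  have h1 : d ^ (m + 1) ≤ 2 * n * T ^ m := by
    rcases Nat.eq_zero_or_pos d with h0 | h0
    · rw [h0]; simp
    · have := hmin (d - 1) (by omega)
      rw [Nat.sub_add_cancel h0] at this
      rw [mul_assoc]; omega
  refine ⟨d, hd, h1, ?_⟩
  by_contra h2
  rw [not_le] at h2
  have h3 : (2 * n * T) ^ (m + 1) < d ^ (m + 1) := Nat.pow_lt_pow_left h2 (by omega)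
  have h4 : 2 * n * T ^ m ≤ (2 * n * T) ^ (m + 1) := by
    rw [mul_pow]
    have h5 : 2 * n ≤ (2 * n) ^ (m + 1) := Nat.le_self_pow (by omega) _
    have h6 : T ^ m ≤ T ^ (m + 1) := Nat.pow_le_pow_right hT (by omega)
    exact Nat.mul_le_mul h5 h6
  omega

theorem TD_sum_le {m d : ℕ} (e : Fin (m + 1) → Fin (d + 1)) :
    ∑ j, (e j : ℕ) ≤ (m + 1) * d := by
  calc ∑ j, (e j : ℕ) ≤ ∑ _j : Fin (m + 1), d :=
        Finset.sum_le_sum fun j _ => Nat.lt_succ_iff.1 (e j).2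
    _ = (m + 1) * d := by simp

/-- The number `(4 c₀ n)^n M^(c₀ n)`. -/
noncomputable def TDQ (c₀ : ℕ) (M : ℝ) (n : ℕ) : ℝ := (4 * c₀ * n : ℝ) ^ n * M ^ (c₀ * n)

theorem TD_Q_exp {c₀ n : ℕ} {M : ℝ} (h0 : 1 ≤ c₀) (hn : 1 ≤ n) (hM : 1 ≤ M) :
    TDQ c₀ M n = Real.exp (n * Real.log n + n * (Real.log (4 * c₀) + c₀ * Real.log M)) := by
  have h0' : (0 : ℝ) < c₀ := by exact_mod_cast h0
  have hn' : (0 : ℝ) < n := by exact_mod_cast hn
  have hM' : 0 < M := by linarith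
  have h1 : (4 * c₀ * n : ℝ) ^ n = Real.exp (n * (Real.log (4 * c₀) + Real.log n)) := by
    rw [← Real.log_mul (by positivity) (by positivity), ← Real.log_pow, Real.exp_log (by positivity)]
  have h2 : M ^ (c₀ * n) = Real.exp ((c₀ * n : ℕ) * Real.log M) := by
    rw [← Real.log_pow, Real.exp_log (by positivity)]
  unfold TDQ
  rw [h1, h2, ← Real.exp_add]
  congr 1
  push_cast
  ring

theorem TD_size {V : Type} {z : V → ℂ} {M : ℝ} (hM : 1 ≤ M) (hz : ∀ v, ‖z v‖ ≤ M)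
    {P : MvPolynomial V ℤ} {m d c₀ n l s : ℕ} (hd : (m + 1) * d + 3 * n ≤ c₀ * n)
    (hn : 1 ≤ n) (hl : l ≤ n) (hs : s ≤ (m + 1) * d)
    (h1 : P.totalDegree ≤ s + 3 * l) (h2 : l1 P ≤ (4 * (s + 3 * l)) ^ l) :
    ‖aeval z P‖ ≤ TDQ c₀ M n := by
  have hN : s + 3 * l ≤ c₀ * n := by omega
  refine (TD_bound hM hz (h1.trans hN)).trans ?_
  unfold TDQ
  apply mul_le_mul_of_nonneg_right _ (by positivity)
  have h3 : l1 P ≤ (4 * c₀ * n) ^ n := by
    refine h2.trans ?_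
    have h4 : 4 * (s + 3 * l) ≤ 4 * c₀ * n := by rw [mul_assoc]; omega
    calc (4 * (s + 3 * l)) ^ l ≤ (4 * c₀ * n) ^ l := Nat.pow_le_pow_left h4 _
      _ ≤ (4 * c₀ * n) ^ n := by
        apply Nat.pow_le_pow_right _ hl
        have : 0 < c₀ * n := by omega
        rw [mul_assoc]; omega
  exact_mod_cast h3

theorem TD_core (K : Type) [Field K] [NumberField K] (φ₀ : K →+* ℂ) (m : ℕ) (ι V : Type)
    [Fintype ι] [Nonempty ι] [Fintype V] (wF : ι → V → K)
    (Z : List (Fin m) → (Fin (m + 1) → ℕ) → MvPolynomial V ℤ)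
    (h1 : ∀ w e, (Z w e).totalDegree ≤ ∑ j, e j + 3 * w.length)
    (h2 : ∀ w e, l1 (Z w e) ≤ (4 * (∑ j, e j + 3 * w.length)) ^ w.length)
    (W : ∀ T : ℕ, (Fin m → Fin T) → List (Fin m)) (hW : ∀ T, 1 ≤ T → ∀ a, (W T a).length < T) :
    ∃ C : ℝ, 0 < C ∧ ∀ T : ℕ, 1 ≤ T →
      ∃ (d : ℕ) (ξ : (Fin (m + 1) → Fin (d + 1)) → K), ξ ≠ 0 ∧
        (d : ℝ) ^ (m + 1) ≤ C * (T : ℝ) ^ m ∧
        ∑ e, ‖φ₀ (ξ e)‖ ≤ Real.exp (T * Real.log T + C * T) ∧
        (∀ i a, ∑ e, ξ e * aeval (wF i) (Z (W T a) fun j => e j) = 0) ∧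
        ∀ i, ∀ w : List (Fin m), T ≤ w.length →
          ∑ e, ξ e * aeval (wF i) (Z w fun j => e j) ≠ 0 →
          Real.exp (-(2 * (Module.finrank ℚ K) * (w.length * Real.log w.length) +
            C * w.length)) ≤ ‖φ₀ (∑ e, ξ e * aeval (wF i) (Z w fun j => e j))‖ := by
  classical
  obtain ⟨c, hc1, hsieg⟩ := TD_siegel K
  obtain ⟨δ, hδ, hδi⟩ := TD_denom (Finset.univ.image (fun q : ι × V => wF q.1 q.2))
  have hδi' : ∀ i v, IsIntegral ℤ ((δ : K) * wF i v) := fun i v =>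
    hδi _ (Finset.mem_image.2 ⟨(i, v), Finset.mem_univ _, rfl⟩)
  obtain ⟨M, hM, hMb⟩ : ∃ M : ℝ, 1 ≤ M ∧ ∀ (φ : K →+* ℂ) i v, ‖φ (wF i v)‖ ≤ M := by
    refine ⟨1 + ∑ q : ι × V, house (wF q.1 q.2), ?_, ?_⟩
    · have : 0 ≤ ∑ q : ι × V, house (wF q.1 q.2) := Finset.sum_nonneg fun _ _ => house_nonneg _
      linarith
    · intro φ i v
      refine (norm_embedding_le_house _ φ).trans ?_
      have := Finset.single_le_sum (f := fun q : ι × V => house (wF q.1 q.2))
        (fun _ _ => house_nonneg _) (Finset.mem_univ (i, v))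
      simp only at this
      linarith
  set n₀ := Fintype.card ι with hn₀
  have hn₀1 : 1 ≤ n₀ := Fintype.card_pos
  set c₀ := 2 * (m + 1) * n₀ + 3 with hc₀
  have hc₀1 : 1 ≤ c₀ := by omega
  set D := Module.finrank ℚ K with hD
  have hD1 : 1 ≤ D := Module.finrank_pos
  -- logarithms
  have hδ1 : (1 : ℝ) ≤ δ := by exact_mod_cast hδ
  set Lδ := Real.log δ with hLδ
  have hLδ0 : 0 ≤ Lδ := Real.log_nonneg hδ1
  set Lc := Real.log c with hLc
  have hLc0 : 0 ≤ Lc := Real.log_nonneg hc1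
  set LQ := Real.log (4 * c₀) + c₀ * Real.log M with hLQ
  have hc₀R : (1 : ℝ) ≤ c₀ := by exact_mod_cast hc₀1
  have hLQ0 : 0 ≤ LQ := by
    have h3 : 0 ≤ Real.log (4 * c₀) := Real.log_nonneg (by linarith)
    have h4 : 0 ≤ Real.log M := Real.log_nonneg hM
    positivity
  set κ := c₀ * Lδ + LQ + 2 * c₀ + Lc with hκ
  have hκ0 : 0 ≤ κ := by positivity
  refine ⟨2 * n₀ + κ + D * (c₀ * Lδ + κ + LQ) + 1, by positivity, ?_⟩
  intro T hT
  have hTR : (1 : ℝ) ≤ T := by exact_mod_cast hT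
  obtain ⟨d, hd1, hd2, hd3⟩ := TD_degree m n₀ T hT
  have hN : ∀ n, T ≤ n → (m + 1) * d + 3 * n ≤ c₀ * n := by
    intro n hn
    have h3 : (m + 1) * d ≤ (m + 1) * (2 * n₀ * n) :=
      Nat.mul_le_mul_left _ (hd3.trans (Nat.mul_le_mul_left _ hn))
    rw [hc₀]
    nlinarith
  set N := (m + 1) * d + 3 * T with hNdef
  -- the matrix
  have hint : ∀ (n : ℕ) (i : ι) (w : List (Fin m)) (e : Fin (m + 1) → Fin (d + 1)),
      w.length ≤ n → IsIntegral ℤ ((δ : K) ^ ((m + 1) * d + 3 * n) *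
        aeval (wF i) (Z w fun j => e j)) := by
    intro n i w e hw
    apply TD_integral (hδi' i)
    refine (h1 _ _).trans ?_
    have := TD_sum_le e
    omega
  have hsz : ∀ (n : ℕ) (φ : K →+* ℂ) (i : ι) (w : List (Fin m)) (e : Fin (m + 1) → Fin (d + 1)),
      T ≤ n → w.length ≤ n → ‖φ (aeval (wF i) (Z w fun j => e j))‖ ≤ TDQ c₀ M n := by
    intro n φ i w e hn hw
    rw [TD_map]
    exact TD_size hM (fun v => hMb φ i v) (hN n hn) (hT.trans hn) hw (TD_sum_le e) (h1 _ _)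
      (h2 _ _)
  let a : Matrix (ι × (Fin m → Fin T)) (Fin (m + 1) → Fin (d + 1)) (𝓞 K) := fun k e =>
    ⟨(δ : K) ^ N * aeval (wF k.1) (Z (W T k.2) fun j => e j),
      hint T k.1 (W T k.2) e (hW T hT k.2).le⟩
  have ha : ∀ k e, algebraMap (𝓞 K) K (a k e) =
      (δ : K) ^ N * aeval (wF k.1) (Z (W T k.2) fun j => e j) := fun k e => rfl
  have hcα : Fintype.card (ι × (Fin m → Fin T)) = n₀ * T ^ m := by
    rw [Fintype.card_prod, Fintype.card_fun, Fintype.card_fin, Fintype.card_fin]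
  have hcβ : Fintype.card (Fin (m + 1) → Fin (d + 1)) = (d + 1) ^ (m + 1) := by
    rw [Fintype.card_fun, Fintype.card_fin, Fintype.card_fin]
  set A : ℝ := (δ : ℝ) ^ (c₀ * T) * TDQ c₀ M T with hA
  have hQ1 : ∀ n, 1 ≤ n → 1 ≤ TDQ c₀ M n := by
    intro n hn
    rw [TD_Q_exp hc₀1 hn hM, ← Real.exp_zero]
    apply Real.exp_le_exp.2
    have h3 : 0 ≤ Real.log n := Real.log_natCast_nonneg n
    positivity
  have hA1 : 1 ≤ A := one_le_mul_of_one_le_of_one_le (one_le_pow₀ hδ1) (hQ1 T hT)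
  obtain ⟨ξ, hξ0, hξ1, hξ2⟩ := hsieg _ _ a (by rw [hcα]; positivity) (by rw [hcα, hcβ]; exact hd1)
    A hA1 (by
      intro k e
      apply TD_house_le (by linarith)
      intro φ
      rw [ha, map_mul, norm_mul, map_pow, norm_pow]
      have h3 : ‖φ (δ : K)‖ = (δ : ℝ) := by simp
      rw [h3]
      apply mul_le_mul _ (hsz T φ _ _ _ le_rfl (hW T hT _).le) (norm_nonneg _) (by positivity)
      exact pow_le_pow_right₀ hδ1 (hN T le_rfl))
  set ξK : (Fin (m + 1) → Fin (d + 1)) → K := fun e => algebraMap (𝓞 K) K (ξ e) with hξK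
  set q : ℝ := (Fintype.card (Fin (m + 1) → Fin (d + 1)) : ℝ) with hq
  have hqd : q = ((d : ℝ) + 1) ^ (m + 1) := by rw [hq, hcβ]; push_cast; rfl
  have hqb : q ≤ Real.exp (c₀ * T) := by
    rw [hqd]
    calc ((d : ℝ) + 1) ^ (m + 1) ≤ (Real.exp d) ^ (m + 1) :=
          pow_le_pow_left₀ (by positivity) (Real.add_one_le_exp _) _
      _ = Real.exp (((m + 1) * d : ℕ)) := by
          rw [← Real.exp_nat_mul]; push_cast; ring_nf
      _ ≤ Real.exp (c₀ * T) := by
          apply Real.exp_le_exp.2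
          have := hN T le_rfl
          have h3 : (m + 1) * d ≤ c₀ * T := by omega
          exact_mod_cast h3
  have hcb : c ≤ Real.exp (Lc * T) := by
    calc c = Real.exp Lc := (Real.exp_log (by linarith)).symm
      _ ≤ Real.exp (Lc * T) := Real.exp_le_exp.2 (by nlinarith)
  have hδe : ∀ n : ℕ, (δ : ℝ) ^ n = Real.exp (n * Lδ) := by
    intro n
    rw [hLδ, ← Real.log_pow, Real.exp_log (by positivity)]
  have hAb : A = Real.exp (T * Real.log T + T * (c₀ * Lδ + LQ)) := by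
    rw [hA, hδe, TD_Q_exp hc₀1 hT hM, ← Real.exp_add]
    congr 1
    push_cast
    ring
  have hq0 : 0 ≤ q := by rw [hq]; positivity
  have hS : q * (c * q * A) ≤ Real.exp (T * Real.log T + κ * T) := by
    calc q * (c * q * A) ≤ Real.exp (c₀ * T) * (Real.exp (Lc * T) * Real.exp (c₀ * T) *
          Real.exp (T * Real.log T + T * (c₀ * Lδ + LQ))) := by
          rw [← hAb]
          gcongr
      _ = Real.exp (T * Real.log T + κ * T) := by
          rw [← Real.exp_add, ← Real.exp_add, ← Real.exp_add]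
          congr 1
          rw [hκ]
          ring
  have hSφ : ∀ φ : K →+* ℂ, ∑ e, ‖φ (ξK e)‖ ≤ Real.exp (T * Real.log T + κ * T) := by
    intro φ
    calc ∑ e, ‖φ (ξK e)‖ ≤ ∑ _e : Fin (m + 1) → Fin (d + 1), c * q * A :=
          Finset.sum_le_sum fun e _ => (norm_embedding_le_house _ φ).trans (hξ2 e)
      _ = q * (c * q * A) := by
          rw [Finset.sum_const, Finset.card_univ, nsmul_eq_mul]
      _ ≤ _ := hS
  have hδK : (δ : K) ≠ 0 := by exact_mod_cast hδ.ne'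
  refine ⟨d, ξK, ?_, ?_, ?_, ?_, ?_⟩
  · intro h0
    apply hξ0
    funext e
    have := congrFun h0 e
    simpa [hξK] using this
  · have h3 : (d : ℝ) ^ (m + 1) ≤ 2 * n₀ * (T : ℝ) ^ m := by exact_mod_cast hd2
    refine h3.trans ?_
    apply mul_le_mul_of_nonneg_right _ (by positivity)
    have : 0 ≤ D * (c₀ * Lδ + κ + LQ) := by positivity
    linarith
  · refine (hSφ φ₀).trans (Real.exp_le_exp.2 ?_)
    have h3 : 0 ≤ D * (c₀ * Lδ + κ + LQ) := by positivity
    have h4 : κ * T ≤ (2 * n₀ + κ + D * (c₀ * Lδ + κ + LQ) + 1) * T := by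
      apply mul_le_mul_of_nonneg_right _ (by positivity)
      have : (0 : ℝ) ≤ n₀ := by positivity
      linarith
    linarith
  · intro i b
    have h3 := congrFun hξ1 (i, b)
    rw [Matrix.mulVec, dotProduct, Pi.zero_apply] at h3
    have h4 := congrArg (algebraMap (𝓞 K) K) h3
    rw [map_sum, map_zero] at h4
    have h5 : (δ : K) ^ N * ∑ e, ξK e * aeval (wF i) (Z (W T b) fun j => e j) = 0 := by
      rw [Finset.mul_sum, ← h4]
      apply Finset.sum_congr rfl
      intro e _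
      rw [map_mul, ha]
      simp only [hξK]
      ring
    exact (mul_eq_zero.1 h5).resolve_left (pow_ne_zero _ hδK)
  · intro i w hw hv
    set n := w.length with hn
    have hn1 : 1 ≤ n := hT.trans hw
    have hnR : (1 : ℝ) ≤ n := by exact_mod_cast hn1
    have hTnR : (T : ℝ) ≤ n := by exact_mod_cast hw
    set v := ∑ e, ξK e * aeval (wF i) (Z w fun j => e j) with hvdef
    set H := Real.exp (2 * (n * Real.log n) + n * (κ + LQ)) with hH
    have hTlog : T * Real.log T ≤ n * Real.log n := by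
      apply mul_le_mul hTnR (Real.log_le_log (by linarith) hTnR) (Real.log_natCast_nonneg T)
        (by positivity)
    have hhouse : house v ≤ H := by
      apply TD_house_le (Real.exp_pos _).le
      intro φ
      rw [hvdef, map_sum]
      calc ‖∑ e, φ (ξK e * aeval (wF i) (Z w fun j => e j))‖
          ≤ ∑ e, ‖φ (ξK e)‖ * TDQ c₀ M n := by
            refine (norm_sum_le _ _).trans (Finset.sum_le_sum fun e _ => ?_)
            rw [map_mul, norm_mul]
            exact mul_le_mul_of_nonneg_left (hsz n φ i w e hw le_rfl) (norm_nonneg _)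
        _ = (∑ e, ‖φ (ξK e)‖) * TDQ c₀ M n := by rw [Finset.sum_mul]
        _ ≤ Real.exp (T * Real.log T + κ * T) * TDQ c₀ M n := by
            apply mul_le_mul_of_nonneg_right (hSφ φ)
            linarith [hQ1 n hn1]
        _ ≤ H := by
            rw [TD_Q_exp hc₀1 hn1 hM, ← Real.exp_add, hH]
            apply Real.exp_le_exp.2
            have : κ * T ≤ κ * n := mul_le_mul_of_nonneg_left hTnR hκ0
            rw [← hLQ]
            linarith
    have hiv : IsIntegral ℤ (((δ ^ ((m + 1) * d + 3 * n) : ℕ) : K) * v) := by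
      rw [hvdef, Finset.mul_sum]
      apply IsIntegral.sum
      intro e _
      have h3 : ((δ ^ ((m + 1) * d + 3 * n) : ℕ) : K) * (ξK e * aeval (wF i) (Z w fun j => e j)) =
          ξK e * ((δ : K) ^ ((m + 1) * d + 3 * n) * aeval (wF i) (Z w fun j => e j)) := by
        push_cast
        ring
      rw [h3]
      exact (RingOfIntegers.isIntegral_coe (ξ e)).mul (hint n i w e le_rfl)
    have hL := TD_liouville hv φ₀ (pow_pos hδ ((m + 1) * d + 3 * n)) hiv hhouse
    have hδn : ((δ ^ ((m + 1) * d + 3 * n) : ℕ) : ℝ) ≤ Real.exp (n * (c₀ * Lδ)) := by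
      push_cast
      rw [hδe]
      apply Real.exp_le_exp.2
      have h3 : (((m + 1) * d + 3 * n : ℕ) : ℝ) ≤ ((c₀ * n : ℕ) : ℝ) := by exact_mod_cast hN n hw
      calc (((m + 1) * d + 3 * n : ℕ) : ℝ) * Lδ ≤ ((c₀ * n : ℕ) : ℝ) * Lδ :=
            mul_le_mul_of_nonneg_right h3 hLδ0
        _ = n * (c₀ * Lδ) := by push_cast; ring
    set E1 := (n : ℝ) * (c₀ * Lδ) with hE1
    set E2 := E1 + (2 * (n * Real.log n) + n * (κ + LQ)) with hE2
    have hlogn : 0 ≤ Real.log n := Real.log_natCast_nonneg n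
    have hE10 : 0 ≤ E1 := by positivity
    have hE20 : 0 ≤ E2 := by positivity
    have h5 : 1 ≤ Real.exp E1 * ‖φ₀ v‖ * Real.exp (D * E2 - E2) := by
      refine hL.trans ?_
      have h6 : (((δ ^ ((m + 1) * d + 3 * n) : ℕ) : ℝ) * H) ^ (D - 1) ≤ Real.exp (D * E2 - E2) := by
        calc (((δ ^ ((m + 1) * d + 3 * n) : ℕ) : ℝ) * H) ^ (D - 1) ≤ (Real.exp E2) ^ (D - 1) := by
              apply pow_le_pow_left₀ (by positivity)
              rw [hE2, Real.exp_add]
              exact mul_le_mul_of_nonneg_right hδn (Real.exp_pos _).le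
          _ = Real.exp (D * E2 - E2) := by
              rw [← Real.exp_nat_mul, Nat.cast_sub hD1]
              congr 1
              push_cast
              ring
      apply mul_le_mul _ h6 (by positivity) (by positivity)
      exact mul_le_mul_of_nonneg_right hδn (norm_nonneg _)
    have h7 : 1 ≤ ‖φ₀ v‖ * Real.exp (E1 + (D * E2 - E2)) := by
      rw [Real.exp_add]
      linarith [h5, mul_comm (Real.exp E1 * ‖φ₀ v‖) (Real.exp (D * E2 - E2)),
        (by ring : Real.exp E1 * ‖φ₀ v‖ * Real.exp (D * E2 - E2) =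
          ‖φ₀ v‖ * (Real.exp E1 * Real.exp (D * E2 - E2)))]
    have h8 : Real.exp (-(E1 + (D * E2 - E2))) ≤ ‖φ₀ v‖ := by
      rw [Real.exp_neg, inv_le_iff_one_le_mul₀ (Real.exp_pos _)]
      exact h7
    refine le_trans (Real.exp_le_exp.2 ?_) h8
    have hDR : (1 : ℝ) ≤ D := by exact_mod_cast hD1
    have h9 : E1 + (D * E2 - E2) ≤ D * E2 := by
      have : E1 ≤ E2 := by
        rw [hE2]
        have : 0 ≤ 2 * (n * Real.log n) + n * (κ + LQ) := by positivity
        linarith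
      linarith
    have h10 : D * E2 = 2 * D * (n * Real.log n) + D * (c₀ * Lδ + κ + LQ) * n := by
      rw [hE2, hE1]; ring
    have h11 : D * (c₀ * Lδ + κ + LQ) * n ≤ (2 * n₀ + κ + D * (c₀ * Lδ + κ + LQ) + 1) * n := by
      apply mul_le_mul_of_nonneg_right _ (by positivity)
      have : (0 : ℝ) ≤ n₀ := by positivity
      linarith
    linarith

theorem auxiliary (F : IntermediateField ℚ ℂ) [FiniteDimensional ℚ F] (m : ℕ) (hm : 0 < m)
    (B : Fin (m + 1) → Fin m → ℂ) (hB : ∀ j σ, B j σ ∈ F) (ι : Type) [Fintype ι] [Nonempty ι]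
    (Xc Yc : ι → Fin (m + 1) → ℂ) (hX : ∀ i j, Xc i j ∈ F) (hY : ∀ i j, Yc i j ∈ F) :
    ∃ C : ℝ, 0 < C ∧ ∀ T : ℕ, 1 ≤ T →
      ∃ (d : ℕ) (p : (Fin (m + 1) → Fin (d + 1)) → ℂ), p ≠ 0 ∧
        (d : ℝ) ^ (m + 1) ≤ C * (T : ℝ) ^ m ∧
        ∑ e, ‖p e‖ ≤ Real.exp (T * Real.log T + C * T) ∧
        (∀ i, ∀ w : List (Fin m), w.length < T →
          eval (Sum.elim (Xc i) (Yc i)) (Dword B w (Gpoly p)) = 0) ∧
        ∀ i, ∀ w : List (Fin m), T ≤ w.length →
          eval (Sum.elim (Xc i) (Yc i)) (Dword B w (Gpoly p)) ≠ 0 →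
          Real.exp (-(2 * (Module.finrank ℚ F) * (w.length * Real.log w.length) +
            C * w.length)) ≤ ‖eval (Sum.elim (Xc i) (Yc i)) (Dword B w (Gpoly p))‖ := by
  classical
  have : NumberField F := { to_charZero := inferInstance, to_finiteDimensional := inferInstance }
  choose Z hZ1 hZ2 hZ3 using exists_universal m
  have hWex : ∀ T : ℕ, ∃ W : (Fin m → Fin T) → List (Fin m), 1 ≤ T →
      (∀ a, (W a).length < T) ∧ ∀ w : List (Fin m), w.length < T → ∃ a, w.Perm (W a) := by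
    intro T
    by_cases hT : 1 ≤ T
    · obtain ⟨W, hW⟩ := TD_words m T hT
      exact ⟨W, fun _ => hW⟩
    · exact ⟨fun _ => [], fun h => absurd h hT⟩
  choose W hW using hWex
  let wF : ι → Wr m → F := fun i => Sum.elim (Sum.elim (fun j => ⟨Xc i j, hX i j⟩)
    (fun j => ⟨Yc i j, hY i j⟩)) (Sum.elim (fun q => ⟨B q.1 q.2, hB q.1 q.2⟩) (fun _ => 1 / 2))
  let φ₀ : F →+* ℂ := algebraMap F ℂ
  have hφ : ∀ i, (fun v => φ₀ (wF i v)) = wrPt B (Xc i) (Yc i) := by
    intro i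
    funext v
    rcases v with (j | j) | (q | u)
    · rfl
    · rfl
    · rfl
    · show φ₀ (1 / 2) = 1 / 2
      rw [map_div₀, map_one, map_ofNat]
  obtain ⟨C, hC, hmain⟩ := TD_core F φ₀ m ι (Wr m) wF Z hZ1 hZ2 W (fun T hT => (hW T hT).1)
  refine ⟨C, hC, fun T hT => ?_⟩
  obtain ⟨d, ξ, hξ0, hd, hS, hz, hl⟩ := hmain T hT
  have hev : ∀ i w, eval (Sum.elim (Xc i) (Yc i)) (Dword B w (Gpoly fun e => φ₀ (ξ e))) =
      φ₀ (∑ e, ξ e * aeval (wF i) (Z w fun j => e j)) := by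
    intro i w
    rw [TD_eval_Gpoly, map_sum]
    apply Finset.sum_congr rfl
    intro e _
    rw [map_mul, TD_map, hφ, ← hZ3]
  refine ⟨d, fun e => φ₀ (ξ e), ?_, hd, hS, ?_, ?_⟩
  · intro h0
    apply hξ0
    funext e
    have h1 := congrFun h0 e
    simp only [Pi.zero_apply] at h1
    exact (map_eq_zero φ₀).1 h1
  · intro i w hw
    obtain ⟨a, ha⟩ := (hW T hT).2 w hw
    rw [Dword_perm B ha, hev, hz, map_zero]
  · intro i w hw hne
    rw [hev] at hne ⊢
    exact hl i w hw (fun h0 => hne (by rw [h0, map_zero]))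

end Pool.Agent.Arith
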