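import Pool.Agent.Lib.MP_c0402d_ag.TE1
import Pool.Agent.Lib.MP_c0402d_ag.TE2
import Pool.Agent.Lib.MP_c0402d_ag.EE

/-!
# JOB TE: the analytic upper bound

Fix a grid point `w₀ = ∑ s_i Y_i`. With `b_j = z_j(w₀) + η` take `B_j, F_j` from `denominators`
(radius `C' R`), and put
`Ψ(ζ) = ∑_e p_e ∏_j F_j(z_j)^{e_j} B_j(z_j)^{d - e_j}`, `z_j = z_j(∑ ζ_i Y_i)`,
holomorphic and bounded by `(∑ ‖p‖) exp (C d R³)` on the polydisc `‖ζ‖ < R`. Off the poles it is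
`∏_j B_j(z_j)^d` times `Phi B' b (Gpoly p) ζ` (`B'_{ji} = ∑_σ B_{jσ} Y_{iσ}`). By `Dword_change` the
words in `B` are combinations of words in `B'` of the same length (`m^T` terms, coefficients at most
`C^T`), and vice versa; `Phi_isBigO` and `schwarz_polydisc` (with `a = s`, the base point) bound the
derivatives of `Ψ` of order `T` at `0`, which are those of `Phi` because `∏_j B_j(0)^d = 1` and `Phi`
vanishes to order `T` at `0`.
-/

set_option autoImplicit false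

namespace Pool.Agent.Arith

open Complex MvPolynomial

/-- the value of the `j`-th linear form at the grid point `∑ s_i Y_i` -/
noncomputable def gridz {m : ℕ} (B : Fin (m + 1) → Fin m → ℂ) (Y : Fin m → Fin m → ℂ)
    (s : Fin m → ℕ) (j : Fin (m + 1)) : ℂ :=
  ∑ i, (s i : ℂ) * ∑ σ, B j σ * Y i σ

private theorem TE_mixed {m T : ℕ} {U Φ : (Fin m → ℂ) → ℂ} (hU : AnalyticAt ℂ U 0)
    (hΦ : AnalyticAt ℂ Φ 0) (hU0 : U 0 = 1) (hv : ∀ n < T, iteratedFDeriv ℂ n Φ 0 = 0) :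
    iteratedFDeriv ℂ T (fun x => U x * Φ x) 0 = iteratedFDeriv ℂ T Φ 0 := by
  obtain ⟨s, hs, ho, h0⟩ := eventually_nhds_iff.1
    (hU.eventually_analyticAt.and hΦ.eventually_analyticAt)
  have hU1 : AnalyticOnNhd ℂ (fun x => U x - 1) s := fun x hx =>
    (hs x hx).1.sub analyticAt_const
  have hΦ1 : AnalyticOnNhd ℂ Φ s := fun x hx => (hs x hx).2
  have hc1 : ContDiffOn ℂ T (fun x => U x - 1) s := hU1.contDiffOn ho.uniqueDiffOn
  have hc2 : ContDiffOn ℂ T Φ s := hΦ1.contDiffOn ho.uniqueDiffOn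
  have h1 := norm_iteratedFDerivWithin_mul_le hc1 hc2 ho.uniqueDiffOn h0 (n := T) le_rfl
  have h2 : ∑ i ∈ Finset.range (T + 1), (T.choose i : ℝ) *
      ‖iteratedFDerivWithin ℂ i (fun x => U x - 1) s 0‖ *
        ‖iteratedFDerivWithin ℂ (T - i) Φ s 0‖ = 0 := by
    refine Finset.sum_eq_zero (fun i hi => ?_)
    rcases Nat.eq_zero_or_pos i with rfl | hi0
    · have : ‖iteratedFDerivWithin ℂ 0 (fun x => U x - 1) s 0‖ = 0 := by
        rw [norm_iteratedFDerivWithin_zero, hU0, sub_self, norm_zero]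
      rw [this]; ring
    · have hlt : T - i < T := by
        have := Finset.mem_range.1 hi
        omega
      rw [iteratedFDerivWithin_of_isOpen _ ho h0 (f := Φ), hv _ hlt, norm_zero, mul_zero]
  rw [h2] at h1
  have h3 : iteratedFDeriv ℂ T (fun x => (U x - 1) * Φ x) 0 = 0 := by
    rw [← iteratedFDerivWithin_of_isOpen _ ho h0]
    exact norm_le_zero_iff.1 h1
  have h4 : (fun x => U x * Φ x) = (fun x => (U x - 1) * Φ x) + Φ := by
    funext x; simp only [Pi.add_apply]; ring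
  rw [h4, iteratedFDeriv_add_apply, h3, zero_add]
  · exact ((hU.sub analyticAt_const).mul hΦ).contDiffAt
  · exact hΦ.contDiffAt

private theorem TE_iter {m : ℕ} (B : Fin (m + 1) → Fin m → ℂ) (b : Fin (m + 1) → ℂ)
    (G : MvPolynomial (Vr m) ℂ) {ζ : Fin m → ℂ} (h : Ok B b ζ) {T : ℕ} (w : Fin T → Fin m) :
    iteratedFDeriv ℂ T (Phi B b G) ζ (fun l => Pi.single (w l) 1) =
      Phi B b (Dword B (List.ofFn w) G) ζ := by
  have key : ∀ (l : List (Fin m)) (hl : l.length = T),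
      iteratedFDeriv ℂ T (Phi B b G) ζ
        (fun i => Pi.single (l.get (Fin.cast hl.symm i)) 1) = Phi B b (Dword B l G) ζ := by
    intro l hl
    subst hl
    exact iteratedFDeriv_Phi B b G h l
  have := key (List.ofFn w) (List.length_ofFn)
  simpa using this

private theorem TE_iter_zero {m : ℕ} (B : Fin (m + 1) → Fin m → ℂ) (b : Fin (m + 1) → ℂ)
    (G : MvPolynomial (Vr m) ℂ) {ζ : Fin m → ℂ} (h : Ok B b ζ) {T : ℕ}
    (hw : ∀ w : List (Fin m), w.length < T → Phi B b (Dword B w G) ζ = 0) {n : ℕ} (hn : n < T) :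
    iteratedFDeriv ℂ n (Phi B b G) ζ = 0 := by
  apply ContinuousMultilinearMap.toMultilinearMap_injective
  refine Module.Basis.ext_multilinear (fun _ => Pi.basisFun ℂ (Fin m)) (fun w => ?_)
  simp only [Pi.basisFun_apply]
  change iteratedFDeriv ℂ n (Phi B b G) ζ (fun l => Pi.single (w l) 1) = 0
  rw [TE_iter B b G h]
  exact hw _ (by simpa using hn)

private theorem TE_Dword_eval {m : ℕ} (B B' : Fin (m + 1) → Fin m → ℂ) (A : Fin m → Fin m → ℂ)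
    (h : ∀ j σ, B j σ = ∑ i, A σ i * B' j i) (P : Vr m → ℂ) (w : List (Fin m))
    (G : MvPolynomial (Vr m) ℂ) :
    eval P (Dword B w G) = ∑ w' : Fin w.length → Fin m, (∏ l, A (w.get l) (w' l)) *
      eval P (Dword B' (List.ofFn w') G) := by
  rw [Dword_change B B' A h, map_sum]
  refine Finset.sum_congr rfl (fun w' _ => ?_)
  rw [map_mul, eval_C]

private theorem TE_vanish {m : ℕ} (B B' : Fin (m + 1) → Fin m → ℂ) (A : Fin m → Fin m → ℂ)
    (h : ∀ j σ, B j σ = ∑ i, A σ i * B' j i) (P : Vr m → ℂ) (G : MvPolynomial (Vr m) ℂ) (T : ℕ)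
    (hv : ∀ w : List (Fin m), w.length < T → eval P (Dword B' w G) = 0) (w : List (Fin m))
    (hw : w.length < T) : eval P (Dword B w G) = 0 := by
  rw [TE_Dword_eval B B' A h]
  refine Finset.sum_eq_zero (fun w' _ => ?_)
  rw [hv _ (by simpa using hw), mul_zero]

private theorem TE_bound {m : ℕ} (B B' : Fin (m + 1) → Fin m → ℂ) (A : Fin m → Fin m → ℂ)
    (h : ∀ j σ, B j σ = ∑ i, A σ i * B' j i) (P : Vr m → ℂ) (G : MvPolynomial (Vr m) ℂ)
    {K D : ℝ} (hK : ∀ σ i, ‖A σ i‖ ≤ K) (hK0 : 0 ≤ K) (w : List (Fin m))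
    (hD : ∀ w' : Fin w.length → Fin m, ‖eval P (Dword B' (List.ofFn w') G)‖ ≤ D) :
    ‖eval P (Dword B w G)‖ ≤ (m * K) ^ w.length * D := by
  rw [TE_Dword_eval B B' A h]
  refine (norm_sum_le _ _).trans ?_
  have h1 : ∀ w' ∈ (Finset.univ : Finset (Fin w.length → Fin m)),
      ‖(∏ l, A (w.get l) (w' l)) * eval P (Dword B' (List.ofFn w') G)‖ ≤ K ^ w.length * D := by
    intro w' _
    rw [norm_mul, norm_prod]
    have h2 : ∏ l, ‖A (w.get l) (w' l)‖ ≤ K ^ w.length := by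
      refine (Finset.prod_le_prod (fun _ _ => norm_nonneg _) (fun l _ => hK _ _)).trans ?_
      simp
    exact mul_le_mul h2 (hD w') (norm_nonneg _) (pow_nonneg hK0 _)
  refine (Finset.sum_le_card_nsmul _ _ _ h1).trans (le_of_eq ?_)
  simp only [Finset.card_univ, Fintype.card_fun, Fintype.card_fin, nsmul_eq_mul]
  push_cast
  ring

/-- the linear forms -/
private noncomputable def TE_z {m : ℕ} (B' : Fin (m + 1) → Fin m → ℂ) (j : Fin (m + 1))
    (ζ : Fin m → ℂ) : ℂ := ∑ i, B' j i * ζ i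

private theorem TE_z_differentiable {m : ℕ} (B' : Fin (m + 1) → Fin m → ℂ) (j : Fin (m + 1)) :
    Differentiable ℂ (TE_z B' j) := by
  unfold TE_z
  fun_prop

private theorem TE_z_bound {m : ℕ} (B' : Fin (m + 1) → Fin m → ℂ) (j : Fin (m + 1))
    (ζ : Fin m → ℂ) : ‖TE_z B' j ζ‖ ≤ (1 + ∑ j, ∑ i, ‖B' j i‖) * ‖ζ‖ := by
  have h1 : ‖TE_z B' j ζ‖ ≤ ∑ i, ‖B' j i‖ * ‖ζ‖ := by
    refine (norm_sum_le _ _).trans (Finset.sum_le_sum fun i _ => ?_)
    rw [norm_mul]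
    exact mul_le_mul_of_nonneg_left (norm_le_pi_norm ζ i) (norm_nonneg _)
  have h2 : ∑ i, ‖B' j i‖ ≤ ∑ j, ∑ i, ‖B' j i‖ :=
    Finset.single_le_sum (f := fun j => ∑ i, ‖B' j i‖)
      (fun _ _ => Finset.sum_nonneg fun _ _ => norm_nonneg _) (Finset.mem_univ j)
  rw [← Finset.sum_mul] at h1
  refine h1.trans (mul_le_mul_of_nonneg_right ?_ (norm_nonneg _))
  linarith

private theorem TE_Gpoly {m d : ℕ} (p : (Fin (m + 1) → Fin (d + 1)) → ℂ) (x y : Fin (m + 1) → ℂ) :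
    eval (Sum.elim x y) (Gpoly p) = ∑ e, p e * ∏ j, x j ^ (e j : ℕ) := by
  simp [Gpoly]

/-- the entire numerator -/
private noncomputable def TE_Psi {m d : ℕ} (B' : Fin (m + 1) → Fin m → ℂ)
    (p : (Fin (m + 1) → Fin (d + 1)) → ℂ) (Bf Ff : Fin (m + 1) → ℂ → ℂ) (ζ : Fin m → ℂ) : ℂ :=
  ∑ e, p e * ∏ j, Ff j (TE_z B' j ζ) ^ (e j : ℕ) * Bf j (TE_z B' j ζ) ^ (d - (e j : ℕ))

private theorem TE_Psi_eq {m d : ℕ} (B' : Fin (m + 1) → Fin m → ℂ) (b : Fin (m + 1) → ℂ)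
    (p : (Fin (m + 1) → Fin (d + 1)) → ℂ) (Bf Ff : Fin (m + 1) → ℂ → ℂ) (ζ : Fin m → ℂ)
    (h : ∀ j, Ff j (TE_z B' j ζ) = Bf j (TE_z B' j ζ) * Pf (TE_z B' j ζ + b j)) :
    TE_Psi B' p Bf Ff ζ = (∏ j, Bf j (TE_z B' j ζ) ^ d) * Phi B' b (Gpoly p) ζ := by
  unfold TE_Psi Phi
  rw [TE_Gpoly, Finset.mul_sum]
  refine Finset.sum_congr rfl (fun e _ => ?_)
  rw [← mul_assoc, mul_comm (∏ j, Bf j (TE_z B' j ζ) ^ d), mul_assoc, ← Finset.prod_mul_distrib]
  congr 1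
  refine Finset.prod_congr rfl (fun j _ => ?_)
  rw [h j, mul_pow]
  have : Bf j (TE_z B' j ζ) ^ d = Bf j (TE_z B' j ζ) ^ (e j : ℕ) *
      Bf j (TE_z B' j ζ) ^ (d - (e j : ℕ)) := by
    rw [← pow_add]
    congr 1
    have := (e j).2
    omega
  rw [this]
  unfold TE_z
  ring

private theorem TE_Psi_norm {m d : ℕ} (B' : Fin (m + 1) → Fin m → ℂ)
    (p : (Fin (m + 1) → Fin (d + 1)) → ℂ) (Bf Ff : Fin (m + 1) → ℂ → ℂ) (ζ : Fin m → ℂ)
    (c : Fin (m + 1) → ℝ) (h : ∀ j, ‖Bf j (TE_z B' j ζ)‖ ≤ Real.exp (c j) ∧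
      ‖Ff j (TE_z B' j ζ)‖ ≤ Real.exp (c j)) :
    ‖TE_Psi B' p Bf Ff ζ‖ ≤ (∑ e, ‖p e‖) * Real.exp (d * ∑ j, c j) := by
  unfold TE_Psi
  refine (norm_sum_le _ _).trans ?_
  rw [Finset.sum_mul]
  refine Finset.sum_le_sum (fun e _ => ?_)
  rw [norm_mul, norm_prod]
  refine mul_le_mul_of_nonneg_left ?_ (norm_nonneg _)
  have h1 : ∏ j, ‖Ff j (TE_z B' j ζ) ^ (e j : ℕ) * Bf j (TE_z B' j ζ) ^ (d - (e j : ℕ))‖ ≤
      ∏ j, Real.exp (d * c j) := by
    refine Finset.prod_le_prod (fun _ _ => norm_nonneg _) (fun j _ => ?_)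
    rw [norm_mul, norm_pow, norm_pow]
    have h2 : (d : ℝ) * c j = (e j : ℕ) * c j + ((d - (e j : ℕ) : ℕ) : ℝ) * c j := by
      rw [← add_mul, ← Nat.cast_add]
      congr 2
      have := (e j).2
      omega
    rw [h2, Real.exp_add, Real.exp_nat_mul, Real.exp_nat_mul]
    exact mul_le_mul (pow_le_pow_left₀ (norm_nonneg _) (h j).2 _)
      (pow_le_pow_left₀ (norm_nonneg _) (h j).1 _) (by positivity) (by positivity)
  refine h1.trans (le_of_eq ?_)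
  rw [← Real.exp_sum, Finset.mul_sum]

private theorem TE_prod {m n : ℕ} (f : Fin n → (Fin m → ℂ) → ℂ) (S : Set (Fin m → ℂ))
    (s : Finset (Fin n)) (h : ∀ j ∈ s, DifferentiableOn ℂ (f j) S) :
    DifferentiableOn ℂ (fun ζ => ∏ j ∈ s, f j ζ) S := by
  classical
  induction s using Finset.induction_on with
  | empty => simp
  | insert a s ha ih =>
    simp only [Finset.prod_insert ha]
    exact (h a (Finset.mem_insert_self _ _)).mul
      (ih fun j hj => h j (Finset.mem_insert_of_mem hj))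

private theorem TE_Psi_diff {m d : ℕ} (B' : Fin (m + 1) → Fin m → ℂ)
    (p : (Fin (m + 1) → Fin (d + 1)) → ℂ) (Bf Ff : Fin (m + 1) → ℂ → ℂ) {R R' : ℝ}
    (hz : ∀ ζ ∈ Metric.ball (0 : Fin m → ℂ) R, ∀ j, TE_z B' j ζ ∈ Metric.ball (0 : ℂ) R')
    (hB : ∀ j, DifferentiableOn ℂ (Bf j) (Metric.ball 0 R'))
    (hF : ∀ j, DifferentiableOn ℂ (Ff j) (Metric.ball 0 R')) :
    DifferentiableOn ℂ (TE_Psi B' p Bf Ff) (Metric.ball 0 R) := by
  have h1 : ∀ j, DifferentiableOn ℂ (fun ζ => Bf j (TE_z B' j ζ)) (Metric.ball 0 R) := fun j =>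
    (hB j).comp (TE_z_differentiable B' j).differentiableOn (fun ζ hζ => hz ζ hζ j)
  have h2 : ∀ j, DifferentiableOn ℂ (fun ζ => Ff j (TE_z B' j ζ)) (Metric.ball 0 R) := fun j =>
    (hF j).comp (TE_z_differentiable B' j).differentiableOn (fun ζ hζ => hz ζ hζ j)
  unfold TE_Psi
  refine DifferentiableOn.fun_sum (fun e _ => ?_)
  refine DifferentiableOn.const_mul ?_ _
  have h3 : ∀ j ∈ (Finset.univ : Finset (Fin (m + 1))), DifferentiableOn ℂ
      (fun ζ => Ff j (TE_z B' j ζ) ^ (e j : ℕ) * Bf j (TE_z B' j ζ) ^ (d - (e j : ℕ)))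
      (Metric.ball 0 R) := fun j _ => ((h2 j).fun_pow _).mul ((h1 j).fun_pow _)
  exact TE_prod _ _ _ h3

private theorem TE_U_analytic {m : ℕ} (d : ℕ) (B' : Fin (m + 1) → Fin m → ℂ)
    (Bf : Fin (m + 1) → ℂ → ℂ) {R R' : ℝ}
    (hz : ∀ ζ ∈ Metric.ball (0 : Fin m → ℂ) R, ∀ j, TE_z B' j ζ ∈ Metric.ball (0 : ℂ) R')
    (hB : ∀ j, DifferentiableOn ℂ (Bf j) (Metric.ball 0 R')) {ζ : Fin m → ℂ}
    (hζ : ζ ∈ Metric.ball (0 : Fin m → ℂ) R) :
    AnalyticAt ℂ (fun ζ => ∏ j, Bf j (TE_z B' j ζ) ^ d) ζ := by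
  have h1 : ∀ j, AnalyticAt ℂ (fun ζ => Bf j (TE_z B' j ζ)) ζ := by
    intro j
    have h2 : AnalyticAt ℂ (Bf j) (TE_z B' j ζ) :=
      (hB j).analyticAt (Metric.isOpen_ball.mem_nhds (hz ζ hζ j))
    have h3 : AnalyticAt ℂ (TE_z B' j) ζ := by
      unfold TE_z
      exact Finset.analyticAt_fun_sum _ (fun i _ => analyticAt_const.mul
        ((ContinuousLinearMap.proj (R := ℂ) (φ := fun _ : Fin m => ℂ) i).analyticAt ζ))
    exact h2.comp h3
  refine Finset.analyticAt_fun_prod _ (fun j _ => ?_)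
  exact (h1 j).fun_pow d

theorem analytic_bound (m : ℕ) (hm : 0 < m) (B : Fin (m + 1) → Fin m → ℂ)
    (Y : Fin m → Fin m → ℂ) (hY : LinearIndependent ℂ Y) (η : ℂ) (N : ℕ) (hN : 1 ≤ N)
    (hgrid : ∀ s : Fin m → Fin N, ∀ j, gridz B Y (fun i => s i) j + η ∉ Lam.lattice) :
    ∃ C : ℝ, 1 ≤ C ∧ ∀ (T d : ℕ) (p : (Fin (m + 1) → Fin (d + 1)) → ℂ) (R : ℝ), 1 ≤ T → C ≤ R →
      (∀ s : Fin m → Fin N, ∀ w : List (Fin m), w.length < T →
        eval (Sum.elim (fun j => Pf (gridz B Y (fun i => s i) j + η))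
          (fun j => Qf (gridz B Y (fun i => s i) j + η))) (Dword B w (Gpoly p)) = 0) →
      ∀ s : Fin m → Fin N, ∀ w : List (Fin m), w.length = T →
        ‖eval (Sum.elim (fun j => Pf (gridz B Y (fun i => s i) j + η))
          (fun j => Qf (gridz B Y (fun i => s i) j + η))) (Dword B w (Gpoly p))‖ ≤
        (∑ e, ‖p e‖) * Real.exp (T * Real.log T + C * T + C * d * R ^ 3 -
          (N : ℝ) / m * T * Real.log R) := by
  classical
  set B' : Fin (m + 1) → Fin m → ℂ := fun j i => ∑ σ, B j σ * Y i σ with hB'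
  obtain ⟨A, hA⟩ : ∃ A : Fin m → Fin m → ℂ, ∀ j σ, B j σ = ∑ i, A σ i * B' j i := by
    have hu : IsUnit (Matrix.of Y) := Matrix.linearIndependent_rows_iff_isUnit.1 hY
    have hd : IsUnit (Matrix.of Y).det := (Matrix.isUnit_iff_isUnit_det _).1 hu
    refine ⟨fun σ i => ((Matrix.of Y)⁻¹ : Matrix (Fin m) (Fin m) ℂ) σ i, fun j σ => ?_⟩
    have h1 : (Matrix.of Y)⁻¹.mulVec ((Matrix.of Y).mulVec (B j)) = B j := by
      rw [Matrix.mulVec_mulVec, Matrix.nonsing_inv_mul _ hd, Matrix.one_mulVec]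
    have h2 : (Matrix.of Y).mulVec (B j) = B' j := by
      funext i
      simp only [Matrix.mulVec, dotProduct, Matrix.of_apply, hB']
      exact Finset.sum_congr rfl fun σ _ => mul_comm _ _
    rw [h2] at h1
    conv_lhs => rw [← h1]
    rfl
  have hA' : ∀ j i, B' j i = ∑ σ, Y i σ * B j σ := by
    intro j i
    exact Finset.sum_congr rfl fun σ _ => mul_comm _ _
  choose Cd hCd0 hCd using fun (s : Fin m → Fin N) (j : Fin (m + 1)) => denominators (hgrid s j)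
  obtain ⟨Cs, hCs1, hCs⟩ := schwarz_polydisc m N hm hN
  set K : ℝ := 1 + ∑ σ, ∑ i, ‖A σ i‖ with hKdef
  set K' : ℝ := 1 + ∑ j, ∑ i, ‖B' j i‖ with hK'def
  set D : ℝ := ∑ s, ∑ j, Cd s j with hDdef
  have hK1 : 1 ≤ K := by
    have : (0 : ℝ) ≤ ∑ σ, ∑ i, ‖A σ i‖ :=
      Finset.sum_nonneg fun _ _ => Finset.sum_nonneg fun _ _ => norm_nonneg _
    rw [hKdef]; linarith
  have hK'1 : 1 ≤ K' := by
    have : (0 : ℝ) ≤ ∑ j, ∑ i, ‖B' j i‖ :=
      Finset.sum_nonneg fun _ _ => Finset.sum_nonneg fun _ _ => norm_nonneg _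
    rw [hK'def]; linarith
  have hD0 : 0 ≤ D := Finset.sum_nonneg fun _ _ => Finset.sum_nonneg fun _ _ => (hCd0 _ _).le
  have hKA : ∀ σ i, ‖A σ i‖ ≤ K := by
    intro σ i
    have h1 : ‖A σ i‖ ≤ ∑ i, ‖A σ i‖ :=
      Finset.single_le_sum (f := fun i => ‖A σ i‖) (fun _ _ => norm_nonneg _) (Finset.mem_univ i)
    have h2 : ∑ i, ‖A σ i‖ ≤ ∑ σ, ∑ i, ‖A σ i‖ :=
      Finset.single_le_sum (f := fun σ => ∑ i, ‖A σ i‖)
        (fun _ _ => Finset.sum_nonneg fun _ _ => norm_nonneg _) (Finset.mem_univ σ)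
    rw [hKdef]; linarith
  have hCsum : ∀ s, ∑ j, Cd s j ≤ D := fun s =>
    Finset.single_le_sum (f := fun s => ∑ j, Cd s j)
      (fun _ _ => Finset.sum_nonneg fun _ _ => (hCd0 _ _).le) (Finset.mem_univ s)
  have hNR : (0 : ℝ) ≤ N := Nat.cast_nonneg _
  have hmR : (0 : ℝ) ≤ m := Nat.cast_nonneg _
  have hmK : 0 ≤ (m : ℝ) * K := mul_nonneg hmR (by linarith)
  have hDK : 0 ≤ D * K' ^ 3 := mul_nonneg hD0 (by positivity)
  refine ⟨Cs + N + m * K + D * K' ^ 3, by linarith, ?_⟩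
  intro T d p R hT hR hvan s w hw
  have hRCs : Cs ≤ R := by linarith
  have hRN : (N : ℝ) < R := by linarith
  have hR1 : 1 ≤ R := by linarith
  have hR' : 1 ≤ K' * R := by nlinarith
  choose Bf Ff hBd hFd hB0 hbd hFB using fun j => hCd s j (K' * R) hR'
  set b : Fin (m + 1) → ℂ := fun j => gridz B Y (fun i => s i) j + η with hb
  have hz : ∀ ζ ∈ Metric.ball (0 : Fin m → ℂ) R, ∀ j,
      TE_z B' j ζ ∈ Metric.ball (0 : ℂ) (K' * R) := by
    intro ζ hζ j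
    rw [mem_ball_zero_iff] at hζ ⊢
    refine (TE_z_bound B' j ζ).trans_lt ?_
    exact mul_lt_mul_of_pos_left hζ (by linarith)
  have hΨd := TE_Psi_diff B' p Bf Ff hz hBd hFd
  have hΨn : ∀ ζ ∈ Metric.ball (0 : Fin m → ℂ) R, ‖TE_Psi B' p Bf Ff ζ‖ ≤
      (∑ e, ‖p e‖) * Real.exp (d * ∑ j, Cd s j * (K' * R) ^ 3) := fun ζ hζ =>
    TE_Psi_norm B' p Bf Ff ζ _ (fun j => hbd j _ (hz ζ hζ j))
  have hid : ∀ ζ ∈ Metric.ball (0 : Fin m → ℂ) R, Ok B' b ζ → TE_Psi B' p Bf Ff ζ =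
      (∏ j, Bf j (TE_z B' j ζ) ^ d) * Phi B' b (Gpoly p) ζ := fun ζ hζ hok =>
    TE_Psi_eq B' b p Bf Ff ζ (fun j => hFB j _ (hz ζ hζ j) (hok j))
  -- the grid points
  have hshift : ∀ (i : Fin m) (σ : ℕ) (hσ : σ < N) (j : Fin (m + 1)),
      ∑ i', B' j i' * (Pi.single i ((σ : ℂ) - (s i : ℕ)) : Fin m → ℂ) i' + b j =
        gridz B Y (fun i' => (Function.update s i ⟨σ, hσ⟩ i' : ℕ)) j + η := by
    intro i σ hσ j
    have h1 : ∑ i', B' j i' * (Pi.single i ((σ : ℂ) - (s i : ℕ)) : Fin m → ℂ) i' =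
        B' j i * ((σ : ℂ) - (s i : ℕ)) := by
      rw [Finset.sum_eq_single i]
      · rw [Pi.single_eq_same]
      · intro i' _ hi'
        rw [Pi.single_eq_of_ne hi', mul_zero]
      · intro h; exact absurd (Finset.mem_univ i) h
    have h2 : gridz B Y (fun i' => (Function.update s i ⟨σ, hσ⟩ i' : ℕ)) j =
        gridz B Y (fun i => s i) j + B' j i * ((σ : ℂ) - (s i : ℕ)) := by
      have h3 : ∀ i', ((Function.update s i ⟨σ, hσ⟩ i' : ℕ) : ℂ) * B' j i' =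
          ((s i' : ℕ) : ℂ) * B' j i' +
            B' j i' * (Pi.single i ((σ : ℂ) - (s i : ℕ)) : Fin m → ℂ) i' := by
        intro i'
        by_cases hi : i' = i
        · subst hi
          rw [Function.update_self, Pi.single_eq_same]
          ring
        · rw [Function.update_of_ne hi, Pi.single_eq_of_ne hi]
          ring
      change ∑ i', ((Function.update s i ⟨σ, hσ⟩ i' : ℕ) : ℂ) * B' j i' =
        ∑ i', ((s i' : ℕ) : ℂ) * B' j i' + _
      rw [← h1, ← Finset.sum_add_distrib]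
      exact Finset.sum_congr rfl fun i' _ => h3 i'
    rw [h1, h2, hb]
    ring
  have hOk : ∀ (i : Fin m) (σ : ℕ), σ < N → Ok B' b (Pi.single i ((σ : ℂ) - (s i : ℕ))) := by
    intro i σ hσ j
    rw [hshift i σ hσ j]
    exact hgrid _ j
  have hPhi : ∀ (i : Fin m) (σ : ℕ) (hσ : σ < N) (G : MvPolynomial (Vr m) ℂ),
      Phi B' b G (Pi.single i ((σ : ℂ) - (s i : ℕ))) = eval (Sum.elim
        (fun j => Pf (gridz B Y (fun i' => (Function.update s i ⟨σ, hσ⟩ i' : ℕ)) j + η))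
        (fun j => Qf (gridz B Y (fun i' => (Function.update s i ⟨σ, hσ⟩ i' : ℕ)) j + η))) G := by
    intro i σ hσ G
    unfold Phi
    simp only [hshift i σ hσ]
  have hvan' : ∀ (i : Fin m) (σ : ℕ), σ < N → ∀ w : List (Fin m), w.length < T →
      Phi B' b (Dword B' w (Gpoly p)) (Pi.single i ((σ : ℂ) - (s i : ℕ))) = 0 := by
    intro i σ hσ w hw
    rw [hPhi i σ hσ]
    exact TE_vanish B' B Y hA' _ _ T (hvan _) w hw
  have hmem : ∀ (i : Fin m) (σ : ℕ), σ < N →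
      (Pi.single i ((σ : ℂ) - (s i : ℕ)) : Fin m → ℂ) ∈ Metric.ball (0 : Fin m → ℂ) R := by
    intro i σ hσ
    rw [mem_ball_zero_iff]
    refine lt_of_le_of_lt ?_ hRN
    rw [Pi.norm_single]
    have h1 : ((σ : ℂ) - ((s i : ℕ) : ℂ)) = (((σ : ℤ) - ((s i : ℕ) : ℤ) : ℤ) : ℂ) := by
      push_cast; ring
    rw [h1, Complex.norm_intCast]
    have h2 : |((σ : ℤ) - ((s i : ℕ) : ℤ))| ≤ (N : ℤ) := by
      have := (s i).2
      rw [abs_le]
      constructor <;> omega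
    calc |(((σ : ℤ) - ((s i : ℕ) : ℤ) : ℤ) : ℝ)| = ((|((σ : ℤ) - ((s i : ℕ) : ℤ))| : ℤ) : ℝ) := by
          rw [Int.cast_abs]
      _ ≤ ((N : ℤ) : ℝ) := by exact_mod_cast h2
      _ = (N : ℝ) := by norm_cast
  have hev : ∀ (i : Fin m) (σ : ℕ), σ < N →
      TE_Psi B' p Bf Ff =ᶠ[nhds (Pi.single i ((σ : ℂ) - (s i : ℕ)))]
        fun ζ => (∏ j, Bf j (TE_z B' j ζ) ^ d) * Phi B' b (Gpoly p) ζ := by
    intro i σ hσ
    filter_upwards [Metric.isOpen_ball.mem_nhds (hmem i σ hσ),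
      (isOpen_ok B' b).mem_nhds (hOk i σ hσ)] with ζ h1 h2
    exact hid ζ h1 h2
  have hO : ∀ (i : Fin m) (σ : ℕ), σ < N →
      TE_Psi B' p Bf Ff =O[nhds (Pi.single i ((σ : ℂ) - (s i : ℕ)))]
        fun x => ‖x - Pi.single i ((σ : ℂ) - (s i : ℕ))‖ ^ T := by
    intro i σ hσ
    have h1 := Phi_isBigO B' b (Gpoly p) (hOk i σ hσ) T (hvan' i σ hσ)
    have h2 : (fun ζ : Fin m → ℂ => ∏ j, Bf j (TE_z B' j ζ) ^ d)
        =O[nhds (Pi.single i ((σ : ℂ) - (s i : ℕ)))] (fun _ => (1 : ℝ)) :=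
      (TE_U_analytic d B' Bf hz hBd (hmem i σ hσ)).continuousAt.isBigO_one ℝ
    have h3 := h2.mul h1
    simp only [one_mul] at h3
    exact h3.congr' (hev i σ hσ).symm (Filter.EventuallyEq.refl _ _)
  have hM : 0 ≤ (∑ e, ‖p e‖) * Real.exp (d * ∑ j, Cd s j * (K' * R) ^ 3) :=
    mul_nonneg (Finset.sum_nonneg fun _ _ => norm_nonneg _) (Real.exp_pos _).le
  have hmain := hCs T R _ (TE_Psi B' p Bf Ff) (fun i => (s i : ℕ)) hT hRCs hM
    (fun i => (s i).2) hΨd hΨn (fun i σ hσ => hO i σ hσ)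
  -- back to `Phi`
  have hzero : (Pi.single ⟨0, hm⟩ ((((s ⟨0, hm⟩ : ℕ) : ℕ) : ℂ) - (s ⟨0, hm⟩ : ℕ)) :
      Fin m → ℂ) = 0 := by
    rw [sub_self, Pi.single_zero]
  have hOk0 : Ok B' b 0 := by
    have := hOk ⟨0, hm⟩ (s ⟨0, hm⟩) (s ⟨0, hm⟩).2
    rwa [hzero] at this
  have hev0 : TE_Psi B' p Bf Ff =ᶠ[nhds 0]
        fun ζ => (∏ j, Bf j (TE_z B' j ζ) ^ d) * Phi B' b (Gpoly p) ζ := by
    have := hev ⟨0, hm⟩ (s ⟨0, hm⟩) (s ⟨0, hm⟩).2
    rwa [hzero] at this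
  have hvan0 : ∀ w : List (Fin m), w.length < T → Phi B' b (Dword B' w (Gpoly p)) 0 = 0 := by
    have := hvan' ⟨0, hm⟩ (s ⟨0, hm⟩) (s ⟨0, hm⟩).2
    rwa [hzero] at this
  have hmem0 : (0 : Fin m → ℂ) ∈ Metric.ball (0 : Fin m → ℂ) R := by
    rw [mem_ball_zero_iff, norm_zero]; linarith
  have hU0 : ∏ j, Bf j (TE_z B' j 0) ^ d = 1 := by
    refine Finset.prod_eq_one (fun j _ => ?_)
    have : TE_z B' j 0 = 0 := by simp [TE_z]
    rw [this, hB0, one_pow]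
  have hit : iteratedFDeriv ℂ T (TE_Psi B' p Bf Ff) 0 =
      iteratedFDeriv ℂ T (Phi B' b (Gpoly p)) 0 := by
    rw [(hev0.iteratedFDeriv ℂ T).eq_of_nhds]
    exact TE_mixed (TE_U_analytic d B' Bf hz hBd hmem0) (Phi_analyticAt B' b _ hOk0) hU0
      (fun n hn => TE_iter_zero B' b _ hOk0 hvan0 hn)
  have hP0 : ∀ G : MvPolynomial (Vr m) ℂ, Phi B' b G 0 =
      eval (Sum.elim (fun j => Pf (gridz B Y (fun i => s i) j + η))
          (fun j => Qf (gridz B Y (fun i => s i) j + η))) G := by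
    intro G
    unfold Phi
    simp [hb]
  have hfin := TE_bound B B' A hA
    (Sum.elim (fun j => Pf (gridz B Y (fun i => s i) j + η))
          (fun j => Qf (gridz B Y (fun i => s i) j + η))) (Gpoly p) hKA (by linarith) w
    (D := ((∑ e, ‖p e‖) * Real.exp (d * ∑ j, Cd s j * (K' * R) ^ 3)) *
      Real.exp (T * Real.log T + Cs * T - (N : ℝ) / m * T * Real.log R)) (by
      subst hw
      intro w'
      rw [← hP0, ← TE_iter B' b _ hOk0, ← hit]
      exact hmain w')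
  refine hfin.trans ?_
  rw [hw]
  have h1 : ((m : ℝ) * K) ^ T ≤ Real.exp (T * (m * K)) := by
    rw [Real.exp_nat_mul]
    refine pow_le_pow_left₀ hmK ?_ _
    linarith [Real.add_one_le_exp ((m : ℝ) * K)]
  have h2 : (d : ℝ) * ∑ j, Cd s j * (K' * R) ^ 3 ≤ d * (D * K' ^ 3 * R ^ 3) := by
    refine mul_le_mul_of_nonneg_left ?_ (Nat.cast_nonneg _)
    rw [← Finset.sum_mul, mul_pow, ← mul_assoc]
    have : 0 ≤ K' ^ 3 * R ^ 3 := by positivity
    nlinarith [hCsum s]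
  have hS : 0 ≤ ∑ e, ‖p e‖ := Finset.sum_nonneg fun _ _ => norm_nonneg _
  calc ((m : ℝ) * K) ^ T * (((∑ e, ‖p e‖) * Real.exp (d * ∑ j, Cd s j * (K' * R) ^ 3)) *
      Real.exp (T * Real.log T + Cs * T - (N : ℝ) / m * T * Real.log R))
      ≤ Real.exp (T * (m * K)) * (((∑ e, ‖p e‖) * Real.exp (d * (D * K' ^ 3 * R ^ 3))) *
      Real.exp (T * Real.log T + Cs * T - (N : ℝ) / m * T * Real.log R)) := by
        gcongr
    _ = (∑ e, ‖p e‖) * Real.exp (T * (m * K) + d * (D * K' ^ 3 * R ^ 3) +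
        (T * Real.log T + Cs * T - (N : ℝ) / m * T * Real.log R)) := by
        rw [Real.exp_add, Real.exp_add]; ring
    _ ≤ _ := by
        refine mul_le_mul_of_nonneg_left (Real.exp_le_exp.2 ?_) hS
        have hTR : (0 : ℝ) ≤ T := Nat.cast_nonneg _
        have hdR : (0 : ℝ) ≤ d := Nat.cast_nonneg _
        have e1 : 0 ≤ ((N : ℝ) + D * K' ^ 3) * T := by positivity
        have e2 : 0 ≤ (Cs + N + m * K) * (d * R ^ 3) := by
          have : 0 ≤ R ^ 3 := by positivity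
          exact mul_nonneg (by linarith) (mul_nonneg hdR this)
        nlinarith

end Pool.Agent.Arith
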