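import Pool.Agent.Lib.MP_c0402d_ag.ED

/-!
# JOB TB: algebraic independence of `Pf` of linear forms

Change coordinates so that `z_1, …, z_m` are the coordinates `ζ` of `ℂ^m`, `z_0 = ∑ c_j ζ_j`, with
`c := c_{j₁} ∉ ℚ(i)`. Fix `ζ_j ∉ Λ` and translate `ζ_{j₁}` by `l ∈ Λ`: the polynomial
`G(W, Pf ζ_1, …, Pf ζ_m)` in `W` vanishes at all `Pf (c l + d) `. The points `c l + d` are pairwise
incongruent modulo `Λ` (otherwise `c ∈ ℚ(i)`), so by `lat_inj` the pairs `(Pf, Qf) (c l + d)` are
pairwise different, and as `Qf² = Pf³ - Pf`, the set of all `Pf (c l + d)` is infinite. So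
`G(W, Pf ζ_1, …, Pf ζ_m) = 0` for all `W`, and `Pf` takes infinitely many values.
-/

set_option autoImplicit false

namespace Pool.Agent.Arith

open Complex

private theorem TB_not_lat {c : ℂ} (hc : ¬ InQI c) {n n' : ℤ} (h : n ≠ n') (d : ℂ) :
    (c * (n * Om) + d) - (c * (n' * Om) + d) ∉ Lam.lattice := by
  intro hmem
  obtain ⟨g, ⟨a, b, hab⟩, hg⟩ := mem_lat.mp hmem
  apply hc
  have hnn : ((n : ℂ) - n') ≠ 0 := sub_ne_zero.mpr (by exact_mod_cast h)
  have h1 : c * ((n : ℂ) - n') * Om = g * Om := by rw [← hg]; ring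
  have h2 : c * ((n : ℂ) - n') = g := mul_right_cancel₀ Om_ne_zero h1
  refine ⟨(a : ℚ) / ((n : ℚ) - n'), (b : ℚ) / ((n : ℚ) - n'), ?_⟩
  push_cast
  rw [hab] at h2
  field_simp
  linear_combination h2

private theorem TB_infinite {c : ℂ} (hc : ¬ InQI c) (d : ℂ) :
    {w : ℂ | ∃ n : ℤ, c * (n * Om) + d ∉ Lam.lattice ∧ w = Pf (c * (n * Om) + d)}.Infinite := by
  intro hfin
  set A := {w : ℂ | ∃ n : ℤ, c * (n * Om) + d ∉ Lam.lattice ∧ w = Pf (c * (n * Om) + d)} with hA
  set N := {n : ℤ | c * (n * Om) + d ∉ Lam.lattice} with hN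
  have hNc : Nᶜ.Subsingleton := by
    intro n hn n' hn'
    by_contra hne
    have h1 : c * (n * Om) + d ∈ Lam.lattice := not_not.mp hn
    have h2 : c * (n' * Om) + d ∈ Lam.lattice := not_not.mp hn'
    exact TB_not_lat hc hne d (sub_mem h1 h2)
  have hNinf : N.Infinite := by
    have := hNc.finite.infinite_compl
    rwa [compl_compl] at this
  set f : ℤ → ℂ × ℂ := fun n => (Pf (c * (n * Om) + d), Qf (c * (n * Om) + d)) with hf
  have hinj : Set.InjOn f N := by
    intro n hn n' hn' he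
    by_contra hne
    have h1 : Pf (c * (n * Om) + d) = Pf (c * (n' * Om) + d) := congrArg Prod.fst he
    have h2 : Qf (c * (n * Om) + d) = Qf (c * (n' * Om) + d) := congrArg Prod.snd he
    exact TB_not_lat hc hne d (lat_inj hn hn' h1 h2)
  have hinf : (f '' N).Infinite := hNinf.image hinj
  apply hinf
  have hsub : f '' N ⊆ ⋃ x ∈ A, (fun y : ℂ => (x, y)) '' {y : ℂ | y ^ 2 = x ^ 3 - x} := by
    rintro _ ⟨n, hn, rfl⟩
    simp only [Set.mem_iUnion]
    refine ⟨Pf (c * (n * Om) + d), ⟨n, hn, rfl⟩, Qf (c * (n * Om) + d), Qf_sq hn, rfl⟩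
  refine Set.Finite.subset (hfin.biUnion fun x _ => Set.Finite.image _ ?_) hsub
  have hP : (Polynomial.X ^ 2 - Polynomial.C (x ^ 3 - x) : Polynomial ℂ) ≠ 0 :=
    (Polynomial.monic_X_pow_sub_C _ (by norm_num)).ne_zero
  refine Set.Finite.subset (Polynomial.X ^ 2 - Polynomial.C (x ^ 3 - x) : Polynomial ℂ).roots.toFinset.finite_toSet
    ?_
  intro y hy
  have hy' : y ^ 2 = x ^ 3 - x := hy
  rw [Finset.mem_coe, Multiset.mem_toFinset, Polynomial.mem_roots hP, Polynomial.IsRoot.def]
  simp [hy']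

theorem pf_independent (m : ℕ) (B : Fin (m + 1) → Fin m → ℂ) (c : Fin m → ℂ)
    (b : Fin (m + 1) → ℂ) (hB : LinearIndependent ℂ (fun j : Fin m => B j.succ))
    (hc : ∀ σ, B 0 σ = ∑ j : Fin m, c j * B j.succ σ) (hcQ : ∃ j, ¬ InQI (c j))
    (G : MvPolynomial (Fin (m + 1)) ℂ)
    (hG : ∀ x : Fin m → ℂ, (∀ j, ∑ σ, B j σ * x σ + b j ∉ Lam.lattice) →
      MvPolynomial.eval (fun j => Pf (∑ σ, B j σ * x σ + b j)) G = 0) : G = 0 := by
  classical
  obtain ⟨j₁, hj₁⟩ := hcQ
  -- change of coordinates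
  have hsolve : ∀ ζ : Fin m → ℂ, ∃ x : Fin m → ℂ, ∀ j : Fin m, ∑ σ, B j.succ σ * x σ = ζ j := by
    intro ζ
    set M : Matrix (Fin m) (Fin m) ℂ := Matrix.of fun j σ => B j.succ σ with hM
    have hMu : IsUnit M := Matrix.linearIndependent_rows_iff_isUnit.mp hB
    refine ⟨M⁻¹.mulVec ζ, fun j => ?_⟩
    have h1 : M.mulVec (M⁻¹.mulVec ζ) = ζ := by
      rw [Matrix.mulVec_mulVec, Matrix.mul_nonsing_inv _ ((Matrix.isUnit_iff_isUnit_det _).mp hMu),
        Matrix.one_mulVec]
    exact congrFun h1 j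
  set d : ℂ := b 0 - ∑ j : Fin m, c j * b j.succ with hd
  have hG' : ∀ ζ : Fin m → ℂ, (∀ j, ζ j ∉ Lam.lattice) → ∑ j, c j * ζ j + d ∉ Lam.lattice →
      MvPolynomial.eval (Fin.cons (Pf (∑ j, c j * ζ j + d)) (fun j => Pf (ζ j)) :
        Fin (m + 1) → ℂ) G = 0 := by
    intro ζ h1 h2
    obtain ⟨x, hx⟩ := hsolve (fun j => ζ j - b j.succ)
    have h0 : ∑ σ, B 0 σ * x σ + b 0 = ∑ j, c j * ζ j + d := by
      have e1 : ∑ σ, B 0 σ * x σ = ∑ j : Fin m, c j * (ζ j - b j.succ) := by
        simp_rw [hc, Finset.sum_mul]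
        rw [Finset.sum_comm]
        refine Finset.sum_congr rfl fun j _ => ?_
        rw [← hx j, Finset.mul_sum]
        refine Finset.sum_congr rfl fun σ _ => ?_
        ring
      rw [e1, hd]
      simp_rw [mul_sub]
      rw [Finset.sum_sub_distrib]
      ring
    have hs : ∀ j : Fin m, ∑ σ, B j.succ σ * x σ + b j.succ = ζ j := by
      intro j
      rw [hx j]; ring
    have := hG x (by
      intro j
      refine Fin.cases ?_ (fun j => ?_) j
      · rw [h0]; exact h2
      · rw [hs]; exact h1 j)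
    have he : (fun j => Pf (∑ σ, B j σ * x σ + b j))
        = (Fin.cons (Pf (∑ j, c j * ζ j + d)) (fun j => Pf (ζ j)) : Fin (m + 1) → ℂ) := by
      funext j
      refine Fin.cases ?_ (fun j => ?_) j
      · rw [h0]; rfl
      · rw [hs]; rfl
    rw [he] at this
    exact this
  -- the first variable becomes free
  have hfree : ∀ ζ : Fin m → ℂ, (∀ j, ζ j ∉ Lam.lattice) → ∀ w : ℂ,
      MvPolynomial.eval (Fin.cons w (fun j => Pf (ζ j)) : Fin (m + 1) → ℂ) G = 0 := by
    intro ζ hζ w
    set g : Polynomial ℂ := MvPolynomial.aeval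
      (Fin.cons Polynomial.X (fun j => Polynomial.C (Pf (ζ j))) : Fin (m + 1) → Polynomial ℂ) G
      with hg
    have heval : ∀ w : ℂ, g.eval w
        = MvPolynomial.eval (Fin.cons w (fun j => Pf (ζ j)) : Fin (m + 1) → ℂ) G := by
      intro w
      have h1 : g.eval w = (Polynomial.aeval w : Polynomial ℂ →ₐ[ℂ] ℂ) g := by
        rw [Polynomial.coe_aeval_eq_eval]
      rw [h1, hg, ← MvPolynomial.aeval_eq_eval, ← AlgHom.comp_apply]
      congr 1
      apply MvPolynomial.algHom_ext
      intro j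
      rw [AlgHom.comp_apply, MvPolynomial.aeval_X, MvPolynomial.aeval_X]
      refine Fin.cases ?_ (fun j => ?_) j
      · simp
      · simp
    rw [← heval]
    have hg0 : g = 0 := by
      apply Polynomial.eq_zero_of_infinite_isRoot
      refine Set.Infinite.mono ?_ (TB_infinite hj₁ (∑ j, c j * ζ j + d))
      rintro _ ⟨n, hn, rfl⟩
      show g.IsRoot _
      rw [Polynomial.IsRoot.def, heval]
      have hOm : ((n : ℂ) * Om) ∈ Lam.lattice := mem_lat.mpr ⟨n, ⟨n, 0, by simp⟩, rfl⟩
      have hsum : ∑ j, c j * (Function.update ζ j₁ (ζ j₁ + n * Om)) j + d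
          = c j₁ * (n * Om) + (∑ j, c j * ζ j + d) := by
        have : ∀ j, c j * (Function.update ζ j₁ (ζ j₁ + n * Om)) j
            = c j * ζ j + (if j = j₁ then c j₁ * (n * Om) else 0) := by
          intro j
          by_cases h : j = j₁
          · subst h; simp; ring
          · simp [h]
        simp_rw [this]
        rw [Finset.sum_add_distrib, Finset.sum_ite_eq' Finset.univ j₁]
        simp
        ring
      have hupd : ∀ j, Function.update ζ j₁ (ζ j₁ + n * Om) j ∉ Lam.lattice := by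
        intro j
        by_cases h : j = j₁
        · subst h
          rw [Function.update_self]
          intro hm
          exact hζ j (by simpa using sub_mem hm hOm)
        · rw [Function.update_of_ne h]; exact hζ j
      have := hG' (Function.update ζ j₁ (ζ j₁ + n * Om)) hupd (by rw [hsum]; exact hn)
      rw [hsum] at this
      have he : (fun j => Pf (Function.update ζ j₁ (ζ j₁ + n * Om) j)) = fun j => Pf (ζ j) := by
        funext j
        by_cases h : j = j₁
        · subst h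
          rw [Function.update_self]
          exact Pf_add_lat hOm
        · rw [Function.update_of_ne h]
      rw [he] at this
      exact this
    rw [hg0, Polynomial.eval_zero]
  -- all variables are free
  set S : Set ℂ := {w | ∃ z, z ∉ Lam.lattice ∧ w = Pf z} with hS
  have hSinf : S.Infinite := by
    refine Set.Infinite.mono ?_ (TB_infinite hj₁ 0)
    rintro _ ⟨n, hn, rfl⟩
    exact ⟨_, hn, rfl⟩
  refine MvPolynomial.funext_set (Fin.cons Set.univ (fun _ => S)) ?_ ?_
  · intro j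
    refine Fin.cases ?_ (fun j => ?_) j
    · exact Set.infinite_univ
    · exact hSinf
  · intro x hx
    rw [map_zero]
    have h1 : ∀ j : Fin m, ∃ z, z ∉ Lam.lattice ∧ x j.succ = Pf z := fun j => hx j.succ trivial
    choose ζ hζ1 hζ2 using h1
    have := hfree ζ hζ1 (x 0)
    have he : (Fin.cons (x 0) (fun j => Pf (ζ j)) : Fin (m + 1) → ℂ) = x := by
      funext j
      refine Fin.cases ?_ (fun j => ?_) j
      · rfl
      · exact (hζ2 j).symm
    rw [he] at this
    exact this

end Pool.Agent.Arith
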