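import Pool.Agent.Lib.MP_c0402d_ag.TE1
import Pool.Agent.Lib.MP_c0402d_ag.TB

/-!
# JOB TF: some iterated derivative does not vanish

`Phi_eq_zero` at `ζ = 0` and `pf_independent`.
-/

set_option autoImplicit false

namespace Pool.Agent.Arith

open Complex MvPolynomial

theorem exists_nonvanishing (m : ℕ) (B : Fin (m + 1) → Fin m → ℂ) (c : Fin m → ℂ)
    (hB : LinearIndependent ℂ (fun j : Fin m => B j.succ))
    (hc : ∀ σ, B 0 σ = ∑ j : Fin m, c j * B j.succ σ) (hcQ : ∃ j, ¬ InQI (c j))
    (b : Fin (m + 1) → ℂ) (hb : ∀ j, b j ∉ Lam.lattice) (d : ℕ)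
    (p : (Fin (m + 1) → Fin (d + 1)) → ℂ) (hp : p ≠ 0) :
    ∃ w : List (Fin m), eval (Sum.elim (fun j => Pf (b j)) (fun j => Qf (b j)))
      (Dword B w (Gpoly p)) ≠ 0 := by
  classical
  by_contra hno
  push Not at hno
  apply hp
  have hok : Ok B b 0 := by
    intro j
    simpa using hb j
  have h0 : ∀ w : List (Fin m), Phi B b (Dword B w (Gpoly p)) 0 = 0 := by
    intro w
    have := hno w
    simpa [Phi] using this
  have h1 := Phi_eq_zero B b (Gpoly p) hok h0
  let ex : (Fin (m + 1) → Fin (d + 1)) → (Fin (m + 1) →₀ ℕ) := fun e =>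
    Finsupp.equivFunOnFinite.symm (fun j => (e j : ℕ))
  have hex : Function.Injective ex := by
    intro e e' h
    funext j
    have := DFunLike.congr_fun h j
    exact Fin.ext this
  let G : MvPolynomial (Fin (m + 1)) ℂ := ∑ e, monomial (ex e) (p e)
  have hG : G = 0 := by
    apply pf_independent m B c b hB hc hcQ G
    intro x hx
    have h2 := h1 x hx
    rw [Phi, Gpoly, map_sum] at h2
    rw [map_sum, ← h2]
    refine Finset.sum_congr rfl fun e _ => ?_
    rw [eval_monomial, map_mul, map_prod, eval_C]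
    congr 1
    rw [Finsupp.prod_fintype _ _ (by intro i; simp)]
    refine Finset.prod_congr rfl fun j _ => ?_
    rw [map_pow, eval_X]
    rfl
  funext e
  have h3 := congrArg (coeff (ex e)) hG
  rw [coeff_sum, coeff_zero, Finset.sum_eq_single e] at h3
  · rw [coeff_monomial, if_pos rfl] at h3
    exact h3
  · intro e' _ hne
    rw [coeff_monomial, if_neg (fun h => hne (hex h))]
  · intro h; exact absurd (Finset.mem_univ _) h

end Pool.Agent.Arith
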