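import Pool.Agent.Lib.MP_c0402d_ag.TA
import Pool.Agent.Lib.MP_c0402d_ag.TC
import Pool.Agent.Lib.MP_c0402d_ag.TD
import Pool.Agent.Lib.MP_c0402d_ag.TE
import Pool.Agent.Lib.MP_c0402d_ag.TF

/-!
# JOB TG: linear independence of elliptic logarithms

Suppose `u ≠ 0`. Take `linear_data`; `exists_field` with `S` = the set of the `B j σ`; all
`gridz B Y s j` are Gaussian combinations of the `u_l`. `d₀ = [F : ℚ]`. Choose
`N = 3 m (m + 1) (2 d₀ + 3)`, `ι = Fin m → Fin N`, and for large `T` take the auxiliary polynomial. Let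
`T'` be the minimal length of a word `w` with nonzero value at some grid point
(`exists_nonvanishing`); `T' ≥ T`. Apply `analytic_bound` with `R = T' ^ (1 / (3 (m + 1)))`:
`d R³ ≤ C T^(m/(m+1)) T'^(1/(m+1)) ≤ C T'`. Compare with the lower bound of `auxiliary`:
`-2 d₀ T' log T' - C T' ≤ 2 T' log T' + C T' - (2 d₀ + 3) T' log T'`, absurd for large `T`.
-/

set_option autoImplicit false

namespace Pool.Agent.Arith

open Complex

private theorem TG_InZI_natCast (a : ℕ) : InZI (a : ℂ) := ⟨a, 0, by push_cast; ring⟩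

private theorem TG_InZI_zero : InZI (0 : ℂ) := ⟨0, 0, by push_cast; ring⟩

private theorem TG_InZI_add {x y : ℂ} (hx : InZI x) (hy : InZI y) : InZI (x + y) := by
  obtain ⟨a, b, rfl⟩ := hx
  obtain ⟨c, d, rfl⟩ := hy
  exact ⟨a + c, b + d, by push_cast; ring⟩

private theorem TG_InZI_nat_mul {x : ℂ} (n : ℕ) (hx : InZI x) : InZI ((n : ℂ) * x) := by
  obtain ⟨a, b, rfl⟩ := hx
  exact ⟨n * a, n * b, by push_cast; ring⟩

private theorem TG_InZI_sum {ι : Type} (s : Finset ι) (f : ι → ℂ) (h : ∀ i ∈ s, InZI (f i)) :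
    InZI (∑ i ∈ s, f i) := by
  classical
  induction s using Finset.induction_on with
  | empty => simpa using TG_InZI_zero
  | insert a s ha ih =>
    rw [Finset.sum_insert ha]
    exact TG_InZI_add (h a (Finset.mem_insert_self a s))
      (ih fun i hi => h i (Finset.mem_insert_of_mem hi))

/-- the real inequality -/
private theorem TG_real (m d₀ : ℕ) (hm : 0 < m) (C₁ C₂ : ℝ) (hC₁ : 0 < C₁) (hC₂ : 1 ≤ C₂) :
    ∃ T₀ : ℕ, 1 ≤ T₀ ∧ ∀ T T' d : ℕ, ∀ P V : ℝ, T₀ ≤ T → T ≤ T' →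
      (d : ℝ) ^ (m + 1) ≤ C₁ * (T : ℝ) ^ m →
      P ≤ Real.exp (T * Real.log T + C₁ * T) →
      C₂ ≤ (T' : ℝ) ^ ((1 : ℝ) / (3 * (m + 1))) ∧
      (V ≤ P * Real.exp (T' * Real.log T' + C₂ * T' +
          C₂ * d * ((T' : ℝ) ^ ((1 : ℝ) / (3 * (m + 1)))) ^ 3 -
          ((3 * m * (m + 1) * (2 * d₀ + 3) : ℕ) : ℝ) / m * T' *
            Real.log ((T' : ℝ) ^ ((1 : ℝ) / (3 * (m + 1))))) →
        Real.exp (-(2 * d₀ * (T' * Real.log T') + C₁ * T')) ≤ V → False) := by
  set K : ℝ := 2 * C₁ + C₂ + C₂ * (1 + C₁) with hK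
  obtain ⟨T₀, hT₀⟩ := exists_nat_gt (max (Real.exp K) (max 1 (C₂ ^ (3 * (m + 1)))))
  have hT1 : Real.exp K < T₀ := lt_of_le_of_lt (le_max_left _ _) hT₀
  have hT2 : (1 : ℝ) < T₀ :=
    lt_of_le_of_lt ((le_max_left _ _).trans (le_max_right _ _)) hT₀
  have hT3 : C₂ ^ (3 * (m + 1)) < T₀ :=
    lt_of_le_of_lt ((le_max_right _ _).trans (le_max_right _ _)) hT₀
  refine ⟨T₀, by exact_mod_cast hT2.le, ?_⟩
  intro T T' d P V hT hTT' hd hP
  have hmR : (0 : ℝ) < m := by exact_mod_cast hm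
  have hTR : (T₀ : ℝ) ≤ T := by exact_mod_cast hT
  have hTT'R : (T : ℝ) ≤ T' := by exact_mod_cast hTT'
  have hT'1 : (1 : ℝ) < T' := by linarith
  have hT'0 : (0 : ℝ) < T' := by linarith
  have hT0 : (0 : ℝ) < T := by linarith
  set R : ℝ := (T' : ℝ) ^ ((1 : ℝ) / (3 * (m + 1))) with hR
  have hRpow : R ^ (3 * (m + 1)) = T' := by
    rw [hR, ← Real.rpow_natCast, ← Real.rpow_mul hT'0.le]
    have : (1 : ℝ) / (3 * (m + 1)) * ((3 * (m + 1) : ℕ) : ℝ) = 1 := by
      push_cast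
      field_simp
    rw [this, Real.rpow_one]
  have hR0 : 0 ≤ R := Real.rpow_nonneg hT'0.le _
  have hlogR : Real.log R = (1 : ℝ) / (3 * (m + 1)) * Real.log T' := by
    rw [hR, Real.log_rpow hT'0]
  refine ⟨?_, ?_⟩
  · have h1 : C₂ ^ (3 * (m + 1)) ≤ R ^ (3 * (m + 1)) := by
      rw [hRpow]
      linarith
    exact le_of_pow_le_pow_left₀ (by omega) hR0 h1
  · intro hV1 hV2
    have hdR : (d : ℝ) * R ^ 3 ≤ (1 + C₁) * T' := by
      have h1 : ((d : ℝ) * R ^ 3) ^ (m + 1) ≤ ((1 + C₁) * T') ^ (m + 1) := by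
        rw [mul_pow, ← pow_mul, hRpow, mul_pow]
        have h2 : (d : ℝ) ^ (m + 1) ≤ C₁ * (T' : ℝ) ^ m := by
          refine hd.trans ?_
          exact mul_le_mul_of_nonneg_left (pow_le_pow_left₀ hT0.le hTT'R m) hC₁.le
        have h3 : C₁ ≤ (1 + C₁) ^ (m + 1) := by
          have h4 : (1 + C₁) ^ 1 ≤ (1 + C₁) ^ (m + 1) :=
            pow_le_pow_right₀ (by linarith) (by omega)
          rw [pow_one] at h4
          linarith
        calc (d : ℝ) ^ (m + 1) * T' ≤ C₁ * (T' : ℝ) ^ m * T' :=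
              mul_le_mul_of_nonneg_right h2 hT'0.le
          _ = C₁ * (T' : ℝ) ^ (m + 1) := by rw [pow_succ]; ring
          _ ≤ (1 + C₁) ^ (m + 1) * (T' : ℝ) ^ (m + 1) :=
              mul_le_mul_of_nonneg_right h3 (by positivity)
      exact le_of_pow_le_pow_left₀ (by omega) (by positivity) h1
    have hlogT : Real.log T ≤ Real.log T' := Real.log_le_log hT0 hTT'R
    have hlogT0 : 0 ≤ Real.log T := Real.log_nonneg (by linarith)
    have hlogT'0 : 0 ≤ Real.log T' := Real.log_nonneg hT'1.le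
    have hP2 : P ≤ Real.exp (T' * Real.log T' + C₁ * T') := by
      refine hP.trans (Real.exp_le_exp.mpr ?_)
      have h5 : (T : ℝ) * Real.log T ≤ T' * Real.log T' :=
        mul_le_mul hTT'R hlogT hlogT0 hT'0.le
      have h6 : C₁ * (T : ℝ) ≤ C₁ * T' := mul_le_mul_of_nonneg_left hTT'R hC₁.le
      linarith
    have h7 : Real.exp (-(2 * d₀ * (T' * Real.log T') + C₁ * T')) ≤
        Real.exp (T' * Real.log T' + C₁ * T') * Real.exp (T' * Real.log T' + C₂ * T' +
          C₂ * d * R ^ 3 - ((3 * m * (m + 1) * (2 * d₀ + 3) : ℕ) : ℝ) / m * T' *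
            Real.log R) := by
      refine hV2.trans (hV1.trans ?_)
      exact mul_le_mul_of_nonneg_right hP2 (Real.exp_pos _).le
    rw [← Real.exp_add, Real.exp_le_exp, hlogR] at h7
    have h8 : ((3 * m * (m + 1) * (2 * d₀ + 3) : ℕ) : ℝ) / m * T' *
        ((1 : ℝ) / (3 * (m + 1)) * Real.log T') = (2 * d₀ + 3) * (T' * Real.log T') := by
      push_cast
      field_simp
    rw [h8] at h7
    have h9 : C₂ * d * R ^ 3 ≤ C₂ * ((1 + C₁) * T') := by
      rw [mul_assoc]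
      exact mul_le_mul_of_nonneg_left hdR (by linarith)
    have h10 : (T' : ℝ) * Real.log T' ≤ K * T' := by
      rw [hK]
      nlinarith
    have h11 : Real.log T' ≤ K := by
      rw [mul_comm] at h10
      exact le_of_mul_le_mul_right h10 hT'0
    have h12 : K < Real.log T' := by
      rw [Real.lt_log_iff_exp_lt hT'0]
      linarith
    linarith

theorem elliptic_logs (n : ℕ) (β u : Fin n → ℂ) (hβ : ∀ j, IsAlgebraic ℚ (β j))
    (hli : ∀ c : Fin n → ℂ, (∀ j, InQI (c j)) → ∑ j, c j * β j = 0 → c = 0)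
    (hu : ∀ j, u j ∈ Lam.lattice ∨ (IsAlgebraic ℚ (Pf (u j)) ∧ IsAlgebraic ℚ (Qf (u j))))
    (h : ∑ j, β j * u j = 0) : u = 0 := by
  by_contra hne
  obtain ⟨m, B, Y, c, hm, hBa, hY, hBY, hB, hc, hcQ⟩ := linear_data n β u hβ hli hne h
  obtain ⟨F, η, hFfin, hS, hg⟩ := exists_field n u hu
    (Set.range fun q : Fin (m + 1) × Fin m => B q.1 q.2) (Set.finite_range _)
    (by rintro s ⟨q, rfl⟩; exact hBa q.1 q.2)
  have hBF : ∀ j σ, B j σ ∈ F := fun j σ => hS _ ⟨(j, σ), rfl⟩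
  set d₀ : ℕ := Module.finrank ℚ F with hd₀
  set N : ℕ := 3 * m * (m + 1) * (2 * d₀ + 3) with hN
  have hN1 : 1 ≤ N := by
    have : 0 < 3 * m * (m + 1) * (2 * d₀ + 3) := by positivity
    omega
  -- the grid points are good
  have hgrid : ∀ (s : Fin m → ℕ) (j : Fin (m + 1)), gridz B Y s j + η ∉ Lam.lattice ∧
      Pf (gridz B Y s j + η) ∈ F ∧ Qf (gridz B Y s j + η) ∈ F := by
    intro s j
    choose g hgZ hgu using hBY
    have h1 : gridz B Y s j = ∑ l, (∑ i, (s i : ℂ) * g j i l) * u l := by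
      unfold gridz
      simp_rw [hgu, Finset.mul_sum, Finset.sum_mul]
      rw [Finset.sum_comm]
      refine Finset.sum_congr rfl fun l _ => Finset.sum_congr rfl fun i _ => ?_
      ring
    rw [h1]
    exact hg _ fun l => TG_InZI_sum _ _ fun i _ => TG_InZI_nat_mul _ (hgZ j i l)
  have _inst1 : Nonempty (Fin m → Fin N) := ⟨fun _ => ⟨0, hN1⟩⟩
  have _inst2 := hFfin
  obtain ⟨C₁, hC₁, haux⟩ := auxiliary F m hm B hBF (Fin m → Fin N)
    (fun s j => Pf (gridz B Y (fun i => s i) j + η))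
    (fun s j => Qf (gridz B Y (fun i => s i) j + η))
    (fun s j => (hgrid _ j).2.1) (fun s j => (hgrid _ j).2.2)
  obtain ⟨C₂, hC₂, hana⟩ := analytic_bound m hm B Y hY η N hN1 (fun s j => (hgrid _ j).1)
  obtain ⟨T₀, hT₀1, hreal⟩ := TG_real m d₀ hm C₁ C₂ hC₁ hC₂
  obtain ⟨d, p, hp, hd, hpsum, hvan, hlow⟩ := haux T₀ hT₀1
  classical
  -- minimal length of a nonvanishing word
  have hex : ∃ T' : ℕ, ∃ (s : Fin m → Fin N) (w : List (Fin m)), w.length = T' ∧
      MvPolynomial.eval (Sum.elim (fun j => Pf (gridz B Y (fun i => s i) j + η))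
        (fun j => Qf (gridz B Y (fun i => s i) j + η))) (Dword B w (Gpoly p)) ≠ 0 := by
    obtain ⟨w, hw⟩ := exists_nonvanishing m B c hB hc hcQ
      (fun j => gridz B Y (fun i => (((fun _ => ⟨0, hN1⟩ : Fin m → Fin N) i : Fin N) : ℕ)) j + η)
      (fun j => (hgrid _ j).1) d p hp
    exact ⟨w.length, fun _ => ⟨0, hN1⟩, w, rfl, hw⟩
  obtain ⟨s, w, hwlen, hwne⟩ := Nat.find_spec hex
  set T' := Nat.find hex with hT'
  have hmin : ∀ (s : Fin m → Fin N) (w : List (Fin m)), w.length < T' →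
      MvPolynomial.eval (Sum.elim (fun j => Pf (gridz B Y (fun i => s i) j + η))
        (fun j => Qf (gridz B Y (fun i => s i) j + η))) (Dword B w (Gpoly p)) = 0 := by
    intro s w hw
    by_contra hcon
    exact Nat.find_min hex hw ⟨s, w, rfl, hcon⟩
  have hTT' : T₀ ≤ T' := by
    by_contra hcon
    push Not at hcon
    exact hwne (hvan s w (by omega))
  obtain ⟨hR, hfin⟩ := hreal T₀ T' d (∑ e, ‖p e‖) (‖MvPolynomial.eval
    (Sum.elim (fun j => Pf (gridz B Y (fun i => s i) j + η))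
        (fun j => Qf (gridz B Y (fun i => s i) j + η))) (Dword B w (Gpoly p))‖)
    le_rfl hTT' hd hpsum
  refine hfin ?_ ?_
  · have := hana T' d p _ (by omega) hR hmin s w hwlen
    exact this
  · have := hlow s w (by omega) hwne
    rw [hwlen] at this
    exact this

end Pool.Agent.Arith
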