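import Pool.Agent.Lib.MP_c0402d_ag.IE
import Pool.Agent.Lib.MP_c0402d_ag.TG
import Pool.Agent.Lib.MP_c0402d_ag.EF
import Pool.Agent.Lib.MP_c0402d_ag.HF
import Pool.Agent.Lib.MP_c0402d_ag.KA

/-!
# JOB JA: the main theorem
-/

set_option autoImplicit false

namespace Pool.Agent.Arith

open KaehlerDifferential Polynomial Set Complex

/-! ### Gaussian numbers -/

theorem InQI.neg {z : ℂ} (h : InQI z) : InQI (-z) := by
  obtain ⟨a, b, rfl⟩ := h
  exact ⟨-a, -b, by push_cast; ring⟩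

theorem InQI.sub {z w : ℂ} (h : InQI z) (h' : InQI w) : InQI (z - w) := by
  obtain ⟨a, b, rfl⟩ := h
  obtain ⟨a', b', rfl⟩ := h'
  exact ⟨a - a', b - b', by push_cast; ring⟩

theorem InQI.mul {z w : ℂ} (h : InQI z) (h' : InQI w) : InQI (z * w) := by
  obtain ⟨a, b, rfl⟩ := h
  obtain ⟨a', b', rfl⟩ := h'
  refine ⟨a * a' - b * b', a * b' + b * a', ?_⟩
  push_cast
  linear_combination (b * b' : ℂ) * I_sq

theorem InQI.inv {z : ℂ} (h : InQI z) : InQI z⁻¹ := by
  by_cases hz : z = 0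
  · subst hz; exact ⟨0, 0, by simp⟩
  obtain ⟨a, b, rfl⟩ := h
  refine ⟨a / (a ^ 2 + b ^ 2), -b / (a ^ 2 + b ^ 2), ?_⟩
  have h1 : ((a : ℂ) ^ 2 + (b : ℂ) ^ 2) ≠ 0 := by
    intro h0
    have h2 : (a : ℝ) ^ 2 + (b : ℝ) ^ 2 = 0 := by exact_mod_cast h0
    have h3 : (a : ℝ) = 0 := by nlinarith [sq_nonneg (a : ℝ), sq_nonneg (b : ℝ)]
    have h4 : (b : ℝ) = 0 := by nlinarith [sq_nonneg (a : ℝ), sq_nonneg (b : ℝ)]
    apply hz
    have h5 : a = 0 := by exact_mod_cast h3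
    have h6 : b = 0 := by exact_mod_cast h4
    simp [h5, h6]
  apply inv_eq_of_mul_eq_one_right
  push_cast
  field_simp
  linear_combination -(b : ℂ) ^ 2 * I_sq

theorem isAlgebraic_ratCast (q : ℚ) : IsAlgebraic ℚ (q : ℂ) := isAlgebraic_algebraMap q

theorem isAlgebraic_I' : IsAlgebraic ℚ Complex.I := by
  apply IsAlgebraic.of_pow (n := 2) (by norm_num)
  rw [I_sq]
  exact isAlgebraic_one.neg

theorem InQI.isAlgebraic {z : ℂ} (h : InQI z) : IsAlgebraic ℚ z := by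
  obtain ⟨a, b, rfl⟩ := h
  exact (isAlgebraic_ratCast a).add ((isAlgebraic_ratCast b).mul isAlgebraic_I')

theorem s2_not_InQI : ¬ InQI s2 := by
  rintro ⟨a, b, h⟩
  have h1 := s2_sq
  rw [h] at h1
  have h2 : ((a : ℂ) ^ 2 - b ^ 2 + 2) + 2 * a * b * Complex.I = 0 := by
    linear_combination h1 - (b : ℂ) ^ 2 * I_sq
  have h3 := congrArg Complex.re h2
  have h4 := congrArg Complex.im h2
  have e1 : (((a : ℂ) ^ 2 - b ^ 2 + 2) + 2 * a * b * Complex.I) =
      (((a : ℝ) ^ 2 - b ^ 2 + 2 : ℝ) : ℂ) + ((2 * a * b : ℝ) : ℂ) * Complex.I := by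
    push_cast; rfl
  rw [e1] at h3 h4
  rw [Complex.add_re, Complex.re_ofReal_mul, Complex.I_re, mul_zero, add_zero, Complex.ofReal_re,
    Complex.zero_re] at h3
  rw [Complex.add_im, Complex.im_ofReal_mul, Complex.I_im, mul_one, Complex.ofReal_im, zero_add,
    Complex.zero_im] at h4
  have h3' : a ^ 2 - b ^ 2 + 2 = 0 := by exact_mod_cast h3
  have h4' : 2 * a * b = 0 := by exact_mod_cast h4
  rcases mul_eq_zero.1 h4' with h5 | h5
  · have ha : a = 0 := by linarith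
    rw [ha] at h3'
    have h6 : b ^ 2 = 2 := by linarith
    have h7 : Irrational (Real.sqrt 2) := irrational_sqrt_two
    apply h7
    refine ⟨|b|, ?_⟩
    rw [Rat.cast_abs, ← Real.sqrt_sq_eq_abs]
    congr 1
    exact_mod_cast h6
  · rw [h5] at h3'
    nlinarith [sq_nonneg a]

theorem isAlgebraic_s2 : IsAlgebraic ℚ s2 := by
  apply IsAlgebraic.of_pow (n := 2) (by norm_num)
  rw [s2_sq]
  have := isAlgebraic_ratCast (-2)
  push_cast at this
  exact this

theorem qi_indep {c₀ c₁ : ℂ} (h₀ : InQI c₀) (h₁ : InQI c₁) (h : c₀ - s2 * c₁ = 0) :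
    c₀ = 0 ∧ c₁ = 0 := by
  have h1 : c₁ = 0 := by
    by_contra hne
    apply s2_not_InQI
    have : s2 = c₀ * c₁⁻¹ := by field_simp; linear_combination -h
    rw [this]
    exact h₀.mul h₁.inv
  subst h1
  simpa using h

/-! ### Periods and scaling -/

theorem Place.val_spec' {L : Type} [Field L] [Algebra ℂ L] (P : Place ℂ L) {f : L} {c : ℂ}
    (h : f - algebraMap ℂ L c ∈ P.O.nonunits) : P.val f = c := by
  classical
  have h1 : ∃ c : ℂ, f - algebraMap ℂ L c ∈ P.O.nonunits := ⟨c, h⟩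
  have h2 : P.val f = h1.choose := by
    unfold Place.val
    rw [dif_pos h1]
  rw [h2]
  exact Place.value_unique h1.choose_spec h

theorem Place.smul_nonunits {L : Type} [Field L] [Algebra ℂ L] (P : Place ℂ L) {f : L} {c : ℂ}
    (h : f ∈ P.O.nonunits) : algebraMap ℂ L c * f ∈ P.O.nonunits := by
  rw [ValuationSubring.mem_nonunits_iff] at h ⊢
  rw [map_mul]
  have h1 : P.O.valuation (algebraMap ℂ L c) ≤ 1 := (P.O.valuation_le_one_iff _).2 (P.base c)
  exact mul_lt_one_of_nonneg_of_lt_one_right h1 zero_le h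

theorem Place.val_smul {L : Type} [Field L] [Algebra ℂ L] (P : Place ℂ L) (f : L) {c : ℂ}
    (hc : c ≠ 0) : P.val (algebraMap ℂ L c * f) = c * P.val f := by
  classical
  by_cases h1 : ∃ a : ℂ, f - algebraMap ℂ L a ∈ P.O.nonunits
  · obtain ⟨a, ha⟩ := h1
    rw [P.val_spec' ha]
    apply P.val_spec'
    have := P.smul_nonunits (c := c) ha
    rwa [mul_sub, ← map_mul] at this
  · have h2 : ¬ ∃ a : ℂ, algebraMap ℂ L c * f - algebraMap ℂ L a ∈ P.O.nonunits := by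
      rintro ⟨a, ha⟩
      apply h1
      refine ⟨c⁻¹ * a, ?_⟩
      have := P.smul_nonunits (c := c⁻¹) ha
      rw [mul_sub, ← mul_assoc, ← map_mul, inv_mul_cancel₀ hc, map_one, one_mul, ← map_mul] at this
      exact this
    unfold Place.val
    rw [dif_neg h1, dif_neg h2, mul_zero]

theorem ordAt_smul_iff {L : Type} [Field L] [Algebra ℂ L] {ω : Ω[L⁄ℂ]} {c : ℂ} (hc : c ≠ 0)
    {P : Place ℂ L} {m : ℕ} : OrdAt P (c • ω) m ↔ OrdAt P ω m := by
  constructor
  · intro h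
    have := h.smul (inv_ne_zero hc)
    rwa [smul_smul, inv_mul_cancel₀ hc, one_smul] at this
  · intro h
    exact h.smul hc

theorem hasIntegral_smul {L : Type} [Field L] [Algebra ℂ L] {ω : Ω[L⁄ℂ]} {c : ℂ} (hc : c ≠ 0)
    {γ : Arc L} {I : ℂ} (h : γ.HasIntegral ω I) : γ.HasIntegral (c • ω) (c * I) := by
  obtain ⟨ρ, hρ, hf, hI⟩ := h
  refine ⟨fun s => c * ρ s, continuousOn_const.mul hρ, ?_, ?_⟩
  · intro s hs
    obtain ⟨f, hf, g, hg, h1, h2⟩ := hf s hs
    refine ⟨algebraMap ℂ L c * f, mul_mem ((γ.pt s).base c) hf, g, hg, ?_, ?_⟩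
    · rw [h1, mul_smul, algebraMap_smul]
    · simp only []
      rw [h2, (γ.pt s).val_smul f hc, mul_assoc]
  · rw [intervalIntegral.integral_const_mul, ← hI]

theorem isPeriod_smul {L : Type} [Field L] [Algebra ℂ L] {ω : Ω[L⁄ℂ]} {c : ℂ} (hc : c ≠ 0) {I : ℂ} :
    IsPeriod (c • ω) I ↔ IsPeriod ω (I / c) := by
  constructor
  · rintro ⟨γ, ⟨m, hm, h0⟩, ⟨m', hm', h1⟩, hI⟩
    refine ⟨γ, ⟨m, hm, (ordAt_smul_iff hc).1 h0⟩, ⟨m', hm', (ordAt_smul_iff hc).1 h1⟩, ?_⟩
    have := hasIntegral_smul (inv_ne_zero hc) hI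
    rwa [smul_smul, inv_mul_cancel₀ hc, one_smul, mul_comm, ← div_eq_mul_inv] at this
  · rintro ⟨γ, ⟨m, hm, h0⟩, ⟨m', hm', h1⟩, hI⟩
    refine ⟨γ, ⟨m, hm, (ordAt_smul_iff hc).2 h0⟩, ⟨m', hm', (ordAt_smul_iff hc).2 h1⟩, ?_⟩
    have := hasIntegral_smul hc hI
    rwa [mul_div_cancel₀ _ hc] at this

theorem no_linear_relation {x y : ℂ} (h : AlgebraicIndependent ℚ ![x, y]) {a b c : ℂ}
    (ha : IsAlgebraic ℚ a) (hb : IsAlgebraic ℚ b) (hc : IsAlgebraic ℚ c)
    (h0 : a * x + b * y + c = 0) : a = 0 ∧ b = 0 ∧ c = 0 := by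
  have h1 : AlgebraicIndependent (algebraicClosure ℚ ℂ) ![x, y] := h.algebraicClosure
  let a' : algebraicClosure ℚ ℂ := ⟨a, mem_algebraicClosure_iff.2 ha⟩
  let b' : algebraicClosure ℚ ℂ := ⟨b, mem_algebraicClosure_iff.2 hb⟩
  let c' : algebraicClosure ℚ ℂ := ⟨c, mem_algebraicClosure_iff.2 hc⟩
  have h2 : (MvPolynomial.C a' * MvPolynomial.X 0 + MvPolynomial.C b' * MvPolynomial.X 1 +
      MvPolynomial.C c' : MvPolynomial (Fin 2) (algebraicClosure ℚ ℂ)) = 0 := by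
    apply (algebraicIndependent_iff.1 h1)
    simp only [map_add, map_mul, MvPolynomial.aeval_X, MvPolynomial.aeval_C]
    exact h0
  have e1 := congrArg (MvPolynomial.eval ![0, 0]) h2
  have e2 := congrArg (MvPolynomial.eval ![1, 0]) h2
  have e3 := congrArg (MvPolynomial.eval ![0, 1]) h2
  simp at e1 e2 e3
  have hc' : c' = 0 := e1
  have ha' : a' = 0 := by rw [hc'] at e2; simpa using e2
  have hb' : b' = 0 := by rw [hc'] at e3; simpa using e3
  exact ⟨congrArg Subtype.val ha', congrArg Subtype.val hb', congrArg Subtype.val hc'⟩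

/-- The quotients of periods lie in `ℚbar(Φ)`, `Φ = (u₁ - √-2 u₂) / Om`. -/
theorem periods_dependent {L : Type} [Field L] [Algebra ℂ L] {t : ℂ} {ω : Ω[L⁄ℂ]}
    (hm : Fam.Member t ω) {I J M : ℂ} (hI : IsPeriod ω I) (hJ : IsPeriod ω J) (hM : IsPeriod ω M)
    (h0 : M ≠ 0) : ¬ AlgebraicIndependent ℚ ![I / M, J / M] := by
  intro hind
  obtain ⟨hft, C, c, hC, hc, hω⟩ := (member_iff t ω).1 hm
  obtain ⟨u₁, u₂, -, -, -, -, -, -, -, -, hform, -⟩ := periods_form C hft hC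
  have hω' : ω = c • C.om := hω
  rw [hω', isPeriod_smul hc] at hI hJ hM
  obtain ⟨g₁, g₁', k₁, hg₁, hg₁', e₁⟩ := hform _ hI
  obtain ⟨g₂, g₂', k₂, hg₂, hg₂', e₂⟩ := hform _ hJ
  obtain ⟨g₃, g₃', k₃, hg₃, hg₃', e₃⟩ := hform _ hM
  have a₁ : IsAlgebraic ℚ (g₁ - s2 * g₁') := hg₁.isAlgebraic.sub (isAlgebraic_s2.mul hg₁'.isAlgebraic)
  have a₂ : IsAlgebraic ℚ (g₂ - s2 * g₂') := hg₂.isAlgebraic.sub (isAlgebraic_s2.mul hg₂'.isAlgebraic)
  have a₃ : IsAlgebraic ℚ (g₃ - s2 * g₃') := hg₃.isAlgebraic.sub (isAlgebraic_s2.mul hg₃'.isAlgebraic)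
  generalize g₁ - s2 * g₁' = α₁ at *
  generalize g₂ - s2 * g₂' = α₂ at *
  generalize g₃ - s2 * g₃' = α₃ at *
  generalize u₁ - s2 * u₂ = w at *
  have hk : ∀ k : ℤ, IsAlgebraic ℚ (k : ℂ) := fun k => isAlgebraic_intCast k
  have hD : α₃ * Om + k₃ * w ≠ 0 := by
    intro hD
    rw [hD, zero_div, div_eq_zero_iff] at e₃
    rcases e₃ with e₃ | e₃
    · exact h0 e₃
    · exact hc e₃
  have hx : I / M * (α₃ * Om + k₃ * w) = α₁ * Om + k₁ * w := by
    have h1 : I = c * ((α₁ * Om + k₁ * w) / 12) := by rw [← e₁]; field_simp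
    have h2 : M = c * ((α₃ * Om + k₃ * w) / 12) := by rw [← e₃]; field_simp
    rw [h1, h2, mul_div_mul_left _ _ hc, div_div_div_cancel_right₀ (by norm_num),
      div_mul_cancel₀ _ hD]
  have hy : J / M * (α₃ * Om + k₃ * w) = α₂ * Om + k₂ * w := by
    have h1 : J = c * ((α₂ * Om + k₂ * w) / 12) := by rw [← e₂]; field_simp
    have h2 : M = c * ((α₃ * Om + k₃ * w) / 12) := by rw [← e₃]; field_simp
    rw [h1, h2, mul_div_mul_left _ _ hc, div_div_div_cancel_right₀ (by norm_num),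
      div_mul_cancel₀ _ hD]
  generalize I / M = x at *
  generalize J / M = y at *
  have r1 := no_linear_relation hind (((hk k₂).mul a₃).sub ((hk k₃).mul a₂))
    (((hk k₃).mul a₁).sub ((hk k₁).mul a₃)) (((hk k₁).mul a₂).sub ((hk k₂).mul a₁)) (by
      apply mul_right_cancel₀ hD
      linear_combination (k₂ * α₃ - k₃ * α₂) * hx + (k₃ * α₁ - k₁ * α₃) * hy)
  obtain ⟨f1, f2, f3⟩ := r1
  have r2 := no_linear_relation hind (hk k₃) isAlgebraic_zero (hk k₁).neg (by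
      apply mul_right_cancel₀ hD
      linear_combination k₃ * hx + Om * f2)
  have r3 := no_linear_relation hind isAlgebraic_zero (hk k₃) (hk k₂).neg (by
      apply mul_right_cancel₀ hD
      linear_combination k₃ * hy - Om * f1)
  obtain ⟨s1, -, s3⟩ := r2
  obtain ⟨-, -, s4⟩ := r3
  have r4 := no_linear_relation hind a₃ isAlgebraic_zero a₁.neg (by
      apply mul_right_cancel₀ hD
      linear_combination α₃ * hx - w * f2)
  rw [r4.1, s1] at hD
  simp at hD

/-- If `u₁ - √-2 u₂ = c Om` with `c` algebraic then `u₁, u₂ ∈ ℚ(i) Om`: `elliptic_logs` for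
`(1, -√-2, -c)`, and then for `(1, -√-2)`. -/
theorem logs_torsion {u₁ u₂ c : ℂ} (hc : IsAlgebraic ℚ c) (h : u₁ - s2 * u₂ = c * Om)
    (h₁ : IsAlgebraic ℚ (Pf u₁)) (h₁' : IsAlgebraic ℚ (Qf u₁)) (h₂ : IsAlgebraic ℚ (Pf u₂))
    (h₂' : IsAlgebraic ℚ (Qf u₂)) : InQI (u₁ / Om) ∧ InQI (u₂ / Om) := by
  -- `c` is a Gaussian combination of `1` and `√-2`
  have step1 : ∃ g₀ g₁ : ℂ, InQI g₀ ∧ InQI g₁ ∧ c = g₀ - s2 * g₁ := by
    by_contra hno
    have h1 := elliptic_logs 3 ![1, -s2, -c] ![u₁, u₂, Om]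
      (by
        intro j
        fin_cases j
        · exact isAlgebraic_one
        · exact isAlgebraic_s2.neg
        · exact hc.neg)
      (by
        intro g hg h0
        rw [Fin.sum_univ_three] at h0
        simp only [Matrix.cons_val_zero, Matrix.cons_val_one, Matrix.cons_val] at h0
        have h2 : g 2 = 0 := by
          by_contra hne
          apply hno
          refine ⟨g 0 * (g 2)⁻¹, g 1 * (g 2)⁻¹, (hg 0).mul (hg 2).inv, (hg 1).mul (hg 2).inv, ?_⟩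
          field_simp
          linear_combination -h0
        have h3 := qi_indep (hg 0) (hg 1) (by rw [h2] at h0; linear_combination h0)
        funext j
        fin_cases j
        · exact h3.1
        · exact h3.2
        · exact h2)
      (by
        intro j
        fin_cases j
        · exact Or.inr ⟨h₁, h₁'⟩
        · exact Or.inr ⟨h₂, h₂'⟩
        · exact Or.inl (mem_lat.2 ⟨1, ⟨1, 0, by simp⟩, by simp⟩))
      (by
        rw [Fin.sum_univ_three]
        simp only [Matrix.cons_val_zero, Matrix.cons_val_one, Matrix.cons_val]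
        linear_combination h)
    have h2 := congrFun h1 2
    exact Om_ne_zero h2
  obtain ⟨g₀, g₁, ⟨a₀, b₀, rfl⟩, ⟨a₁, b₁, rfl⟩, hcg⟩ := step1
  -- a common denominator
  obtain ⟨N, hN, A₀, B₀, A₁, B₁, e1, e2, e3, e4⟩ : ∃ N : ℤ, N ≠ 0 ∧ ∃ A₀ B₀ A₁ B₁ : ℤ,
      (N : ℚ) * a₀ = A₀ ∧ (N : ℚ) * b₀ = B₀ ∧ (N : ℚ) * a₁ = A₁ ∧ (N : ℚ) * b₁ = B₁ := by
    refine ⟨a₀.den * b₀.den * a₁.den * b₁.den, ?_, a₀.num * b₀.den * a₁.den * b₁.den,
      b₀.num * a₀.den * a₁.den * b₁.den, a₁.num * a₀.den * b₀.den * b₁.den,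
      b₁.num * a₀.den * b₀.den * a₁.den, ?_, ?_, ?_, ?_⟩
    · positivity
    · have := Rat.mul_den_eq_num a₀
      push_cast
      linear_combination (b₀.den * a₁.den * b₁.den : ℚ) * this
    · have := Rat.mul_den_eq_num b₀
      push_cast
      linear_combination (a₀.den * a₁.den * b₁.den : ℚ) * this
    · have := Rat.mul_den_eq_num a₁
      push_cast
      linear_combination (a₀.den * b₀.den * b₁.den : ℚ) * this
    · have := Rat.mul_den_eq_num b₁
      push_cast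
      linear_combination (a₀.den * b₀.den * a₁.den : ℚ) * this
  have e1' : (N : ℂ) * a₀ = A₀ := by exact_mod_cast e1
  have e2' : (N : ℂ) * b₀ = B₀ := by exact_mod_cast e2
  have e3' : (N : ℂ) * a₁ = A₁ := by exact_mod_cast e3
  have e4' : (N : ℂ) * b₁ = B₁ := by exact_mod_cast e4
  -- points over the algebraic numbers
  let F : Subfield ℂ := (algebraicClosure ℚ ℂ).toSubfield
  have hF : ∀ x : ℂ, x ∈ F ↔ IsAlgebraic ℚ x := fun x => mem_algebraicClosure_iff
  have hIF : Complex.I ∈ F := (hF _).2 (InQI.isAlgebraic ⟨0, 1, by simp⟩)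
  have hgood : ∀ (u : ℂ), IsAlgebraic ℚ (Pf u) → IsAlgebraic ℚ (Qf u) → ∀ A B : ℤ,
      GoodPt F (N * u - (A + B * Complex.I) * Om) := by
    intro u hu hu' A B
    have h1 : GoodPt F u := Or.inr ⟨(hF _).2 hu, (hF _).2 hu'⟩
    have h2 : GoodPt F ((N : ℂ) * u) := h1.gauss hIF ⟨N, 0, by simp⟩
    have h3 : GoodPt F (-((A + B * Complex.I) * Om)) := by
      apply GoodPt.neg
      exact Or.inl (mem_lat.2 ⟨_, ⟨A, B, rfl⟩, rfl⟩)
    have := h2.add h3
    rwa [← sub_eq_add_neg] at this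
  have hgood' : ∀ w : ℂ, GoodPt F w → w ∈ Lam.lattice ∨
      (IsAlgebraic ℚ (Pf w) ∧ IsAlgebraic ℚ (Qf w)) := by
    intro w hw
    rcases hw with hw | ⟨hw, hw'⟩
    · exact Or.inl hw
    · exact Or.inr ⟨(hF _).1 hw, (hF _).1 hw'⟩
  have h1 := elliptic_logs 2 ![1, -s2]
      ![N * u₁ - (A₀ + B₀ * Complex.I) * Om, N * u₂ - (A₁ + B₁ * Complex.I) * Om]
      (by
        intro j
        fin_cases j
        · exact isAlgebraic_one
        · exact isAlgebraic_s2.neg)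
      (by
        intro g hg h0
        rw [Fin.sum_univ_two] at h0
        simp only [Matrix.cons_val_zero, Matrix.cons_val_one] at h0
        have h3 := qi_indep (hg 0) (hg 1) (by linear_combination h0)
        funext j
        fin_cases j
        · exact h3.1
        · exact h3.2)
      (by
        intro j
        fin_cases j
        · exact hgood' _ (hgood _ h₁ h₁' _ _)
        · exact hgood' _ (hgood _ h₂ h₂' _ _))
      (by
        rw [Fin.sum_univ_two]
        simp only [Matrix.cons_val_zero, Matrix.cons_val_one]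
        rw [hcg] at h
        linear_combination (N : ℂ) * h + Om * e1' + Om * Complex.I * e2' - Om * s2 * e3' -
          Om * s2 * Complex.I * e4')
  have hN' : (N : ℂ) ≠ 0 := by exact_mod_cast hN
  have hOm := Om_ne_zero
  have h2 := congrFun h1 0
  have h3 := congrFun h1 1
  simp only [Matrix.cons_val_zero, Matrix.cons_val_one, Pi.zero_apply] at h2 h3
  constructor
  · refine ⟨A₀ / N, B₀ / N, ?_⟩
    push_cast
    field_simp
    linear_combination h2
  · refine ⟨A₁ / N, B₁ / N, ?_⟩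
    push_cast
    field_simp
    linear_combination h3

/-- a point of the family with an algebraic parameter is not arithmetic -/
theorem not_arithmetic_alg {L : Type} [Field L] [Algebra ℂ L] {t : ℂ} {ω : Ω[L⁄ℂ]}
    (hm : Fam.Member t ω) (ht : IsAlgebraic ℚ t)
    (h : ∀ I J : ℂ, IsPeriod ω I → IsPeriod ω J → J ≠ 0 → IsAlgebraic ℚ (I / J)) : False := by
  obtain ⟨hft, C, c, hC, hc, hω⟩ := (member_iff t ω).1 hm
  obtain ⟨u₁, u₂, b, hb, hu₁, hu₂, hP₁, hQ₁, hP₂, hQ₂, -, ⟨g₁, g₂, hg₁, hg₂, hper⟩,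
    g₁', g₂', hg₁', hg₂', hne, hper'⟩ := periods_form C hft hC
  have hω' : ω = c • C.om := hω
  have hI : IsPeriod ω (c * (((g₁ - s2 * g₂) * Om + (u₁ - s2 * u₂)) / 12)) := by
    rw [hω', isPeriod_smul hc, mul_div_cancel_left₀ _ hc]; exact hper
  have hJ : IsPeriod ω (c * ((g₁' - s2 * g₂') * Om / 12)) := by
    rw [hω', isPeriod_smul hc, mul_div_cancel_left₀ _ hc]; exact hper'
  have hJ0 : c * ((g₁' - s2 * g₂') * Om / 12) ≠ 0 := by
    apply mul_ne_zero hc
    apply div_ne_zero hne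
    norm_num
  have halg := h _ _ hI hJ hJ0
  have hOm := Om_ne_zero
  have hg' : g₁' - s2 * g₂' ≠ 0 := fun h0 => hne (by rw [h0, zero_mul])
  -- `(u₁ - √-2 u₂) / Om` is algebraic
  have hq : IsAlgebraic ℚ ((u₁ - s2 * u₂) / Om) := by
    have h1 : (u₁ - s2 * u₂) / Om = (c * (((g₁ - s2 * g₂) * Om + (u₁ - s2 * u₂)) / 12)) /
        (c * ((g₁' - s2 * g₂') * Om / 12)) * (g₁' - s2 * g₂') - (g₁ - s2 * g₂) := by
      field_simp
      ring
    rw [h1]
    exact (halg.mul (hg₁'.isAlgebraic.sub (isAlgebraic_s2.mul hg₂'.isAlgebraic))).sub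
      (hg₁.isAlgebraic.sub (isAlgebraic_s2.mul hg₂.isAlgebraic))
  have hnum : ∀ n : ℕ, IsAlgebraic ℚ (n : ℂ) := fun n => isAlgebraic_natCast n
  have hA : IsAlgebraic ℚ (vA t) := by
    have h3 := hnum 3
    have h4 := hnum 4
    have h2 := hnum 2
    push_cast at h3 h4 h2
    exact ((h3.mul (ht.pow 2)).add (h4.mul ht)).add h2
  have hX : IsAlgebraic ℚ (vX t) := by
    have h2 := hnum 2
    push_cast at h2
    rw [vX, div_eq_mul_inv]
    exact (h2.neg.mul ((h2.mul ht).add isAlgebraic_one)).mul hA.inv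
  have hb' : IsAlgebraic ℚ b := by
    apply IsAlgebraic.of_pow (n := 2) (by norm_num)
    rw [hb]
    have h6 := hnum 6
    have h2 := hnum 2
    have h3 := hnum 3
    push_cast at h6 h2 h3
    have : (fR ℂ).eval t = 6 * (2 * t + 1) * (3 * t + 2) * (t + 2) * vA t := by
      simp [fR, vA]
    rw [this]
    exact (((h6.mul ((h2.mul ht).add isAlgebraic_one)).mul ((h3.mul ht).add h2)).mul
      (ht.add h2)).mul hA
  have hY₁ : IsAlgebraic ℚ (t * b / vA t ^ 2) := by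
    rw [div_eq_mul_inv]
    exact (ht.mul hb').mul (hA.pow 2).inv
  have hY₂ : IsAlgebraic ℚ (s2 * (t + 1) * b / vA t ^ 2) := by
    rw [div_eq_mul_inv]
    exact ((isAlgebraic_s2.mul (ht.add isAlgebraic_one)).mul hb').mul (hA.pow 2).inv
  obtain ⟨ht₁, ht₂⟩ := logs_torsion (u₁ := u₁) (u₂ := u₂) hq (by field_simp) (by rw [hP₁]; exact hX)
    (by rw [hQ₁]; exact hY₁) (by rw [hP₂]; exact hX.sub isAlgebraic_one) (by rw [hQ₂]; exact hY₂)
  have hk := torsion_key hu₁ hu₂ ht₁ ht₂ (by rw [hP₁, hP₂])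
  rw [hP₁] at hk
  rcases hk with hk | hk
  · exact (vX_ne hft).1 hk
  · exact (vX_ne hft).2 hk

theorem not_arithmetic {L : Type} [Field L] [Algebra ℂ L] {t : ℂ} {ω : Ω[L⁄ℂ]}
    (hm : Fam.Member t ω) : ¬ IsArithmetic ω := by
  rintro ⟨hd, h⟩
  obtain ⟨R, φ, hR, hφ, -⟩ := exists_place_complex
  obtain ⟨htR, hm'⟩ := descent hm hd R φ hR hφ
  exact not_arithmetic_alg hm' ((mem_algebraicClosure_iff).1 (φ ⟨t, htR⟩).2) h

theorem fam_isBialgebraicCurve : Fam.IsBialgebraicCurve {2, 2, 1, 1} where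
  bad_ne_zero := by
    intro h0
    have h1 : (fR ℚ).eval 0 = 48 := fR_eval_zero
    have h2 : fR ℚ = 0 := h0
    rw [h2] at h1
    norm_num at h1
  exists_member := fun K _ _ _ _ ht => member_exists K ht
  unique := fun _ _ _ _ _ _ _ _ _ _ _ _ _ h h' => member_unique h h'
  hasType := fun _ _ _ _ _ _ _ _ _ h => member_hasType h
  closed := fun _ _ _ _ _ _ _ _ _ _ _ _ _ _ _ _ h h' h'' => family_closed h h' h''
  generic := fun _ _ _ _ _ _ _ _ _ h => member_generic h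
  nonconstant := nonconstant
  periods := fun _ _ _ _ _ h _ _ _ hI hJ hM h0 => periods_dependent h hI hJ hM h0

end Pool.Agent.Arith
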