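import Pool.Agent.Lib.MP_c0402d_ag.EA

/-!
# JOB TA: linear algebra over a number field (the trick of Bertrand and Masser)

Let `k = ℚ(i)` and `K₀ = k(β₁, …, βₙ)`, `r = [K₀ : k]`. Extend `β` to a `k`-basis `β₁, …, β_r` of
`K₀`, put `u_j = 0` for `j > n`; let `β*` be the dual basis for the trace form, so that
`∑_j σ(β_j) τ(β*_j) = δ_{στ}` and `∑_σ σ(β_j) σ(β*_i) = δ_{ij}` for `k`-embeddings `σ, τ` of `K₀`.
Put `x_σ = ∑_j σ(β_j) u_j`; so `x_id = 0`. Let `Σ = {σ | x_σ ≠ 0}` (nonempty as `u ≠ 0`), `m = #Σ < r`,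
and `z_j(ξ) = ∑_{σ ∈ Σ} σ(β*_j) ξ_σ`, so `z_j(x) = u_j`. For `γ ∈ K₀` let `(γ ξ)_σ = σ(γ) ξ_σ`;
with `γ β*_j = ∑_i c_{ji} β*_i` we get `z_j(γ x) = ∑_i c_{ji} u_i`. Multiply `γ` by a natural number
to have all `c_{ji}` in `ℤ[i]`. The vectors `γ x` span `ℂ^Σ` (Dedekind independence); take a basis
`Y` of this form. `B j σ = σ(β*_j)`. The forms `z_j` span the dual of `ℂ^Σ`; choose a basis among
them (these are `B 1, …, B m`) and one more form `B 0 = ∑ c_j B_j`. If all `c_j` were in `k`, then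
`∑_j q_j σ(β*_j) = 0` for a `σ ∈ Σ` and some `q ∈ k^r`, `q ≠ 0`, so `∑ q_j β*_j = 0`, absurd.
-/

set_option autoImplicit false

namespace Pool.Agent.Arith

open Complex

private theorem TA_dual {k L ι : Type*} [Field k] [Field L] [Algebra k L] [FiniteDimensional k L]
    [Algebra.IsSeparable k L] [Algebra k ℂ] [Fintype ι] [DecidableEq ι]
    (b : Module.Basis ι k L) (i j : ι) :
    ∑ σ : L →ₐ[k] ℂ, σ (b.traceDual i) * σ (b j) = if j = i then 1 else 0 := by
  have h := trace_eq_sum_embeddings (K := k) (L := L) ℂ (x := b.traceDual i * b j)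
  rw [Module.Basis.trace_traceDual_mul] at h
  simp only [map_mul] at h
  rw [← h]
  split_ifs <;> simp

/-- coordinates: `∑_σ σ(β*_i) σ(y) = ` the `i`-th coordinate of `y` -/
private theorem TA_coord {k L ι : Type*} [Field k] [Field L] [Algebra k L] [FiniteDimensional k L]
    [Algebra.IsSeparable k L] [Algebra k ℂ] [Fintype ι] [DecidableEq ι]
    (b : Module.Basis ι k L) (i : ι) (y : L) :
    ∑ σ : L →ₐ[k] ℂ, σ (b.traceDual i) * σ y = algebraMap k ℂ (b.repr y i) := by
  have hy : y = ∑ j, b.repr y j • b j := (b.sum_repr y).symm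
  have h1 : ∀ σ : L →ₐ[k] ℂ, σ y = ∑ j, algebraMap k ℂ (b.repr y j) * σ (b j) := by
    intro σ
    conv_lhs => rw [hy]
    rw [map_sum]
    refine Finset.sum_congr rfl fun j _ => ?_
    rw [map_smul, Algebra.smul_def]
  calc ∑ σ : L →ₐ[k] ℂ, σ (b.traceDual i) * σ y
      = ∑ σ : L →ₐ[k] ℂ, ∑ j, algebraMap k ℂ (b.repr y j) * (σ (b.traceDual i) * σ (b j)) := by
        refine Finset.sum_congr rfl fun σ _ => ?_
        rw [h1 σ, Finset.mul_sum]
        refine Finset.sum_congr rfl fun j _ => ?_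
        ring
    _ = ∑ j, algebraMap k ℂ (b.repr y j) * ∑ σ : L →ₐ[k] ℂ, σ (b.traceDual i) * σ (b j) := by
        rw [Finset.sum_comm]
        refine Finset.sum_congr rfl fun j _ => ?_
        rw [Finset.mul_sum]
    _ = algebraMap k ℂ (b.repr y i) := by
        simp only [TA_dual]
        simp

private theorem TA_core {k L ι : Type*} [Field k] [Field L] [Algebra k L] [FiniteDimensional k L]
    [Algebra.IsSeparable k L] [Algebra k ℂ] [Fintype ι] [DecidableEq ι]
    (b : Module.Basis ι k L) (u : ι → ℂ) (hu : u ≠ 0) (φ : L →ₐ[k] ℂ)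
    (h : ∑ j, φ (b j) * u j = 0) (P : L → Prop)
    (hP : ∀ γ : L, ∃ D : ℕ, 0 < D ∧ P (D * γ)) :
    ∃ (m : ℕ) (e : Fin m → (L →ₐ[k] ℂ)) (f : Fin (m + 1) → ι) (γ : Fin m → L) (c : Fin m → ℂ)
      (Y : Fin m → Fin m → ℂ),
      0 < m ∧ (∀ i, P (γ i)) ∧ LinearIndependent ℂ Y ∧
      LinearIndependent ℂ (fun j : Fin m => fun σ => e σ (b.traceDual (f j.succ))) ∧
      (∀ σ, e σ (b.traceDual (f 0)) = ∑ j, c j * e σ (b.traceDual (f j.succ))) ∧
      (∃ j, c j ∉ Set.range (algebraMap k ℂ)) ∧
      (∀ j i, ∑ σ, e σ (b.traceDual (f j)) * Y i σ =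
        ∑ l, algebraMap k ℂ (b.repr (γ i * b l) (f j)) * u l) := by
  classical
  set x : (L →ₐ[k] ℂ) → ℂ := fun τ => ∑ j, τ (b j) * u j with hx
  have hxφ : x φ = 0 := h
  -- inversion
  have hinv : ∀ (γ : L) (i : ι), ∑ τ : L →ₐ[k] ℂ, τ (b.traceDual i) * (τ γ * x τ) =
      ∑ l, algebraMap k ℂ (b.repr (γ * b l) i) * u l := by
    intro γ i
    calc ∑ τ : L →ₐ[k] ℂ, τ (b.traceDual i) * (τ γ * x τ)
        = ∑ τ : L →ₐ[k] ℂ, ∑ l, (τ (b.traceDual i) * τ (γ * b l)) * u l := by
          refine Finset.sum_congr rfl fun τ _ => ?_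
          simp only [hx, Finset.mul_sum, map_mul]
          refine Finset.sum_congr rfl fun l _ => ?_
          ring
      _ = ∑ l, (∑ τ : L →ₐ[k] ℂ, τ (b.traceDual i) * τ (γ * b l)) * u l := by
          rw [Finset.sum_comm]
          refine Finset.sum_congr rfl fun l _ => ?_
          rw [Finset.sum_mul]
      _ = _ := by
          refine Finset.sum_congr rfl fun l _ => ?_
          rw [TA_coord]
  -- the set S
  set S : Finset (L →ₐ[k] ℂ) := Finset.univ.filter (fun τ => x τ ≠ 0) with hS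
  set m := S.card with hm
  have hSne : S.Nonempty := by
    by_contra hne
    rw [Finset.not_nonempty_iff_eq_empty] at hne
    have hx0 : ∀ τ, x τ = 0 := by
      intro τ
      by_contra hτ
      have : τ ∈ S := by simp [hS, hτ]
      rw [hne] at this
      simp at this
    apply hu
    funext i
    have h1 := hinv 1 i
    simp only [hx0, mul_zero, Finset.sum_const_zero, one_mul] at h1
    rw [Finset.sum_eq_single i] at h1
    · simpa using h1.symm
    · intro j _ hj
      simp [Module.Basis.repr_self, hj]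
    · simp
  have hmpos : 0 < m := Finset.card_pos.2 hSne
  let e0 : Fin m ≃ S := (Finset.equivFin S).symm
  let e : Fin m → (L →ₐ[k] ℂ) := fun i => (e0 i : L →ₐ[k] ℂ)
  have heinj : Function.Injective e := Subtype.val_injective.comp e0.injective
  have hmemS : ∀ τ, τ ∈ S → x τ ≠ 0 := fun τ hτ => (Finset.mem_filter.1 hτ).2
  have hex : ∀ i, x (e i) ≠ 0 := fun i => hmemS _ (e0 i).2
  -- sums over Fin m are sums over S
  have hsum : ∀ F : (L →ₐ[k] ℂ) → ℂ, (∀ τ, x τ = 0 → F τ = 0) →
      ∑ σ, F (e σ) = ∑ τ : L →ₐ[k] ℂ, F τ := by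
    intro F hF
    have h1 : ∑ σ, F (e σ) = ∑ τ : S, F τ := Equiv.sum_comp e0 (fun τ : S => F τ)
    rw [h1, Finset.sum_coe_sort S F]
    apply Finset.sum_subset (Finset.subset_univ _)
    intro τ _ hτ
    apply hF
    by_contra hne
    exact hτ (by simp [hS, hne])
  -- cardinality
  have hcard : m < Fintype.card ι := by
    have h1 : Fintype.card (L →ₐ[k] ℂ) = Fintype.card ι := by
      rw [AlgHom.card k L ℂ, Module.finrank_eq_card_basis b]
    rw [← h1, hm]
    apply Finset.card_lt_univ_of_notMem (x := φ)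
    simp [hS, hxφ]
  -- Dedekind independence
  have hded : LinearIndependent ℂ (fun σ : Fin m => ((e σ).toLinearMap : L →ₗ[k] ℂ)) :=
    (linearIndependent_algHom_toLinearMap k L ℂ).comp e heinj
  have hded' : ∀ g : Fin m → ℂ, (∀ y : L, ∑ σ, g σ * e σ y = 0) → g = 0 := by
    intro g hg
    rw [Fintype.linearIndependent_iff] at hded
    funext σ
    apply hded g
    ext y
    simpa using hg y
  -- spanning of the `γ x`
  set V : Set (Fin m → ℂ) := {v | ∃ γ : L, P γ ∧ v = fun σ => e σ γ * x (e σ)} with hV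
  have hVspan : Submodule.span ℂ V = ⊤ := by
    by_contra hne
    obtain ⟨g, hg0, hg⟩ := Submodule.exists_le_ker_of_lt_top _ (lt_top_iff_ne_top.2 hne)
    apply hg0
    -- `g` as a vector
    have hgv : ∀ v : Fin m → ℂ, g v = ∑ σ, v σ * g (Pi.single σ 1) := by
      intro v
      conv_lhs => rw [pi_eq_sum_univ' v]
      simp [map_sum, map_smul]
    have h1 : (fun σ => x (e σ) * g (Pi.single σ 1)) = 0 := by
      apply hded'
      intro y
      obtain ⟨D, hD, hDP⟩ := hP y
      have hmem : (fun σ => e σ (D * y) * x (e σ)) ∈ Submodule.span ℂ V :=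
        Submodule.subset_span ⟨_, hDP, rfl⟩
      have h2 := hg hmem
      rw [LinearMap.mem_ker, hgv] at h2
      have h3 : (D : ℂ) * ∑ σ, x (e σ) * g (Pi.single σ 1) * e σ y = 0 := by
        rw [← h2, Finset.mul_sum]
        refine Finset.sum_congr rfl fun σ _ => ?_
        rw [map_mul, map_natCast]
        ring
      rcases mul_eq_zero.1 h3 with h4 | h4
      · exfalso
        have : D = 0 := by exact_mod_cast h4
        omega
      · exact h4
    apply LinearMap.ext
    intro v
    rw [hgv]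
    simp only [LinearMap.zero_apply]
    apply Finset.sum_eq_zero
    intro σ _
    have h5 := congrFun h1 σ
    simp only [Pi.zero_apply] at h5
    rcases mul_eq_zero.1 h5 with h6 | h6
    · exact absurd h6 (hex σ)
    · rw [h6, mul_zero]
  -- spanning of the forms
  set W : Set (Fin m → ℂ) := Set.range (fun j : ι => fun σ => e σ (b.traceDual j)) with hW
  have hWspan : Submodule.span ℂ W = ⊤ := by
    by_contra hne
    obtain ⟨g, hg0, hg⟩ := Submodule.exists_le_ker_of_lt_top _ (lt_top_iff_ne_top.2 hne)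
    apply hg0
    have hgv : ∀ v : Fin m → ℂ, g v = ∑ σ, v σ * g (Pi.single σ 1) := by
      intro v
      conv_lhs => rw [pi_eq_sum_univ' v]
      simp [map_sum, map_smul]
    have h1 : (fun σ => g (Pi.single σ 1)) = 0 := by
      apply hded'
      intro y
      have hy : y = ∑ j, b.traceDual.repr y j • b.traceDual j := (b.traceDual.sum_repr y).symm
      have h2 : ∀ j, ∑ σ, g (Pi.single σ 1) * e σ (b.traceDual j) = 0 := by
        intro j
        have h3 := hg (Submodule.subset_span (s := W) ⟨j, rfl⟩)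
        rw [LinearMap.mem_ker, hgv] at h3
        rw [← h3]
        refine Finset.sum_congr rfl fun σ _ => ?_
        ring
      calc ∑ σ, g (Pi.single σ 1) * e σ y
          = ∑ σ, ∑ j, algebraMap k ℂ (b.traceDual.repr y j) *
              (g (Pi.single σ 1) * e σ (b.traceDual j)) := by
            refine Finset.sum_congr rfl fun σ _ => ?_
            conv_lhs => rw [hy]
            rw [map_sum, Finset.mul_sum]
            refine Finset.sum_congr rfl fun j _ => ?_
            rw [map_smul, Algebra.smul_def]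
            ring
        _ = ∑ j, algebraMap k ℂ (b.traceDual.repr y j) *
              ∑ σ, (g (Pi.single σ 1) * e σ (b.traceDual j)) := by
            rw [Finset.sum_comm]
            refine Finset.sum_congr rfl fun j _ => ?_
            rw [Finset.mul_sum]
        _ = 0 := by
            apply Finset.sum_eq_zero
            intro j _
            rw [h2, mul_zero]
    apply LinearMap.ext
    intro v
    rw [hgv]
    simp only [LinearMap.zero_apply]
    apply Finset.sum_eq_zero
    intro σ _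
    have h5 := congrFun h1 σ
    simp only [Pi.zero_apply] at h5
    rw [h5, mul_zero]
  -- choose bases
  have hbas : ∀ T : Set (Fin m → ℂ), Submodule.span ℂ T = ⊤ →
      ∃ y : Fin m → (Fin m → ℂ), (∀ i, y i ∈ T) ∧ LinearIndependent ℂ y := by
    intro T hT
    obtain ⟨B, hBT, hBs, hBl⟩ := exists_linearIndependent ℂ T
    rw [hT] at hBs
    let bas : Module.Basis B ℂ (Fin m → ℂ) := Module.Basis.mk hBl (by
      rw [Subtype.range_coe, hBs])
    have : Finite B := Module.Finite.finite_basis bas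
    have : Fintype B := Fintype.ofFinite B
    have hc : Fintype.card B = m := by
      have h1 := Module.finrank_eq_card_basis bas
      rw [Module.finrank_fin_fun] at h1
      exact h1.symm
    let q : Fin m ≃ B := (Fintype.equivFinOfCardEq hc).symm
    exact ⟨fun i => (q i : Fin m → ℂ), fun i => hBT (q i).2, hBl.comp q q.injective⟩
  obtain ⟨Y, hYV, hYli⟩ := hbas V hVspan
  obtain ⟨Z, hZW, hZli⟩ := hbas W hWspan
  choose γ hγP hγY using hYV
  choose f hf using hZW
  -- the extra index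
  obtain ⟨j0, hj0⟩ : ∃ j0 : ι, j0 ∉ Set.range f := by
    by_contra hall
    push Not at hall
    have hsurj : Function.Surjective f := hall
    have := Fintype.card_le_of_surjective f hsurj
    rw [Fintype.card_fin] at this
    omega
  have hZspan : Submodule.span ℂ (Set.range Z) = ⊤ := by
    apply hZli.span_eq_top_of_card_eq_finrank'
    rw [Module.finrank_fin_fun, Fintype.card_fin]
  obtain ⟨c, hc⟩ : ∃ c : Fin m → ℂ, ∑ j, c j • Z j = fun σ => e σ (b.traceDual j0) := by
    have hmem : (fun σ => e σ (b.traceDual j0)) ∈ Submodule.span ℂ (Set.range Z) := by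
      rw [hZspan]; trivial
    exact (Submodule.mem_span_range_iff_exists_fun ℂ).1 hmem
  refine ⟨m, e, Fin.cons j0 f, γ, c, Y, hmpos, hγP, hYli, ?_, ?_, ?_, ?_⟩
  · have : (fun j : Fin m => fun σ => e σ (b.traceDual ((Fin.cons j0 f : Fin (m + 1) → ι) j.succ)))
        = Z := by
      funext j
      rw [Fin.cons_succ]
      exact hf j
    rw [this]
    exact hZli
  · intro σ
    rw [Fin.cons_zero]
    have h1 := congrFun hc σ
    simp only [Finset.sum_apply, Pi.smul_apply, smul_eq_mul] at h1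
    rw [← h1]
    refine Finset.sum_congr rfl fun j _ => ?_
    rw [Fin.cons_succ, ← hf j]
  · by_contra hall
    push Not at hall
    choose q hq using hall
    let σ0 : Fin m := ⟨0, hmpos⟩
    have h1 := congrFun hc σ0
    simp only [Finset.sum_apply, Pi.smul_apply, smul_eq_mul] at h1
    have h2 : e σ0 (∑ j, q j • b.traceDual (f j)) = e σ0 (b.traceDual j0) := by
      rw [← h1, map_sum]
      refine Finset.sum_congr rfl fun j _ => ?_
      rw [map_smul, Algebra.smul_def, hq j, ← hf j]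
    have h3 := (e σ0).toRingHom.injective h2
    have hli := b.traceDual.linearIndependent
    have h4 := hli.notMem_span_image (s := Set.range f) hj0
    apply h4
    rw [← h3]
    apply Submodule.sum_mem
    intro j _
    apply Submodule.smul_mem
    apply Submodule.subset_span
    exact ⟨f j, ⟨j, rfl⟩, rfl⟩
  · intro j i
    rw [hγY i, ← hinv (γ i) ((Fin.cons j0 f : Fin (m + 1) → ι) j)]
    exact hsum (fun τ => τ (b.traceDual ((Fin.cons j0 f : Fin (m + 1) → ι) j)) *
      (τ (γ i) * x τ)) (fun τ hτ => by simp [hτ])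

/-- the field `ℚ(i)` -/
private def TA_k : Subfield ℂ where
  carrier := {z | InQI z}
  mul_mem' := by
    rintro x y ⟨a, b, rfl⟩ ⟨c, d, rfl⟩
    refine ⟨a * c - b * d, a * d + b * c, ?_⟩
    push_cast
    linear_combination (b * d : ℂ) * Complex.I_sq
  one_mem' := ⟨1, 0, by simp⟩
  add_mem' := by
    rintro x y ⟨a, b, rfl⟩ ⟨c, d, rfl⟩
    exact ⟨a + c, b + d, by push_cast; ring⟩
  zero_mem' := ⟨0, 0, by simp⟩
  neg_mem' := by
    rintro x ⟨a, b, rfl⟩
    exact ⟨-a, -b, by push_cast; ring⟩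
  inv_mem' := by
    rintro x ⟨a, b, rfl⟩
    by_cases h : a ^ 2 + b ^ 2 = 0
    · have ha : a = 0 := by nlinarith [sq_nonneg a, sq_nonneg b]
      have hb : b = 0 := by nlinarith [sq_nonneg a, sq_nonneg b]
      subst ha hb
      exact ⟨0, 0, by simp⟩
    · refine ⟨a / (a ^ 2 + b ^ 2), -b / (a ^ 2 + b ^ 2), ?_⟩
      have h' : ((a : ℂ) ^ 2 + (b : ℂ) ^ 2) ≠ 0 := by exact_mod_cast h
      have h1 : ((a : ℂ) + b * Complex.I) * ((a : ℂ) - b * Complex.I) = (a : ℂ) ^ 2 + (b : ℂ) ^ 2 := by
        linear_combination (-(b : ℂ) ^ 2) * Complex.I_sq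
      have h2 : ((a : ℂ) + b * Complex.I) ≠ 0 := by
        intro h0
        rw [h0, zero_mul] at h1
        exact h' h1.symm
      rw [inv_eq_iff_eq_inv, ← one_div, eq_div_iff]
      · push_cast
        field_simp
        linear_combination h1
      · push_cast
        have h3 : ((a : ℂ) - b * Complex.I) ≠ 0 := by
          intro h0
          rw [h0, mul_zero] at h1
          exact h' h1.symm
        have h4 : (a : ℂ) / ((a : ℂ) ^ 2 + (b : ℂ) ^ 2) + -(b : ℂ) / ((a : ℂ) ^ 2 + (b : ℂ) ^ 2) * Complex.I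
            = ((a : ℂ) - b * Complex.I) / ((a : ℂ) ^ 2 + (b : ℂ) ^ 2) := by ring
        rw [h4]
        exact div_ne_zero h3 h'

private theorem TA_mem_k {z : ℂ} : z ∈ TA_k ↔ InQI z := Iff.rfl

private theorem TA_k_alg {z : ℂ} (hz : InQI z) : IsAlgebraic ℚ z := by
  obtain ⟨a, b, rfl⟩ := hz
  have hI : IsAlgebraic ℚ Complex.I := by
    refine ⟨Polynomial.X ^ 2 + 1, ?_, ?_⟩
    · exact (Polynomial.monic_X_pow_add_C (1 : ℚ) (two_ne_zero)).ne_zero
    · simp
  have ha : IsAlgebraic ℚ (a : ℂ) := isAlgebraic_algebraMap (A := ℂ) a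
  have hb : IsAlgebraic ℚ (b : ℂ) := isAlgebraic_algebraMap (A := ℂ) b
  exact ha.add (hb.mul hI)

/-- common denominators -/
private theorem TA_den {ι : Type*} [Fintype ι] (z : ι → ℂ) (hz : ∀ i, InQI (z i)) :
    ∃ D : ℕ, 0 < D ∧ ∀ i, InZI (D * z i) := by
  classical
  choose a b hab using hz
  refine ⟨∏ i, ((a i).den * (b i).den), ?_, ?_⟩
  · apply Finset.prod_pos
    intro i _
    exact Nat.mul_pos (a i).den_pos (b i).den_pos
  · intro i
    obtain ⟨t, ht⟩ := Finset.dvd_prod_of_mem (fun i => (a i).den * (b i).den) (Finset.mem_univ i)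
    refine ⟨t * (b i).den * (a i).num, t * (a i).den * (b i).num, ?_⟩
    rw [ht, hab i]
    have h1 : (a i : ℂ) * (a i).den = (a i).num := by exact_mod_cast Rat.mul_den_eq_num (a i)
    have h2 : (b i : ℂ) * (b i).den = (b i).num := by exact_mod_cast Rat.mul_den_eq_num (b i)
    push_cast
    rw [← h1, ← h2]
    ring

theorem linear_data (n : ℕ) (β u : Fin n → ℂ) (hβ : ∀ j, IsAlgebraic ℚ (β j))
    (hli : ∀ c : Fin n → ℂ, (∀ j, InQI (c j)) → ∑ j, c j * β j = 0 → c = 0) (hu : u ≠ 0)
    (h : ∑ j, β j * u j = 0) :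
    ∃ (m : ℕ) (B : Fin (m + 1) → Fin m → ℂ) (Y : Fin m → Fin m → ℂ) (c : Fin m → ℂ),
      0 < m ∧ (∀ j σ, IsAlgebraic ℚ (B j σ)) ∧ LinearIndependent ℂ Y ∧
      (∀ j i, ∃ g : Fin n → ℂ, (∀ l, InZI (g l)) ∧ ∑ σ, B j σ * Y i σ = ∑ l, g l * u l) ∧
      LinearIndependent ℂ (fun j : Fin m => B j.succ) ∧
      (∀ σ, B 0 σ = ∑ j : Fin m, c j * B j.succ σ) ∧ ∃ j, ¬ InQI (c j) := by
  classical
  have halgk : Algebra.IsAlgebraic ℚ TA_k := by
    refine ⟨fun z => ?_⟩
    have h1 : IsAlgebraic ℚ ((algebraMap TA_k ℂ) z) := TA_k_alg z.2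
    exact (isAlgebraic_algebraMap_iff (algebraMap TA_k ℂ).injective).1 h1
  let K₀ : IntermediateField TA_k ℂ := IntermediateField.adjoin TA_k (Set.range β)
  have hfin : FiniteDimensional TA_k K₀ := by
    apply IntermediateField.finiteDimensional_adjoin
    rintro x ⟨j, rfl⟩
    exact ((hβ j).tower_top TA_k).isIntegral
  let β' : Fin n → K₀ := fun j => ⟨β j, IntermediateField.subset_adjoin _ _ ⟨j, rfl⟩⟩
  have hlin : LinearIndependent TA_k β' := by
    rw [Fintype.linearIndependent_iff]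
    intro g hg i
    have h1 : ∑ j, ((g j : ℂ)) * β j = 0 := by
      have h2 := congrArg (fun y : K₀ => (y : ℂ)) hg
      have h3 : ∑ x, (algebraMap TA_k ℂ) (g x) * β x = 0 := by
        simpa [β', Algebra.smul_def] using h2
      exact h3
    have h2 := congrFun (hli (fun j => (g j : ℂ)) (fun j => (g j).2) h1) i
    exact Subtype.ext h2
  let b := Module.Basis.extend hlin.linearIndepOn_id
  have hfinι : Finite (hlin.linearIndepOn_id.extend (Set.subset_univ (Set.range β'))) :=
    Module.Finite.finite_basis b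
  have : Fintype (hlin.linearIndepOn_id.extend (Set.subset_univ (Set.range β'))) :=
    Fintype.ofFinite _
  let emb : Fin n → (hlin.linearIndepOn_id.extend (Set.subset_univ (Set.range β'))) :=
    fun j => ⟨β' j, hlin.linearIndepOn_id.subset_extend _ ⟨j, rfl⟩⟩
  have hemb : Function.Injective emb := by
    intro i j hij
    exact hlin.injective (congrArg Subtype.val hij)
  have hbemb : ∀ j, b (emb j) = β' j := fun j => Module.Basis.extend_apply_self _ _
  let u' := Function.extend emb u 0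
  have hu'1 : ∀ j, u' (emb j) = u j := fun j => hemb.extend_apply u 0 j
  have hu'0 : ∀ i, i ∉ Set.range emb → u' i = 0 := fun i hi => by
    simp only [u']
    rw [Function.extend_apply' _ _ _ (by simpa using hi)]
    rfl
  have hsum : ∀ F : (hlin.linearIndepOn_id.extend (Set.subset_univ (Set.range β'))) → ℂ,
      ∑ i, F i * u' i = ∑ j, F (emb j) * u j := by
    intro F
    symm
    apply Fintype.sum_of_injective emb hemb
    · intro i hi
      rw [hu'0 i hi, mul_zero]
    · intro j
      rw [hu'1]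
  have hu' : u' ≠ 0 := by
    intro h0
    apply hu
    funext j
    rw [← hu'1 j, h0]
    rfl
  have h' : ∑ j, K₀.val (b j) * u' j = 0 := by
    rw [hsum]
    simp only [hbemb]
    exact h
  obtain ⟨m, e, f, γ, c, Y, hm, hγ, hY, hB, hB0, hc, hBY⟩ := TA_core b u' hu' K₀.val h'
    (fun γ => ∀ i j, InZI ((b.repr (γ * b i) j : TA_k) : ℂ)) (by
      intro γ
      obtain ⟨D, hD, hD'⟩ := TA_den (fun p : _ × _ => ((b.repr (γ * b p.1) p.2 : TA_k) : ℂ))
        (fun p => (b.repr (γ * b p.1) p.2).2)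
      refine ⟨D, hD, fun i j => ?_⟩
      have h1 : b.repr ((D : K₀) * γ * b i) j = (D : TA_k) * b.repr (γ * b i) j := by
        have h2 : (D : K₀) * γ * b i = (D : TA_k) • (γ * b i) := by
          rw [Algebra.smul_def, map_natCast, mul_assoc]
        rw [h2, map_smul]
        rfl
      rw [h1]
      have h3 := hD' (i, j)
      simpa using h3)
  refine ⟨m, fun j σ => e σ (b.traceDual (f j)), Y, c, hm, ?_, hY, ?_, hB, hB0, ?_⟩
  · intro j σ
    have h1 : IsAlgebraic TA_k (b.traceDual (f j)) := Algebra.IsAlgebraic.isAlgebraic _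
    have h2 : IsAlgebraic TA_k (e σ (b.traceDual (f j))) := h1.algHom (e σ)
    exact h2.restrictScalars ℚ
  · intro j i
    refine ⟨fun l => ((b.repr (γ i * b (emb l)) (f j) : TA_k) : ℂ), fun l => hγ i _ _, ?_⟩
    rw [hBY j i]
    exact hsum (fun l => algebraMap TA_k ℂ (b.repr (γ i * b l) (f j)))
  · obtain ⟨j, hj⟩ := hc
    refine ⟨j, fun hq => hj ?_⟩
    exact ⟨⟨c j, hq⟩, rfl⟩

end Pool.Agent.Arith
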