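import Pool.Agent.Lib.MP_c0402d_ag.TDefs

/-!
# JOB TD1: universal formulas for the iterated derivations
-/

set_option autoImplicit false

namespace Pool.Agent.Arith

open Complex MvPolynomial

/-- Variables `X_j, Y_j`, `B_{jσ}`, and one variable for `1/2`. -/
abbrev Wr (m : ℕ) : Type := (Fin (m + 1) ⊕ Fin (m + 1)) ⊕ ((Fin (m + 1) × Fin m) ⊕ Unit)

/-- `ℓ¹` norm of the coefficients. -/
noncomputable def l1 {σ : Type} (P : MvPolynomial σ ℤ) : ℕ :=
  ∑ s ∈ P.support, (P.coeff s).natAbs

/-- The values of the variables. -/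
noncomputable def wrPt {m : ℕ} (B : Fin (m + 1) → Fin m → ℂ) (x y : Fin (m + 1) → ℂ) : Wr m → ℂ :=
  Sum.elim (Sum.elim x y) (Sum.elim (fun q => B q.1 q.2) (fun _ => 1 / 2))

section L1

variable {σ : Type}

private theorem TD1_l1_eq [DecidableEq σ] (P : MvPolynomial σ ℤ) (S : Finset (σ →₀ ℕ))
    (h : P.support ⊆ S) : l1 P = ∑ s ∈ S, (P.coeff s).natAbs := by
  unfold l1
  refine Finset.sum_subset h ?_
  intro s _ hs
  rw [MvPolynomial.notMem_support_iff.mp hs]
  rfl

private theorem TD1_l1_zero : l1 (0 : MvPolynomial σ ℤ) = 0 := by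
  simp [l1]

private theorem TD1_l1_add (P Q : MvPolynomial σ ℤ) : l1 (P + Q) ≤ l1 P + l1 Q := by
  classical
  rw [TD1_l1_eq (P + Q) (P.support ∪ Q.support) MvPolynomial.support_add,
    TD1_l1_eq P (P.support ∪ Q.support) Finset.subset_union_left,
    TD1_l1_eq Q (P.support ∪ Q.support) Finset.subset_union_right, ← Finset.sum_add_distrib]
  refine Finset.sum_le_sum ?_
  intro s _
  rw [MvPolynomial.coeff_add]
  exact Int.natAbs_add_le _ _

private theorem TD1_l1_sum {ι : Type*} (S : Finset ι) (f : ι → MvPolynomial σ ℤ) :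
    l1 (∑ i ∈ S, f i) ≤ ∑ i ∈ S, l1 (f i) := by
  classical
  induction S using Finset.induction_on with
  | empty => simp [TD1_l1_zero]
  | insert a s ha ih =>
    rw [Finset.sum_insert ha, Finset.sum_insert ha]
    exact (TD1_l1_add _ _).trans (Nat.add_le_add_left ih _)

private theorem TD1_l1_monomial (s : σ →₀ ℕ) (a : ℤ) : l1 (monomial s a) ≤ a.natAbs := by
  classical
  rw [TD1_l1_eq (monomial s a) {s} MvPolynomial.support_monomial_subset]
  simp

private theorem TD1_l1_mul (P Q : MvPolynomial σ ℤ) : l1 (P * Q) ≤ l1 P * l1 Q := by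
  classical
  have h : P * Q = ∑ s ∈ P.support, ∑ t ∈ Q.support,
      monomial (s + t) (P.coeff s * Q.coeff t) := by
    conv_lhs => rw [P.as_sum, Q.as_sum]
    rw [Finset.sum_mul_sum]
    refine Finset.sum_congr rfl fun s _ => Finset.sum_congr rfl fun t _ => ?_
    rw [MvPolynomial.monomial_mul]
  rw [h]
  refine (TD1_l1_sum _ _).trans ?_
  unfold l1
  rw [Finset.sum_mul_sum]
  refine Finset.sum_le_sum fun s _ => ?_
  refine (TD1_l1_sum _ _).trans ?_
  refine Finset.sum_le_sum fun t _ => ?_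
  refine (TD1_l1_monomial _ _).trans ?_
  rw [Int.natAbs_mul]

private theorem TD1_l1_X (i : σ) : l1 (X i : MvPolynomial σ ℤ) ≤ 1 :=
  TD1_l1_monomial _ _

private theorem TD1_l1_one : l1 (1 : MvPolynomial σ ℤ) ≤ 1 :=
  TD1_l1_monomial 0 1

private theorem TD1_l1_prod {ι : Type*} (S : Finset ι) (f : ι → MvPolynomial σ ℤ)
    (h : ∀ i ∈ S, l1 (f i) ≤ 1) : l1 (∏ i ∈ S, f i) ≤ 1 := by
  classical
  induction S using Finset.induction_on with
  | empty => simpa using TD1_l1_one
  | insert a s ha ih =>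
    rw [Finset.prod_insert ha]
    refine (TD1_l1_mul _ _).trans ?_
    have h1 := h a (Finset.mem_insert_self a s)
    have h2 := ih fun i hi => h i (Finset.mem_insert_of_mem hi)
    calc l1 (f a) * l1 (∏ i ∈ s, f i) ≤ 1 * 1 := Nat.mul_le_mul h1 h2
      _ = 1 := by norm_num

private theorem TD1_l1_pow (f : MvPolynomial σ ℤ) (h : l1 f ≤ 1) (n : ℕ) : l1 (f ^ n) ≤ 1 := by
  induction n with
  | zero => simpa using TD1_l1_one
  | succ n ih =>
    rw [pow_succ]
    refine (TD1_l1_mul _ _).trans ?_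
    calc l1 (f ^ n) * l1 f ≤ 1 * 1 := Nat.mul_le_mul ih h
      _ = 1 := by norm_num

/-- growth of the degree and of the norm under a derivation -/
private theorem TD1_deriv_bounds (f : σ → MvPolynomial σ ℤ) (a b : ℕ)
    (hdeg : ∀ i, (f i).totalDegree ≤ a + 1) (hl : ∀ i, l1 (f i) ≤ b) (P : MvPolynomial σ ℤ)
    (d : ℕ) (hd : P.totalDegree ≤ d) :
    (mkDerivation ℤ f P).totalDegree ≤ d + a ∧ l1 (mkDerivation ℤ f P) ≤ b * d * l1 P := by
  classical
  have key : ∀ s ∈ P.support, ∀ i ∈ s.support,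
      (monomial (s - Finsupp.single i 1) ((s i : ℕ) : ℤ) * f i).totalDegree ≤ d + a := by
    intro s hs i hi
    have h1 : (s.sum fun _ e => e) ≤ d :=
      (MvPolynomial.le_totalDegree hs).trans hd
    have h2 : (s - Finsupp.single i 1).sum (fun _ e => e) + 1 = s.sum fun _ e => e := by
      have h3 : s - Finsupp.single i 1 + Finsupp.single i 1 = s := by
        apply tsub_add_cancel_of_le
        rw [Finsupp.single_le_iff]
        exact Nat.one_le_iff_ne_zero.mpr (Finsupp.mem_support_iff.mp hi)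
      conv_rhs => rw [← h3]
      rw [Finsupp.sum_add_index' (fun _ => rfl) (fun _ _ _ => rfl)]
      rw [Finsupp.sum_single_index rfl]
    have h4 : (monomial (s - Finsupp.single i 1) ((s i : ℕ) : ℤ)).totalDegree ≤
        (s - Finsupp.single i 1).sum fun _ e => e :=
      MvPolynomial.totalDegree_monomial_le (s - Finsupp.single i 1) ((s i : ℕ) : ℤ)
    have h5 := MvPolynomial.totalDegree_mul (monomial (s - Finsupp.single i 1) ((s i : ℕ) : ℤ))
      (f i)
    have h6 := hdeg i
    omega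
  have expand : mkDerivation ℤ f P = ∑ s ∈ P.support, P.coeff s •
      s.sum fun i k => monomial (s - Finsupp.single i 1) ((k : ℕ) : ℤ) • f i := by
    conv_lhs => rw [P.as_sum]
    rw [map_sum]
    refine Finset.sum_congr rfl fun s _ => ?_
    rw [mkDerivation_monomial]
  constructor
  · rw [expand]
    refine MvPolynomial.totalDegree_finsetSum_le fun s hs => ?_
    refine (MvPolynomial.totalDegree_smul_le _ _).trans ?_
    refine MvPolynomial.totalDegree_finsetSum_le fun i hi => ?_
    exact key s hs i hi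
  · rw [expand]
    refine (TD1_l1_sum _ _).trans ?_
    unfold l1
    rw [Finset.mul_sum]
    refine Finset.sum_le_sum fun s hs => ?_
    change l1 _ ≤ _
    have h7 : P.coeff s • (s.sum fun i k => monomial (s - Finsupp.single i 1) ((k : ℕ) : ℤ) • f i)
        = monomial 0 (P.coeff s) *
          (s.sum fun i k => monomial (s - Finsupp.single i 1) ((k : ℕ) : ℤ) • f i) := by
      rw [MvPolynomial.smul_eq_C_mul]
      rfl
    rw [h7]
    refine (TD1_l1_mul _ _).trans ?_
    have h8 : l1 (s.sum fun i k => monomial (s - Finsupp.single i 1) ((k : ℕ) : ℤ) • f i) ≤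
        b * d := by
      refine (TD1_l1_sum _ _).trans ?_
      have h9 : ∀ i ∈ s.support,
          l1 (monomial (s - Finsupp.single i 1) ((s i : ℕ) : ℤ) • f i) ≤ s i * b := by
        intro i _
        rw [smul_eq_mul]
        refine (TD1_l1_mul _ _).trans ?_
        refine Nat.mul_le_mul ?_ (hl i)
        refine (TD1_l1_monomial _ _).trans ?_
        simp
      refine (Finset.sum_le_sum h9).trans ?_
      rw [← Finset.sum_mul, mul_comm]
      refine Nat.mul_le_mul_left b ?_
      exact (MvPolynomial.le_totalDegree hs).trans hd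
    calc l1 (monomial 0 (P.coeff s)) *
        l1 (s.sum fun i k => monomial (s - Finsupp.single i 1) ((k : ℕ) : ℤ) • f i)
        ≤ (P.coeff s).natAbs * (b * d) := Nat.mul_le_mul (TD1_l1_monomial _ _) h8
      _ = b * d * (P.coeff s).natAbs := by ring

end L1

/-- values of the universal derivation on the variables -/
private noncomputable def TD1_val (m : ℕ) (σ : Fin m) : Wr m → MvPolynomial (Wr m) ℤ :=
  Sum.elim (Sum.elim (fun j => X (Sum.inr (Sum.inl (j, σ))) * X (Sum.inl (Sum.inr j)))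
    (fun j => X (Sum.inr (Sum.inl (j, σ))) * X (Sum.inr (Sum.inr ())) *
      (monomial 0 3 * X (Sum.inl (Sum.inl j)) ^ 2 + monomial 0 (-1)))) (fun _ => 0)

private theorem TD1_val_degree (m : ℕ) (σ : Fin m) (i : Wr m) :
    (TD1_val m σ i).totalDegree ≤ 3 + 1 := by
  rcases i with (j | j) | q
  · simp only [TD1_val, Sum.elim_inl]
    have h := MvPolynomial.totalDegree_mul (X (Sum.inr (Sum.inl (j, σ))) : MvPolynomial (Wr m) ℤ)
      (X (Sum.inl (Sum.inr j)))
    rw [MvPolynomial.totalDegree_X, MvPolynomial.totalDegree_X] at h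
    omega
  · simp only [TD1_val, Sum.elim_inl, Sum.elim_inr]
    have h1 := MvPolynomial.totalDegree_mul (X (Sum.inr (Sum.inl (j, σ))) : MvPolynomial (Wr m) ℤ)
      (X (Sum.inr (Sum.inr ())))
    rw [MvPolynomial.totalDegree_X, MvPolynomial.totalDegree_X] at h1
    have h2 := MvPolynomial.totalDegree_mul (X (Sum.inr (Sum.inl (j, σ))) *
      X (Sum.inr (Sum.inr ())) : MvPolynomial (Wr m) ℤ)
      (monomial 0 3 * X (Sum.inl (Sum.inl j)) ^ 2 + monomial 0 (-1))
    have h3 := MvPolynomial.totalDegree_add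
      (monomial 0 3 * X (Sum.inl (Sum.inl j)) ^ 2 : MvPolynomial (Wr m) ℤ) (monomial 0 (-1))
    have h4 := MvPolynomial.totalDegree_mul (monomial 0 3 : MvPolynomial (Wr m) ℤ)
      (X (Sum.inl (Sum.inl j)) ^ 2)
    have h5 := MvPolynomial.totalDegree_pow (X (Sum.inl (Sum.inl j)) : MvPolynomial (Wr m) ℤ) 2
    rw [MvPolynomial.totalDegree_X] at h5
    have h6 := MvPolynomial.totalDegree_monomial_le (0 : Wr m →₀ ℕ) (3 : ℤ)
    have h7 := MvPolynomial.totalDegree_monomial_le (0 : Wr m →₀ ℕ) (-1 : ℤ)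
    simp only [Finsupp.sum_zero_index] at h6 h7
    have h8 := max_le_iff.mp (le_refl (max (monomial 0 3 * X (Sum.inl (Sum.inl j)) ^ 2 :
      MvPolynomial (Wr m) ℤ).totalDegree (monomial 0 (-1) : MvPolynomial (Wr m) ℤ).totalDegree))
    have h9 : max (monomial 0 3 * X (Sum.inl (Sum.inl j)) ^ 2 :
      MvPolynomial (Wr m) ℤ).totalDegree (monomial 0 (-1) : MvPolynomial (Wr m) ℤ).totalDegree
        ≤ 2 := max_le (by omega) (by omega)
    omega
  · simp [TD1_val]

private theorem TD1_val_l1 (m : ℕ) (σ : Fin m) (i : Wr m) : l1 (TD1_val m σ i) ≤ 4 := by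
  rcases i with (j | j) | q
  · simp only [TD1_val, Sum.elim_inl]
    refine (TD1_l1_mul _ _).trans ?_
    calc _ ≤ 1 * 1 := Nat.mul_le_mul (TD1_l1_X _) (TD1_l1_X _)
      _ ≤ 4 := by norm_num
  · simp only [TD1_val, Sum.elim_inl, Sum.elim_inr]
    refine (TD1_l1_mul _ _).trans ?_
    have h1 : l1 (X (Sum.inr (Sum.inl (j, σ))) * X (Sum.inr (Sum.inr ())) :
        MvPolynomial (Wr m) ℤ) ≤ 1 * 1 :=
      (TD1_l1_mul _ _).trans (Nat.mul_le_mul (TD1_l1_X _) (TD1_l1_X _))
    have h2 : l1 (monomial 0 3 * X (Sum.inl (Sum.inl j)) ^ 2 + monomial 0 (-1) :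
        MvPolynomial (Wr m) ℤ) ≤ 3 * 1 + 1 := by
      refine (TD1_l1_add _ _).trans (Nat.add_le_add ?_ (TD1_l1_monomial _ _))
      exact (TD1_l1_mul _ _).trans
        (Nat.mul_le_mul (TD1_l1_monomial _ _) (TD1_l1_pow _ (TD1_l1_X _) 2))
    calc _ ≤ (1 * 1) * (3 * 1 + 1) := Nat.mul_le_mul h1 h2
      _ = 4 := by norm_num
  · simp [TD1_val, TD1_l1_zero]

private noncomputable def TD1_Dop (m : ℕ) (σ : Fin m) :
    Derivation ℤ (MvPolynomial (Wr m) ℤ) (MvPolynomial (Wr m) ℤ) :=
  mkDerivation ℤ (TD1_val m σ)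

private noncomputable def TD1_word (m : ℕ) (w : List (Fin m)) (G : MvPolynomial (Wr m) ℤ) :
    MvPolynomial (Wr m) ℤ :=
  w.foldr (fun σ g => TD1_Dop m σ g) G

private theorem TD1_word_bounds (m : ℕ) (w : List (Fin m)) (G : MvPolynomial (Wr m) ℤ) (d N : ℕ)
    (hG : G.totalDegree ≤ d) (hl : l1 G ≤ 1) (hN : d + 3 * w.length ≤ N) :
    (TD1_word m w G).totalDegree ≤ d + 3 * w.length ∧ l1 (TD1_word m w G) ≤
      (4 * N) ^ w.length := by
  induction w with
  | nil => simpa [TD1_word] using ⟨hG, hl⟩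
  | cons σ w ih =>
    rw [List.length_cons] at hN
    obtain ⟨h1, h2⟩ := ih (by omega)
    have h3 := TD1_deriv_bounds (TD1_val m σ) 3 4 (TD1_val_degree m σ) (TD1_val_l1 m σ)
      (TD1_word m w G) (d + 3 * w.length) h1
    have h4 : TD1_word m (σ :: w) G = mkDerivation ℤ (TD1_val m σ) (TD1_word m w G) := rfl
    rw [h4, List.length_cons]
    refine ⟨by have := h3.1; omega, h3.2.trans ?_⟩
    rw [pow_succ']
    refine Nat.mul_le_mul ?_ h2
    refine Nat.mul_le_mul_left 4 ?_
    omega

/-- the specialisation -/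
private noncomputable def TD1_phi {m : ℕ} (B : Fin (m + 1) → Fin m → ℂ) :
    MvPolynomial (Wr m) ℤ →+* MvPolynomial (Vr m) ℂ :=
  eval₂Hom (Int.castRingHom _) (Sum.elim X (Sum.elim (fun q => C (B q.1 q.2)) fun _ => C (1 / 2)))

private theorem TD1_phi_Dop {m : ℕ} (B : Fin (m + 1) → Fin m → ℂ) (σ : Fin m)
    (P : MvPolynomial (Wr m) ℤ) : Dop B σ (TD1_phi B P) = TD1_phi B (TD1_Dop m σ P) := by
  induction P using MvPolynomial.induction_on with
  | C a =>
    have h1 : TD1_phi B (C a) = ((a : ℤ) : MvPolynomial (Vr m) ℂ) := by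
      simp [TD1_phi]
    rw [h1]
    have h2 : Dop B σ ((a : ℤ) : MvPolynomial (Vr m) ℂ) = 0 := (Dop B σ).map_intCast a
    rw [h2]
    have h3 : TD1_Dop m σ (C a) = 0 := by
      unfold TD1_Dop
      exact MvPolynomial.derivation_C _ _
    rw [h3, map_zero]
  | add p q hp hq => rw [map_add, map_add, map_add, map_add, hp, hq]
  | mul_X p i hp =>
    rw [map_mul, Derivation.leibniz, Derivation.leibniz, map_add, smul_eq_mul, smul_eq_mul,
      smul_eq_mul, smul_eq_mul, map_mul, map_mul, hp]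
    congr 2
    unfold TD1_Dop Dop
    rw [mkDerivation_X]
    rcases i with (j | j) | q
    · have h1 : TD1_phi B (X (Sum.inl (Sum.inl j))) = X (Sum.inl j) := by simp [TD1_phi]
      rw [h1, mkDerivation_X]
      simp [TD1_phi, TD1_val]
    · have h1 : TD1_phi B (X (Sum.inl (Sum.inr j))) = X (Sum.inr j) := by simp [TD1_phi]
      rw [h1, mkDerivation_X]
      simp only [Sum.elim_inr]
      have h3 : TD1_phi B (monomial 0 3) = 3 := by
        have : TD1_phi B (C 3) = 3 := by simp [TD1_phi]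
        exact this
      have h4 : TD1_phi B (monomial 0 (-1)) = -1 := by
        have : TD1_phi B (C (-1)) = -1 := by simp [TD1_phi]
        exact this
      have h5 : TD1_phi B (TD1_val m σ (Sum.inl (Sum.inr j))) =
          C (B j σ) * C (1 / 2) * (3 * X (Sum.inl j) ^ 2 + -1) := by
        simp only [TD1_val, Sum.elim_inl, Sum.elim_inr, map_mul, map_add, map_pow, h3, h4]
        simp [TD1_phi]
      rw [h5]
      have h6 : (C (B j σ / 2) : MvPolynomial (Vr m) ℂ) = C (B j σ) * C (1 / 2) := by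
        rw [← C_mul]
        congr 1
        ring
      rw [h6]
      ring
    · have h1 : TD1_val m σ (Sum.inr q) = 0 := by simp [TD1_val]
      rw [h1, map_zero]
      rcases q with q | q
      · have h2 : TD1_phi B (X (Sum.inr (Sum.inl q))) = C (B q.1 q.2) := by simp [TD1_phi]
        rw [h2]
        exact MvPolynomial.derivation_C _ _
      · have h2 : TD1_phi B (X (Sum.inr (Sum.inr q))) = C (1 / 2) := by simp [TD1_phi]
        rw [h2]
        exact MvPolynomial.derivation_C _ _

private theorem TD1_phi_word {m : ℕ} (B : Fin (m + 1) → Fin m → ℂ) (w : List (Fin m))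
    (P : MvPolynomial (Wr m) ℤ) : Dword B w (TD1_phi B P) = TD1_phi B (TD1_word m w P) := by
  induction w with
  | nil => rfl
  | cons σ w ih =>
    have h1 : Dword B (σ :: w) (TD1_phi B P) = Dop B σ (Dword B w (TD1_phi B P)) := rfl
    have h2 : TD1_word m (σ :: w) P = TD1_Dop m σ (TD1_word m w P) := rfl
    rw [h1, h2, ih, TD1_phi_Dop]

private theorem TD1_eval_phi {m : ℕ} (B : Fin (m + 1) → Fin m → ℂ) (x y : Fin (m + 1) → ℂ)
    (P : MvPolynomial (Wr m) ℤ) :
    eval (Sum.elim x y) (TD1_phi B P) = aeval (wrPt B x y) P := by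
  induction P using MvPolynomial.induction_on with
  | C a => simp [TD1_phi]
  | add p q hp hq => rw [map_add, map_add, map_add, hp, hq]
  | mul_X p i hp =>
    rw [map_mul, map_mul, map_mul, hp, aeval_X]
    congr 1
    rcases i with (j | j) | (q | q)
    · simp [TD1_phi, wrPt]
    · simp [TD1_phi, wrPt]
    · simp [TD1_phi, wrPt]
    · simp [TD1_phi, wrPt]

/-- The derivations of `MvPolynomial (Wr m) ℤ` with `X_j ↦ B_{jσ} Y_j`,
`Y_j ↦ B_{jσ} H (3 X_j² - 1)` raise the degree by at most `3` and multiply `l1` by at most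
`4 * degree`. -/
theorem exists_universal (m : ℕ) (w : List (Fin m)) (e : Fin (m + 1) → ℕ) :
    ∃ Z : MvPolynomial (Wr m) ℤ, Z.totalDegree ≤ ∑ j, e j + 3 * w.length ∧
      l1 Z ≤ (4 * (∑ j, e j + 3 * w.length)) ^ w.length ∧
      ∀ (B : Fin (m + 1) → Fin m → ℂ) (x y : Fin (m + 1) → ℂ),
        eval (Sum.elim x y) (Dword B w (∏ j, X (Sum.inl j) ^ (e j))) = aeval (wrPt B x y) Z := by
  set G : MvPolynomial (Wr m) ℤ := ∏ j, X (Sum.inl (Sum.inl j)) ^ (e j) with hG
  have hdeg : G.totalDegree ≤ ∑ j, e j := by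
    refine (MvPolynomial.totalDegree_finsetProd _ _).trans ?_
    refine Finset.sum_le_sum fun j _ => ?_
    refine (MvPolynomial.totalDegree_pow _ _).trans ?_
    rw [MvPolynomial.totalDegree_X, mul_one]
  have hl : l1 G ≤ 1 := TD1_l1_prod _ _ fun j _ => TD1_l1_pow _ (TD1_l1_X _) _
  have hb := TD1_word_bounds m w G (∑ j, e j) (∑ j, e j + 3 * w.length) hdeg hl le_rfl
  refine ⟨TD1_word m w G, hb.1, hb.2, ?_⟩
  intro B x y
  have h1 : (∏ j, X (Sum.inl j) ^ (e j) : MvPolynomial (Vr m) ℂ) = TD1_phi B G := by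
    rw [hG, map_prod]
    refine Finset.prod_congr rfl fun j _ => ?_
    rw [map_pow]
    simp [TD1_phi]
  rw [h1, TD1_phi_word, TD1_eval_phi]

/-- the derivations commute -/
theorem Dop_comm {m : ℕ} (B : Fin (m + 1) → Fin m → ℂ) (σ τ : Fin m)
    (G : MvPolynomial (Vr m) ℂ) : Dop B σ (Dop B τ G) = Dop B τ (Dop B σ G) := by
  have h : ⁅Dop B σ, Dop B τ⁆ = 0 := by
    refine MvPolynomial.derivation_ext ?_
    intro i
    rw [Derivation.commutator_apply, Derivation.coe_zero, Pi.zero_apply]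
    rcases i with j | j
    · have h1 : ∀ ρ : Fin m, Dop B ρ (X (Sum.inl j)) = C (B j ρ) * X (Sum.inr j) := by
        intro ρ; simp [Dop]
      have h2 : ∀ ρ : Fin m, Dop B ρ (X (Sum.inr j)) =
          C (B j ρ / 2) * (3 * X (Sum.inl j) ^ 2 - 1) := by
        intro ρ; simp [Dop]
      rw [h1, h1, ← smul_eq_C_mul, ← smul_eq_C_mul, Derivation.map_smul, Derivation.map_smul,
        h2, h2, smul_eq_C_mul, smul_eq_C_mul]
      have h6 : ∀ a : ℂ, (C (a / 2) : MvPolynomial (Vr m) ℂ) = C a * C (1 / 2) := by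
        intro a
        rw [← C_mul]
        congr 1
        ring
      rw [h6 (B j σ), h6 (B j τ)]
      ring
    · have h1 : ∀ ρ : Fin m, Dop B ρ (X (Sum.inl j)) = C (B j ρ) * X (Sum.inr j) := by
        intro ρ; simp [Dop]
      have h2 : ∀ ρ : Fin m, Dop B ρ (X (Sum.inr j)) =
          C (B j ρ / 2) * (3 * X (Sum.inl j) ^ 2 - 1) := by
        intro ρ; simp [Dop]
      have h3 : ∀ ρ : Fin m, Dop B ρ (3 * X (Sum.inl j) ^ 2 - 1) =
          3 * (2 * X (Sum.inl j) * (C (B j ρ) * X (Sum.inr j))) := by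
        intro ρ
        have h4 : (3 : MvPolynomial (Vr m) ℂ) = C 3 := by
          have h5 : (C ((3 : ℕ) : ℂ) : MvPolynomial (Vr m) ℂ) = ((3 : ℕ) : MvPolynomial (Vr m) ℂ) :=
            MvPolynomial.C_eq_coe_nat 3
          push_cast at h5
          exact h5.symm
        rw [map_sub, Derivation.map_one_eq_zero, sub_zero, h4, ← smul_eq_C_mul,
          Derivation.map_smul, Derivation.leibniz_pow, h1]
        simp only [smul_eq_C_mul, smul_eq_mul, nsmul_eq_mul]
        push_cast
        ring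
      rw [h2, h2, ← smul_eq_C_mul, ← smul_eq_C_mul, Derivation.map_smul, Derivation.map_smul,
        h3, h3, smul_eq_C_mul, smul_eq_C_mul]
      have h6 : ∀ a : ℂ, (C (a / 2) : MvPolynomial (Vr m) ℂ) = C a * C (1 / 2) := by
        intro a
        rw [← C_mul]
        congr 1
        ring
      rw [h6 (B j σ), h6 (B j τ)]
      ring
  have h2 := DFunLike.congr_fun h G
  rw [Derivation.commutator_apply, Derivation.coe_zero, Pi.zero_apply] at h2
  exact sub_eq_zero.mp h2

theorem Dword_perm {m : ℕ} (B : Fin (m + 1) → Fin m → ℂ) {w w' : List (Fin m)}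
    (h : w.Perm w') (G : MvPolynomial (Vr m) ℂ) : Dword B w G = Dword B w' G := by
  induction h with
  | nil => rfl
  | cons a _ ih =>
    change Dop B a (Dword B _ G) = Dop B a (Dword B _ G)
    rw [ih]
  | swap a b l =>
    change Dop B b (Dop B a (Dword B l G)) = Dop B a (Dop B b (Dword B l G))
    exact Dop_comm B b a _
  | trans _ _ ih1 ih2 => exact ih1.trans ih2

theorem Dword_add {m : ℕ} (B : Fin (m + 1) → Fin m → ℂ) (w : List (Fin m))
    (G G' : MvPolynomial (Vr m) ℂ) : Dword B w (G + G') = Dword B w G + Dword B w G' := by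
  induction w with
  | nil => rfl
  | cons a l ih =>
    change Dop B a (Dword B l (G + G')) = Dop B a (Dword B l G) + Dop B a (Dword B l G')
    rw [ih, map_add]

theorem Dword_C_mul {m : ℕ} (B : Fin (m + 1) → Fin m → ℂ) (w : List (Fin m)) (c : ℂ)
    (G : MvPolynomial (Vr m) ℂ) : Dword B w (C c * G) = C c * Dword B w G := by
  induction w with
  | nil => rfl
  | cons a l ih =>
    change Dop B a (Dword B l (C c * G)) = C c * Dop B a (Dword B l G)
    rw [ih, ← smul_eq_C_mul, Derivation.map_smul, smul_eq_C_mul]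

private theorem TD1_sum_apply {m : ℕ} {ι : Type} (s : Finset ι)
    (D : ι → Derivation ℂ (MvPolynomial (Vr m) ℂ) (MvPolynomial (Vr m) ℂ))
    (G : MvPolynomial (Vr m) ℂ) : (∑ i ∈ s, D i) G = ∑ i ∈ s, D i G := by
  classical
  induction s using Finset.induction_on with
  | empty => simp
  | insert a s ha ih => rw [Finset.sum_insert ha, Finset.sum_insert ha, ← ih]; rfl

private theorem TD1_Dop_change {m : ℕ} (B B' : Fin (m + 1) → Fin m → ℂ) (A : Fin m → Fin m → ℂ)
    (h : ∀ j σ, B j σ = ∑ i, A σ i * B' j i) (σ : Fin m) (G : MvPolynomial (Vr m) ℂ) :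
    Dop B σ G = ∑ i, C (A σ i) * Dop B' i G := by
  have h1 : Dop B σ = ∑ i, A σ i • Dop B' i := by
    refine MvPolynomial.derivation_ext ?_
    intro i
    rw [TD1_sum_apply]
    simp only [Derivation.coe_smul, Pi.smul_apply, smul_eq_C_mul]
    rcases i with j | j
    · simp only [Dop, mkDerivation_X, Sum.elim_inl]
      rw [h j σ, map_sum, Finset.sum_mul]
      refine Finset.sum_congr rfl fun i _ => ?_
      rw [C_mul]
      ring
    · simp only [Dop, mkDerivation_X, Sum.elim_inr]
      rw [h j σ, Finset.sum_div, map_sum, Finset.sum_mul]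
      refine Finset.sum_congr rfl fun i _ => ?_
      rw [mul_div_assoc, C_mul]
      ring
  rw [h1, TD1_sum_apply]
  simp only [Derivation.coe_smul, Pi.smul_apply, smul_eq_C_mul]

private theorem TD1_Dword_sum {m : ℕ} (B : Fin (m + 1) → Fin m → ℂ) {ι : Type} [Fintype ι]
    (σ : Fin m) (f : ι → MvPolynomial (Vr m) ℂ) (c : ι → ℂ) :
    Dop B σ (∑ i, C (c i) * f i) = ∑ i, C (c i) * Dop B σ (f i) := by
  rw [map_sum]
  refine Finset.sum_congr rfl fun i _ => ?_
  rw [← smul_eq_C_mul, Derivation.map_smul, smul_eq_C_mul]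

/-- `B = ∑ A_{σ i} B'_i` for the directions gives the same relation for the derivations; expand a
word. -/
theorem Dword_change {m : ℕ} (B B' : Fin (m + 1) → Fin m → ℂ) (A : Fin m → Fin m → ℂ)
    (h : ∀ j σ, B j σ = ∑ i, A σ i * B' j i) (w : List (Fin m)) (G : MvPolynomial (Vr m) ℂ) :
    Dword B w G = ∑ w' : Fin w.length → Fin m, C (∏ l, A (w.get l) (w' l)) *
      Dword B' (List.ofFn w') G := by
  induction w with
  | nil =>
    have h1 : ∀ w' : Fin ([] : List (Fin m)).length → Fin m,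
        C (∏ l, A (([] : List (Fin m)).get l) (w' l)) * Dword B' (List.ofFn w') G = G := by
      intro w'
      have h2 : List.ofFn w' = [] := by
        apply List.ofFn_zero
      rw [h2]
      have h3 : (∏ l, A (([] : List (Fin m)).get l) (w' l)) = 1 := by
        exact Finset.prod_eq_one fun l _ => l.elim0
      rw [h3]
      simp [Dword]
    rw [Finset.sum_congr rfl fun w' _ => h1 w']
    rw [Finset.sum_const, Finset.card_univ, Fintype.card_fun]
    simp [Dword]
  | cons σ w ih =>
    change Dop B σ (Dword B w G) = _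
    rw [ih, TD1_Dword_sum]
    have h1 : ∀ w' : Fin w.length → Fin m, C (∏ l, A (w.get l) (w' l)) *
        Dop B σ (Dword B' (List.ofFn w') G) = ∑ i, C (A σ i * ∏ l, A (w.get l) (w' l)) *
          Dword B' (i :: List.ofFn w') G := by
      intro w'
      rw [TD1_Dop_change B B' A h, Finset.mul_sum]
      refine Finset.sum_congr rfl fun i _ => ?_
      rw [C_mul]
      change _ = C (A σ i) * C _ * Dop B' i (Dword B' (List.ofFn w') G)
      ring
    rw [Finset.sum_congr rfl fun w' _ => h1 w', Finset.sum_comm]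
    rw [← Finset.sum_product']
    refine Fintype.sum_equiv (Fin.consEquiv (fun _ : Fin (w.length + 1) => Fin m)) _ _ ?_
    rintro ⟨i, w'⟩
    have h2 : (Fin.consEquiv (fun _ : Fin (w.length + 1) => Fin m)) (i, w') = Fin.cons i w' := rfl
    rw [h2]
    have h3 : (List.ofFn (Fin.cons i w' : Fin (w.length + 1) → Fin m)) = i :: List.ofFn w' := by
      rw [List.ofFn_succ, Fin.cons_zero]
      simp only [Fin.cons_succ]
    have h4 : (∏ l : Fin (w.length + 1), A ((σ :: w).get l)
        ((Fin.cons i w' : Fin (w.length + 1) → Fin m) l)) =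
        A σ i * ∏ l, A (w.get l) (w' l) := by
      rw [Fin.prod_univ_succ]
      simp only [Fin.cons_zero, Fin.cons_succ]
      rfl
    change C (A σ i * ∏ l, A (w.get l) (w' l)) * Dword B' (i :: List.ofFn w') G =
      C (∏ l : Fin (w.length + 1), A ((σ :: w).get l)
        ((Fin.cons i w' : Fin (w.length + 1) → Fin m) l)) *
      Dword B' (List.ofFn (Fin.cons i w' : Fin (w.length + 1) → Fin m)) G
    rw [h3, h4]

end Pool.Agent.Arith
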