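import Pool.Agent.Lib.MP_c0402d_ag.EB

/-!
# Definitions for the transcendence part (no sorry)
-/

set_option autoImplicit false

namespace Pool.Agent.Arith

open Complex MvPolynomial

/-- Variables `X_j = inl j`, `Y_j = inr j`. -/
abbrev Vr (m : ℕ) : Type := Fin (m + 1) ⊕ Fin (m + 1)

/-- The derivation with `X_j ↦ B_{jσ} Y_j`, `Y_j ↦ B_{jσ} (3 X_j² - 1) / 2`. -/
noncomputable def Dop {m : ℕ} (B : Fin (m + 1) → Fin m → ℂ) (σ : Fin m) :
    Derivation ℂ (MvPolynomial (Vr m) ℂ) (MvPolynomial (Vr m) ℂ) :=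
  mkDerivation ℂ (Sum.elim (fun j => C (B j σ) * X (Sum.inr j))
    (fun j => C (B j σ / 2) * (3 * X (Sum.inl j) ^ 2 - 1)))

/-- Iterated derivations, given by a word. -/
noncomputable def Dword {m : ℕ} (B : Fin (m + 1) → Fin m → ℂ) (w : List (Fin m))
    (G : MvPolynomial (Vr m) ℂ) : MvPolynomial (Vr m) ℂ :=
  w.foldr (fun σ g => Dop B σ g) G

/-- The polynomial in the variables `X_j` with coefficients `p`, of degree at most `d` in each. -/
noncomputable def Gpoly {m d : ℕ} (p : (Fin (m + 1) → Fin (d + 1)) → ℂ) :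
    MvPolynomial (Vr m) ℂ :=
  ∑ e, C (p e) * ∏ j, X (Sum.inl j) ^ (e j : ℕ)

end Pool.Agent.Arith
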