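import Pool.Agent.Lib.MP_c0402d_ag.TD1

/-!
# JOB TE1: algebraic derivations compute the partial derivatives
-/

set_option autoImplicit false

namespace Pool.Agent.Arith

open Complex MvPolynomial

/-- `G` at `X_j = Pf (z_j(ζ) + b_j)`, `Y_j = Qf (z_j(ζ) + b_j)`, `z_j(ζ) = ∑ B_{ji} ζ_i`. -/
noncomputable def Phi {m : ℕ} (B : Fin (m + 1) → Fin m → ℂ) (b : Fin (m + 1) → ℂ)
    (G : MvPolynomial (Vr m) ℂ) (ζ : Fin m → ℂ) : ℂ :=
  eval (Sum.elim (fun j => Pf (∑ i, B j i * ζ i + b j)) (fun j => Qf (∑ i, B j i * ζ i + b j))) G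

/-- the points where `Phi` is defined -/
def Ok {m : ℕ} (B : Fin (m + 1) → Fin m → ℂ) (b : Fin (m + 1) → ℂ) (ζ : Fin m → ℂ) : Prop :=
  ∀ j, ∑ i, B j i * ζ i + b j ∉ Lam.lattice

variable {m : ℕ} (B : Fin (m + 1) → Fin m → ℂ) (b : Fin (m + 1) → ℂ)

theorem isOpen_ok : IsOpen {ζ | Ok B b ζ} := by
  have h1 : {ζ | Ok B b ζ} = ⋂ j, (fun ζ : Fin m → ℂ => ∑ i, B j i * ζ i + b j) ⁻¹'
      ((Lam.lattice : Set ℂ)ᶜ) := by
    ext ζ; simp [Ok]
  rw [h1]
  apply isOpen_iInter_of_finite
  intro j
  apply IsOpen.preimage _ Lam.isClosed_lattice.isOpen_compl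
  fun_prop

private theorem te1_Pf_an {z : ℂ} (hz : z ∉ Lam.lattice) : AnalyticAt ℂ Pf z := by
  have h1 : DifferentiableOn ℂ Pf ((Lam.lattice : Set ℂ)ᶜ) := fun w hw =>
    (hasDerivAt_Pf hw).differentiableAt.differentiableWithinAt
  exact h1.analyticAt (Lam.isClosed_lattice.isOpen_compl.mem_nhds hz)

private theorem te1_Qf_an {z : ℂ} (hz : z ∉ Lam.lattice) : AnalyticAt ℂ Qf z := by
  have h1 : DifferentiableOn ℂ Qf ((Lam.lattice : Set ℂ)ᶜ) := fun w hw =>
    (hasDerivAt_Qf hw).differentiableAt.differentiableWithinAt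
  exact h1.analyticAt (Lam.isClosed_lattice.isOpen_compl.mem_nhds hz)

private theorem te1_lin_an (j : Fin (m + 1)) (ζ : Fin m → ℂ) :
    AnalyticAt ℂ (fun ζ : Fin m → ℂ => ∑ i, B j i * ζ i + b j) ζ := by
  apply AnalyticAt.add _ analyticAt_const
  have h1 : (fun ζ : Fin m → ℂ => ∑ i, B j i * ζ i) = ∑ i, fun ζ : Fin m → ℂ => B j i * ζ i := by
    ext ζ; simp
  rw [h1]
  apply Finset.analyticAt_sum
  intro i _
  apply AnalyticAt.mul analyticAt_const
  exact (ContinuousLinearMap.proj (R := ℂ) (φ := fun _ : Fin m => ℂ) i).analyticAt ζ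

theorem Phi_analyticAt (G : MvPolynomial (Vr m) ℂ) {ζ : Fin m → ℂ} (h : Ok B b ζ) :
    AnalyticAt ℂ (Phi B b G) ζ := by
  induction G using MvPolynomial.induction_on with
  | C a =>
    have : Phi B b (C a) = fun _ => a := by ext x; simp [Phi]
    rw [this]; exact analyticAt_const
  | add p q hp hq =>
    have : Phi B b (p + q) = Phi B b p + Phi B b q := by ext x; simp [Phi]
    rw [this]; exact hp.add hq
  | mul_X p n hp =>
    have h2 : Phi B b (p * X n) = Phi B b p * Phi B b (X n) := by ext x; simp [Phi]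
    rw [h2]
    apply hp.mul
    rcases n with j | j
    · have h3 : Phi B b (X (Sum.inl j)) = Pf ∘ (fun ζ : Fin m → ℂ => ∑ i, B j i * ζ i + b j) := by
        ext x; simp [Phi]
      rw [h3]
      have h5 : AnalyticAt ℂ Pf ((fun ζ : Fin m → ℂ => ∑ i, B j i * ζ i + b j) ζ) :=
        te1_Pf_an (h j)
      exact AnalyticAt.comp (g := Pf) (f := fun ζ : Fin m → ℂ => ∑ i, B j i * ζ i + b j) h5
        (te1_lin_an B b j ζ)
    · have h3 : Phi B b (X (Sum.inr j)) = Qf ∘ (fun ζ : Fin m → ℂ => ∑ i, B j i * ζ i + b j) := by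
        ext x; simp [Phi]
      rw [h3]
      have h5 : AnalyticAt ℂ Qf ((fun ζ : Fin m → ℂ => ∑ i, B j i * ζ i + b j) ζ) :=
        te1_Qf_an (h j)
      exact AnalyticAt.comp (g := Qf) (f := fun ζ : Fin m → ℂ => ∑ i, B j i * ζ i + b j) h5
        (te1_lin_an B b j ζ)

private theorem te1_lin_fd (j : Fin (m + 1)) (ζ : Fin m → ℂ) :
    HasFDerivAt (fun ζ : Fin m → ℂ => ∑ i, B j i * ζ i + b j)
      (∑ i, B j i • ContinuousLinearMap.proj (R := ℂ) (φ := fun _ : Fin m => ℂ) i) ζ := by
  apply HasFDerivAt.add_const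
  apply HasFDerivAt.fun_sum
  intro i _
  exact (hasFDerivAt_apply i ζ).const_mul (B j i)

theorem fderiv_Phi (G : MvPolynomial (Vr m) ℂ) {ζ : Fin m → ℂ} (h : Ok B b ζ) (v : Fin m → ℂ) :
    fderiv ℂ (Phi B b G) ζ v = ∑ i, v i * Phi B b (Dop B i G) ζ := by
  induction G using MvPolynomial.induction_on with
  | C a =>
    have : Phi B b (C a) = fun _ => a := by ext x; simp [Phi]
    rw [this]; simp [Phi]
  | add p q hp hq =>
    have h1 : Phi B b (p + q) = Phi B b p + Phi B b q := by ext x; simp [Phi]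
    rw [h1, fderiv_add (Phi_analyticAt B b p h).differentiableAt
      (Phi_analyticAt B b q h).differentiableAt]
    rw [add_apply, hp, hq, ← Finset.sum_add_distrib]
    apply Finset.sum_congr rfl
    intro i _
    simp [Phi]; ring
  | mul_X p n hp =>
    have h2 : Phi B b (p * X n) = Phi B b p * Phi B b (X n) := by ext x; simp [Phi]
    have hX : fderiv ℂ (Phi B b (X n)) ζ v = ∑ i, v i * Phi B b (Dop B i (X n)) ζ := by
      rcases n with j | j
      · have h3 : Phi B b (X (Sum.inl j)) = Pf ∘ (fun ζ : Fin m → ℂ => ∑ i, B j i * ζ i + b j) := by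
          ext x; simp [Phi]
        have h4 := (hasDerivAt_Pf (h j)).comp_hasFDerivAt ζ (te1_lin_fd B b j ζ)
        rw [h3, h4.fderiv]
        simp only [smul_apply, sum_apply, smul_eq_mul,
          ContinuousLinearMap.proj_apply, Finset.mul_sum]
        apply Finset.sum_congr rfl
        intro i _
        simp [Phi, Dop]; ring
      · have h3 : Phi B b (X (Sum.inr j)) = Qf ∘ (fun ζ : Fin m → ℂ => ∑ i, B j i * ζ i + b j) := by
          ext x; simp [Phi]
        have h4 := (hasDerivAt_Qf (h j)).comp_hasFDerivAt ζ (te1_lin_fd B b j ζ)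
        rw [h3, h4.fderiv]
        simp only [smul_apply, sum_apply, smul_eq_mul,
          ContinuousLinearMap.proj_apply, Finset.mul_sum]
        apply Finset.sum_congr rfl
        intro i _
        simp [Phi, Dop]; ring
    rw [h2, fderiv_mul (Phi_analyticAt B b p h).differentiableAt
      (Phi_analyticAt B b (X n) h).differentiableAt]
    simp only [add_apply, smul_apply, smul_eq_mul]
    rw [hp, hX, Finset.mul_sum, Finset.mul_sum, ← Finset.sum_add_distrib]
    apply Finset.sum_congr rfl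
    intro i _
    rw [Derivation.leibniz]
    simp [Phi]; ring

theorem iteratedFDeriv_Phi (G : MvPolynomial (Vr m) ℂ) {ζ : Fin m → ℂ} (h : Ok B b ζ)
    (w : List (Fin m)) :
    iteratedFDeriv ℂ w.length (Phi B b G) ζ (fun l => Pi.single (w.get l) 1) =
      Phi B b (Dword B w G) ζ := by
  induction w generalizing ζ with
  | nil => simp [Dword]
  | cons σ w ih =>
    have h1 : (fun l : Fin (σ :: w).length => (Pi.single ((σ :: w).get l) 1 : Fin m → ℂ)) =
      Fin.cons (Pi.single σ 1) (fun l : Fin w.length => Pi.single (w.get l) 1) := by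
      funext l
      refine Fin.cases ?_ (fun l => ?_) l
      · rfl
      · rfl
    rw [h1]
    simp only [List.length_cons]
    have hdiff : DifferentiableAt ℂ (iteratedFDeriv ℂ w.length (Phi B b G)) ζ := by
      have hc : ContDiffAt ℂ ⊤ (Phi B b G) ζ := (Phi_analyticAt B b G h).contDiffAt
      exact hc.differentiableAt_iteratedFDeriv (by exact_mod_cast WithTop.coe_lt_top _)
    rw [hdiff.iteratedFDeriv_succ_apply_left', Fin.cons_zero, Fin.tail_cons]
    have h3 : (fun x => iteratedFDeriv ℂ w.length (Phi B b G) x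
          (fun l : Fin w.length => Pi.single (w.get l) 1)) =ᶠ[nhds ζ] Phi B b (Dword B w G) := by
      filter_upwards [(isOpen_ok B b).mem_nhds h] with x hx
      exact ih hx
    rw [h3.fderiv_eq, fderiv_Phi B b _ h]
    rw [Finset.sum_eq_single σ]
    · simp [Dword]
    · intro i _ hi
      simp [hi]
    · simp

private theorem te1_iter_tuple (G : MvPolynomial (Vr m) ℂ) {ζ : Fin m → ℂ} (h : Ok B b ζ)
    (n : ℕ) (v : Fin n → Fin m) (w : List (Fin m)) (hw : w.length = n)
    (hv : ∀ l : Fin w.length, w.get l = v (Fin.cast hw l)) :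
    iteratedFDeriv ℂ n (Phi B b G) ζ (fun l => Pi.single (v l) 1) =
      Phi B b (Dword B w G) ζ := by
  subst hw
  rw [← iteratedFDeriv_Phi B b G h w]
  congr 1
  funext l
  rw [hv l]; rfl

private theorem te1_iter_zero (G : MvPolynomial (Vr m) ℂ) {ζ : Fin m → ℂ} (h : Ok B b ζ) (n : ℕ)
    (h0 : ∀ w : List (Fin m), w.length = n → Phi B b (Dword B w G) ζ = 0) :
    iteratedFDeriv ℂ n (Phi B b G) ζ = 0 := by
  apply ContinuousMultilinearMap.toMultilinearMap_injective
  apply Module.Basis.ext_multilinear (fun _ => Pi.basisFun ℂ (Fin m))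
  intro v
  have h1 := te1_iter_tuple B b G h n v (List.ofFn v) (List.length_ofFn) (fun l => by simp; rfl)
  rw [h0 _ List.length_ofFn] at h1
  simpa [Pi.basisFun_apply] using h1

private theorem te1_diag_zero (G : MvPolynomial (Vr m) ℂ) {ζ : Fin m → ℂ} (h : Ok B b ζ) (n : ℕ)
    (h0 : ∀ w : List (Fin m), w.length = n → Phi B b (Dword B w G) ζ = 0)
    {p : FormalMultilinearSeries ℂ (Fin m → ℂ) ℂ} (hp : HasFPowerSeriesAt (Phi B b G) p ζ)
    (y : Fin m → ℂ) : p n (fun _ => y) = 0 := by
  obtain ⟨r, hr⟩ := hp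
  have h1 := hr.factorial_smul y n
  rw [te1_iter_zero B b G h n h0] at h1
  have h2 : (n.factorial : ℕ) ≠ 0 := n.factorial_ne_zero
  simpa [h2] using h1

/-- Taylor: vanishing of all derivatives of order less than `T` -/
theorem Phi_isBigO (G : MvPolynomial (Vr m) ℂ) {ζ : Fin m → ℂ} (h : Ok B b ζ) (T : ℕ)
    (h0 : ∀ w : List (Fin m), w.length < T → Phi B b (Dword B w G) ζ = 0) :
    Phi B b G =O[nhds ζ] fun x => ‖x - ζ‖ ^ T := by
  obtain ⟨p, hp⟩ := Phi_analyticAt B b G h
  have h1 := hp.isBigO_sub_partialSum_pow T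
  have h2 : ∀ y, p.partialSum T y = 0 := by
    intro y
    unfold FormalMultilinearSeries.partialSum
    apply Finset.sum_eq_zero
    intro k hk
    exact te1_diag_zero B b G h k (fun w hw => h0 w (by rw [hw]; exact Finset.mem_range.mp hk)) hp y
  simp only [h2, sub_zero] at h1
  have h3 : Filter.Tendsto (fun x : Fin m → ℂ => x - ζ) (nhds ζ) (nhds 0) := by
    have : Filter.Tendsto (fun x : Fin m → ℂ => x - ζ) (nhds ζ) (nhds (ζ - ζ)) :=
      (continuous_id.sub continuous_const).tendsto ζ
    simpa using this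
  have h4 := h1.comp_tendsto h3
  refine h4.congr_left ?_
  intro x
  simp [Function.comp]

/-- vanishing of all derivatives at one point -/
theorem Phi_eq_zero (G : MvPolynomial (Vr m) ℂ) {ζ : Fin m → ℂ} (h : Ok B b ζ)
    (h0 : ∀ w : List (Fin m), Phi B b (Dword B w G) ζ = 0) :
    ∀ x, Ok B b x → Phi B b G x = 0 := by
  intro x hx
  -- vanishing near `ζ`
  have hnear : ∀ᶠ y in nhds ζ, Phi B b G y = 0 := by
    obtain ⟨p, r, hr⟩ := Phi_analyticAt B b G h
    have h1 : ∀ y ∈ Metric.eball ζ r, Phi B b G y = 0 := by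
      intro y hy
      have h2 := hr.hasSum_sub hy
      have h3 : (fun n => p n (fun _ => y - ζ)) = fun _ => 0 := by
        funext n
        exact te1_diag_zero B b G h n (fun w _ => h0 w) ⟨r, hr⟩ (y - ζ)
      rw [h3] at h2
      exact h2.unique hasSum_zero
    filter_upwards [Metric.eball_mem_nhds ζ hr.r_pos] with y hy
    exact h1 y hy
  -- restrict to the line through `ζ` and `x`
  let L : ℂ → (Fin m → ℂ) := fun t => ζ + t • (x - ζ)
  have hLan : ∀ t, AnalyticAt ℂ L t := by
    intro t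
    exact analyticAt_const.add (analyticAt_id.smul analyticAt_const)
  have hLc : Continuous L := by
    exact continuous_const.add (continuous_id.smul continuous_const)
  let bad : Set ℂ := {t | ¬ Ok B b (L t)}
  have hbad : bad.Countable := by
    have h1 : bad ⊆ ⋃ j : Fin (m + 1), {t : ℂ | ∑ i, B j i * (L t) i + b j ∈ Lam.lattice} := by
      intro t ht
      simp only [bad, Ok, Set.mem_ofPred_eq, not_forall, not_not] at ht
      obtain ⟨j, hj⟩ := ht
      exact Set.mem_iUnion.mpr ⟨j, hj⟩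
    refine Set.Countable.mono h1 (Set.countable_iUnion ?_)
    intro j
    have h2 : ∀ t : ℂ, ∑ i, B j i * (L t) i + b j =
        t * (∑ i, B j i * (x - ζ) i) + (∑ i, B j i * ζ i + b j) := by
      intro t
      simp only [L, Pi.add_apply, Pi.smul_apply, smul_eq_mul, mul_add, Finset.sum_add_distrib,
        Finset.mul_sum]
      have : ∀ i, B j i * (t * (x - ζ) i) = t * (B j i * (x - ζ) i) := fun i => by ring
      simp only [this]
      ring
    simp only [h2]
    have h3 := h j
    generalize (∑ i, B j i * ζ i + b j) = d at h3 ⊢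
    generalize (∑ i, B j i * (x - ζ) i) = c
    by_cases hc : c = 0
    · subst hc
      have : {t : ℂ | t * 0 + d ∈ Lam.lattice} = ∅ := by
        ext t; simp [h3]
      rw [this]; exact Set.countable_empty
    · have h4 : {t : ℂ | t * c + d ∈ Lam.lattice} = (fun t => t * c + d) ⁻¹' (Lam.lattice : Set ℂ) := rfl
      rw [h4]
      apply Set.Countable.preimage_of_injOn
      · have : Countable Lam.lattice := by
          exact (Lam.latticeEquivProd.toEquiv).countable_iff.mpr inferInstance
        exact Set.countable_coe_iff.mp this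
      · intro s _ t _ hst
        simpa [hc] using hst
  have hconn : IsPreconnected badᶜ := by
    apply (hbad.isPathConnected_compl_of_one_lt_rank _).isConnected.isPreconnected
    rw [Complex.rank_real_complex]; norm_num
  have hgan : AnalyticOnNhd ℂ (Phi B b G ∘ L) badᶜ := by
    intro t ht
    have h5 : Ok B b (L t) := by simpa [bad] using ht
    exact (Phi_analyticAt B b G h5).comp (hLan t)
  have h0mem : (0 : ℂ) ∈ badᶜ := by
    have : L 0 = ζ := by simp [L]
    simp only [bad, Set.mem_compl_iff, Set.mem_ofPred_eq, not_not, this]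
    exact h
  have h1mem : (1 : ℂ) ∈ badᶜ := by
    have : L 1 = x := by simp [L]
    simp only [bad, Set.mem_compl_iff, Set.mem_ofPred_eq, not_not, this]
    exact hx
  have hev : (Phi B b G ∘ L) =ᶠ[nhds 0] 0 := by
    have h6 : Filter.Tendsto L (nhds 0) (nhds ζ) := by
      have := hLc.tendsto 0
      simpa [L] using this
    exact h6.eventually hnear
  have hfin := hgan.eqOn_zero_of_preconnected_of_eventuallyEq_zero hconn h0mem hev h1mem
  simpa [L] using hfin

end Pool.Agent.Arith
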